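import Pool.Agent.Full.Norm.Vert

/-!
# The atlas of the double of a cap with special points

Index: a tile of every cell which is not near a special point, in both copies (generic charts of radius
`2 m + 2`), and the special points, in both copies (charts of radius `R`, inner radius `3 m + 4`).
-/

set_option autoImplicit false
set_option linter.unusedSectionVars false

namespace Full.Norm
open Finset Function Full.X3

namespace Cap
variable {D : Cap}

/-! ### generic charts -/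

lemma wr_add {l r i δ : ℤ} (h1 : l ≤ wr l r i + δ) (h2 : wr l r i + δ < r) :
    wr l r (i + δ) = wr l r i + δ := by
  have e : (i + δ - l) % (r - l) = (wr l r i + δ - l) % (r - l) := by
    have h3 : i + δ - l = (wr l r i + δ - l) + (r - l) * ((i - l) / (r - l)) := by
      have := Int.mul_ediv_add_emod (i - l) (r - l)
      unfold wr
      linarith
    rw [h3, Int.add_mul_emod_self_left]
  unfold wr at e ⊢
  rw [e]
  unfold wr at h1 h2
  rw [Int.emod_eq_of_lt (by omega) (by omega)]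
  ring

/-- a chart without real ends which satisfies every law -/
structure Bulk (D : Cap) {w : ℕ} (c : QChart D.T2 D.g2 w) : Prop where
  noreal : ∀ x, ¬ c.Real x
  law : ∀ {φ q φ' q' ψ}, PhLaw D φ q ψ → PhLaw D φ' q' ψ → ∀ ε : ℝ,
    c.SLaw ε (dph φ φ') (D.q2 q q') ∧ (swap c).SLaw ε (dph φ φ') (D.q2 q q')

/-- **the restricted chart around a tile** -/
theorem restr_cases {w A ρ : ℕ} (hD : D.Tame w A) (hw : 1 ≤ w) {p : ℤ × ℤ} (hp : p ∈ D.R)
    (hρ : ρ ≤ w) :
    (∃ f, GoodC D ((chartAt hD hw hp).restr hρ) f (2 * ρ)) ∨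
      Bulk D ((chartAt hD hw hp).restr hρ) := by
  have hsq : ∀ {s : ℤ × ℤ}, s ∈ sqr ρ → s ∈ sqr w := fun hs => sqr_mono hρ hs
  rcases chartAt_cases hD hw hp with ⟨v, Q, h1, h2, -, h4⟩ | ⟨h1, h2, h3, h4, h5, h6, h7⟩ |
    ⟨h1, h2, h3, h4, h5, h6⟩
  · left
    have h1' : D.Plain p ρ := fun s hs => h1 s (hsq hs)
    have h2' : QBox D.R p ρ v Q := ⟨h2.1, fun s hs => h2.2 s (hsq hs)⟩
    have e : (chartAt hD hw hp).restr hρ = Cap.plain p ρ v Q h1' h2' := by
      rw [h4]
      rfl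
    rw [e]
    exact ⟨fun s => p + s, plain_own h1' h2', fun s _ _ s' _ => by abel,
      fun hφ φ' q' => hφ.plain h1' h2' φ' q'⟩
  · left
    have h1' : 2 * (ρ : ℤ) ≤ D.r - D.l := by omega
    have h2' : D.y < p.2 - ρ := by omega
    have h4' : ∀ s ∈ sqr ρ, p.2 + s.2 = D.t → (wr D.l D.r (p.1 + s.1), D.t) ∉ D.U :=
      fun s hs => h4 s (hsq hs)
    have e : (chartAt hD hw hp).restr hρ = Cap.ceil p ρ h1' h2' h3 h4' := by
      rw [h7]
      rfl
    rw [e]
    refine ⟨_, ceil_own, ?_, fun hφ φ' q' => hφ.ceil φ' q'⟩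
    intro s hs hpl s' hs'
    have g1 := ceil_W.1 hs
    have g2 := ceil_W.1 hs'
    have g3 := mem_sqr.1 g1.1
    have g4 := mem_sqr.1 g2.1
    have g5 := wr_mem D.hlr (p.1 + s.1)
    have g6 : ¬ (wr D.l D.r (p.1 + s.1) - D.l ≤ (2 * ρ : ℕ)) := by
      intro g7
      have g8 := hpl (D.l - wr D.l D.r (p.1 + s.1), 0) (by
        rw [mem_sqr]
        simp only
        push_cast at g7 ⊢
        omega)
      simp only [Prod.mk_add_mk, add_sub_cancel, add_zero] at g8
      have := g8 ⟨⟨le_rfl, D.hlr⟩, by omega, g1.2⟩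
      omega
    have g9 : ¬ (D.r - 1 - wr D.l D.r (p.1 + s.1) < (2 * ρ : ℕ)) := by
      intro g7
      have g8 := hpl (D.r - 1 - wr D.l D.r (p.1 + s.1), 0) (by
        rw [mem_sqr]
        simp only
        push_cast at g7 ⊢
        omega)
      simp only [Prod.mk_add_mk, add_sub_cancel, add_zero] at g8
      have := g8 ⟨⟨by omega, by omega⟩, by omega, g1.2⟩
      omega
    push_cast at g6 g9
    have g10 := wr_add (l := D.l) (r := D.r) (i := p.1 + s.1) (δ := s'.1 - s.1) (by omega) (by omega)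
    have e1 : p.1 + s.1 + (s'.1 - s.1) = p.1 + s'.1 := by ring
    rw [e1] at g10
    refine Prod.ext ?_ ?_
    · show wr D.l D.r (p.1 + s'.1) = wr D.l D.r (p.1 + s.1) + (s' - s).1
      rw [g10]
      rfl
    · show p.2 + s'.2 = p.2 + s.2 + (s'.2 - s.2)
      ring
  · right
    have h1' : 2 * (ρ : ℤ) ≤ D.r - D.l := by omega
    have h2' : p.2 + ρ ≤ D.t := by omega
    have h3' : 2 * D.y - D.t ≤ p.2 - ρ := by omega
    have e : (chartAt hD hw hp).restr hρ = Cap.bulk p ρ h1' h2' h3' := by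
      rw [h6]
      rfl
    rw [e]
    exact ⟨fun x hx => absurd (rfl : (true : Bool) = true) hx.2.2, fun hφ hφ' ε =>
      ⟨hφ.bulk hφ' ε, hφ.bulk_swap hφ' ε⟩⟩

/-! ### reflected charts: positions and quadrants -/

lemma swap_ps {w : ℕ} {c : QChart D.T2 D.g2 w} (x : Half (ℤ × ℤ)) :
    (swap c).ps x = -1 - c.ps (rfh x) := by
  obtain ⟨⟨i, j⟩, d⟩ := x
  show Norm.ps (c.v.1, -c.v.2) ((i, j), d) = -1 - Norm.ps c.v ((i, -1 - j), d.flip)
  cases d <;> simp only [Norm.ps, Dir.flip] <;> ring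

lemma nq_flip (Q : Bool → Bool → Bool) : nq (fun a b => Q a (!b)) = nq Q := by
  unfold nq
  simp only [Bool.not_true, Bool.not_false]
  ring

lemma swap_nq {w : ℕ} {c : QChart D.T2 D.g2 w} : nq (swap c).Q = nq c.Q := nq_flip c.Q

lemma Bulk.noreal' {w : ℕ} {c : QChart D.T2 D.g2 w} (h : Bulk D c) (x : Half (ℤ × ℤ)) :
    ¬ (swap c).Real x := fun hx => h.noreal _ (swap_real.1 hx)

namespace Env
variable {p : ℕ} (E : D.Env p) {K n w A m R : ℕ}

/-- the indices of the atlas -/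
abbrev Ix (m : ℕ) : Type :=
  {a : D.Idx m // ∀ c, D.pick m a.1 - E.V c ∉ sqr (2 * m + 4)} ⊕ (Fin E.S × Bool)

open Classical in
noncomputable instance (m : ℕ) : Fintype (E.Ix m) := inferInstance

variable {E} (h : E.Ok K n w A m R)

include h in
lemma one_le_w : 1 ≤ w := by
  have := R_big h
  have := h.hRw
  omega

include h in
lemma two_m_le : 2 * m + 2 ≤ w := by
  have := h.hmR
  have := h.hRw
  omega

/-- the generic own chart -/
noncomputable def gen0 (a : {x // x ∈ D.cells m}) : QChart D.T2 D.g2 (2 * m + 2) :=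
  (chartAt h.tame (one_le_w h) (pick_mem a)).restr (two_m_le h)

/-- the generic charts -/
noncomputable def gen (a : D.Idx m) : QChart D.T2 D.g2 (2 * m + 2) :=
  if a.2 then swap (gen0 h a.1) else gen0 h a.1

lemma gen0_cases (a : {x // x ∈ D.cells m}) :
    (∃ f, GoodC D (gen0 h a) f (4 * m + 4)) ∨ Bulk D (gen0 h a) := by
  have e : 2 * (2 * m + 2) = 4 * m + 4 := by ring
  rcases restr_cases h.tame (one_le_w h) (pick_mem a) (two_m_le h) with ⟨f, h1⟩ | h1
  · left
    rw [e] at h1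
    exact ⟨f, h1⟩
  · exact Or.inr h1

/-- a generic chart which is not near a special point shows no corner -/
theorem gen0_flat {a : {x // x ∈ D.cells m}} (hf : ∀ c, D.pick m a - E.V c ∉ sqr (2 * m + 4))
    {x x' : Half (ℤ × ℤ)} (hx : (gen0 h a).Real x) (hx' : (gen0 h a).Real x')
    (h1 : (gen0 h a).ps x < 0) (h2 : 0 ≤ (gen0 h a).ps x') : nq (gen0 h a).Q = 2 := by
  by_contra hne
  have hRw := h.hRw
  have hmR := h.hmR
  obtain ⟨q1, q2⟩ := vertex_visible (gen0 h a).adm hx hx' h1 h2 hne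
  have hQ1 := ((gen0 h a).mem_W.1 hx.1).2
  have hQ2 := hx.2.2
  rcases chartAt_cases h.tame (one_le_w h) (pick_mem a) with ⟨v, Q, h3, h4, h5, h6⟩ |
    ⟨h3, h4, h5, h6, h7, h8, h9⟩ | ⟨h3, h4, h5, h6, h7, h8⟩
  · have e1 : (gen0 h a).Q = Q := by
      unfold gen0
      rw [h6]
      rfl
    have e2 : (gen0 h a).v = v - D.pick m a := by
      unfold gen0
      rw [h6]
      rfl
    rw [e1] at hne
    rw [e2] at q1 q2
    rw [e1, e2] at hQ1 hQ2
    simp only [Prod.fst_sub, Prod.snd_sub] at q1 q2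
    push_cast at q1 q2
    have h10 := card_around h4 (v := v) (by omega)
    have h11 : nq Q = 1 ∨ nq Q = 3 := by
      rcases nq_cases Q with h | ⟨a', b', h⟩ | h | ⟨a', b', h⟩ | h
      · exfalso
        unfold nq at h
        rw [QSet_iff] at hQ1
        generalize Q true true = b1 at *
        generalize Q true false = b2 at *
        generalize Q false true = b3 at *
        generalize Q false false = b4 at *
        cases b1 <;> cases b2 <;> cases b3 <;> cases b4 <;> simp at h hQ1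
      · exact Or.inl (nq_one h)
      · exact absurd h hne
      · exact Or.inr (nq_three h)
      · exfalso
        unfold nq at h
        rw [QSet_iff] at hQ2
        generalize Q true true = b1 at *
        generalize Q true false = b2 at *
        generalize Q false true = b3 at *
        generalize Q false false = b4 at *
        cases b1 <;> cases b2 <;> cases b3 <;> cases b4 <;> simp at h hQ2
        omega
    have h12 : #{t ∈ around v | t ∈ D.R} = 1 ∨ #{t ∈ around v | t ∈ D.R} = 3 := by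
      rcases h11 with h11 | h11
      · left
        rw [h11] at h10
        exact_mod_cast h10
      · right
        rw [h11] at h10
        exact_mod_cast h10
    rcases h.corner v h12 with ⟨h13, h14, h15⟩ | ⟨c, -, hc⟩
    · rcases h5 with h5 | h5
      · have h16 := h.tame.far _ _ (show ((D.pick m a).1, (D.pick m a).2) ∈ D.U from h5)
        have h17 := h.tame.flat _ _ (show ((D.pick m a).1, (D.pick m a).2) ∈ D.U from h5)
        rcases lt_or_ge (D.pick m a).2 D.t with h18 | h18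
        · exact h16 ⟨by rcases h13 with h13 | h13 <;> have := D.hlr <;> omega, by omega, h18⟩
        · refine h17 ⟨?_, h18, by omega⟩
          rcases h13 with h13 | h13
          · left; omega
          · right; omega
      · rcases h13 with h13 | h13 <;> omega
    · apply hf c
      rw [hc, mem_sqr]
      simp only [Prod.fst_sub, Prod.snd_sub]
      push_cast
      omega
  · have e1 : (gen0 h a).Q = fun _ b => !b := by
      unfold gen0
      rw [h9]
      rfl
    rw [e1] at hne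
    exact hne (by simp [nq])
  · have e1 : (gen0 h a).Q = fun _ _ => true := by
      unfold gen0
      rw [h8]
      rfl
    rw [e1] at hQ2
    exact hQ2 rfl

/-! ### the atlas -/

/-- the radius of a chart -/
def atlW (E : D.Env p) (m R : ℕ) : E.Ix m → ℕ
  | .inl _ => 2 * m + 2
  | .inr _ => R

/-- the radius of the inner box of a chart -/
def atlM (E : D.Env p) (m : ℕ) : E.Ix m → ℕ
  | .inl _ => m
  | .inr _ => 3 * m + 4

/-- the charts -/
noncomputable def atlC : ∀ b : E.Ix m, QChart D.T2 D.g2 (atlW E m R b)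
  | .inl a => gen h a.1
  | .inr (c, false) => oc h c
  | .inr (c, true) => mc h c

/-- the own charts -/
def atlOwn (E : D.Env p) (m : ℕ) : E.Ix m → Prop
  | .inl a => a.1.2 = false
  | .inr (_, s) => s = false

/-- the corner charts -/
def atlCn (E : D.Env p) (m : ℕ) : E.Ix m → Prop
  | .inl _ => False
  | .inr (c, s) => s = true ∧ c ∉ E.M

/-- the charts with real ends: one copy only -/
theorem atlC_cases (b : E.Ix m) :
    (atlOwn E m b ∧ ((∃ f r, r + 2 ≤ R ∧ GoodC D (atlC h b) f r) ∨ Bulk D (atlC h b))) ∨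
    (¬ atlOwn E m b ∧ ∃ c : QChart D.T2 D.g2 (atlW E m R b), atlC h b = swap c ∧
      ((∃ f r, r + 2 ≤ R ∧ GoodC D c f r) ∨ Bulk D c)) := by
  have hmR := h.hmR
  rcases b with ⟨⟨a, _ | _⟩, ha⟩ | ⟨c, _ | _⟩
  · left
    refine ⟨rfl, ?_⟩
    rcases gen0_cases h a with ⟨f, h1⟩ | h1
    · exact Or.inl ⟨f, _, by omega, h1⟩
    · exact Or.inr h1
  · right
    refine ⟨by simp [atlOwn], gen0 h a, rfl, ?_⟩
    rcases gen0_cases h a with ⟨f, h1⟩ | h1
    · exact Or.inl ⟨f, _, by omega, h1⟩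
    · exact Or.inr h1
  · left
    exact ⟨rfl, Or.inl ⟨_, 0, by omega, oc_good h c 0⟩⟩
  · right
    exact ⟨by simp [atlOwn], oc h c, rfl, Or.inl ⟨_, 0, by omega, oc_good h c 0⟩⟩

include h in
lemma atlW_le (b : E.Ix m) : atlW E m R b ≤ R := by
  have hmR := h.hmR
  rcases b with b | b
  · show 2 * m + 2 ≤ R
    omega
  · exact le_rfl

/-- the position of the mark -/
theorem exists_atlP (b : E.Ix m) : ∃ p0 : ℤ,
    (∀ x, (atlC h b).Real x → E.mu2 ((atlC h b).im x) = if (atlC h b).ps x + 1 = p0 then 1 else 0) ∧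
    (atlCn E m b → ∀ x, (atlC h b).Real x → (atlC h b).ps x ≠ p0) := by
  have hcn : ∀ b : E.Ix m, atlCn E m b → ∃ c, c ∉ E.M ∧ b = .inr (c, true) := by
    rintro (b | ⟨c, s⟩) hb
    · exact absurd hb id
    · obtain ⟨rfl, hc⟩ := hb
      exact ⟨c, hc, rfl⟩
  by_cases hb : atlCn E m b
  · obtain ⟨c, hcM, rfl⟩ := hcn b hb
    have hR := R_big h
    obtain ⟨p0, h1, h2⟩ := exists_p0' h (oc_good h c 0) (by omega) le_rfl
    refine ⟨p0, h1, fun _ => h2 fun x hx k hk he => ?_⟩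
    have h3 := next_me_near h hk
    rw [← he] at h3
    have h4 : (E.V c + x.1) - E.V c ∈ sqr R := by
      rw [add_sub_cancel_left]
      exact ((oc h c).mem_W.1 hx.1).1
    have h5 := far_eq h (c := c) (c' := k) h4 (sqr_mono (by omega) h3) le_rfl
    exact hcM (h5 ▸ hk)
  · rcases atlC_cases h b with ⟨h1, ⟨f, r, hr, hg⟩ | h2⟩ | ⟨h1, c, hc, ⟨f, r, hr, hg⟩ | h2⟩
    · obtain ⟨p0, h3, -⟩ := exists_p0 h hg hr (atlW_le h b)
      exact ⟨p0, h3, fun h4 => absurd h4 hb⟩
    · exact ⟨0, fun x hx => absurd hx (h2.noreal x), fun h4 => absurd h4 hb⟩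
    · obtain ⟨p0, h3, -⟩ := exists_p0' h hg hr (atlW_le h b)
      rw [hc]
      exact ⟨p0, h3, fun h4 => absurd h4 hb⟩
    · rw [hc]
      exact ⟨0, fun x hx => absurd hx (h2.noreal' x), fun h4 => absurd h4 hb⟩

/-- the position of the mark -/
noncomputable def atlP (b : E.Ix m) : ℤ := (exists_atlP h b).choose

lemma inn_mono {r r' ρ ρ' k : ℕ} {c : QChart D.T2 D.g2 k} (h1 : ρ ≤ k) (h2 : ρ' ≤ k) (h3 : ρ ≤ ρ')
    (h4 : r ≤ r') {y : Half ((ℤ × ℤ) ⊕ (ℤ × ℤ))} (hy : (c.restr h1).Inn r y) :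
    (c.restr h2).Inn r' y := by
  obtain ⟨t, g1, g2, g3⟩ := hy
  refine ⟨t, ?_, sqr_mono h4 g2, g3⟩
  have g4 : t ∈ QW c.v c.Q ρ := g1
  show t ∈ QW c.v c.Q ρ'
  rw [mem_QW] at g4 ⊢
  exact ⟨sqr_mono h3 g4.1, g4.2⟩

/-- a tile near a special point is in the inner box of its charts -/
lemma oc_inn (c : Fin E.S) {q : ℤ × ℤ} (hq : q ∈ D.R) {k : ℕ} (hk : q - E.V c ∈ sqr k) (hkR : k ≤ R)
    (d : Dir) : (oc h c).Inn k (Sum.inl q, d) := by
  refine ⟨q - E.V c, ?_, hk, ?_⟩
  · show q - E.V c ∈ QW (E.V c - E.V c) (E.Q c) R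
    rw [mem_QW, QSet_sub]
    refine ⟨sqr_mono hkR hk, ((h.qbox c).2 _ (sqr_mono hkR hk)).1 ?_⟩
    rw [add_sub_cancel]
    exact hq
  · show (Sum.inl q : (ℤ × ℤ) ⊕ (ℤ × ℤ)) = Sum.inl (E.V c + (q - E.V c))
    rw [add_sub_cancel]

lemma swap_inn {k ρ : ℕ} {c : QChart D.T2 D.g2 ρ} {q : ℤ × ℤ} {d : Dir}
    (hy : c.Inn k (Sum.inl q, d)) (d' : Dir) : (swap c).Inn k (Sum.inr q, d') := by
  obtain ⟨t, g1, g2, g3⟩ := hy
  refine ⟨rfl2 t, ?_, rfl2_sqr.2 g2, ?_⟩
  · rw [swap_W, rfl2_rfl2]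
    exact g1
  · show Sum.inr q = sw2 (c.φ (rfl2 (rfl2 t)))
    rw [rfl2_rfl2]
    have g4 : (Sum.inl q : (ℤ × ℤ) ⊕ (ℤ × ℤ)) = c.φ t := g3
    rw [← g4]
    rfl

/-- **every tile is in an inner box** -/
theorem atl_cov (y : Half ((ℤ × ℤ) ⊕ (ℤ × ℤ))) (hy : y.1 ∈ D.T2) :
    ∃ b : E.Ix m, (atlC h b).Inn (atlM E m b) y := by
  have hmR := h.hmR
  have hRw := h.hRw
  have key : ∀ q, q ∈ D.R → ∀ d, (∃ a : {a : {x // x ∈ D.cells m} // ∀ c, D.pick m a - E.V c ∉ sqr (2 * m + 4)},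
      (gen0 h a.1).Inn m (Sum.inl q, d)) ∨ ∃ c, (oc h c).Inn (3 * m + 4) (Sum.inl q, d) := by
    intro q hq d
    by_cases hf : ∀ c, D.pick m (D.cellOf m hq) - E.V c ∉ sqr (2 * m + 4)
    · left
      refine ⟨⟨D.cellOf m hq, hf⟩, ?_⟩
      have h1 := fam_inn_l h.tame (show 2 * m + 1 ≤ w by omega) h.hm hq d
      exact inn_mono (c := chartAt h.tame (one_le_w h) (pick_mem (D.cellOf m hq)))
        (show 2 * m + 1 ≤ w by omega) (two_m_le h) (by omega) le_rfl h1
    · right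
      push Not at hf
      obtain ⟨c, hc⟩ := hf
      have h1 := sub_pick h.hm hq
      refine ⟨c, oc_inn h c hq ?_ (by omega) d⟩
      rw [mem_sqr] at h1 hc ⊢
      simp only [Prod.fst_sub, Prod.snd_sub] at h1 hc ⊢
      push_cast at hc ⊢
      omega
  obtain ⟨q | q, d⟩ := y
  · have hq : q ∈ D.R := Finset.inl_mem_disjSum.1 hy
    rcases key q hq d with ⟨a, ha⟩ | ⟨c, hc⟩
    · exact ⟨.inl ⟨(a.1, false), a.2⟩, ha⟩
    · exact ⟨.inr (c, false), hc⟩
  · have hq : q ∈ D.R := Finset.inr_mem_disjSum.1 hy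
    rcases key q hq d with ⟨a, ha⟩ | ⟨c, hc⟩
    · exact ⟨.inl ⟨(a.1, true), a.2⟩, swap_inn ha d⟩
    · exact ⟨.inr (c, true), swap_inn hc d⟩

/-- **the atlas** -/
noncomputable def atl : MAtlas D.T2 D.g2 (E.Ix m) where
  w := atlW E m R
  m := atlM E m
  c := atlC h
  own := atlOwn E m
  cn := atlCn E m
  p0 := atlP h
  hm := by
    rintro (b | b)
    · exact h.hm
    · show 1 ≤ 3 * m + 4
      omega
  hw := by
    have := h.hmR
    rintro (b | b)
    · show 2 * m + 1 < 2 * m + 2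
      omega
    · show 2 * (3 * m + 4) + 1 < R
      omega
  cov := atl_cov h
  cnm := by
    rintro (b | ⟨c, s⟩) hb
    · exact absurd hb id
    · obtain ⟨rfl, -⟩ := hb
      simp [atlOwn]
  cnq := by
    rintro (b | ⟨c, s⟩) hb
    · exact absurd hb id
    · obtain ⟨rfl, hc⟩ := hb
      have h1 := h.kind c
      rw [if_neg hc] at h1
      show nq (swap (oc h c)).Q = 1 ∨ nq (swap (oc h c)).Q = 3
      rw [swap_nq]
      exact h1
  flat := by
    intro b hb hb' x x' hx hx' hlt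
    unfold Sx
    split_ifs with h1
    · suffices nq (atlC h b).Q = 2 by omega
      rcases b with ⟨⟨a, _ | _⟩, ha⟩ | ⟨c, _ | _⟩
      · exact absurd rfl hb
      · have e1 : (swap (gen0 h a)).ps x = -1 - (gen0 h a).ps (rfh x) := swap_ps x
        have e2 : (swap (gen0 h a)).ps x' = -1 - (gen0 h a).ps (rfh x') := swap_ps x'
        have h2 : (swap (gen0 h a)).ps x < 0 ∧ 0 ≤ (swap (gen0 h a)).ps x' := h1
        rw [e1, e2] at h2
        show nq (swap (gen0 h a)).Q = 2
        rw [swap_nq]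
        exact gen0_flat h ha (swap_real.1 hx') (swap_real.1 hx) (by omega) (by omega)
      · exact absurd rfl hb
      · have h2 : c ∈ E.M := by
          by_contra h2
          exact hb' ⟨rfl, h2⟩
        have h3 := h.kind c
        rw [if_pos h2] at h3
        show nq (swap (oc h c)).Q = 2
        rw [swap_nq]
        exact h3
    · rfl
  cn0 := fun b hb => (exists_atlP h b).choose_spec.2 hb

@[simp] lemma atl_w_inr (x : Fin E.S × Bool) : (atl h).w (.inr x) = R := rfl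
@[simp] lemma atl_m_inr (x : Fin E.S × Bool) : (atl h).m (.inr x) = 3 * m + 4 := rfl
@[simp] lemma atl_w_inl (a) : (atl h).w (.inl a) = 2 * m + 2 := rfl
@[simp] lemma atl_m_inl (a) : (atl h).m (.inl a) = m := rfl
lemma atl_c_mc (c : Fin E.S) : (atl h).c (.inr (c, true)) = mc h c := rfl
lemma atl_c_oc (c : Fin E.S) : (atl h).c (.inr (c, false)) = oc h c := rfl
lemma atl_c_gen (a) : (atl h).c (.inl a) = gen h a.1 := rfl
@[simp] lemma atl_cn_inl (a) : ¬ (atl h).cn (.inl a) := id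
@[simp] lemma atl_cn_false (c : Fin E.S) : ¬ (atl h).cn (.inr (c, false)) := fun hb => by
  have h1 : false = true := hb.1
  simp at h1
@[simp] lemma atl_cn_true (c : Fin E.S) : (atl h).cn (.inr (c, true)) ↔ c ∉ E.M :=
  ⟨fun hb => hb.2, fun hb => ⟨rfl, hb⟩⟩
lemma atl_own_inr (c : Fin E.S) (s : Bool) : (atl h).own (.inr (c, s)) ↔ s = false := Iff.rfl
lemma atl_own_inl (a) : (atl h).own (.inl a) ↔ a.1.2 = false := Iff.rfl

/-- the corner charts -/
lemma atl_cn_iff (b : E.Ix m) : (atl h).cn b ↔ ∃ c, c ∉ E.M ∧ b = .inr (c, true) := by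
  constructor
  · intro hb
    rcases b with b | ⟨c, s⟩
    · exact absurd hb id
    · obtain ⟨rfl, hc⟩ := hb
      exact ⟨c, hc, rfl⟩
  · rintro ⟨c, hc, rfl⟩
    exact ⟨rfl, hc⟩

lemma atl_mu (b : E.Ix m) {x : Half (ℤ × ℤ)} (hx : ((atl h).c b).Real x) :
    E.mu2 (((atl h).c b).im x) = if ((atl h).c b).ps x + 1 = (atl h).p0 b then 1 else 0 :=
  (exists_atlP h b).choose_spec.1 x hx

/-- the mark is at the vertex -/
theorem atl_p0_mark {c : Fin E.S} (hc : c ∈ E.M) (s : Bool) : (atl h).p0 (.inr (c, s)) = 0 := by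
  obtain ⟨x, y, h1, h2, h3, h4, h5, h6, h7, h8, h9⟩ := mark_ends h hc
  cases s
  · have e1 := atl_mu h (.inr (c, false)) (x := x) h1
    have e2 : ((atl h).c (.inr (c, false))).im x = Full.dl (E.me c) := by
      rw [h6]
      exact (oc_good h c 0).im_eq h1.1
    have e3 : ((atl h).c (.inr (c, false))).ps x = -1 := h4
    rw [e2, e3, mu2_dl h, if_pos ⟨c, hc, rfl⟩] at e1
    by_contra hne
    rw [if_neg (by omega)] at e1
    exact one_ne_zero e1
  · have hy : (mc h c).Real (rfh y) := by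
      show (swap (oc h c)).Real (rfh y)
      rw [swap_real, rfh_rfh]
      exact h2
    have e1 := atl_mu h (.inr (c, true)) (x := rfh y) hy
    have e2 : ((atl h).c (.inr (c, true))).im (rfh y) = Full.dr (next D.g (E.me c)) := by
      show (swap (oc h c)).im (rfh y) = _
      rw [swap_im, rfh_rfh, (oc_good h c 0).im_eq h2.1, swh_dl, h7]
    have e3 : ((atl h).c (.inr (c, true))).ps (rfh y) = -1 := by
      show (swap (oc h c)).ps (rfh y) = -1
      rw [swap_ps, rfh_rfh, h5]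
      rfl
    rw [e2, e3, mu2_dr h, if_pos ⟨c, hc, rfl⟩] at e1
    by_contra hne
    rw [if_neg (by omega)] at e1
    exact one_ne_zero e1

/-- **the laws** -/
theorem atl_laws {a a' : Fin p → Half (ℤ × ℤ)} (ha : a ∈ Fintype.piFinset E.Y)
    (ha' : a' ∈ Fintype.piFinset E.Y) {φ φ' : Half (ℤ × ℤ) → ℝ} {ψ : ℝ}
    (hφ : D.PhLaw φ (E.chg a) ψ) (hφ' : D.PhLaw φ' (E.chg a') ψ) :
    (atl h).Laws (dph φ φ') E.mu2 (Cap.Y2 a a') := by
  intro b
  have hmu := fun x hx => atl_mu h b (x := x) hx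
  show ∃ py, (atlC h b).Dat (dph φ φ') ((atl h).sg b) E.mu2 (Cap.Y2 a a') ((atl h).p0 b) py
  rcases atlC_cases h b with ⟨h1, hc⟩ | ⟨h1, c, hc, hc'⟩
  · have hs : (atl h).sg b = 1 := if_pos h1
    rw [hs]
    rcases hc with ⟨f, r, hr, hg⟩ | h2
    · exact dat_own h hg hr (atlW_le h b) hmu ha hφ
    · obtain ⟨θ, h3⟩ := ((h2.law hφ hφ' ((1 : ℤ) : ℝ)).1).law
      exact ⟨0, ⟨θ, h3.congr fun x hx => absurd hx (h2.noreal x)⟩,
        fun x hx => absurd hx (h2.noreal x), fun x hx => absurd hx (h2.noreal x)⟩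
  · have hs : (atl h).sg b = -1 := if_neg h1
    rw [hs]
    have hmu' : ∀ x, (atlC h b).Real x →
      E.mu2 ((atlC h b).im x) = if (atlC h b).ps x + 1 = (atl h).p0 b then 1 else 0 := hmu
    rw [hc] at hmu' ⊢
    rcases hc' with ⟨f, r, hr, hg⟩ | h2
    · exact dat_mir h hg hr (atlW_le h b) hmu' ha' hφ'
    · obtain ⟨θ, h3⟩ := ((h2.law hφ hφ' ((-1 : ℤ) : ℝ)).2).law
      exact ⟨0, ⟨θ, h3.congr fun x hx => absurd hx (h2.noreal' x)⟩,
        fun x hx => absurd hx (h2.noreal' x), fun x hx => absurd hx (h2.noreal' x)⟩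

/-- the real ends of own charts -/
theorem atl_own {b : E.Ix m} (hb : (atl h).own b) {x : Half (ℤ × ℤ)}
    (hx : ((atl h).c b).Real x) : ∃ u, ((atl h).c b).im x = Full.dl u := by
  rcases atlC_cases h b with ⟨h1, ⟨f, r, hr, hg⟩ | h2⟩ | ⟨h1, -⟩
  · exact ⟨_, hg.im_eq hx.1⟩
  · exact absurd hx (h2.noreal x)
  · exact absurd hb h1

/-- the real ends of the other charts -/
theorem atl_mir {b : E.Ix m} (hb : ¬ (atl h).own b) {x : Half (ℤ × ℤ)}
    (hx : ((atl h).c b).Real x) : ∃ u, ((atl h).c b).im x = Full.dr u := by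
  rcases atlC_cases h b with ⟨h1, -⟩ | ⟨h1, c, hc, hc'⟩
  · exact absurd h1 hb
  · have hx' : (atlC h b).Real x := hx
    show ∃ u, (atlC h b).im x = Full.dr u
    rw [hc] at hx' ⊢
    rcases hc' with ⟨f, r, hr, hg⟩ | h2
    · exact ⟨_, swap_im_eq h hg hr (atlW_le h b) hx'.1⟩
    · exact absurd hx' (h2.noreal' x)

theorem atl_ne_dl (b : E.Ix m) (hb : ¬ (atl h).own b) (x : Half (ℤ × ℤ))
    (hx : ((atl h).c b).Real x) (u : Half (ℤ × ℤ)) : ((atl h).c b).im x ≠ Full.dl u := by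
  obtain ⟨v, hv⟩ := atl_mir h hb hx
  rw [hv]
  exact (dl_ne_dr _ _).symm

include h in
/-- the number of the charts -/
theorem card_Ix : Fintype.card (E.Ix m) ≤ 2 * (K + 2) ^ 2 + 2 * K := by
  classical
  have h1 := card_idx_le h.tame h.hm
  have h2 : A / m ≤ K := by
    have := h.hm
    calc A / m ≤ (K * m) / m := Nat.div_le_div_right h.hA
      _ = K := Nat.mul_div_cancel K (by omega)
  have h3 : Fintype.card {a : D.Idx m // ∀ c, D.pick m a.1 - E.V c ∉ sqr (2 * m + 4)} ≤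
      Fintype.card (D.Idx m) := Fintype.card_subtype_le _
  have h4 : Fintype.card (E.Ix m) = Fintype.card {a : D.Idx m // ∀ c, D.pick m a.1 - E.V c ∉
      sqr (2 * m + 4)} + Fintype.card (Fin E.S × Bool) := by
    rw [← Fintype.card_sum]
  rw [h4, Fintype.card_prod, Fintype.card_fin, Fintype.card_bool]
  have h5 : (A / m + 2) ^ 2 ≤ (K + 2) ^ 2 := Nat.pow_le_pow_left (by omega) 2
  have := h.hS
  omega

end Env

end Cap

end Full.Norm
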