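import Pool.Agent.Full.Norm.QChart
import Pool.Agent.Full.Macro.Main

/-!
# Counting the strands which are not contained in charts of quadrant type

`QChart.Held`: the strand (open or closed) of a half edge is contained in the chart.  `count_le`: at most
`∑ X` strands have a half edge in the inner box of a chart by which they are not held; `ends_le` the same
for the ends of strands; `exists_moment`: all exponential moments of `∑ X`.
-/

set_option autoImplicit false

namespace Full.Norm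
open Finset Full.Mom
open Full.Perc (Ex)
open Full.Walk (bx)

namespace QChart
variable {τ : Type*} {T : Finset τ} {g : Half τ → Half τ}

lemma mem_sqr_bx {w : ℕ} {i j : ℤ} : (i, j) ∈ sqr w ↔ bx w i j := by
  rw [mem_sqr]
  unfold bx
  simp only
  constructor
  · rintro ⟨⟨h1, h2⟩, h3, h4⟩
    exact ⟨h1, h2, h3, h4⟩
  · rintro ⟨h1, h2, h3, h4⟩
    exact ⟨⟨h1, h2⟩, h3, h4⟩

lemma bx_cast {m : ℕ} {i j : ℤ} : bx ((2 * m + 1 : ℕ) : ℤ) i j ↔ bx (2 * (m : ℤ) + 1) i j := by
  push_cast
  rfl

lemma vec_sd' (d : Walk.Dir) : (Macro.sd d).vec = (d.dx, d.dy) := by cases d <;> rfl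

lemma add_sd (i j : ℤ) (d : Walk.Dir) : ((i, j) : ℤ × ℤ) + (Macro.sd d).vec = (i + d.dx, j + d.dy) := by
  rw [vec_sd']
  rfl

/-- the box chart of a chart of quadrant type -/
def toBox {m : ℕ} (c : QChart T g (2 * m + 1)) : Macro.Box T g m where
  φ i j := c.φ (i, j)
  Λ i j := (i, j) ∈ c.W
  sub i j h := bx_cast.1 (mem_sqr_bx.1 (c.mem_W.1 h).1)
  mem i j h := c.mem _ h
  inj i j i' j' h h' he := by
    have h1 := c.inj _ h _ h' he
    exact ⟨congrArg Prod.fst h1, congrArg Prod.snd h1⟩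
  glue i j d h hb := by
    by_cases h1 : QSet c.v c.Q ((i, j) + (Macro.sd d).vec)
    · right
      have h2 : (i, j) + (Macro.sd d).vec ∈ c.W := by
        rw [mem_W]
        refine ⟨?_, h1⟩
        rw [add_sd]
        exact mem_sqr_bx.2 (bx_cast.2 hb)
      refine ⟨by rw [← add_sd]; exact h2, ?_⟩
      rw [c.glue _ h _ h2, Macro.sd_neg, add_sd]
    · left
      refine c.wall _ h _ ?_ h1
      rw [add_sd]
      exact mem_sqr_bx.2 (bx_cast.2 hb)

variable [DecidableEq τ]

/-- the strand of `y` is contained in the chart -/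
def Held {w : ℕ} (c : QChart T g w) (ω : Finset τ) (y : Half τ) : Prop :=
  ∀ x, Conn (mate ω) g y x → ∃ t ∈ c.W, x.1 = c.φ t

lemma Held.of_conn {w : ℕ} {c : QChart T g w} {ω : Finset τ} {x y : Half τ} (h : c.Held ω y)
    (hc : Conn (mate ω) g y x) : c.Held ω x := fun z hz => h z (hc.trans hz)

/-- the number of the strands which cross one of the four rectangles around the inner box -/
noncomputable def X {m : ℕ} (c : QChart T g (2 * m + 1)) (ω : Finset τ) : ℕ := c.toBox.X ω

lemma toBox_holds {m : ℕ} (c : QChart T g (2 * m + 1)) {ω : Finset τ} {y : Half τ} :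
    c.toBox.Holds ω y ↔ c.Held ω y := by
  constructor
  · intro h x hx
    obtain ⟨i, j, h1, h2⟩ := h x hx
    exact ⟨(i, j), h1, h2⟩
  · intro h x hx
    obtain ⟨⟨i, j⟩, h1, h2⟩ := h x hx
    exact ⟨i, j, h1, h2⟩

omit [DecidableEq τ] in
lemma toBox_inner {m : ℕ} (c : QChart T g (2 * m + 1)) {y : Half τ} (h : c.Inn m y) :
    c.toBox.Inner y := by
  obtain ⟨⟨i, j⟩, h1, h2, h3⟩ := h
  exact ⟨i, j, h1, mem_sqr_bx.1 h2, h3⟩

end QChart

section count
variable {τ : Type*} [DecidableEq τ] {T : Finset τ} {g : Half τ → Half τ} {m : ℕ}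

/-- **the number of the strands (open or closed) which are not held** -/
theorem count_le (hG : Glu T g) (hm : 1 ≤ m) {κ : Type*} [Fintype κ] (c : κ → QChart T g (2 * m + 1))
    (ω : Finset τ) (S : Finset (Half τ)) (hS : ∀ x ∈ S, ∀ y ∈ S, Conn (mate ω) g x y → x = y)
    (h : ∀ y ∈ S, ∃ a, (c a).Inn m y ∧ ¬ (c a).Held ω y) : S.card ≤ ∑ a, (c a).X ω :=
  Macro.macro_count hG hm (fun a => (c a).toBox) ω S hS fun y hy => by
    obtain ⟨a, h1, h2⟩ := h y hy
    exact ⟨a, (c a).toBox_inner h1, fun h3 => h2 ((c a).toBox_holds.1 h3)⟩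

/-- every finite set of half edges contains representatives of its strands -/
theorem exists_repr (hG : Glu T g) (ω : Finset τ) (E : Finset (Half τ)) :
    ∃ S ⊆ E, (∀ x ∈ S, ∀ y ∈ S, Conn (mate ω) g x y → x = y) ∧ ∀ x ∈ E, ∃ y ∈ S, Conn (mate ω) g y x := by
  classical
  induction E using Finset.induction_on with
  | empty => exact ⟨∅, subset_rfl, by simp, by simp⟩
  | insert a E ha ih =>
    obtain ⟨S, h1, h2, h3⟩ := ih
    by_cases h : ∃ y ∈ S, Conn (mate ω) g y a
    · refine ⟨S, h1.trans (subset_insert _ _), h2, fun x hx => ?_⟩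
      rcases mem_insert.1 hx with rfl | hx
      · exact h
      · exact h3 x hx
    · refine ⟨insert a S, insert_subset_insert _ h1, ?_, ?_⟩
      · intro x hx y hy hc
        rcases mem_insert.1 hx with h4 | h4
        · rcases mem_insert.1 hy with h5 | h5
          · rw [h4, h5]
          · rw [h4] at hc
            exact absurd ⟨y, h5, (hG.two ω).symm hc⟩ h
        · rcases mem_insert.1 hy with h5 | h5
          · rw [h5] at hc
            exact absurd ⟨x, h4, hc⟩ h
          · exact h2 x h4 y h5 hc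
      · intro x hx
        rcases mem_insert.1 hx with rfl | hx
        · exact ⟨x, mem_insert_self _ _, Conn.refl _⟩
        · obtain ⟨y, hy, hc⟩ := h3 x hx
          exact ⟨y, mem_insert_of_mem hy, hc⟩

/-- **the number of the ends of strands which are not held** -/
theorem ends_le (hG : Glu T g) (hm : 1 ≤ m) {κ : Type*} [Fintype κ] (c : κ → QChart T g (2 * m + 1))
    (ω : Finset τ) (E : Finset (Half τ)) (hE : ∀ x ∈ E, Bd T g x)
    (h : ∀ y ∈ E, ∃ a, (c a).Inn m y ∧ ¬ (c a).Held ω y) : E.card ≤ 2 * ∑ a, (c a).X ω := by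
  obtain ⟨S, h1, h2, h3⟩ := exists_repr hG ω E
  have h4 := count_le hG hm c ω S h2 fun y hy => h y (h1 hy)
  have h5 : E ⊆ S ∪ S.image (other (mate ω) g) := by
    intro x hx
    obtain ⟨y, hy, hc⟩ := h3 x hx
    rcases (hG.conn_iff (hE y (h1 hy)) (hE x hx)).1 hc with h6 | h6
    · rw [h6]
      exact mem_union_left _ hy
    · rw [h6]
      exact mem_union_right _ (mem_image_of_mem _ hy)
  have h6 := (card_le_card h5).trans (card_union_le _ _)
  have h7 : (S.image (other (mate ω) g)).card ≤ S.card := card_image_le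
  omega

/-- **all exponential moments**, uniformly in the surface and in the scale -/
theorem exists_moment {Q : ℝ} (hQ : 1 ≤ Q) (B : ℕ) :
    ∃ C : ℝ, 1 ≤ C ∧ ∀ (τ : Type*) [DecidableEq τ] (T : Finset τ) (g : Half τ → Half τ) (m : ℕ)
      (κ : Type*) [Fintype κ] (c : κ → QChart T g (2 * m + 1)), Fintype.card κ ≤ B → 1 ≤ m →
      Ex T (fun ω => Q ^ (∑ a, (c a).X ω)) ≤ C := by
  obtain ⟨C, hC1, hC⟩ := Macro.moment hQ B
  exact ⟨C, hC1, fun τ _ T g m κ _ c hB hm => hC τ T g m κ (fun a => (c a).toBox) hB hm⟩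

/-- the same for bits -/
theorem exists_moment_avg {Q : ℝ} (hQ : 1 ≤ Q) (B : ℕ) :
    ∃ C : ℝ, 1 ≤ C ∧ ∀ (τ : Type*) [DecidableEq τ] (T : Finset τ) (g : Half τ → Half τ) (m : ℕ)
      (κ : Type*) [Fintype κ] (c : κ → QChart T g (2 * m + 1)), Fintype.card κ ≤ B → 1 ≤ m →
      avg (fun ω : T → Bool => Q ^ (∑ a, (c a).X (Full.Walk.ofBits T ω))) ≤ C := by
  obtain ⟨C, hC1, hC⟩ := Macro.moment_avg hQ B
  exact ⟨C, hC1, fun τ _ T g m κ _ c hB hm => hC τ T g m κ (fun a => (c a).toBox) hB hm⟩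

end count

end Full.Norm
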