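import Pool.Agent.Full.Norm.CapChart
import Pool.Agent.Full.Norm.QMacro

/-!
# The atlas of the double of a tame cap

`Cap.Tame w A`: the strip is wide and high, the region is far from the ends of the rows and from the
walls of the strip except above the middle part of the ceiling, and it is of quadrant type at the scale
`w`.  `chartAt`: an exact chart of quadrant type around every tile.  `fam`: finitely many charts of
radius `2 m + 1`, which show every tile of the double in the inner box of radius `m`.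
-/

set_option autoImplicit false

namespace Full.Norm
open Finset Full.Mom
open Full.Perc (Ex)

namespace Cap

/-- a tame cap at the scale `w`, of size `A` -/
structure Tame (D : Cap) (w A : ℕ) : Prop where
  wide : 4 * (w : ℤ) ≤ D.r - D.l
  high : 4 * (w : ℤ) ≤ D.t - D.y
  size : ∃ a b : ℤ, ∀ p ∈ D.R, (a ≤ p.1 ∧ p.1 < a + A) ∧ b ≤ p.2 ∧ p.2 < b + A
  far : ∀ i j, (i, j) ∈ D.U →
    ¬ ((D.l - 2 * w ≤ i ∧ i < D.r + 2 * w) ∧ D.y - 2 * w ≤ j ∧ j < D.t)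
  flat : ∀ i j, (i, j) ∈ D.U →
    ¬ (((D.l - 2 * w ≤ i ∧ i < D.l + 2 * w) ∨ (D.r - 2 * w ≤ i ∧ i < D.r + 2 * w)) ∧
      D.t ≤ j ∧ j < D.t + 2 * w)
  quad : ∀ p ∈ D.R, (p ∈ D.U ∨ (D.t - w ≤ p.2 ∧ D.l + w < p.1 ∧ p.1 < D.r - w)) →
    ∃ v Q, QBox D.R p w v Q

/-- the identity chart is used at `p` -/
def PlainAt (D : Cap) (w : ℕ) (p : ℤ × ℤ) : Prop :=
  p ∈ D.U ∨ (D.t - w ≤ p.2 ∧ D.l + w < p.1 ∧ p.1 < D.r - w)

variable {D : Cap} {w A : ℕ}

lemma mem_R' {p : ℤ × ℤ} : p ∈ D.R ↔ p ∈ D.U ∨ ((D.l ≤ p.1 ∧ p.1 < D.r) ∧ D.y ≤ p.2 ∧ p.2 < D.t) :=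
  mem_R (i := p.1) (j := p.2)

lemma Tame.plain (hD : D.Tame w A) {p : ℤ × ℤ} (hp : p ∈ D.R) (h : D.PlainAt w p) : D.Plain p w := by
  intro s hs h1
  rw [mem_sqr] at hs
  simp only [Prod.fst_add, Prod.snd_add] at h1 ⊢
  have hw := hD.wide
  have hh := hD.high
  rcases h with h | h
  · have h2 := hD.far p.1 p.2 h
    have h3 := hD.flat p.1 p.2 h
    constructor
    · constructor
      · by_contra h4
        rcases lt_or_ge p.2 D.t with h5 | h5
        · exact h2 ⟨⟨by omega, by omega⟩, by omega, h5⟩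
        · exact h3 ⟨Or.inl ⟨by omega, by omega⟩, h5, by omega⟩
      · by_contra h4
        rcases lt_or_ge p.2 D.t with h5 | h5
        · exact h2 ⟨⟨by omega, by omega⟩, by omega, h5⟩
        · exact h3 ⟨Or.inr ⟨by omega, by omega⟩, h5, by omega⟩
    · by_contra h4
      exact h2 ⟨⟨by omega, by omega⟩, by omega, by omega⟩
  · omega

lemma Tame.ceil_low (hD : D.Tame w A) {p : ℤ × ℤ} (hw : 1 ≤ w) (h : D.t - w ≤ p.2) : D.y < p.2 - w := by
  have := hD.high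
  omega

lemma Tame.ceil_top {p : ℤ × ℤ} (hp : p ∈ D.R) (h1 : ¬ D.PlainAt w p) : p.2 ≤ D.t := by
  rcases mem_R'.1 hp with h2 | h2
  · exact absurd (Or.inl h2) h1
  · omega

lemma Tame.ceil_flat (hD : D.Tame w A) {p : ℤ × ℤ} (hp : p ∈ D.R) (h1 : ¬ D.PlainAt w p)
    (h : D.t - w ≤ p.2) : ∀ s ∈ sqr w, p.2 + s.2 = D.t → (Norm.wr D.l D.r (p.1 + s.1), D.t) ∉ D.U := by
  intro s hs h2 h3
  rw [mem_sqr] at hs
  have h4 : ¬ (D.l + w < p.1 ∧ p.1 < D.r - w) := fun h5 => h1 (Or.inr ⟨h, h5⟩)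
  have h6 : (D.l ≤ p.1 ∧ p.1 < D.r) ∧ D.y ≤ p.2 ∧ p.2 < D.t := by
    rcases mem_R'.1 hp with h5 | h5
    · exact absurd (Or.inl h5) h1
    · exact h5
  have hw := hD.wide
  have h7 := hD.flat _ _ h3
  have h8 := wr_mem D.hlr (p.1 + s.1)
  -- the representative is near the ends
  apply h7
  refine ⟨?_, le_rfl, by omega⟩
  rcases lt_or_ge (p.1 + s.1) D.l with h9 | h9
  · have h10 : Norm.wr D.l D.r (p.1 + s.1) = p.1 + s.1 + (D.r - D.l) := by
      have h11 := wr_of_mem (l := D.l) (r := D.r) (i := p.1 + s.1 + (D.r - D.l)) (by omega) (by omega)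
      rw [← h11]
      unfold Norm.wr
      congr 1
      rw [show p.1 + s.1 + (D.r - D.l) - D.l = (p.1 + s.1 - D.l) + (D.r - D.l) by ring,
        Int.add_emod_right]
    rw [h10]
    right
    omega
  · rcases lt_or_ge (p.1 + s.1) D.r with h10 | h10
    · rw [wr_of_mem h9 h10]
      omega
    · have h11 : Norm.wr D.l D.r (p.1 + s.1) = p.1 + s.1 - (D.r - D.l) := by
        have h11 := wr_of_mem (l := D.l) (r := D.r) (i := p.1 + s.1 - (D.r - D.l)) (by omega) (by omega)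
        rw [← h11]
        unfold Norm.wr
        congr 1
        rw [show p.1 + s.1 - (D.r - D.l) - D.l = (p.1 + s.1 - D.l) - (D.r - D.l) by ring,
          Int.sub_emod_right]
      rw [h11]
      left
      omega

lemma Tame.bulk_top {p : ℤ × ℤ} (h : ¬ D.t - w ≤ p.2) : p.2 + w ≤ D.t := by
  omega

lemma Tame.bulk_low (hD : D.Tame w A) {p : ℤ × ℤ} (hp : p ∈ D.R) (h1 : ¬ D.PlainAt w p) :
    2 * D.y - D.t ≤ p.2 - w := by
  have := hD.high
  rcases mem_R'.1 hp with h5 | h5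
  · exact absurd (Or.inl h5) h1
  · omega

lemma Tame.wide2 (hD : D.Tame w A) : 2 * (w : ℤ) ≤ D.r - D.l := by
  have := hD.wide
  have := D.hlr
  omega

open Classical in
/-- **the chart around a tile of the region** -/
noncomputable def chartAt (hD : D.Tame w A) (hw : 1 ≤ w) {p : ℤ × ℤ} (hp : p ∈ D.R) :
    QChart D.T2 D.g2 w :=
  if h : D.PlainAt w p then
    plain p w (hD.quad p hp h).choose (hD.quad p hp h).choose_spec.choose (hD.plain hp h)
      (hD.quad p hp h).choose_spec.choose_spec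
  else if h2 : D.t - w ≤ p.2 then
    ceil p w hD.wide2 (hD.ceil_low hw h2) (Tame.ceil_top hp h) (hD.ceil_flat hp h h2)
  else bulk p w hD.wide2 (Tame.bulk_top h2) (hD.bulk_low hp h)

/-- the three kinds of charts -/
theorem chartAt_cases (hD : D.Tame w A) (hw : 1 ≤ w) {p : ℤ × ℤ} (hp : p ∈ D.R) :
    (∃ v Q h1 h2, D.PlainAt w p ∧ chartAt hD hw hp = plain p w v Q h1 h2) ∨
    (∃ h1 h2 h3 h4, ¬ D.PlainAt w p ∧ D.t - w ≤ p.2 ∧ chartAt hD hw hp = ceil p w h1 h2 h3 h4) ∨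
    (∃ h1 h2 h3, ¬ D.PlainAt w p ∧ p.2 < D.t - w ∧ chartAt hD hw hp = bulk p w h1 h2 h3) := by
  unfold chartAt
  by_cases h : D.PlainAt w p
  · rw [dif_pos h]
    exact Or.inl ⟨_, _, _, _, h, rfl⟩
  · rw [dif_neg h]
    by_cases h2 : D.t - w ≤ p.2
    · rw [dif_pos h2]
      exact Or.inr (Or.inl ⟨_, _, _, _, h, h2, rfl⟩)
    · rw [dif_neg h2]
      exact Or.inr (Or.inr ⟨_, _, _, h, by omega, rfl⟩)

/-- a tile of the region near `p` is shown at its place -/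
theorem chartAt_spec (hD : D.Tame w A) (hw : 1 ≤ w) {p q : ℤ × ℤ} (hp : p ∈ D.R) (hq : q ∈ D.R)
    (h : q - p ∈ sqr w) : q - p ∈ (chartAt hD hw hp).W ∧ (chartAt hD hw hp).φ (q - p) = Sum.inl q := by
  have e : p + (q - p) = q := add_sub_cancel p q
  rcases chartAt_cases hD hw hp with ⟨v, Q, h1, h2, -, h4⟩ | ⟨h1, h2, h3, h4, h5, h6, h7⟩ |
    ⟨h1, h2, h3, h4, h5, h6⟩
  · rw [h4]
    refine ⟨?_, ?_⟩
    · show q - p ∈ QW (v - p) Q w
      rw [mem_QW, QSet_sub, e]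
      refine ⟨h, ?_⟩
      have h5 := h2.2 (q - p) h
      rw [e] at h5
      exact h5.1 hq
    · show Sum.inl (p + (q - p)) = _
      rw [e]
  · have hp' : (D.l ≤ p.1 ∧ p.1 < D.r) ∧ D.y ≤ p.2 ∧ p.2 < D.t := by
      rcases mem_R'.1 hp with h8 | h8
      · exact absurd (Or.inl h8) h5
      · exact h8
    have h' := h
    rw [mem_sqr] at h'
    simp only [Prod.fst_sub, Prod.snd_sub] at h'
    have hq' : (D.l ≤ q.1 ∧ q.1 < D.r) ∧ D.y ≤ q.2 ∧ q.2 < D.t := by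
      rcases mem_R'.1 hq with h8 | h8
      · exfalso
        have h9 := hD.far _ _ h8
        have h10 := hD.flat _ _ h8
        have h11 : ¬ (D.l + w < p.1 ∧ p.1 < D.r - w) := fun h12 => h5 (Or.inr ⟨h6, h12⟩)
        have hhi := hD.high
        rcases lt_or_ge q.2 D.t with h12 | h12
        · exact h9 ⟨⟨by omega, by omega⟩, by omega, h12⟩
        · exact h10 ⟨by omega, h12, by omega⟩
      · exact h8
    rw [h7]
    refine ⟨?_, ?_⟩
    · show q - p ∈ QW (0, D.t - p.2) (fun _ b => !b) w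
      rw [mem_QW]
      refine ⟨h, ?_⟩
      unfold QSet
      simp only [Bool.not_eq_true', decide_eq_false_iff_not, Prod.snd_sub]
      omega
    · show Sum.inl (Norm.wr D.l D.r (p.1 + (q - p).1), p.2 + (q - p).2) = _
      have e1 : p.1 + (q - p).1 = q.1 := by simp
      have e2 : p.2 + (q - p).2 = q.2 := by simp
      rw [e1, e2, wr_of_mem hq'.1.1 hq'.1.2]
  · have hp' : (D.l ≤ p.1 ∧ p.1 < D.r) ∧ D.y ≤ p.2 ∧ p.2 < D.t := by
      rcases mem_R'.1 hp with h8 | h8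
      · exact absurd (Or.inl h8) h4
      · exact h8
    have h' := h
    rw [mem_sqr] at h'
    simp only [Prod.fst_sub, Prod.snd_sub] at h'
    have hq' : (D.l ≤ q.1 ∧ q.1 < D.r) ∧ D.y ≤ q.2 ∧ q.2 < D.t := by
      rcases mem_R'.1 hq with h8 | h8
      · exfalso
        have h9 := hD.far _ _ h8
        have hhi := hD.high
        exact h9 ⟨⟨by omega, by omega⟩, by omega, by omega⟩
      · exact h8
    rw [h6]
    refine ⟨?_, ?_⟩
    · show q - p ∈ QW 0 (fun _ _ => true) w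
      rw [mem_QW]
      exact ⟨h, rfl⟩
    · show D.bulkφ p (q - p) = _
      unfold bulkφ
      have e1 : p.1 + (q - p).1 = q.1 := by simp
      have e2 : p.2 + (q - p).2 = q.2 := by simp
      rw [e1, e2, if_pos hq'.2.1, wr_of_mem hq'.1.1 hq'.1.2]

/-- a chart with a wall in its interior shows only tiles of the first copy -/
theorem chartAt_inl (hD : D.Tame w A) (hw : 1 ≤ w) {p : ℤ × ℤ} (hp : p ∈ D.R) {s : ℤ × ℤ} {d : Dir}
    (hs : s ∈ (chartAt hD hw hp).W) (hsd : s + d.vec ∈ sqr w)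
    (hb : D.g2 ((chartAt hD hw hp).φ s, d) = ((chartAt hD hw hp).φ s, d)) (s' : ℤ × ℤ) :
    ∃ q, (chartAt hD hw hp).φ s' = Sum.inl q := by
  rcases chartAt_cases hD hw hp with ⟨v, Q, h1, h2, -, h4⟩ | ⟨h1, h2, h3, h4, h5, h6, h7⟩ |
    ⟨h1, h2, h3, h4, h5, h6⟩
  · rw [h4]
    exact ⟨_, rfl⟩
  · rw [h7]
    exact ⟨_, rfl⟩
  · exfalso
    rw [h6] at hs hb
    have h7 := (bulk p w h1 h2 h3).glue s hs d (mem_QW.2 ⟨hsd, rfl⟩)
    rw [h7] at hb
    exact d.opp_ne (congrArg Prod.snd hb)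

/-! ### the finite family -/

/-- the cells of side `m` which meet the region -/
noncomputable def cells (D : Cap) (m : ℕ) : Finset (ℤ × ℤ) := D.R.image fun p => (p.1 / m, p.2 / m)

/-- a tile of the region in each cell -/
noncomputable def pick (D : Cap) (m : ℕ) (x : {x // x ∈ D.cells m}) : ℤ × ℤ := (mem_image.1 x.2).choose

lemma pick_mem {m : ℕ} (x : {x // x ∈ D.cells m}) : D.pick m x ∈ D.R :=
  (mem_image.1 x.2).choose_spec.1

lemma pick_spec {m : ℕ} (x : {x // x ∈ D.cells m}) :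
    ((D.pick m x).1 / m, (D.pick m x).2 / m) = (x : ℤ × ℤ) :=
  (mem_image.1 x.2).choose_spec.2

/-- the cell of a tile -/
noncomputable def cellOf (D : Cap) (m : ℕ) {q : ℤ × ℤ} (hq : q ∈ D.R) : {x // x ∈ D.cells m} :=
  ⟨(q.1 / m, q.2 / m), mem_image.2 ⟨q, hq, rfl⟩⟩

lemma sub_pick {m : ℕ} (hm : 1 ≤ m) {q : ℤ × ℤ} (hq : q ∈ D.R) :
    q - D.pick m (D.cellOf m hq) ∈ sqr m := by
  have h1 := pick_spec (D.cellOf m hq)
  set p := D.pick m (D.cellOf m hq)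
  have h2 : p.1 / m = q.1 / m := congrArg Prod.fst h1
  have h3 : p.2 / m = q.2 / m := congrArg Prod.snd h1
  have hm' : (0 : ℤ) < m := by omega
  have key : ∀ a b : ℤ, a / m = b / m → -(m : ℤ) ≤ a - b ∧ a - b < m := by
    intro a b h
    have e1 := Int.emod_add_mul_ediv a m
    have e2 := Int.emod_add_mul_ediv b m
    have e3 := Int.emod_nonneg a hm'.ne'
    have e4 := Int.emod_lt_of_pos a hm'
    have e5 := Int.emod_nonneg b hm'.ne'
    have e6 := Int.emod_lt_of_pos b hm'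
    rw [h] at e1
    constructor <;> linarith
  rw [mem_sqr]
  simp only [Prod.fst_sub, Prod.snd_sub]
  exact ⟨key _ _ h2.symm, key _ _ h3.symm⟩

lemma card_cells_le (hD : D.Tame w A) {m : ℕ} (hm : 1 ≤ m) : (D.cells m).card ≤ (A / m + 2) ^ 2 := by
  obtain ⟨a, b, h⟩ := hD.size
  have hm' : (0 : ℤ) < m := by omega
  have key : ∀ c x : ℤ, c ≤ x → x < c + A → c / m ≤ x / m ∧ x / m < c / m + (A / m + 2 : ℕ) := by
    intro c x h1 h2
    refine ⟨Int.ediv_le_ediv hm' h1, ?_⟩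
    rw [Int.ediv_lt_iff_lt_mul hm']
    have e1 := Int.emod_add_mul_ediv c m
    have e3 := Int.emod_lt_of_pos c hm'
    have e4 : (A : ℤ) < (m : ℤ) * ((A / m : ℕ) + 1) := by
      have h5 := Nat.lt_mul_div_succ A (show 0 < m by omega)
      exact_mod_cast h5
    push_cast at e4 ⊢
    nlinarith
  have h1 : D.cells m ⊆ Ico (a / m) (a / m + (A / m + 2 : ℕ)) ×ˢ Ico (b / m) (b / m + (A / m + 2 : ℕ)) := by
    intro x hx
    obtain ⟨p, hp, rfl⟩ := mem_image.1 hx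
    obtain ⟨⟨h2, h3⟩, h4, h5⟩ := h p hp
    rw [mem_product, mem_Ico, mem_Ico]
    exact ⟨key a p.1 h2 h3, key b p.2 h4 h5⟩
  refine (card_le_card h1).trans ?_
  rw [card_product, Int.card_Ico, Int.card_Ico, add_sub_cancel_left, add_sub_cancel_left,
    Int.toNat_natCast, sq]

/-- the indices of the charts -/
abbrev Idx (D : Cap) (m : ℕ) := {x // x ∈ D.cells m} × Bool

lemma card_idx_le (hD : D.Tame w A) {m : ℕ} (hm : 1 ≤ m) :
    Fintype.card (D.Idx m) ≤ 2 * (A / m + 2) ^ 2 := by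
  rw [Fintype.card_prod, Fintype.card_coe, Fintype.card_bool, mul_comm]
  exact Nat.mul_le_mul_left 2 (card_cells_le hD hm)

/-- the chart which is used at a tile of the double -/
noncomputable def idx (D : Cap) (m : ℕ) : (x : (ℤ × ℤ) ⊕ (ℤ × ℤ)) → x ∈ D.T2 → D.Idx m
  | .inl _, h => (D.cellOf m (Finset.inl_mem_disjSum.1 h), false)
  | .inr _, h => (D.cellOf m (Finset.inr_mem_disjSum.1 h), true)

section fam
variable {m : ℕ} (hD : D.Tame w A) (hw : 2 * m + 1 ≤ w)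

/-- **the family of charts**: around one tile of every cell, and the reflected charts in the other copy -/
noncomputable def fam (a : D.Idx m) : QChart D.T2 D.g2 (2 * m + 1) :=
  if a.2 then swap ((chartAt hD (by omega) (pick_mem a.1)).restr hw)
  else (chartAt hD (by omega) (pick_mem a.1)).restr hw

variable (hm : 1 ≤ m)

include hm in
lemma fam_inn_l {q : ℤ × ℤ} (hq : q ∈ D.R) (d : Dir) :
    (fam hD hw (D.cellOf m hq, false)).Inn m (Sum.inl q, d) := by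
  have h1 := sub_pick hm hq
  have h2 : q - D.pick m (D.cellOf m hq) ∈ sqr (2 * m + 1) := by
    rw [mem_sqr] at h1 ⊢
    push_cast
    omega
  have h3 : q - D.pick m (D.cellOf m hq) ∈ sqr w := by
    rw [mem_sqr] at h1 ⊢
    omega
  have h4 := chartAt_spec hD (by omega) (pick_mem (D.cellOf m hq)) hq h3
  refine ⟨_, ?_, h1, h4.2.symm⟩
  have h5 := ((chartAt hD (by omega) (pick_mem (D.cellOf m hq))).mem_W.1 h4.1).2
  show q - D.pick m (D.cellOf m hq) ∈ ((chartAt hD _ (pick_mem (D.cellOf m hq))).restr hw).W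
  rw [QChart.mem_W]
  exact ⟨h2, h5⟩

include hm in
lemma fam_inn_r {q : ℤ × ℤ} (hq : q ∈ D.R) (d : Dir) :
    (fam hD hw (D.cellOf m hq, true)).Inn m (Sum.inr q, d) := by
  obtain ⟨t, h1, h2, h3⟩ := fam_inn_l hD hw hm hq d
  refine ⟨rfl2 t, ?_, rfl2_sqr.2 h2, ?_⟩
  · show rfl2 t ∈ QW _ _ _
    rw [mem_QW, rfl2_sqr]
    have h4 := (QChart.mem_W _).1 h1
    refine ⟨h4.1, ?_⟩
    show QSet (_, _) (fun a b => _) (rfl2 t)
    refine QSet_rfl.2 ?_
    rw [rfl2_rfl2]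
    exact h4.2
  · show Sum.inr q = sw2 (((chartAt hD _ (pick_mem (D.cellOf m hq))).restr hw).φ (rfl2 (rfl2 t)))
    rw [rfl2_rfl2]
    have h5 : (Sum.inl q : (ℤ × ℤ) ⊕ (ℤ × ℤ)) =
      ((chartAt hD (by omega) (pick_mem (D.cellOf m hq))).restr hw).φ t := h3
    rw [← h5]
    rfl

include hm in
/-- **every tile of the double is in the inner box of its chart** -/
theorem fam_inn (y : Half ((ℤ × ℤ) ⊕ (ℤ × ℤ))) (hy : y.1 ∈ D.T2) :
    (fam hD hw (D.idx m y.1 hy)).Inn m y := by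
  obtain ⟨q | q, d⟩ := y
  · exact fam_inn_l hD hw hm _ d
  · exact fam_inn_r hD hw hm _ d

/-- the strand (open or closed) of `y` is contained in the chart of `y` -/
def HeldAt (ω : Finset ((ℤ × ℤ) ⊕ (ℤ × ℤ))) (y : Half ((ℤ × ℤ) ⊕ (ℤ × ℤ))) : Prop :=
  ∃ h : y.1 ∈ D.T2, (fam hD hw (D.idx m y.1 h)).Held ω y

/-- the total number of the crossings of the charts -/
noncomputable def tot (ω : Finset ((ℤ × ℤ) ⊕ (ℤ × ℤ))) : ℕ := ∑ a, (fam hD hw a).X ω

include hm in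
/-- **the number of the strands, open or closed, which are not held** -/
theorem strands_le (ω : Finset ((ℤ × ℤ) ⊕ (ℤ × ℤ))) (S : Finset (Half ((ℤ × ℤ) ⊕ (ℤ × ℤ))))
    (hS : ∀ x ∈ S, ∀ y ∈ S, Conn (mate ω) D.g2 x y → x = y)
    (h : ∀ y ∈ S, y.1 ∈ D.T2 ∧ ¬ HeldAt hD hw ω y) : S.card ≤ tot hD hw ω :=
  count_le glu_g2 hm (fam hD hw) ω S hS fun y hy =>
    ⟨D.idx m y.1 (h y hy).1, fam_inn hD hw hm y _, fun h3 => (h y hy).2 ⟨_, h3⟩⟩

include hm in
/-- **the number of the ends of strands which are not held** -/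
theorem ends_le (ω : Finset ((ℤ × ℤ) ⊕ (ℤ × ℤ))) (E : Finset (Half ((ℤ × ℤ) ⊕ (ℤ × ℤ))))
    (hE : ∀ x ∈ E, Bd D.T2 D.g2 x) (h : ∀ y ∈ E, ¬ HeldAt hD hw ω y) : E.card ≤ 2 * tot hD hw ω :=
  Norm.ends_le glu_g2 hm (fam hD hw) ω E hE fun y hy =>
    ⟨D.idx m y.1 (hE y hy).1, fam_inn hD hw hm y _, fun h3 => h y hy ⟨_, h3⟩⟩

lemma sqr_add_vec {m w : ℕ} {t : ℤ × ℤ} (ht : t ∈ sqr m) (d : Dir) (h : m + 1 ≤ w) :
    t + d.vec ∈ sqr w := by
  obtain ⟨i, j⟩ := t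
  rw [mem_sqr] at ht ⊢
  cases d <;> simp only [Dir.vec, Prod.mk_add_mk] <;> simp only at ht <;> omega

include hm in
/-- the strand of an end of the first copy stays in the first copy if it is held -/
theorem held_inl {ω : Finset ((ℤ × ℤ) ⊕ (ℤ × ℤ))} {q : ℤ × ℤ} {d : Dir}
    (hb : D.g2 (Sum.inl q, d) = (Sum.inl q, d)) (h : HeldAt hD hw ω (Sum.inl q, d))
    {x : Half ((ℤ × ℤ) ⊕ (ℤ × ℤ))} (hx : Conn (mate ω) D.g2 (Sum.inl q, d) x) :
    ∃ q', x.1 = Sum.inl q' := by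
  obtain ⟨hq, hh⟩ := h
  have hq' : q ∈ D.R := Finset.inl_mem_disjSum.1 hq
  obtain ⟨t, h1, h2, h3⟩ := fam_inn_l hD hw hm hq' d
  obtain ⟨t', h4, h5⟩ := hh x hx
  have e : fam hD hw (D.cellOf m hq', false) =
    (chartAt hD (by omega) (pick_mem (D.cellOf m hq'))).restr hw := rfl
  have h6 : (chartAt hD (by omega) (pick_mem (D.cellOf m hq'))).φ t = Sum.inl q := h3.symm
  have h7 := chartAt_inl hD (by omega) (pick_mem (D.cellOf m hq')) (s := t) (d := d) (by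
    rw [QChart.mem_W]
    rw [e, QChart.mem_W] at h1
    refine ⟨?_, h1.2⟩
    have h8 := h1.1
    rw [mem_sqr] at h8 ⊢
    omega) (sqr_add_vec h2 d (by omega)) (by rw [h6]; exact hb) t'
  obtain ⟨q', h8⟩ := h7
  exact ⟨q', by rw [h5]; exact h8⟩

include hm in
/-- the strand of an end of the second copy stays in the second copy if it is held -/
theorem held_inr {ω : Finset ((ℤ × ℤ) ⊕ (ℤ × ℤ))} {q : ℤ × ℤ} {d : Dir}
    (hb : D.g2 (Sum.inr q, d) = (Sum.inr q, d)) (h : HeldAt hD hw ω (Sum.inr q, d))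
    {x : Half ((ℤ × ℤ) ⊕ (ℤ × ℤ))} (hx : Conn (mate ω) D.g2 (Sum.inr q, d) x) :
    ∃ q', x.1 = Sum.inr q' := by
  obtain ⟨hq, hh⟩ := h
  have hq' : q ∈ D.R := Finset.inr_mem_disjSum.1 hq
  obtain ⟨t, h1, h2, h3⟩ := fam_inn_r hD hw hm hq' d
  obtain ⟨t', h4, h5⟩ := hh x hx
  have e : fam hD hw (D.cellOf m hq', true) =
    swap ((chartAt hD (by omega) (pick_mem (D.cellOf m hq'))).restr hw) := rfl
  rw [e] at h1 h3
  have h6 : (chartAt hD (by omega) (pick_mem (D.cellOf m hq'))).φ (rfl2 t) = Sum.inl q := by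
    have h7 : (Sum.inr q : (ℤ × ℤ) ⊕ (ℤ × ℤ)) =
      sw2 ((chartAt hD (by omega) (pick_mem (D.cellOf m hq'))).φ (rfl2 t)) := h3
    exact sw2_inj h7.symm
  have hb' : D.g2 (Sum.inl q, d.flip) = (Sum.inl q, d.flip) := by
    have h8 := g2_swh (D := D) (Sum.inl q, d.flip)
    have h9 : swh ((Sum.inl q, d.flip) : Half ((ℤ × ℤ) ⊕ (ℤ × ℤ))) = (Sum.inr q, d) := by
      unfold swh
      rw [Dir.flip_flip]
      rfl
    rw [h9, hb] at h8
    have h10 : swh ((Sum.inr q, d) : Half ((ℤ × ℤ) ⊕ (ℤ × ℤ))) = swh (swh (D.g2 (Sum.inl q, d.flip))) := by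
      rw [← h8]
    have h11 : ∀ x : Half ((ℤ × ℤ) ⊕ (ℤ × ℤ)), swh (swh x) = x := by
      rintro ⟨s | s, d'⟩ <;> (unfold swh; rw [Dir.flip_flip]; rfl)
    rw [h11] at h10
    exact h10.symm
  have h7 := chartAt_inl hD (by omega) (pick_mem (D.cellOf m hq')) (s := rfl2 t) (d := d.flip) (by
    rw [QChart.mem_W]
    have h1' : t ∈ QW _ _ _ := h1
    rw [mem_QW] at h1'
    have h8 := h1'.1
    refine ⟨?_, QSet_rfl.1 h1'.2⟩
    rw [rfl2_sqr]
    rw [mem_sqr] at h8 ⊢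
    omega) (sqr_add_vec (rfl2_sqr.2 h2) _ (by omega)) (by rw [h6]; exact hb') (rfl2 t')
  obtain ⟨q', h8⟩ := h7
  refine ⟨q', ?_⟩
  rw [h5]
  show sw2 ((chartAt hD _ (pick_mem (D.cellOf m hq'))).φ (rfl2 t')) = _
  rw [h8]
  rfl

include hm in
/-- **the number of the strands from the first to the second copy** -/
theorem cross_le (ω : Finset ((ℤ × ℤ) ⊕ (ℤ × ℤ))) (E : Finset (Half (ℤ × ℤ)))
    (hE : ∀ e ∈ E, Bd D.T2 D.g2 (dl e) ∧ ∃ q, (other (mate ω) D.g2 (dl e)).1 = Sum.inr q) :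
    E.card ≤ tot hD hw ω := by
  rw [← card_image_of_injective E dl_inj]
  apply strands_le hD hw hm ω
  · intro x hx y hy hc
    obtain ⟨e, he, rfl⟩ := mem_image.1 hx
    obtain ⟨e', he', rfl⟩ := mem_image.1 hy
    obtain ⟨h1, q, h2⟩ := hE e he
    obtain ⟨h3, -⟩ := hE e' he'
    rcases (glu_g2.conn_iff h1 h3).1 hc with h4 | h4
    · exact h4.symm
    · rw [← h4] at h2
      cases h2
  · intro y hy
    obtain ⟨e, he, rfl⟩ := mem_image.1 hy
    obtain ⟨h1, q, h2⟩ := hE e he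
    refine ⟨h1.1, fun h3 => ?_⟩
    obtain ⟨q', h4⟩ := held_inl hD hw hm h1.2 h3 (Two.conn_other (dl e))
    rw [h2] at h4
    cases h4

end fam

/-- **all exponential moments of the number of the crossings**, uniformly in the caps of bounded size
`A / m` -/
theorem exists_moment {Q : ℝ} (hQ : 1 ≤ Q) (B : ℕ) :
    ∃ C : ℝ, 1 ≤ C ∧ ∀ (D : Cap) (w A m : ℕ) (hD : D.Tame w A) (hw : 2 * m + 1 ≤ w), 1 ≤ m →
      A / m ≤ B → Ex D.T2 (fun ω => Q ^ tot hD hw ω) ≤ C := by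
  obtain ⟨C, hC1, hC⟩ := Norm.exists_moment hQ (2 * (B + 2) ^ 2)
  refine ⟨C, hC1, fun D w A m hD hw hm hB => ?_⟩
  refine hC _ D.T2 D.g2 m (D.Idx m) (fam hD hw) ?_ hm
  refine (card_idx_le hD hm).trans ?_
  exact Nat.mul_le_mul_left 2 (Nat.pow_le_pow_left (by omega) 2)

/-- the same for bits -/
theorem exists_moment_avg {Q : ℝ} (hQ : 1 ≤ Q) (B : ℕ) :
    ∃ C : ℝ, 1 ≤ C ∧ ∀ (D : Cap) (w A m : ℕ) (hD : D.Tame w A) (hw : 2 * m + 1 ≤ w), 1 ≤ m →
      A / m ≤ B → avg (fun ω : D.T2 → Bool => Q ^ tot hD hw (Full.Walk.ofBits D.T2 ω)) ≤ C := by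
  obtain ⟨C, hC1, hC⟩ := Norm.exists_moment_avg hQ (2 * (B + 2) ^ 2)
  refine ⟨C, hC1, fun D w A m hD hw hm hB => ?_⟩
  refine hC _ D.T2 D.g2 m (D.Idx m) (fam hD hw) ?_ hm
  refine (card_idx_le hD hm).trans ?_
  exact Nat.mul_le_mul_left 2 (Nat.pow_le_pow_left (by omega) 2)

end Cap

end Full.Norm
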