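import Pool.Agent.Full.Norm.QChart
import Pool.Agent.Full.Corner.Shapes
import Pool.Agent.Full.Corner.Orient
import Pool.Agent.Full.Turn.Final

/-!
# The plane windows of quadrant type

`QW v Q w` with the gluing of the plane is a region with the turning law (`good_QW`).  Its real half
edges (walls inside the box, `Real v Q w`) form one arc of the boundary, for `Q` admissible
(`real_arc`): the position is `ps v x` (negative: before the vertex `v`, nonnegative: after it), the
boundary is straight except at the half edge with `ps v x = -1`, where it turns by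
`2 - number of quadrants`.
* `real_arc_straight`, `real_arc_corner`: the same arc without labels;
* `QW_one`, `QW_three`: the windows of the corners `cwin`, `rwin` (`v = 0`);
* `one_cV`, `one_cH`, `three_rV`, `three_rH`: the two walls of the corner.
-/

set_option autoImplicit false

namespace Full.Norm
open Finset Function Full Full.Shp

/-! ### membership -/

lemma QSet_iff {v : ℤ × ℤ} {Q : Bool → Bool → Bool} {t : ℤ × ℤ} : QSet v Q t ↔
    (v.1 ≤ t.1 ∧ v.2 ≤ t.2 ∧ Q true true = true) ∨ (v.1 ≤ t.1 ∧ t.2 < v.2 ∧ Q true false = true) ∨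
    (t.1 < v.1 ∧ v.2 ≤ t.2 ∧ Q false true = true) ∨
    (t.1 < v.1 ∧ t.2 < v.2 ∧ Q false false = true) := by
  unfold QSet
  by_cases h1 : v.1 ≤ t.1 <;> by_cases h2 : v.2 ≤ t.2
  · rw [decide_eq_true h1, decide_eq_true h2]
    constructor
    · intro h; exact Or.inl ⟨h1, h2, h⟩
    · rintro (h | h | h | h)
      · exact h.2.2
      all_goals exfalso; omega
  · rw [decide_eq_true h1, decide_eq_false h2]
    constructor
    · intro h; exact Or.inr (Or.inl ⟨h1, by omega, h⟩)
    · rintro (h | h | h | h)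
      · exfalso; omega
      · exact h.2.2
      all_goals exfalso; omega
  · rw [decide_eq_false h1, decide_eq_true h2]
    constructor
    · intro h; exact Or.inr (Or.inr (Or.inl ⟨by omega, h2, h⟩))
    · rintro (h | h | h | h)
      · exfalso; omega
      · exfalso; omega
      · exact h.2.2
      · exfalso; omega
  · rw [decide_eq_false h1, decide_eq_false h2]
    constructor
    · intro h; exact Or.inr (Or.inr (Or.inr ⟨by omega, by omega, h⟩))
    · rintro (h | h | h | h)
      · exfalso; omega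
      · exfalso; omega
      · exfalso; omega
      · exact h.2.2

/-! ### the region has the turning law -/

lemma left_path {T : Set (ℤ × ℤ)} {x y : ℤ} (h : ∀ i, i ≤ x → (i, y) ∉ T) : ∀ n : ℕ,
    Relation.ReflTransGen (fun a b => Disc.Nb a b ∧ b ∉ T) (x, y) (x - n, y) := by
  intro n
  induction n with
  | zero => simpa using Relation.ReflTransGen.refl
  | succ n ih =>
    refine ih.tail ⟨?_, h _ (by push_cast; omega)⟩
    have h1 := Disc.Nb.left (x - (n + 1 : ℕ)) y
    rwa [show x - ((n + 1 : ℕ) : ℤ) + 1 = x - n by push_cast; ring] at h1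

lemma free_QW (v : ℤ × ℤ) (Q : Bool → Bool → Bool) (w : ℕ) (c : ℤ × ℤ) (hc : c ∉ QW v Q w) :
    Disc.Free (QW v Q w : Set (ℤ × ℤ)) c := by
  obtain ⟨x, y⟩ := c
  -- far to the left
  have far : ∀ x' : ℤ, x' < -(w : ℤ) → ∃ d, Relation.ReflTransGen
      (fun a b => Disc.Nb a b ∧ b ∉ (QW v Q w : Set (ℤ × ℤ))) (x', y) d ∧
      ∀ i, d.1 ≤ i → (i, d.2) ∉ (QW v Q w : Set (ℤ × ℤ)) := by
    intro x' hx'
    have h2 : ∀ j, (x', j) ∉ (QW v Q w : Set (ℤ × ℤ)) := fun j hj => by
      have h3 := (mem_sqr.1 (mem_QW.1 (Finset.mem_coe.1 hj)).1)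
      simp only at h3
      omega
    refine ⟨(x', y - ((y.toNat + w + 1 : ℕ) : ℤ)), down_path h2 _, fun i _ hT => ?_⟩
    have h3 := (mem_sqr.1 (mem_QW.1 (Finset.mem_coe.1 hT)).1)
    simp only at h3
    push_cast at h3
    omega
  by_cases hin : (x, y) ∈ sqr w
  · have hQ : ¬ QSet v Q (x, y) := fun h => hc (mem_QW.2 ⟨hin, h⟩)
    by_cases hv : v.1 ≤ x
    · refine ⟨(x, y), Relation.ReflTransGen.refl, fun i hi hT => hQ ?_⟩
      have h1 := (mem_QW.1 (Finset.mem_coe.1 hT)).2
      have hi' : x ≤ i := hi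
      unfold QSet at h1 ⊢
      have e1 : decide (v.1 ≤ i) = decide (v.1 ≤ x) := by
        rw [decide_eq_decide]; omega
      simp only at h1 ⊢
      rwa [e1] at h1
    · have h1 : ∀ i, i ≤ x → (i, y) ∉ (QW v Q w : Set (ℤ × ℤ)) := by
        intro i hi hT
        have h1 := (mem_QW.1 (Finset.mem_coe.1 hT)).2
        apply hQ
        unfold QSet at h1 ⊢
        have e1 : decide (v.1 ≤ i) = decide (v.1 ≤ x) := by
          rw [decide_eq_decide]; omega
        simp only at h1 ⊢
        rwa [e1] at h1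
      obtain ⟨d, h2, h3⟩ := far (x - ((x.toNat + w + 1 : ℕ) : ℤ)) (by push_cast; omega)
      exact ⟨d, (left_path h1 _).trans h2, h3⟩
  · by_cases hx : x < -(w : ℤ)
    · exact far x hx
    · refine ⟨(x, y), Relation.ReflTransGen.refl, fun i hi hT => hin ?_⟩
      have h1 := (mem_sqr.1 (mem_QW.1 (Finset.mem_coe.1 hT)).1)
      have hi' : x ≤ i := hi
      rw [mem_sqr]
      simp only at h1 ⊢
      omega

theorem sc_QW (v : ℤ × ℤ) (Q : Bool → Bool → Bool) (w : ℕ) : SC (QW v Q w) (plane.glue (QW v Q w)) :=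
  isPlane_plane.sc (free_QW v Q w)

/-- **the plane windows of quadrant type have the turning law** -/
theorem good_QW (v : ℤ × ℤ) (Q : Bool → Bool → Bool) (w : ℕ) :
    Turn.Good (QW v Q w) (plane.glue (QW v Q w)) :=
  ⟨plane.glu _, plane.straight_glue _, flat_plane _, open_plane _, sc_QW v Q w⟩

/-! ### the real half edges -/

/-- a wall inside the box -/
def Real (v : ℤ × ℤ) (Q : Bool → Bool → Bool) (w : ℕ) (x : Half (ℤ × ℤ)) : Prop :=
  x.1 ∈ QW v Q w ∧ x.1 + x.2.vec ∈ sqr w ∧ ¬ QSet v Q (x.1 + x.2.vec)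

lemma Real.bd {v : ℤ × ℤ} {Q : Bool → Bool → Bool} {w : ℕ} {x : Half (ℤ × ℤ)}
    (h : Real v Q w x) : Bd (QW v Q w) (plane.glue (QW v Q w)) x := by
  obtain ⟨t, d⟩ := x
  exact bd_plane.2 ⟨h.1, fun h1 => h.2.2 (mem_QW.1 h1).2⟩

/-- the position: negative before the vertex, nonnegative after the vertex (the region is on the
left) -/
def ps (v : ℤ × ℤ) (x : Half (ℤ × ℤ)) : ℤ :=
  match x.2 with
  | .W => v.2 - 1 - x.1.2
  | .E => x.1.2 - v.2
  | .S => x.1.1 - v.1
  | .N => v.1 - 1 - x.1.1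

/-- the number of quadrants -/
def nq (Q : Bool → Bool → Bool) : ℤ :=
  (if Q true true = true then 1 else 0) + (if Q true false = true then 1 else 0) +
    (if Q false true = true then 1 else 0) + (if Q false false = true then 1 else 0)

lemma bt_nst (g : Half (ℤ × ℤ) → Half (ℤ × ℤ)) (x : Half (ℤ × ℤ)) :
    Turn.bt g x = 2 - (nst g x : ℤ) := rfl


lemma ks_nst (g : Half (ℤ × ℤ) → Half (ℤ × ℤ)) (x : Half (ℤ × ℤ)) : Turn.ks g x = nst g x := rfl

/-- the next real half edge -/
lemma real_step {v : ℤ × ℤ} {Q : Bool → Bool → Bool} {w : ℕ} (hQ : QAdm Q) {x y : Half (ℤ × ℤ)}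
    (hx : Real v Q w x) (hy : Real v Q w y) (h : ps v x < ps v y) :
    Real v Q w (next (plane.glue (QW v Q w)) x) ∧
      ps v (next (plane.glue (QW v Q w)) x) = ps v x + 1 ∧
      Turn.bt (plane.glue (QW v Q w)) x = if ps v x = -1 then 2 - nq Q else 0 := by
  have hb := hx.bd
  obtain ⟨⟨i, j⟩, d⟩ := x
  obtain ⟨⟨i', j'⟩, d'⟩ := y
  obtain ⟨v1, v2⟩ := v
  rw [bt_nst]
  have hs := step_plane hb
  have hA := hQ true true
  have hB := hQ true false
  unfold Real at hx hy ⊢
  unfold nq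
  simp only [mem_QW, mem_sqr, QSet_iff, Bool.not_true, Bool.not_false] at hx hy hs hA hB ⊢
  generalize next (plane.glue (QW (v1, v2) Q w)) ((i, j), d) = z at *
  generalize nst (plane.glue (QW (v1, v2) Q w)) ((i, j), d) = n at *
  clear hb hQ
  generalize Q true true = a1 at *
  generalize Q true false = a2 at *
  generalize Q false true = a3 at *
  generalize Q false false = a4 at *
  cases a1 <;> cases a2 <;> cases a3 <;> cases a4 <;>
    simp only [Bool.false_eq_true, and_false, and_true, or_false, false_or, not_false_eq_true,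
      false_and, if_true, if_false, forall_true_left, or_self] at hx hy hs hA hB ⊢
  all_goals
    cases d <;> simp only [Dir.vec, Prod.mk_add_mk] at hx <;>
    (try (exfalso; clear hs hy h; omega)) <;>
    cases d' <;> simp only [Dir.vec, Prod.mk_add_mk] at hy <;>
    (try (exfalso; clear hs hx h; omega)) <;>
    rcases hs with ⟨h1, rfl, rfl⟩ | ⟨h1, h2, rfl, rfl⟩ | ⟨h1, h2, rfl, rfl⟩ <;>
    simp only [Dir.vec, Dir.ccw, Dir.cw, Prod.mk_add_mk, ps] at h h1 ⊢ <;>
    (try simp only [Dir.vec, Dir.ccw, Prod.mk_add_mk] at h2) <;>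
    omega

/-- the position determines the real half edge -/
lemma real_inj {v : ℤ × ℤ} {Q : Bool → Bool → Bool} {w : ℕ} (hQ : QAdm Q) {x y : Half (ℤ × ℤ)}
    (hx : Real v Q w x) (hy : Real v Q w y) (h : ps v x = ps v y) : x = y := by
  obtain ⟨⟨i, j⟩, d⟩ := x
  obtain ⟨⟨i', j'⟩, d'⟩ := y
  obtain ⟨v1, v2⟩ := v
  have hA := hQ true true
  have hB := hQ true false
  unfold Real at hx hy
  simp only [mem_QW, mem_sqr, QSet_iff, Bool.not_true, Bool.not_false] at hx hy hA hB ⊢
  clear hQ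
  generalize Q true true = a1 at *
  generalize Q true false = a2 at *
  generalize Q false true = a3 at *
  generalize Q false false = a4 at *
  cases a1 <;> cases a2 <;> cases a3 <;> cases a4 <;>
    simp only [Bool.false_eq_true, and_false, and_true, or_false, false_or, not_false_eq_true,
      false_and, forall_true_left, or_self] at hx hy hA hB
  all_goals
    cases d <;> cases d' <;>
    simp only [Dir.vec, Prod.mk_add_mk, ps] at hx hy h <;>
    simp only [Prod.mk.injEq, reduceCtorEq, and_true, and_false] <;>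
    omega

/-! ### arcs from labels -/

/-- a finite set of half edges with labels which increase by one under a map `f` is an arc -/
lemma arc_of_labels {α : Type*} (c : α) {R : α → Prop} (hf : {x | R x}.Finite) {f : α → α}
    {p : α → ℤ}
    (hinj : ∀ x, R x → ∀ y, R y → p x = p y → x = y)
    (hstep : ∀ x, R x → ∀ y, R y → p x < p y → R (f x) ∧ p (f x) = p x + 1) :
    ∃ (N : ℕ) (a : ℕ → α) (s : ℤ), (∀ i < N, R (a i)) ∧ (∀ x, R x → ∃ i < N, a i = x) ∧
      (∀ i < N, ∀ j < N, a i = a j → i = j) ∧ (∀ i, i + 1 < N → f (a i) = a (i + 1)) ∧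
      ∀ i < N, p (a i) = s + i := by
  classical
  by_cases hne : ∃ x, R x
  · obtain ⟨x0, hx0, hmin⟩ := hf.exists_minimalFor p _ hne
    obtain ⟨x1, hx1, hmax⟩ := hf.exists_maximalFor p _ hne
    have hmin' : ∀ x, R x → p x0 ≤ p x := fun x hx => by
      rcases le_total (p x0) (p x) with h | h
      · exact h
      · exact hmin hx h
    have hmax' : ∀ x, R x → p x ≤ p x1 := fun x hx => by
      rcases le_total (p x) (p x1) with h | h
      · exact h
      · exact hmax hx h
    have hle := hmax' x0 hx0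
    have key : ∀ n : ℕ, p x0 + n ≤ p x1 → R (f^[n] x0) ∧ p (f^[n] x0) = p x0 + n := by
      intro n
      induction n with
      | zero => intro _; exact ⟨hx0, by simp⟩
      | succ n ih =>
        intro hn
        push_cast at hn
        obtain ⟨h1, h2⟩ := ih (by omega)
        obtain ⟨h3, h4⟩ := hstep _ h1 x1 hx1 (by omega)
        rw [iterate_succ_apply']
        refine ⟨h3, ?_⟩
        rw [h4, h2]
        push_cast
        ring
    refine ⟨(p x1 - p x0).toNat + 1, fun n => f^[n] x0, p x0, fun i hi => (key i (by omega)).1,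
      fun x hx => ?_, fun i hi j hj h => ?_, fun i hi => (iterate_succ_apply' f i x0).symm,
      fun i hi => (key i (by omega)).2⟩
    · have h1 := hmin' x hx
      have h2 := hmax' x hx
      refine ⟨(p x - p x0).toNat, by omega, ?_⟩
      obtain ⟨h3, h4⟩ := key (p x - p x0).toNat (by omega)
      exact hinj _ h3 _ hx (by rw [h4]; omega)
    · have h1 := (key i (by omega)).2
      have h2 := (key j (by omega)).2
      have h3 : f^[i] x0 = f^[j] x0 := h
      rw [h3, h2] at h1
      omega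
  · exact ⟨0, fun _ => c, 0, fun i hi => absurd hi (by omega), fun x hx => absurd ⟨x, hx⟩ hne,
      fun i hi => absurd hi (by omega), fun i hi => absurd hi (by omega),
      fun i hi => absurd hi (by omega)⟩

/-- **the real half edges form one arc of the boundary**, with the turns of the boundary -/
theorem real_arc (v : ℤ × ℤ) {Q : Bool → Bool → Bool} (w : ℕ) (hQ : QAdm Q) :
    ∃ (N : ℕ) (a : ℕ → Half (ℤ × ℤ)) (s : ℤ),
      (∀ i < N, Real v Q w (a i)) ∧ (∀ x, Real v Q w x → ∃ i < N, a i = x) ∧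
      (∀ i < N, ∀ j < N, a i = a j → i = j) ∧
      (∀ i, i + 1 < N → next (plane.glue (QW v Q w)) (a i) = a (i + 1)) ∧
      (∀ i < N, ps v (a i) = s + i) ∧
      ∀ i, i + 1 < N → Turn.bt (plane.glue (QW v Q w)) (a i) =
        if ps v (a i) = -1 then 2 - nq Q else 0 := by
  obtain ⟨N, a, s, h1, h2, h3, h4, h5⟩ := arc_of_labels (((0, 0), Dir.E) : Half (ℤ × ℤ))
    (R := Real v Q w) ((finite_half (QW v Q w)).subset fun x hx => hx.1)
    (f := next (plane.glue (QW v Q w))) (p := ps v) (fun x hx y hy h => real_inj hQ hx hy h)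
    (fun x hx y hy h => ⟨(real_step hQ hx hy h).1, (real_step hQ hx hy h).2.1⟩)
  refine ⟨N, a, s, h1, h2, h3, h4, h5, fun i hi => ?_⟩
  refine (real_step hQ (h1 i (by omega)) (h1 (i + 1) hi) ?_).2.2
  rw [h5 i (by omega), h5 (i + 1) hi]
  push_cast
  omega

/-- the number of quadrants -/
lemma nq_cases (Q : Bool → Bool → Bool) :
    nq Q = 0 ∨ (∃ a b, ∀ x y, Q x y = true ↔ x = a ∧ y = b) ∨ nq Q = 2 ∨
    (∃ a b, ∀ x y, Q x y = true ↔ ¬ (x = a ∧ y = b)) ∨ nq Q = 4 := by
  unfold nq
  simp only [Bool.forall_bool, Bool.exists_bool]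
  generalize Q true true = a1
  generalize Q true false = a2
  generalize Q false true = a3
  generalize Q false false = a4
  cases a1 <;> cases a2 <;> cases a3 <;> cases a4 <;> simp

lemma nq_one {Q : Bool → Bool → Bool} {a b : Bool} (h : ∀ x y, Q x y = true ↔ x = a ∧ y = b) :
    nq Q = 1 := by
  unfold nq
  simp only [h]
  cases a <;> cases b <;> simp

lemma nq_three {Q : Bool → Bool → Bool} {a b : Bool}
    (h : ∀ x y, Q x y = true ↔ ¬ (x = a ∧ y = b)) : nq Q = 3 := by
  unfold nq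
  simp only [h]
  cases a <;> cases b <;> simp

lemma adm_one {Q : Bool → Bool → Bool} {a b : Bool} (h : ∀ x y, Q x y = true ↔ x = a ∧ y = b) :
    QAdm Q := by
  intro x y h1 h2
  rw [h] at h1 h2
  exfalso
  obtain ⟨rfl, rfl⟩ := h1
  cases x <;> simp at h2

lemma adm_three {Q : Bool → Bool → Bool} {a b : Bool}
    (h : ∀ x y, Q x y = true ↔ ¬ (x = a ∧ y = b)) : QAdm Q := by
  intro x y _ _
  rw [h, h]
  cases x <;> cases y <;> cases a <;> cases b <;> simp

/-- the arc when no half edge of it is followed by a corner -/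
def ArcFlat (v : ℤ × ℤ) (Q : Bool → Bool → Bool) (w N : ℕ) (a : ℕ → Half (ℤ × ℤ)) : Prop :=
  ∀ i, i + 1 < N → Turn.bt (plane.glue (QW v Q w)) (a i) = 0

/-- the arc with a corner after the half edge `a i₀` -/
structure ArcCorner (v : ℤ × ℤ) (Q : Bool → Bool → Bool) (w N : ℕ) (a : ℕ → Half (ℤ × ℤ))
    (i₀ : ℕ) : Prop where
  lt : i₀ + 1 < N
  bt0 : Turn.bt (plane.glue (QW v Q w)) (a i₀) = 2 - nq Q
  bt : ∀ i, i + 1 < N → i ≠ i₀ → Turn.bt (plane.glue (QW v Q w)) (a i) = 0
  side : ∀ i < N, (i ≤ i₀ ↔ ps v (a i) < 0)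
  quad : (∃ a b, ∀ x y, Q x y = true ↔ x = a ∧ y = b) ∨
    ∃ a b, ∀ x y, Q x y = true ↔ ¬ (x = a ∧ y = b)

/-- **the real half edges form one arc of the boundary with at most one corner** -/
theorem real_arc' (v : ℤ × ℤ) {Q : Bool → Bool → Bool} (w : ℕ) (hQ : QAdm Q) :
    ∃ (N : ℕ) (a : ℕ → Half (ℤ × ℤ)),
      (∀ i < N, Real v Q w (a i)) ∧ (∀ x, Real v Q w x → ∃ i < N, a i = x) ∧
      (∀ i < N, ∀ j < N, a i = a j → i = j) ∧
      (∀ i, i + 1 < N → next (plane.glue (QW v Q w)) (a i) = a (i + 1)) ∧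
      (ArcFlat v Q w N a ∨ ∃ i₀, ArcCorner v Q w N a i₀) := by
  obtain ⟨N, a, s, h1, h2, h3, h4, h5, h6⟩ := real_arc v w hQ
  refine ⟨N, a, h1, h2, h3, h4, ?_⟩
  by_cases hc : ∃ i, i + 1 < N ∧ ps v (a i) = -1
  · obtain ⟨i₀, hi, hp⟩ := hc
    have hx := h1 i₀ (by omega)
    have hne : nq Q ≠ 0 ∧ nq Q ≠ 4 := by
      have e1 := (mem_QW.1 hx.1).2
      have e2 := hx.2.2
      rw [QSet_iff] at e1 e2
      unfold nq
      generalize Q true true = b1 at e1 e2 ⊢
      generalize Q true false = b2 at e1 e2 ⊢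
      generalize Q false true = b3 at e1 e2 ⊢
      generalize Q false false = b4 at e1 e2 ⊢
      constructor
      · rintro h
        cases b1 <;> cases b2 <;> cases b3 <;> cases b4 <;> simp at h e1
      · rintro h
        cases b1 <;> cases b2 <;> cases b3 <;> cases b4 <;> simp at h e2
        omega
    have hs := h5 i₀ (by omega)
    by_cases h22 : nq Q = 2
    · left
      intro i hi'
      rw [h6 i hi', h22]
      split_ifs <;> rfl
    · right
      refine ⟨i₀, hi, ?_, fun i hi' hne' => ?_, fun i hi' => ?_, ?_⟩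
      · rw [h6 i₀ hi, if_pos hp]
      · rw [h6 i hi', if_neg]
        rw [h5 i (by omega)]
        omega
      · rw [h5 i hi']
        omega
      · rcases nq_cases Q with h | h | h | h | h
        · exact absurd h hne.1
        · exact Or.inl h
        · exact absurd h h22
        · exact Or.inr h
        · exact absurd h hne.2
  · left
    intro i hi
    rw [h6 i hi, if_neg fun h => hc ⟨i, hi, h⟩]

/-! ### the two walls of a corner -/

open Corner

/-- one quadrant: the vertical wall comes first iff `a = b` -/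
lemma one_walls {v : ℤ × ℤ} {Q : Bool → Bool → Bool} {w : ℕ} {a b : Bool}
    (h : ∀ x y, Q x y = true ↔ x = a ∧ y = b) {x : Half (ℤ × ℤ)} (hx : Real v Q w x) :
    (x ∈ cV a ∧ x ∉ cH b ∧ (ps v x < 0 ↔ a = b)) ∨
    (x ∈ cH b ∧ x ∉ cV a ∧ (ps v x < 0 ↔ a ≠ b)) := by
  obtain ⟨⟨i, j⟩, d⟩ := x
  obtain ⟨v1, v2⟩ := v
  unfold Real at hx
  simp only [mem_QW, mem_sqr, QSet_iff, h] at hx
  unfold cV cH
  simp only [Set.mem_ofPred_eq]
  cases a <;> cases b <;> cases d <;> simp [Dir.vec, ps] at hx ⊢ <;> omega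

/-- three quadrants: the vertical wall comes first iff `a ≠ b` -/
lemma three_walls {v : ℤ × ℤ} {Q : Bool → Bool → Bool} {w : ℕ} {a b : Bool}
    (h : ∀ x y, Q x y = true ↔ ¬ (x = a ∧ y = b)) {x : Half (ℤ × ℤ)} (hx : Real v Q w x) :
    (x ∈ rV a b v ∧ x ∉ rH a b v ∧ (ps v x < 0 ↔ a ≠ b)) ∨
    (x ∈ rH a b v ∧ x ∉ rV a b v ∧ (ps v x < 0 ↔ a = b)) := by
  obtain ⟨⟨i, j⟩, d⟩ := x
  obtain ⟨v1, v2⟩ := v
  unfold Real at hx
  simp only [mem_QW, mem_sqr, QSet_iff, h] at hx
  unfold rV rH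
  simp only [Set.mem_ofPred_eq]
  cases a <;> cases b <;> cases d <;> simp [Dir.vec, ps] at hx ⊢ <;> omega

lemma bwin_zero (w : ℕ) : bwin 0 w = sqr w := by
  ext t
  rw [mem_bwin, mem_sqr]
  simp

/-- the window of a convex corner -/
lemma QW_one {Q : Bool → Bool → Bool} (w : ℕ) {a b : Bool}
    (h : ∀ x y, Q x y = true ↔ x = a ∧ y = b) : QW 0 Q w = cwin a b 0 w := by
  ext t
  rw [mem_QW, mem_cwin, bwin_zero]
  unfold QSet Quad
  rw [h]
  cases a <;> cases b <;> simp

/-- the window of a reflex corner -/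
lemma QW_three {Q : Bool → Bool → Bool} (w : ℕ) {a b : Bool}
    (h : ∀ x y, Q x y = true ↔ ¬ (x = a ∧ y = b)) : QW 0 Q w = rwin a b 0 w := by
  ext t
  rw [mem_QW, mem_rwin, bwin_zero]
  unfold QSet Quad
  rw [h]
  cases a <;> cases b <;> simp

/-- the real half edges of the window of a convex corner -/
lemma real_cwin {Q : Bool → Bool → Bool} {w : ℕ} {a b : Bool}
    (h : ∀ x y, Q x y = true ↔ x = a ∧ y = b) {x : Half (ℤ × ℤ)} : Real 0 Q w x ↔
    Bd (cwin a b 0 w) (plane.glue (cwin a b 0 w)) x ∧ (x ∈ cV a ∨ x ∈ cH b) := by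
  rw [← QW_one w h]
  constructor
  · intro hx
    refine ⟨hx.bd, ?_⟩
    rcases one_walls h hx with h1 | h1
    · exact Or.inl h1.1
    · exact Or.inr h1.1
  · obtain ⟨⟨i, j⟩, d⟩ := x
    rw [Shp.bd_plane]
    unfold Real
    rintro ⟨⟨h1, h2⟩, h3⟩
    simp only [mem_QW, mem_sqr, QSet_iff, h, cV, cH, Set.mem_ofPred_eq] at h1 h2 h3 ⊢
    cases a <;> cases b <;> cases d <;> simp [Dir.vec] at h1 h2 h3 ⊢ <;> omega

/-- the real half edges of the window of a reflex corner -/
lemma real_rwin {Q : Bool → Bool → Bool} {w : ℕ} {a b : Bool}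
    (h : ∀ x y, Q x y = true ↔ ¬ (x = a ∧ y = b)) {x : Half (ℤ × ℤ)} : Real 0 Q w x ↔
    Bd (rwin a b 0 w) (plane.glue (rwin a b 0 w)) x ∧ (x ∈ rV a b 0 ∨ x ∈ rH a b 0) := by
  rw [← QW_three w h]
  constructor
  · intro hx
    refine ⟨hx.bd, ?_⟩
    rcases three_walls h hx with h1 | h1
    · exact Or.inl h1.1
    · exact Or.inr h1.1
  · obtain ⟨⟨i, j⟩, d⟩ := x
    rw [Shp.bd_plane]
    unfold Real
    rintro ⟨⟨h1, h2⟩, h3⟩
    simp only [mem_QW, mem_sqr, QSet_iff, h, rV, rH, Set.mem_ofPred_eq] at h1 h2 h3 ⊢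
    cases a <;> cases b <;> cases d <;> simp [Dir.vec] at h1 h2 h3 ⊢ <;> omega

end Full.Norm
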