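import Pool.Agent.Full.Norm.Cap

/-!
# Charts of the double of a cap

* `plain`: the identity chart of the first copy, away from the ends of the rows and from the row `y`,
* `ceil`: near the ceiling, the row closed (flat ceiling),
* `bulk`: in the strip, across the line `y` (no walls),
* `swap`: the reflected chart in the other copy.
-/

set_option autoImplicit false

namespace Full.Norm
open Finset

/-- exchange of the two copies -/
def sw2 {α : Type*} : α ⊕ α → α ⊕ α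
  | .inl t => .inr t
  | .inr t => .inl t

lemma sw2_inj {α : Type*} {a b : α ⊕ α} (h : sw2 a = sw2 b) : a = b := by
  rcases a with a | a <;> rcases b with b | b <;> simp [sw2] at h ⊢ <;> exact h

namespace Cap
variable {D : Cap}

lemma mem_T2_sw {s : (ℤ × ℤ) ⊕ (ℤ × ℤ)} : sw2 s ∈ D.T2 ↔ s ∈ D.T2 := by
  unfold T2 dT
  rcases s with s | s
  · show (Sum.inr s ∈ _) ↔ _
    rw [Finset.inr_mem_disjSum, Finset.inl_mem_disjSum]
  · show (Sum.inl s ∈ _) ↔ _
    rw [Finset.inr_mem_disjSum, Finset.inl_mem_disjSum]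

/-- exchange of the two copies, for half edges -/
def swh (x : Half ((ℤ × ℤ) ⊕ (ℤ × ℤ))) : Half ((ℤ × ℤ) ⊕ (ℤ × ℤ)) := (sw2 x.1, x.2.flip)

lemma swh_dl (x : Half (ℤ × ℤ)) : swh (dl x) = dr x := rfl
lemma swh_dr (x : Half (ℤ × ℤ)) : swh (dr x) = dl x := by
  unfold swh dr dl
  rw [Dir.flip_flip]
  rfl

/-- the double is symmetric -/
lemma g2_swh (x : Half ((ℤ × ℤ) ⊕ (ℤ × ℤ))) : D.g2 (swh x) = swh (D.g2 x) := by
  unfold g2
  rcases dcases x with ⟨z, rfl⟩ | ⟨z, rfl⟩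
  · rw [swh_dl, dg_dr, dg_dl]
    by_cases h : z ∈ D.C
    · rw [if_pos h, if_pos h, swh_dr]
    · rw [if_neg h, if_neg h, swh_dl]
  · rw [swh_dr, dg_dr, dg_dl]
    by_cases h : z ∈ D.C
    · rw [if_pos h, if_pos h, swh_dl]
    · rw [if_neg h, if_neg h, swh_dr]

lemma rfl2_vec (s : ℤ × ℤ) (d : Dir) : rfl2 (s + d.vec) = rfl2 s + d.flip.vec := by
  obtain ⟨i, j⟩ := s
  cases d <;> refine Prod.ext ?_ ?_ <;> simp [rfl2, Dir.vec, Dir.flip] <;> ring

/-- **the reflected chart in the other copy** -/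
def swap {w : ℕ} (c : QChart D.T2 D.g2 w) : QChart D.T2 D.g2 w where
  φ := fun s => sw2 (c.φ (rfl2 s))
  v := (c.v.1, -c.v.2)
  Q := fun a b => c.Q a (!b)
  adm := c.adm.rfl
  mem := fun s hs => by
    rw [mem_QW, QSet_rfl] at hs
    exact mem_T2_sw.2 (c.mem _ (mem_QW.2 ⟨rfl2_sqr.2 hs.1, hs.2⟩))
  inj := fun s hs s' hs' h => by
    rw [mem_QW, QSet_rfl] at hs hs'
    have h1 := c.inj _ (mem_QW.2 ⟨rfl2_sqr.2 hs.1, hs.2⟩) _ (mem_QW.2 ⟨rfl2_sqr.2 hs'.1, hs'.2⟩)
      (sw2_inj h)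
    rw [← rfl2_rfl2 s, h1, rfl2_rfl2]
  glue := fun s hs d hd => by
    rw [mem_QW, QSet_rfl] at hs hd
    have h1 := c.glue (rfl2 s) (mem_QW.2 ⟨rfl2_sqr.2 hs.1, hs.2⟩) d.flip (by
      rw [← rfl2_vec]
      exact mem_QW.2 ⟨rfl2_sqr.2 hd.1, hd.2⟩)
    have h2 := g2_swh (D := D) (c.φ (rfl2 s), d.flip)
    rw [h1] at h2
    have e1 : swh (c.φ (rfl2 s), d.flip) = (sw2 (c.φ (rfl2 s)), d) := by
      unfold swh
      rw [Dir.flip_flip]
    rw [e1] at h2
    rw [h2]
    unfold swh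
    refine Prod.ext ?_ ?_
    · show sw2 (c.φ (rfl2 s + d.flip.vec)) = sw2 (c.φ (rfl2 (s + d.vec)))
      rw [rfl2_vec]
    · show d.flip.opp.flip = d.opp
      rw [Dir.flip_opp, Dir.flip_flip]
  wall := fun s hs d hd hd' => by
    rw [mem_QW, QSet_rfl] at hs
    rw [QSet_rfl] at hd'
    have h1 := c.wall (rfl2 s) (mem_QW.2 ⟨rfl2_sqr.2 hs.1, hs.2⟩) d.flip (by
      rw [← rfl2_vec]
      exact rfl2_sqr.2 hd) (by
      rw [← rfl2_vec]
      exact hd')
    have h2 := g2_swh (D := D) (c.φ (rfl2 s), d.flip)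
    rw [h1] at h2
    have e1 : swh (c.φ (rfl2 s), d.flip) = (sw2 (c.φ (rfl2 s)), d) := by
      unfold swh
      rw [Dir.flip_flip]
    rw [e1] at h2
    exact h2

/-! ### the identity chart -/

/-- the box around `p` does not touch the ends of the rows of the strip, nor the row `y` -/
def Plain (D : Cap) (p : ℤ × ℤ) (w : ℕ) : Prop :=
  ∀ s : ℤ × ℤ, s ∈ sqr w → (D.l ≤ (p + s).1 ∧ (p + s).1 < D.r) ∧ D.y ≤ (p + s).2 ∧ (p + s).2 < D.t →
    (D.l < (p + s).1 ∧ (p + s).1 < D.r - 1) ∧ D.y < (p + s).2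

/-- the region is of quadrant type in the box around `p` -/
def QBox (R : Finset (ℤ × ℤ)) (p : ℤ × ℤ) (w : ℕ) (v : ℤ × ℤ) (Q : Bool → Bool → Bool) : Prop :=
  QAdm Q ∧ ∀ s ∈ sqr w, (p + s ∈ R ↔ QSet v Q (p + s))

/-- **the identity chart** -/
def plain (p : ℤ × ℤ) (w : ℕ) (v : ℤ × ℤ) (Q : Bool → Bool → Bool) (hp : D.Plain p w)
    (hQ : QBox D.R p w v Q) : QChart D.T2 D.g2 w where
  φ := fun s => Sum.inl (p + s)
  v := v - p
  Q := Q
  adm := hQ.1
  mem := fun s hs => by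
    rw [mem_QW, QSet_sub] at hs
    exact Finset.inl_mem_disjSum.2 ((hQ.2 s hs.1).2 hs.2)
  inj := fun s _ s' _ h => add_left_cancel (Sum.inl.inj h)
  glue := fun s hs d hd => by
    rw [mem_QW, QSet_sub] at hs hd
    have h1 := (hQ.2 s hs.1).2 hs.2
    have h2 := (hQ.2 _ hd.1).2 hd.2
    rw [← add_assoc] at h2
    have h3 : (p + s, d) ∉ D.C := fun h => by
      obtain ⟨h4, h5, h6⟩ := mem_C.1 h
      simp only at h4 h5
      have h7 := hp s hs.1 ⟨h4, by omega, by have := D.hyt; omega⟩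
      omega
    have h4 : D.g2 (dl (p + s, d)) = dl (D.g (p + s, d)) := dg_dl_of h3
    have h5 := nb_plain h1 (fun h => (hp s hs.1 h).1) d
    rw [glue_nb h5 h1 h2] at h4
    show D.g2 (dl (p + s, d)) = _
    rw [h4]
    show (Sum.inl (p + s + d.vec), d.opp) = (Sum.inl (p + (s + d.vec)), d.opp)
    rw [add_assoc]
  wall := fun s hs d hd hd' => by
    rw [mem_QW, QSet_sub] at hs
    rw [QSet_sub] at hd'
    have h1 := (hQ.2 s hs.1).2 hs.2
    have h2 : p + s + d.vec ∉ D.R := fun h => by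
      rw [add_assoc] at h
      exact hd' ((hQ.2 _ hd).1 h)
    have h3 : (p + s, d) ∉ D.C := fun h => by
      obtain ⟨h4, h5, h6⟩ := mem_C.1 h
      simp only at h4 h5
      have h7 := hp s hs.1 ⟨h4, by omega, by have := D.hyt; omega⟩
      omega
    have h4 : D.g2 (dl (p + s, d)) = dl (D.g (p + s, d)) := dg_dl_of h3
    have h5 := nb_plain h1 (fun h => (hp s hs.1 h).1) d
    rw [glue_wall h5 h2] at h4
    exact h4

/-! ### the cylinder charts -/

lemma g_E {i j : ℤ} (h3 : D.y ≤ j) (h4 : j < D.t) : D.g ((wr D.l D.r i, j), .E) =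
    ((wr D.l D.r (i + 1), j), .W) := by
  have h1 := wr_mem D.hlr i
  have h2 := wr_mem D.hlr (i + 1)
  refine glue_nb (d := .E) ?_ (strip_mem h1.1 h1.2 h3 h4) (strip_mem h2.1 h2.2 h3 h4)
  rw [wr_add_one D.hlr]
  by_cases h5 : wr D.l D.r i = D.r - 1
  · rw [if_pos h5, h5]
    exact cyl_E_end ⟨h3, h4⟩
  · rw [if_neg h5]
    exact cyl_E (Or.inr ⟨h5, by omega⟩)

lemma g_W {i j : ℤ} (h3 : D.y ≤ j) (h4 : j < D.t) : D.g ((wr D.l D.r i, j), .W) =
    ((wr D.l D.r (i - 1), j), .E) := by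
  have h1 := wr_mem D.hlr i
  have h2 := wr_mem D.hlr (i - 1)
  refine glue_nb (d := .W) ?_ (strip_mem h1.1 h1.2 h3 h4) (strip_mem h2.1 h2.2 h3 h4)
  rw [wr_sub_one D.hlr]
  by_cases h5 : wr D.l D.r i = D.l
  · rw [if_pos h5, h5]
    exact cyl_W_end ⟨h3, h4⟩
  · rw [if_neg h5]
    exact cyl_W (Or.inr ⟨h5, by omega⟩)

lemma g_N {i j : ℤ} (h3 : D.y ≤ j) (h4 : j + 1 < D.t) : D.g ((wr D.l D.r i, j), .N) =
    ((wr D.l D.r i, j + 1), .S) := by
  have h1 := wr_mem D.hlr i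
  exact glue_nb (d := .N) cyl_N (strip_mem h1.1 h1.2 h3 (by omega))
    (strip_mem h1.1 h1.2 (by omega) h4)

lemma g_S {i j : ℤ} (h3 : D.y < j) (h4 : j < D.t) : D.g ((wr D.l D.r i, j), .S) =
    ((wr D.l D.r i, j - 1), .N) := by
  have h1 := wr_mem D.hlr i
  exact glue_nb (d := .S) cyl_S (strip_mem h1.1 h1.2 (by omega) h4)
    (strip_mem h1.1 h1.2 (by omega) (by omega))

lemma notMem_C {i j : ℤ} {d : Dir} (h : j ≠ D.y ∨ d ≠ .S) : ((i, j), d) ∉ D.C := fun h1 => by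
  obtain ⟨_, h2, h3⟩ := mem_C.1 h1
  rcases h with h | h
  · exact h h2
  · exact h h3

/-- **the chart near the ceiling** -/
def ceil (p : ℤ × ℤ) (w : ℕ) (hw : 2 * (w : ℤ) ≤ D.r - D.l) (h1 : D.y < p.2 - w) (h2 : p.2 ≤ D.t)
    (hc : ∀ s ∈ sqr w, p.2 + s.2 = D.t → (wr D.l D.r (p.1 + s.1), D.t) ∉ D.U) :
    QChart D.T2 D.g2 w where
  φ := fun s => Sum.inl (wr D.l D.r (p.1 + s.1), p.2 + s.2)
  v := (0, D.t - p.2)
  Q := fun _ b => !b
  adm := fun a b h3 h4 => by cases b <;> simp_all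
  mem := fun s hs => by
    rw [mem_QW, mem_sqr] at hs
    obtain ⟨⟨h3, h4⟩, h5⟩ := hs
    unfold QSet at h5
    simp only [Bool.not_eq_true', decide_eq_false_iff_not] at h5
    have h6 := wr_mem D.hlr (p.1 + s.1)
    exact Finset.inl_mem_disjSum.2 (strip_mem h6.1 h6.2 (by omega) (by omega))
  inj := fun s hs s' hs' h => by
    rw [mem_QW, mem_sqr] at hs hs'
    have h3 := Sum.inl.inj h
    have h4 := wr_inj (congrArg Prod.fst h3) (by omega) (by omega)
    have h5 : p.2 + s.2 = p.2 + s'.2 := congrArg Prod.snd h3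
    exact Prod.ext (by omega) (by omega)
  glue := fun s hs d hd => by
    obtain ⟨a, b⟩ := s
    rw [mem_QW, mem_sqr] at hs hd
    obtain ⟨⟨h3, h4⟩, h5⟩ := hs
    obtain ⟨⟨h6, h7⟩, h8⟩ := hd
    unfold QSet at h5 h8
    simp only [Bool.not_eq_true', decide_eq_false_iff_not] at h5 h8
    have hC : ((wr D.l D.r (p.1 + a), p.2 + b), d) ∉ D.C := notMem_C (Or.inl (by omega))
    have h9 : D.g2 (dl ((wr D.l D.r (p.1 + a), p.2 + b), d)) =
      dl (D.g ((wr D.l D.r (p.1 + a), p.2 + b), d)) := dg_dl_of hC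
    show D.g2 (dl ((wr D.l D.r (p.1 + a), p.2 + b), d)) = _
    rw [h9]
    cases d
    · rw [g_E (by omega) (by omega)]
      show ((Sum.inl (wr D.l D.r (p.1 + a + 1), p.2 + b), Dir.W) : Half _) =
        (Sum.inl (wr D.l D.r (p.1 + (a + 1)), p.2 + (b + 0)), Dir.W)
      rw [add_assoc, add_zero]
    · have h8' : ¬ D.t - p.2 ≤ b + 1 := h8
      rw [g_N (by omega) (by omega)]
      show ((Sum.inl (wr D.l D.r (p.1 + a), p.2 + b + 1), Dir.S) : Half _) =
        (Sum.inl (wr D.l D.r (p.1 + (a + 0)), p.2 + (b + 1)), Dir.S)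
      rw [add_assoc, add_zero]
    · rw [g_W (by omega) (by omega)]
      show ((Sum.inl (wr D.l D.r (p.1 + a - 1), p.2 + b), Dir.E) : Half _) =
        (Sum.inl (wr D.l D.r (p.1 + (a + -1)), p.2 + (b + 0)), Dir.E)
      rw [add_zero, ← add_assoc, ← sub_eq_add_neg]
    · have h7' : -(w : ℤ) ≤ b + -1 := h7.1
      rw [g_S (by omega) (by omega)]
      show ((Sum.inl (wr D.l D.r (p.1 + a), p.2 + b - 1), Dir.N) : Half _) =
        (Sum.inl (wr D.l D.r (p.1 + (a + 0)), p.2 + (b + -1)), Dir.N)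
      rw [add_zero, ← add_assoc, ← sub_eq_add_neg]
  wall := fun s hs d hd hd' => by
    obtain ⟨a, b⟩ := s
    rw [mem_QW, mem_sqr] at hs
    rw [mem_sqr] at hd
    obtain ⟨⟨h3, h4⟩, h5⟩ := hs
    obtain ⟨h6, h7⟩ := hd
    unfold QSet at h5 hd'
    simp only [Bool.not_eq_true', decide_eq_false_iff_not, not_not] at h5 hd'
    cases d
    · have h8 : D.t - p.2 ≤ b + 0 := hd'
      omega
    · have h8 : D.t - p.2 ≤ b + 1 := hd'
      have h9 : p.2 + b + 1 = D.t := by omega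
      have hC : ((wr D.l D.r (p.1 + a), p.2 + b), Dir.N) ∉ D.C := notMem_C (Or.inl (by omega))
      have h10 : D.g2 (dl ((wr D.l D.r (p.1 + a), p.2 + b), .N)) =
        dl (D.g ((wr D.l D.r (p.1 + a), p.2 + b), .N)) := dg_dl_of hC
      show D.g2 (dl ((wr D.l D.r (p.1 + a), p.2 + b), .N)) = _
      rw [h10]
      have h11 : (wr D.l D.r (p.1 + a), p.2 + b + 1) ∉ D.R := by
        rw [h9, mem_R]
        rintro (h | h)
        · refine hc (a, b + 1) (mem_sqr.2 ⟨?_, ?_⟩) (by omega) h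
          · exact h3
          · exact h7
        · omega
      rw [glue_wall cyl_N h11]
      rfl
    · have h8 : D.t - p.2 ≤ b + 0 := hd'
      omega
    · have h8 : D.t - p.2 ≤ b + -1 := hd'
      omega

/-- the place of the double of the strip -/
def bulkφ (D : Cap) (p s : ℤ × ℤ) : (ℤ × ℤ) ⊕ (ℤ × ℤ) :=
  if D.y ≤ p.2 + s.2 then Sum.inl (wr D.l D.r (p.1 + s.1), p.2 + s.2)
  else Sum.inr (wr D.l D.r (p.1 + s.1), 2 * D.y - 1 - (p.2 + s.2))

/-- **the chart in the strip** -/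
def bulk (p : ℤ × ℤ) (w : ℕ) (hw : 2 * (w : ℤ) ≤ D.r - D.l) (h1 : p.2 + w ≤ D.t)
    (h2 : 2 * D.y - D.t ≤ p.2 - w) : QChart D.T2 D.g2 w where
  φ := D.bulkφ p
  v := 0
  Q := fun _ _ => true
  adm := fun a b _ _ => Or.inl rfl
  mem := fun s hs => by
    rw [mem_QW, mem_sqr] at hs
    have h6 := wr_mem D.hlr (p.1 + s.1)
    unfold bulkφ
    by_cases h3 : D.y ≤ p.2 + s.2
    · rw [if_pos h3]
      exact Finset.inl_mem_disjSum.2 (strip_mem h6.1 h6.2 h3 (by omega))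
    · rw [if_neg h3]
      exact Finset.inr_mem_disjSum.2 (strip_mem h6.1 h6.2 (by omega) (by omega))
  inj := fun s hs s' hs' h => by
    rw [mem_QW, mem_sqr] at hs hs'
    unfold bulkφ at h
    by_cases h3 : D.y ≤ p.2 + s.2 <;> by_cases h4 : D.y ≤ p.2 + s'.2
    · rw [if_pos h3, if_pos h4] at h
      have h5 := Sum.inl.inj h
      have h6 := wr_inj (congrArg Prod.fst h5) (by omega) (by omega)
      have h7 : p.2 + s.2 = p.2 + s'.2 := congrArg Prod.snd h5
      exact Prod.ext (by omega) (by omega)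
    · rw [if_pos h3, if_neg h4] at h
      cases h
    · rw [if_neg h3, if_pos h4] at h
      cases h
    · rw [if_neg h3, if_neg h4] at h
      have h5 := Sum.inr.inj h
      have h6 := wr_inj (congrArg Prod.fst h5) (by omega) (by omega)
      have h7 : 2 * D.y - 1 - (p.2 + s.2) = 2 * D.y - 1 - (p.2 + s'.2) := congrArg Prod.snd h5
      exact Prod.ext (by omega) (by omega)
  glue := fun s hs d hd => by
    obtain ⟨a, b⟩ := s
    rw [mem_QW, mem_sqr] at hs hd
    obtain ⟨⟨h3, h4⟩, -⟩ := hs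
    obtain ⟨⟨h6, h7⟩, -⟩ := hd
    simp only at h3 h4
    have up : ∀ i j : ℤ, D.y ≤ p.2 + j → D.bulkφ p (i, j) =
        Sum.inl (wr D.l D.r (p.1 + i), p.2 + j) := fun i j h => if_pos h
    have lo : ∀ i j : ℤ, ¬ D.y ≤ p.2 + j → D.bulkφ p (i, j) =
        Sum.inr (wr D.l D.r (p.1 + i), 2 * D.y - 1 - (p.2 + j)) := fun i j h => if_neg h
    by_cases h8 : D.y ≤ p.2 + b
    · rw [up a b h8]
      cases d
      · have hC : ((wr D.l D.r (p.1 + a), p.2 + b), Dir.E) ∉ D.C :=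
          notMem_C (Or.inr (by decide))
        have h10 : D.g2 (dl ((wr D.l D.r (p.1 + a), p.2 + b), .E)) =
          dl (D.g ((wr D.l D.r (p.1 + a), p.2 + b), .E)) := dg_dl_of hC
        show D.g2 (dl ((wr D.l D.r (p.1 + a), p.2 + b), .E)) = (D.bulkφ p (a + 1, b + 0), Dir.W)
        rw [h10, g_E h8 (by omega), up _ _ (by omega), add_zero, ← add_assoc]
        rfl
      · have hC : ((wr D.l D.r (p.1 + a), p.2 + b), Dir.N) ∉ D.C :=
          notMem_C (Or.inr (by decide))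
        have h10 : D.g2 (dl ((wr D.l D.r (p.1 + a), p.2 + b), .N)) =
          dl (D.g ((wr D.l D.r (p.1 + a), p.2 + b), .N)) := dg_dl_of hC
        have h7' : b + 1 < w := h7.2
        show D.g2 (dl ((wr D.l D.r (p.1 + a), p.2 + b), .N)) = (D.bulkφ p (a + 0, b + 1), Dir.S)
        rw [h10, g_N h8 (by omega), up _ _ (by omega), add_zero, ← add_assoc]
        rfl
      · have hC : ((wr D.l D.r (p.1 + a), p.2 + b), Dir.W) ∉ D.C :=
          notMem_C (Or.inr (by decide))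
        have h10 : D.g2 (dl ((wr D.l D.r (p.1 + a), p.2 + b), .W)) =
          dl (D.g ((wr D.l D.r (p.1 + a), p.2 + b), .W)) := dg_dl_of hC
        show D.g2 (dl ((wr D.l D.r (p.1 + a), p.2 + b), .W)) = (D.bulkφ p (a + -1, b + 0), Dir.E)
        rw [h10, g_W h8 (by omega), up _ _ (by omega), add_zero, ← add_assoc, ← sub_eq_add_neg]
        rfl
      · show D.g2 (dl ((wr D.l D.r (p.1 + a), p.2 + b), .S)) = (D.bulkφ p (a + 0, b + -1), Dir.N)
        by_cases h9 : p.2 + b = D.y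
        · have hm := wr_mem D.hlr (p.1 + a)
          have hC : ((wr D.l D.r (p.1 + a), p.2 + b), Dir.S) ∈ D.C := mem_C.2 ⟨hm, h9, rfl⟩
          have h10 : D.g2 (dl ((wr D.l D.r (p.1 + a), p.2 + b), .S)) =
            dr ((wr D.l D.r (p.1 + a), p.2 + b), .S) := by
            unfold g2
            rw [dg_dl, if_pos hC]
          rw [h10, lo _ _ (by omega), add_zero]
          unfold dr
          refine Prod.ext ?_ rfl
          show Sum.inr (wr D.l D.r (p.1 + a), p.2 + b) =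
            Sum.inr (wr D.l D.r (p.1 + a), 2 * D.y - 1 - (p.2 + (b + -1)))
          congr 2
          omega
        · have hC : ((wr D.l D.r (p.1 + a), p.2 + b), Dir.S) ∉ D.C := notMem_C (Or.inl h9)
          have h10 : D.g2 (dl ((wr D.l D.r (p.1 + a), p.2 + b), .S)) =
            dl (D.g ((wr D.l D.r (p.1 + a), p.2 + b), .S)) := dg_dl_of hC
          rw [h10, g_S (by omega) (by omega), up _ _ (by omega), add_zero, ← add_assoc,
            ← sub_eq_add_neg]
          rfl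
    · rw [lo a b h8]
      have hdr : ∀ d : Dir, ((Sum.inr (wr D.l D.r (p.1 + a), 2 * D.y - 1 - (p.2 + b)), d) :
          Half ((ℤ × ℤ) ⊕ (ℤ × ℤ))) = dr ((wr D.l D.r (p.1 + a), 2 * D.y - 1 - (p.2 + b)), d.flip) :=
        fun d => by unfold dr; rw [Dir.flip_flip]
      rw [hdr]
      have h4' : (-(w : ℤ) ≤ b) ∧ b < w := h4
      cases d
      · have hC : ((wr D.l D.r (p.1 + a), 2 * D.y - 1 - (p.2 + b)), Dir.E) ∉ D.C :=
          notMem_C (Or.inr (by decide))
        have h10 : D.g2 (dr ((wr D.l D.r (p.1 + a), 2 * D.y - 1 - (p.2 + b)), .E)) =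
          dr (D.g ((wr D.l D.r (p.1 + a), 2 * D.y - 1 - (p.2 + b)), .E)) := dg_dr_of hC
        show D.g2 (dr ((wr D.l D.r (p.1 + a), 2 * D.y - 1 - (p.2 + b)), .E)) =
          (D.bulkφ p (a + 1, b + 0), Dir.W)
        rw [h10, g_E (by omega) (by omega), lo _ _ (by omega), add_zero, ← add_assoc]
        rfl
      · show D.g2 (dr ((wr D.l D.r (p.1 + a), 2 * D.y - 1 - (p.2 + b)), .S)) =
          (D.bulkφ p (a + 0, b + 1), Dir.S)
        by_cases h9 : p.2 + b = D.y - 1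
        · have hm := wr_mem D.hlr (p.1 + a)
          have hC : ((wr D.l D.r (p.1 + a), 2 * D.y - 1 - (p.2 + b)), Dir.S) ∈ D.C :=
            mem_C.2 ⟨hm, by show 2 * D.y - 1 - (p.2 + b) = D.y; omega, rfl⟩
          have h10 : D.g2 (dr ((wr D.l D.r (p.1 + a), 2 * D.y - 1 - (p.2 + b)), .S)) =
            dl ((wr D.l D.r (p.1 + a), 2 * D.y - 1 - (p.2 + b)), .S) := by
            unfold g2
            rw [dg_dr, if_pos hC]
          rw [h10, up _ _ (by omega), add_zero]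
          unfold dl
          refine Prod.ext ?_ rfl
          show Sum.inl (wr D.l D.r (p.1 + a), 2 * D.y - 1 - (p.2 + b)) =
            Sum.inl (wr D.l D.r (p.1 + a), p.2 + (b + 1))
          congr 2
          omega
        · have hC : ((wr D.l D.r (p.1 + a), 2 * D.y - 1 - (p.2 + b)), Dir.S) ∉ D.C :=
            notMem_C (Or.inl (by omega))
          have h10 : D.g2 (dr ((wr D.l D.r (p.1 + a), 2 * D.y - 1 - (p.2 + b)), .S)) =
            dr (D.g ((wr D.l D.r (p.1 + a), 2 * D.y - 1 - (p.2 + b)), .S)) := dg_dr_of hC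
          rw [h10, g_S (by omega) (by omega), lo _ _ (by omega), add_zero,
            show 2 * D.y - 1 - (p.2 + b) - 1 = 2 * D.y - 1 - (p.2 + (b + 1)) by ring]
          rfl
      · have hC : ((wr D.l D.r (p.1 + a), 2 * D.y - 1 - (p.2 + b)), Dir.W) ∉ D.C :=
          notMem_C (Or.inr (by decide))
        have h10 : D.g2 (dr ((wr D.l D.r (p.1 + a), 2 * D.y - 1 - (p.2 + b)), .W)) =
          dr (D.g ((wr D.l D.r (p.1 + a), 2 * D.y - 1 - (p.2 + b)), .W)) := dg_dr_of hC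
        show D.g2 (dr ((wr D.l D.r (p.1 + a), 2 * D.y - 1 - (p.2 + b)), .W)) =
          (D.bulkφ p (a + -1, b + 0), Dir.E)
        rw [h10, g_W (by omega) (by omega), lo _ _ (by omega), add_zero, ← add_assoc,
          ← sub_eq_add_neg]
        rfl
      · have h7' : -(w : ℤ) ≤ b + -1 := h7.1
        have hC : ((wr D.l D.r (p.1 + a), 2 * D.y - 1 - (p.2 + b)), Dir.N) ∉ D.C :=
          notMem_C (Or.inr (by decide))
        have h10 : D.g2 (dr ((wr D.l D.r (p.1 + a), 2 * D.y - 1 - (p.2 + b)), .N)) =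
          dr (D.g ((wr D.l D.r (p.1 + a), 2 * D.y - 1 - (p.2 + b)), .N)) := dg_dr_of hC
        show D.g2 (dr ((wr D.l D.r (p.1 + a), 2 * D.y - 1 - (p.2 + b)), .N)) =
          (D.bulkφ p (a + 0, b + -1), Dir.N)
        rw [h10, g_N (by omega) (by omega), lo _ _ (by omega), add_zero,
          show 2 * D.y - 1 - (p.2 + b) + 1 = 2 * D.y - 1 - (p.2 + (b + -1)) by ring]
        rfl
  wall := fun s _ d _ hd' => absurd (rfl : (true : Bool) = true) hd'

end Cap

end Full.Norm
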