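import Pool.Agent.Full.Norm.Law
import Pool.Agent.Full.Norm.CapChart

/-!
# The law of the phases of a cap, and the local laws in the charts of its double

`Cap.PhLaw D φ q ψ`: phases `φ` of the half edges of a cap; `ψ` is the phase of the seam, `q x` the charge
between the wall ends `x` and `next x`.  The phases of the double are `dph φ φ'` (own copy `φ`, other
copy `φ'`); the charges are `q2 q q'`.  The local laws `QChart.SLaw` hold in the charts of the double:
`ε = 1` in the own copy, `ε = -1` in the other copy.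
-/

set_option autoImplicit false

namespace Full.Norm
open Finset Function

/-- **an orientation reversing map reverses the boundary** -/
theorem next_rev {σ τ : Type*} {T : Finset σ} {g : Half σ → Half σ} {h : Half τ → Half τ}
    (hG : Glu T g) (F : Half σ → Half τ) {x : Half σ} (hx : g x = x)
    (h1 : ∀ j, j ≤ Turn.ks g x → h (F ((rot g)^[j] x)) = F (g ((rot g)^[j] x)))
    (h2 : ∀ j, j < Turn.ks g x → rho (F (rho (g ((rot g)^[j] x)))) = F (g ((rot g)^[j] x)))
    (h3 : ∀ j, 1 ≤ j → j < Turn.ks g x → F (g ((rot g)^[j] x)) ≠ F ((rot g)^[j] x))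
    (h4 : ∀ j, j < Turn.ks g x → h (h (F ((rot g)^[j] x))) = F ((rot g)^[j] x)) :
    next h (F (next g x)) = F x ∧ Turn.ks h (F (next g x)) = Turn.ks g x := by
  obtain ⟨k1, k2, k3⟩ := Turn.ks_spec hG hx
  have hfix := hG.next_fix hx
  set k := Turn.ks g x with hk
  have e0 : h (F (next g x)) = F (next g x) := by
    have h5 := h1 k le_rfl
    rw [← k2, hfix] at h5
    exact h5
  have key : ∀ j, 1 ≤ j → j ≤ k → (rot h)^[j] (F (next g x)) = F (g ((rot g)^[k - j] x)) := by
    intro j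
    induction j with
    | zero => intro h5; omega
    | succ j ih =>
      intro _ h5
      rw [iterate_succ_apply']
      have e1 : (rot g)^[k - j] x = rho (g ((rot g)^[k - (j + 1)] x)) := by
        have e2 : k - j = (k - (j + 1)) + 1 := by omega
        rw [e2, iterate_succ_apply']
        rfl
      have e3 : rho (F ((rot g)^[k - j] x)) = F (g ((rot g)^[k - (j + 1)] x)) := by
        rw [e1]
        exact h2 _ (by omega)
      rcases Nat.eq_zero_or_pos j with rfl | hj
      · show rho (h (F (next g x))) = _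
        rw [e0, ← e3]
        congr 2
      · rw [ih hj (by omega)]
        show rho (h (F (g _))) = _
        rw [← h1 (k - j) (by omega), h4 (k - j) (by omega)]
        exact e3
  have h5 := Turn.ks_of (g := h) (x := F (next g x)) (k := k) k1 (by
    rw [key k k1 le_rfl, Nat.sub_self, iterate_zero, id, hx]
    have h6 := h1 0 (by omega)
    rw [iterate_zero, id, hx] at h6
    exact h6) (fun j hj1 hj2 => by
    rw [key j hj1 hj2.le, ← h1 (k - j) (by omega), h4 (k - j) (by omega),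
      h1 (k - j) (by omega)]
    exact (h3 (k - j) (by omega) (by omega)).symm)
  rw [key k k1 le_rfl, Nat.sub_self, iterate_zero, id, hx] at h5
  exact ⟨h5.2, h5.1⟩

/-- phases of the double -/
def dph {τ : Type*} (φ φ' : Half τ → ℝ) : Half (τ ⊕ τ) → ℝ
  | (Sum.inl t, d) => φ (t, d)
  | (Sum.inr t, d) => φ' (t, d.flip)

@[simp] lemma dph_dl {τ : Type*} (φ φ' : Half τ → ℝ) (x : Half τ) : dph φ φ' (dl x) = φ x := rfl

@[simp] lemma dph_dr {τ : Type*} (φ φ' : Half τ → ℝ) (x : Half τ) : dph φ φ' (dr x) = φ' x := by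
  obtain ⟨t, d⟩ := x
  show φ' (t, d.flip.flip) = _
  rw [Dir.flip_flip]

namespace Cap
variable {D : Cap}

/-- the half edges of the seam -/
def Seam (D : Cap) (x : Half (ℤ × ℤ)) : Prop :=
  ∃ j, D.y ≤ j ∧ j < D.t ∧ (x = ((D.l, j), .W) ∨ x = ((D.r - 1, j), .E))

/-- **the law of the phases of a cap** -/
structure PhLaw (D : Cap) (φ : Half (ℤ × ℤ) → ℝ) (q : Half (ℤ × ℤ) → ℤ) (ψ : ℝ) : Prop where
  gl : ∀ x, D.g x ≠ x → ¬ D.Seam x → φ (D.g x) = φ x
  seam : ∀ j, D.y ≤ j → j < D.t → φ ((D.l, j), .W) = φ ((D.r - 1, j), .E) + ψ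
  cut : ∀ x ∈ D.C, φ x = 0
  wall : ∀ x, Bd D.R D.g x → x ∉ D.C → φ (next D.g x) - φ x =
    -(2 * K0 * Turn.bt D.g x - 8 * K0 * q x) - (if x = ((D.l, D.t - 1), .N) then ψ else 0)

/-- charges of the own copy -/
def ql {τ : Type*} (q : Half τ → ℤ) : Half (τ ⊕ τ) → ℤ
  | (Sum.inl t, d) => q (t, d)
  | (Sum.inr _, _) => 0

/-- charges of the double -/
noncomputable def q2 (D : Cap) (q q' : Half (ℤ × ℤ) → ℤ) : Half ((ℤ × ℤ) ⊕ (ℤ × ℤ)) → ℤ
  | (Sum.inl t, d) => q (t, d)
  | (Sum.inr t, d) => ql q' (swh (next D.g2 (Sum.inr t, d)))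

@[simp] lemma q2_dl (q q' : Half (ℤ × ℤ) → ℤ) (x : Half (ℤ × ℤ)) : D.q2 q q' (dl x) = q x := rfl

lemma q2_dr (q q' : Half (ℤ × ℤ) → ℤ) (x : Half (ℤ × ℤ)) :
    D.q2 q q' (dr x) = ql q' (swh (next D.g2 (dr x))) := rfl

/-- the chart shows own tiles, away from the cut -/
structure Own (D : Cap) {w : ℕ} (c : QChart D.T2 D.g2 w) (f : ℤ × ℤ → ℤ × ℤ) : Prop where
  eq : ∀ s ∈ c.W, c.φ s = Sum.inl (f s)
  cut : ∀ s ∈ c.W, ∀ d : Dir, s + d.vec ∈ sqr w → (f s, d) ∉ D.C

/-- the chart of the cap -/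
def Own.chart {w : ℕ} {c : QChart D.T2 D.g2 w} {f : ℤ × ℤ → ℤ × ℤ} (h : Own D c f) :
    QChart D.R D.g w where
  φ := f
  v := c.v
  Q := c.Q
  adm := c.adm
  mem := fun s hs => by
    have h1 := c.mem s hs
    rw [h.eq s hs] at h1
    exact Finset.inl_mem_disjSum.1 h1
  inj := fun s hs s' hs' h1 => c.inj s hs s' hs' (by rw [h.eq s hs, h.eq s' hs', h1])
  glue := fun s hs d hd => by
    have h1 := c.glue s hs d hd
    rw [h.eq s hs, h.eq _ hd] at h1
    have h2 : D.g2 (dl (f s, d)) = dl (D.g (f s, d)) := dg_dl_of (h.cut s hs d (mem_QW.1 hd).1)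
    have h3 : dl (D.g (f s, d)) = dl (f (s + d.vec), d.opp) := h2.symm.trans h1
    exact dl_inj h3
  wall := fun s hs d hd hd' => by
    have h1 := c.wall s hs d hd hd'
    rw [h.eq s hs] at h1
    have h2 : D.g2 (dl (f s, d)) = dl (D.g (f s, d)) := dg_dl_of (h.cut s hs d hd)
    have h3 : dl (D.g (f s, d)) = dl (f s, d) := h2.symm.trans h1
    exact dl_inj h3

end Cap

end Full.Norm
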