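import Pool.Agent.Full.Norm.Half
import Pool.Agent.Full.Norm.PhLaw
import Pool.Agent.Full.X3.Hol
import Pool.Agent.Full.Perc.BK

/-!
# The norm of a sum of vectors of a cap

`uph φ`: the factors with the phases `φ`.  The square of the norm of a sum of vectors with unit phases is
at most the mean of the sum of the moduli of the weights of the configurations of the double, with the
phases `dph (φ k) (φ k')`.
-/

set_option autoImplicit false

namespace Full.Norm
open Finset Function Full.X3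
open Full.Perc (Ex)

noncomputable section

/-- the factors with the phases `φ` -/
def uph {τ : Type*} (φ : Half τ → ℝ) (x : Half τ) (b : Bool) : ℂ := ue (sgn b * φ x)

lemma phF_none {τ : Type*} [DecidableEq τ] (φ : Half τ → ℝ) : phF φ none = uph φ := by
  funext x b
  unfold phF uph
  rw [if_neg (by simp)]

lemma conj_ue (r : ℝ) : (starRingEnd ℂ) (ue r) = ue (-r) := by
  unfold ue
  rw [← Complex.exp_conj]
  congr 1
  rw [map_mul, Complex.conj_I, Complex.conj_ofReal]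
  push_cast
  ring

lemma conj_uph {τ : Type*} (φ : Half τ → ℝ) (x : Half τ) (b : Bool) :
    (starRingEnd ℂ) (uph φ x (!b)) = uph φ x b := by
  unfold uph
  rw [conj_ue]
  congr 1
  cases b <;> simp

lemma dF_uph {τ : Type*} (φ φ' : Half τ → ℝ) : dF (uph φ) (uph φ') = uph (dph φ φ') := by
  funext x b
  rcases dcases x with ⟨y, rfl⟩ | ⟨y, rfl⟩
  · rw [dF_dl]
    unfold uph
    rw [dph_dl]
  · rw [dF_dr, conj_uph]
    unfold uph
    rw [dph_dr]

/-- the modulus of a network with unit phases -/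
theorem norm_net_le {τ ι : Type*} [DecidableEq τ] [LinearOrder ι] {T : Finset τ} {g : Half τ → Half τ}
    (hG : Glu T g) (K : ℝ) (φ : Half τ → ℝ) {o : Half τ → ι}
    (ho : ∀ x, Bd T g x → ∀ y, Bd T g y → o x = o y → x = y) :
    ‖net T g K (uph φ)‖ ≤ Ex T fun ω => ‖cw K φ T g none o ω‖ := by
  rw [← phF_none, net_hol hG K φ none (fun x hx => by cases hx) ho, norm_mul, norm_pow]
  unfold Full.Perc.Ex
  have e : ‖(1 / 2 : ℂ)‖ = 1 / 2 := by simp
  rw [e, one_div, inv_pow, mul_comm, ← div_eq_mul_inv]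
  exact div_le_div_of_nonneg_right (norm_sum_le _ _) (by positivity)

namespace Cap
variable (D : Cap) {n : ℕ} {κ : Type*}

/-- the square of the norm of a sum of vectors -/
theorem sq_eq (h : D.r = D.l + n) (I : Finset κ) (F : κ → Half (ℤ × ℤ) → Bool → ℂ) :
    ((∑ s : Fin n → Bool, ‖∑ k ∈ I, D.vec n (F k) s‖ ^ 2 : ℝ) : ℂ) =
      ∑ k ∈ I, ∑ k' ∈ I, net D.T2 D.g2 K0 (dF (F k) (F k')) := by
  push_cast
  have e : ∀ s : Fin n → Bool, ((‖∑ k ∈ I, D.vec n (F k) s‖ : ℂ)) ^ 2 =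
      ∑ k ∈ I, ∑ k' ∈ I, D.vec n (F k) s * (starRingEnd ℂ) (D.vec n (F k') s) := by
    intro s
    rw [← Complex.mul_conj', map_sum, sum_mul_sum]
  simp only [e]
  rw [sum_comm]
  refine sum_congr rfl fun k _ => ?_
  rw [sum_comm]
  refine sum_congr rfl fun k' _ => ?_
  exact D.inner h (F k) (F k')

/-- **the square of the norm of a sum of vectors with unit phases** -/
theorem sq_le {ι : Type*} [LinearOrder ι] (h : D.r = D.l + n) (I : Finset κ)
    (φ : κ → Half (ℤ × ℤ) → ℝ) {o : Half ((ℤ × ℤ) ⊕ (ℤ × ℤ)) → ι}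
    (ho : ∀ x, Bd D.T2 D.g2 x → ∀ y, Bd D.T2 D.g2 y → o x = o y → x = y) :
    ∑ s : Fin n → Bool, ‖∑ k ∈ I, D.vec n (uph (φ k)) s‖ ^ 2 ≤
      Ex D.T2 fun ω => ∑ k ∈ I, ∑ k' ∈ I, ‖cw K0 (dph (φ k) (φ k')) D.T2 D.g2 none o ω‖ := by
  have h1 := D.sq_eq h I fun k => uph (φ k)
  have h2 : ∑ s : Fin n → Bool, ‖∑ k ∈ I, D.vec n (uph (φ k)) s‖ ^ 2 =
      ‖((∑ s : Fin n → Bool, ‖∑ k ∈ I, D.vec n (uph (φ k)) s‖ ^ 2 : ℝ) : ℂ)‖ := by
    rw [Complex.norm_real, Real.norm_of_nonneg (sum_nonneg fun _ _ => by positivity)]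
  rw [h2, h1]
  refine (norm_sum_le _ _).trans ?_
  have h3 : ∀ k ∈ I, ‖∑ k' ∈ I, net D.T2 D.g2 K0 (dF (uph (φ k)) (uph (φ k')))‖ ≤
      ∑ k' ∈ I, Ex D.T2 fun ω => ‖cw K0 (dph (φ k) (φ k')) D.T2 D.g2 none o ω‖ := by
    intro k _
    refine (norm_sum_le _ _).trans (sum_le_sum fun k' _ => ?_)
    rw [dF_uph]
    exact norm_net_le glu_g2 K0 _ ho
  refine (sum_le_sum h3).trans (le_of_eq ?_)
  unfold Full.Perc.Ex
  simp only [← sum_div]
  congr 1
  rw [sum_comm' (s := D.T2.powerset) (t := fun _ => I) (t' := I) (s' := fun _ => D.T2.powerset)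
    (by intro x y; tauto)]
  refine sum_congr rfl fun k _ => ?_
  rw [sum_comm]

end Cap

end

end Full.Norm
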