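import Pool.Agent.Full.Norm.PhLaw
import Pool.Agent.Full.Norm.CapAtlas
import Pool.Agent.Full.Norm.QShape
import Pool.Agent.Full.Norm.VecSq

/-!
# The walls of a cap with marks and screening positions

`Cap.Env D p`: the special points of the walls of the cap `D` (corners and marks) and the `p` sets `Y i`
of positions of the screening pairs.  `Env.Ok E K n w A m R`: the geometric hypotheses of the norm bound:
`n` is the scale of the lattice, `R` the radius of the windows around the special points and the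
positions, `2 m + 1` the radius of the generic charts, `w` the scale of the cap, `A` its size; all are
comparable: `n ≤ K m`, `A ≤ K m`, `R ≤ n`.
-/

set_option autoImplicit false

namespace Full.Norm
open Finset Function

/-- the special points of the walls of a cap and the sets of the positions of the screening pairs -/
structure Cap.Env (D : Cap) (p : ℕ) where
  /-- the number of the special points -/
  S : ℕ
  /-- the vertices: corners and marks -/
  V : Fin S → ℤ × ℤ
  /-- the region around the special point -/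
  Q : Fin S → Bool → Bool → Bool
  /-- the special points which are marks -/
  M : Finset (Fin S)
  /-- the wall end before the mark, in the order of `next` -/
  me : Fin S → Half (ℤ × ℤ)
  /-- the positions of the screening pairs -/
  Y : Fin p → Finset (Half (ℤ × ℤ))
  /-- the marks near the positions `Y i` -/
  N : Fin p → Finset (Fin S)

namespace Cap.Env
variable {D : Cap} {p : ℕ} (E : D.Env p)

/-- the charge of the marks: `u` is the wall end before the mark -/
def μ (u : Half (ℤ × ℤ)) : ℤ := ∑ c ∈ E.M, if u = E.me c then 1 else 0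

/-- the charges for the screening pairs at the wall ends `a i`: `-1` before and after `a i` -/
noncomputable def chg (a : Fin p → Half (ℤ × ℤ)) (u : Half (ℤ × ℤ)) : ℤ :=
  E.μ u - ∑ i, ((if u = a i then 1 else 0) + (if next D.g u = a i then 1 else 0))

/-- the tile is within the distance `r` of the special point `c` -/
def Near (c : Fin E.S) (r : ℕ) (t : ℤ × ℤ) : Prop := t - E.V c ∈ sqr r

/-- the four tiles around the vertex `v` -/
def around (v : ℤ × ℤ) : Finset (ℤ × ℤ) :=
  {(v.1 - 1, v.2 - 1), (v.1 - 1, v.2), (v.1, v.2 - 1), (v.1, v.2)}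

/-- **the geometric hypotheses of the norm bound** -/
structure Ok (K n w A m R : ℕ) : Prop where
  tame : D.Tame w A
  hm : 1 ≤ m
  hmR : 100 * m + 100 ≤ R
  hRw : 4 * R ≤ w
  hn : n ≤ K * m
  hA : A ≤ K * m
  hRn : R ≤ n
  hS : E.S ≤ K
  /-- the windows around the special points are in the plane part and show nothing else -/
  plain : ∀ c, D.Plain (E.V c) R
  qbox : ∀ c, QBox D.R (E.V c) R (E.V c) (E.Q c)
  kind : ∀ c, if c ∈ E.M then nq (E.Q c) = 2 else nq (E.Q c) = 1 ∨ nq (E.Q c) = 3
  /-- the windows are disjoint -/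
  far : ∀ c c', c ≠ c' → E.V c - E.V c' ∉ sqr (2 * R + 2)
  /-- every corner is special -/
  corner : ∀ v : ℤ × ℤ, (#{t ∈ around v | t ∈ D.R} = 1 ∨ #{t ∈ around v | t ∈ D.R} = 3) →
    (v.1 = D.l ∨ v.1 = D.r) ∧ D.y ≤ v.2 ∧ v.2 ≤ D.t ∨ ∃ c, c ∉ E.M ∧ E.V c = v
  /-- as many convex as reflex corners -/
  bal : #{c : Fin E.S | nq (E.Q c) = 1} = #{c : Fin E.S | nq (E.Q c) = 3}
  /-- the mark is at the vertex -/
  mark : ∀ c ∈ E.M, (E.me c).1 - E.V c ∈ sqr 1 ∧ Bd D.R D.g (E.me c) ∧ E.me c ∉ D.C ∧
    Norm.ps (E.V c) (E.me c) = -1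
  /-- positions -/
  bd : ∀ i, ∀ y ∈ E.Y i, Bd D.R D.g y ∧ y ∉ D.C
  yplain : ∀ i, ∀ y ∈ E.Y i, D.Plain y.1 R
  yq : ∀ i, ∀ y ∈ E.Y i, ∃ v Q, QBox D.R y.1 R v Q
  card : ∀ i, (E.Y i).card ≤ K * n
  ysep : ∀ i j, i ≠ j → ∀ y ∈ E.Y i, ∀ y' ∈ E.Y j, y.1 - y'.1 ∉ sqr (4 * R)
  /-- the marks near the positions `Y i` -/
  near : ∀ i, ∀ y ∈ E.Y i, ∀ c ∈ E.M, E.Near c R y.1 → c ∈ E.N i
  hN : ∀ i, E.N i ⊆ E.M
  hN' : ∀ i j, i ≠ j → Disjoint (E.N i) (E.N j)

end Cap.Env

end Full.Norm
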