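import Pool.Agent.Full.Norm.CfctLoc
import Pool.Agent.Full.Norm.Env
import Pool.Agent.Full.Corner.ShapesLaw

/-!
# The product of the means of the corner factors

`ucor_prod`: with as many convex as reflex corners, at most `K` special points and the same radius for all
windows, the product of the means of the corner factors is at most `C n ^ ε`.
-/

set_option autoImplicit false
set_option linter.unusedSectionVars false

namespace Full.Norm
open Function Finset Full Full.Corner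

lemma ucor_nonneg {C ε : ℝ} (hC : 0 ≤ C) (n m : ℕ) (k : ℤ) : 0 ≤ ucor C ε n m k := by
  unfold ucor
  split_ifs
  · unfold cvx
    exact Perc.Ex_nonneg fun ω _ => by positivity
  · have := rflx_nonneg m
    positivity

/-- **the product of the means of the corner factors**, abstract form -/
theorem ucor_prod_aux (K : ℕ) {ε : ℝ} (hε : 0 < ε) : ∃ ε1 : ℝ, 0 < ε1 ∧ ∀ C : ℝ, 1 ≤ C →
    ∃ C' : ℝ, 1 ≤ C' ∧ ∀ (ι : Type) [Fintype ι] (s : Finset ι) (k : ι → ℤ) (n m : ℕ),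
      #s ≤ K → (∀ i ∈ s, k i = 1 ∨ k i = 3) → #{i ∈ s | k i = 1} = #{i ∈ s | k i = 3} →
      1 ≤ m → m ≤ n → ∏ i ∈ s, ucor C ε1 n m (k i) ≤ C' * (n : ℝ) ^ ε := by
  have hK : (0 : ℝ) < 2 * K + 2 := by positivity
  refine ⟨ε / (2 * K + 2), by positivity, fun C hC => ?_⟩
  set ε1 := ε / (2 * K + 2) with hε1
  have hε1' : 0 < ε1 := by positivity
  obtain ⟨C2, hC2, h2⟩ := Full.Shp.corner_le hε1'
  refine ⟨(C * C2) ^ K, one_le_pow₀ (one_le_mul_of_one_le_of_one_le hC hC2), ?_⟩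
  intro ι _ s k n m hs hk hbal hm hmn
  classical
  have hn1 : (1 : ℝ) ≤ n := by
    have : 1 ≤ n := by omega
    exact_mod_cast this
  have hm0 : (0 : ℝ) ≤ m := Nat.cast_nonneg m
  have hmn' : (m : ℝ) ≤ n := by exact_mod_cast hmn
  set s1 := {i ∈ s | k i = 1} with hs1
  set s3 := {i ∈ s | k i = 3} with hs3
  have hsp : ∏ i ∈ s, ucor C ε1 n m (k i) =
      (∏ i ∈ s1, ucor C ε1 n m (k i)) * ∏ i ∈ s3, ucor C ε1 n m (k i) := by
    rw [← prod_filter_mul_prod_filter_not s (fun i => k i = 1)]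
    congr 1
    apply prod_congr _ fun _ _ => rfl
    ext i
    rw [hs3, mem_filter, mem_filter]
    constructor
    · rintro ⟨h1, h3⟩
      exact ⟨h1, (hk i h1).resolve_left h3⟩
    · rintro ⟨h1, h3⟩
      exact ⟨h1, by omega⟩
  have e1 : ∏ i ∈ s1, ucor C ε1 n m (k i) = cvx m ^ #s1 := by
    rw [← prod_const]
    apply prod_congr rfl
    intro i hi
    rw [hs1, mem_filter] at hi
    unfold ucor
    rw [if_pos hi.2]
  have e3 : ∏ i ∈ s3, ucor C ε1 n m (k i) = (C * (n : ℝ) ^ ε1 * rflx m) ^ #s1 := by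
    rw [hbal, ← prod_const]
    apply prod_congr rfl
    intro i hi
    rw [hs3, mem_filter] at hi
    unfold ucor
    rw [if_neg (by omega)]
  rw [hsp, e1, e3, ← mul_pow]
  have hcv : 0 ≤ cvx m := by
    unfold cvx
    exact Perc.Ex_nonneg fun ω _ => by positivity
  have hrf := rflx_nonneg m
  have hle : cvx m * (C * (n : ℝ) ^ ε1 * rflx m) ≤ C * C2 * (n : ℝ) ^ (2 * ε1) := by
    have h3 : cvx m * rflx m ≤ C2 * (n : ℝ) ^ ε1 :=
      (h2 m hm).trans (mul_le_mul_of_nonneg_left (Real.rpow_le_rpow hm0 hmn' hε1'.le) (by linarith))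
    have h4 : (0 : ℝ) ≤ C * (n : ℝ) ^ ε1 := by positivity
    calc cvx m * (C * (n : ℝ) ^ ε1 * rflx m) = (C * (n : ℝ) ^ ε1) * (cvx m * rflx m) := by ring
      _ ≤ (C * (n : ℝ) ^ ε1) * (C2 * (n : ℝ) ^ ε1) := mul_le_mul_of_nonneg_left h3 h4
      _ = C * C2 * ((n : ℝ) ^ ε1 * (n : ℝ) ^ ε1) := by ring
      _ = C * C2 * (n : ℝ) ^ (2 * ε1) := by
          rw [← Real.rpow_add (by linarith), two_mul]
  have h5 : 1 ≤ C * C2 * (n : ℝ) ^ (2 * ε1) :=
    one_le_mul_of_one_le_of_one_le (one_le_mul_of_one_le_of_one_le hC hC2)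
      (Real.one_le_rpow hn1 (by positivity))
  have hs1K : #s1 ≤ K := (card_le_card (filter_subset _ _)).trans hs
  calc (cvx m * (C * (n : ℝ) ^ ε1 * rflx m)) ^ #s1
      ≤ (C * C2 * (n : ℝ) ^ (2 * ε1)) ^ #s1 := pow_le_pow_left₀ (by positivity) hle _
    _ ≤ (C * C2 * (n : ℝ) ^ (2 * ε1)) ^ K := pow_le_pow_right₀ h5 hs1K
    _ = (C * C2) ^ K * (n : ℝ) ^ (2 * ε1 * K) := by
        rw [mul_pow, ← Real.rpow_natCast ((n : ℝ) ^ (2 * ε1)), ← Real.rpow_mul (by linarith)]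
    _ ≤ (C * C2) ^ K * (n : ℝ) ^ ε := by
        apply mul_le_mul_of_nonneg_left _ (by positivity)
        apply Real.rpow_le_rpow_of_exponent_le hn1
        rw [hε1]
        have : 2 * (ε / (2 * K + 2)) * K = ε * (2 * K / (2 * K + 2)) := by ring
        rw [this]
        have h6 : 2 * (K : ℝ) / (2 * K + 2) ≤ 1 := by
          rw [div_le_one hK]
          linarith
        calc ε * (2 * K / (2 * K + 2)) ≤ ε * 1 := mul_le_mul_of_nonneg_left h6 hε.le
          _ = ε := mul_one _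

/-- **the product of the means of the corner factors of a cap** -/
theorem ucor_prod (K : ℕ) {ε : ℝ} (hε : 0 < ε) : ∃ ε1 : ℝ, 0 < ε1 ∧ ∀ C : ℝ, 1 ≤ C →
    ∃ C' : ℝ, 1 ≤ C' ∧ ∀ (p : ℕ) (D : Cap) (E : D.Env p) (n w A m R : ℕ), E.Ok K n w A m R →
      ∀ r : ℕ, 1 ≤ r → r ≤ n →
      ∏ c ∈ univ.filter (fun c => c ∉ E.M), ucor C ε1 n r (nq (E.Q c)) ≤ C' * (n : ℝ) ^ ε := by
  obtain ⟨ε1, h1, h⟩ := ucor_prod_aux K hε
  refine ⟨ε1, h1, fun C hC => ?_⟩
  obtain ⟨C', hC', h⟩ := h C hC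
  refine ⟨C', hC', ?_⟩
  intro p D E n w A m R hE r hr hrn
  classical
  have hk : ∀ c ∉ E.M, nq (E.Q c) = 1 ∨ nq (E.Q c) = 3 := by
    intro c hc
    have := hE.kind c
    rwa [if_neg hc] at this
  have hM : ∀ c ∈ E.M, nq (E.Q c) = 2 := by
    intro c hc
    have := hE.kind c
    rwa [if_pos hc] at this
  have hf : ∀ j : ℤ, j ≠ 2 → (univ.filter (fun c => c ∉ E.M)).filter (fun c => nq (E.Q c) = j) =
      univ.filter fun c : Fin E.S => nq (E.Q c) = j := by
    intro j hj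
    ext c
    simp only [mem_filter, mem_univ, true_and]
    constructor
    · exact fun h => h.2
    · intro h
      refine ⟨fun hc => ?_, h⟩
      rw [hM c hc] at h
      exact hj h.symm
  refine h (Fin E.S) (univ.filter fun c => c ∉ E.M) (fun c => nq (E.Q c)) n r ?_ ?_ ?_ hr hrn
  · calc #(univ.filter fun c : Fin E.S => c ∉ E.M) ≤ #(univ : Finset (Fin E.S)) :=
          card_le_card (filter_subset _ _)
      _ = E.S := by simp
      _ ≤ K := hE.hS
  · intro c hc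
    exact hk c (mem_filter.1 hc).2
  · have e1 := hf 1 (by decide)
    have e3 := hf 3 (by decide)
    have h5 := hE.bal
    convert h5 using 2

end Full.Norm
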