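import Pool.Agent.Full.Norm.MAtlas

/-!
# The number of the own positions of the screening charges

`own_count`: fix a configuration and the positions of the mirror side.  The number of the positions
`y = (y i)` of the own side for which no strand has the weight zero is at most `(2 tot + 2 B) ^ J`, `tot` the
number of the crossings of the charts of the atlas and `B` the number of the charts: every `y i` is the end
of a strand which is not held by its chart, or an end of the outermost strand over the mark of a chart.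
-/

set_option autoImplicit false
set_option linter.unusedSectionVars false

namespace Full.Norm
open Finset Function Full.X3 Full.Corner

variable {τ : Type*} [DecidableEq τ] {T : Finset τ} {g : Half τ → Half τ}

namespace QChart
variable {w : ℕ} (c : QChart T g w)

/-- a strand over the gap `p0` between two real ends -/
def Ov (ω : Finset τ) (p0 : ℤ) (x x' : Half (ℤ × ℤ)) : Prop :=
  c.Real x ∧ c.Real x' ∧ other (mate (c.pl ω)) c.pg x = x' ∧ c.ps x < p0 ∧ p0 ≤ c.ps x'

/-- an end of the outermost strand over the gap `p0` -/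
def Outm (ω : Finset τ) (p0 : ℤ) (e : Half τ) : Prop :=
  ∃ x x', c.Ov ω p0 x x' ∧ (e = c.im x ∨ e = c.im x') ∧ ∀ z z', c.Ov ω p0 z z' → c.ps x ≤ c.ps z

variable {c} {ω : Finset τ} {p0 : ℤ}

/-- the outermost strand has two ends -/
theorem card_outm (S : Finset (Half τ)) (hS : ∀ e ∈ S, c.Outm ω p0 e) : S.card ≤ 2 := by
  rcases S.eq_empty_or_nonempty with rfl | ⟨e, he⟩
  · simp
  obtain ⟨x, x', h1, -, h3⟩ := hS e he
  have h4 : S ⊆ {c.im x, c.im x'} := by
    intro e' he'
    obtain ⟨z, z', g1, g2, g3⟩ := hS e' he'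
    have e1 : c.ps x = c.ps z := le_antisymm (h3 _ _ g1) (g3 _ _ h1)
    have e2 : x = z := c.ps_inj h1.1 g1.1 e1
    subst e2
    have e3 : x' = z' := h1.2.2.1.symm.trans g1.2.2.1
    subst e3
    rw [mem_insert, mem_singleton]
    exact g2
  exact (card_le_card h4).trans card_le_two

/-- strands over the same gap are nested -/
theorem Ov.nest {x x' z z' : Half (ℤ × ℤ)} (h : c.Ov ω p0 x x') (h' : c.Ov ω p0 z z')
    (hlt : c.ps z < c.ps x) : c.ps x' < c.ps z' := by
  obtain ⟨A, s, hs, -⟩ := c.exists_arc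
  obtain ⟨i, hi, rfl⟩ := A.surj x h.1
  obtain ⟨i', hi', rfl⟩ := A.surj x' h.2.1
  obtain ⟨k, hk, rfl⟩ := A.surj z h'.1
  obtain ⟨k', hk', rfl⟩ := A.surj z' h'.2.1
  have e1 := h.2.2.2.1
  have e2 := h.2.2.2.2
  have e3 := h'.2.2.2.1
  have e4 := h'.2.2.2.2
  rw [hs i hi] at e1 hlt
  rw [hs i' hi'] at e2
  rw [hs k hk] at e3 hlt
  rw [hs k' hk'] at e4
  have := A.noncross c.good hk' hi' (show k < i by omega) (show i < k' by omega) h'.2.2.1 h.2.2.1
  rw [hs i' hi', hs k' hk']
  omega

/-- **own side**: if no strand of the chart has the weight zero, then the strand of the position in `Y` is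
the outermost strand over the mark -/
theorem Dat.outm {φ : Half τ → ℝ} {μ : Half τ → ℤ} {Y : Finset (Half τ)} {py : ℤ}
    (hd : c.Dat φ 1 μ Y p0 py) {x x' : Half (ℤ × ℤ)} (hx : c.Real x) (hx' : c.Real x')
    (ho : other (mate (c.pl ω)) c.pg x = x') (hlt : c.ps x < c.ps x')
    (hY : c.im x ∈ Y ∨ c.im x' ∈ Y)
    (hnz : ∀ u, c.Real u → fw φ g ω (c.im u) ≠ 0) {e : Half τ} (he : e = c.im x ∨ e = c.im x') :
    c.Outm ω p0 e := by
  have hpy : py = c.ps x ∨ py = c.ps x' := by
    rcases hY with h | h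
    · exact Or.inl ((hd.hY x hx).1 h).symm
    · exact Or.inr ((hd.hY x' hx').1 h).symm
  have h1 := hnz x hx
  rw [hd.fw_own hx hx' ho hlt] at h1
  have hP : Px py (c.ps x) (c.ps x') = 1 := by
    unfold Px
    rcases hpy with h | h
    · rw [if_pos ⟨h.ge, by omega⟩, if_neg (by omega)]
      rfl
    · rw [if_neg (by omega), if_pos ⟨by omega, h.le⟩]
      rfl
  have hM : c.ps x < p0 ∧ p0 ≤ c.ps x' := by
    by_contra h2
    apply h1
    apply amp_eq_zero
    unfold hOwn
    rw [hP]
    unfold Mx
    rw [if_neg h2]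
    rfl
  refine ⟨x, x', ⟨hx, hx', ho, hM.1, hM.2⟩, he, ?_⟩
  intro z z' hz
  by_contra h3
  push Not at h3
  have h4 := Ov.nest ⟨hx, hx', ho, hM.1, hM.2⟩ hz h3
  have h5 := hnz z hz.1
  rw [hd.fw_own hz.1 hz.2.1 hz.2.2.1 (by have := hz.2.2.2; omega)] at h5
  apply h5
  apply amp_eq_zero
  have hP2 : Px py (c.ps z) (c.ps z') = 2 := by
    unfold Px
    rcases hpy with h | h
    · rw [if_pos ⟨by omega, by omega⟩, if_pos ⟨by omega, by omega⟩]
      rfl
    · rw [if_pos ⟨by omega, by omega⟩, if_pos ⟨by omega, by omega⟩]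
      rfl
  unfold hOwn
  rw [hP2]
  unfold Mx
  rw [if_pos hz.2.2.2]
  rfl

end QChart

/-- if the weight of a configuration is not zero, then no open strand has the weight zero -/
lemma fw_ne_zero (hG : Glu T g) {ι : Type*} [LinearOrder ι] {o : Half τ → ι}
    (ho : ∀ x, Bd T g x → ∀ y, Bd T g y → o x = o y → x = y) {φ : Half τ → ℝ} {ω : Finset τ}
    (h : cw K0 φ T g none o ω ≠ 0) {e : Half τ} (he : Bd T g e) : fw φ g ω e ≠ 0 := by
  have h1 : ‖cw (Real.pi / 24) φ T g none o ω‖ ≠ 0 := norm_ne_zero_iff.2 h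
  rw [norm_cw] at h1
  have h2 := left_ne_zero_of_mul h1
  rw [prod_ne_zero_iff] at h2
  have hne : o e ≠ o (other (mate ω) g e) := fun h4 =>
    hG.other_ne he (ho _ he _ (hG.other_bd he) h4).symm
  rcases lt_or_gt_of_ne hne with h4 | h4
  · exact h2 e (mem_arcs.2 ⟨he, by simp, by simp, h4⟩)
  · have h5 := h2 (other (mate ω) g e) (mem_arcs.2 ⟨hG.other_bd he, by simp, by simp, by
      rw [hG.other_other he]; exact h4⟩)
    rwa [fw_other hG φ ω he] at h5

open Classical in
/-- (OWN, helper28): **the number of the own positions** -/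
theorem own_count (hG : Glu T g) {ι : Type*} [LinearOrder ι] {o : Half τ → ι}
    (ho : ∀ x, Bd T g x → ∀ y, Bd T g y → o x = o y → x = y)
    {κ : Type} [Fintype κ] (At : MAtlas T g κ) {J : Type} [Fintype J] [DecidableEq J]
    (Yf : J → Finset (Half τ))
    (hY : ∀ i, ∀ y ∈ Yf i, Bd T g y ∧ ∀ b, ¬ At.own b → ∀ x, (At.c b).Real x → (At.c b).im x ≠ y)
    {φ : (J → Half τ) → Half τ → ℝ} {μ : Half τ → ℤ} {Y' : Finset (Half τ)}
    (hL : ∀ y ∈ Fintype.piFinset Yf, At.Laws (φ y) μ (univ.image y ∪ Y')) (ω : Finset τ) :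
    ((Fintype.piFinset Yf).filter fun y => cw K0 (φ y) T g none o ω ≠ 0).card ≤
      (2 * At.tot ω + 2 * Fintype.card κ) ^ Fintype.card J := by
  -- the chart of an end
  rcases isEmpty_or_nonempty κ with hκ | hκ
  · -- no chart: no tile
    have h0 : ∀ i, Yf i = ∅ := by
      intro i
      rw [eq_empty_iff_forall_notMem]
      intro y hy
      obtain ⟨b, -⟩ := At.cov y (hY i y hy).1.1
      exact hκ.elim b
    rcases isEmpty_or_nonempty J with hJ | ⟨⟨j⟩⟩
    · refine (card_filter_le _ _).trans ?_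
      rw [Fintype.card_piFinset]
      simp
    · have h1 : Fintype.piFinset Yf = ∅ := by
        rw [eq_empty_iff_forall_notMem]
        intro y hy
        have := Fintype.mem_piFinset.1 hy j
        rw [h0 j] at this
        simp at this
      rw [h1]
      simp
  have hcov : ∀ e : Half τ, ∃ b, e.1 ∈ T → (At.c b).Inn (At.m b) e := by
    intro e
    by_cases he : e.1 ∈ T
    · obtain ⟨b, hb⟩ := At.cov e he
      exact ⟨b, fun _ => hb⟩
    · exact ⟨Classical.arbitrary κ, fun h => absurd h he⟩
  choose bb hbb using hcov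
  set BadE : Finset (Half τ) := (ends T g).filter fun e => ¬ (At.ch (bb e)).Held ω e with hBadE
  set Oute : κ → Finset (Half τ) := fun b =>
    (ends T g).filter fun e => (At.c b).Outm ω (At.p0 b) e with hOute
  set Z : Finset (Half τ) := BadE ∪ univ.biUnion Oute with hZ
  have hcard : Z.card ≤ 2 * At.tot ω + 2 * Fintype.card κ := by
    refine (card_union_le _ _).trans (add_le_add ?_ ?_)
    · refine ends_le' hG At.m At.hm At.ch ω BadE ?_ ?_
      · intro x hx
        exact mem_ends.1 (mem_filter.1 hx).1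
      · intro y hy
        obtain ⟨h1, h2⟩ := mem_filter.1 hy
        refine ⟨bb y, y, Conn.refl y, ?_, h2⟩
        obtain ⟨t, ht, ht', h3⟩ := hbb y (mem_ends.1 h1).1
        refine ⟨t, ?_, ht', h3⟩
        apply QChart.mem_restr ht
        rw [mem_sqr] at ht' ⊢
        omega
    · refine (card_biUnion_le).trans ?_
      refine (sum_le_card_nsmul _ _ 2 fun b _ => ?_).trans ?_
      · exact QChart.card_outm (c := At.c b) (ω := ω) (p0 := At.p0 b) _ fun e he =>
          (mem_filter.1 he).2
      · rw [card_univ, smul_eq_mul]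
        omega
  have hsub : ((Fintype.piFinset Yf).filter fun y => cw K0 (φ y) T g none o ω ≠ 0) ⊆
      Fintype.piFinset fun _ : J => Z := by
    intro y hy
    obtain ⟨hy1, hy2⟩ := mem_filter.1 hy
    rw [Fintype.mem_piFinset]
    intro i
    have hyi := Fintype.mem_piFinset.1 hy1 i
    obtain ⟨he, hown⟩ := hY i (y i) hyi
    by_cases hheld : (At.ch (bb (y i))).Held ω (y i)
    · apply mem_union_right
      rw [mem_biUnion]
      refine ⟨bb (y i), mem_univ _, ?_⟩
      rw [hOute, mem_filter]
      refine ⟨mem_ends.2 he, ?_⟩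
      obtain ⟨x, x', h1, h2, h3, h4, h5, -, -, -⟩ :=
        QChart.Held.pair hG (At.hw (bb (y i))) he hheld (φ y)
      have ho' : At.own (bb (y i)) := by
        by_contra h6
        rcases h5 with h5 | h5
        · exact hown _ h6 x h1 h5.symm
        · exact hown _ h6 x' h2 h5.symm
      obtain ⟨py, hd⟩ := hL y hy1 (bb (y i))
      rw [MAtlas.sg, if_pos ho'] at hd
      have hyY : y i ∈ univ.image y ∪ Y' :=
        mem_union_left _ (mem_image_of_mem _ (mem_univ i))
      refine hd.outm h1 h2 h3 h4 ?_ ?_ h5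
      · rcases h5 with h5 | h5
        · left; rw [← h5]; exact hyY
        · right; rw [← h5]; exact hyY
      · intro u hu
        exact fw_ne_zero hG ho hy2 hu.bdT
    · apply mem_union_left
      rw [hBadE, mem_filter]
      exact ⟨mem_ends.2 he, hheld⟩
  refine (card_le_card hsub).trans ?_
  rw [Fintype.card_piFinset, prod_const, card_univ]
  exact Nat.pow_le_pow_left hcard _

end Full.Norm
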