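import Mathlib

/-!
# Counting sums near finitely many special points

`sum_min_rpow_le`: if at most `C0 r` of the points of `Y` have distance at most `r` from a special point
(`1 ≤ r ≤ n`) and `#Y ≤ C0 n`, then `∑ (min n δ) ^ (-s) ≤ C0 / (1 - s) * n ^ (1 - s)`.

`sum_special_le`: the sum over `y` of `d(y) ^ (-1/3) * ∏ (a ∈ M), (min n |y - a|) ^ (-1/3)` is at most
`C n ^ ((2 - m) / 3)`, `m = #M`.

`sum_special_pi_le`: the same for `p` points on `p` separated families.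
-/

set_option autoImplicit false

namespace Full.Norm

open Finset

variable {ι κ : Type*}

/-- `k ^ (-s) ≤ (k ^ (1 - s) - (k - 1) ^ (1 - s)) / (1 - s)` -/
lemma rpow_neg_le_diff {s : ℝ} (hs0 : 0 ≤ s) (hs1 : s < 1) (k : ℕ) :
    (1 - s) * ((k : ℝ) + 1) ^ (-s) ≤ ((k : ℝ) + 1) ^ (1 - s) - (k : ℝ) ^ (1 - s) := by
  have h1 : 0 < 1 - s := by linarith
  have hk : (0 : ℝ) < (k : ℝ) + 1 := by positivity
  -- Bernoulli: (k / (k+1)) ^ (1 - s) ≤ 1 - (1 - s) / (k + 1)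
  have h2 : (1 + (-(1 / ((k : ℝ) + 1)))) ^ (1 - s) ≤ 1 + (1 - s) * (-(1 / ((k : ℝ) + 1))) := by
    have h0 : 1 / ((k : ℝ) + 1) ≤ 1 := by
      rw [div_le_one hk]
      have : (0 : ℝ) ≤ k := Nat.cast_nonneg k
      linarith
    exact rpow_one_add_le_one_add_mul_self (by linarith) h1.le (by linarith)
  have h3 : (1 + (-(1 / ((k : ℝ) + 1)))) = (k : ℝ) / ((k : ℝ) + 1) := by
    field_simp
    ring
  rw [h3, Real.div_rpow (Nat.cast_nonneg k) hk.le] at h2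
  have h4 : 0 < ((k : ℝ) + 1) ^ (1 - s) := Real.rpow_pos_of_pos hk _
  rw [div_le_iff₀ h4] at h2
  have h5 : ((k : ℝ) + 1) ^ (-s) = ((k : ℝ) + 1) ^ (1 - s) / ((k : ℝ) + 1) := by
    rw [eq_div_iff hk.ne', ← Real.rpow_add_one hk.ne']
    congr 1
    ring
  rw [h5]
  have h6 : (1 + (1 - s) * -(1 / ((k : ℝ) + 1))) * ((k : ℝ) + 1) ^ (1 - s)
      = ((k : ℝ) + 1) ^ (1 - s) - (1 - s) * (((k : ℝ) + 1) ^ (1 - s) / ((k : ℝ) + 1)) := by
    field_simp
    ring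
  rw [h6] at h2
  linarith

/-- `∑ (k = 1 .. n), k ^ (-s) ≤ n ^ (1 - s) / (1 - s)` -/
lemma sum_rpow_neg_le {s : ℝ} (hs0 : 0 ≤ s) (hs1 : s < 1) (n : ℕ) :
    ∑ k ∈ range n, ((k : ℝ) + 1) ^ (-s) ≤ (n : ℝ) ^ (1 - s) / (1 - s) := by
  have h1 : 0 < 1 - s := by linarith
  rw [le_div_iff₀ h1, sum_mul]
  calc ∑ k ∈ range n, ((k : ℝ) + 1) ^ (-s) * (1 - s)
      ≤ ∑ k ∈ range n, (((k + 1 : ℕ) : ℝ) ^ (1 - s) - ((k : ℕ) : ℝ) ^ (1 - s)) := by
        refine sum_le_sum fun k _ => ?_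
        have := rpow_neg_le_diff hs0 hs1 k
        push_cast
        linarith
    _ = (n : ℝ) ^ (1 - s) - ((0 : ℕ) : ℝ) ^ (1 - s) := by
        rw [sum_range_sub (fun k : ℕ => ((k : ℕ) : ℝ) ^ (1 - s))]
    _ = (n : ℝ) ^ (1 - s) := by
        rw [Nat.cast_zero, Real.zero_rpow h1.ne', sub_zero]

/-- summation by parts over the levels of `δ` -/
lemma sum_min_eq (Y : Finset ι) (δ : ι → ℕ) (hδ : ∀ y ∈ Y, 1 ≤ δ y) (φ : ℕ → ℝ) (n : ℕ)
 :
    ∑ y ∈ Y, φ (min n (δ y)) = (Y.card : ℝ) * φ n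
      + ∑ k ∈ Ico 1 n, (φ k - φ (k + 1)) * ((Y.filter fun y => δ y ≤ k).card : ℝ) := by
  have h1 : ∀ y ∈ Y, φ (min n (δ y)) = φ n
      + ∑ k ∈ Ico 1 n, if δ y ≤ k then φ k - φ (k + 1) else 0 := by
    intro y hy
    rw [← sum_filter]
    have h2 : (Ico 1 n).filter (fun k => δ y ≤ k) = Ico (min n (δ y)) n := by
      ext k
      have := hδ y hy
      simp only [mem_filter, mem_Ico]
      omega
    rw [h2]
    have h3 : ∑ k ∈ Ico (min n (δ y)) n, (φ k - φ (k + 1)) = φ (min n (δ y)) - φ n := by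
      have h4 := sum_Ico_sub (fun k => - φ k) (min_le_left n (δ y))
      have h5 : ∀ k, - φ (k + 1) - - φ k = φ k - φ (k + 1) := fun k => by ring
      simp only [h5] at h4
      rw [h4]
      ring
    rw [h3]
    ring
  rw [sum_congr rfl h1, sum_add_distrib, sum_const, nsmul_eq_mul, sum_comm]
  congr 1
  refine sum_congr rfl fun k _ => ?_
  rw [← sum_filter, sum_const, nsmul_eq_mul, mul_comm]

/-- **the one point sum**: `∑ (min n δ) ^ (-s) ≤ C0 / (1 - s) * n ^ (1 - s)` if there are at most `C0 r`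
points with `δ ≤ r`, `1 ≤ r < n`, and at most `C0 n` points in all -/
theorem sum_min_rpow_le {s : ℝ} (hs0 : 0 ≤ s) (hs1 : s < 1) (Y : Finset ι) (δ : ι → ℕ)
    (hδ : ∀ y ∈ Y, 1 ≤ δ y) {n : ℕ} (hn : 1 ≤ n) {C0 : ℝ}
    (hcard : (Y.card : ℝ) ≤ C0 * n)
    (hcount : ∀ r : ℕ, 1 ≤ r → r < n → ((Y.filter fun y => δ y ≤ r).card : ℝ) ≤ C0 * r) :
    ∑ y ∈ Y, ((min n (δ y) : ℕ) : ℝ) ^ (-s) ≤ C0 / (1 - s) * (n : ℝ) ^ (1 - s) := by
  have hn0 : (0 : ℝ) < n := by exact_mod_cast hn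
  have hC0 : 0 ≤ C0 := by
    have h1 : 0 ≤ C0 * n := le_trans (Nat.cast_nonneg _) hcard
    exact nonneg_of_mul_nonneg_left h1 hn0
  set φ : ℕ → ℝ := fun k => (k : ℝ) ^ (-s) with hφ
  have hanti : ∀ k : ℕ, 1 ≤ k → φ (k + 1) ≤ φ k := by
    intro k hk
    simp only [hφ]
    apply Real.rpow_le_rpow_of_nonpos
    · exact_mod_cast hk
    · push_cast
      linarith
    · linarith
  have h1 := sum_min_eq Y δ hδ φ n
  rw [show (∑ y ∈ Y, ((min n (δ y) : ℕ) : ℝ) ^ (-s)) = ∑ y ∈ Y, φ (min n (δ y)) from rfl, h1]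
  have h2 : ∑ k ∈ Ico 1 n, (φ k - φ (k + 1)) * ((Y.filter fun y => δ y ≤ k).card : ℝ)
      ≤ ∑ k ∈ Ico 1 n, C0 * ((k : ℝ) * φ k - (k : ℝ) * φ (k + 1)) := by
    refine sum_le_sum fun k hk => ?_
    rw [mem_Ico] at hk
    have h3 := hcount k hk.1 hk.2
    have h4 : 0 ≤ φ k - φ (k + 1) := by linarith [hanti k hk.1]
    calc (φ k - φ (k + 1)) * ((Y.filter fun y => δ y ≤ k).card : ℝ)
        ≤ (φ k - φ (k + 1)) * (C0 * k) := mul_le_mul_of_nonneg_left h3 h4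
      _ = C0 * ((k : ℝ) * φ k - (k : ℝ) * φ (k + 1)) := by ring
  have h3 : ∑ k ∈ Ico 1 n, ((k : ℝ) * φ k - (k : ℝ) * φ (k + 1))
      = ∑ k ∈ Ico 1 n, φ (k + 1) - (n * φ n - φ 1) := by
    have h4 := sum_Ico_sub (fun k : ℕ => (k : ℝ) * φ k) hn
    simp only [Nat.cast_one, one_mul] at h4
    rw [← h4, ← sum_sub_distrib]
    refine sum_congr rfl fun k _ => ?_
    push_cast
    ring
  have h4 : ∑ k ∈ Ico 1 n, φ (k + 1) + φ 1 = ∑ k ∈ range n, ((k : ℝ) + 1) ^ (-s) := by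
    have h5 : ∑ k ∈ range n, ((k : ℝ) + 1) ^ (-s) = ∑ k ∈ range n, φ (k + 1) := by
      refine sum_congr rfl fun k _ => ?_
      simp only [hφ]
      push_cast
      rfl
    rw [h5, range_eq_Ico, sum_eq_sum_Ico_succ_bot (by omega : 0 < n)]
    ring
  have h5 := sum_rpow_neg_le hs0 hs1 n
  calc (Y.card : ℝ) * φ n
      + ∑ k ∈ Ico 1 n, (φ k - φ (k + 1)) * ((Y.filter fun y => δ y ≤ k).card : ℝ)
      ≤ C0 * n * φ n + ∑ k ∈ Ico 1 n, C0 * ((k : ℝ) * φ k - (k : ℝ) * φ (k + 1)) := by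
        have h6 : 0 ≤ φ n := Real.rpow_nonneg hn0.le _
        exact add_le_add (mul_le_mul_of_nonneg_right hcard h6) h2
    _ = C0 * (∑ k ∈ Ico 1 n, φ (k + 1) + φ 1) := by
        rw [← mul_sum, h3]
        ring
    _ = C0 * ∑ k ∈ range n, ((k : ℝ) + 1) ^ (-s) := by rw [h4]
    _ ≤ C0 * ((n : ℝ) ^ (1 - s) / (1 - s)) := mul_le_mul_of_nonneg_left h5 hC0
    _ = C0 / (1 - s) * (n : ℝ) ^ (1 - s) := by ring

/-- **one point near finitely many special points**.  `Sp` = special points (marks, corners), `M` = the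
marks among them; every summand is bounded by `B` times `(min n |y - c|) ^ (-1/3)` for a special point `c`
which is at least as near as all marks, times `(min n |y - a|) ^ (-1/3)` for every mark `a`. -/
theorem sum_special_le [DecidableEq κ] (Y : Finset ι) (Sp M : Finset κ) (δ : κ → ι → ℕ) {n : ℕ}
    (hn : 1 ≤ n) {C0 η B : ℝ} (hη : 0 < η) (hη1 : η ≤ 1) (hB : 0 ≤ B)
    (hδ : ∀ c ∈ Sp ∪ M, ∀ y ∈ Y, 1 ≤ δ c y) (hcard : (Y.card : ℝ) ≤ C0 * n)
    (hcount : ∀ c ∈ Sp, ∀ r : ℕ, 1 ≤ r → r < n →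
      ((Y.filter fun y => δ c y ≤ r).card : ℝ) ≤ C0 * r)
    (hsep : ∀ a ∈ M, ∀ c ∈ Sp, a ≠ c → ∀ y ∈ Y, η * n ≤ δ a y + δ c y)
    (f : ι → ℝ)
    (hf : ∀ y ∈ Y, ∃ c ∈ Sp, (∀ a ∈ M, δ c y ≤ δ a y) ∧
      f y ≤ B * (((min n (δ c y) : ℕ) : ℝ) ^ (-(1 / 3 : ℝ)) *
        ∏ a ∈ M, ((min n (δ a y) : ℕ) : ℝ) ^ (-(1 / 3 : ℝ)))) :
    ∑ y ∈ Y, f y ≤ B * (Sp.card * (3 * C0 * (2 / η) ^ ((M.card : ℝ) / 3)))
      * (n : ℝ) ^ ((2 - (M.card : ℝ)) / 3) := by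
  classical
  have hn0 : (0 : ℝ) < n := by exact_mod_cast hn
  have hC0 : 0 ≤ C0 := by
    have h1 : 0 ≤ C0 * n := le_trans (Nat.cast_nonneg _) hcard
    exact nonneg_of_mul_nonneg_left h1 hn0
  set q : ℝ := 2 / η with hq
  have hq1 : 1 ≤ q := by
    rw [hq, le_div_iff₀ hη]
    linarith
  have hq0 : 0 < q := by linarith
  -- the bound `E` of the factor of a far mark
  set E : ℝ := ((n : ℝ) / q) ^ (-(1 / 3 : ℝ)) with hE
  have hnq : 0 < (n : ℝ) / q := by positivity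
  have hE0 : 0 ≤ E := Real.rpow_nonneg hnq.le _
  have hEpow : ∀ k : ℕ, E ^ k = q ^ ((k : ℝ) / 3) * (n : ℝ) ^ (-((k : ℝ) / 3)) := by
    intro k
    rw [hE, ← Real.rpow_natCast, ← Real.rpow_mul hnq.le, Real.div_rpow hn0.le hq0.le,
      show (-(1 / 3 : ℝ)) * (k : ℝ) = -((k : ℝ) / 3) by ring, Real.rpow_neg hq0.le, div_inv_eq_mul,
      mul_comm]
  have hfar : ∀ c ∈ Sp, ∀ y ∈ Y, (∀ a ∈ M, δ c y ≤ δ a y) → ∀ a ∈ M, a ≠ c →
      ((min n (δ a y) : ℕ) : ℝ) ^ (-(1 / 3 : ℝ)) ≤ E := by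
    intro c hc y hy hmin a ha hac
    have h1 := hsep a ha c hc hac y hy
    have h2 : (δ c y : ℝ) ≤ δ a y := by exact_mod_cast hmin a ha
    have h3 : (n : ℝ) / q ≤ ((min n (δ a y) : ℕ) : ℝ) := by
      rw [Nat.cast_min]
      apply le_min
      · rw [div_le_iff₀ hq0]
        nlinarith
      · rw [hq, div_div_eq_mul_div, div_le_iff₀ (by norm_num : (0 : ℝ) < 2)]
        nlinarith
    rw [hE]
    exact Real.rpow_le_rpow_of_nonpos hnq h3 (by norm_num)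
  -- the bound for the points which choose `c`
  set D : ℝ := 3 * C0 * q ^ ((M.card : ℝ) / 3) * (n : ℝ) ^ ((2 - (M.card : ℝ)) / 3) with hD
  have key : ∀ c ∈ Sp, ∑ y ∈ Y.filter (fun y => ∀ a ∈ M, δ c y ≤ δ a y),
      (((min n (δ c y) : ℕ) : ℝ) ^ (-(1 / 3 : ℝ)) *
        ∏ a ∈ M, ((min n (δ a y) : ℕ) : ℝ) ^ (-(1 / 3 : ℝ))) ≤ D := by
    intro c hc
    have hpos : ∀ y : ι, 0 ≤ ((min n (δ c y) : ℕ) : ℝ) ^ (-(1 / 3 : ℝ)) := fun y =>
      Real.rpow_nonneg (Nat.cast_nonneg _) _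
    by_cases hcM : c ∈ M
    · have hm : 1 ≤ M.card := card_pos.2 ⟨c, hcM⟩
      have h1 : ∀ y ∈ Y.filter (fun y => ∀ a ∈ M, δ c y ≤ δ a y),
          (((min n (δ c y) : ℕ) : ℝ) ^ (-(1 / 3 : ℝ)) *
            ∏ a ∈ M, ((min n (δ a y) : ℕ) : ℝ) ^ (-(1 / 3 : ℝ)))
          ≤ ((min n (δ c y) : ℕ) : ℝ) ^ (-(2 / 3 : ℝ)) * E ^ (M.card - 1) := by
        intro y hy
        rw [mem_filter] at hy
        have hy1 : 0 < ((min n (δ c y) : ℕ) : ℝ) := by
          have := hδ c (mem_union_left _ hc) y hy.1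
          exact_mod_cast (lt_min (by omega : 0 < n) (by omega : 0 < δ c y))
        rw [← mul_prod_erase M _ hcM, ← mul_assoc, ← Real.rpow_add hy1]
        rw [show (-(1 / 3 : ℝ)) + -(1 / 3 : ℝ) = -(2 / 3 : ℝ) by norm_num]
        apply mul_le_mul_of_nonneg_left _ (Real.rpow_nonneg hy1.le _)
        calc ∏ a ∈ M.erase c, ((min n (δ a y) : ℕ) : ℝ) ^ (-(1 / 3 : ℝ))
            ≤ ∏ _a ∈ M.erase c, E := by
              refine prod_le_prod (fun a _ => Real.rpow_nonneg (Nat.cast_nonneg _) _) ?_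
              intro a ha
              rw [mem_erase] at ha
              exact hfar c hc y hy.1 hy.2 a ha.2 ha.1
          _ = E ^ (M.card - 1) := by rw [prod_const, card_erase_of_mem hcM]
      have h2 := sum_min_rpow_le (s := 2 / 3) (by norm_num) (by norm_num)
        (Y.filter fun y => ∀ a ∈ M, δ c y ≤ δ a y) (δ c)
        (fun y hy => hδ c (mem_union_left _ hc) y (mem_filter.1 hy).1) hn
        (le_trans (by exact_mod_cast card_filter_le _ _) hcard)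
        (fun r hr1 hr2 => le_trans (by
          exact_mod_cast card_le_card (filter_subset_filter _ (filter_subset _ _)))
            (hcount c hc r hr1 hr2))
      calc ∑ y ∈ Y.filter (fun y => ∀ a ∈ M, δ c y ≤ δ a y),
            (((min n (δ c y) : ℕ) : ℝ) ^ (-(1 / 3 : ℝ)) *
              ∏ a ∈ M, ((min n (δ a y) : ℕ) : ℝ) ^ (-(1 / 3 : ℝ)))
          ≤ ∑ y ∈ Y.filter (fun y => ∀ a ∈ M, δ c y ≤ δ a y),
            ((min n (δ c y) : ℕ) : ℝ) ^ (-(2 / 3 : ℝ)) * E ^ (M.card - 1) := sum_le_sum h1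
        _ ≤ (C0 / (1 - 2 / 3) * (n : ℝ) ^ (1 - 2 / 3 : ℝ)) * E ^ (M.card - 1) := by
            rw [← sum_mul]
            exact mul_le_mul_of_nonneg_right h2 (pow_nonneg hE0 _)
        _ = 3 * C0 * q ^ (((M.card - 1 : ℕ) : ℝ) / 3) *
            ((n : ℝ) ^ (1 / 3 : ℝ) * (n : ℝ) ^ (-(((M.card - 1 : ℕ) : ℝ) / 3))) := by
            rw [hEpow]
            norm_num
            ring
        _ = 3 * C0 * q ^ (((M.card - 1 : ℕ) : ℝ) / 3) * (n : ℝ) ^ ((2 - (M.card : ℝ)) / 3) := by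
            rw [← Real.rpow_add hn0]
            congr 2
            push_cast [hm]
            ring
        _ ≤ D := by
            rw [hD]
            have h3 : q ^ (((M.card - 1 : ℕ) : ℝ) / 3) ≤ q ^ ((M.card : ℝ) / 3) := by
              apply Real.rpow_le_rpow_of_exponent_le hq1
              push_cast [hm]
              linarith
            have h4 : 0 ≤ (n : ℝ) ^ ((2 - (M.card : ℝ)) / 3) := Real.rpow_nonneg hn0.le _
            gcongr
    · have h1 : ∀ y ∈ Y.filter (fun y => ∀ a ∈ M, δ c y ≤ δ a y),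
          (((min n (δ c y) : ℕ) : ℝ) ^ (-(1 / 3 : ℝ)) *
            ∏ a ∈ M, ((min n (δ a y) : ℕ) : ℝ) ^ (-(1 / 3 : ℝ)))
          ≤ ((min n (δ c y) : ℕ) : ℝ) ^ (-(1 / 3 : ℝ)) * E ^ M.card := by
        intro y hy
        rw [mem_filter] at hy
        apply mul_le_mul_of_nonneg_left _ (hpos y)
        calc ∏ a ∈ M, ((min n (δ a y) : ℕ) : ℝ) ^ (-(1 / 3 : ℝ))
            ≤ ∏ _a ∈ M, E := by
              refine prod_le_prod (fun a _ => Real.rpow_nonneg (Nat.cast_nonneg _) _) ?_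
              intro a ha
              exact hfar c hc y hy.1 hy.2 a ha (fun h => hcM (h ▸ ha))
          _ = E ^ M.card := by rw [prod_const]
      have h2 := sum_min_rpow_le (s := 1 / 3) (by norm_num) (by norm_num)
        (Y.filter fun y => ∀ a ∈ M, δ c y ≤ δ a y) (δ c)
        (fun y hy => hδ c (mem_union_left _ hc) y (mem_filter.1 hy).1) hn
        (le_trans (by exact_mod_cast card_filter_le _ _) hcard)
        (fun r hr1 hr2 => le_trans (by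
          exact_mod_cast card_le_card (filter_subset_filter _ (filter_subset _ _)))
            (hcount c hc r hr1 hr2))
      calc ∑ y ∈ Y.filter (fun y => ∀ a ∈ M, δ c y ≤ δ a y),
            (((min n (δ c y) : ℕ) : ℝ) ^ (-(1 / 3 : ℝ)) *
              ∏ a ∈ M, ((min n (δ a y) : ℕ) : ℝ) ^ (-(1 / 3 : ℝ)))
          ≤ ∑ y ∈ Y.filter (fun y => ∀ a ∈ M, δ c y ≤ δ a y),
            ((min n (δ c y) : ℕ) : ℝ) ^ (-(1 / 3 : ℝ)) * E ^ M.card := sum_le_sum h1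
        _ ≤ (C0 / (1 - 1 / 3) * (n : ℝ) ^ (1 - 1 / 3 : ℝ)) * E ^ M.card := by
            rw [← sum_mul]
            exact mul_le_mul_of_nonneg_right h2 (pow_nonneg hE0 _)
        _ = (3 / 2) * C0 * q ^ ((M.card : ℝ) / 3) *
            ((n : ℝ) ^ (2 / 3 : ℝ) * (n : ℝ) ^ (-((M.card : ℝ) / 3))) := by
            rw [hEpow]
            norm_num
            ring
        _ = (3 / 2) * C0 * q ^ ((M.card : ℝ) / 3) * (n : ℝ) ^ ((2 - (M.card : ℝ)) / 3) := by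
            rw [← Real.rpow_add hn0]
            congr 2
            ring
        _ ≤ D := by
            rw [hD]
            have h4 : 0 ≤ (n : ℝ) ^ ((2 - (M.card : ℝ)) / 3) := Real.rpow_nonneg hn0.le _
            have h5 : 0 ≤ C0 * q ^ ((M.card : ℝ) / 3) * (n : ℝ) ^ ((2 - (M.card : ℝ)) / 3) := by
              positivity
            nlinarith
  -- sum over the choices
  calc ∑ y ∈ Y, f y
      ≤ ∑ y ∈ Y, ∑ c ∈ Sp, (if (∀ a ∈ M, δ c y ≤ δ a y) then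
          B * (((min n (δ c y) : ℕ) : ℝ) ^ (-(1 / 3 : ℝ)) *
            ∏ a ∈ M, ((min n (δ a y) : ℕ) : ℝ) ^ (-(1 / 3 : ℝ))) else 0) := by
        refine sum_le_sum fun y hy => ?_
        obtain ⟨c, hc, h1, h2⟩ := hf y hy
        refine le_trans h2 ?_
        have h3 := single_le_sum (f := fun c => if (∀ a ∈ M, δ c y ≤ δ a y) then
          B * (((min n (δ c y) : ℕ) : ℝ) ^ (-(1 / 3 : ℝ)) *
            ∏ a ∈ M, ((min n (δ a y) : ℕ) : ℝ) ^ (-(1 / 3 : ℝ))) else 0)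
          (s := Sp) (fun c _ => by
            show (0 : ℝ) ≤ ite _ _ _
            split_ifs
            · exact mul_nonneg hB (mul_nonneg (Real.rpow_nonneg (Nat.cast_nonneg _) _)
                (prod_nonneg fun a _ => Real.rpow_nonneg (Nat.cast_nonneg _) _))
            · exact le_refl _) hc
        simpa only [if_pos h1] using h3
    _ = ∑ c ∈ Sp, B * ∑ y ∈ Y.filter (fun y => ∀ a ∈ M, δ c y ≤ δ a y),
          (((min n (δ c y) : ℕ) : ℝ) ^ (-(1 / 3 : ℝ)) *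
            ∏ a ∈ M, ((min n (δ a y) : ℕ) : ℝ) ^ (-(1 / 3 : ℝ))) := by
        rw [sum_comm]
        refine sum_congr rfl fun c _ => ?_
        rw [mul_sum, sum_filter]
    _ ≤ ∑ _c ∈ Sp, B * D := sum_le_sum fun c hc => mul_le_mul_of_nonneg_left (key c hc) hB
    _ = B * (Sp.card * (3 * C0 * q ^ ((M.card : ℝ) / 3))) * (n : ℝ) ^ ((2 - (M.card : ℝ)) / 3) := by
        rw [sum_const, nsmul_eq_mul, hD]
        ring

/-- **`p` points on `p` separated families** `Y i` with marks `M i`: the sum of the product is at most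
`C n ^ ((2 p - m) / 3)`, `m = ∑ i, #(M i)`. -/
theorem sum_special_pi_le {J : Type*} [Fintype J] [DecidableEq J] (Y : J → Finset ι) (g : J → ι → ℝ)
    (hg : ∀ i, ∀ y ∈ Y i, 0 ≤ g i y) {n : ℕ} (hn : 1 ≤ n) (m : J → ℕ) (K : J → ℝ)
    (hsum : ∀ i, ∑ y ∈ Y i, g i y ≤ K i * (n : ℝ) ^ ((2 - (m i : ℝ)) / 3)) :
    ∑ y ∈ Fintype.piFinset Y, ∏ i, g i (y i)
      ≤ (∏ i, K i) * (n : ℝ) ^ ((2 * (Fintype.card J : ℝ) - ∑ i, (m i : ℝ)) / 3) := by
  have hn0 : (0 : ℝ) < n := by exact_mod_cast hn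
  rw [← prod_univ_sum]
  calc ∏ i, ∑ y ∈ Y i, g i y
      ≤ ∏ i, (K i * (n : ℝ) ^ ((2 - (m i : ℝ)) / 3)) :=
        prod_le_prod (fun i _ => sum_nonneg (hg i)) (fun i _ => hsum i)
    _ = (∏ i, K i) * (n : ℝ) ^ ((2 * (Fintype.card J : ℝ) - ∑ i, (m i : ℝ)) / 3) := by
        rw [prod_mul_distrib, ← Real.rpow_sum_of_pos hn0]
        congr 2
        rw [← sum_div, sum_sub_distrib, sum_const, card_univ, nsmul_eq_mul]
        ring

end Full.Norm
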