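import Pool.Agent.Full.Norm.ChLaw
import Pool.Agent.Full.Norm.QMacro

/-!
# Strands which are held by a chart

If the strand of a wall end is contained in the tiles of a chart at places of the box of radius
`w' < w`, then its two ends are real wall ends of the chart of radius `w`.
-/

set_option autoImplicit false
set_option linter.unusedSectionVars false

namespace Full.Norm
open Finset Function Full.X3

namespace QChart
variable {τ : Type*} [DecidableEq τ] {T : Finset τ} {g : Half τ → Half τ} {w w' : ℕ}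
  {c : QChart T g w} {ω : Finset τ}

lemma restr_W {h : w' ≤ w} {t : ℤ × ℤ} (ht : t ∈ (c.restr h).W) : t ∈ c.W ∧ t ∈ sqr w' := by
  have h1 : t ∈ QW c.v c.Q w' := ht
  rw [mem_QW] at h1
  refine ⟨c.mem_W.2 ⟨?_, h1.2⟩, h1.1⟩
  have h2 := h1.1
  rw [mem_sqr] at h2 ⊢
  omega

lemma mem_restr {h : w' ≤ w} {t : ℤ × ℤ} (ht : t ∈ c.W) (ht' : t ∈ sqr w') :
    t ∈ (c.restr h).W := by
  show t ∈ QW c.v c.Q w'
  exact mem_QW.2 ⟨ht', (c.mem_W.1 ht).2⟩

lemma add_vec_sqr {t : ℤ × ℤ} (ht : t ∈ sqr w') (d : Dir) (h : w' < w) : t + d.vec ∈ sqr w := by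
  obtain ⟨i, j⟩ := t
  rw [mem_sqr] at ht ⊢
  simp only at ht
  cases d <;> simp only [Dir.vec, Prod.mk_add_mk] <;> omega

/-- a planar end at a place of the smaller box is a real wall end -/
lemma real_of_fix (hw : w' < w) {x : Half (ℤ × ℤ)} (hx : x.1 ∈ c.W) (hx' : x.1 ∈ sqr w')
    (hf : c.pg x = x) : c.Real x := by
  refine ⟨hx, add_vec_sqr hx' _ hw, fun h => ?_⟩
  have h1 : x.1 + x.2.vec ∈ c.W := c.mem_W.2 ⟨add_vec_sqr hx' _ hw, h⟩
  obtain ⟨t, d⟩ := x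
  unfold pg at hf
  rw [plane_glue, if_pos ⟨hx, h1⟩] at hf
  exact Dir.opp_ne d (congrArg Prod.snd hf)

/-- an end of the surface which is shown at a place of the smaller box is a real wall end -/
lemma real_of_bd (hw : w' < w) {x : Half (ℤ × ℤ)} (hx : x.1 ∈ c.W) (hx' : x.1 ∈ sqr w')
    (hf : g (c.im x) = c.im x) : c.Real x := by
  refine ⟨hx, add_vec_sqr hx' _ hw, fun h => ?_⟩
  have h1 : x.1 + x.2.vec ∈ c.W := c.mem_W.2 ⟨add_vec_sqr hx' _ hw, h⟩
  have h2 : g (c.φ x.1, x.2) = (c.φ (x.1 + x.2.vec), x.2.opp) := c.glue _ hx _ h1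
  have h3 : g (c.φ x.1, x.2) = (c.φ x.1, x.2) := hf
  rw [h2] at h3
  exact Dir.opp_ne _ (congrArg Prod.snd h3)

/-- the planar strand of a held half edge stays in the smaller box -/
lemma Held.stay {hw : w' ≤ w} {x : Half (ℤ × ℤ)} (hx : x.1 ∈ c.W)
    (h : (c.restr hw).Held ω (c.im x)) {z : Half (ℤ × ℤ)}
    (hz : Conn (mate (c.pl ω)) c.pg x z) : z.1 ∈ sqr w' := by
  have h1 : z.1 ∈ c.W := c.glu_pg.conn_mem hz hx
  have h2 : Conn (mate ω) g (c.im x) (c.im z) := c.win.conn_im hx hz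
  obtain ⟨t, ht, h3⟩ := h _ h2
  have h4 := restr_W ht
  have h5 : c.φ z.1 = c.φ t := h3
  rw [c.inj _ h1 _ h4.1 h5]
  exact h4.2

/-- **a held strand has two real ends** -/
theorem Held.real (hw : w' < w) {e : Half τ} (he : Bd T g e) (h : (c.restr hw.le).Held ω e) :
    ∃ x, c.Real x ∧ c.Real (other (mate (c.pl ω)) c.pg x) ∧ c.im x = e ∧
      other (mate ω) g e = c.im (other (mate (c.pl ω)) c.pg x) ∧
      ∀ z, Conn (mate (c.pl ω)) c.pg x z → z.1 ∈ sqr w' := by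
  obtain ⟨t, ht, h3⟩ := h _ (Conn.refl _)
  have h4 := restr_W ht
  have h5 : c.im (t, e.2) = e := Prod.ext h3.symm rfl
  have h6 : c.Real (t, e.2) := real_of_bd hw h4.1 h4.2 (by rw [h5]; exact he.2)
  have h7 : ∀ z, Conn (mate (c.pl ω)) c.pg (t, e.2) z → z.1 ∈ sqr w' := fun z hz =>
    Held.stay (hw := hw.le) h4.1 (by rw [h5]; exact h) hz
  have h8 : Conn (mate (c.pl ω)) c.pg (t, e.2) (other (mate (c.pl ω)) c.pg (t, e.2)) :=
    Two.conn_other _
  have h9 := c.glu_pg.other_bd (ω := c.pl ω) h6.bd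
  have h10 : c.Real (other (mate (c.pl ω)) c.pg (t, e.2)) := real_of_fix hw h9.1 (h7 _ h8) h9.2
  exact ⟨_, h6, h10, h5, by rw [← h5]; exact other_im h6 h10, h7⟩

/-- a held loop is a loop of the region of the chart -/
theorem Held.loop (hw : w' < w) {e : Half τ} (he : ∀ y, Conn (mate ω) g e y → g y ≠ y)
    (h : (c.restr hw.le).Held ω e) :
    ∃ x, x.1 ∈ c.W ∧ c.im x = e ∧ ∀ z, Conn (mate (c.pl ω)) c.pg x z → c.pg z ≠ z := by
  obtain ⟨t, ht, h3⟩ := h _ (Conn.refl _)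
  have h4 := restr_W ht
  have h5 : c.im (t, e.2) = e := Prod.ext h3.symm rfl
  refine ⟨(t, e.2), h4.1, h5, fun z hz h6 => ?_⟩
  have h7 : z.1 ∈ c.W := c.glu_pg.conn_mem hz h4.1
  have h8 : c.Real z := real_of_fix hw h7
    (Held.stay (hw := hw.le) h4.1 (by rw [h5]; exact h) hz) h6
  refine he (c.im z) ?_ h8.bdT.2
  rw [← h5]
  exact c.win.conn_im h4.1 hz

/-- the weight of a held loop is `1` -/
theorem Held.loop_one (hw : w' < w) {φ : Half τ → ℝ} {θ : ℤ × ℤ → ℝ} (hθ : c.Gauge φ θ)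
    (hg : Turn.Good c.W c.pg) {e : Half τ} (he : ∀ y, Conn (mate ω) g e y → g y ≠ y)
    (h : (c.restr hw.le).Held ω e) :
    2 * Real.cos (holn (Real.pi / 24) φ g ω (minimalPeriod (g ∘ mate ω) e) e) = 1 := by
  obtain ⟨x, h1, h2, h3⟩ := Held.loop hw he h
  rw [← h2]
  exact hθ.loop hg h1 h3

end QChart

end Full.Norm
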