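import Pool.Agent.Full.Norm.FamLaw
import Pool.Agent.Full.Norm.Held
import Pool.Agent.Full.Norm.QShape

/-!
# Counting the wall ends of a cap

`Cap.walls`: the wall ends of a cap (without the cut).  `Cap.Tame.card_walls_le`: their number is at most
`8 m (A / m + 2) ^ 2`, `m < w`; `Tame.card_near_le`: at most `16 (A / m + 2) ^ 2 r` of them are within
distance `r` of a given tile, `m = w / 2`.  `Cap.corners`: the wall ends before a corner; at most one in
every cell of side `m`, `2 m + 2 < w`.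
`Cap.dd`: one plus the distance of the tiles.
-/

set_option autoImplicit false

namespace Full.Norm
open Finset Function

/-- the walls of a region of quadrant type inside a box -/
lemma card_real_le {v : ℤ × ℤ} {Q : Bool → Bool → Bool} {r : ℕ} {S : Finset (Half (ℤ × ℤ))}
    (h : ∀ x ∈ S, x.1 ∈ sqr r ∧ QSet v Q x.1 ∧ ¬ QSet v Q (x.1 + x.2.vec)) : S.card ≤ 8 * r := by
  classical
  have h1 : S ⊆ ((univ : Finset Dir) ×ˢ Ico (-(r : ℤ)) r).image fun p =>
      match p.1 with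
      | .E => ((v.1 - 1, p.2), Dir.E)
      | .W => ((v.1, p.2), Dir.W)
      | .N => ((p.2, v.2 - 1), Dir.N)
      | .S => ((p.2, v.2), Dir.S) := by
    intro x hx
    obtain ⟨h1, h2, h3⟩ := h x hx
    obtain ⟨⟨i, j⟩, d⟩ := x
    obtain ⟨v1, v2⟩ := v
    rw [mem_sqr] at h1
    rw [mem_image]
    unfold QSet at h2 h3
    cases d <;> simp only [Dir.vec, Prod.mk_add_mk, add_zero] at h1 h2 h3
    · refine ⟨(.E, j), mem_product.2 ⟨mem_univ _, mem_Ico.2 h1.2⟩, ?_⟩
      refine Prod.ext (Prod.ext ?_ rfl) rfl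
      by_contra hne
      simp only at hne
      have e : decide (v1 ≤ i + 1) = decide (v1 ≤ i) := by rw [decide_eq_decide]; omega
      rw [e] at h3
      exact h3 h2
    · refine ⟨(.N, i), mem_product.2 ⟨mem_univ _, mem_Ico.2 h1.1⟩, ?_⟩
      refine Prod.ext (Prod.ext rfl ?_) rfl
      by_contra hne
      simp only at hne
      have e : decide (v2 ≤ j + 1) = decide (v2 ≤ j) := by rw [decide_eq_decide]; omega
      rw [e] at h3
      exact h3 h2
    · refine ⟨(.W, j), mem_product.2 ⟨mem_univ _, mem_Ico.2 h1.2⟩, ?_⟩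
      refine Prod.ext (Prod.ext ?_ rfl) rfl
      by_contra hne
      simp only at hne
      have e : decide (v1 ≤ i + -1) = decide (v1 ≤ i) := by rw [decide_eq_decide]; omega
      rw [e] at h3
      exact h3 h2
    · refine ⟨(.S, i), mem_product.2 ⟨mem_univ _, mem_Ico.2 h1.1⟩, ?_⟩
      refine Prod.ext (Prod.ext rfl ?_) rfl
      by_contra hne
      simp only at hne
      have e : decide (v2 ≤ j + -1) = decide (v2 ≤ j) := by rw [decide_eq_decide]; omega
      rw [e] at h3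
      exact h3 h2
  refine (card_le_card h1).trans (card_image_le.trans ?_)
  rw [card_product, Int.card_Ico, Finset.card_univ]
  have : Fintype.card Dir = 4 := rfl
  rw [this]
  omega

namespace Cap
variable (D : Cap)

/-- a wall end, not in the cut -/
def Wall (x : Half (ℤ × ℤ)) : Prop := Bd D.R D.g x ∧ x ∉ D.C

open Classical in
/-- the wall ends -/
noncomputable def walls : Finset (Half (ℤ × ℤ)) := (D.R ×ˢ univ).filter D.Wall

variable {D}

lemma mem_walls {x : Half (ℤ × ℤ)} : x ∈ D.walls ↔ D.Wall x := by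
  classical
  unfold walls
  rw [mem_filter]
  exact ⟨fun h => h.2, fun h => ⟨mem_product.2 ⟨h.1.1, mem_univ _⟩, h⟩⟩

/-- a wall end is a wall of the double -/
lemma Wall.g2 {x : Half (ℤ × ℤ)} (h : D.Wall x) : D.g2 (dl x) = dl x := by
  have h1 : D.g2 (dl x) = dl (D.g x) := dg_dl_of h.2
  rw [h1, h.1.2]

variable {w A : ℕ}

/-- **a wall end near a tile of the region is a real wall end of the chart around the tile** -/
theorem Wall.real (hD : D.Tame w A) (hw : 1 ≤ w) {p : ℤ × ℤ} (hp : p ∈ D.R) {x : Half (ℤ × ℤ)}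
    (hx : D.Wall x) {r : ℕ} (h : x.1 - p ∈ sqr r) (hr : r < w) :
    (chartAt hD hw hp).Real (x.1 - p, x.2) ∧ (chartAt hD hw hp).im (x.1 - p, x.2) = dl x := by
  have h1 : x.1 - p ∈ sqr w := by
    rw [mem_sqr] at h ⊢
    omega
  obtain ⟨h2, h3⟩ := chartAt_spec hD hw hp hx.1.1 h1
  have h4 : (chartAt hD hw hp).im (x.1 - p, x.2) = dl x := Prod.ext h3 rfl
  refine ⟨⟨h2, QChart.add_vec_sqr h _ hr, fun h5 => ?_⟩, h4⟩
  have h6 : (x.1 - p) + x.2.vec ∈ (chartAt hD hw hp).W :=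
    (chartAt hD hw hp).mem_W.2 ⟨QChart.add_vec_sqr h _ hr, h5⟩
  have h7 := (chartAt hD hw hp).glue _ h2 _ h6
  have h8 : D.g2 ((chartAt hD hw hp).φ (x.1 - p), x.2) = dl x := by
    have : ((chartAt hD hw hp).φ (x.1 - p), x.2) = dl x := h4
    rw [this, hx.g2]
  rw [h8] at h7
  exact Dir.opp_ne x.2 (congrArg Prod.snd h7).symm

/-- the wall ends near a tile of the region -/
theorem Tame.card_near (hD : D.Tame w A) {p : ℤ × ℤ} (hp : p ∈ D.R) {r : ℕ} (hr : r < w)
    {S : Finset (Half (ℤ × ℤ))} (hS : ∀ x ∈ S, D.Wall x ∧ x.1 - p ∈ sqr r) : S.card ≤ 8 * r := by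
  classical
  have h1 : (S.image fun x => ((x.1 - p, x.2) : Half (ℤ × ℤ))).card = S.card := by
    refine card_image_of_injective _ fun x y h => ?_
    obtain ⟨x1, x2⟩ := x
    obtain ⟨y1, y2⟩ := y
    simp only [Prod.mk.injEq, sub_left_inj] at h
    rw [h.1, h.2]
  rw [← h1]
  refine card_real_le (v := (chartAt hD (by omega) hp).v) (Q := (chartAt hD (by omega) hp).Q) fun x hx => ?_
  obtain ⟨u, hu, rfl⟩ := mem_image.1 hx
  obtain ⟨h2, h3⟩ := hS u hu
  obtain ⟨h4, -⟩ := h2.real hD (by omega) hp h3 hr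
  exact ⟨h3, ((chartAt hD (by omega) hp).mem_W.1 h4.1).2, h4.2.2⟩

/-- the wall ends near any place -/
theorem Tame.card_near' (hD : D.Tame w A) {p : ℤ × ℤ} {r : ℕ} (hr : 2 * r < w)
    {S : Finset (Half (ℤ × ℤ))} (hS : ∀ x ∈ S, D.Wall x ∧ x.1 - p ∈ sqr r) : S.card ≤ 16 * r := by
  rcases S.eq_empty_or_nonempty with h | ⟨x, hx⟩
  · rw [h]
    simp
  · have h1 := hD.card_near (hS x hx).1.1.1 hr (S := S) fun u hu => ⟨(hS u hu).1, by
      have h1 := (hS x hx).2
      have h2 := (hS u hu).2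
      rw [mem_sqr] at h1 h2 ⊢
      simp only [Prod.fst_sub, Prod.snd_sub] at h1 h2 ⊢
      push_cast
      omega⟩
    omega

/-- **the number of the wall ends** -/
theorem Tame.card_walls_le (hD : D.Tame w A) {m : ℕ} (hm : 1 ≤ m) (hmw : m < w)
    {S : Finset (Half (ℤ × ℤ))} (hS : ∀ x ∈ S, D.Wall x) : S.card ≤ (A / m + 2) ^ 2 * (8 * m) := by
  classical
  have h1 : ∀ c : {x // x ∈ D.cells m},
      (S.filter fun x => ∃ h : x.1 ∈ D.R, D.cellOf m h = c).card ≤ 8 * m := by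
    intro c
    refine hD.card_near (pick_mem c) hmw fun x hx => ?_
    rw [mem_filter] at hx
    obtain ⟨h1, h2, h3⟩ := hx
    refine ⟨hS x h1, ?_⟩
    have h4 := sub_pick hm h2
    rwa [h3] at h4
  have h2 : S ⊆ (univ : Finset {x // x ∈ D.cells m}).biUnion fun c =>
      S.filter fun x => ∃ h : x.1 ∈ D.R, D.cellOf m h = c := by
    intro x hx
    rw [mem_biUnion]
    exact ⟨D.cellOf m (hS x hx).1.1, mem_univ _, mem_filter.2 ⟨hx, (hS x hx).1.1, rfl⟩⟩
  refine (card_le_card h2).trans ((card_biUnion_le_card_mul _ _ _ fun c _ => h1 c).trans ?_)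
  refine Nat.mul_le_mul_right _ ?_
  rw [Finset.card_univ, Fintype.card_coe]
  exact card_cells_le hD hm

/-- **the wall ends within distance `r` of a place**, any `r` -/
theorem Tame.card_near_le (hD : D.Tame w A) (hw : 2 ≤ w) {p : ℤ × ℤ} {r : ℕ}
    {S : Finset (Half (ℤ × ℤ))} (hS : ∀ x ∈ S, D.Wall x ∧ x.1 - p ∈ sqr r) :
    S.card ≤ 16 * (A / (w / 2) + 2) ^ 2 * r := by
  have h0 : 1 ≤ (A / (w / 2) + 2) ^ 2 := Nat.one_le_pow _ _ (by positivity)
  by_cases hr : 2 * r < w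
  · refine (hD.card_near' hr hS).trans ?_
    calc 16 * r = 16 * 1 * r := by ring
      _ ≤ 16 * (A / (w / 2) + 2) ^ 2 * r := by
          exact Nat.mul_le_mul_right _ (Nat.mul_le_mul_left _ h0)
  · have h1 := hD.card_walls_le (m := w / 2) (by omega) (by omega) fun x hx => (hS x hx).1
    refine h1.trans ?_
    calc (A / (w / 2) + 2) ^ 2 * (8 * (w / 2)) ≤ (A / (w / 2) + 2) ^ 2 * (16 * r) := by
          refine Nat.mul_le_mul_left _ ?_
          omega
      _ = _ := by ring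

/-! ### distances -/

/-- one plus the distance of the tiles -/
def dd (x y : Half (ℤ × ℤ)) : ℕ := max (x.1.1 - y.1.1).natAbs (x.1.2 - y.1.2).natAbs + 1

lemma one_le_dd (x y : Half (ℤ × ℤ)) : 1 ≤ dd x y := by unfold dd; omega

lemma dd_comm (x y : Half (ℤ × ℤ)) : dd x y = dd y x := by unfold dd; omega

lemma dd_self (x : Half (ℤ × ℤ)) : dd x x = 1 := by unfold dd; omega

lemma dd_triangle (x y z : Half (ℤ × ℤ)) : dd x z + 1 ≤ dd x y + dd y z := by unfold dd; omega

lemma dd_le_iff {x y : Half (ℤ × ℤ)} {r : ℕ} : dd x y ≤ r ↔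
    1 ≤ r ∧ (-(r : ℤ) < x.1.1 - y.1.1 ∧ x.1.1 - y.1.1 < r) ∧ -(r : ℤ) < x.1.2 - y.1.2 ∧ x.1.2 - y.1.2 < r := by
  unfold dd; omega

lemma sub_mem_sqr {x y : Half (ℤ × ℤ)} {r : ℕ} (h : dd x y ≤ r) : x.1 - y.1 ∈ sqr r := by
  rw [dd_le_iff] at h
  rw [mem_sqr]
  simp only [Prod.fst_sub, Prod.snd_sub]
  omega

/-- **the wall ends within distance `r` of a half edge** -/
theorem Tame.card_dd_le (hD : D.Tame w A) (hw : 2 ≤ w) (c : Half (ℤ × ℤ)) {r : ℕ}
    {S : Finset (Half (ℤ × ℤ))} (hS : ∀ x ∈ S, D.Wall x ∧ dd c x ≤ r) :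
    S.card ≤ 16 * (A / (w / 2) + 2) ^ 2 * r :=
  hD.card_near_le hw (p := c.1) fun x hx => ⟨(hS x hx).1, sub_mem_sqr (by
    rw [dd_comm]
    exact (hS x hx).2)⟩

/-! ### corners -/

variable (D) in
/-- a wall end before a corner -/
def Corner (x : Half (ℤ × ℤ)) : Prop := D.Wall x ∧ Turn.bt D.g x ≠ 0

open Classical in
variable (D) in
/-- the corners -/
noncomputable def corners : Finset (Half (ℤ × ℤ)) := D.walls.filter D.Corner

lemma mem_corners {x : Half (ℤ × ℤ)} : x ∈ D.corners ↔ D.Corner x := by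
  classical
  unfold corners
  rw [mem_filter, mem_walls]
  exact ⟨fun h => h.2, fun h => ⟨h.1, h⟩⟩

end Cap

end Full.Norm
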