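import Pool.Agent.Full.Norm.Parts
import Pool.Agent.Full.Norm.Count
import Pool.Agent.Full.Norm.WallCount

/-!
# The sum over the positions

`sumPart : SumPart`: the sum over the positions of the screening pairs of the product of the factors of the
marks and of the positions is at most `C n ^ ((2 p - #M) / 3)`.
-/

set_option autoImplicit false

namespace Full.Norm
open Finset Function

namespace Cap.Env
variable {D : Cap} {p : ℕ} {E : D.Env p} {K n w A m R : ℕ}

lemma dl_pos (E : D.Env p) (c : Fin E.S) (y : Half (ℤ × ℤ)) : 1 ≤ E.dl c y := rad_pos _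

lemma dl_add (h : E.Ok K n w A m R) {c c' : Fin E.S} (hc : c ≠ c') (y : Half (ℤ × ℤ)) :
    2 * R + 3 ≤ E.dl c y + E.dl c' y := by
  have h1 := h.far c' c hc.symm
  rw [mem_sqr_rad] at h1
  have h2 := rad_sub_le (y.1 - E.V c) (y.1 - E.V c')
  rw [sub_sub_sub_cancel_left] at h2
  unfold dl
  omega

/-- the distance to a special point, or the scale of the lattice -/
def δo (E : D.Env p) (n : ℕ) : Option (Fin E.S) → Half (ℤ × ℤ) → ℕ
  | none, _ => n
  | some c, y => E.dl c y

lemma Ok.one_le_n (h : E.Ok K n w A m R) : 1 ≤ n := by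
  have h1 := h.hm
  have h2 := h.hmR
  have h3 := h.hRn
  omega

lemma Ok.n_le (h : E.Ok K n w A m R) : n ≤ K * (2 * R) := by
  have h1 := h.hn
  have h2 := h.hmR
  exact h1.trans (Nat.mul_le_mul_left _ (by omega))

/-- the quotient of the size and the scale -/
lemma Ok.A_div (h : E.Ok K n w A m R) : A / (w / 2) ≤ K := by
  have h1 := h.hm
  have h2 := h.hmR
  have h3 := h.hRw
  refine Nat.div_le_of_le_mul ?_
  have h4 : m ≤ w / 2 := by omega
  calc A ≤ K * m := h.hA
    _ ≤ K * (w / 2) := Nat.mul_le_mul_left _ h4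
    _ = w / 2 * K := mul_comm _ _

/-- the positions near a special point -/
lemma Ok.count (h : E.Ok K n w A m R) (i : Fin p) (c : Fin E.S) (r : ℕ) :
    ((E.Y i).filter fun y => E.dl c y ≤ r).card ≤ 16 * (K + 2) ^ 2 * r := by
  have h1 := h.hm
  have h2 := h.hmR
  have h3 := h.hRw
  have h4 := h.tame.card_near_le (by omega) (p := E.V c) (r := r)
    (S := (E.Y i).filter fun y => E.dl c y ≤ r) fun x hx => by
      rw [mem_filter] at hx
      exact ⟨h.bd i x hx.1, mem_sqr_rad.2 hx.2⟩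
  refine h4.trans (Nat.mul_le_mul_right _ (Nat.mul_le_mul_left _ (Nat.pow_le_pow_left ?_ 2)))
  have := h.A_div
  omega

/-- near a position there are only the marks of its list -/
lemma Ok.mem_N (h : E.Ok K n w A m R) {i : Fin p} {y : Half (ℤ × ℤ)} (hy : y ∈ E.Y i) {c : Fin E.S}
    (hc : c ∈ E.M) (hn : Nr E R c y) : c ∈ E.N i := by
  refine h.near i y hy c hc ?_
  unfold Nr at hn
  show y.1 - E.V c ∈ sqr R
  rw [mem_sqr_rad]
  unfold dl at hn
  omega

lemma rpow_third_le {a b : ℕ} (ha : 1 ≤ a) (hab : a ≤ b) :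
    (b : ℝ) ^ (-(1 / 3 : ℝ)) ≤ (a : ℝ) ^ (-(1 / 3 : ℝ)) := by
  apply Real.rpow_le_rpow_of_nonpos
  · exact_mod_cast ha
  · exact_mod_cast hab
  · norm_num

/-- the factor of a mark near the positions `Y i` -/
lemma Ok.um_le (h : E.Ok K n w A m R) {a : Fin p → Half (ℤ × ℤ)} (ha : ∀ i, a i ∈ E.Y i) {i : Fin p}
    {c : Fin E.S} (hc : c ∈ E.N i) :
    E.um n R c a ≤ ((min n (E.dl c (a i)) : ℕ) : ℝ) ^ (-(1 / 3 : ℝ)) := by
  classical
  have hn := h.one_le_n
  have hd := dl_pos E c (a i)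
  unfold um
  split_ifs with h1
  · have h2 := h1.choose_spec
    have h3 := h.mem_N (ha _) (h.hN i hc) h2
    have h4 : h1.choose = i := by
      by_contra hne
      exact disjoint_left.1 (h.hN' _ _ hne) h3 hc
    rw [h4]
    exact rpow_third_le (by omega) (min_le_right _ _)
  · exact rpow_third_le (by omega) (min_le_left _ _)

/-- the factor of a mark away from all positions -/
lemma Ok.um_far (h : E.Ok K n w A m R) {a : Fin p → Half (ℤ × ℤ)} (ha : ∀ i, a i ∈ E.Y i)
    {c : Fin E.S} (hc : c ∈ E.M) (hN : ∀ i, c ∉ E.N i) :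
    E.um n R c a = (n : ℝ) ^ (-(1 / 3 : ℝ)) := by
  unfold um
  rw [dif_neg]
  rintro ⟨i, hi⟩
  exact hN i (h.mem_N (ha i) hc hi)

/-- the factor of a position -/
lemma Ok.us_le (h : E.Ok K n w A m R) {y : Half (ℤ × ℤ)} {c : Option (Fin E.S)}
    (hc : ∀ c', δo E n c y ≤ δo E n c' y) :
    E.us n R y ≤ ((min n (δo E n c y) : ℕ) : ℝ) ^ (-(1 / 3 : ℝ)) := by
  classical
  have hn := h.one_le_n
  have hd : 1 ≤ δo E n c y := by
    cases c with
    | none => exact hn
    | some c => exact dl_pos E c y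
  unfold us
  split_ifs with h1
  · have h2 := hc (some h1.choose)
    exact rpow_third_le (by omega) ((min_le_right _ _).trans h2)
  · exact rpow_third_le (by omega) (min_le_left _ _)

lemma us_nonneg (y : Half (ℤ × ℤ)) : 0 ≤ E.us n R y := by
  unfold us
  split_ifs <;> exact Real.rpow_nonneg (Nat.cast_nonneg _) _

lemma um_nonneg (c : Fin E.S) (a : Fin p → Half (ℤ × ℤ)) : 0 ≤ E.um n R c a := by
  unfold um
  split_ifs <;> exact Real.rpow_nonneg (Nat.cast_nonneg _) _

/-- the factor of the position `y` and of the marks near `Y i` -/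
noncomputable def fi (E : D.Env p) (n R : ℕ) (i : Fin p) (y : Half (ℤ × ℤ)) : ℝ :=
  E.us n R y * ∏ c ∈ E.N i, ((min n (E.dl c y) : ℕ) : ℝ) ^ (-(1 / 3 : ℝ))

lemma fi_nonneg (i : Fin p) (y : Half (ℤ × ℤ)) : 0 ≤ fi E n R i y :=
  mul_nonneg (us_nonneg y) (prod_nonneg fun _ _ => Real.rpow_nonneg (Nat.cast_nonneg _) _)

/-- the constant of one position -/
noncomputable def CK (K : ℕ) : ℝ :=
  ((K : ℝ) + 1) * (3 * ((K : ℝ) + 16 * ((K : ℝ) + 2) ^ 2) * (2 * ((K : ℝ) + 1)) ^ (K : ℝ))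

lemma one_le_CK (K : ℕ) : 1 ≤ CK K := by
  have h0 : (0 : ℝ) ≤ K := Nat.cast_nonneg K
  have h1 : (1 : ℝ) ≤ (2 * ((K : ℝ) + 1)) ^ (K : ℝ) := Real.one_le_rpow (by linarith) h0
  have h2 : (1 : ℝ) ≤ 3 * ((K : ℝ) + 16 * ((K : ℝ) + 2) ^ 2) := by nlinarith
  unfold CK
  exact one_le_mul_of_one_le_of_one_le (by linarith) (one_le_mul_of_one_le_of_one_le h2 h1)

/-- **the sum over one position** -/
lemma Ok.sum_fi_le (h : E.Ok K n w A m R) (i : Fin p) :
    ∑ y ∈ E.Y i, fi E n R i y ≤ CK K * (n : ℝ) ^ ((2 - ((E.N i).card : ℝ)) / 3) := by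
  classical
  have hn := h.one_le_n
  have hK0 : (0 : ℝ) ≤ K := Nat.cast_nonneg K
  have hn0 : (0 : ℝ) < n := by exact_mod_cast hn
  have hη : (0 : ℝ) < 1 / ((K : ℝ) + 1) := by positivity
  have hη1 : 1 / ((K : ℝ) + 1) ≤ 1 := by
    rw [div_le_one (by positivity)]
    linarith
  have hsep0 : 1 / ((K : ℝ) + 1) * (n : ℝ) ≤ 2 * (R : ℝ) := by
    rw [one_div, inv_mul_le_iff₀ (by positivity)]
    have h1 : (n : ℝ) ≤ (K : ℝ) * (2 * (R : ℝ)) := by exact_mod_cast h.n_le
    have h2 : (0 : ℝ) ≤ R := Nat.cast_nonneg R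
    nlinarith
  have h1 := sum_special_le (E.Y i) (univ : Finset (Option (Fin E.S))) ((E.N i).map Embedding.some)
    (δo E n) hn (C0 := (K : ℝ) + 16 * ((K : ℝ) + 2) ^ 2) hη hη1 zero_le_one
    (fun c _ y _ => by
      cases c with
      | none => exact hn
      | some c => exact dl_pos E c y)
    (by
      have h2 : (((E.Y i).card : ℕ) : ℝ) ≤ (K : ℝ) * n := by exact_mod_cast h.card i
      have h3 : (0 : ℝ) ≤ 16 * ((K : ℝ) + 2) ^ 2 * n := by positivity
      rw [add_mul]
      linarith)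
    (fun c _ r hr1 hr2 => by
      cases c with
      | none =>
        have h2 : ((E.Y i).filter fun y => δo E n none y ≤ r) = ∅ := by
          rw [filter_eq_empty_iff]
          intro y _ h3
          have h4 : n ≤ r := h3
          omega
        rw [h2, card_empty, Nat.cast_zero]
        positivity
      | some c =>
        have h2 : ((((E.Y i).filter fun y => E.dl c y ≤ r).card : ℕ) : ℝ) ≤
            16 * ((K : ℝ) + 2) ^ 2 * r := by exact_mod_cast h.count i c r
        have h3 : (0 : ℝ) ≤ (K : ℝ) * r := by positivity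
        refine (show _ ≤ _ from h2).trans ?_
        rw [add_mul]
        linarith)
    (fun a ha c _ hac y _ => by
      rw [mem_map] at ha
      obtain ⟨a', ha', rfl⟩ := ha
      cases c with
      | none =>
        have h2 : (1 / ((K : ℝ) + 1)) * n ≤ n := by
          calc (1 / ((K : ℝ) + 1)) * n ≤ 1 * n := mul_le_mul_of_nonneg_right hη1 hn0.le
            _ = n := one_mul _
        have h3 : (0 : ℝ) ≤ (δo E n (Embedding.some a') y : ℝ) := Nat.cast_nonneg _
        show (1 / ((K : ℝ) + 1)) * n ≤ (δo E n (Embedding.some a') y : ℝ) + ((n : ℕ) : ℝ)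
        linarith
      | some c =>
        have h2 : a' ≠ c := fun h3 => hac (by rw [h3]; rfl)
        have h3 := dl_add h h2 y
        have h4 : 2 * (R : ℝ) ≤ (E.dl a' y : ℝ) + (E.dl c y : ℝ) := by
          exact_mod_cast (by omega : 2 * R ≤ E.dl a' y + E.dl c y)
        exact hsep0.trans h4)
    (fi E n R i)
    (fun y _ => by
      obtain ⟨c, -, hc⟩ := exists_min_image (univ : Finset (Option (Fin E.S))) (fun c => δo E n c y)
        ⟨none, mem_univ _⟩
      refine ⟨c, mem_univ _, fun a _ => hc a (mem_univ _), ?_⟩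
      rw [one_mul, prod_map]
      exact mul_le_mul_of_nonneg_right (h.us_le fun c' => hc c' (mem_univ _))
        (prod_nonneg fun _ _ => Real.rpow_nonneg (Nat.cast_nonneg _) _))
  rw [card_map] at h1
  refine h1.trans ?_
  refine mul_le_mul_of_nonneg_right ?_ (Real.rpow_nonneg hn0.le _)
  rw [one_mul]
  unfold CK
  have h2 : (((univ : Finset (Option (Fin E.S))).card : ℕ) : ℝ) ≤ (K : ℝ) + 1 := by
    rw [Finset.card_univ, Fintype.card_option, Fintype.card_fin]
    have := h.hS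
    exact_mod_cast Nat.succ_le_succ this
  have h3 : (2 / (1 / ((K : ℝ) + 1))) ^ (((E.N i).card : ℝ) / 3) ≤ (2 * ((K : ℝ) + 1)) ^ (K : ℝ) := by
    have h4 : 2 / (1 / ((K : ℝ) + 1)) = 2 * ((K : ℝ) + 1) := by
      rw [div_div_eq_mul_div, div_one]
    rw [h4]
    refine Real.rpow_le_rpow_of_exponent_le (by linarith) ?_
    have h5 : (E.N i).card ≤ K := by
      have := card_le_univ (E.N i)
      rw [Fintype.card_fin] at this
      exact this.trans h.hS
    have h6 : (((E.N i).card : ℕ) : ℝ) ≤ K := by exact_mod_cast h5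
    have h7 : (0 : ℝ) ≤ (((E.N i).card : ℕ) : ℝ) := Nat.cast_nonneg _
    linarith
  have h4 : (0 : ℝ) ≤ (2 / (1 / ((K : ℝ) + 1))) ^ (((E.N i).card : ℝ) / 3) := by positivity
  gcongr

end Cap.Env

open Cap.Env

/-- **the sum over the positions** -/
theorem sumPart : SumPart := by
  classical
  intro p K
  refine ⟨CK K ^ p, one_le_pow₀ (one_le_CK K), fun D E n w A m R h => ?_⟩
  have hn := h.one_le_n
  have hn0 : (0 : ℝ) < n := by exact_mod_cast hn
  set U : Finset (Fin E.S) := univ.biUnion E.N with hU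
  have hUM : U ⊆ E.M := by
    intro c hc
    rw [hU, mem_biUnion] at hc
    obtain ⟨i, -, hi⟩ := hc
    exact h.hN i hi
  have hdis : (↑(univ : Finset (Fin p)) : Set (Fin p)).PairwiseDisjoint E.N :=
    fun i _ j _ hij => h.hN' i j hij
  have hcU : U.card = ∑ i, (E.N i).card := card_biUnion hdis
  have hcM : (E.M \ U).card + ∑ i, (E.N i).card = E.M.card := by
    rw [← hcU, card_sdiff_of_subset hUM]
    have := card_le_card hUM
    omega
  have key : ∀ a ∈ Fintype.piFinset E.Y,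
      (∏ c ∈ E.M, E.um n R c a) * ∏ i, E.us n R (a i) ≤
        ((n : ℝ) ^ (-(1 / 3 : ℝ))) ^ (E.M \ U).card * ∏ i, fi E n R i (a i) := by
    intro a ha
    rw [Fintype.mem_piFinset] at ha
    have h1 : ∏ c ∈ E.M, E.um n R c a = (∏ c ∈ E.M \ U, E.um n R c a) * ∏ c ∈ U, E.um n R c a :=
      (prod_sdiff hUM).symm
    have h2 : ∏ c ∈ E.M \ U, E.um n R c a = ((n : ℝ) ^ (-(1 / 3 : ℝ))) ^ (E.M \ U).card := by
      rw [prod_congr rfl fun c hc => ?_, prod_const]
      rw [mem_sdiff] at hc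
      refine h.um_far ha hc.1 fun i hi => hc.2 ?_
      rw [hU, mem_biUnion]
      exact ⟨i, mem_univ _, hi⟩
    have h3 : ∏ c ∈ U, E.um n R c a = ∏ i, ∏ c ∈ E.N i, E.um n R c a := prod_biUnion hdis
    rw [h1, h2, h3, mul_assoc, ← prod_mul_distrib]
    refine mul_le_mul_of_nonneg_left ?_ (by positivity)
    refine prod_le_prod (fun i _ => mul_nonneg (prod_nonneg fun _ _ => um_nonneg _ _)
      (us_nonneg _)) fun i _ => ?_
    unfold fi
    rw [mul_comm]
    refine mul_le_mul_of_nonneg_left ?_ (us_nonneg _)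
    exact prod_le_prod (fun _ _ => um_nonneg _ _) fun c hc => h.um_le ha hc
  have h5 := sum_special_pi_le E.Y (fi E n R) (fun i y _ => fi_nonneg i y) hn
    (fun i => (E.N i).card) (fun _ => CK K) (fun i => h.sum_fi_le i)
  rw [prod_const, Finset.card_univ, Fintype.card_fin] at h5
  calc ∑ a ∈ Fintype.piFinset E.Y, ((∏ c ∈ E.M, E.um n R c a) * ∏ i, E.us n R (a i))
      ≤ ∑ a ∈ Fintype.piFinset E.Y,
        ((n : ℝ) ^ (-(1 / 3 : ℝ))) ^ (E.M \ U).card * ∏ i, fi E n R i (a i) := sum_le_sum key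
    _ = ((n : ℝ) ^ (-(1 / 3 : ℝ))) ^ (E.M \ U).card *
        ∑ a ∈ Fintype.piFinset E.Y, ∏ i, fi E n R i (a i) := by rw [mul_sum]
    _ ≤ ((n : ℝ) ^ (-(1 / 3 : ℝ))) ^ (E.M \ U).card *
        (CK K ^ p * (n : ℝ) ^ ((2 * (p : ℝ) - ∑ i, ((E.N i).card : ℝ)) / 3)) :=
        mul_le_mul_of_nonneg_left h5 (by positivity)
    _ = CK K ^ p * (n : ℝ) ^ ((2 * (p : ℝ) - (E.M.card : ℝ)) / 3) := by
        rw [← Real.rpow_natCast, ← Real.rpow_mul hn0.le, mul_left_comm, ← Real.rpow_add hn0]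
        congr 2
        have h6 : (((E.M \ U).card : ℕ) : ℝ) + ∑ i, ((E.N i).card : ℝ) = (E.M.card : ℝ) := by
          exact_mod_cast hcM
        rw [← h6]
        ring

end Full.Norm
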