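import Pool.Agent.Full.Norm.WinStat
import Pool.Agent.Full.Norm.SumGeo
import Pool.Agent.Full.Norm.Own
import Pool.Agent.Full.Corner.ExLocal

/-!
# The norm bound of a cap, from the statement of the geometric part

`capNorm_of`: `WinStat Ge` and `SumStat Ge` give `CapNorm`.  `gq`: the product of the factors of the marks
and of the positions; `sumStat : SumStat gq`.
-/

set_option autoImplicit false

namespace Full.Norm
open Finset Function Full.X3 Full.Corner Full.Mom Full.Walk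
open Full.Perc (Ex)

/-- moments of the factor which is not local -/
theorem gfac_moment (B j : ℕ) {q : ℝ} (hq : 1 ≤ q) : ∃ C : ℝ, 1 ≤ C ∧
    ∀ (τ : Type) [DecidableEq τ] (T : Finset τ) (g : Half τ → Half τ) (κ I : Type) [Fintype κ]
      [Fintype I] (At : MAtlas T g κ) (r : I → ℕ) (P : ∀ i, QChart T g (2 * r i + 1)) (e : ℕ),
      Fintype.card κ ≤ B → Fintype.card I ≤ B → e ≤ B → (∀ i, 1 ≤ r i) →
      avg (fun ω : T → Bool => gfac At P j e (ofBits T ω) ^ q) ≤ C := by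
  have hQ : (1 : ℝ) ≤ ((2 : ℝ) ^ (j + 1)) ^ q :=
    Real.one_le_rpow (one_le_pow₀ (by norm_num)) (by linarith)
  obtain ⟨C, hC1, hC⟩ := exists_moment' hQ (2 * B)
  have hc0 : (0 : ℝ) ≤ (2 * B + 2) ^ j * 2 ^ B := by positivity
  refine ⟨1 + (((2 * B + 2 : ℝ) ^ j * 2 ^ B) ^ q) * C, ?_, ?_⟩
  · have := Real.rpow_nonneg hc0 q
    nlinarith
  intro τ _ T g κ I _ _ At r P e hκ hI he hr
  have hm := hC τ T g (κ ⊕ I) (Sum.elim At.m r) (fun b => match b with
    | .inl b => At.ch b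
    | .inr i => P i) (by rw [Fintype.card_sum]; omega) (by
      rintro (b | i)
      · exact At.hm b
      · exact hr i)
  have hsum : ∀ ω : Finset τ, (∑ a : κ ⊕ I, QChart.X (match a with
      | .inl b => At.ch b
      | .inr i => P i : QChart T g (2 * (Sum.elim At.m r) a + 1)) ω) =
      At.tot ω + ∑ i, (P i).X ω := by
    intro ω
    rw [Fintype.sum_sum_type]
    rfl
  simp only [hsum] at hm
  have hpt : ∀ ω : T → Bool, gfac At P j e (ofBits T ω) ^ q ≤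
      (((2 * B + 2 : ℝ) ^ j * 2 ^ B) ^ q) *
        (((2 : ℝ) ^ (j + 1)) ^ q) ^ (At.tot (ofBits T ω) + ∑ i, (P i).X (ofBits T ω)) := by
    intro ω
    set N := At.tot (ofBits T ω) + ∑ i, (P i).X (ofBits T ω) with hN
    have h1 : gfac At P j e (ofBits T ω) ≤ ((2 * B + 2 : ℝ) ^ j * 2 ^ B) * ((2 : ℝ) ^ (j + 1)) ^ N := by
      unfold gfac
      have h2 : ((2 * At.tot (ofBits T ω) + 2 * Fintype.card κ : ℕ) : ℝ) ≤ (2 * B + 2) * 2 ^ N := by
        have h3 : N ≤ 2 ^ N := Nat.lt_two_pow_self.le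
        have h4 : At.tot (ofBits T ω) ≤ N := by omega
        have h5 : 2 * At.tot (ofBits T ω) + 2 * Fintype.card κ ≤ (2 * B + 2) * 2 ^ N := by
          have h6 : 1 ≤ 2 ^ N := Nat.one_le_two_pow
          nlinarith
        exact_mod_cast h5
      calc ((2 * At.tot (ofBits T ω) + 2 * Fintype.card κ : ℕ) : ℝ) ^ j *
          2 ^ (At.tot (ofBits T ω) + ∑ i, (P i).X (ofBits T ω) + e)
          ≤ ((2 * B + 2) * 2 ^ N) ^ j * 2 ^ (N + B) := by
            refine mul_le_mul (pow_le_pow_left₀ (Nat.cast_nonneg _) h2 _) ?_ (by positivity)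
              (by positivity)
            exact pow_le_pow_right₀ (by norm_num) (by omega)
        _ = ((2 * B + 2 : ℝ) ^ j * 2 ^ B) * ((2 : ℝ) ^ (j + 1)) ^ N := by
            have h7 : ∀ M : ℕ, ((2 * (B : ℝ) + 2) * 2 ^ M) ^ j * 2 ^ (M + B) =
                ((2 * B + 2 : ℝ) ^ j * 2 ^ B) * ((2 : ℝ) ^ (j + 1)) ^ M := by
              intro M
              rw [mul_pow, ← pow_mul, ← pow_mul, pow_add, add_mul, one_mul, pow_add, mul_comm M j]
              ring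
            exact h7 N
    have h0 : 0 ≤ gfac At P j e (ofBits T ω) := by
      unfold gfac
      positivity
    refine (Real.rpow_le_rpow h0 h1 (by linarith)).trans (le_of_eq ?_)
    rw [Real.mul_rpow hc0 (by positivity)]
    congr 1
    rw [← Real.rpow_natCast, ← Real.rpow_natCast (((2 : ℝ) ^ (j + 1)) ^ q), ← Real.rpow_mul
      (by positivity), ← Real.rpow_mul (by positivity), mul_comm]
  refine (avg_mono hpt).trans ?_
  rw [avg_mul_left]
  have := Real.rpow_nonneg hc0 q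
  nlinarith

/-- the half edge of the own copy -/
def udl {τ : Type*} (x : Half (τ ⊕ τ)) : Half τ := (Sum.elim id id x.1, x.2)

@[simp] lemma udl_dl {τ : Type*} (x : Half τ) : udl (dl x) = x := rfl

namespace Cap
variable (D : Cap)

/-- the number of the ends of the double -/
theorem card_ends2 : (ends D.T2 D.g2).card = 2 * D.wl := by
  classical
  have e : ends D.T2 D.g2 = ((ends D.R D.g).filter fun x => x ∉ D.C).image dl ∪
      ((ends D.R D.g).filter fun x => x ∉ D.C).image dr := by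
    ext x
    rw [mem_union, mem_image, mem_image]
    constructor
    · intro hx
      have hb := Full.X3.mem_ends.1 hx
      rcases dcases x with ⟨y, rfl⟩ | ⟨y, rfl⟩
      · obtain ⟨h1, h2⟩ := bd_dl.1 hb
        exact Or.inl ⟨y, mem_filter.2 ⟨Full.X3.mem_ends.2 h1, h2⟩, rfl⟩
      · obtain ⟨h1, h2⟩ := bd_dr.1 hb
        exact Or.inr ⟨y, mem_filter.2 ⟨Full.X3.mem_ends.2 h1, h2⟩, rfl⟩
    · rintro (⟨y, hy, rfl⟩ | ⟨y, hy, rfl⟩)
      · obtain ⟨h1, h2⟩ := mem_filter.1 hy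
        exact Full.X3.mem_ends.2 (bd_dl.2 ⟨Full.X3.mem_ends.1 h1, h2⟩)
      · obtain ⟨h1, h2⟩ := mem_filter.1 hy
        exact Full.X3.mem_ends.2 (bd_dr.2 ⟨Full.X3.mem_ends.1 h1, h2⟩)
  rw [e, card_union_of_disjoint, card_image_of_injective _ dl_inj, card_image_of_injective _ dr_inj]
  · unfold wl
    ring
  · rw [disjoint_left]
    intro x hx hx'
    obtain ⟨y, -, rfl⟩ := mem_image.1 hx
    obtain ⟨y', -, h⟩ := mem_image.1 hx'
    exact dl_ne_dr y y' h.symm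

end Cap

/-- **the norm bound of a cap**, from the geometric part -/
theorem capNorm_of {Ge : ∀ (D : Cap) (p : ℕ), D.Env p → ℕ → ℕ → (Fin p → Half (ℤ × ℤ)) → ℝ}
    (hW : WinStat Ge) (hS : SumStat Ge) : CapNorm := by
  classical
  intro p K ε hε
  obtain ⟨B1, A0, C2, hA0, hC2, hW⟩ := hW p K (ε / 3) (by positivity)
  obtain ⟨C1, hC1, hM⟩ := gfac_moment B1 (Fintype.card (Fin p)) (one_le_qexp hε hA0 (2 * B1))
  obtain ⟨C3, hC3, hS⟩ := hS p K
  refine ⟨max 1 (C1 * C2 * C3), le_max_left _ _, ?_⟩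
  intro D E n w A m R h φ ψ hφ N hN
  obtain ⟨κ, _, At, hκ, hown, hL, hl⟩ := hW D E n w A m R h φ ψ hφ
  obtain ⟨hG0, hGs⟩ := hS D E n w A m R h
  have hn : 1 ≤ n := h.one_le_n
  have hn1 : (1 : ℝ) ≤ n := by exact_mod_cast hn
  have hn0 : (0 : ℝ) < n := by linarith
  have hs3 : (0 : ℝ) < Real.sqrt 3 ^ D.wl := by positivity
  have hG : Glu D.T2 D.g2 := Cap.glu_g2
  obtain ⟨o, hoi⟩ : ∃ o : Half ((ℤ × ℤ) ⊕ (ℤ × ℤ)) → ℕ, Injective o :=
    Countable.exists_injective_nat _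
  have ho : ∀ x, Bd D.T2 D.g2 x → ∀ y, Bd D.T2 D.g2 y → o x = o y → x = y :=
    fun x _ y _ hxy => hoi hxy
  refine (D.sq_le hN _ φ ho).trans ?_
  -- the mean for fixed mirror positions
  have key : ∀ a' ∈ Fintype.piFinset E.Y,
      avg (fun ω : D.T2 → Bool => ∑ a ∈ Fintype.piFinset E.Y,
        ‖cw K0 (dph (φ a) (φ a')) D.T2 D.g2 none o (ofBits D.T2 ω)‖) ≤
      Real.sqrt 3 ^ D.wl * (C1 * (n : ℝ) ^ (2 * (ε / 3)) *
        (C2 * (n : ℝ) ^ (ε / 3) * Ge D p E n R a')) := by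
    intro a' ha'
    obtain ⟨L⟩ := hl a' ha'
    let _ := L.fσ
    let _ := L.fI
    let Yf : Fin p → Finset (Half ((ℤ × ℤ) ⊕ (ℤ × ℤ))) := fun i => (E.Y i).image dl
    have hpi : Fintype.piFinset Yf =
        (Fintype.piFinset E.Y).image fun (b : Fin p → Half (ℤ × ℤ)) i => dl (b i) :=
      Fintype.piFinset_image (fun _ => dl) E.Y
    let Φ : (Fin p → Half ((ℤ × ℤ) ⊕ (ℤ × ℤ))) → Half ((ℤ × ℤ) ⊕ (ℤ × ℤ)) → ℝ :=
      fun y => dph (φ fun i => udl (y i)) (φ a')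
    have hall : ∀ Pr : (Fin p → Half ((ℤ × ℤ) ⊕ (ℤ × ℤ))) → Prop,
        (∀ a ∈ Fintype.piFinset E.Y, Pr fun i => dl (a i)) → ∀ y ∈ Fintype.piFinset Yf, Pr y := by
      intro Pr hPr y hy
      rw [hpi, mem_image] at hy
      obtain ⟨a, ha, rfl⟩ := hy
      exact hPr a ha
    have hLoc := locBd_of (B := (n : ℝ) ^ A0) (q := qexp ε A0 (2 * B1)) (S := 2 * B1)
      (C := C1 * (n : ℝ) ^ (ε / 3)) hG ho At L.G L.r L.hr L.P L.H L.E' L.hH L.hdis
      L.hdis' L.hdis'' Yf (φ := Φ) (μ := E.mu2) (Y' := univ.image fun i => dr (a' i))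
      (hall _ fun a ha => hL a ha a' ha') (hall _ fun a ha => L.hY a ha)
      (hall _ fun a ha => L.hGw a ha) (hall _ fun a ha => L.hP a ha) ?_ D.card_ends2 ?_ L.uc L.ug
      L.hUc L.hUg L.hv ?_
    · have h1 := avg_le_of_locBd hε hA0 (2 * B1) hn hC1 (mul_nonneg (by positivity) (hG0 a' ha')) hLoc
      have h2 : ∀ ω : D.T2 → Bool, ∑ a ∈ Fintype.piFinset E.Y,
          ‖cw K0 (dph (φ a) (φ a')) D.T2 D.g2 none o (ofBits D.T2 ω)‖ = Real.sqrt 3 ^ D.wl *
          ((∑ y ∈ Fintype.piFinset Yf, ‖cw K0 (Φ y) D.T2 D.g2 none o (ofBits D.T2 ω)‖) /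
            Real.sqrt 3 ^ D.wl) := by
        intro ω
        rw [mul_div_cancel₀ _ hs3.ne', hpi, sum_image (fun a _ b _ hab => by
          funext i
          exact dl_inj (congrFun hab i))]
        rfl
      simp only [h2]
      rw [avg_mul_left]
      exact mul_le_mul_of_nonneg_left h1 hs3.le
    · intro ω
      refine own_count hG ho At Yf ?_ (μ := E.mu2) (Y' := univ.image fun i => dr (a' i))
        (hall _ fun a ha => hL a ha a' ha') ω
      intro i y hy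
      obtain ⟨u, hu, rfl⟩ := mem_image.1 hy
      exact ⟨bd_dl.2 (h.bd i u hu), fun b hb x hx => hown b hb x hx u⟩
    · have := L.cσ
      omega
    · refine (hM _ D.T2 D.g2 κ L.I At L.r L.P L.E'.card hκ L.cI L.cE L.hr).trans ?_
      have : (1 : ℝ) ≤ (n : ℝ) ^ (ε / 3) := Real.one_le_rpow hn1 (by positivity)
      nlinarith
  rw [Ex_eq_avg]
  have h3 : avg (fun ω : D.T2 → Bool => ∑ a ∈ Fintype.piFinset E.Y, ∑ a' ∈ Fintype.piFinset E.Y,
      ‖cw K0 (dph (φ a) (φ a')) D.T2 D.g2 none o (ofBits D.T2 ω)‖) =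
      ∑ a' ∈ Fintype.piFinset E.Y, avg (fun ω : D.T2 → Bool => ∑ a ∈ Fintype.piFinset E.Y,
        ‖cw K0 (dph (φ a) (φ a')) D.T2 D.g2 none o (ofBits D.T2 ω)‖) := by
    rw [← avg_sum]
    congr 1
    funext ω
    exact sum_comm
  rw [h3]
  refine (sum_le_sum key).trans ?_
  rw [← mul_sum, ← mul_sum, ← mul_sum]
  have h4 : (n : ℝ) ^ (2 * (ε / 3)) * (n : ℝ) ^ (ε / 3) = (n : ℝ) ^ ε := by
    rw [← Real.rpow_add hn0]
    congr 1
    ring
  have h5 : (n : ℝ) ^ ((2 * (p : ℝ) - (E.M.card : ℝ)) / 3 + ε) =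
      (n : ℝ) ^ ((2 * (p : ℝ) - (E.M.card : ℝ)) / 3) * (n : ℝ) ^ ε := Real.rpow_add hn0 _ _
  set X := ∑ a' ∈ Fintype.piFinset E.Y, Ge D p E n R a' with hX
  set Z := (n : ℝ) ^ ((2 * (p : ℝ) - (E.M.card : ℝ)) / 3) with hZ
  calc Real.sqrt 3 ^ D.wl * (C1 * (n : ℝ) ^ (2 * (ε / 3)) * (C2 * (n : ℝ) ^ (ε / 3) * X))
      = Real.sqrt 3 ^ D.wl * (C1 * C2 * ((n : ℝ) ^ (2 * (ε / 3)) * (n : ℝ) ^ (ε / 3))) * X := by ring
    _ ≤ Real.sqrt 3 ^ D.wl * (C1 * C2 * ((n : ℝ) ^ (2 * (ε / 3)) * (n : ℝ) ^ (ε / 3))) *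
        (C3 * Z) := mul_le_mul_of_nonneg_left hGs (by positivity)
    _ = (C1 * C2 * C3) * (Z * (n : ℝ) ^ ε) * Real.sqrt 3 ^ D.wl := by rw [h4]; ring
    _ ≤ max 1 (C1 * C2 * C3) * (Z * (n : ℝ) ^ ε) * Real.sqrt 3 ^ D.wl := by
        refine mul_le_mul_of_nonneg_right (mul_le_mul_of_nonneg_right (le_max_right _ _) ?_) hs3.le
        positivity
    _ = max 1 (C1 * C2 * C3) * (n : ℝ) ^ ((2 * (p : ℝ) - (E.M.card : ℝ)) / 3 + ε) *
        Real.sqrt 3 ^ D.wl := by rw [h5]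

/-- the product of the factors of the marks and of the positions -/
noncomputable def gq (D : Cap) (p : ℕ) (E : D.Env p) (n R : ℕ) (a : Fin p → Half (ℤ × ℤ)) : ℝ :=
  (∏ c ∈ E.M, E.um n R c a) * ∏ i, E.us n R (a i)

theorem sumStat : SumStat gq := by
  intro p K
  obtain ⟨C, hC, h⟩ := sumPart p K
  refine ⟨C, hC, fun D E n w A m R hE => ⟨fun a _ => ?_, h D E n w A m R hE⟩⟩
  exact mul_nonneg (prod_nonneg fun c _ => Cap.Env.um_nonneg c a)
    (prod_nonneg fun i _ => Cap.Env.us_nonneg (a i))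

/-- **the norm bound of a cap**, from the geometric part -/
theorem capNorm_of_winStat (hW : WinStat gq) : CapNorm := capNorm_of hW sumStat

end Full.Norm
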