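import Pool.Agent.Full.Norm.WinSep
import Pool.Agent.Full.Norm.CapMAt
import Pool.Agent.Full.Norm.CornProd
import Pool.Agent.Full.Norm.FinCap

/-!
# The geometric part of the norm bound

`GStat`: the local factors of the marks and of the positions.  `winStat_of : GStat → WinStat gq`.
-/

set_option autoImplicit false
set_option linter.unusedSectionVars false

namespace Full.Norm
open Finset Function Full.X3 Full.Corner Full.Mom Full.Walk Cap.Env

/-- the local factors of the marks and of the positions of the mirror side -/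
def GStat : Prop := ∀ p K : ℕ, ∃ (A1 C1 : ℝ), 0 ≤ A1 ∧ 1 ≤ C1 ∧ ∀ (D : Cap) (E : D.Env p)
  (n w A m R : ℕ), E.Ok K n w A m R → ∀ a' ∈ Fintype.piFinset E.Y,
  ∃ (σ : Type) (_ : Fintype σ) (G : σ → Fct D.T2 D.g2) (ug : σ → ℝ), Fintype.card σ ≤ K + p ∧
    (∀ (φ : (Fin p → Half (ℤ × ℤ)) → Half (ℤ × ℤ) → ℝ) (ψ : ℝ),
      (∀ a ∈ Fintype.piFinset E.Y, D.PhLaw (φ a) (E.chg a) ψ) →
      ∀ a ∈ Fintype.piFinset E.Y, ∀ ω k e, (G k).Str ω e →
        fw (dph (φ a) (φ a')) D.g2 ω e ≤ (G k).z * Real.sqrt 3) ∧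
    (∀ k, LocUp ((n : ℝ) ^ A1) (ug k)
      fun ω : D.T2 → Bool => (G k).z ^ (G k).cnt (ofBits D.T2 ω)) ∧
    0 ≤ ∏ k, ug k ∧ ∏ k, ug k ≤ C1 * gq D p E n R a' ∧
    (∀ k k', k ≠ k' → ∀ t ∈ (G k).A, ∀ t' ∈ (G k').A, (G k).c.φ t ≠ (G k').c.φ t') ∧
    ∀ k, ∀ t ∈ (G k).A, ∃ q, (G k).c.φ t = Sum.inr q ∧ LocG E R m a' q

/-- a larger bound of the second moment -/
lemma locUp_mono {E : Type*} [Fintype E] [DecidableEq E] {B B' u : ℝ} {X : (E → Bool) → ℝ}
    (h : LocUp B u X) (hB : 0 ≤ B) (hBB : B ≤ B') : LocUp B' u X := by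
  rcases h with ⟨h1, h2, h3⟩ | ⟨h1, h2, h3⟩
  · exact Or.inl ⟨h1, h2.trans hBB, h3⟩
  · refine Or.inr ⟨h1, h2, h3.trans (mul_le_mul_of_nonneg_right hBB ?_)⟩
    by_contra hu
    push Not at hu
    have := mul_nonpos_of_nonneg_of_nonpos hB hu.le
    linarith

/-- the corners and the corner charts -/
lemma prod_cn {D : Cap} {p : ℕ} {E : D.Env p} {K n w A m R : ℕ} (h : E.Ok K n w A m R)
    [DecidablePred (atl h).cn] (f : E.Ix m → ℝ) :
    ∏ b ∈ univ.filter (atl h).cn, f b =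
      ∏ c ∈ univ.filter (fun c => c ∉ E.M), f (Sum.inr (c, true)) := by
  classical
  symm
  refine prod_bij (fun c _ => (Sum.inr (c, true) : E.Ix m)) ?_ ?_ ?_ ?_
  · intro c hc
    rw [mem_filter] at hc ⊢
    exact ⟨mem_univ _, (atl_cn_true h c).2 hc.2⟩
  · intro c _ c' _ he
    have := Sum.inr.inj he
    exact (Prod.mk.inj this).1
  · intro b hb
    rw [mem_filter] at hb
    obtain ⟨c, hc, rfl⟩ := (atl_cn_iff h b).1 hb.2
    exact ⟨c, mem_filter.2 ⟨mem_univ _, hc⟩, rfl⟩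
  · intro c _
    rfl

/-- **the geometric part** -/
theorem winStat_of (hG : GStat) : WinStat gq := by
  classical
  intro p K ε hε
  obtain ⟨A0, hA0, hcf⟩ := MAtlas.cfct_loc
  obtain ⟨ε1, hε1, hpr⟩ := ucor_prod K hε
  obtain ⟨C0, hC0, hcf⟩ := hcf ε1 hε1
  obtain ⟨C', hC', hpr⟩ := hpr C0 hC0
  obtain ⟨A1, C1, hA1, hC1, hG⟩ := hG p K
  refine ⟨2 * (K + 2) ^ 2 + 2 * K + p * K + p, A0 + A1, C' * C1, by positivity, by positivity, ?_⟩
  intro D E n w A m R h φ ψ hφ
  refine ⟨E.Ix m, inferInstance, atl h, ?_, fun b hb x hx u => atl_ne_dl h b hb x hx u, ?_, ?_⟩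
  · have := card_Ix h
    omega
  · intro a ha a' ha'
    exact atl_laws h ha ha' (hφ a ha) (hφ a' ha')
  intro a' ha'
  obtain ⟨σ, fσ, G, ug, hσ, hGw, hUg, hu0, hu1, hGG, hloc⟩ := hG D E n w A m R h a' ha'
  have hR := h.hmR
  have hRn := h.hRn
  have hm := h.hm
  have hn1 : (1 : ℝ) ≤ n := by
    have : 1 ≤ n := by omega
    exact_mod_cast this
  have hS := h.hS
  refine ⟨{
    σ := σ
    I := {x : Fin p × Fin E.S // Use E R x.2 (a' x.1)}
    fσ := fσ
    fI := inferInstance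
    G := G
    r := fun i => hrad E i.1.2 (a' i.1.1) + 1
    P := fun i => Pc h i.2.1
    H := Ho E R a'
    E' := univ.image fun i => dr (a' i)
    uc := fun b => ucor C0 ε1 n (2 * (atl h).m b + 1) (nq ((atl h).c b).Q)
    ug := ug
    cσ := ?_
    cI := ?_
    cE := ?_
    hr := fun i => by omega
    hH := ?_
    hdis := ?_
    hdis' := ?_
    hdis'' := hGG
    hY := ?_
    hGw := hGw φ ψ hφ
    hP := ?_
    hUc := ?_
    hUg := ?_
    hv := ?_ }⟩
  · have := Nat.zero_le (2 * (K + 2) ^ 2)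
    have := Nat.zero_le (p * K)
    omega
  · refine (Fintype.card_subtype_le _).trans ?_
    rw [Fintype.card_prod, Fintype.card_fin, Fintype.card_fin]
    have h1 : p * E.S ≤ p * K := Nat.mul_le_mul_left p hS
    omega
  · refine card_image_le.trans ?_
    rw [card_univ, Fintype.card_fin]
    omega
  · -- the holes
    intro t ht
    obtain ⟨q, rfl⟩ := Ho_inr ht
    obtain ⟨h1, i, c, h2, h3⟩ := mem_Ho.1 ht
    exact ⟨⟨(i, c), h2⟩, fun d => Pc_inn h h2.1 h1 h3 d⟩
  · -- two corners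
    intro b b' hb hb' hne t ht t' ht'
    obtain ⟨c, hc, rfl⟩ := (atl_cn_iff h b).1 hb
    obtain ⟨c', hc', rfl⟩ := (atl_cn_iff h b').1 hb'
    unfold MAtlas.cA at ht ht'
    rw [mem_filter] at ht ht'
    refine sep_cc h (fun e => hne (by rw [e])) (k := 6 * m + 9) (by omega) ?_ ?_
    · exact Cap.sqr_mono (by rw [atl_m_inr]; omega) ht.2.1
    · exact Cap.sqr_mono (by rw [atl_m_inr]; omega) ht'.2.1
  · -- a corner and a factor
    intro b k hb t ht t' ht'
    obtain ⟨c, hc, rfl⟩ := (atl_cn_iff h b).1 hb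
    unfold MAtlas.cA at ht
    rw [mem_filter] at ht
    obtain ⟨q, h1, h2⟩ := hloc k t' ht'
    rw [h1]
    exact sep_cG h hc ht.1 (Cap.sqr_mono (by rw [atl_m_inr]; omega) ht.2.1) ht.2.2 h2
  · -- the positions visible in corner charts
    intro a ha b hb x hx hxY
    obtain ⟨u, hu⟩ := atl_mir h ((atl h).cnm b hb) hx
    rw [hu, mem_Y2_dr] at hxY
    obtain ⟨i, hi⟩ := hxY
    rw [hu, hi]
    exact mem_image_of_mem _ (mem_univ i)
  · -- the charts around the positions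
    intro a ha ω i e he hh
    exact Pc_le h (a := a) ha' (hφ a' ha') i.2 he hh
  · -- the corner factors
    intro b hb
    obtain ⟨c, hc, rfl⟩ := (atl_cn_iff h b).1 hb
    have h1 := hcf _ D.T2 D.g2 (E.Ix m) (atl h) (Ho E R a') (Sum.inr (c, true)) n hb (mc_v h c)
      (by omega) (by rw [atl_m_inr]; omega) (Or.inr (hole_cond h ha' (c := c) (by
        rw [atl_m_inr]; omega)))
    exact locUp_mono h1 (by positivity) (Real.rpow_le_rpow_of_exponent_le hn1 (by linarith))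
  · intro k
    exact locUp_mono (hUg k) (by positivity) (Real.rpow_le_rpow_of_exponent_le hn1 (by linarith))
  · -- the product
    have h1 := hpr p D E n w A m R h (6 * m + 9) (by omega) (by omega)
    have h2 : ∏ b ∈ univ.filter (atl h).cn, ucor C0 ε1 n (2 * (atl h).m b + 1)
        (nq ((atl h).c b).Q) ≤ C' * (n : ℝ) ^ ε := by
      rw [prod_cn]
      refine le_trans (le_of_eq (prod_congr ?_ fun c _ => ?_)) h1
      · ext c
        simp only [mem_filter]
      · have e1 : nq ((atl h).c (Sum.inr (c, true))).Q = nq (E.Q c) := mc_nq h c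
        rw [e1, atl_m_inr]
        congr 1
        ring
    have h3 : 0 ≤ C' * (n : ℝ) ^ ε := by positivity
    refine (mul_le_mul h2 hu1 hu0 h3).trans (le_of_eq ?_)
    ring

end Full.Norm
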