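import Pool.Agent.Full.Norm.GList
import Pool.Agent.Full.Norm.WinFin

/-!
# The norm bound of caps

`gstat : GStat`, `winStat : WinStat gq`, `capNorm : CapNorm`.
-/

set_option autoImplicit false

namespace Full.Norm
open Finset Function Full.X3 Full.Corner Full.Mom Full.Walk Cap.Env

/-- **the factors of the marks and of the mirror positions** -/
theorem gstat : GStat := by
  intro p K
  obtain ⟨C, hC, hG⟩ := exists_G p K
  refine ⟨1, C, zero_le_one, hC, fun D E n w A m R h a' ha' => ?_⟩
  obtain ⟨σ, fσ, G, ug, h1, h2, h3, h4, h5, h6, h7⟩ := hG D E n w A m R h a' ha'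
  refine ⟨σ, fσ, G, ug, h1, fun φ ψ hφ a ha ω k e he =>
    h5 a (φ a) (φ a') ψ ha (hφ a ha) (hφ a' ha') ω k e he, fun k => ?_, prod_nonneg fun k _ => h2 k,
    h7, h4, h3⟩
  rw [Real.rpow_one]
  exact h6 k

/-- **the geometric part of the norm bound** -/
theorem winStat : WinStat gq := winStat_of gstat

/-- **the norm bound of caps** -/
theorem capNorm : CapNorm := capNorm_of_winStat winStat

end Full.Norm
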