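import Pool.Agent.Full.Norm.CapAtlas

/-!
# Regions made of rooms are tame

`Rms`: a family of rectangles (rooms), `Rms.Ok w`: the sides of the rooms are at least `2 w`, two rooms
are at distance at least `2 w`, or one is on top of the other and the narrow one is strictly inside.
Every union of rooms is of quadrant type at the scale `w` (`Rms.quad`); `Rms.tame`: a cap made of rooms is
tame.
-/

set_option autoImplicit false

namespace Full.Norm
open Finset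

/-- in a window an interval is a half line -/
lemma half_line (a b p : ℤ) (w : ℕ) (h : a + 2 * w ≤ b) :
    ∃ (v : ℤ) (f : Bool → Bool), ∀ x, p - w ≤ x → x < p + w → ((a ≤ x ∧ x < b) ↔ f (decide (v ≤ x)) = true) := by
  by_cases h1 : p - w < a
  · refine ⟨a, fun c => c, fun x h2 h3 => ?_⟩
    simp only [decide_eq_true_eq]
    omega
  · refine ⟨b, fun c => !c, fun x h2 h3 => ?_⟩
    simp only [Bool.not_eq_true', decide_eq_false_iff_not, not_le]
    omega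

/-- a family of rectangles -/
structure Rms (K : Type*) where
  x0 : K → ℤ
  x1 : K → ℤ
  y0 : K → ℤ
  y1 : K → ℤ

namespace Rms
variable {K : Type*} (ρ : Rms K)

/-- the tiles of a room -/
noncomputable def rm (a : K) : Finset (ℤ × ℤ) := box (ρ.x0 a) (ρ.x1 a) (ρ.y0 a) (ρ.y1 a)

lemma mem_rm {a : K} {p : ℤ × ℤ} :
    p ∈ ρ.rm a ↔ (ρ.x0 a ≤ p.1 ∧ p.1 < ρ.x1 a) ∧ ρ.y0 a ≤ p.2 ∧ p.2 < ρ.y1 a :=
  mem_box (i := p.1) (j := p.2)

/-- `b` is at distance at least `2 w` -/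
def Sep (w : ℕ) (a b : K) : Prop :=
  ρ.x1 a + 2 * w ≤ ρ.x0 b ∨ ρ.x1 b + 2 * w ≤ ρ.x0 a ∨ ρ.y1 a + 2 * w ≤ ρ.y0 b ∨ ρ.y1 b + 2 * w ≤ ρ.y0 a

/-- `b` is inside the columns of `a` -/
def Ins (w : ℕ) (a b : K) : Prop := ρ.x0 a + 2 * w ≤ ρ.x0 b ∧ ρ.x1 b + 2 * w ≤ ρ.x1 a

/-- `b` is on top of `a` -/
def Stk (w : ℕ) (a b : K) : Prop := ρ.y1 a = ρ.y0 b ∧ (ρ.Ins w a b ∨ ρ.Ins w b a)

/-- admissible families of rooms -/
structure Ok (w : ℕ) (G : Set K) : Prop where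
  wd : ∀ a ∈ G, ρ.x0 a + 2 * w ≤ ρ.x1 a
  ht : ∀ a ∈ G, ρ.y0 a + 2 * w ≤ ρ.y1 a
  sep : ∀ a ∈ G, ∀ b ∈ G, a ≠ b → ρ.Sep w a b ∨ ρ.Stk w a b ∨ ρ.Stk w b a

/-- the union of rooms -/
noncomputable def reg (F : Finset K) : Finset (ℤ × ℤ) := F.biUnion ρ.rm

variable {ρ}

lemma mem_reg {F : Finset K} {p : ℤ × ℤ} : p ∈ ρ.reg F ↔ ∃ a ∈ F, p ∈ ρ.rm a := by
  unfold reg
  rw [mem_biUnion]

/-- the room meets the window -/
def Meets (ρ : Rms K) (w : ℕ) (p : ℤ × ℤ) (a : K) : Prop := ∃ s ∈ sqr w, p + s ∈ ρ.rm a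

lemma Meets.not_sep {w : ℕ} {p : ℤ × ℤ} {a b : K} (ha : ρ.Meets w p a) (hb : ρ.Meets w p b) :
    ¬ ρ.Sep w a b := by
  obtain ⟨s, hs, h1⟩ := ha
  obtain ⟨s', hs', h2⟩ := hb
  rw [mem_sqr] at hs hs'
  rw [mem_rm] at h1 h2
  simp only [Prod.fst_add, Prod.snd_add] at h1 h2
  unfold Sep
  omega

/-- at most two rooms meet a window, one is on top of the other -/
lemma Ok.meets {w : ℕ} {G : Set K} (h : ρ.Ok w G) {p : ℤ × ℤ} {a b : K} (hGa : a ∈ G) (hGb : b ∈ G)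
    (hab : a ≠ b) (ha : ρ.Meets w p a) (hb : ρ.Meets w p b) : ρ.Stk w a b ∨ ρ.Stk w b a :=
  (h.sep a hGa b hGb hab).resolve_left (ha.not_sep hb)

lemma Ok.meets_three {w : ℕ} {G : Set K} (h : ρ.Ok w G) {p : ℤ × ℤ} {a b c : K} (hGa : a ∈ G)
    (hGb : b ∈ G) (hGc : c ∈ G) (hab : a ≠ b) (hac : a ≠ c)
    (hbc : b ≠ c) (ha : ρ.Meets w p a) (hb : ρ.Meets w p b) (hc : ρ.Meets w p c) : False := by
  have h1 := h.meets hGa hGb hab ha hb
  have h2 := h.meets hGa hGc hac ha hc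
  have h3 := h.meets hGb hGc hbc hb hc
  have ea := h.ht a hGa
  have eb := h.ht b hGb
  have ec := h.ht c hGc
  obtain ⟨s, hs, h4⟩ := ha
  obtain ⟨s', hs', h5⟩ := hb
  obtain ⟨s'', hs'', h6⟩ := hc
  rw [mem_sqr] at hs hs' hs''
  rw [mem_rm] at h4 h5 h6
  simp only [Prod.snd_add] at h4 h5 h6
  unfold Stk at h1 h2 h3
  omega

/-- a window which meets one room only -/
lemma Ok.one {w : ℕ} {G : Set K} (h : ρ.Ok w G) {p : ℤ × ℤ} {a : K} (hGa : a ∈ G) {R : Finset (ℤ × ℤ)}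
    (hR : ∀ s ∈ sqr w, (p + s ∈ R ↔ p + s ∈ ρ.rm a)) : ∃ v Q, Cap.QBox R p w v Q := by
  obtain ⟨v1, f, hf⟩ := half_line (ρ.x0 a) (ρ.x1 a) p.1 w (h.wd a hGa)
  obtain ⟨v2, k, hk⟩ := half_line (ρ.y0 a) (ρ.y1 a) p.2 w (h.ht a hGa)
  refine ⟨(v1, v2), fun a b => f a && k b, ?_, ?_⟩
  · intro a b h1 h2
    simp only [Bool.and_eq_true] at h1 h2 ⊢
    exact Or.inl ⟨h1.1, h2.2⟩
  · intro s hs
    rw [hR s hs, mem_rm]
    rw [mem_sqr] at hs
    unfold QSet
    simp only [Bool.and_eq_true, Prod.fst_add, Prod.snd_add]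
    rw [hf _ (by omega) (by omega), hk _ (by omega) (by omega)]

/-- a window which meets two rooms, `b` on top of `a` -/
lemma Ok.two {w : ℕ} {G : Set K} (h : ρ.Ok w G) {p : ℤ × ℤ} {a b : K} (hGa : a ∈ G) (hGb : b ∈ G)
    (hab : ρ.Stk w a b) (ha : ρ.Meets w p a)
    (hb : ρ.Meets w p b) {R : Finset (ℤ × ℤ)}
    (hR : ∀ s ∈ sqr w, (p + s ∈ R ↔ p + s ∈ ρ.rm a ∨ p + s ∈ ρ.rm b)) : ∃ v Q, Cap.QBox R p w v Q := by
  have ea := h.ht a hGa
  have eb := h.ht b hGb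
  obtain ⟨h1, h2 | h2⟩ := hab
  · -- `b` is narrow
    obtain ⟨v1, f, hf⟩ := half_line (ρ.x0 b) (ρ.x1 b) p.1 w (h.wd b hGb)
    refine ⟨(v1, ρ.y0 b), fun c d => if d then f c else true, ?_, ?_⟩
    · intro c d h3 h4
      cases d <;> simp_all
    · intro s hs
      rw [hR s hs, mem_rm, mem_rm]
      obtain ⟨s1, hs1, h3⟩ := ha
      obtain ⟨s2, hs2, h4⟩ := hb
      rw [mem_sqr] at hs hs1 hs2
      rw [mem_rm] at h3 h4
      unfold Ins at h2
      have h5 := hf (p.1 + s.1) (by omega) (by omega)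
      unfold QSet
      simp only [Prod.fst_add, Prod.snd_add] at h3 h4 ⊢
      by_cases h6 : ρ.y0 b ≤ p.2 + s.2
      · rw [decide_eq_true h6, if_pos rfl, ← h5]
        omega
      · rw [decide_eq_false h6, if_neg (by decide)]
        simp only [iff_true]
        omega
  · -- `a` is narrow
    obtain ⟨v1, f, hf⟩ := half_line (ρ.x0 a) (ρ.x1 a) p.1 w (h.wd a hGa)
    refine ⟨(v1, ρ.y0 b), fun c d => if d then true else f c, ?_, ?_⟩
    · intro c d h3 h4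
      cases d <;> simp_all
    · intro s hs
      rw [hR s hs, mem_rm, mem_rm]
      obtain ⟨s1, hs1, h3⟩ := ha
      obtain ⟨s2, hs2, h4⟩ := hb
      rw [mem_sqr] at hs hs1 hs2
      rw [mem_rm] at h3 h4
      unfold Ins at h2
      have h5 := hf (p.1 + s.1) (by omega) (by omega)
      unfold QSet
      simp only [Prod.fst_add, Prod.snd_add] at h3 h4 ⊢
      by_cases h6 : ρ.y0 b ≤ p.2 + s.2
      · rw [decide_eq_true h6, if_pos rfl]
        simp only [iff_true]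
        omega
      · rw [decide_eq_false h6, if_neg (by decide), ← h5]
        omega

/-- **every union of rooms is of quadrant type at the scale `w`** -/
theorem Ok.quad {w : ℕ} {G : Set K} (h : ρ.Ok w G) (hw : 1 ≤ w) (F : Finset K) (hF : ∀ a ∈ F, a ∈ G) {p : ℤ × ℤ} (hp : p ∈ ρ.reg F) :
    ∃ v Q, Cap.QBox (ρ.reg F) p w v Q := by
  obtain ⟨a, haF, ha⟩ := mem_reg.1 hp
  have hma : ρ.Meets w p a := ⟨0, mem_sqr.2 ⟨⟨by simp, by simp; omega⟩, by simp, by simp; omega⟩, by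
    rw [add_zero]; exact ha⟩
  by_cases hb : ∃ b ∈ F, b ≠ a ∧ ρ.Meets w p b
  · obtain ⟨b, hbF, hba, hmb⟩ := hb
    have h1 : ∀ s ∈ sqr w, (p + s ∈ ρ.reg F ↔ p + s ∈ ρ.rm a ∨ p + s ∈ ρ.rm b) := by
      intro s hs
      rw [mem_reg]
      constructor
      · rintro ⟨c, hcF, hc⟩
        by_cases hca : a = c
        · rw [hca]; exact Or.inl hc
        · by_cases hcb : b = c
          · rw [hcb]; exact Or.inr hc
          · exact absurd ⟨s, hs, hc⟩ (fun hmc => h.meets_three (hF a haF) (hF b hbF) (hF c hcF)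
              hba.symm hca hcb hma hmb hmc)
      · rintro (h2 | h2)
        · exact ⟨a, haF, h2⟩
        · exact ⟨b, hbF, h2⟩
    rcases h.meets (hF a haF) (hF b hbF) hba.symm hma hmb with h2 | h2
    · exact h.two (hF a haF) (hF b hbF) h2 hma hmb h1
    · exact h.two (hF b hbF) (hF a haF) h2 hmb hma fun s hs => by rw [h1 s hs, or_comm]
  · push Not at hb
    apply h.one (a := a) (hF a haF)
    intro s hs
    rw [mem_reg]
    constructor
    · rintro ⟨c, hcF, hc⟩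
      by_cases hca : c = a
      · rw [← hca]; exact hc
      · exact absurd ⟨s, hs, hc⟩ (hb c hcF hca)
    · intro h2
      exact ⟨a, haF, h2⟩

open Classical in
/-- **a cap made of rooms is tame** -/
theorem Ok.tame {w A : ℕ} {G : Set K} (h : ρ.Ok w G) (hw : 1 ≤ w) {F : Finset K} (hF : ∀ a ∈ F, a ∈ G)
    {q : K} (hGq : q ∈ G) (hq : q ∉ F) {D : Cap}
    (hU : D.U = ρ.reg F) (hl : D.l = ρ.x0 q) (hr : D.r = ρ.x1 q) (hy : D.y = ρ.y0 q)
    (ht : D.t = ρ.y1 q) (wide : 4 * (w : ℤ) ≤ D.r - D.l) (high : 4 * (w : ℤ) ≤ D.t - D.y)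
    (top : ∀ b ∈ F, ρ.Stk w q b → ρ.Ins w q b) (bot : ∀ b ∈ F, ¬ ρ.Stk w b q)
    (size : ∃ a b : ℤ, ∀ p ∈ D.R, (a ≤ p.1 ∧ p.1 < a + A) ∧ b ≤ p.2 ∧ p.2 < b + A) : D.Tame w A where
  wide := wide
  high := high
  size := size
  far := fun i j hij h1 => by
    rw [hU, mem_reg] at hij
    obtain ⟨b, hb, h2⟩ := hij
    rw [mem_rm] at h2
    simp only at h2
    have hbq : q ≠ b := fun h3 => hq (h3 ▸ hb)
    rcases h.sep q hGq b (hF b hb) hbq with h3 | h3 | h3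
    · unfold Sep at h3
      omega
    · have h4 := h3.1
      omega
    · exact bot b hb h3
  flat := fun i j hij h1 => by
    rw [hU, mem_reg] at hij
    obtain ⟨b, hb, h2⟩ := hij
    rw [mem_rm] at h2
    simp only at h2
    have hbq : q ≠ b := fun h3 => hq (h3 ▸ hb)
    rcases h.sep q hGq b (hF b hb) hbq with h3 | h3 | h3
    · unfold Sep at h3
      omega
    · have h4 := top b hb h3
      unfold Ins at h4
      omega
    · exact bot b hb h3
  quad := fun p hp _ => by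
    have h1 : D.R = ρ.reg (insert q F) := by
      ext ⟨i, j⟩
      rw [Cap.mem_R, hU, mem_reg, mem_reg]
      constructor
      · rintro (⟨a, ha, h2⟩ | h2)
        · exact ⟨a, mem_insert_of_mem ha, h2⟩
        · refine ⟨q, mem_insert_self _ _, ?_⟩
          rw [mem_rm, ← hl, ← hr, ← hy, ← ht]
          exact h2
      · rintro ⟨a, ha, h2⟩
        rcases mem_insert.1 ha with h3 | h3
        · right
          rw [h3, mem_rm, ← hl, ← hr, ← hy, ← ht] at h2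
          exact h2
        · exact Or.inl ⟨a, h3, h2⟩
    rw [h1] at hp ⊢
    refine h.quad hw _ (fun a ha => ?_) hp
    rcases mem_insert.1 ha with h3 | h3
    · rw [h3]; exact hGq
    · exact hF a h3

end Rms

end Full.Norm
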