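import Pool.Agent.Full.Norm.Env
import Pool.Agent.Full.Norm.Rooms

/-!
# The special points of a cap made of rooms

`Rms.IsCap`: the cap `D` is made of the rooms `F`, the strip is the room `q`; the rooms are rows (wide) and
links (narrow); every link has a row above and a row below.  `cor a b`: the corners of a room, `quad`:
the quadrants there (one for a row, three for a link).  `qbox_cor`, `plain_cor`, `far_cor`: the windows
around the corners are in the plane part, of quadrant type and disjoint.  `qbox_flat`, `plain_flat`: the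
same for the points (marks) of a floor or of a ceiling.
-/

set_option autoImplicit false

namespace Full.Norm
open Finset

namespace Rms
variable {K : Type*} {ρ : Rms K}

/-- the corner of a room; first: right, second: upper -/
def cor (ρ : Rms K) (a : K) (b : Bool × Bool) : ℤ × ℤ :=
  (if b.1 then ρ.x1 a else ρ.x0 a, if b.2 then ρ.y1 a else ρ.y0 a)

/-- the quadrants at the corner `b` of a row: the one of the room; of a link: all except the one beside
the link -/
def quad (l : Bool) (b : Bool × Bool) (x y : Bool) : Bool :=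
  if l then !(x == b.1 && y == !b.2) else x == !b.1 && y == !b.2

lemma nq_quad (l : Bool) (b : Bool × Bool) : nq (quad l b) = if l then 3 else 1 := by
  obtain ⟨b1, b2⟩ := b
  cases l <;> cases b1 <;> cases b2 <;> rfl

lemma adm_quad (l : Bool) (b : Bool × Bool) : QAdm (quad l b) := by
  obtain ⟨b1, b2⟩ := b
  unfold QAdm quad
  cases l <;> cases b1 <;> cases b2 <;> decide

/-- **a cap made of rooms**: `q` is the strip, `L` are the links -/
structure IsCap (ρ : Rms K) (w : ℕ) (F : Finset K) (q : K) (L : K → Bool) (D : Cap) : Prop where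
  ok : ρ.Ok w {a | a = q ∨ a ∈ F}
  hw : 1 ≤ w
  hq : q ∉ F
  hU : D.U = ρ.reg F
  hl : D.l = ρ.x0 q
  hr : D.r = ρ.x1 q
  hy : D.y = ρ.y0 q
  ht : D.t = ρ.y1 q
  Lq : L q = false
  /-- a link is narrow and a row is wide -/
  stk : ∀ a b, (a = q ∨ a ∈ F) → (b = q ∨ b ∈ F) → ρ.Stk w a b →
    (L a = false ∧ L b = true ∧ ρ.Ins w a b) ∨ (L a = true ∧ L b = false ∧ ρ.Ins w b a)
  up : ∀ a ∈ F, L a = true → ∃ b, (b = q ∨ b ∈ F) ∧ ρ.Stk w a b
  down : ∀ a ∈ F, L a = true → ∃ b, (b = q ∨ b ∈ F) ∧ ρ.Stk w b a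
  bot : ∀ b ∈ F, ¬ ρ.Stk w b q

namespace IsCap
variable {w : ℕ} {F : Finset K} {q : K} {L : K → Bool} {D : Cap}

lemma mem_R (h : ρ.IsCap w F q L D) {p : ℤ × ℤ} : p ∈ D.R ↔ ∃ a, (a = q ∨ a ∈ F) ∧ p ∈ ρ.rm a := by
  rw [Cap.mem_R', h.hU, mem_reg]
  constructor
  · rintro (⟨a, ha, h1⟩ | h1)
    · exact ⟨a, Or.inr ha, h1⟩
    · refine ⟨q, Or.inl rfl, ?_⟩
      rw [mem_rm, ← h.hl, ← h.hr, ← h.hy, ← h.ht]
      exact h1
  · rintro ⟨a, rfl | ha, h1⟩
    · right
      rw [mem_rm, ← h.hl, ← h.hr, ← h.hy, ← h.ht] at h1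
      exact h1
    · exact Or.inl ⟨a, ha, h1⟩

/-- the room meets a window around its corners -/
lemma meets_cor (h : ρ.IsCap w F q L D) {a : K} (ha : a = q ∨ a ∈ F) (b : Bool × Bool) {R : ℕ}
    (hR : 1 ≤ R) : ρ.Meets R (ρ.cor a b) a := by
  have h1 := h.ok.wd a ha
  have h2 := h.ok.ht a ha
  have h3 := h.hw
  refine ⟨(if b.1 then -1 else 0, if b.2 then -1 else 0), mem_sqr.2 ?_, ρ.mem_rm.2 ?_⟩
  · obtain ⟨b1, b2⟩ := b
    cases b1 <;> cases b2 <;> simp only [if_true, Bool.false_eq_true, if_false] <;> omega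
  · unfold cor
    obtain ⟨b1, b2⟩ := b
    cases b1 <;> cases b2 <;>
      simp only [if_true, Bool.false_eq_true, if_false, Prod.fst_add, Prod.snd_add] <;> omega

/-- a bigger window -/
lemma _root_.Full.Norm.Rms.Meets.mono {R R' : ℕ} (h : R ≤ R') {p : ℤ × ℤ} {a : K} (ha : ρ.Meets R p a) :
    ρ.Meets R' p a := by
  obtain ⟨s, hs, h1⟩ := ha
  refine ⟨s, ?_, h1⟩
  rw [mem_sqr] at hs ⊢
  omega

/-- no other room meets the windows around the corners of a row -/
lemma not_meets_row (h : ρ.IsCap w F q L D) {a c : K} (ha : a = q ∨ a ∈ F) (hc : c = q ∨ c ∈ F)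
    (hac : a ≠ c) (hL : L a = false) (b : Bool × Bool) {R : ℕ} (hR : R ≤ 2 * w) :
    ¬ ρ.Meets R (ρ.cor a b) c := by
  rintro ⟨s, hs, h1⟩
  rw [mem_sqr] at hs
  rw [mem_rm] at h1
  have e1 := h.ok.wd a ha
  have e2 := h.ok.ht a ha
  have e3 := h.hw
  have h2 : ρ.Sep w a c ∨ ρ.Ins w a c := by
    rcases h.ok.sep a ha c hc hac with h2 | h2 | h2
    · exact Or.inl h2
    · rcases h.stk a c ha hc h2 with h3 | h3
      · exact Or.inr h3.2.2
      · rw [hL] at h3
        exact absurd h3.1 (by decide)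
    · rcases h.stk c a hc ha h2 with h3 | h3
      · rw [hL] at h3
        exact absurd h3.2.1 (by decide)
      · exact Or.inr h3.2.2
  unfold Sep Ins at h2
  unfold cor at h1
  obtain ⟨b1, b2⟩ := b
  cases b1 <;> cases b2 <;>
    simp only [if_true, Bool.false_eq_true, if_false, Prod.fst_add, Prod.snd_add] at h1 <;> omega

/-- the windows around the corners of a row show one quadrant -/
lemma qbox_row (h : ρ.IsCap w F q L D) {a : K} (ha : a = q ∨ a ∈ F) (hL : L a = false)
    (b : Bool × Bool) {R : ℕ} (hR : R ≤ 2 * w) :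
    Cap.QBox D.R (ρ.cor a b) R (ρ.cor a b) (quad false b) := by
  refine ⟨adm_quad _ _, fun s hs => ?_⟩
  have h1 : ρ.cor a b + s ∈ D.R ↔ ρ.cor a b + s ∈ ρ.rm a := by
    rw [h.mem_R]
    constructor
    · rintro ⟨c, hc, h1⟩
      by_cases hac : a = c
      · rw [hac] at h1 ⊢
        exact h1
      · exact absurd ⟨s, hs, h1⟩ (h.not_meets_row ha hc hac hL b hR)
    · intro h1
      exact ⟨a, ha, h1⟩
  rw [h1, mem_rm]
  have e1 := h.ok.wd a ha
  have e2 := h.ok.ht a ha
  rw [mem_sqr] at hs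
  unfold QSet quad cor
  obtain ⟨b1, b2⟩ := b
  cases b1 <;> cases b2 <;>
    simp only [if_true, Bool.false_eq_true, if_false, Prod.fst_add, Prod.snd_add, Bool.not_true,
      Bool.not_false, Bool.and_eq_true, beq_true, beq_false, Bool.not_eq_true',
      decide_eq_true_eq, decide_eq_false_iff_not] <;> omega

/-- the row above or below a link -/
lemma row_of_link (h : ρ.IsCap w F q L D) {a : K} (ha : a = q ∨ a ∈ F) (hL : L a = true) (b2 : Bool) :
    ∃ c, (c = q ∨ c ∈ F) ∧ L c = false ∧ c ≠ a ∧ ρ.Ins w c a ∧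
      if b2 then ρ.y1 a = ρ.y0 c else ρ.y0 a = ρ.y1 c := by
  have ha' : a ∈ F := ha.resolve_left fun h1 => by rw [h1, h.Lq] at hL; exact absurd hL (by decide)
  cases b2
  · obtain ⟨c, hc, h1⟩ := h.down a ha' hL
    rcases h.stk c a hc ha h1 with h2 | h2
    · exact ⟨c, hc, h2.1, fun h3 => by rw [← h3, h2.1] at hL; exact absurd hL (by decide), h2.2.2, h1.1.symm⟩
    · rw [hL] at h2
      exact absurd h2.2.1 (by decide)
  · obtain ⟨c, hc, h1⟩ := h.up a ha' hL
    rcases h.stk a c ha hc h1 with h2 | h2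
    · rw [hL] at h2
      exact absurd h2.1 (by decide)
    · exact ⟨c, hc, h2.2.1, fun h3 => by rw [← h3, h2.2.1] at hL; exact absurd hL (by decide), h2.2.2, h1.1⟩

/-- the windows around the corners of a link show three quadrants -/
lemma qbox_link (h : ρ.IsCap w F q L D) {a : K} (ha : a = q ∨ a ∈ F) (hL : L a = true)
    (b : Bool × Bool) {R : ℕ} (hR : R ≤ w) (hR1 : 1 ≤ R) :
    Cap.QBox D.R (ρ.cor a b) R (ρ.cor a b) (quad true b) := by
  refine ⟨adm_quad _ _, fun s hs => ?_⟩
  obtain ⟨c, hc, hLc, hca, h2, h3⟩ := h.row_of_link ha hL b.2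
  have e1 := h.ok.wd a ha
  have e2 := h.ok.ht a ha
  have e3 := h.ok.wd c hc
  have e4 := h.ok.ht c hc
  have e5 := h.hw
  have h4 : ρ.Meets R (ρ.cor a b) c := by
    refine ⟨(0, if b.2 then 0 else -1), mem_sqr.2 ?_, ρ.mem_rm.2 ?_⟩
    · obtain ⟨b1, b2⟩ := b
      cases b2 <;> simp only [if_true, Bool.false_eq_true, if_false] <;> omega
    · unfold cor
      unfold Ins at h2
      obtain ⟨b1, b2⟩ := b
      cases b1 <;> cases b2 <;>
        simp only [if_true, Bool.false_eq_true, if_false, Prod.fst_add, Prod.snd_add] at h3 ⊢ <;> omega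
  have h1 : ρ.cor a b + s ∈ D.R ↔ ρ.cor a b + s ∈ ρ.rm a ∨ ρ.cor a b + s ∈ ρ.rm c := by
    rw [h.mem_R]
    constructor
    · rintro ⟨d, hd, h1⟩
      by_cases had : a = d
      · rw [had] at h1 ⊢
        exact Or.inl h1
      · by_cases hcd : c = d
        · rw [← hcd] at h1
          exact Or.inr h1
        · exact absurd (h.ok.meets_three ha hc hd hca.symm had hcd ((h.meets_cor ha b hR1).mono hR)
            (h4.mono hR) (Meets.mono hR ⟨s, hs, h1⟩)) id
    · rintro (h1 | h1)
      · exact ⟨a, ha, h1⟩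
      · exact ⟨c, hc, h1⟩
  rw [h1, mem_rm, mem_rm]
  rw [mem_sqr] at hs
  unfold Ins at h2
  unfold QSet quad cor
  obtain ⟨b1, b2⟩ := b
  cases b1 <;> cases b2 <;>
    simp only [if_true, Bool.false_eq_true, if_false, Prod.fst_add, Prod.snd_add, Bool.not_true,
      Bool.not_false, beq_true, beq_false,
      decide_eq_true_eq, decide_eq_false_iff_not, Bool.and_eq_false_iff,
      not_le, Bool.not_eq_eq_eq_not] at h3 ⊢ <;> omega

/-- **the windows around the corners** -/
theorem qbox_cor (h : ρ.IsCap w F q L D) {a : K} (ha : a = q ∨ a ∈ F) (b : Bool × Bool) {R : ℕ}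
    (hR : R ≤ w) (hR1 : 1 ≤ R) : Cap.QBox D.R (ρ.cor a b) R (ρ.cor a b) (quad (L a) b) := by
  cases hL : L a
  · exact h.qbox_row ha hL b (by omega)
  · exact h.qbox_link ha hL b hR hR1

/-- **the windows around the corners are in the plane part** -/
theorem plain_cor (h : ρ.IsCap w F q L D) {a : K} (ha : a ∈ F) (b : Bool × Bool) {R : ℕ}
    (hR : R ≤ w) : D.Plain (ρ.cor a b) R := by
  intro s hs h1
  rw [h.hl, h.hr, h.hy, h.ht] at *
  rw [mem_sqr] at hs
  have hqa : q ≠ a := fun h3 => h.hq (h3 ▸ ha)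
  have e1 := h.ok.wd a (Or.inr ha)
  have e2 := h.ok.ht a (Or.inr ha)
  have e3 := h.ok.wd q (Or.inl rfl)
  have e4 := h.ok.ht q (Or.inl rfl)
  have e5 := h.hw
  have h2 : ρ.Sep w q a ∨ (ρ.y1 q = ρ.y0 a ∧ ρ.Ins w q a) := by
    rcases h.ok.sep q (Or.inl rfl) a (Or.inr ha) hqa with h2 | h2 | h2
    · exact Or.inl h2
    · rcases h.stk q a (Or.inl rfl) (Or.inr ha) h2 with h3 | h3
      · exact Or.inr ⟨h2.1, h3.2.2⟩
      · rw [h.Lq] at h3
        exact absurd h3.1 (by decide)
    · exact absurd h2 (h.bot a ha)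
  unfold Sep Ins at h2
  unfold cor at h1 ⊢
  obtain ⟨b1, b2⟩ := b
  cases b1 <;> cases b2 <;>
    simp only [if_true, Bool.false_eq_true, if_false, Prod.fst_add, Prod.snd_add] at h1 ⊢ <;> omega

/-- **the corners are far from each other** -/
theorem far_cor (h : ρ.IsCap w F q L D) {a a' : K} (ha : a = q ∨ a ∈ F) (ha' : a' = q ∨ a' ∈ F)
    (b b' : Bool × Bool) (hne : (a, b) ≠ (a', b')) {R : ℕ} (hR : R < 2 * w) :
    ρ.cor a b - ρ.cor a' b' ∉ sqr R := by
  rw [mem_sqr]
  have e1 := h.ok.wd a ha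
  have e2 := h.ok.ht a ha
  have e3 := h.ok.wd a' ha'
  have e4 := h.ok.ht a' ha'
  have e5 := h.hw
  by_cases haa : a = a'
  · subst haa
    have hbb : b ≠ b' := fun h1 => hne (by rw [h1])
    obtain ⟨b1, b2⟩ := b
    obtain ⟨b1', b2'⟩ := b'
    unfold cor
    cases b1 <;> cases b2 <;> cases b1' <;> cases b2' <;>
      simp only [if_true, Bool.false_eq_true, if_false, Prod.fst_sub, Prod.snd_sub, ne_eq,
        not_true_eq_false] at hbb ⊢ <;> omega
  · have h2 : ρ.Sep w a a' ∨ ρ.Ins w a a' ∨ ρ.Ins w a' a := by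
      rcases h.ok.sep a ha a' ha' haa with h2 | h2 | h2
      · exact Or.inl h2
      · exact Or.inr h2.2
      · exact Or.inr h2.2.symm
    unfold Sep Ins at h2
    obtain ⟨b1, b2⟩ := b
    obtain ⟨b1', b2'⟩ := b'
    unfold cor
    cases b1 <;> cases b2 <;> cases b1' <;> cases b2' <;>
      simp only [if_true, Bool.false_eq_true, if_false, Prod.fst_sub, Prod.snd_sub] <;> omega

/-! ### points of floors and ceilings -/

end IsCap

/-- the half plane above (`u = true`, a floor) or below (`u = false`, a ceiling) -/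
def flt (u : Bool) (_ y : Bool) : Bool := y == u

lemma nq_flt (u : Bool) : nq (flt u) = 2 := by cases u <;> rfl

lemma adm_flt (u : Bool) : QAdm (flt u) := by
  unfold QAdm flt
  cases u <;> decide

/-- `P` is on the floor (`u = true`) or on the ceiling (`u = false`) of the room `a`, at distance more
than `R` from the ends and from the links there -/
structure Flat (ρ : Rms K) (F : Finset K) (q : K) (R : ℕ) (a : K) (u : Bool) (P : ℤ × ℤ) : Prop where
  y : P.2 = if u then ρ.y0 a else ρ.y1 a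
  l : ρ.x0 a + R < P.1
  r : P.1 + R < ρ.x1 a
  lk : ∀ c, (c = q ∨ c ∈ F) → (if u then ρ.y1 c = ρ.y0 a else ρ.y0 c = ρ.y1 a) →
    P.1 + R < ρ.x0 c ∨ ρ.x1 c + R < P.1

/-- the wall end before the point -/
def fme (u : Bool) (P : ℤ × ℤ) : Half (ℤ × ℤ) := if u then ((P.1 - 1, P.2), .S) else ((P.1, P.2 - 1), .N)

lemma ps_fme (u : Bool) (P : ℤ × ℤ) : ps P (fme u P) = -1 := by
  unfold ps fme
  cases u <;> simp

lemma fme_near (u : Bool) (P : ℤ × ℤ) : (fme u P).1 - P ∈ sqr 1 := by
  unfold fme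
  rw [mem_sqr]
  cases u <;> simp

lemma Flat.mono {F : Finset K} {q a : K} {u : Bool} {P : ℤ × ℤ} {R R' : ℕ} (h : R ≤ R')
    (hP : ρ.Flat F q R' a u P) : ρ.Flat F q R a u P where
  y := hP.y
  l := by have := hP.l; omega
  r := by have := hP.r; omega
  lk := fun c hc h1 => by have := hP.lk c hc h1; omega

namespace IsCap
variable {w : ℕ} {F : Finset K} {q : K} {L : K → Bool} {D : Cap}

/-- the window around a point of a floor or of a ceiling shows only the room -/
lemma not_meets_flat (h : ρ.IsCap w F q L D) {a c : K} (ha : a = q ∨ a ∈ F) (hc : c = q ∨ c ∈ F)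
    (hac : a ≠ c) {u : Bool} {P : ℤ × ℤ} {R : ℕ} (hP : ρ.Flat F q R a u P) (hR : R ≤ 2 * w) :
    ¬ ρ.Meets R P c := by
  rintro ⟨s, hs, h1⟩
  rw [mem_sqr] at hs
  rw [mem_rm] at h1
  have e1 := h.ok.wd a ha
  have e2 := h.ok.ht a ha
  have e3 := h.hw
  have hy := hP.y
  have hl := hP.l
  have hr := hP.r
  have hk := hP.lk c hc
  have h2 : ρ.Sep w a c ∨ ρ.y1 a = ρ.y0 c ∨ ρ.y1 c = ρ.y0 a := by
    rcases h.ok.sep a ha c hc hac with h2 | h2 | h2
    · exact Or.inl h2
    · exact Or.inr (Or.inl h2.1)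
    · exact Or.inr (Or.inr h2.1)
  unfold Sep at h2
  simp only [Prod.fst_add, Prod.snd_add] at h1
  cases u <;> simp only [if_true, Bool.false_eq_true, if_false] at hy hk <;> omega

/-- the windows around the points of floors and ceilings -/
theorem qbox_flat (h : ρ.IsCap w F q L D) {a : K} (ha : a = q ∨ a ∈ F) {u : Bool} {P : ℤ × ℤ} {R : ℕ}
    (hP : ρ.Flat F q R a u P) (hR : R ≤ 2 * w) : Cap.QBox D.R P R P (flt u) := by
  refine ⟨adm_flt _, fun s hs => ?_⟩
  have h1 : P + s ∈ D.R ↔ P + s ∈ ρ.rm a := by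
    rw [h.mem_R]
    constructor
    · rintro ⟨c, hc, h1⟩
      by_cases hac : a = c
      · rw [← hac] at h1
        exact h1
      · exact absurd ⟨s, hs, h1⟩ (h.not_meets_flat ha hc hac hP hR)
    · intro h1
      exact ⟨a, ha, h1⟩
  rw [h1, mem_rm]
  have e1 := h.ok.wd a ha
  have e2 := h.ok.ht a ha
  have hy := hP.y
  have hl := hP.l
  have hr := hP.r
  rw [mem_sqr] at hs
  unfold QSet flt
  cases u <;> simp only [if_true, Bool.false_eq_true, if_false, Prod.fst_add, Prod.snd_add, beq_true,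
      beq_false, Bool.not_eq_true', decide_eq_true_eq, decide_eq_false_iff_not] at hy ⊢ <;> omega

/-- the windows around the points of floors and ceilings are in the plane part -/
theorem plain_flat (h : ρ.IsCap w F q L D) {a : K} {u : Bool} (ha : (a = q ∧ u = false) ∨ a ∈ F)
    {P : ℤ × ℤ} {R : ℕ} (hP : ρ.Flat F q R a u P) (hR : R < 2 * w) : D.Plain P R := by
  intro s hs h1
  rw [h.hl, h.hr, h.hy, h.ht] at *
  rw [mem_sqr] at hs
  have hy := hP.y
  have hl := hP.l
  have hr := hP.r
  have e3 := h.ok.wd q (Or.inl rfl)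
  have e4 := h.ok.ht q (Or.inl rfl)
  have e5 := h.hw
  rcases ha with ⟨rfl, rfl⟩ | ha
  · simp only [Bool.false_eq_true, if_false, Prod.fst_add, Prod.snd_add] at hy h1 ⊢
    omega
  · have hqa : q ≠ a := fun h3 => h.hq (h3 ▸ ha)
    have e1 := h.ok.wd a (Or.inr ha)
    have e2 := h.ok.ht a (Or.inr ha)
    have h2 : ρ.Sep w q a ∨ (ρ.y1 q = ρ.y0 a ∧ ρ.Ins w q a) := by
      rcases h.ok.sep q (Or.inl rfl) a (Or.inr ha) hqa with h2 | h2 | h2
      · exact Or.inl h2
      · rcases h.stk q a (Or.inl rfl) (Or.inr ha) h2 with h3 | h3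
        · exact Or.inr ⟨h2.1, h3.2.2⟩
        · rw [h.Lq] at h3
          exact absurd h3.1 (by decide)
      · exact absurd h2 (h.bot a ha)
    unfold Sep Ins at h2
    cases u <;>
      simp only [if_true, Bool.false_eq_true, if_false, Prod.fst_add, Prod.snd_add] at hy h1 ⊢ <;> omega

/-- the points of floors and ceilings are far from the corners -/
theorem far_flat (h : ρ.IsCap w F q L D) {a a' : K} (ha : a = q ∨ a ∈ F) (ha' : a' = q ∨ a' ∈ F)
    (b' : Bool × Bool) {u : Bool} {P : ℤ × ℤ} {R : ℕ} (hP : ρ.Flat F q R a u P) (hR : R < 2 * w) :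
    P - ρ.cor a' b' ∉ sqr R ∧ ρ.cor a' b' - P ∉ sqr R := by
  rw [mem_sqr, mem_sqr]
  have e1 := h.ok.wd a ha
  have e2 := h.ok.ht a ha
  have e3 := h.ok.wd a' ha'
  have e4 := h.ok.ht a' ha'
  have e5 := h.hw
  have hy := hP.y
  have hl := hP.l
  have hr := hP.r
  have hk := hP.lk a' ha'
  by_cases haa : a = a'
  · subst haa
    obtain ⟨b1', b2'⟩ := b'
    unfold cor
    cases u <;> cases b1' <;> cases b2' <;>
      simp only [if_true, Bool.false_eq_true, if_false, Prod.fst_sub, Prod.snd_sub] at hy ⊢ <;> omega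
  · have h2 : ρ.Sep w a a' ∨ ρ.y1 a = ρ.y0 a' ∨ ρ.y1 a' = ρ.y0 a := by
      rcases h.ok.sep a ha a' ha' haa with h2 | h2 | h2
      · exact Or.inl h2
      · exact Or.inr (Or.inl h2.1)
      · exact Or.inr (Or.inr h2.1)
    unfold Sep at h2
    obtain ⟨b1', b2'⟩ := b'
    unfold cor
    cases u <;> cases b1' <;> cases b2' <;>
      simp only [if_true, Bool.false_eq_true, if_false, Prod.fst_sub, Prod.snd_sub] at hy hk ⊢ <;> omega

/-- the wall end before a point of a floor or of a ceiling -/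
theorem bd_flat (h : ρ.IsCap w F q L D) {a : K} {u : Bool} (ha : (a = q ∧ u = false) ∨ a ∈ F)
    {P : ℤ × ℤ} {R : ℕ} (hP : ρ.Flat F q R a u P) (hR : R < 2 * w) (hR1 : 1 ≤ R) :
    Bd D.R D.g (fme u P) ∧ fme u P ∉ D.C := by
  have h1 := h.qbox_flat (ha.imp_left And.left) hP (by omega)
  have h2 := h.plain_flat ha hP hR
  have h3 : (fme u P).1 ∈ D.R := by
    cases u
    · have h3 := (h1.2 (0, -1) (mem_sqr.2 (by simp only; omega))).2
        (by unfold QSet flt; simp)
      have e : (fme false P).1 = P + (0, -1) := Prod.ext (by simp [fme]) (by simp [fme]; rfl)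
      rw [e]; exact h3
    · have h3 := (h1.2 (-1, 0) (mem_sqr.2 (by simp only; omega))).2
        (by unfold QSet flt; simp)
      have e : (fme true P).1 = P + (-1, 0) := Prod.ext (by simp [fme]; rfl) (by simp [fme])
      rw [e]; exact h3
  have h4 : (fme u P).1 + (fme u P).2.vec ∉ D.R := by
    cases u
    · intro h4
      have e : (fme false P).1 + (fme false P).2.vec = P + (0, 0) :=
        Prod.ext (by simp [fme, Dir.vec]) (by simp [fme, Dir.vec])
      rw [e] at h4
      have h5 := (h1.2 (0, 0) (mem_sqr.2 (by simp only; omega))).1 h4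
      unfold QSet flt at h5
      simp at h5
    · intro h4
      have e : (fme true P).1 + (fme true P).2.vec = P + (-1, -1) :=
        Prod.ext (by simp [fme, Dir.vec]; rfl) (by simp [fme, Dir.vec])
      rw [e] at h4
      have h5 := (h1.2 (-1, -1) (mem_sqr.2 (by simp only; omega))).1 h4
      unfold QSet flt at h5
      simp at h5
  have h5 : (fme u P).1 - P ∈ sqr R := by
    have h5 := fme_near u P
    rw [mem_sqr] at h5 ⊢
    omega
  have h6 := h2 _ h5
  rw [add_sub_cancel] at h6
  refine ⟨⟨h3, Cap.glue_wall (Cap.nb_plain h3 (fun h7 => (h6 h7).1) _) h4⟩, fun h7 => ?_⟩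
  obtain ⟨h8, h9, -⟩ := Cap.mem_C.1 h7
  have h10 := h6 ⟨h8, h9.ge, by rw [h9]; exact D.hyt⟩
  omega

/-- the region is of quadrant type around every tile -/
lemma pt_quad (h : ρ.IsCap w F q L D) {p : ℤ × ℤ} (hp : p ∈ D.R) : ∃ v Q, Cap.QBox D.R p w v Q := by
  classical
  have h1 : D.R = ρ.reg (insert q F) := by
    ext p
    rw [h.mem_R, mem_reg]
    simp only [mem_insert]
  rw [h1] at hp ⊢
  exact h.ok.quad h.hw _ (fun a ha => mem_insert.1 ha) hp

end IsCap

/-! ### the list of the corners -/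

/-- the corners of the rooms `F` -/
abbrev Cnr (F : Finset K) := {a // a ∈ F} × (Bool × Bool)

lemma card_cnr (F : Finset K) : Fintype.card (Cnr F) = 4 * F.card := by
  rw [Fintype.card_prod, Fintype.card_prod, Fintype.card_coe, Fintype.card_bool]
  ring

/-- **the convex corners**: four for every row -/
lemma card_one (F : Finset K) (L : K → Bool) :
    (univ.filter fun c : Cnr F => nq (quad (L c.1) c.2) = 1).card = 4 * (F.filter fun a => L a = false).card := by
  have h1 : (univ.filter fun c : Cnr F => nq (quad (L c.1) c.2) = 1) =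
      (univ.filter fun a : {a // a ∈ F} => L a = false) ×ˢ univ := by
    ext ⟨a, b⟩
    simp only [mem_filter, mem_univ, true_and, mem_product, nq_quad, and_true]
    cases L a <;> simp
  rw [h1, card_product, card_univ, Fintype.card_prod, Fintype.card_bool]
  have h2 : (univ.filter fun a : {a // a ∈ F} => L a = false).card = (F.filter fun a => L a = false).card := by
    rw [← card_map (Function.Embedding.subtype _)]
    congr 1
    ext a
    simp only [mem_map, mem_filter, mem_univ, true_and, Function.Embedding.coe_subtype, Subtype.exists,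
      exists_and_right, exists_eq_right]
    constructor
    · rintro ⟨h3, h4⟩
      exact ⟨h3, h4⟩
    · rintro ⟨h3, h4⟩
      exact ⟨h3, h4⟩
  rw [h2]
  ring

/-- **the reflex corners**: four for every link -/
lemma card_three (F : Finset K) (L : K → Bool) :
    (univ.filter fun c : Cnr F => nq (quad (L c.1) c.2) = 3).card = 4 * (F.filter fun a => L a = true).card := by
  have h1 : (univ.filter fun c : Cnr F => nq (quad (L c.1) c.2) = 3) =
      (univ.filter fun a : {a // a ∈ F} => L a = true) ×ˢ univ := by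
    ext ⟨a, b⟩
    simp only [mem_filter, mem_univ, true_and, mem_product, nq_quad, and_true]
    cases L a <;> simp
  rw [h1, card_product, card_univ, Fintype.card_prod, Fintype.card_bool]
  have h2 : (univ.filter fun a : {a // a ∈ F} => L a = true).card = (F.filter fun a => L a = true).card := by
    rw [← card_map (Function.Embedding.subtype _)]
    congr 1
    ext a
    simp only [mem_map, mem_filter, mem_univ, true_and, Function.Embedding.coe_subtype, Subtype.exists,
      exists_and_right, exists_eq_right]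
    constructor
    · rintro ⟨h3, h4⟩
      exact ⟨h3, h4⟩
    · rintro ⟨h3, h4⟩
      exact ⟨h3, h4⟩
  rw [h2]
  ring

end Rms

end Full.Norm
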