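import Pool.Agent.Full.Norm.RmsCorner
import Pool.Agent.Full.Norm.RmsEnv

/-!
# Every corner of a cap made of rooms is special
-/

set_option autoImplicit false

namespace Full.Norm
open Finset

namespace Rms
variable {K : Type*} {ρ : Rms K}

/-- a corner of a room in the form of `cor` -/
lemma exists_cor {a : K} {v : ℤ × ℤ} (h1 : v.1 = ρ.x0 a ∨ v.1 = ρ.x1 a)
    (h2 : v.2 = ρ.y0 a ∨ v.2 = ρ.y1 a) : ∃ b : Bool × Bool, ρ.cor a b = v := by
  rcases h1 with h1 | h1 <;> rcases h2 with h2 | h2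
  · exact ⟨(false, false), Prod.ext h1.symm h2.symm⟩
  · exact ⟨(false, true), Prod.ext h1.symm h2.symm⟩
  · exact ⟨(true, false), Prod.ext h1.symm h2.symm⟩
  · exact ⟨(true, true), Prod.ext h1.symm h2.symm⟩

/-- **every corner of a cap made of rooms is a corner of a room** -/
theorem IsCap.corner_mem {w : ℕ} {F : Finset K} {q : K} {L : K → Bool} {D : Cap}
    (h : ρ.IsCap w F q L D) (v : ℤ × ℤ)
    (hv : #{t ∈ Cap.Env.around v | t ∈ D.R} = 1 ∨ #{t ∈ Cap.Env.around v | t ∈ D.R} = 3) :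
    (v.1 = D.l ∨ v.1 = D.r) ∧ D.y ≤ v.2 ∧ v.2 ≤ D.t ∨ ∃ a ∈ F, ∃ b : Bool × Bool, ρ.cor a b = v := by
  rcases h.ok.corner_cap (F := F) (q := q) (fun a ha => Or.inr ha) (Or.inl rfl) h.hU h.hl h.hr h.hy h.ht
    hv with h1 | ⟨a, ha, h1, h2⟩
  · exact Or.inl h1
  · exact Or.inr ⟨a, ha, exists_cor h1 h2⟩

end Rms

end Full.Norm
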