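import Pool.Agent.Full.Norm.RmsEnv

/-!
# Special points with an arbitrary finite index type

`Cap.EnvI D p ι`: as `Cap.Env`, the special points are indexed by a finite type `ι`; `toEnv`, `Ok.toEnv`:
the transfer.  `Rms.IsCap.env`: the special points of a cap made of rooms (the corners of the rooms and
the marks `P j` on floors and ceilings); `Rms.IsCap.env_ok`: the hypotheses `Cap.Env.Ok`.
-/

set_option autoImplicit false

namespace Full.Norm
open Finset Function

/-- the special points, with an arbitrary index type -/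
structure Cap.EnvI (D : Cap) (p : ℕ) (ι : Type*) where
  /-- the vertices: corners and marks -/
  V : ι → ℤ × ℤ
  /-- the region around the special point -/
  Q : ι → Bool → Bool → Bool
  /-- the special points which are marks -/
  M : Finset ι
  /-- the wall end before the mark, in the order of `next` -/
  me : ι → Half (ℤ × ℤ)
  /-- the positions of the screening pairs -/
  Y : Fin p → Finset (Half (ℤ × ℤ))
  /-- the marks near the positions `Y i` -/
  N : Fin p → Finset ι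

namespace Cap.EnvI
variable {D : Cap} {p : ℕ} {ι : Type*} [Fintype ι] (E : D.EnvI p ι)

/-- the same with the index type `Fin S` -/
noncomputable def toEnv : D.Env p where
  S := Fintype.card ι
  V := fun i => E.V ((Fintype.equivFin ι).symm i)
  Q := fun i => E.Q ((Fintype.equivFin ι).symm i)
  M := E.M.map (Fintype.equivFin ι).toEmbedding
  me := fun i => E.me ((Fintype.equivFin ι).symm i)
  Y := E.Y
  N := fun i => (E.N i).map (Fintype.equivFin ι).toEmbedding

/-- the indices -/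
noncomputable def eq : ι ≃ Fin E.toEnv.S := Fintype.equivFin ι

lemma mem_M {c : Fin E.toEnv.S} : c ∈ E.toEnv.M ↔ E.eq.symm c ∈ E.M := by
  show c ∈ E.M.map E.eq.toEmbedding ↔ _
  rw [mem_map]
  constructor
  · rintro ⟨a, ha, rfl⟩
    simpa using ha
  · intro h
    exact ⟨_, h, by simp⟩

lemma mem_N {i : Fin p} {c : Fin E.toEnv.S} : c ∈ E.toEnv.N i ↔ E.eq.symm c ∈ E.N i := by
  show c ∈ (E.N i).map E.eq.toEmbedding ↔ _
  rw [mem_map]
  constructor
  · rintro ⟨a, ha, rfl⟩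
    simpa using ha
  · intro h
    exact ⟨_, h, by simp⟩

@[simp] lemma card_M : E.toEnv.M.card = E.M.card := card_map _

/-- the charge of the marks -/
lemma μ_toEnv (u : Half (ℤ × ℤ)) : E.toEnv.μ u = ∑ c ∈ E.M, if u = E.me c then 1 else 0 := by
  unfold Cap.Env.μ
  show ∑ c ∈ E.M.map (Fintype.equivFin ι).toEmbedding, _ = _
  rw [sum_map]
  refine sum_congr rfl fun c _ => ?_
  show (if u = E.me ((Fintype.equivFin ι).symm ((Fintype.equivFin ι) c)) then (1 : ℤ) else 0) = _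
  rw [Equiv.symm_apply_apply]

/-- the charges -/
lemma chg_toEnv (a : Fin p → Half (ℤ × ℤ)) (u : Half (ℤ × ℤ)) : E.toEnv.chg a u =
    (∑ c ∈ E.M, if u = E.me c then 1 else 0) -
      ∑ i, ((if u = a i then 1 else 0) + (if next D.g u = a i then 1 else 0)) := by
  unfold Cap.Env.chg
  rw [μ_toEnv]

/-- the geometric hypotheses -/
structure Ok (K n w A m R : ℕ) : Prop where
  tame : D.Tame w A
  hm : 1 ≤ m
  hmR : 100 * m + 100 ≤ R
  hRw : 4 * R ≤ w
  hn : n ≤ K * m
  hA : A ≤ K * m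
  hRn : R ≤ n
  hS : Fintype.card ι ≤ K
  plain : ∀ c, D.Plain (E.V c) R
  qbox : ∀ c, QBox D.R (E.V c) R (E.V c) (E.Q c)
  kind : ∀ c, (c ∈ E.M ∧ nq (E.Q c) = 2) ∨ (c ∉ E.M ∧ (nq (E.Q c) = 1 ∨ nq (E.Q c) = 3))
  far : ∀ c c', c ≠ c' → E.V c - E.V c' ∉ sqr (2 * R + 2)
  corner : ∀ v : ℤ × ℤ, (#{t ∈ Env.around v | t ∈ D.R} = 1 ∨ #{t ∈ Env.around v | t ∈ D.R} = 3) →
    (v.1 = D.l ∨ v.1 = D.r) ∧ D.y ≤ v.2 ∧ v.2 ≤ D.t ∨ ∃ c, c ∉ E.M ∧ E.V c = v
  bal : #{c : ι | nq (E.Q c) = 1} = #{c : ι | nq (E.Q c) = 3}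
  mark : ∀ c ∈ E.M, (E.me c).1 - E.V c ∈ sqr 1 ∧ Bd D.R D.g (E.me c) ∧ E.me c ∉ D.C ∧
    Norm.ps (E.V c) (E.me c) = -1
  bd : ∀ i, ∀ y ∈ E.Y i, Bd D.R D.g y ∧ y ∉ D.C
  yplain : ∀ i, ∀ y ∈ E.Y i, D.Plain y.1 R
  yq : ∀ i, ∀ y ∈ E.Y i, ∃ v Q, QBox D.R y.1 R v Q
  card : ∀ i, (E.Y i).card ≤ K * n
  ysep : ∀ i j, i ≠ j → ∀ y ∈ E.Y i, ∀ y' ∈ E.Y j, y.1 - y'.1 ∉ sqr (4 * R)
  near : ∀ i, ∀ y ∈ E.Y i, ∀ c ∈ E.M, y.1 - E.V c ∈ sqr R → c ∈ E.N i
  hN : ∀ i, E.N i ⊆ E.M
  hN' : ∀ i j, i ≠ j → Disjoint (E.N i) (E.N j)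

/-- the number of the special points of a kind -/
lemma card_toEnv (k : ℤ) : #{c : Fin E.toEnv.S | nq (E.toEnv.Q c) = k} = #{c : ι | nq (E.Q c) = k} := by
  rw [← card_map E.eq.toEmbedding]
  congr 1
  ext c
  constructor
  · intro h
    exact mem_map.2 ⟨E.eq.symm c, mem_filter.2 ⟨mem_univ _, (mem_filter.1 h).2⟩, by simp⟩
  · intro h
    obtain ⟨a, ha, rfl⟩ := mem_map.1 h
    refine mem_filter.2 ⟨mem_univ _, ?_⟩
    have h1 := (mem_filter.1 ha).2
    show nq (E.Q (E.eq.symm (E.eq a))) = k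
    rw [Equiv.symm_apply_apply]
    exact h1

variable {E}

/-- **the transfer** -/
theorem Ok.toEnv {K n w A m R : ℕ} (h : E.Ok K n w A m R) : E.toEnv.Ok K n w A m R where
  tame := h.tame
  hm := h.hm
  hmR := h.hmR
  hRw := h.hRw
  hn := h.hn
  hA := h.hA
  hRn := h.hRn
  hS := h.hS
  plain := fun c => h.plain _
  qbox := fun c => h.qbox _
  kind := fun c => by
    rcases h.kind (E.eq.symm c) with h1 | h1
    · exact (if_pos (E.mem_M.2 h1.1)).mpr h1.2
    · exact (if_neg (fun h2 => h1.1 (E.mem_M.1 h2))).mpr h1.2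
  far := fun c c' hc => h.far _ _ fun h1 => hc (E.eq.symm.injective h1)
  corner := fun v hv => by
    rcases h.corner v hv with h1 | ⟨c, h1, h2⟩
    · exact Or.inl h1
    · refine Or.inr ⟨E.eq c, fun h3 => h1 ?_, ?_⟩
      · have h4 := E.mem_M.1 h3
        rwa [Equiv.symm_apply_apply] at h4
      · show E.V (E.eq.symm (E.eq c)) = v
        rw [Equiv.symm_apply_apply]
        exact h2
  bal := by rw [card_toEnv, card_toEnv]; exact h.bal
  mark := fun c hc => h.mark _ (E.mem_M.1 hc)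
  bd := h.bd
  yplain := h.yplain
  yq := h.yq
  card := h.card
  ysep := h.ysep
  near := fun i y hy c hc h1 => E.mem_N.2 (h.near i y hy _ (E.mem_M.1 hc) h1)
  hN := fun i c hc => E.mem_M.2 (h.hN i (E.mem_N.1 hc))
  hN' := fun i j hij => by
    rw [Finset.disjoint_left]
    intro c hc hc'
    exact Finset.disjoint_left.1 (h.hN' i j hij) (E.mem_N.1 hc) (E.mem_N.1 hc')

end Cap.EnvI

/-! ### caps made of rooms -/

namespace Rms
variable {K₁ : Type*} (ρ : Rms K₁) {D : Cap} {p : ℕ} {μ : Type*}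

/-- **the special points of a cap made of rooms**: the corners and the marks `P j` on floors (`u j = true`)
and on ceilings -/
def env (D : Cap) (F : Finset K₁) (L : K₁ → Bool) [Fintype μ] (P : μ → ℤ × ℤ) (u : μ → Bool)
    (Y : Fin p → Finset (Half (ℤ × ℤ))) (N : Fin p → Finset μ) : D.EnvI p (Cnr F ⊕ μ) where
  V := Sum.elim (fun c => ρ.cor c.1 c.2) P
  Q := Sum.elim (fun c => quad (L c.1) c.2) fun j => flt (u j)
  M := univ.map Embedding.inr
  me := Sum.elim (fun c => (ρ.cor c.1 c.2, .N)) fun j => fme (u j) (P j)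
  Y := Y
  N := fun i => (N i).map Embedding.inr

variable {ρ} {F : Finset K₁} {L : K₁ → Bool} [Fintype μ] {P : μ → ℤ × ℤ} {u : μ → Bool}
  {Y : Fin p → Finset (Half (ℤ × ℤ))} {N : Fin p → Finset μ}

lemma env_card_M : (ρ.env D F L P u Y N).M.card = Fintype.card μ := by
  show (univ.map Embedding.inr : Finset (Cnr F ⊕ μ)).card = _
  rw [card_map, card_univ]

/-- the charges -/
lemma env_chg (a : Fin p → Half (ℤ × ℤ)) (x : Half (ℤ × ℤ)) : (ρ.env D F L P u Y N).toEnv.chg a x =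
    (∑ j, if x = fme (u j) (P j) then 1 else 0) -
      ∑ i, ((if x = a i then 1 else 0) + (if next D.g x = a i then 1 else 0)) := by
  rw [Cap.EnvI.chg_toEnv]
  congr 1
  show ∑ c ∈ (univ.map Embedding.inr : Finset (Cnr F ⊕ μ)), _ = _
  rw [sum_map]
  rfl

lemma card_env (k : ℤ) (hk : k ≠ 2) : #{c : Cnr F ⊕ μ | nq ((ρ.env D F L P u Y N).Q c) = k} =
    #{c : Cnr F | nq (quad (L c.1) c.2) = k} := by
  rw [← card_map (Embedding.inl : Cnr F ↪ Cnr F ⊕ μ)]
  congr 1
  ext c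
  rw [mem_filter, mem_map]
  constructor
  · rintro ⟨-, h⟩
    rcases c with c | c
    · exact ⟨c, mem_filter.2 ⟨mem_univ _, h⟩, rfl⟩
    · exact absurd ((nq_flt (u c)).symm.trans h) hk.symm
  · rintro ⟨a, ha, rfl⟩
    exact ⟨mem_univ _, (mem_filter.1 ha).2⟩

/-- **the hypotheses of the norm bound for a cap made of rooms** -/
theorem IsCap.env_ok {w : ℕ} {q : K₁} (h : ρ.IsCap w F q L D) {K n A m R : ℕ}
    (tame : D.Tame w A) (hm : 1 ≤ m) (hmR : 100 * m + 100 ≤ R) (hRw : 4 * R ≤ w) (hn : n ≤ K * m)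
    (hA : A ≤ K * m) (hRn : R ≤ n) (hS : 4 * F.card + Fintype.card μ ≤ K)
    (corner : ∀ v : ℤ × ℤ, (#{t ∈ Cap.Env.around v | t ∈ D.R} = 1 ∨ #{t ∈ Cap.Env.around v | t ∈ D.R} = 3) →
      (v.1 = D.l ∨ v.1 = D.r) ∧ D.y ≤ v.2 ∧ v.2 ≤ D.t ∨ ∃ a ∈ F, ∃ b, ρ.cor a b = v)
    (bal : (F.filter fun a => L a = false).card = (F.filter fun a => L a = true).card)
    (room : μ → K₁) (hroom : ∀ j, (room j = q ∧ u j = false) ∨ room j ∈ F)
    (flat : ∀ j, ρ.Flat F q (2 * R + 2) (room j) (u j) (P j))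
    (far : ∀ j j', j ≠ j' → P j - P j' ∉ sqr (2 * R + 2))
    (bd : ∀ i, ∀ y ∈ Y i, Bd D.R D.g y ∧ y ∉ D.C) (yplain : ∀ i, ∀ y ∈ Y i, D.Plain y.1 R)
    (card : ∀ i, (Y i).card ≤ K * n)
    (ysep : ∀ i j, i ≠ j → ∀ y ∈ Y i, ∀ y' ∈ Y j, y.1 - y'.1 ∉ sqr (4 * R))
    (near : ∀ i, ∀ y ∈ Y i, ∀ j, y.1 - P j ∈ sqr R → j ∈ N i)
    (hN' : ∀ i j, i ≠ j → Disjoint (N i) (N j)) :
    (ρ.env D F L P u Y N).toEnv.Ok K n w A m R := by
  refine Cap.EnvI.Ok.toEnv ?_
  have hw := h.hw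
  exact
  { tame := tame
    hm := hm
    hmR := hmR
    hRw := hRw
    hn := hn
    hA := hA
    hRn := hRn
    hS := by
      rw [Fintype.card_sum, card_cnr]
      exact hS
    plain := by
      rintro (c | j)
      · exact h.plain_cor c.1.2 c.2 (by omega)
      · exact h.plain_flat (hroom j) ((flat j).mono (by omega)) (by omega)
    qbox := by
      rintro (c | j)
      · exact h.qbox_cor (Or.inr c.1.2) c.2 (by omega) (by omega)
      · exact h.qbox_flat ((hroom j).imp_left And.left) ((flat j).mono (by omega)) (by omega)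
    kind := by
      rintro (c | j)
      · refine Or.inr ⟨fun h1 => ?_, ?_⟩
        · obtain ⟨j, -, h2⟩ := mem_map.1 h1
          exact absurd h2 (by simp)
        · show nq (quad (L c.1) c.2) = 1 ∨ nq (quad (L c.1) c.2) = 3
          rw [nq_quad]
          cases L c.1 <;> simp
      · exact Or.inl ⟨mem_map.2 ⟨j, mem_univ _, rfl⟩, nq_flt _⟩
    far := by
      rintro (c | j) (c' | j') hne
      · refine h.far_cor (Or.inr c.1.2) (Or.inr c'.1.2) c.2 c'.2 (fun h1 => hne ?_) (by omega)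
        obtain ⟨⟨a, ha⟩, b⟩ := c
        obtain ⟨⟨a', ha'⟩, b'⟩ := c'
        simp only [Prod.mk.injEq] at h1
        obtain ⟨rfl, rfl⟩ := h1
        rfl
      · exact (h.far_flat ((hroom j').imp_left And.left) (Or.inr c.1.2) c.2 (flat j') (by omega)).2
      · exact (h.far_flat ((hroom j).imp_left And.left) (Or.inr c'.1.2) c'.2 (flat j) (by omega)).1
      · exact far j j' fun h1 => hne (by rw [h1])
    corner := fun v hv => by
      rcases corner v hv with h1 | ⟨a, ha, b, h1⟩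
      · exact Or.inl h1
      · refine Or.inr ⟨Sum.inl (⟨a, ha⟩, b), fun h2 => ?_, h1⟩
        obtain ⟨j, -, h3⟩ := mem_map.1 h2
        exact absurd h3 (by simp)
    bal := by
      rw [card_env 1 (by decide), card_env 3 (by decide), card_one, card_three, bal]
    mark := fun c hc => by
      obtain ⟨j, -, rfl⟩ := mem_map.1 hc
      have h1 := h.bd_flat (hroom j) (flat j) (by omega) (by omega)
      exact ⟨fme_near _ _, h1.1, h1.2, ps_fme _ _⟩
    bd := bd
    yplain := yplain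
    yq := fun i y hy => by
      obtain ⟨v, Q, h1, h2⟩ := h.pt_quad (bd i y hy).1.1
      refine ⟨v, Q, h1, fun s hs => h2 s ?_⟩
      rw [mem_sqr] at hs ⊢
      omega
    card := card
    ysep := ysep
    near := fun i y hy c hc h1 => by
      obtain ⟨j, -, rfl⟩ := mem_map.1 hc
      exact mem_map.2 ⟨j, near i y hy j h1, rfl⟩
    hN := fun i c hc => by
      obtain ⟨j, -, rfl⟩ := mem_map.1 hc
      exact mem_map.2 ⟨j, mem_univ _, rfl⟩
    hN' := fun i j hij => by
      rw [Finset.disjoint_left]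
      intro c hc hc'
      obtain ⟨k, hk, rfl⟩ := mem_map.1 hc
      obtain ⟨k', hk', h1⟩ := mem_map.1 hc'
      have h2 : k' = k := Sum.inr_injective h1
      rw [h2] at hk'
      exact Finset.disjoint_left.1 (hN' i j hij) hk hk' }

end Rms

end Full.Norm
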