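import Pool.Agent.Full.Norm.Double

/-!
# Networks of isomorphic regions
-/

set_option autoImplicit false

namespace Full.Norm
open Finset Function

variable {τ τ' : Type*} [DecidableEq τ] [DecidableEq τ']

/-- an isomorphism of the region `(T, g)` onto `(T', g')`: a map of the tiles and an involution of the
directions which preserves the tile weights -/
structure Iso (T : Finset τ) (g : Half τ → Half τ) (T' : Finset τ') (g' : Half τ' → Half τ')
    (f : τ → τ') (r : Dir → Dir) : Prop where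
  inv : ∀ d, r (r d) = d
  tw : ∀ (K : ℝ) (p : Dir → Bool), Full.tw K (fun d => p (r d)) = Full.tw K p
  inj : ∀ t ∈ T, ∀ t' ∈ T, f t = f t' → t = t'
  img : T' = T.image f
  glue : ∀ x : Half τ, x.1 ∈ T → g' (f x.1, r x.2) = (f (g x).1, r (g x).2)

/-- the tile weight is invariant under the reflection of the tile -/
lemma tw_flip' (K : ℝ) (p : Dir → Bool) : Full.tw K (fun d => p d.flip) = Full.tw K p := by
  unfold Full.tw
  simp only [Dir.flip]
  cases p .E <;> cases p .N <;> cases p .W <;> cases p .S <;> rfl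

/-- the map of the half edges -/
def hmap (f : τ → τ') (r : Dir → Dir) (x : Half τ) : Half τ' := (f x.1, r x.2)

namespace Iso
variable {T : Finset τ} {g : Half τ → Half τ} {T' : Finset τ'} {g' : Half τ' → Half τ'}
  {f : τ → τ'} {r : Dir → Dir} (I : Iso T g T' g' f r)
include I

lemma r_inj {d d' : Dir} (h : r d = r d') : d = d' := by rw [← I.inv d, h, I.inv]

lemma hmap_inj {x y : Half τ} (hx : x.1 ∈ T) (hy : y.1 ∈ T) (h : hmap f r x = hmap f r y) :
    x = y := Prod.ext (I.inj _ hx _ hy (congrArg Prod.fst h)) (I.r_inj (congrArg Prod.snd h))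

lemma mem {x : Half τ} (hx : x.1 ∈ T) : (hmap f r x).1 ∈ T' := by
  rw [I.img]
  exact mem_image_of_mem f hx

lemma surj {z : Half τ'} (hz : z.1 ∈ T') : ∃ x : Half τ, x.1 ∈ T ∧ hmap f r x = z := by
  rw [I.img] at hz
  obtain ⟨t, ht, h⟩ := mem_image.1 hz
  exact ⟨(t, r z.2), ht, Prod.ext h (I.inv z.2)⟩

lemma glue_hmap {x : Half τ} (hx : x.1 ∈ T) : g' (hmap f r x) = hmap f r (g x) := I.glue x hx

lemma hs_eq : hs T' = (hs T).image (hmap f r) := by
  ext z
  rw [mem_image, mem_hs]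
  constructor
  · intro hz
    obtain ⟨x, hx, rfl⟩ := I.surj hz
    exact ⟨x, mem_hs.2 hx, rfl⟩
  · rintro ⟨x, hx, rfl⟩
    exact I.mem (mem_hs.1 hx)

lemma mem_img {O : Finset (Half τ)} (hO : O ⊆ hs T) {x : Half τ} (hx : x.1 ∈ T) :
    hmap f r x ∈ O.image (hmap f r) ↔ x ∈ O := by
  rw [mem_image]
  constructor
  · rintro ⟨y, hy, h⟩
    rwa [← I.hmap_inj (mem_hs.1 (hO hy)) hx h]
  · intro h
    exact ⟨x, h, rfl⟩

lemma netw_eq (K : ℝ) {F : Half τ → Bool → ℂ} {F' : Half τ' → Bool → ℂ}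
    (hF : ∀ x : Half τ, x.1 ∈ T → ∀ b, F' (hmap f r x) b = F x b) {O : Finset (Half τ)}
    (hO : O ⊆ hs T) : netw T' K F' (O.image (hmap f r)) = netw T K F O := by
  unfold netw
  congr 1
  · have e1 : ∀ t ∈ T, Full.tw K (fun d => decide ((f t, d) ∈ O.image (hmap f r))) =
        Full.tw K (fun d => decide ((t, d) ∈ O)) := by
      intro t ht
      rw [← I.tw K (fun d => decide ((f t, d) ∈ O.image (hmap f r)))]
      congr 1
      funext d
      rw [decide_eq_decide]
      exact I.mem_img hO (x := (t, d)) ht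
    rw [I.img, prod_image I.inj]
    exact prod_congr rfl e1
  · rw [I.hs_eq, prod_image fun x hx y hy h => I.hmap_inj (mem_hs.1 hx) (mem_hs.1 hy) h]
    refine prod_congr rfl fun x hx => ?_
    rw [hF x (mem_hs.1 hx)]
    congr 1
    rw [decide_eq_decide]
    exact I.mem_img hO (mem_hs.1 hx)

/-- **the networks of isomorphic regions are equal** -/
theorem net_eq (K : ℝ) {F : Half τ → Bool → ℂ} {F' : Half τ' → Bool → ℂ}
    (hF : ∀ x : Half τ, x.1 ∈ T → ∀ b, F' (hmap f r x) b = F x b) (hG : Glu T g) :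
    net T' g' K F' = net T g K F := by
  rw [net_eq_cons, net_eq_cons]
  symm
  refine sum_bij' (fun O _ => O.image (hmap f r)) (fun O _ => (hs T).filter fun x => hmap f r x ∈ O)
    ?_ ?_ ?_ ?_ ?_
  · intro O hO
    rw [Net.mem_Cons] at hO ⊢
    obtain ⟨h1, h2⟩ := hO
    constructor
    · intro z hz
      obtain ⟨x, hx, rfl⟩ := mem_image.1 hz
      exact mem_hs.2 (I.mem (mem_hs.1 (h1 hx)))
    · intro z hz hne
      obtain ⟨x, hx, rfl⟩ := I.surj (mem_hs.1 hz)
      rw [I.glue_hmap hx] at hne ⊢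
      rw [I.mem_img h1 (hG.mem x hx), I.mem_img h1 hx]
      exact h2 x (mem_hs.2 hx) fun h => hne (by rw [h])
  · intro O hO
    rw [Net.mem_Cons] at hO ⊢
    obtain ⟨h1, h2⟩ := hO
    refine ⟨filter_subset _ _, fun x hx hne => ?_⟩
    have hx' := mem_hs.1 hx
    have hgx : g x ∈ hs T := mem_hs.2 (hG.mem x hx')
    have h3 := h2 (hmap f r x) (mem_hs.2 (I.mem hx'))
    rw [I.glue_hmap hx'] at h3
    have h4 := h3 fun h => hne (I.hmap_inj (hG.mem x hx') hx' h)
    rw [mem_filter, mem_filter]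
    tauto
  · intro O hO
    rw [Net.mem_Cons] at hO
    ext x
    rw [mem_filter]
    constructor
    · rintro ⟨hx, h⟩
      exact (I.mem_img hO.1 (mem_hs.1 hx)).1 h
    · intro h
      exact ⟨hO.1 h, mem_image_of_mem _ h⟩
  · intro O hO
    rw [Net.mem_Cons] at hO
    ext z
    rw [mem_image]
    constructor
    · rintro ⟨x, hx, rfl⟩
      exact (mem_filter.1 hx).2
    · intro hz
      obtain ⟨x, hx, rfl⟩ := I.surj (mem_hs.1 (hO.1 hz))
      exact ⟨x, mem_filter.2 ⟨mem_hs.2 hx, hz⟩, rfl⟩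
  · intro O hO
    rw [Net.mem_Cons] at hO
    exact (I.netw_eq K hF hO.1).symm

/-- with fixed arrows -/
theorem net_pin_eq {ι : Type*} [Fintype ι] (K : ℝ) {F : Half τ → Bool → ℂ}
    {F' : Half τ' → Bool → ℂ} (hF : ∀ x : Half τ, x.1 ∈ T → ∀ b, F' (hmap f r x) b = F x b)
    (hG : Glu T g) {e : ι → Half τ} (he : ∀ j, (e j).1 ∈ T) (s : ι → Bool) :
    net T' g' K (pin (fun j => hmap f r (e j)) s F') = net T g K (pin e s F) := by
  refine I.net_eq K (fun x hx b => ?_) hG
  unfold pin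
  rw [hF x hx]
  congr 1
  refine prod_congr rfl fun j _ => ?_
  have h : hmap f r (e j) = hmap f r x ↔ e j = x :=
    ⟨fun h => I.hmap_inj (he j) hx h, fun h => by rw [h]⟩
  simp only [h]

end Iso

end Full.Norm
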