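import Pool.Agent.Full.Def.Inst

/-!
# Exact charts of quadrant type

A planar region is of quadrant type in a box if inside the box it is the union of some of the four
quadrants at a vertex `v` (not exactly two opposite ones).  `QChart T g w`: a chart of the surface
`(T, g)` on the box `[-w, w)²` which shows a region of quadrant type; a side of a shown tile is glued iff
the neighbour in the plane is shown (for the sides inside the box).
-/

set_option autoImplicit false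

namespace Full.Norm
open Finset

/-- the parameter of the isotropic six vertex weights -/
noncomputable def K0 : ℝ := Real.pi / 24

/-- the centred box -/
noncomputable def sqr (w : ℕ) : Finset (ℤ × ℤ) := Ico (-(w : ℤ)) w ×ˢ Ico (-(w : ℤ)) w

lemma mem_sqr {w : ℕ} {t : ℤ × ℤ} :
    t ∈ sqr w ↔ (-(w : ℤ) ≤ t.1 ∧ t.1 < w) ∧ -(w : ℤ) ≤ t.2 ∧ t.2 < w := by
  unfold sqr
  rw [mem_product, mem_Ico, mem_Ico]

/-- not exactly two opposite quadrants -/
def QAdm (Q : Bool → Bool → Bool) : Prop :=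
  ∀ a b, Q a b = true → Q (!a) (!b) = true → Q a (!b) = true ∨ Q (!a) b = true

/-- the tiles of the quadrants `Q` at the vertex `v`; first argument: right of `v`, second: above -/
def QSet (v : ℤ × ℤ) (Q : Bool → Bool → Bool) (t : ℤ × ℤ) : Prop :=
  Q (decide (v.1 ≤ t.1)) (decide (v.2 ≤ t.2)) = true

instance (v : ℤ × ℤ) (Q : Bool → Bool → Bool) : DecidablePred (QSet v Q) := fun _ =>
  inferInstanceAs (Decidable (_ = true))

/-- the region shown in the box -/
noncomputable def QW (v : ℤ × ℤ) (Q : Bool → Bool → Bool) (w : ℕ) : Finset (ℤ × ℤ) :=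
  (sqr w).filter (QSet v Q)

lemma mem_QW {v : ℤ × ℤ} {Q : Bool → Bool → Bool} {w : ℕ} {t : ℤ × ℤ} :
    t ∈ QW v Q w ↔ t ∈ sqr w ∧ QSet v Q t := by
  unfold QW
  rw [mem_filter]

variable {τ : Type*}

/-- an exact chart of quadrant type -/
structure QChart (T : Finset τ) (g : Half τ → Half τ) (w : ℕ) where
  /-- the tile shown at a place -/
  φ : ℤ × ℤ → τ
  /-- the vertex -/
  v : ℤ × ℤ
  /-- the quadrants -/
  Q : Bool → Bool → Bool
  adm : QAdm Q
  mem : ∀ t ∈ QW v Q w, φ t ∈ T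
  inj : ∀ t ∈ QW v Q w, ∀ t' ∈ QW v Q w, φ t = φ t' → t = t'
  glue : ∀ t ∈ QW v Q w, ∀ d : Dir, t + d.vec ∈ QW v Q w →
    g (φ t, d) = (φ (t + d.vec), d.opp)
  wall : ∀ t ∈ QW v Q w, ∀ d : Dir, t + d.vec ∈ sqr w → ¬ QSet v Q (t + d.vec) →
    g (φ t, d) = (φ t, d)

namespace QChart
variable {T : Finset τ} {g : Half τ → Half τ} {w : ℕ} (c : QChart T g w)

/-- the region shown by the chart -/
noncomputable def W : Finset (ℤ × ℤ) := QW c.v c.Q w

lemma mem_W {t : ℤ × ℤ} : t ∈ c.W ↔ t ∈ sqr w ∧ QSet c.v c.Q t := mem_QW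

/-- the half edge shown -/
def im (x : Half (ℤ × ℤ)) : Half τ := (c.φ x.1, x.2)

/-- the half edge belongs to a tile shown in the inner box -/
def Inn (m : ℕ) (y : Half τ) : Prop := ∃ t ∈ c.W, t ∈ sqr m ∧ y.1 = c.φ t

/-- a smaller box -/
def restr {w' : ℕ} (h : w' ≤ w) : QChart T g w' where
  φ := c.φ
  v := c.v
  Q := c.Q
  adm := c.adm
  mem := fun t ht => c.mem t (by
    rw [mem_QW, mem_sqr] at ht ⊢
    exact ⟨⟨⟨by omega, by omega⟩, by omega, by omega⟩, ht.2⟩)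
  inj := fun t ht t' ht' => c.inj t (by
    rw [mem_QW, mem_sqr] at ht ⊢
    exact ⟨⟨⟨by omega, by omega⟩, by omega, by omega⟩, ht.2⟩) t' (by
    rw [mem_QW, mem_sqr] at ht' ⊢
    exact ⟨⟨⟨by omega, by omega⟩, by omega, by omega⟩, ht'.2⟩)
  glue := fun t ht d hd => c.glue t (by
    rw [mem_QW, mem_sqr] at ht ⊢
    exact ⟨⟨⟨by omega, by omega⟩, by omega, by omega⟩, ht.2⟩) d (by
    rw [mem_QW, mem_sqr] at hd ⊢
    exact ⟨⟨⟨by omega, by omega⟩, by omega, by omega⟩, hd.2⟩)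
  wall := fun t ht d hd hd' => c.wall t (by
    rw [mem_QW, mem_sqr] at ht ⊢
    exact ⟨⟨⟨by omega, by omega⟩, by omega, by omega⟩, ht.2⟩) d (by
    rw [mem_sqr] at hd ⊢
    exact ⟨⟨by omega, by omega⟩, by omega, by omega⟩) hd'

end QChart

/-! ### charts and translations, reflections -/

/-- translation of a quadrant set -/
lemma QSet_sub {v p t : ℤ × ℤ} {Q : Bool → Bool → Bool} :
    QSet (v - p) Q t ↔ QSet v Q (p + t) := by
  unfold QSet
  have e1 : decide ((v - p).1 ≤ t.1) = decide (v.1 ≤ (p + t).1) := by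
    rw [decide_eq_decide]
    show v.1 - p.1 ≤ t.1 ↔ v.1 ≤ p.1 + t.1
    omega
  have e2 : decide ((v - p).2 ≤ t.2) = decide (v.2 ≤ (p + t).2) := by
    rw [decide_eq_decide]
    show v.2 - p.2 ≤ t.2 ↔ v.2 ≤ p.2 + t.2
    omega
  rw [e1, e2]

/-- the reflected place -/
def rfl2 (t : ℤ × ℤ) : ℤ × ℤ := (t.1, -1 - t.2)

@[simp] lemma rfl2_rfl2 (t : ℤ × ℤ) : rfl2 (rfl2 t) = t := by
  unfold rfl2
  refine Prod.ext rfl ?_
  show -1 - (-1 - t.2) = t.2
  omega

lemma rfl2_sqr {w : ℕ} {t : ℤ × ℤ} : rfl2 t ∈ sqr w ↔ t ∈ sqr w := by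
  rw [mem_sqr, mem_sqr]
  unfold rfl2
  simp only
  omega

lemma QSet_rfl {v t : ℤ × ℤ} {Q : Bool → Bool → Bool} :
    QSet (v.1, -v.2) (fun a b => Q a (!b)) t ↔ QSet v Q (rfl2 t) := by
  unfold QSet rfl2
  have e2 : (!decide (-v.2 ≤ t.2)) = decide (v.2 ≤ -1 - t.2) := by
    rw [← decide_not, decide_eq_decide]
    omega
  simp only [e2]

lemma QAdm.rfl {Q : Bool → Bool → Bool} (h : QAdm Q) : QAdm fun a b => Q a (!b) := by
  intro a b h1 h2
  have h3 := h a (!b) h1 h2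
  exact h3

end Full.Norm
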