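import Pool.Agent.Full.Norm.Cap
import Pool.Agent.Full.Norm.Iso
import Pool.Agent.Full.Norm.QChart
import Pool.Agent.Full.Dict3.Pieces
import Pool.Agent.Full.Net.Same

/-!
# The two halves of a slab as caps

The scalar products of the environment vectors `vup`, `vlow` of a slab are networks of the doubles of
two caps: the upper half, and the reflected lower half.
-/

set_option autoImplicit false

namespace Full.Norm
open Finset Function SixV

lemma c6_eq : Net.c6 = Complex.cos (4 * (K0 : ℂ)) := by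
  unfold K0
  rw [cos_iso]
  rfl

lemma netw_same {τ : Type*} [DecidableEq τ] (T : Finset τ) (F : Half τ → Bool → ℂ)
    (O : Finset (Half τ)) : Net.W T Net.c6 F O = netw T K0 F O := by
  unfold Net.W netw Net.wt
  rw [c6_eq]
  congr 1
  exact prod_congr rfl fun t _ => (tw_same _ _).symm

lemma vec_same {τ ι : Type*} [DecidableEq τ] [Fintype ι] {T : Finset τ} {g : Half τ → Half τ}
    {e : ι → Half τ} (he : ∀ j, (e j).1 ∈ T) (F : Half τ → Bool → ℂ) (s : ι → Bool) :
    Net.vec T g Net.c6 F e s = net T g K0 (pin e s F) := by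
  rw [net_pin he]
  unfold Net.vec
  exact sum_congr rfl fun O _ => netw_same T F O

section up
variable (D : Slab) (y : ℤ)

/-- the upper half -/
noncomputable def upCap (hb : D.b ≤ y) (ht : y < D.t) : Cap where
  U := D.U
  l := D.l
  r := D.r
  y := y
  t := D.t
  hlr := D.hlr
  hyt := ht
  hU := fun i j h1 h2 h3 h4 => D.hU i j h1 h2 (by omega) h4

/-- the lower half, reflected -/
noncomputable def lowCap (hb : D.b < y) (ht : y ≤ D.t) : Cap where
  U := D.L.image rfl2
  l := D.l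
  r := D.r + 1
  y := -y
  t := -D.b
  hlr := by have := D.hlr; omega
  hyt := by omega
  hU := fun i j h1 h2 h3 h4 h => by
    obtain ⟨⟨a, b⟩, hs, h5⟩ := mem_image.1 h
    have h6 : a = i := congrArg Prod.fst h5
    have h7 : -1 - b = j := congrArg Prod.snd h5
    exact D.hL a b (by omega) (by omega) (by omega) (by omega) hs

variable {D y}

lemma nb_up_cases {i j : ℤ} (d : Dir) {t' : ZT}
    (h : (zsurf D.l D.r D.l y D.b D.t).nb d (.inr (i, j)) = some t') (ht : t' ∈ D.upT y) :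
    ∃ s', t' = .inr s' := by
  rcases t' with s | s
  · exact absurd ht Slab.inl_mem_upT
  · exact ⟨s, rfl⟩

/-- the neighbours in the upper sheet -/
lemma nb_up (hb : D.b ≤ y) (ht : y < D.t) (s s' : ℤ × ℤ) (d : Dir) (hs : s ∈ (upCap D y hb ht).R)
    (hs' : s' ∈ (upCap D y hb ht).R) :
    (zsurf D.l D.r D.l y D.b D.t).nb d (.inr s) = some (.inr s') ↔
      (cyl D.l D.r y D.t).nb d s = some s' := by
  obtain ⟨i, j⟩ := s
  obtain ⟨i', j'⟩ := s'
  have e1 := (Cap.mem_R (D := upCap D y hb ht) (i := i) (j := j)).1 hs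
  have e2 := (Cap.mem_R (D := upCap D y hb ht) (i := i') (j := j')).1 hs'
  have hU1 : (i, j) ∈ D.U → ¬ (D.l - 1 ≤ i ∧ i ≤ D.r ∧ D.b - 1 ≤ j ∧ j < D.t) :=
    fun h h' => D.hU i j h'.1 h'.2.1 h'.2.2.1 h'.2.2.2 h
  have hU2 : (i', j') ∈ D.U → ¬ (D.l - 1 ≤ i' ∧ i' ≤ D.r ∧ D.b - 1 ≤ j' ∧ j' < D.t) :=
    fun h h' => D.hU i' j' h'.1 h'.2.1 h'.2.2.1 h'.2.2.2 h
  have e1' : (i, j) ∈ D.U ∨ ((D.l ≤ i ∧ i < D.r) ∧ y ≤ j ∧ j < D.t) := e1
  have e2' : (i', j') ∈ D.U ∨ ((D.l ≤ i' ∧ i' < D.r) ∧ y ≤ j' ∧ j' < D.t) := e2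
  cases d
  · show (if y ≤ j ∧ j < D.t then
        (if i = D.r - 1 then some (Sum.inr (D.l, j)) else if i = D.l - 1 then none else
          some (Sum.inr (i + 1, j))) else some (Sum.inr (i + 1, j))) = some (Sum.inr (i', j')) ↔
      (if y ≤ j ∧ j < D.t then
        (if i = D.r - 1 then some (D.l, j) else if i = D.l - 1 then none else
          some (i + 1, j)) else some (i + 1, j)) = some (i', j')
    split_ifs <;> simp
  · rw [cyl_N, zs_N_up]
    · simp
    · rintro ⟨h1, h2, h3⟩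
      rcases e1' with h | h
      · exact hU1 h ⟨by omega, by omega, by omega, by omega⟩
      · omega
  · show (if y ≤ j ∧ j < D.t then
        (if i = D.l then some (Sum.inr (D.r - 1, j)) else if i = D.r then none else
          some (Sum.inr (i - 1, j))) else some (Sum.inr (i - 1, j))) = some (Sum.inr (i', j')) ↔
      (if y ≤ j ∧ j < D.t then
        (if i = D.l then some (D.r - 1, j) else if i = D.r then none else
          some (i - 1, j)) else some (i - 1, j)) = some (i', j')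
    split_ifs <;> simp
  · rw [cyl_S]
    show (if j = y ∧ D.l ≤ i ∧ i < D.r then (if i < D.l then some (Sum.inl (i, y - 1)) else
      some (Sum.inl (i + 1, y - 1))) else some (Sum.inr (i, j - 1))) = some (Sum.inr (i', j')) ↔ _
    by_cases h : j = y ∧ D.l ≤ i ∧ i < D.r
    · rw [if_pos h, if_neg (by omega)]
      constructor
      · intro h1
        simp at h1
      · intro h1
        exfalso
        simp only [Option.some.injEq, Prod.mk.injEq] at h1
        rcases e2' with h2 | h2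
        · exact hU2 h2 ⟨by omega, by omega, by omega, by omega⟩
        · omega
    · rw [if_neg h]
      simp

/-- the gluing of a surface, by cases -/
lemma glue_iso_aux {τ τ' : Type*} [DecidableEq τ] [DecidableEq τ'] (S : Surf τ) (S' : Surf τ')
    (T : Finset τ) (T' : Finset τ') (f : τ → τ') (r : Dir → Dir) (hr : ∀ d, (r d).opp = r d.opp)
    (hmem : ∀ t, t ∈ T → f t ∈ T') (hsurj : ∀ t', t' ∈ T' → ∃ t ∈ T, f t = t')
    (hnb : ∀ t ∈ T, ∀ t' ∈ T, ∀ d, S'.nb (r d) (f t) = some (f t') ↔ S.nb d t = some t')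
    (x : Half τ) (hx : x.1 ∈ T) :
    S'.glue T' (f x.1, r x.2) = (f (S.glue T x).1, r (S.glue T x).2) := by
  rcases S.glue_cases (T := T) x with h | ⟨t', h1, h2, h3, h4⟩
  · rw [h]
    rcases S'.glue_cases (T := T') (f x.1, r x.2) with h' | ⟨u, h1, h2, h3, h4⟩
    · exact h'
    · exfalso
      obtain ⟨t', ht', rfl⟩ := hsurj u h3
      have h5 : S'.nb (r x.2) (f x.1) = some (f t') := h1
      have h6 := (hnb x.1 hx t' ht' x.2).1 h5
      have h7 : S.glue T (x.1, x.2) = (t', x.2.opp) := Surf.glue_of_mem h6 hx ht'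
      have h8 : x = (t', x.2.opp) := h.symm.trans h7
      exact Dir.opp_ne x.2 (congrArg Prod.snd h8).symm
  · rw [h4]
    have h5 := (hnb x.1 hx t' h3 x.2).2 h1
    rw [Surf.glue_of_mem h5 (hmem _ hx) (hmem _ h3), hr]

/-- **the upper half** -/
theorem isoUp (hb : D.b ≤ y) (ht : y < D.t) : Iso (upCap D y hb ht).R (upCap D y hb ht).g (D.upT y)
    (D.gu y) (Sum.inr : ℤ × ℤ → ZT) id where
  inv := fun _ => rfl
  tw := fun _ _ => rfl
  inj := fun _ _ _ _ h => Sum.inr.inj h
  img := by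
    ext t
    rw [mem_image]
    rcases t with ⟨i, j⟩ | ⟨i, j⟩
    · constructor
      · intro h; exact absurd h Slab.inl_mem_upT
      · rintro ⟨s, _, h⟩; cases h
    · rw [Slab.mem_upT]
      constructor
      · intro h
        exact ⟨(i, j), Cap.mem_R.2 h, rfl⟩
      · rintro ⟨s, hs, h⟩
        cases h
        exact Cap.mem_R.1 hs
  glue := fun x hx => by
    refine glue_iso_aux _ _ (upCap D y hb ht).R (D.upT y) Sum.inr id (fun _ => rfl) ?_ ?_ ?_ x hx
    · rintro ⟨i, j⟩ h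
      exact Slab.mem_upT.2 (Cap.mem_R.1 h)
    · rintro (t | ⟨i, j⟩) h
      · exact absurd h Slab.inl_mem_upT
      · exact ⟨(i, j), Cap.mem_R.2 (Slab.mem_upT.1 h), rfl⟩
    · intro t h1 t' h2 d
      exact nb_up hb ht t t' d h1 h2

lemma mem_lowR (hb : D.b < y) (ht : y ≤ D.t) {i j : ℤ} : (i, j) ∈ (lowCap D y hb ht).R ↔
    (i, -1 - j) ∈ D.L ∨ ((D.l ≤ i ∧ i ≤ D.r) ∧ -y ≤ j ∧ j < -D.b) := by
  rw [Cap.mem_R]
  have e : (i, j) ∈ (lowCap D y hb ht).U ↔ (i, -1 - j) ∈ D.L := by
    show (i, j) ∈ D.L.image rfl2 ↔ _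
    rw [mem_image]
    constructor
    · rintro ⟨⟨a, b⟩, hs, h⟩
      have h6 : a = i := congrArg Prod.fst h
      have h7 : -1 - b = j := congrArg Prod.snd h
      have h8 : (i, -1 - j) = (a, b) := Prod.ext h6.symm (by show -1 - j = b; omega)
      rw [h8]
      exact hs
    · intro h
      exact ⟨(i, -1 - j), h, Prod.ext rfl (by show -1 - (-1 - j) = j; omega)⟩
  rw [e]
  show _ ∨ ((D.l ≤ i ∧ i < D.r + 1) ∧ -y ≤ j ∧ j < -D.b) ↔ _
  rw [Int.lt_add_one_iff]

/-- the neighbours in the lower sheet -/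
lemma nb_low (hb : D.b < y) (ht : y ≤ D.t) (s s' : ℤ × ℤ) (d : Dir)
    (hs : s ∈ (lowCap D y hb ht).R) (hs' : s' ∈ (lowCap D y hb ht).R) :
    (zsurf D.l D.r D.l y D.b D.t).nb d.flip (.inl (rfl2 s)) = some (.inl (rfl2 s')) ↔
      (cyl D.l (D.r + 1) (-y) (-D.b)).nb d s = some s' := by
  obtain ⟨i, j⟩ := s
  obtain ⟨i', j'⟩ := s'
  have e1 := (mem_lowR hb ht).1 hs
  have e2 := (mem_lowR hb ht).1 hs'
  have hL1 : (i, -1 - j) ∈ D.L → ¬ (D.l - 1 ≤ i ∧ i ≤ D.r + 1 ∧ D.b ≤ -1 - j ∧ -1 - j ≤ D.t) :=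
    fun h h' => D.hL _ _ h'.1 h'.2.1 h'.2.2.1 h'.2.2.2 h
  have hL2 : (i', -1 - j') ∈ D.L →
      ¬ (D.l - 1 ≤ i' ∧ i' ≤ D.r + 1 ∧ D.b ≤ -1 - j' ∧ -1 - j' ≤ D.t) :=
    fun h h' => D.hL _ _ h'.1 h'.2.1 h'.2.2.1 h'.2.2.2 h
  cases d
  · show (if D.b ≤ -1 - j ∧ -1 - j < y then
        (if i = D.r then some (Sum.inl (D.l, -1 - j)) else if i = D.l - 1 then none else
          some (Sum.inl (i + 1, -1 - j))) else some (Sum.inl (i + 1, -1 - j))) =
          some (Sum.inl (i', -1 - j')) ↔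
      (if -y ≤ j ∧ j < -D.b then
        (if i = D.r + 1 - 1 then some (D.l, j) else if i = D.l - 1 then none else
          some (i + 1, j)) else some (i + 1, j)) = some (i', j')
    by_cases h1 : D.b ≤ -1 - j ∧ -1 - j < y
    · rw [if_pos h1, if_pos (by omega : -y ≤ j ∧ j < -D.b)]
      split_ifs <;> simp <;> omega
    · rw [if_neg h1, if_neg (by omega : ¬ (-y ≤ j ∧ j < -D.b))]
      simp
  · rw [cyl_N]
    show (if -1 - j = y ∧ D.l ≤ i ∧ i ≤ D.r then none else some (Sum.inl (i, -1 - j - 1))) =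
      some (Sum.inl (i', -1 - j')) ↔ _
    by_cases h : -1 - j = y ∧ D.l ≤ i ∧ i ≤ D.r
    · exfalso
      rcases e1 with h1 | h1
      · exact hL1 h1 ⟨by omega, by omega, by omega, by omega⟩
      · omega
    · rw [if_neg h]
      simp
      omega
  · show (if D.b ≤ -1 - j ∧ -1 - j < y then
        (if i = D.l then some (Sum.inl (D.r, -1 - j)) else if i = D.r + 1 then none else
          some (Sum.inl (i - 1, -1 - j))) else some (Sum.inl (i - 1, -1 - j))) =
          some (Sum.inl (i', -1 - j')) ↔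
      (if -y ≤ j ∧ j < -D.b then
        (if i = D.l then some (D.r + 1 - 1, j) else if i = D.r + 1 then none else
          some (i - 1, j)) else some (i - 1, j)) = some (i', j')
    by_cases h1 : D.b ≤ -1 - j ∧ -1 - j < y
    · rw [if_pos h1, if_pos (by omega : -y ≤ j ∧ j < -D.b)]
      split_ifs <;> simp <;> omega
    · rw [if_neg h1, if_neg (by omega : ¬ (-y ≤ j ∧ j < -D.b))]
      simp
  · rw [cyl_S]
    show (if -1 - j = y - 1 ∧ D.l ≤ i ∧ i ≤ D.r then
        (if i < D.l ∧ i < D.r then some (Sum.inr (i, y)) else if D.l < i ∧ D.l < i then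
          some (Sum.inr (i - 1, y)) else none)
        else some (Sum.inl (i, -1 - j + 1))) = some (Sum.inl (i', -1 - j')) ↔ _
    by_cases h : -1 - j = y - 1 ∧ D.l ≤ i ∧ i ≤ D.r
    · rw [if_pos h]
      constructor
      · intro h1
        split_ifs at h1 <;> simp at h1
      · intro h1
        exfalso
        simp only [Option.some.injEq, Prod.mk.injEq] at h1
        rcases e2 with h2 | h2
        · exact hL2 h2 ⟨by omega, by omega, by omega, by omega⟩
        · omega
    · rw [if_neg h]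
      simp
      omega

/-- **the lower half** -/
theorem isoLow (hb : D.b < y) (ht : y ≤ D.t) : Iso (lowCap D y hb ht).R (lowCap D y hb ht).g
    (D.lowT y) (D.gl y) (fun s => (Sum.inl (rfl2 s) : ZT)) Dir.flip where
  inv := Dir.flip_flip
  tw := tw_flip'
  inj := fun s _ s' _ h => by
    rw [← rfl2_rfl2 s, Sum.inl.inj h, rfl2_rfl2]
  img := by
    ext t
    rw [mem_image]
    rcases t with ⟨i, j⟩ | s
    · rw [Slab.mem_lowT]
      constructor
      · intro h
        refine ⟨(i, -1 - j), (mem_lowR hb ht).2 ?_, ?_⟩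
        · rw [show -1 - (-1 - j) = j by ring]
          exact h.imp_right fun h => ⟨h.1, by omega⟩
        · show (Sum.inl (i, -1 - (-1 - j)) : ZT) = _
          rw [show -1 - (-1 - j) = j by ring]
      · rintro ⟨⟨a, b⟩, hs, h⟩
        have h1 := Sum.inl.inj h
        have h2 : a = i := congrArg Prod.fst h1
        have h3 : -1 - b = j := congrArg Prod.snd h1
        have h4 := (mem_lowR hb ht).1 hs
        rw [← h2, ← h3]
        exact h4.imp_right fun h => ⟨h.1, by omega⟩
    · constructor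
      · intro h; exact absurd h Slab.inr_mem_lowT
      · rintro ⟨s', _, h⟩; cases h
  glue := fun x hx => by
    refine glue_iso_aux _ _ (lowCap D y hb ht).R (D.lowT y) (fun s => (Sum.inl (rfl2 s) : ZT))
      Dir.flip (fun d => (Dir.flip_opp d).symm) ?_ ?_ ?_ x hx
    · rintro ⟨i, j⟩ h
      have h4 := (mem_lowR hb ht).1 h
      exact Slab.mem_lowT.2 (h4.imp_right fun h => ⟨h.1, by omega⟩)
    · rintro (⟨i, j⟩ | t) h
      · refine ⟨(i, -1 - j), (mem_lowR hb ht).2 ?_, ?_⟩
        · rw [show -1 - (-1 - j) = j by ring]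
          exact (Slab.mem_lowT.1 h).imp_right fun h => ⟨h.1, by omega⟩
        · show (Sum.inl (i, -1 - (-1 - j)) : ZT) = _
          rw [show -1 - (-1 - j) = j by ring]
      · exact absurd h Slab.inr_mem_lowT
    · intro t h1 t' h2 d
      exact nb_low hb ht t t' d h1 h2

end up

/-! ### the scalar products -/

/-- the lower sides of the row `y` of a cap, labelled -/
def Cap.e (D : Cap) (n : ℕ) (j : Fin n) : Half (ℤ × ℤ) := ((D.l + j, D.y), .S)

lemma Cap.C_eq (D : Cap) {n : ℕ} (h : D.r = D.l + n) : D.C = univ.image (D.e n) := by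
  ext x
  rw [Cap.mem_C, mem_image]
  constructor
  · rintro ⟨⟨h1, h2⟩, h3, h4⟩
    refine ⟨⟨(x.1.1 - D.l).toNat, by omega⟩, mem_univ _, ?_⟩
    unfold Cap.e
    refine Prod.ext (Prod.ext ?_ h3.symm) h4.symm
    show D.l + (((x.1.1 - D.l).toNat : ℕ) : ℤ) = x.1.1
    omega
  · rintro ⟨j, _, rfl⟩
    have := j.2
    unfold Cap.e
    exact ⟨⟨by simp, by simp only; omega⟩, rfl, rfl⟩

/-- the vector of a cap -/
noncomputable def Cap.vec (D : Cap) (n : ℕ) (F : Half (ℤ × ℤ) → Bool → ℂ) (s : Fin n → Bool) : ℂ :=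
  net D.R D.g K0 (pin (D.e n) s F)

/-- **the scalar product of two vectors of a cap** -/
theorem Cap.inner (D : Cap) {n : ℕ} (h : D.r = D.l + n) (F F' : Half (ℤ × ℤ) → Bool → ℂ) :
    ∑ s : Fin n → Bool, D.vec n F s * (starRingEnd ℂ) (D.vec n F' s) =
      net D.T2 D.g2 K0 (dF F F') := by
  have h1 := net_double (Cap.glu_g (D := D)) (e := D.e n) (fun j => Cap.bd_C (by
    rw [Cap.C_eq D h]
    exact mem_image_of_mem _ (mem_univ j))) K0 F F'
  rw [← Cap.C_eq D h] at h1
  exact h1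

section slab
variable {D : Slab} {y : ℤ}

theorem vup_eq (hb : D.b ≤ y) (ht : y < D.t) (F : Half ZT → Bool → ℂ) (s : Cfg (D.n + 1)) :
    D.vup F y s = (upCap D y hb ht).vec (D.n + 1) (fun x => F (hmap Sum.inr id x)) fun j => !s j := by
  unfold Slab.vup Cap.vec
  have hlr := D.r_eq
  have he : ∀ j : Fin (D.n + 1), (((upCap D y hb ht).e (D.n + 1) j).1) ∈ (upCap D y hb ht).R := by
    intro j
    have := j.2
    refine Cap.strip_mem ?_ ?_ le_rfl ht
    · show D.l ≤ D.l + (j : ℤ)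
      omega
    · show D.l + (j : ℤ) < D.r
      omega
  have h1 := (isoUp hb ht).net_pin_eq K0 (F := fun x => F (hmap Sum.inr id x)) (F' := F)
    (fun x _ b => rfl) Cap.glu_g he (fun j => !s j)
  rw [← h1, ← vec_same]
  · rfl
  · intro j
    exact (isoUp hb ht).mem (he j)

theorem vlow_eq (hb : D.b < y) (ht : y ≤ D.t) (F : Half ZT → Bool → ℂ) (s : Cfg (D.n + 2)) :
    D.vlow F y s = (lowCap D y hb ht).vec (D.n + 2)
      (fun x => F (hmap (fun s => (Sum.inl (rfl2 s) : ZT)) Dir.flip x)) s := by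
  unfold Slab.vlow Cap.vec
  have hlr := D.r_eq
  have he : ∀ j : Fin (D.n + 2), (((lowCap D y hb ht).e (D.n + 2) j).1) ∈ (lowCap D y hb ht).R := by
    intro j
    have := j.2
    refine (mem_lowR hb ht).2 (Or.inr ⟨⟨?_, ?_⟩, le_rfl, ?_⟩)
    · show D.l ≤ D.l + (j : ℤ)
      omega
    · show D.l + (j : ℤ) ≤ D.r
      omega
    · show -y < -D.b
      omega
  have h1 := (isoLow hb ht).net_pin_eq K0
    (F := fun x => F (hmap (fun s => (Sum.inl (rfl2 s) : ZT)) Dir.flip x)) (F' := F)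
    (fun x _ b => rfl) Cap.glu_g he s
  rw [← h1, ← vec_same]
  · congr 1
    funext j
    show (Sum.inl (D.l + (j : ℤ), y - 1), Dir.N) = (Sum.inl (rfl2 (D.l + (j : ℤ), -y)), Dir.N)
    refine Prod.ext ?_ rfl
    show (Sum.inl (D.l + (j : ℤ), y - 1) : ZT) = Sum.inl (D.l + (j : ℤ), -1 - -y)
    rw [show -1 - -y = y - 1 by ring]
  · intro j
    exact (isoLow hb ht).mem (he j)

end slab

end Full.Norm
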