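import Pool.Agent.Full.Norm.Rooms
import Pool.Agent.Full.Norm.Half
import Pool.Agent.Full.Geo.Slab

/-!
# The two halves of a row of a shape are tame caps

`Shape.tame_up`, `Shape.tame_low`: the caps `upCap`, `lowCap` of the slab of a row are tame at the scale
`w ≤ n / 16`, of size `n (2 bd + 2)`, uniformly in the shifts of the walls.
-/

set_option autoImplicit false

open Finset Full.Norm

namespace Full
namespace Shape
variable {S : Shape} {n : ℕ} {s : S.Q × Bool → ℕ} {w : ℕ}

/-- a bound of all coordinates -/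
noncomputable def bd (S : Shape) : ℕ :=
  ∑ q : S.Q, ((S.xl q).natAbs + (S.xr q).natAbs + (S.yb q).natAbs + (S.yt q).natAbs)

lemma abs_le_bd (S : Shape) (q : S.Q) : (-(S.bd : ℤ) ≤ S.xl q ∧ S.xl q ≤ S.bd) ∧
    (-(S.bd : ℤ) ≤ S.xr q ∧ S.xr q ≤ S.bd) ∧ (-(S.bd : ℤ) ≤ S.yb q ∧ S.yb q ≤ S.bd) ∧
    -(S.bd : ℤ) ≤ S.yt q ∧ S.yt q ≤ S.bd := by
  have h : (S.xl q).natAbs + (S.xr q).natAbs + (S.yb q).natAbs + (S.yt q).natAbs ≤ S.bd :=
    single_le_sum (f := fun q : S.Q => (S.xl q).natAbs + (S.xr q).natAbs + (S.yb q).natAbs +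
      (S.yt q).natAbs) (fun _ _ => Nat.zero_le _) (mem_univ q)
  omega

lemma mul_gapC {x y : ℤ} (n : ℕ) (h : x < y) : (n : ℤ) * x + n ≤ n * y := by
  have h3 : (n : ℤ) * (y - x) ≥ n * 1 := mul_le_mul_of_nonneg_left (by omega) (by omega)
  have h4 : (n : ℤ) * (y - x) = n * y - n * x := by ring
  linarith

lemma mul_monoC {x y : ℤ} (n : ℕ) (h : x ≤ y) : (n : ℤ) * x ≤ n * y :=
  mul_le_mul_of_nonneg_left h (by omega)

lemma fl_le (hs : S.Small2 n s) (a : S.Q) : n * S.xl a ≤ S.fl n s a ∧ 2 * S.fl n s a ≤ 2 * (n * S.xl a) + n := by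
  have h2 := hs.2 (a, false)
  unfold fl
  constructor <;> push_cast <;> omega

lemma fr_le (hs : S.Small2 n s) (a : S.Q) : n * S.xr a ≤ S.fr n s a ∧ 2 * S.fr n s a ≤ 2 * (n * S.xr a) + n := by
  have h2 := hs.2 (a, true)
  unfold fr
  constructor <;> push_cast <;> omega

lemma room_bd (hs : S.Small2 n s) {a : S.Q} {p : ℤ × ℤ} (hp : p ∈ S.room n s a) :
    (-((n : ℤ) * S.bd) ≤ p.1 ∧ 2 * p.1 < 2 * (n * S.bd) + n) ∧ -((n : ℤ) * S.bd) ≤ p.2 ∧
      p.2 < n * S.bd := by
  rw [mem_room] at hp
  obtain ⟨h1, h2, h3, h4⟩ := S.abs_le_bd a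
  have e1 := mul_monoC n h1.1
  have e2 := mul_monoC n h2.2
  have e3 := mul_monoC n h3.1
  have e4 := mul_monoC n h4.2
  have e5 := fl_le hs a
  have e6 := fr_le hs a
  have e7 : (n : ℤ) * -(S.bd : ℤ) = -((n : ℤ) * S.bd) := by ring
  unfold fb ft at hp
  omega

section
variable (hS : S.Ok) (hs : S.Small2 n s) (hw : 1 ≤ w) (hn : 16 * w ≤ n)
include hS hs hw hn

lemma wide_fine (a : S.Q) : S.fl n s a + 8 * w ≤ S.fr n s a := by
  have h1 := mul_gapC n (hS.x_lt a)
  have h2 := fl_le hs a
  have h3 := fr_le hs a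
  omega

omit hs in
lemma high_fine (a : S.Q) : S.fb n a + 16 * w ≤ S.ft n a := by
  have h1 := mul_gapC n (hS.y_lt a)
  unfold fb ft
  omega

/-- rooms which do not touch are far from each other -/
lemma sep_fine {a b : S.Q} (hab : a ≠ b) :
    (S.fr n s a + 2 * w + 1 ≤ S.fl n s b ∨ S.fr n s b + 2 * w + 1 ≤ S.fl n s a ∨
      S.ft n a + 2 * w ≤ S.fb n b ∨ S.ft n b + 2 * w ≤ S.fb n a) ∨ S.On a b ∨ S.On b a := by
  by_cases h1 : S.On a b
  · exact Or.inr (Or.inl h1)
  · by_cases h2 : S.On b a
    · exact Or.inr (Or.inr h2)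
    · left
      rcases hS.sep a b hab h1 h2 with h3 | h3 | h3 | h3
      · have h4 := mul_gapC n h3
        have h5 := fl_le hs b
        have h6 := fr_le hs a
        omega
      · have h4 := mul_gapC n h3
        have h5 := fl_le hs a
        have h6 := fr_le hs b
        omega
      · have h4 := mul_gapC n h3
        unfold ft fb
        omega
      · have h4 := mul_gapC n h3
        unfold ft fb
        omega

/-- a link is strictly inside its rows -/
lemma on_fine {a b : S.Q} (hab : S.On a b) : S.ft n a = S.fb n b ∧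
    ((∃ r, a = .inl r ∧ S.fl n s a + 2 * w + 1 ≤ S.fl n s b ∧ S.fr n s b + 2 * w + 1 ≤ S.fr n s a) ∨
    (∃ r, b = .inl r ∧ S.fl n s b + 2 * w + 1 ≤ S.fl n s a ∧ S.fr n s a + 2 * w + 1 ≤ S.fr n s b)) := by
  refine ⟨on_ft hS hab, ?_⟩
  rcases a with r | k <;> rcases b with r' | k'
  · exact absurd hab id
  · have h1 : S.dn k' = r := hab
    subst h1
    left
    have h2 := mul_gapC n (hS.dn_l k')
    have h3 := mul_gapC n (hS.dn_r k')
    have h4 := fl_le hs (.inl (S.dn k'))
    have h5 := fl_le hs (.inr k')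
    have h6 := fr_le hs (.inl (S.dn k'))
    have h7 := fr_le hs (.inr k')
    exact ⟨_, rfl, by omega, by omega⟩
  · have h1 : S.up k = r' := hab
    subst h1
    right
    have h2 := mul_gapC n (hS.up_l k)
    have h3 := mul_gapC n (hS.up_r k)
    have h4 := fl_le hs (.inl (S.up k))
    have h5 := fl_le hs (.inr k)
    have h6 := fr_le hs (.inl (S.up k))
    have h7 := fr_le hs (.inr k)
    exact ⟨_, rfl, by omega, by omega⟩
  · exact absurd hab id

end

/-! ### the upper half -/

open Classical in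
/-- the rooms, the room `q` only above `y` -/
noncomputable def upRms (S : Shape) (n : ℕ) (s : S.Q × Bool → ℕ) (q : S.Q) (y : ℤ) : Rms S.Q where
  x0 := S.fl n s
  x1 := S.fr n s
  y0 a := if a = q then y else S.fb n a
  y1 := S.ft n

open Classical in
/-- the rooms, reflected, one column more in the room `q`, and the room `q` only below `y` -/
noncomputable def lowRms (S : Shape) (n : ℕ) (s : S.Q × Bool → ℕ) (q : S.Q) (y : ℤ) : Rms S.Q where
  x0 := S.fl n s
  x1 a := if a = q then S.fr n s a + 1 else S.fr n s a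
  y0 a := if a = q then -y else -S.ft n a
  y1 a := -S.fb n a

open Classical in
/-- the rooms of a part -/
noncomputable def partF (S : Shape) (q : S.Q) (b : Bool) : Finset S.Q := univ.filter fun p => p ∈ S.part q b

lemma mem_partF {q p : S.Q} {b : Bool} : p ∈ S.partF q b ↔ p ∈ S.part q b := by
  classical
  unfold partF
  rw [mem_filter]
  exact and_iff_right (mem_univ _)

lemma partF_ne {q p : S.Q} {b : Bool} (h : p ∈ S.partF q b) : p ≠ q := by
  rintro rfl
  exact not_mem_part _ _ (mem_partF.1 h)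

lemma side_up_eq (q : S.Q) (y : ℤ) : S.side n s q true = (S.upRms n s q y).reg (S.partF q true) := by
  ext t
  rw [mem_side, Rms.mem_reg]
  constructor
  · rintro ⟨p, hp, ht⟩
    have hp' := mem_partF.2 hp
    refine ⟨p, hp', ?_⟩
    rw [Rms.mem_rm]
    rw [mem_room] at ht
    simp only [upRms, if_neg (partF_ne hp')]
    exact ht
  · rintro ⟨p, hp, ht⟩
    refine ⟨p, mem_partF.1 hp, ?_⟩
    rw [Rms.mem_rm] at ht
    rw [mem_room]
    simp only [upRms, if_neg (partF_ne hp)] at ht
    exact ht

lemma side_low_eq (q : S.Q) (y : ℤ) :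
    (S.side n s q false).image rfl2 = (S.lowRms n s q y).reg (S.partF q false) := by
  ext t
  rw [mem_image, Rms.mem_reg]
  constructor
  · rintro ⟨u, hu, rfl⟩
    obtain ⟨p, hp, hu⟩ := mem_side.1 hu
    have hp' := mem_partF.2 hp
    refine ⟨p, hp', ?_⟩
    rw [Rms.mem_rm]
    rw [mem_room] at hu
    simp only [lowRms, if_neg (partF_ne hp'), rfl2]
    omega
  · rintro ⟨p, hp, ht⟩
    rw [Rms.mem_rm] at ht
    simp only [lowRms, if_neg (partF_ne hp)] at ht
    refine ⟨rfl2 t, ?_, rfl2_rfl2 t⟩
    rw [mem_side]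
    refine ⟨p, mem_partF.1 hp, ?_⟩
    rw [mem_room]
    simp only [rfl2]
    omega

/-- a room and one of its parts -/
def partG (S : Shape) (q : S.Q) (b : Bool) : Set S.Q := {p | p = q ∨ p ∈ S.part q b}

section
variable (hS : S.Ok) (hs : S.Small2 n s) (hw : 1 ≤ w) (hn : 16 * w ≤ n) (hd : S.Tree) {q : S.Q} {y : ℤ}
include hS hs hw hn hd

omit hS hs hw hn in
lemma no_below {b : S.Q} (hb : b ∈ S.partG q true) (hbq : b ≠ q) : ¬ S.On b q := fun h =>
  Set.disjoint_left.1 (hd q) (part_of_on' h) (hb.resolve_left hbq)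

omit hS hs hw hn in
lemma no_above {b : S.Q} (hb : b ∈ S.partG q false) (hbq : b ≠ q) : ¬ S.On q b := fun h =>
  Set.disjoint_left.1 (hd q) (hb.resolve_left hbq) (part_of_on h)

theorem upRms_ok (hy : S.fb n q ≤ y) (hy' : y + 4 * w ≤ S.ft n q) :
    (S.upRms n s q y).Ok w (S.partG q true) where
  wd a _ := by
    have := wide_fine hS hs hw hn a
    simp only [upRms]
    omega
  ht a _ := by
    have := high_fine hS hw hn a
    simp only [upRms]
    split_ifs with h
    · subst h; omega
    · omega
  sep a hGa b hGb hab := by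
    rcases sep_fine hS hs hw hn hab with h | h | h
    · left
      unfold Rms.Sep
      simp only [upRms]
      by_cases ha : a = q
      · subst ha
        rw [if_neg hab.symm, if_pos rfl]
        omega
      · rw [if_neg ha]
        by_cases hb : b = q
        · subst hb
          rw [if_pos rfl]
          omega
        · rw [if_neg hb]
          omega
    · obtain ⟨h1, h2⟩ := on_fine hS hs hw hn h
      by_cases hb : b = q
      · subst hb
        exact absurd h (no_below hd hGa hab)
      · right; left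
        unfold Rms.Stk Rms.Ins
        simp only [upRms, if_neg hb]
        refine ⟨h1, ?_⟩
        rcases h2 with ⟨_, _, h3, h4⟩ | ⟨_, _, h3, h4⟩
        · left; omega
        · right; omega
    · obtain ⟨h1, h2⟩ := on_fine hS hs hw hn h
      by_cases ha : a = q
      · subst ha
        exact absurd h (no_below hd hGb hab.symm)
      · right; right
        unfold Rms.Stk Rms.Ins
        simp only [upRms, if_neg ha]
        refine ⟨h1, ?_⟩
        rcases h2 with ⟨_, _, h3, h4⟩ | ⟨_, _, h3, h4⟩
        · left; omega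
        · right; omega

theorem lowRms_ok (hy : S.fb n q + 4 * w ≤ y) (hy' : y ≤ S.ft n q) :
    (S.lowRms n s q y).Ok w (S.partG q false) where
  wd a _ := by
    have := wide_fine hS hs hw hn a
    simp only [lowRms]
    split_ifs <;> omega
  ht a _ := by
    have := high_fine hS hw hn a
    simp only [lowRms]
    split_ifs with h
    · subst h; omega
    · omega
  sep a hGa b hGb hab := by
    rcases sep_fine hS hs hw hn hab with h | h | h
    · left
      unfold Rms.Sep
      simp only [lowRms]
      by_cases ha : a = q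
      · subst ha
        rw [if_neg hab.symm, if_pos rfl, if_neg hab.symm, if_pos rfl]
        omega
      · rw [if_neg ha, if_neg ha]
        by_cases hb : b = q
        · subst hb
          rw [if_pos rfl, if_pos rfl]
          omega
        · rw [if_neg hb, if_neg hb]
          omega
    · obtain ⟨h1, h2⟩ := on_fine hS hs hw hn h
      by_cases ha : a = q
      · subst ha
        exact absurd h (no_above hd hGb hab.symm)
      · right; right
        unfold Rms.Stk Rms.Ins
        simp only [lowRms, if_neg ha]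
        refine ⟨by omega, ?_⟩
        rcases h2 with ⟨r', h5, h3, h4⟩ | ⟨r', h5, h3, h4⟩
        · right
          split_ifs <;> omega
        · left
          split_ifs <;> omega
    · obtain ⟨h1, h2⟩ := on_fine hS hs hw hn h
      by_cases hb : b = q
      · subst hb
        exact absurd h (no_above hd hGa hab)
      · right; left
        unfold Rms.Stk Rms.Ins
        simp only [lowRms, if_neg hb]
        refine ⟨by omega, ?_⟩
        rcases h2 with ⟨r', h5, h3, h4⟩ | ⟨r', h5, h3, h4⟩
        · right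
          split_ifs <;> omega
        · left
          split_ifs <;> omega

end

section
variable (hS : S.Ok) (hs : S.Small2 n s) (hw : 1 ≤ w) (hn : 16 * w ≤ n) {r : S.R} {y : ℤ}
include hw hn

/-- **the upper half of a row is a tame cap** -/
theorem tame_up (hd : S.Tree) (hb : (S.zslab hS hs hd (.inl r)).b ≤ y)
    (ht : y < (S.zslab hS hs hd (.inl r)).t) (hy' : y + 4 * w ≤ S.ft n (.inl r)) :
    (upCap (S.zslab hS hs hd (.inl r)) y hb ht).Tame w (n * (2 * S.bd + 2)) := by
  have hwd := wide_fine hS hs hw hn (.inl r)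
  have hb' : S.fb n (.inl r) ≤ y := hb
  refine (upRms_ok hS hs hw hn hd hb' hy').tame hw (F := S.partF (.inl r) true)
    (fun a ha => Or.inr (mem_partF.1 ha)) (q := .inl r) (Or.inl rfl)
    (fun h => partF_ne h rfl) (side_up_eq _ y) rfl rfl ?_ rfl ?_ ?_ ?_ ?_ ?_
  · show y = (S.upRms n s (.inl r) y).y0 (.inl r)
    simp only [upRms, if_pos]
  · show 4 * (w : ℤ) ≤ S.fr n s (.inl r) - S.fl n s (.inl r)
    omega
  · show 4 * (w : ℤ) ≤ S.ft n (.inl r) - y
    omega
  · intro b hb h1
    have hbq := partF_ne hb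
    obtain ⟨h2, h3⟩ := h1
    simp only [upRms, if_neg hbq] at h2
    unfold Rms.Ins at h3 ⊢
    simp only [upRms] at h3 ⊢
    rcases sep_fine hS hs hw hn hbq with h4 | h4 | h4
    · have := high_fine hS hw hn b
      have := high_fine hS hw hn (.inl r : S.Q)
      have := wide_fine hS hs hw hn b
      omega
    · have h5 := on_fine hS hs hw hn h4
      have := high_fine hS hw hn b
      have := high_fine hS hw hn (.inl r : S.Q)
      omega
    · obtain ⟨h5, h6⟩ := on_fine hS hs hw hn h4
      rcases h6 with ⟨_, _, h6, h7⟩ | ⟨r', h8, h6, h7⟩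
      · omega
      · exfalso
        subst h8
        exact h4
  · intro b hb h1
    have hbq := partF_ne hb
    obtain ⟨h2, h3⟩ := h1
    simp only [upRms, if_pos] at h2
    unfold Rms.Ins at h3
    simp only [upRms] at h3
    rcases sep_fine hS hs hw hn hbq with h4 | h4 | h4
    · have := high_fine hS hw hn b
      have := wide_fine hS hs hw hn b
      omega
    · exact no_below hd (Or.inr (mem_partF.1 hb)) hbq h4
    · have h5 := on_fine hS hs hw hn h4
      have := high_fine hS hw hn b
      omega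
  · refine ⟨-((n : ℤ) * S.bd), -((n : ℤ) * S.bd), fun p hp => ?_⟩
    have h1 : ∃ a, p ∈ S.room n s a := by
      rcases Cap.mem_R'.1 hp with h | h
      · obtain ⟨a, -, ha⟩ := mem_side.1 h
        exact ⟨a, ha⟩
      · refine ⟨.inl r, ?_⟩
        rw [mem_room]
        obtain ⟨h1, h2, h3⟩ := h
        have h2' : y ≤ p.2 := h2
        exact ⟨h1, by omega, h3⟩
    obtain ⟨a, ha⟩ := h1
    have h2 := room_bd hs ha
    have e7 : (n : ℤ) * (2 * S.bd + 2) = 2 * ((n : ℤ) * S.bd) + 2 * n := by ring
    push_cast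
    omega

/-- **the reflected lower half of a row is a tame cap** -/
theorem tame_low (hd : S.Tree) (hb : (S.zslab hS hs hd (.inl r)).b < y)
    (ht : y ≤ (S.zslab hS hs hd (.inl r)).t) (hy : S.fb n (.inl r) + 4 * w ≤ y) :
    (lowCap (S.zslab hS hs hd (.inl r)) y hb ht).Tame w (n * (2 * S.bd + 2)) := by
  have hwd := wide_fine hS hs hw hn (.inl r)
  have ht' : y ≤ S.ft n (.inl r) := ht
  refine (lowRms_ok hS hs hw hn hd hy ht').tame hw (F := S.partF (.inl r) false)
    (fun a ha => Or.inr (mem_partF.1 ha)) (q := .inl r) (Or.inl rfl)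
    (fun h => partF_ne h rfl) (side_low_eq _ y) rfl ?_ ?_ rfl ?_ ?_ ?_ ?_ ?_
  · show S.fr n s (.inl r) + 1 = (S.lowRms n s (.inl r) y).x1 (.inl r)
    simp only [lowRms, if_pos]
  · show -y = (S.lowRms n s (.inl r) y).y0 (.inl r)
    simp only [lowRms, if_pos]
  · show 4 * (w : ℤ) ≤ S.fr n s (.inl r) + 1 - S.fl n s (.inl r)
    omega
  · show 4 * (w : ℤ) ≤ -S.fb n (.inl r) - -y
    omega
  · intro b hb h1
    have hbq := partF_ne hb
    obtain ⟨h2, h3⟩ := h1
    simp only [lowRms, if_neg hbq] at h2
    unfold Rms.Ins at h3 ⊢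
    simp only [lowRms, if_pos, if_neg hbq] at h3 ⊢
    rcases sep_fine hS hs hw hn hbq with h4 | h4 | h4
    · have := high_fine hS hw hn b
      have := high_fine hS hw hn (.inl r : S.Q)
      have := wide_fine hS hs hw hn b
      omega
    · obtain ⟨h5, h6⟩ := on_fine hS hs hw hn h4
      rcases h6 with ⟨r', h8, h6, h7⟩ | ⟨_, _, h6, h7⟩
      · exfalso
        subst h8
        exact h4
      · omega
    · have h5 := on_fine hS hs hw hn h4
      have := high_fine hS hw hn b
      have := high_fine hS hw hn (.inl r : S.Q)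
      omega
  · intro b hb h1
    have hbq := partF_ne hb
    obtain ⟨h2, h3⟩ := h1
    simp only [lowRms, if_pos] at h2
    unfold Rms.Ins at h3
    simp only [lowRms, if_pos, if_neg hbq] at h3
    rcases sep_fine hS hs hw hn hbq with h4 | h4 | h4
    · have := high_fine hS hw hn b
      have := wide_fine hS hs hw hn b
      omega
    · have h5 := on_fine hS hs hw hn h4
      have := high_fine hS hw hn b
      omega
    · exact no_above hd (Or.inr (mem_partF.1 hb)) hbq h4
  · refine ⟨-((n : ℤ) * S.bd), -((n : ℤ) * S.bd), fun p hp => ?_⟩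
    have h0 := hs.1
    have e7 : (n : ℤ) * (2 * S.bd + 2) = 2 * ((n : ℤ) * S.bd) + 2 * n := by ring
    rcases Cap.mem_R'.1 hp with h | h
    · obtain ⟨u, hu, rfl⟩ := mem_image.1 h
      obtain ⟨a, -, ha⟩ := mem_side.1 hu
      have h2 := room_bd hs ha
      unfold rfl2
      push_cast
      omega
    · obtain ⟨h1, h2, h3⟩ := h
      have h4 : (((p.1 : ℤ) - 1, -1 - p.2) : ℤ × ℤ) ∈ S.room n s (.inl r) ∨
          ((p.1, -1 - p.2) : ℤ × ℤ) ∈ S.room n s (.inl r) := by
        rw [mem_room, mem_room]
        have h1' : S.fl n s (.inl r) ≤ p.1 ∧ p.1 < S.fr n s (.inl r) + 1 := h1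
        have h2' : -y ≤ p.2 := h2
        have h3' : p.2 < -S.fb n (.inl r) := h3
        simp only
        omega
      rcases h4 with h4 | h4
      · have h5 := room_bd hs h4
        simp only at h5
        push_cast
        omega
      · have h5 := room_bd hs h4
        simp only at h5
        push_cast
        omega

end

end Shape
end Full
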