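import Pool.Agent.Full.Norm.RmsEnv
import Pool.Agent.Full.Norm.ShapeCap

/-!
# The marks of a shape in the two halves of a row

`Shape.flat_up`, `Shape.flat_low`: the marks are points of floors of the upper half, resp. of ceilings of
the reflected lower half, far from the ends and the links.  `far_flat_flat`, `far_pt`: they are far from
each other.
-/

set_option autoImplicit false

open Finset Full.Norm

namespace Full.Norm.Rms
variable {K : Type*} {ρ : Rms K} {w : ℕ} {F : Finset K} {q : K} {L : K → Bool} {D : Cap}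

/-- points of floors and ceilings of different rooms are far from each other -/
theorem IsCap.far_flat_flat (h : ρ.IsCap w F q L D) {a a' : K} (ha : a = q ∨ a ∈ F)
    (ha' : a' = q ∨ a' ∈ F) (hne : a ≠ a') {u u' : Bool} {P P' : ℤ × ℤ} {R : ℕ}
    (hP : ρ.Flat F q R a u P) (hP' : ρ.Flat F q R a' u' P') (hR : R < 2 * w) : P - P' ∉ sqr R := by
  rw [mem_sqr]
  have e1 := h.ok.wd a ha
  have e2 := h.ok.ht a ha
  have e3 := h.ok.wd a' ha'
  have e4 := h.ok.ht a' ha'
  have e5 := h.hw
  have hy := hP.y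
  have hl := hP.l
  have hr := hP.r
  have hk := hP.lk a' ha'
  have hy' := hP'.y
  have hl' := hP'.l
  have hr' := hP'.r
  have h2 : ρ.Sep w a a' ∨ ρ.y1 a = ρ.y0 a' ∨ ρ.y1 a' = ρ.y0 a := by
    rcases h.ok.sep a ha a' ha' hne with h2 | h2 | h2
    · exact Or.inl h2
    · exact Or.inr (Or.inl h2.1)
    · exact Or.inr (Or.inr h2.1)
  unfold Sep at h2
  cases u <;> cases u' <;>
    simp only [if_true, Bool.false_eq_true, if_false, Prod.fst_sub, Prod.snd_sub] at hy hk hy' ⊢ <;> omega

/-- `next` along a straight wall: the two wall ends are in neighbouring tiles -/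
lemma next_pair {τ : Type*} {g : Half τ → Half τ} {x x' : Half τ} (hx : g x = x) (hx' : g x' = x')
    (h1 : g (rho x) ≠ rho x) (h2 : rho (g (rho x)) = x') : next g x = x' := by
  classical
  have h3 : rot g x = rho x := by
    show rho (g x) = _
    rw [hx]
  have h4 : (rot g)^[2] x = x' := by
    show rot g (rot g x) = x'
    rw [h3]
    exact h2
  have hex : ∃ k, 1 ≤ k ∧ g ((rot g)^[k] x) = (rot g)^[k] x := ⟨2, by norm_num, by rw [h4]; exact hx'⟩
  have h5 : Nat.find hex = 2 := by
    have h6 := Nat.find_spec hex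
    have h7 := Nat.find_min' hex (m := 2) ⟨by norm_num, by rw [h4]; exact hx'⟩
    by_contra h8
    have h9 : Nat.find hex = 1 := by omega
    rw [h9] at h6
    refine h1 ?_
    have h10 : g (rot g x) = rot g x := h6.2
    rw [h3] at h10
    exact h10
  unfold next
  rw [dif_pos hex, h5, h4]

/-- the wall end after a point of a floor or of a ceiling -/
def fma (u : Bool) (P : ℤ × ℤ) : Half (ℤ × ℤ) := if u then (P, .S) else ((P.1 - 1, P.2 - 1), .N)

/-- **the two wall ends at a point of a floor or of a ceiling** -/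
theorem IsCap.next_flat (h : ρ.IsCap w F q L D) {a : K} {u : Bool} (ha : (a = q ∧ u = false) ∨ a ∈ F)
    {P : ℤ × ℤ} {R : ℕ} (hP : ρ.Flat F q R a u P) (hR : R < 2 * w) (hR1 : 1 ≤ R) :
    (Bd D.R D.g (fma u P) ∧ fma u P ∉ D.C) ∧ next D.g (fme u P) = fma u P := by
  have h1 := h.qbox_flat (ha.imp_left And.left) hP (by omega)
  have h2 := h.plain_flat ha hP hR
  have hin : ∀ s : ℤ × ℤ, s ∈ sqr 1 → (P + s ∈ D.R ↔ decide (0 ≤ s.2) = u) := by
    intro s hs
    rw [h1.2 s (by rw [mem_sqr] at hs ⊢; omega)]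
    unfold QSet flt
    rw [beq_iff_eq]
    have e : decide (P.2 ≤ (P + s).2) = decide (0 ≤ s.2) := by
      rw [decide_eq_decide, Prod.snd_add]
      omega
    rw [e]
  have hpl : ∀ s : ℤ × ℤ, s ∈ sqr 1 → (D.l ≤ (P + s).1 ∧ (P + s).1 < D.r) ∧ D.y ≤ (P + s).2 ∧ (P + s).2 < D.t →
      (D.l < (P + s).1 ∧ (P + s).1 < D.r - 1) ∧ D.y < (P + s).2 :=
    fun s hs => h2 s (by rw [mem_sqr] at hs ⊢; omega)
  have hnb : ∀ s : ℤ × ℤ, s ∈ sqr 1 → P + s ∈ D.R → ∀ d,
      (cyl D.l D.r D.y D.t).nb d (P + s) = some (P + s + d.vec) :=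
    fun s hs hs' d => Cap.nb_plain hs' (fun h => (hpl s hs h).1) d
  have hwall : ∀ s : ℤ × ℤ, s ∈ sqr 1 → P + s ∈ D.R → ∀ d, P + s + d.vec ∉ D.R →
      D.g (P + s, d) = (P + s, d) := fun s hs hs' d hd => Cap.glue_wall (hnb s hs hs' d) hd
  have hglue : ∀ s : ℤ × ℤ, s ∈ sqr 1 → P + s ∈ D.R → ∀ d, P + s + d.vec ∈ D.R →
      D.g (P + s, d) = (P + s + d.vec, d.opp) := fun s hs hs' d hd => Cap.glue_nb (hnb s hs hs' d) hs' hd
  have hC : ∀ s : ℤ × ℤ, s ∈ sqr 1 → ∀ d, (P + s, d) ∉ D.C := by
    intro s hs d h3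
    obtain ⟨h4, h5, -⟩ := Cap.mem_C.1 h3
    have h5' : (P + s).2 = D.y := h5
    have h6 := (hpl s hs ⟨h4, h5'.ge, by rw [h5']; exact D.hyt⟩).2
    omega
  have z1 : ((-1, 0) : ℤ × ℤ) ∈ sqr 1 := by rw [mem_sqr]; simp
  have z2 : ((0, 0) : ℤ × ℤ) ∈ sqr 1 := by rw [mem_sqr]; simp
  have z3 : ((0, -1) : ℤ × ℤ) ∈ sqr 1 := by rw [mem_sqr]; simp
  have z4 : ((-1, -1) : ℤ × ℤ) ∈ sqr 1 := by rw [mem_sqr]; simp
  have m1 := hin _ z1
  have m2 := hin _ z2
  have m3 := hin _ z3
  have m4 := hin _ z4
  cases u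
  · -- a ceiling
    have e1 : fme false P = (P + (0, -1), .N) := Prod.ext (Prod.ext (by simp [fme]) (by simp [fme]; rfl)) rfl
    have e2 : fma false P = (P + (-1, -1), .N) :=
      Prod.ext (Prod.ext (by simp [fma]; rfl) (by simp [fma]; rfl)) rfl
    have n2 : P + (0, 0) ∉ D.R := by rw [m2]; simp
    have n1 : P + (-1, 0) ∉ D.R := by rw [m1]; simp
    have n3 : P + (0, -1) ∈ D.R := by rw [m3]; simp
    have n4 : P + (-1, -1) ∈ D.R := by rw [m4]; simp
    have v1 : P + (0, -1) + Dir.N.vec = P + (0, 0) := by rw [add_assoc]; rfl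
    have v2 : P + (-1, -1) + Dir.N.vec = P + (-1, 0) := by rw [add_assoc]; rfl
    have v3 : P + (0, -1) + Dir.W.vec = P + (-1, -1) := by rw [add_assoc]; rfl
    have g1 : D.g (P + (0, -1), .N) = (P + (0, -1), .N) := hwall _ z3 n3 _ (by rw [v1]; exact n2)
    have g2 : D.g (P + (-1, -1), .N) = (P + (-1, -1), .N) := hwall _ z4 n4 _ (by rw [v2]; exact n1)
    have g3 : D.g (P + (0, -1), .W) = (P + (-1, -1), .E) := by
      have g3 := hglue _ z3 n3 .W (by rw [v3]; exact n4)
      rw [v3] at g3
      exact g3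
    rw [e1, e2]
    refine ⟨⟨⟨n4, g2⟩, hC _ z4 _⟩, next_pair g1 g2 ?_ ?_⟩
    · show D.g (P + (0, -1), .W) ≠ (P + (0, -1), .W)
      rw [g3]
      intro h3
      exact (show Dir.E ≠ Dir.W by decide) (congrArg Prod.snd h3)
    · show rho (D.g (P + (0, -1), .W)) = _
      rw [g3]
      rfl
  · -- a floor
    have e1 : fme true P = (P + (-1, 0), .S) := Prod.ext (Prod.ext (by simp [fme]; rfl) (by simp [fme])) rfl
    have e2 : fma true P = (P + (0, 0), .S) := Prod.ext (Prod.ext (by simp [fma]) (by simp [fma])) rfl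
    have n2 : P + (0, 0) ∈ D.R := by rw [m2]; simp
    have n1 : P + (-1, 0) ∈ D.R := by rw [m1]; simp
    have n3 : P + (0, -1) ∉ D.R := by rw [m3]; simp
    have n4 : P + (-1, -1) ∉ D.R := by rw [m4]; simp
    have v1 : P + (-1, 0) + Dir.S.vec = P + (-1, -1) := by rw [add_assoc]; rfl
    have v2 : P + (0, 0) + Dir.S.vec = P + (0, -1) := by rw [add_assoc]; rfl
    have v3 : P + (-1, 0) + Dir.E.vec = P + (0, 0) := by rw [add_assoc]; rfl
    have g1 : D.g (P + (-1, 0), .S) = (P + (-1, 0), .S) := hwall _ z1 n1 _ (by rw [v1]; exact n4)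
    have g2 : D.g (P + (0, 0), .S) = (P + (0, 0), .S) := hwall _ z2 n2 _ (by rw [v2]; exact n3)
    have g3 : D.g (P + (-1, 0), .E) = (P + (0, 0), .W) := by
      have g3 := hglue _ z1 n1 .E (by rw [v3]; exact n2)
      rw [v3] at g3
      exact g3
    rw [e1, e2]
    refine ⟨⟨⟨n2, g2⟩, hC _ z2 _⟩, next_pair g1 g2 ?_ ?_⟩
    · show D.g (P + (-1, 0), .E) ≠ (P + (-1, 0), .E)
      rw [g3]
      intro h3
      exact (show Dir.W ≠ Dir.E by decide) (congrArg Prod.snd h3)
    · show rho (D.g (P + (-1, 0), .E)) = _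
      rw [g3]
      rfl

end Full.Norm.Rms

namespace Full
namespace Shape
variable {S : Shape} {n : ℕ} {s : S.Q × Bool → ℕ} {σ : Fin 4 → ℕ}

/-- the abscissa of a mark -/
def Marks.px (m : S.Marks) (n : ℕ) (σ : Fin 4 → ℕ) (j : Fin 4) : ℤ := n * m.x j + σ j

section
variable {m : S.Marks} (hS : S.Ok) (hm : m.Ok) (hs : S.Small2 n s) (hσ : ∀ j, 4 * σ j ≤ n) {R : ℕ}
  (hR : 2 * R + 4 ≤ n)
include hm hs hσ hR

lemma px_in (j : Fin 4) : S.fl n s (.inl (m.room j)) + R + 2 ≤ m.px n σ j ∧
    m.px n σ j + R + 2 ≤ S.fr n s (.inl (m.room j)) := by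
  have h1 := mul_gapC n (hm.left j)
  have h2 := mul_gapC n (hm.right j)
  have h3 := fl_le hs (.inl (m.room j))
  have h4 := fr_le hs (.inl (m.room j))
  have h5 := hσ j
  have h6 : (n : ℤ) * (m.x j + 1) = n * m.x j + n := by ring
  unfold Marks.px
  omega

include hS

/-- the mark is not near a link of its floor -/
lemma px_link (j : Fin 4) {c : S.Q} (hc : S.ft n c = S.fb n (.inl (m.room j))) :
    m.px n σ j + R + 2 ≤ S.fl n s c ∨ S.fr n s c + R + 2 ≤ m.px n σ j := by
  have hn : 0 < (n : ℤ) := by have := hs.1; omega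
  have hc' : S.yt c = S.yb (.inl (m.room j)) := by
    unfold ft fb at hc
    exact mul_left_cancel₀ hn.ne' hc
  have e1 := hS.y_lt c
  have e2 := hS.y_lt (.inl (m.room j))
  have h3 := fl_le hs c
  have h4 := fr_le hs c
  have h5 := hσ j
  by_cases hon : S.On c (.inl (m.room j))
  · rcases c with r | k
    · exact absurd hon id
    · have h6 : S.Att k (m.room j) (m.top j) := by
        unfold Att
        rw [hm.low j]
        exact hon
      rcases hm.wall j k h6 with h7 | h7
      · have h8 := mul_gapC n h7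
        have h9 : (n : ℤ) * (m.x j + 1) = n * m.x j + n := by ring
        left
        unfold Marks.px
        omega
      · have h8 := mul_gapC n h7
        right
        unfold Marks.px
        omega
  · have h0 := px_in hm hs hσ hR j
    have hne : c ≠ .inl (m.room j) := by
      rintro rfl
      omega
    have h6 : ¬ S.On (.inl (m.room j)) c := fun h7 => by
      have := hS.on_y _ _ h7
      omega
    rcases hS.sep c (.inl (m.room j)) hne hon h6 with h7 | h7 | h7 | h7
    · have h8 := mul_gapC n h7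
      have h9 := fl_le hs (.inl (m.room j))
      right
      omega
    · have h8 := mul_gapC n h7
      have h9 := fr_le hs (.inl (m.room j))
      left
      omega
    · omega
    · omega

/-- the marks above the row -/
theorem flat_up {q : S.Q} {y : ℤ} {j : Fin 4} (hj : (.inl (m.room j) : S.Q) ∈ S.part q true) :
    (S.upRms n s q y).Flat (S.partF q true) q R (.inl (m.room j)) true
      (m.px n σ j, S.fb n (.inl (m.room j))) where
  y := by
    simp only [upRms, if_true]
    rw [if_neg (partF_ne (mem_partF.2 hj))]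
  l := by
    have := px_in hm hs hσ hR j
    simp only [upRms]
    omega
  r := by
    have := px_in hm hs hσ hR j
    simp only [upRms]
    omega
  lk := fun c _ h => by
    simp only [upRms, if_true] at h
    rw [if_neg (partF_ne (mem_partF.2 hj))] at h
    have := px_link hS hm hs hσ hR j h
    simp only [upRms]
    omega

/-- the marks below the row and on its floor, reflected -/
theorem flat_low {q : S.Q} {y : ℤ} {j : Fin 4}
    (hj : (.inl (m.room j) : S.Q) = q ∨ (.inl (m.room j) : S.Q) ∈ S.part q false)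
    (hy : S.fb n q < y) (hy' : y ≤ S.ft n q) (hd : S.Tree) :
    (S.lowRms n s q y).Flat (S.partF q false) q R (.inl (m.room j)) false
      (m.px n σ j, -S.fb n (.inl (m.room j))) where
  y := by simp only [lowRms, Bool.false_eq_true, if_false]
  l := by
    have := px_in hm hs hσ hR j
    simp only [lowRms]
    omega
  r := by
    have := px_in hm hs hσ hR j
    simp only [lowRms]
    split_ifs <;> omega
  lk := fun c _ h => by
    simp only [lowRms, Bool.false_eq_true, if_false] at h ⊢
    by_cases hc : c = q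
    · subst hc
      rw [if_pos rfl] at h
      rw [if_pos rfl]
      rcases hj with hj | hj
      · rw [hj] at h
        omega
      · have hn : 0 < (n : ℤ) := by have := hs.1; omega
        have hne := partF_ne (mem_partF.2 hj)
        have h1 : ¬ S.On c (.inl (m.room j)) := no_above hd (Or.inr hj) hne
        have h2 : ¬ S.On (.inl (m.room j)) c := fun h3 => by
          have h4 := on_ft (n := n) hS h3
          have h5 := mul_gapC n (hS.y_lt (.inl (m.room j)))
          have h6 := mul_gapC n (hS.y_lt c)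
          unfold ft fb at *
          omega
        have h3 := fl_le hs c
        have h4 := fr_le hs c
        have h9 := fl_le hs (.inl (m.room j))
        have h10 := fr_le hs (.inl (m.room j))
        have h0 := px_in hm hs hσ hR j
        rcases hS.sep (.inl (m.room j)) c hne h2 h1 with h7 | h7 | h7 | h7
        · have h8 := mul_gapC n h7
          left
          omega
        · have h8 := mul_gapC n h7
          right
          omega
        · have h5 := mul_gapC n (hS.y_lt (.inl (m.room j)))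
          have h8 := mul_gapC n h7
          unfold ft fb at *
          omega
        · have h8 := mul_gapC n h7
          unfold ft fb at *
          omega
    · rw [if_neg hc] at h ⊢
      have := px_link hS hm hs hσ hR j (c := c) (by omega)
      omega

end

/-- two marks of the same room are far from each other -/
lemma px_far {m : S.Marks} (hm : m.Ok) (hσ : ∀ j, 4 * σ j ≤ n) {R : ℕ} (hR : 2 * R + 4 ≤ n) {j j' : Fin 4}
    (hne : j ≠ j') (hj : m.room j = m.room j') :
    m.px n σ j + R < m.px n σ j' ∨ m.px n σ j' + R < m.px n σ j := by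
  have hx : m.x j ≠ m.x j' := by
    intro hx
    have h1 := (hm.floor j (hm.low j)).2
    have h2 := (hm.floor j' (hm.low j')).2
    rw [hj, hx, h2] at h1
    exact hne h1.symm
  have h3 := hσ j
  have h4 := hσ j'
  unfold Marks.px
  rcases lt_or_gt_of_ne hx with h5 | h5
  · have h6 := mul_gapC n h5
    omega
  · have h6 := mul_gapC n h5
    omega

section
variable {m : S.Marks} {w : ℕ} (hS : S.Ok) (hm : m.Ok) (hs : S.Small2 n s) (hσ : ∀ j, 4 * σ j ≤ n) {R : ℕ}
  (hR : 2 * R + 4 ≤ n) (hRw : R < 2 * w) (hd : S.Tree)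
include hS hm hs hσ hR hRw hd

omit hd in
/-- the marks of the upper half are far from each other -/
theorem far_up {q : S.Q} {y : ℤ} {L : S.Q → Bool} {D : Cap}
    (hc : (S.upRms n s q y).IsCap w (S.partF q true) q L D) {j j' : Fin 4} (hne : j ≠ j')
    (hj : (.inl (m.room j) : S.Q) ∈ S.part q true) (hj' : (.inl (m.room j') : S.Q) ∈ S.part q true) :
    ((m.px n σ j, S.fb n (.inl (m.room j))) - (m.px n σ j', S.fb n (.inl (m.room j'))) : ℤ × ℤ) ∉
      sqr R := by
  by_cases h : m.room j = m.room j'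
  · have := px_far hm hσ hR hne h
    rw [mem_sqr]
    simp only [Prod.fst_sub, Prod.snd_sub]
    omega
  · exact hc.far_flat_flat (Or.inr (mem_partF.2 hj)) (Or.inr (mem_partF.2 hj'))
      (fun h1 => h (Sum.inl.inj h1)) (flat_up hS hm hs hσ hR hj) (flat_up hS hm hs hσ hR hj') hRw

/-- the marks of the reflected lower half are far from each other -/
theorem far_low {q : S.Q} {y : ℤ} {L : S.Q → Bool} {D : Cap}
    (hc : (S.lowRms n s q y).IsCap w (S.partF q false) q L D)
    (hy : S.fb n q < y) (hy' : y ≤ S.ft n q) {j j' : Fin 4} (hne : j ≠ j')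
    (hj : (.inl (m.room j) : S.Q) = q ∨ (.inl (m.room j) : S.Q) ∈ S.part q false)
    (hj' : (.inl (m.room j') : S.Q) = q ∨ (.inl (m.room j') : S.Q) ∈ S.part q false) :
    ((m.px n σ j, -S.fb n (.inl (m.room j))) - (m.px n σ j', -S.fb n (.inl (m.room j'))) : ℤ × ℤ) ∉
      sqr R := by
  by_cases h : m.room j = m.room j'
  · have := px_far hm hσ hR hne h
    rw [mem_sqr]
    simp only [Prod.fst_sub, Prod.snd_sub]
    omega
  · exact hc.far_flat_flat (hj.imp_right mem_partF.2) (hj'.imp_right mem_partF.2)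
      (fun h1 => h (Sum.inl.inj h1)) (flat_low hS hm hs hσ hR hj hy hy' hd)
      (flat_low hS hm hs hσ hR hj' hy hy' hd) hRw

end

end Shape
end Full
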