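import Pool.Agent.Full.Norm.CapLab
import Pool.Agent.Full.Norm.MarkFlat

/-!
# The points of the dead ends

`Rms.IsCap.flat_right`: the points of the ceiling of the right dead end (the mark of the trio) are flat
points of the strip; `label_right`: their labels.
-/

set_option autoImplicit false

namespace Full.Norm
open Finset

namespace Rms
variable {K : Type*} {ρ : Rms K} {w : ℕ} {F : Finset K} {q : K} {Lk : K → Bool} {D : Cap} {a L : ℤ}
  {o : Half (ℤ × ℤ) → ℤ}

/-- the strip is at least as wide as a dead end -/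
lemma _root_.Full.Norm.Cap.Lb.le_width (hl : D.Lb a L o) : a ≤ D.r - D.l := by
  by_contra h
  have h1 := D.hlr
  have h2 := (hl.right (D.r - D.l) (by omega) (by omega)).1.1.1
  rw [show D.r - 1 - (D.r - D.l) = D.l - 1 by ring] at h2
  have h3 := D.hyt
  rcases Cap.mem_R.1 h2 with h4 | h4
  · exact D.hU _ _ le_rfl (by omega) (by omega) (by omega) h4
  · omega

/-- no tile above the ceiling of the right dead end -/
lemma _root_.Full.Norm.Cap.Lb.above_right (hl : D.Lb a L o) {i : ℤ} (h0 : 0 ≤ i) (hi : i < a) :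
    (D.r - 1 - i, D.t) ∉ D.R := by
  intro h
  have h1 := (hl.right i h0 hi).1.1
  have h2 := Cap.glue_nb (D := D) (t := (D.r - 1 - i, D.t - 1)) (t' := (D.r - 1 - i, D.t)) (d := .N)
    (by rw [cyl_N, sub_add_cancel]) h1.1 h
  rw [h1.2] at h2
  have h3 := congrArg (fun x : Half (ℤ × ℤ) => x.1.2) h2
  simp only at h3
  omega

/-- no tile above the ceiling of the left dead end -/
lemma _root_.Full.Norm.Cap.Lb.above_left (hl : D.Lb a L o) {i : ℤ} (h0 : 0 ≤ i) (hi : i < a) :
    (D.l + i, D.t) ∉ D.R := by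
  intro h
  have h1 := (hl.left i h0 hi).1.1
  have h2 := Cap.glue_nb (D := D) (t := (D.l + i, D.t - 1)) (t' := (D.l + i, D.t)) (d := .N)
    (by rw [cyl_N, sub_add_cancel]) h1.1 h
  rw [h1.2] at h2
  have h3 := congrArg (fun x : Half (ℤ × ℤ) => x.1.2) h2
  simp only at h3
  omega

/-- the links on the strip are between the dead ends -/
lemma IsCap.link_mid (h : ρ.IsCap w F q Lk D) (hl : D.Lb a L o) {c : K} (hc : c ∈ F)
    (hy : ρ.y0 c = ρ.y1 q) : (ρ.x1 q + 2 * w ≤ ρ.x0 c ∨ ρ.x1 c + 2 * w ≤ ρ.x0 q) ∨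
      ρ.x0 q + a ≤ ρ.x0 c ∧ ρ.x1 c + a ≤ ρ.x1 q := by
  have hqc : q ≠ c := fun h1 => h.hq (h1 ▸ hc)
  have e1 := h.ok.wd c (Or.inr hc)
  have e2 := h.ok.ht c (Or.inr hc)
  have e3 := h.ok.ht q (Or.inl rfl)
  have e4 := h.hw
  rcases h.ok.sep q (Or.inl rfl) c (Or.inr hc) hqc with h1 | h1 | h1
  · unfold Sep at h1
    omega
  · rcases h.stk q c (Or.inl rfl) (Or.inr hc) h1 with h2 | h2
    · right
      have h3 := h2.2.2
      unfold Ins at h3
      constructor
      · by_contra h4
        refine hl.above_left (i := ρ.x0 c - ρ.x0 q) (by omega) (by omega) (h.mem_R.2 ⟨c, Or.inr hc, ?_⟩)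
        rw [mem_rm, h.hl, h.ht]
        simp only
        omega
      · by_contra h4
        refine hl.above_right (i := ρ.x1 q - ρ.x1 c) (by omega) (by omega) (h.mem_R.2 ⟨c, Or.inr hc, ?_⟩)
        rw [mem_rm, h.hr, h.ht]
        simp only
        omega
    · rw [h.Lq] at h2
      exact absurd h2.1 (by decide)
  · exact absurd h1 (h.bot c hc)

/-- **the points of the ceiling of the right dead end** -/
theorem IsCap.flat_right (h : ρ.IsCap w F q Lk D) (hl : D.Lb a L o) {R : ℕ} {g : ℤ} (hg : R < g)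
    (hga : g + R < a) : ρ.Flat F q R q false (D.r - g, D.t) where
  y := h.ht
  l := by
    have h1 := hl.le_width
    rw [h.hl] at h1
    simp only
    omega
  r := by
    simp only
    rw [h.hr]
    omega
  lk c hc hy := by
    have h1 := hl.le_width
    have e3 := h.ok.ht q (Or.inl rfl)
    have e4 := h.hw
    rw [h.hl, h.hr] at h1
    simp only [Bool.false_eq_true, if_false] at hy
    simp only
    rw [h.hr]
    rcases hc with rfl | hc
    · omega
    · rcases h.link_mid hl hc hy with (h2 | h2) | h2 <;> omega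

/-- the label of the wall end before such a point -/
theorem _root_.Full.Norm.Cap.Lb.label_right (hl : D.Lb a L o) {g : ℤ} (hg : 0 < g) (hga : g ≤ a) :
    o (fme false (D.r - g, D.t)) = g - 1 := by
  have h1 := (hl.right (g - 1) (by omega) (by omega)).2
  rw [show D.r - 1 - (g - 1) = D.r - g by ring] at h1
  exact h1

/-- the points of the dead end are far from the points of floors and ceilings of the other rooms -/
theorem IsCap.far_right (h : ρ.IsCap w F q Lk D) (hl : D.Lb a L o) {R : ℕ} {g : ℤ} (hg : R < g)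
    (hga : g + R < a) {b : K} (hb : b ∈ F) {u : Bool} {P : ℤ × ℤ} (hP : ρ.Flat F q R b u P)
    (hR : R < 2 * w) : ((D.r - g, D.t) : ℤ × ℤ) - P ∉ sqr R ∧ P - (D.r - g, D.t) ∉ sqr R := by
  have hqb : q ≠ b := fun h1 => h.hq (h1 ▸ hb)
  exact ⟨h.far_flat_flat (Or.inl rfl) (Or.inr hb) hqb (h.flat_right hl hg hga) hP hR,
    h.far_flat_flat (Or.inr hb) (Or.inl rfl) hqb.symm hP (h.flat_right hl hg hga) hR⟩

end Rms

end Full.Norm
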