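import Pool.Agent.Full.Norm.CapRed
import Pool.Agent.Full.Norm.EnvI
import Pool.Agent.Full.Norm.CornerMem
import Pool.Agent.Full.Norm.TrioFlat
import Pool.Agent.Full.Norm.WallCount

/-!
# The environment of a labelled cap made of rooms

`Rms.IsCap.env_lb`: the special points and the positions given by sets of labels satisfy the hypotheses of the
norm bound.
-/

set_option autoImplicit false

namespace Full.Norm
open Finset Function Full.X3

/-- two points near a third one are near each other -/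
lemma sqr_tri {p q P : ℤ × ℤ} {R : ℕ} (h1 : p - P ∈ sqr R) (h2 : q - P ∈ sqr R) : p - q ∈ sqr (4 * R) := by
  rw [mem_sqr] at h1 h2 ⊢
  simp only [Prod.fst_sub, Prod.snd_sub] at h1 h2 ⊢
  push_cast
  omega

namespace Rms
variable {K₁ : Type*} {ρ : Rms K₁} {w : ℕ} {F : Finset K₁} {q : K₁} {Lk : K₁ → Bool} {D : Cap}
  {a L : ℤ} {o : Half (ℤ × ℤ) → ℤ}

/-- **the environment of a labelled cap made of rooms** -/
theorem IsCap.env_lb (h : ρ.IsCap w F q Lk D) {K n B m R : ℕ}
    (tame : D.Tame w (n * B)) (hm : 1 ≤ m) (hmR : 100 * m + 100 ≤ R) (hRw : 4 * R ≤ w) (hn : n ≤ K * m)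
    (hA : n * B ≤ K * m) (hRn : R ≤ n) {μ : Type*} [Fintype μ] (hS : 4 * F.card + Fintype.card μ ≤ K)
    (bal : (F.filter fun a => Lk a = false).card = (F.filter fun a => Lk a = true).card)
    {p : ℕ} {T : Fin p → Finset ℤ}
    (hpl : ∀ i, ∀ y, D.Wl y → o y ∈ T i → D.Plain y.1 R)
    (hsep : ∀ i j, i ≠ j → ∀ y y', D.Wl y → D.Wl y' → o y ∈ T i → o y' ∈ T j → y.1 - y'.1 ∉ sqr (4 * R))
    {P : μ → ℤ × ℤ} {u : μ → Bool} (room : μ → K₁) (hroom : ∀ j, (room j = q ∧ u j = false) ∨ room j ∈ F)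
    (flat : ∀ j, ρ.Flat F q (2 * R + 2) (room j) (u j) (P j))
    (far : ∀ j j', j ≠ j' → P j - P j' ∉ sqr (2 * R + 2)) :
    ∃ E : D.Env p, E.Ok (8 * (K + 2) ^ 2) n w (n * B) m R ∧ E.M.card = Fintype.card μ ∧
      (E.Y = fun i => D.lab o (T i)) ∧ ∀ b x, E.chg b x = (∑ j, if x = fme (u j) (P j) then 1 else 0) -
        ∑ i, ((if x = b i then 1 else 0) + (if next D.g x = b i then 1 else 0)) := by
  classical
  set K' := 8 * (K + 2) ^ 2 with hK'
  have hKK : K ≤ K' := by
    rw [hK']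
    nlinarith
  set Y : Fin p → Finset (Half (ℤ × ℤ)) := fun i => D.lab o (T i) with hY
  set N : Fin p → Finset μ := fun i => univ.filter fun j => ∃ y ∈ Y i, y.1 - P j ∈ sqr R with hN
  have hmw : m < w := by omega
  have hcard : ∀ i, (Y i).card ≤ K' * n := by
    intro i
    have h1 := tame.card_walls_le hm hmw (S := Y i) fun x hx => (Cap.mem_lab.1 hx).1
    have h2 : n * B / m ≤ K := Nat.div_le_of_le_mul (by rw [mul_comm m K]; exact hA)
    have hmn : m ≤ n := by omega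
    calc (Y i).card ≤ (n * B / m + 2) ^ 2 * (8 * m) := h1
      _ ≤ (K + 2) ^ 2 * (8 * n) :=
          Nat.mul_le_mul (Nat.pow_le_pow_left (by omega) 2) (Nat.mul_le_mul_left 8 hmn)
      _ = K' * n := by rw [hK']; ring
  have hysep : ∀ i j, i ≠ j → ∀ y ∈ Y i, ∀ y' ∈ Y j, y.1 - y'.1 ∉ sqr (4 * R) := by
    intro i j hij y hy y' hy'
    have e1 := Cap.mem_lab.1 hy
    have e2 := Cap.mem_lab.1 hy'
    exact hsep i j hij y y' e1.1 e2.1 e1.2 e2.2
  have hok : (ρ.env D F Lk P u Y N).toEnv.Ok K' n w (n * B) m R :=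
    h.env_ok tame hm hmR hRw (hn.trans (Nat.mul_le_mul_right _ hKK)) (hA.trans (Nat.mul_le_mul_right _ hKK)) hRn
      (hS.trans hKK) (fun v hv => h.corner_mem v hv) bal room hroom flat far
      (fun i y hy => (Cap.mem_lab.1 hy).1) (fun i y hy => hpl i y (Cap.mem_lab.1 hy).1 (Cap.mem_lab.1 hy).2)
      hcard hysep
      (fun i y hy j hj => by
        rw [hN, mem_filter]
        exact ⟨mem_univ _, y, hy, hj⟩)
      (fun i j hij => by
        rw [Finset.disjoint_left]
        intro c hc hc'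
        rw [hN, mem_filter] at hc hc'
        obtain ⟨-, y, hy, h1⟩ := hc
        obtain ⟨-, y', hy', h2⟩ := hc'
        exact hysep i j hij y hy y' hy' (sqr_tri h1 h2))
  refine ⟨_, hok, ?_, rfl, fun b x => env_chg b x⟩
  rw [Cap.EnvI.card_M, env_card_M]

end Rms

end Full.Norm
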