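import Pool.Agent.Full.X3.Amp

/-!
# Arbitrary charges, and the pair form of the screening sums

`Slab.qC W C s`: the integer phases of the walls for the cumulative charge `C` (`C p` = charge up to the
position `p`) and the seam charge `s`; `FC` the factors.  `vup_pair`, `vlow_pair`: the sum of the vectors
with the charge `+2` in the gaps before and after a wall end is the vector with the charges `+1` before
and `+1` after it.  `sum_pair`: the sum over an interval of gaps.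
-/

set_option autoImplicit false

namespace Full
open Full.X3 Function Finset SixV

/-- vectors depend linearly on the factor of one half edge -/
lemma Net.vec_pair {τ ι : Type*} [DecidableEq τ] [Fintype ι] {T : Finset τ} {g : Half τ → Half τ}
    {c : ℂ} {e : ι → Half τ} {F₁ F₂ F : Half τ → Bool → ℂ} {u : Half τ} (hu : u ∈ Net.hs T)
    (h : ∀ w ∈ Net.hs T, w ≠ u → F₁ w = F w ∧ F₂ w = F w) (hF : ∀ b, F₁ u b + F₂ u b = F u b)
    (s : ι → Bool) : Net.vec T g c F₁ e s + Net.vec T g c F₂ e s = Net.vec T g c F e s := by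
  unfold Net.vec
  rw [← sum_add_distrib]
  refine sum_congr rfl fun o _ => ?_
  unfold Net.W Net.wt
  rw [← mul_add]
  congr 1
  rw [← mul_prod_erase _ _ hu, ← mul_prod_erase _ _ hu, ← mul_prod_erase _ _ hu, ← hF, add_mul]
  congr 1
  · congr 1
    refine prod_congr rfl fun w hw => ?_
    rw [(h w (mem_of_mem_erase hw) (ne_of_mem_erase hw)).1]
  · congr 1
    refine prod_congr rfl fun w hw => ?_
    rw [(h w (mem_of_mem_erase hw) (ne_of_mem_erase hw)).2]

/-- the two phases of the pair form -/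
lemma ue_pair (r : ℝ) (b : Bool) : ue (sgn b * (r + kap * (-4))) + ue (sgn b * (r + kap * 4)) =
    ue (sgn b * r) := by
  have h1 : ∀ t : ℝ, ue (t + Real.pi / 3) + ue (t - Real.pi / 3) = ue t := by
    intro t
    rw [sub_eq_add_neg, ue_add, ue_add, ← mul_add, ue_cos, ← Complex.ofReal_cos, Real.cos_pi_div_three]
    push_cast
    ring
  have h2 : kap * 4 = -(Real.pi / 3) := by unfold kap; ring
  cases b
  · have e1 : ((sgn false : ℤ) : ℝ) * (r + kap * (-4)) = -r - Real.pi / 3 := by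
      rw [sgn_false, mul_neg, h2]; push_cast; ring
    have e2 : ((sgn false : ℤ) : ℝ) * (r + kap * 4) = -r + Real.pi / 3 := by
      rw [sgn_false, h2]; push_cast; ring
    have e3 : ((sgn false : ℤ) : ℝ) * r = -r := by rw [sgn_false]; push_cast; ring
    rw [e1, e2, e3, add_comm, h1]
  · have e1 : ((sgn true : ℤ) : ℝ) * (r + kap * (-4)) = r + Real.pi / 3 := by
      rw [sgn_true, mul_neg, h2]; push_cast; ring
    have e2 : ((sgn true : ℤ) : ℝ) * (r + kap * 4) = r - Real.pi / 3 := by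
      rw [sgn_true, h2]; push_cast; ring
    have e3 : ((sgn true : ℤ) : ℝ) * r = r := by rw [sgn_true]; push_cast; ring
    rw [e1, e2, e3, h1]

/-- a sum over an interval with an even number of points, in pairs -/
lemma sum_Icc_pair {M : Type*} [AddCommMonoid M] (f : ℤ → M) (a : ℤ) (N : ℕ) :
    ∑ j ∈ Icc a (a + 2 * N - 1), f j = ∑ i ∈ range N, (f (a + 2 * i) + f (a + 2 * i + 1)) := by
  induction N with
  | zero =>
    rw [range_zero, sum_empty, Icc_eq_empty (by push_cast; omega), sum_empty]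
  | succ N ih =>
    rw [sum_range_succ, ← ih]
    have h1 : Icc a (a + 2 * ((N + 1 : ℕ) : ℤ) - 1) =
        insert (a + 2 * N + 1) (insert (a + 2 * (N : ℤ)) (Icc a (a + 2 * N - 1))) := by
      ext x
      rw [mem_insert, mem_insert, mem_Icc, mem_Icc]
      push_cast
      omega
    rw [h1, sum_insert, sum_insert]
    · abel
    · rw [mem_Icc]; omega
    · rw [mem_insert, mem_Icc]; omega

namespace Slab
variable (D : Slab) (W : Lab)

open Classical in
/-- the phases for the cumulative charges `C` and the seam charge `s` -/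
noncomputable def qC (C : ℤ → ℤ) (s : ℤ) (w : Half ZT) : ℤ :=
  if D.IsW w then -W.th w - 4 * C (W.pos w) else
    match w with
    | (.inl (i, v), .W) => if i = D.l ∧ D.b ≤ v ∧ v < D.t then 4 * s else 0
    | (.inr (i, v), .W) => if i = D.l ∧ D.b ≤ v ∧ v < D.t then 4 * (s - 1) else 0
    | _ => 0

/-- the factors -/
noncomputable def FC (C : ℤ → ℤ) (s : ℤ) (w : Half ZT) (b : Bool) : ℂ :=
  ue (sgn b * qph (D.qC W C s) w)

/-- the factor of the seam below `z` -/
noncomputable def dS (s : ℤ) (b : Bool) : ℂ := ue (sgn b * (kap * (4 * s : ℤ)))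

variable {D W} {C C₁ C₂ : ℤ → ℤ} {s : ℤ} {nL nU a x y : ℤ}

/-- the phases of the marks and of the trio -/
theorem q0_eq_qC (c : Chg) (j k : ℤ) :
    D.q0 W c j k = D.qC W (fun p => c.dc j p + c.tc W.P k p) (c.dc j W.P) := rfl

theorem FF_eq_FC (c : Chg) (j k : ℤ) :
    D.FF W c j k = D.FC W (fun p => c.dc j p + c.tc W.P k p) (c.dc j W.P) := rfl

theorem dw_eq_dS (c : Chg) (j : ℤ) : dw W c j = dS (c.dc j W.P) := rfl

lemma qC_lowW {v : ℤ} (h3 : D.b ≤ v) (h4 : v < D.t) : D.qC W C s (.inl (D.l, v), .W) = 4 * s := by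
  have := D.hlr
  unfold qC
  rw [if_neg (not_isW_low le_rfl (by omega) h3 h4 (by decide))]
  simp only
  rw [if_pos ⟨trivial, h3, h4⟩]

lemma qC_upW {v : ℤ} (h3 : D.b ≤ v) (h4 : v < D.t) :
    D.qC W C s (.inr (D.l, v), .W) = 4 * (s - 1) := by
  have := D.hlr
  unfold qC
  rw [if_neg (not_isW_up le_rfl (by omega) h3 h4 (by decide))]
  simp only
  rw [if_pos ⟨trivial, h3, h4⟩]

lemma qC_low {i v : ℤ} (h1 : D.l ≤ i) (h2 : i ≤ D.r) (h3 : D.b ≤ v) (h4 : v < D.t) {d : Dir}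
    (hd : d = .E ∨ d = .N ∨ (d = .W ∧ D.l < i) ∨ (d = .S ∧ D.b < v)) :
    D.qC W C s (.inl (i, v), d) = 0 := by
  unfold qC
  rw [if_neg]
  · rcases hd with rfl | rfl | ⟨rfl, h⟩ | ⟨rfl, h⟩
    · rfl
    · rfl
    · simp only
      rw [if_neg (by omega)]
    · rfl
  · rcases hd with rfl | rfl | ⟨rfl, h⟩ | ⟨rfl, h⟩
    · exact not_isW_low h1 h2 h3 h4 (by decide)
    · exact not_isW_low h1 h2 h3 h4 (by decide)
    · exact not_isW_low h1 h2 h3 h4 (by decide)
    · exact not_isW_lowS h1 h2 h h4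

lemma qC_up {i v : ℤ} (h1 : D.l ≤ i) (h2 : i < D.r) (h3 : D.b ≤ v) (h4 : v < D.t) {d : Dir}
    (hd : d = .E ∨ d = .S ∨ (d = .W ∧ D.l < i) ∨ (d = .N ∧ v + 1 < D.t)) :
    D.qC W C s (.inr (i, v), d) = 0 := by
  unfold qC
  rw [if_neg]
  · rcases hd with rfl | rfl | ⟨rfl, h⟩ | ⟨rfl, h⟩
    · rfl
    · rfl
    · simp only
      rw [if_neg (by omega)]
    · rfl
  · rcases hd with rfl | rfl | ⟨rfl, h⟩ | ⟨rfl, h⟩
    · exact not_isW_up h1 h2 h3 h4 (by decide)
    · exact not_isW_up h1 h2 h3 h4 (by decide)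
    · exact not_isW_up h1 h2 h3 h4 (by decide)
    · exact not_isW_upN h1 h2 h3 h

lemma FC_one {w : Half ZT} (h : D.qC W C s w = 0) (b : Bool) : D.FC W C s w b = 1 := by
  unfold FC qph
  rw [h]
  simp

/-- **the factors satisfy the hypotheses of the cut network** -/
theorem fac_FC : Fac D (dS s) (D.FC W C s) where
  lowE := fun i v b h1 h2 h3 h4 => FC_one (qC_low h1 h2 h3 h4 (Or.inl rfl)) b
  lowW0 := fun v b h3 h4 => by
    unfold FC dS qph
    rw [qC_lowW h3 h4]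
  lowW := fun i v b h1 h2 h3 h4 =>
    FC_one (qC_low h1.le h2 h3 h4 (Or.inr (Or.inr (Or.inl ⟨rfl, h1⟩)))) b
  lowN := fun i v b h1 h2 h3 h4 => FC_one (qC_low h1 h2 h3 h4 (Or.inr (Or.inl rfl))) b
  lowS := fun i v b h1 h2 h3 h4 =>
    FC_one (qC_low h1 h2 h3.le h4 (Or.inr (Or.inr (Or.inr ⟨rfl, h3⟩)))) b
  upE := fun i v b h1 h2 h3 h4 => FC_one (qC_up h1 h2 h3 h4 (Or.inl rfl)) b
  upW0 := fun v b h3 h4 => by
    unfold FC dS qph
    rw [qC_upW h3 h4, dup_ue, ← ue_add]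
    congr 1
    push_cast
    ring
  upW := fun i v b h1 h2 h3 h4 =>
    FC_one (qC_up h1.le h2 h3 h4 (Or.inr (Or.inr (Or.inl ⟨rfl, h1⟩)))) b
  upN := fun i v b h1 h2 h3 h4 =>
    FC_one (qC_up h1 h2 h3 (by omega) (Or.inr (Or.inr (Or.inr ⟨rfl, h4⟩)))) b
  upS := fun i v b h1 h2 h3 h4 => FC_one (qC_up h1 h2 h3 h4 (Or.inr (Or.inl rfl))) b

/-! ### the pair form -/

lemma FC_congr {w : Half ZT} (h : D.IsW w → C₁ (W.pos w) = C (W.pos w)) :
    D.FC W C₁ s w = D.FC W C s w := by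
  have e : D.qC W C₁ s w = D.qC W C s w := by
    unfold qC
    by_cases hw : D.IsW w
    · rw [if_pos hw, if_pos hw, h hw]
    · rw [if_neg hw, if_neg hw]
  funext b
  unfold FC qph
  rw [e]

lemma FC_pair {u : Half ZT} (hu : D.IsW u) (h₁ : C₁ (W.pos u) = C (W.pos u) + 1)
    (h₂ : C₂ (W.pos u) = C (W.pos u) - 1) (b : Bool) :
    D.FC W C₁ s u b + D.FC W C₂ s u b = D.FC W C s u b := by
  have h := ue_pair (qph (D.qC W C s) u) b
  unfold FC
  rw [← h]
  unfold qph qC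
  rw [if_pos hu, if_pos hu, if_pos hu, h₁, h₂]
  congr 1
  · congr 2
    push_cast
    ring
  · congr 2
    push_cast
    ring

/-- **the pair form, above** -/
theorem vup_pair (hinj : ∀ u v, D.IsW u → D.IsW v → W.pos u = W.pos v → u = v) {t : ℤ × ℤ} {d : Dir}
    (hu : D.IsW (.inr t, d)) (hy : y ≤ D.t) (h₁ : C₁ (W.pos (.inr t, d)) = C (W.pos (.inr t, d)) + 1)
    (h₂ : C₂ (W.pos (.inr t, d)) = C (W.pos (.inr t, d)) - 1)
    (h : ∀ p, p ≠ W.pos (.inr t, d) → C₁ p = C p ∧ C₂ p = C p) (hmem : (Sum.inr t : ZT) ∈ D.upT y) :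
    D.vup (D.FC W C₁ s) y + D.vup (D.FC W C₂ s) y = D.vup (D.FC W C s) y := by
  funext σ
  rw [Pi.add_apply]
  unfold vup
  refine Net.vec_pair (u := (.inr t, d)) (Net.mem_hs.2 hmem) (fun w _ hw => ?_) (fun b => ?_) _
  · exact ⟨FC_congr fun hW => (h _ fun he => hw (hinj _ _ hW hu he)).1,
      FC_congr fun hW => (h _ fun he => hw (hinj _ _ hW hu he)).2⟩
  · exact FC_pair hu h₁ h₂ b

/-- **the pair form, below** -/
theorem vlow_pair (hinj : ∀ u v, D.IsW u → D.IsW v → W.pos u = W.pos v → u = v) {t : ℤ × ℤ} {d : Dir}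
    (hu : D.IsW (.inl t, d)) (h₁ : C₁ (W.pos (.inl t, d)) = C (W.pos (.inl t, d)) + 1)
    (h₂ : C₂ (W.pos (.inl t, d)) = C (W.pos (.inl t, d)) - 1)
    (h : ∀ p, p ≠ W.pos (.inl t, d) → C₁ p = C p ∧ C₂ p = C p) (hmem : (Sum.inl t : ZT) ∈ D.lowT y) :
    D.vlow (D.FC W C₁ s) y + D.vlow (D.FC W C₂ s) y = D.vlow (D.FC W C s) y := by
  funext σ
  rw [Pi.add_apply]
  unfold vlow
  refine Net.vec_pair (u := (.inl t, d)) (Net.mem_hs.2 hmem) (fun w _ hw => ?_) (fun b => ?_) _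
  · exact ⟨FC_congr fun hW => (h _ fun he => hw (hinj _ _ hW hu he)).1,
      FC_congr fun hW => (h _ fun he => hw (hinj _ _ hW hu he)).2⟩
  · exact FC_pair hu h₁ h₂ b

end Slab

end Full
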