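import Pool.Agent.Full.Norm.Stat
import Pool.Agent.Full.Norm.Charge
import Pool.Agent.Full.Norm.ShapeCap

/-!
# Labels of the wall ends of a cap

`Cap.Wl`: wall ends; `Cap.Lb D a L o`: `o` numbers the wall ends in the order of `next`, starting at the right of
the seam; `L` is their number, `a` the length of the dead ends.  `Slab.phU`, `Slab.phL`: the phases of the two
caps of a slab for the cumulative charge `C` and the seam charge `s`.
-/

set_option autoImplicit false

namespace Full.Norm
open Finset Function Full.X3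

namespace Cap

/-- a wall end of the cap -/
def Wl (D : Cap) (x : Half (ℤ × ℤ)) : Prop := Bd D.R D.g x ∧ x ∉ D.C

/-- the wall end at the left of the seam -/
def se (D : Cap) : Half (ℤ × ℤ) := ((D.l, D.t - 1), Dir.N)

/-- labels of the wall ends of a cap in the order of `next` -/
structure Lb (D : Cap) (a L : ℤ) (o : Half (ℤ × ℤ) → ℤ) : Prop where
  ha : 1 ≤ a
  range : ∀ x, D.Wl x → 0 ≤ o x ∧ o x < L
  inj : ∀ x y, D.Wl x → D.Wl y → o x = o y → x = y
  surj : ∀ p, 0 ≤ p → p < L → ∃ x, D.Wl x ∧ o x = p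
  nxt : ∀ x, D.Wl x → x ≠ D.se → D.Wl (next D.g x) ∧ o (next D.g x) = o x + 1
  /-- the end after the seam -/
  seam : next D.g D.se = ((D.r - 1, D.t - 1), Dir.N)
  /-- the right dead end -/
  right : ∀ i, 0 ≤ i → i < a → D.Wl ((D.r - 1 - i, D.t - 1), Dir.N) ∧ o ((D.r - 1 - i, D.t - 1), Dir.N) = i
  /-- the left dead end -/
  left : ∀ i, 0 ≤ i → i < a → D.Wl ((D.l + i, D.t - 1), Dir.N) ∧ o ((D.l + i, D.t - 1), Dir.N) = L - 1 - i

end Cap

end Full.Norm

namespace Full
open Full.Norm Full.X3

namespace Slab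
variable (D : Slab) (W : Lab)

/-- the half edge of the slab of a half edge of the upper cap -/
def eU (x : Half (ℤ × ℤ)) : Half ZT := (.inr x.1, x.2)

/-- the half edge of the slab of a half edge of the lower cap -/
def eL (x : Half (ℤ × ℤ)) : Half ZT := (.inl (rfl2 x.1), x.2.flip)

/-- the phases of the upper cap -/
noncomputable def phU (C : ℤ → ℤ) (s : ℤ) (x : Half (ℤ × ℤ)) : ℝ := -(kap * D.qC W C s (eU x))

/-- the phases of the lower cap -/
noncomputable def phL (C : ℤ → ℤ) (s : ℤ) (x : Half (ℤ × ℤ)) : ℝ := kap * D.qC W C s (eL x)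

end Slab

end Full
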