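import Pool.Agent.Full.Norm.MarkFlat
import Pool.Agent.Full.Norm.CapLab

/-!
# The marks as half edges of the slab and of the two caps

`Marks.Low`: the mark is on the floor of the row or in the lower part.  `ez_low`, `ez_up`: the half edge of
the slab at the mark is the wall end before the point of the reflected lower cap, resp. after the point of
the upper cap.
-/

set_option autoImplicit false

open Finset Full.Norm

namespace Full
namespace Shape
variable {S : Shape} {n : ℕ} {s : S.Q × Bool → ℕ} {σ : Fin 4 → ℕ}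

/-- the mark is on the floor of the row or in the lower part -/
def Marks.Low (m : S.Marks) (q : S.Q) (j : Fin 4) : Prop :=
  (Sum.inl (m.room j) : S.Q) = q ∨ (Sum.inl (m.room j) : S.Q) ∈ S.part q false

/-- the point of the mark in the upper cap -/
noncomputable def Marks.pU (m : S.Marks) (n : ℕ) (σ : Fin 4 → ℕ) (j : Fin 4) : ℤ × ℤ :=
  (m.px n σ j, S.fb n (.inl (m.room j)))

/-- the point of the mark in the reflected lower cap -/
noncomputable def Marks.pL (m : S.Marks) (n : ℕ) (σ : Fin 4 → ℕ) (j : Fin 4) : ℤ × ℤ :=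
  (m.px n σ j, -S.fb n (.inl (m.room j)))

lemma Marks.up_of_not_low (hS : S.Ok) {m : S.Marks} {q : S.Q} {j : Fin 4} (h : ¬ m.Low q j) :
    (Sum.inl (m.room j) : S.Q) ∈ S.part q true :=
  (part_cover hS q _ fun h1 => h (Or.inl h1)).resolve_left fun h1 => h (Or.inr h1)

/-- **the marks of the lower part** -/
theorem Marks.ez_low {m : S.Marks} (hm : m.Ok) {q : S.Q} {j : Fin 4} (h : m.Low q j) :
    m.ez n σ q j = Slab.eL (Rms.fme false (m.pL n σ j)) := by
  have h1 : (Sum.inl (m.room j) : S.Q) ∈ S.part q false ∨ (Sum.inl (m.room j) = q ∧ m.top j = false) := by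
    rcases h with h | h
    · exact Or.inr ⟨h, hm.low j⟩
    · exact Or.inl h
  unfold Marks.ez
  rw [if_pos h1]
  unfold Marks.fy Marks.dir Slab.eL Rms.fme Marks.pL Marks.px rfl2
  rw [hm.low j]
  simp only [Bool.false_eq_true, if_false]
  refine Prod.ext (congrArg Sum.inl (Prod.ext rfl ?_)) rfl
  show S.fb n (.inl (m.room j)) = -1 - (-S.fb n (.inl (m.room j)) - 1)
  ring

/-- **the marks of the upper part** -/
theorem Marks.ez_up {m : S.Marks} (hm : m.Ok) {q : S.Q} {j : Fin 4} (h : ¬ m.Low q j) :
    m.ez n σ q j = Slab.eU (Rms.fma true (m.pU n σ j)) := by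
  have h1 : ¬ ((Sum.inl (m.room j) : S.Q) ∈ S.part q false ∨ (Sum.inl (m.room j) = q ∧ m.top j = false)) := by
    rintro (h1 | h1)
    · exact h (Or.inr h1)
    · exact h (Or.inl h1.1)
  unfold Marks.ez
  rw [if_neg h1]
  unfold Marks.fy Marks.dir Slab.eU Rms.fma Marks.pU Marks.px
  rw [hm.low j]
  simp only [Bool.false_eq_true, if_false, if_true]

end Shape
end Full
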