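import Pool.Agent.Full.Norm.EnvI
import Pool.Agent.Full.Norm.CapLab

/-!
# Positions on the walls of a cap made of rooms, by labels

`plain_lb`: a wall end whose label is far from the ends of the strip is plain; `sep_lb`: the wall ends of the right
dead end are far from the wall ends outside of the dead ends; `trio_flat`: a point of the right dead end is on the
ceiling of the strip; `trio_far`: it is far from the points of the wide rooms.
-/

set_option autoImplicit false

namespace Full.Norm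
open Finset Function

namespace Rms.IsCap
variable {K : Type*} {ρ : Rms K} {w : ℕ} {F : Finset K} {q : K} {Lk : K → Bool} {D : Cap}

/-- a ceiling end of the strip has no tile above it -/
lemma above_notMem {i : ℤ} (hx : D.Wl ((i, D.t - 1), Dir.N)) : (i, D.t) ∉ D.R := by
  intro h1
  have h2 : (cyl D.l D.r D.y D.t).nb Dir.N (i, D.t - 1) = some (i, D.t) := by
    rw [cyl_N, sub_add_cancel]
  have h3 := Cap.glue_nb h2 hx.1.1 h1
  rw [hx.1.2] at h3
  have h4 : Dir.N = Dir.S := congrArg Prod.snd h3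
  exact absurd h4 (by decide)

/-- the wall ends of a cap: the ceiling ends of the strip and the wall ends of the rooms -/
theorem wl_cases (h : ρ.IsCap w F q Lk D) {x : Half (ℤ × ℤ)} (hx : D.Wl x) :
    (x = ((x.1.1, D.t - 1), Dir.N) ∧ D.l ≤ x.1.1 ∧ x.1.1 < D.r) ∨ ∃ b ∈ F, x.1 ∈ ρ.rm b := by
  obtain ⟨hb, hC⟩ := hx
  obtain ⟨⟨i, j⟩, d⟩ := x
  rcases Cap.mem_R'.1 hb.1 with h1 | ⟨⟨h1, h2⟩, h3, h4⟩
  · right
    rw [h.hU] at h1
    exact Rms.mem_reg.1 h1
  · left
    simp only at h1 h2 h3 h4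
    have key : ∀ t' : ℤ × ℤ, (cyl D.l D.r D.y D.t).nb d (i, j) = some t' → t' ∈ D.R → False := by
      intro t' h5 h6
      have h7 := Cap.glue_nb h5 hb.1 h6
      rw [hb.2] at h7
      have h8 : d = d.opp := congrArg Prod.snd h7
      cases d <;> exact absurd h8 (by decide)
    cases d
    · exfalso
      by_cases h5 : i = D.r - 1
      · subst h5
        exact key (D.l, j) (cyl_E_end ⟨h3, h4⟩) (Cap.strip_mem le_rfl D.hlr h3 h4)
      · exact key (i + 1, j) (cyl_E (Or.inr ⟨h5, by omega⟩)) (Cap.strip_mem (by omega) (by omega) h3 h4)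
    · by_cases h5 : j = D.t - 1
      · subst h5
        exact ⟨rfl, h1, h2⟩
      · exact (key (i, j + 1) cyl_N (Cap.strip_mem h1 h2 (by omega) (by omega))).elim
    · exfalso
      by_cases h5 : i = D.l
      · subst h5
        exact key (D.r - 1, j) (cyl_W_end ⟨h3, h4⟩) (Cap.strip_mem (by have := D.hlr; omega) (by omega) h3 h4)
      · exact key (i - 1, j) (cyl_W (Or.inr ⟨h5, by omega⟩)) (Cap.strip_mem (by omega) (by omega) h3 h4)
    · exfalso
      by_cases h5 : j = D.y
      · subst h5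
        exact hC (Cap.mem_C.2 ⟨⟨h1, h2⟩, rfl, rfl⟩)
      · exact key (i, j - 1) cyl_S (Cap.strip_mem h1 h2 (by omega) (by omega))

/-- a room of the cap and the strip -/
lemma sep_strip (h : ρ.IsCap w F q Lk D) {b : K} (hb : b ∈ F) :
    ρ.Sep w q b ∨ (Lk b = true ∧ ρ.y1 q = ρ.y0 b ∧ ρ.Ins w q b) := by
  have hqb : q ≠ b := fun h3 => h.hq (h3 ▸ hb)
  rcases h.ok.sep q (Or.inl rfl) b (Or.inr hb) hqb with h2 | h2 | h2
  · exact Or.inl h2
  · rcases h.stk q b (Or.inl rfl) (Or.inr hb) h2 with h3 | h3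
    · exact Or.inr ⟨h3.2.1, h2.1, h3.2.2⟩
    · rw [h.Lq] at h3
      exact absurd h3.1 (by decide)
  · exact absurd h2 (h.bot b hb)

variable {a L : ℤ} {o : Half (ℤ × ℤ) → ℤ}

/-- a ceiling end of the strip in the right dead end -/
lemma lb_right (hl : D.Lb a L o) {i : ℤ} (h1 : D.r - 1 - a < i) (h2 : i < D.r) :
    D.Wl ((i, D.t - 1), Dir.N) ∧ o ((i, D.t - 1), Dir.N) = D.r - 1 - i := by
  have h3 := hl.right (D.r - 1 - i) (by omega) (by omega)
  rwa [sub_sub_cancel] at h3

/-- a ceiling end of the strip in the left dead end -/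
lemma lb_left (hl : D.Lb a L o) {i : ℤ} (h1 : D.l ≤ i) (h2 : i < D.l + a) :
    D.Wl ((i, D.t - 1), Dir.N) ∧ o ((i, D.t - 1), Dir.N) = L - 1 - (i - D.l) := by
  have h3 := hl.left (i - D.l) (by omega) (by omega)
  rwa [add_sub_cancel] at h3

/-- the wall end with a small label -/
lemma eq_right (hl : D.Lb a L o) {x : Half (ℤ × ℤ)} (hx : D.Wl x) (h1 : o x < a) :
    x = ((D.r - 1 - o x, D.t - 1), Dir.N) := by
  have h2 := (hl.range x hx).1
  obtain ⟨h3, h4⟩ := hl.right (o x) h2 h1
  exact hl.inj _ _ hx h3 h4.symm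

/-- the strip is longer than the dead ends -/
lemma le_len (hl : D.Lb a L o) : a ≤ D.r - D.l := by
  by_contra h1
  have h2 := D.hlr
  have h3 := (hl.right (D.r - D.l) (by omega) (by omega)).1.1.1
  rcases Cap.mem_R.1 h3 with h4 | h4
  · exact D.hU _ _ (by omega) (by omega) (by have := D.hyt; omega) (by omega) h4
  · omega

/-- a link on the strip is not in the right dead end -/
lemma link_le (h : ρ.IsCap w F q Lk D) (hl : D.Lb a L o) {b : K} (hb : b ∈ F) (hy : ρ.y1 q = ρ.y0 b)
    (hi : ρ.Ins w q b) : ρ.x1 b ≤ D.r - a := by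
  by_contra h1
  have h2 := h.ok.wd b (Or.inr hb)
  have h3 := h.ok.ht b (Or.inr hb)
  have h4 := h.hw
  obtain ⟨h5, h6⟩ := hi
  rw [← h.hr] at h6
  have h7 := above_notMem (lb_right hl (i := ρ.x1 b - 1) (by omega) (by omega)).1
  apply h7
  rw [h.mem_R]
  refine ⟨b, Or.inr hb, ρ.mem_rm.2 ?_⟩
  rw [h.ht]
  simp only
  omega

/-- **P1**: the wall ends far from the ends of the strip are plain -/
theorem plain_lb (h : ρ.IsCap w F q Lk D) (hl : D.Lb a L o) {y : Half (ℤ × ℤ)} {R : ℕ} (hy : D.Wl y)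
    (hR : R < w) (ha : (R : ℤ) + 2 ≤ a) (h1 : (R : ℤ) + 2 ≤ o y) (h2 : o y + R + 2 ≤ L) : D.Plain y.1 R := by
  intro s hs hst
  rw [mem_sqr] at hs
  have e1 := h.ok.wd q (Or.inl rfl)
  have e2 := h.ok.ht q (Or.inl rfl)
  rw [← h.hy, ← h.ht] at e2
  simp only [Prod.fst_add, Prod.snd_add] at hst ⊢
  rcases h.wl_cases hy with ⟨h3, h4, h5⟩ | ⟨b, hb, h3⟩
  · have h6 : y.1.2 = D.t - 1 := by rw [h3]
    have h7 : D.l + R + 1 ≤ y.1.1 := by
      by_contra h8
      have h9 := (lb_left hl (i := y.1.1) h4 (by omega)).2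
      rw [← h3] at h9
      omega
    have h8 : y.1.1 + R < D.r := by
      by_contra h8
      have h9 := (lb_right hl (i := y.1.1) (by omega) h5).2
      rw [← h3] at h9
      omega
    omega
  · rw [mem_rm] at h3
    have h4 := h.sep_strip hb
    unfold Sep Ins at h4
    rw [← h.hl, ← h.hr, ← h.hy, ← h.ht] at h4
    omega

/-- **P2**: the wall ends of the right dead end are far from the others -/
theorem sep_lb (h : ρ.IsCap w F q Lk D) (hl : D.Lb a L o) {y y' : Half (ℤ × ℤ)} {R : ℕ} (hy : D.Wl y)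
    (hy' : D.Wl y') (hR : 4 * R ≤ w) (h2 : o y + 4 * R + 2 ≤ a) (h3 : a ≤ o y') :
    y.1 - y'.1 ∉ sqr (4 * R) ∧ y'.1 - y.1 ∉ sqr (4 * R) := by
  have h5 := eq_right hl hy (by omega)
  have h6 := (hl.range y hy).1
  have e1 := h.hw
  have e2 := h.ok.ht q (Or.inl rfl)
  rw [← h.hy, ← h.ht] at e2
  have h7 : y.1.1 = D.r - 1 - o y := by rw [h5]; simp only; rw [← h5]
  have h8 : y.1.2 = D.t - 1 := by rw [h5]
  rw [mem_sqr, mem_sqr]
  simp only [Prod.fst_sub, Prod.snd_sub]
  push_cast
  rcases h.wl_cases hy' with ⟨h9, h10, h11⟩ | ⟨b, hb, h9⟩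
  · have h12 : y'.1.1 ≤ D.r - 1 - a := by
      by_contra h12
      have h13 := (lb_right hl (i := y'.1.1) (by omega) h11).2
      rw [← h9] at h13
      omega
    omega
  · rw [mem_rm] at h9
    have e3 := D.hlr
    have e4 := le_len hl
    rcases h.sep_strip hb with h10 | ⟨-, h10, h11⟩
    · unfold Sep at h10
      rw [← h.hl, ← h.hr, ← h.hy, ← h.ht] at h10
      omega
    · have h12 := h.link_le hl hb h10 h11
      omega

/-- **P3**: a point of the right dead end is on the ceiling of the strip -/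
theorem trio_flat (h : ρ.IsCap w F q Lk D) (hl : D.Lb a L o) {g : ℤ} {R' : ℕ} (h1 : (R' : ℤ) < g)
    (h2 : g + R' < a) : ρ.Flat F q R' q false (D.r - g, D.t) where
  y := h.ht
  l := by
    have h3 := le_len hl
    rw [← h.hl]
    simp only
    omega
  r := by
    rw [← h.hr]
    simp only
    omega
  lk := by
    intro c hc hy
    simp only [Bool.false_eq_true, if_false] at hy
    have e1 := h.hw
    have e2 := h.ok.ht q (Or.inl rfl)
    have e3 := le_len hl
    rcases hc with rfl | hc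
    · omega
    · have e4 := h.ok.ht c (Or.inr hc)
      rcases h.sep_strip hc with h3 | ⟨-, h3, h4⟩
      · unfold Sep at h3
        rw [← h.hl, ← h.hr] at h3
        simp only
        omega
      · have h5 := h.link_le hl hc h3 h4
        simp only
        omega

/-- the wall end before a point of the right dead end -/
lemma trio_me (hl : D.Lb a L o) {g : ℤ} (h1 : 1 ≤ g) (h2 : g ≤ a) :
    D.Wl (fme false (D.r - g, D.t)) ∧ o (fme false (D.r - g, D.t)) = g - 1 := by
  have h3 := hl.right (g - 1) (by omega) (by omega)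
  have e : (D.r - 1 - (g - 1) : ℤ) = D.r - g := by ring
  rw [e] at h3
  exact h3

/-- **P4**: a point of the ceiling of the strip is far from the points of the other rows -/
theorem trio_far (h : ρ.IsCap w F q Lk D) {g : ℤ} {R : ℕ} (hR : R + 1 < w) (h1 : 0 ≤ g) (h2 : g ≤ D.r - D.l)
    {b : K} (hb : b ∈ F) (hw : Lk b = false) {R' : ℕ} {u : Bool} {P : ℤ × ℤ} (hP : ρ.Flat F q R' b u P) :
    (D.r - g, D.t) - P ∉ sqr (2 * R + 2) ∧ P - (D.r - g, D.t) ∉ sqr (2 * R + 2) := by
  have h3 : ρ.Sep w q b := by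
    rcases h.sep_strip hb with h3 | ⟨h3, -⟩
    · exact h3
    · rw [hw] at h3
      exact absurd h3 (by decide)
  have hy := hP.y
  have hl := hP.l
  have hr := hP.r
  have e1 := h.ok.ht b (Or.inr hb)
  have e2 := h.ok.ht q (Or.inl rfl)
  unfold Sep at h3
  rw [← h.hl, ← h.hr, ← h.hy, ← h.ht] at h3
  rw [← h.hy, ← h.ht] at e2
  rw [mem_sqr, mem_sqr]
  simp only [Prod.fst_sub, Prod.snd_sub]
  push_cast
  cases u <;> simp only [if_true, Bool.false_eq_true, if_false] at hy <;> omega

end Rms.IsCap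

end Full.Norm
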