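import Mathlib

/-!
# The choice of the scales

`exists_scales`: the scales `w`, `R`, `m` of the norm bound of a cap for the lattice scale `n`.
-/

set_option autoImplicit false

namespace Full.Norm
open Filter

/-- **the scales**: `w` is at most `n / 64` and at most `κ n / 4`, `R` is at most `w / 4`, `m` is at most
`R / 100`, and `n`, `n B` are at most `K m` -/
theorem exists_scales (B K₁ : ℕ) {κ : ℝ} (hκ : 0 < κ) : ∃ K : ℕ, K₁ ≤ K ∧ ∀ᶠ n : ℕ in atTop,
    ∃ w m R : ℕ, 1 ≤ w ∧ 64 * w ≤ n ∧ 4 * (w : ℝ) ≤ κ * n ∧ 1 ≤ m ∧ 100 * m + 100 ≤ R ∧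
      4 * R ≤ w ∧ n ≤ K * m ∧ n * B ≤ K * m ∧ R ≤ n := by
  obtain ⟨T, hT⟩ := exists_nat_ge (64 / κ + 64)
  have hT64 : (64 : ℝ) ≤ T := by
    have : 0 < 64 / κ := by positivity
    linarith
  have hT' : 64 ≤ T := by exact_mod_cast hT64
  have hTκ : 64 ≤ T * κ := by
    have h1 : 64 / κ ≤ T := by linarith
    rwa [div_le_iff₀ hκ] at h1
  refine ⟨6400 * T * (B + 1) + K₁, by omega, ?_⟩
  filter_upwards [eventually_ge_atTop (800 * T)] with n hn
  have hT0 : 0 < T := by omega
  have h1 : T * (n / T) ≤ n := Nat.mul_div_le n T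
  have h2 : n < T * (n / T + 1) := by
    have := Nat.lt_div_mul_add hT0 (a := n)
    rw [mul_comm] at this
    linarith [mul_comm (n / T) T]
  have h3 : 800 ≤ n / T := (Nat.le_div_iff_mul_le hT0).2 hn
  set w := n / T with hw
  refine ⟨w, w / 4 / 100 - 1, w / 4, by omega, ?_, ?_, by omega, by omega, by omega, ?_, ?_, ?_⟩
  · calc 64 * w ≤ T * w := Nat.mul_le_mul_right _ hT'
      _ ≤ n := h1
  · have h4 : (T : ℝ) * w ≤ n := by exact_mod_cast h1
    have h5 : 64 * (w : ℝ) ≤ T * κ * w := by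
      have : (0 : ℝ) ≤ w := by positivity
      nlinarith
    have h6 : T * κ * w ≤ κ * n := by
      calc T * κ * w = κ * (T * w) := by ring
        _ ≤ κ * n := by exact mul_le_mul_of_nonneg_left h4 hκ.le
    have : (0 : ℝ) ≤ w := by positivity
    linarith
  · have h4 : w ≤ 3200 * (w / 4 / 100 - 1) := by omega
    calc n ≤ T * (w + 1) := h2.le
      _ ≤ T * (2 * (3200 * (w / 4 / 100 - 1))) := Nat.mul_le_mul_left _ (by omega)
      _ = 6400 * T * (w / 4 / 100 - 1) := by ring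
      _ ≤ (6400 * T * (B + 1) + K₁) * (w / 4 / 100 - 1) := Nat.mul_le_mul_right _ (by
        have : 6400 * T * 1 ≤ 6400 * T * (B + 1) := Nat.mul_le_mul_left _ (by omega)
        omega)
  · have h4 : w ≤ 3200 * (w / 4 / 100 - 1) := by omega
    calc n * B ≤ T * (w + 1) * B := Nat.mul_le_mul_right _ h2.le
      _ ≤ T * (2 * (3200 * (w / 4 / 100 - 1))) * B := Nat.mul_le_mul_right _ (Nat.mul_le_mul_left _ (by omega))
      _ = 6400 * T * B * (w / 4 / 100 - 1) := by ring
      _ ≤ (6400 * T * (B + 1) + K₁) * (w / 4 / 100 - 1) := Nat.mul_le_mul_right _ (by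
        have : 6400 * T * B ≤ 6400 * T * (B + 1) := Nat.mul_le_mul_left _ (by omega)
        omega)
  · have h4 : 64 * w ≤ n := by
      calc 64 * w ≤ T * w := Nat.mul_le_mul_right _ hT'
        _ ≤ n := h1
    omega

end Full.Norm
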