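import Pool.Agent.Full.Norm.ShapeCap
import Pool.Agent.Full.Norm.EnvI
import Pool.Agent.Full.Geo.TreeCount

/-!
# The two halves of a row of a shape are caps made of rooms

`Shape.isCap_up`, `Shape.isCap_low`: `Rms.IsCap` for the caps `upCap`, `lowCap` of the slab of a row, with
the families `upRms`, `lowRms`, the rooms `partF`, the links `Sum.isRight`.  `card_partF`: as many rows as
links.
-/

set_option autoImplicit false

open Finset Full.Norm

namespace Full
namespace Shape

variable {S : Shape} {n : ℕ} {s : S.Q × Bool → ℕ} {w : ℕ}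

/-- the neighbours of a room of a part -/
lemma part_nbr {q p p' : S.Q} {b : Bool} (hp : p ∈ S.partF q b) (h : S.On p p' ∨ S.On p' p) :
    p' = q ∨ p' ∈ S.partF q b := by
  by_cases h1 : p' = q
  · exact Or.inl h1
  · obtain ⟨a, ha, h2⟩ := mem_partF.1 hp
    exact Or.inr (mem_partF.2 ⟨a, ha, h2.tail ⟨h1, h⟩⟩)

/-- **as many rows as links** -/
theorem card_partF (hS : S.Ok) (hd : S.Tree) (r : S.R) (b : Bool) :
    ((S.partF (.inl r) b).filter fun a => Sum.isRight a = false).card =
      ((S.partF (.inl r) b).filter fun a => Sum.isRight a = true).card := by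
  classical
  have h := card_part hS hd r b
  have h1 : (S.partF (.inl r) b).filter (fun a => Sum.isRight a = false) =
      (Finset.univ.filter fun ρ : S.R => (.inl ρ : S.Q) ∈ S.part (.inl r) b).map ⟨Sum.inl, Sum.inl_injective⟩ := by
    ext a
    rw [mem_filter, mem_partF, mem_map]
    constructor
    · rintro ⟨h1, h2⟩
      rcases a with a | a
      · exact ⟨a, mem_filter.2 ⟨mem_univ _, h1⟩, rfl⟩
      · exact absurd h2 (by simp)
    · rintro ⟨ρ, h1, rfl⟩
      exact ⟨(mem_filter.1 h1).2, rfl⟩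
  have h2 : (S.partF (.inl r) b).filter (fun a => Sum.isRight a = true) =
      (Finset.univ.filter fun k : S.K => (.inr k : S.Q) ∈ S.part (.inl r) b).map ⟨Sum.inr, Sum.inr_injective⟩ := by
    ext a
    rw [mem_filter, mem_partF, mem_map]
    constructor
    · rintro ⟨h1, h2⟩
      rcases a with a | a
      · exact absurd h2 (by simp)
      · exact ⟨a, mem_filter.2 ⟨mem_univ _, h1⟩, rfl⟩
    · rintro ⟨ρ, h1, rfl⟩
      exact ⟨(mem_filter.1 h1).2, rfl⟩
  rw [h1, h2, card_map, card_map, h]

section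
variable (hS : S.Ok) (hs : S.Small2 n s) (hw : 1 ≤ w) (hn : 16 * w ≤ n)
include hS hs hw hn

/-- a link is narrow -/
lemma on_kind {a b : S.Q} (hab : S.On a b) :
    (Sum.isRight a = false ∧ Sum.isRight b = true ∧ S.fl n s a + 2 * w + 1 ≤ S.fl n s b ∧
      S.fr n s b + 2 * w + 1 ≤ S.fr n s a) ∨
    (Sum.isRight a = true ∧ Sum.isRight b = false ∧ S.fl n s b + 2 * w + 1 ≤ S.fl n s a ∧
      S.fr n s a + 2 * w + 1 ≤ S.fr n s b) := by
  have h := (on_fine hS hs hw hn hab).2
  rcases a with r | k <;> rcases b with r' | k'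
  · exact absurd hab id
  · refine Or.inl ⟨rfl, rfl, ?_⟩
    rcases h with ⟨_, _, h3, h4⟩ | ⟨_, h0, _, _⟩
    · exact ⟨h3, h4⟩
    · cases h0
  · refine Or.inr ⟨rfl, rfl, ?_⟩
    rcases h with ⟨_, h0, _, _⟩ | ⟨_, _, h3, h4⟩
    · cases h0
    · exact ⟨h3, h4⟩
  · exact absurd hab id

variable (hd : S.Tree) {r : S.R} {y : ℤ}

omit hw hd in
/-- rooms which are on top of each other in the upper half -/
lemma stk_up {a b : S.Q} (hw : 1 ≤ w) (h : (S.upRms n s (.inl r) y).Stk w a b) : b = .inl r ∨ S.On a b := by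
  by_cases hb : b = .inl r
  · exact Or.inl hb
  right
  have e1 := high_fine hS hw hn a
  have e2 := high_fine hS hw hn b
  have e3 := wide_fine hS hs hw hn a
  have e4 := wide_fine hS hs hw hn b
  obtain ⟨h1, h2⟩ := h
  simp only [upRms, if_neg hb] at h1
  unfold Rms.Ins at h2
  simp only [upRms] at h2
  have hab : a ≠ b := by rintro rfl; omega
  rcases sep_fine hS hs hw hn hab with h4 | h4 | h4
  · omega
  · exact h4
  · have h5 := on_fine hS hs hw hn h4
    omega

omit hw hd in
/-- rooms which are on top of each other in the lower half -/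
lemma stk_low {a b : S.Q} (hw : 1 ≤ w) (h : (S.lowRms n s (.inl r) y).Stk w a b) : b = .inl r ∨ S.On b a := by
  by_cases hb : b = .inl r
  · exact Or.inl hb
  right
  have e1 := high_fine hS hw hn a
  have e2 := high_fine hS hw hn b
  have e3 := wide_fine hS hs hw hn a
  have e4 := wide_fine hS hs hw hn b
  obtain ⟨h1, h2⟩ := h
  simp only [lowRms, if_neg hb] at h1
  unfold Rms.Ins at h2
  simp only [lowRms, if_neg hb] at h2
  have h3 : S.fl n s a ≤ S.fl n s b ∧ S.fr n s b ≤ S.fr n s a + 1 ∨
      S.fl n s b ≤ S.fl n s a ∧ S.fr n s a ≤ S.fr n s b := by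
    split_ifs at h2 <;> omega
  have hab : a ≠ b := by rintro rfl; omega
  rcases sep_fine hS hs hw hn hab with h4 | h4 | h4
  · omega
  · have h5 := on_fine hS hs hw hn h4
    omega
  · exact h4

/-- **the upper half** -/
theorem isCap_up (hb : (S.zslab hS hs hd (.inl r)).b ≤ y) (ht : y < (S.zslab hS hs hd (.inl r)).t)
    (hy' : y + 4 * w ≤ S.ft n (.inl r)) :
    (S.upRms n s (.inl r) y).IsCap w (S.partF (.inl r) true) (.inl r) Sum.isRight
      (upCap (S.zslab hS hs hd (.inl r)) y hb ht) := by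
  have hb' : S.fb n (.inl r) ≤ y := hb
  have hq : (.inl r : S.Q) ∉ S.partF (.inl r) true := fun h => partF_ne h rfl
  have hon : ∀ a b : S.Q, (a = .inl r ∨ a ∈ S.partF (.inl r) true) →
      (b = .inl r ∨ b ∈ S.partF (.inl r) true) → (S.upRms n s (.inl r) y).Stk w a b →
      S.On a b ∧ b ≠ .inl r := by
    intro a b ha hbm h
    have h1 : b ≠ .inl r := by
      rintro rfl
      have e1 := high_fine hS hw hn a
      have e2 := high_fine hS hw hn (.inl r : S.Q)
      have e3 := wide_fine hS hs hw hn a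
      have e4 := wide_fine hS hs hw hn (.inl r)
      obtain ⟨h1, h2⟩ := h
      simp only [upRms, if_pos] at h1
      unfold Rms.Ins at h2
      simp only [upRms] at h2
      have har : a ≠ .inl r := by rintro rfl; omega
      rcases sep_fine hS hs hw hn har with h4 | h4 | h4
      · omega
      · exact no_below hd (ha.imp_right fun h => mem_partF.1 h) har h4
      · have h5 := on_fine hS hs hw hn h4
        omega
    exact ⟨(stk_up hS hs hn hw h).resolve_left h1, h1⟩
  refine ⟨?_, hw, hq, side_up_eq _ y, rfl, rfl, ?_, rfl, rfl, ?_, ?_, ?_, ?_⟩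
  · have h := upRms_ok hS hs hw hn hd hb' hy'
    have e : {a : S.Q | a = .inl r ∨ a ∈ S.partF (.inl r) true} = S.partG (.inl r) true := by
      ext a
      show _ ∨ _ ↔ _ ∨ _
      rw [mem_partF]
    rw [e]
    exact h
  · show y = (S.upRms n s (.inl r) y).y0 (.inl r)
    simp only [upRms, if_pos]
  · intro a b ha hb h
    obtain ⟨h1, -⟩ := hon a b ha hb h
    rcases on_kind hS hs hw hn h1 with ⟨h2, h3, h4, h5⟩ | ⟨h2, h3, h4, h5⟩
    · refine Or.inl ⟨h2, h3, ?_⟩
      unfold Rms.Ins
      simp only [upRms]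
      omega
    · refine Or.inr ⟨h2, h3, ?_⟩
      unfold Rms.Ins
      simp only [upRms]
      omega
  · intro a ha hL
    rcases a with a | k
    · exact absurd hL (by simp)
    · have h1 : S.On (.inr k) (.inl (S.up k)) := rfl
      have h2 := part_nbr ha (Or.inl h1)
      refine ⟨_, h2, ?_⟩
      have h3 : (.inl (S.up k) : S.Q) ≠ .inl r := fun h3 =>
        no_below hd (Or.inr (mem_partF.1 ha)) (partF_ne ha) (h3 ▸ h1)
      obtain ⟨h4, h5⟩ := on_fine hS hs hw hn h1
      rcases on_kind hS hs hw hn h1 with ⟨h6, -⟩ | ⟨-, -, h6, h7⟩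
      · exact absurd h6 (by simp)
      · unfold Rms.Stk Rms.Ins
        simp only [upRms, if_neg h3]
        omega
  · intro a ha hL
    rcases a with a | k
    · exact absurd hL (by simp)
    · have h1 : S.On (.inl (S.dn k)) (.inr k) := rfl
      have h2 := part_nbr ha (Or.inr h1)
      refine ⟨_, h2, ?_⟩
      obtain ⟨h4, h5⟩ := on_fine hS hs hw hn h1
      rcases on_kind hS hs hw hn h1 with ⟨-, -, h6, h7⟩ | ⟨h6, -⟩
      · unfold Rms.Stk Rms.Ins
        simp only [upRms, if_neg (partF_ne ha)]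
        omega
      · exact absurd h6 (by simp)
  · intro b hb h
    exact (hon b _ (Or.inr hb) (Or.inl rfl) h).2 rfl

/-- **the lower half, reflected** -/
theorem isCap_low (hb : (S.zslab hS hs hd (.inl r)).b < y) (ht : y ≤ (S.zslab hS hs hd (.inl r)).t)
    (hy : S.fb n (.inl r) + 4 * w ≤ y) :
    (S.lowRms n s (.inl r) y).IsCap w (S.partF (.inl r) false) (.inl r) Sum.isRight
      (lowCap (S.zslab hS hs hd (.inl r)) y hb ht) := by
  have ht' : y ≤ S.ft n (.inl r) := ht
  have hq : (.inl r : S.Q) ∉ S.partF (.inl r) false := fun h => partF_ne h rfl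
  have hon : ∀ a b : S.Q, (a = .inl r ∨ a ∈ S.partF (.inl r) false) →
      (b = .inl r ∨ b ∈ S.partF (.inl r) false) → (S.lowRms n s (.inl r) y).Stk w a b →
      S.On b a ∧ b ≠ .inl r := by
    intro a b ha hbm h
    have h1 : b ≠ .inl r := by
      rintro rfl
      have e1 := high_fine hS hw hn a
      have e2 := high_fine hS hw hn (.inl r : S.Q)
      have e3 := wide_fine hS hs hw hn a
      have e4 := wide_fine hS hs hw hn (.inl r)
      obtain ⟨h1, h2⟩ := h
      simp only [lowRms, if_pos] at h1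
      have har : a ≠ .inl r := by rintro rfl; omega
      unfold Rms.Ins at h2
      simp only [lowRms, if_pos, if_neg har] at h2
      rcases sep_fine hS hs hw hn har with h4 | h4 | h4
      · omega
      · have h5 := on_fine hS hs hw hn h4
        omega
      · exact no_above hd (ha.imp_right fun h => mem_partF.1 h) har h4
    exact ⟨(stk_low hS hs hn hw h).resolve_left h1, h1⟩
  refine ⟨?_, hw, hq, side_low_eq _ y, rfl, ?_, ?_, rfl, rfl, ?_, ?_, ?_, ?_⟩
  · have h := lowRms_ok hS hs hw hn hd hy ht'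
    have e : {a : S.Q | a = .inl r ∨ a ∈ S.partF (.inl r) false} = S.partG (.inl r) false := by
      ext a
      show _ ∨ _ ↔ _ ∨ _
      rw [mem_partF]
    rw [e]
    exact h
  · show S.fr n s (.inl r) + 1 = (S.lowRms n s (.inl r) y).x1 (.inl r)
    simp only [lowRms, if_pos]
  · show -y = (S.lowRms n s (.inl r) y).y0 (.inl r)
    simp only [lowRms, if_pos]
  · intro a b ha hb h
    obtain ⟨h1, hbr⟩ := hon a b ha hb h
    rcases on_kind hS hs hw hn h1 with ⟨h2, h3, h4, h5⟩ | ⟨h2, h3, h4, h5⟩
    · refine Or.inr ⟨h3, h2, ?_⟩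
      unfold Rms.Ins
      simp only [lowRms, if_neg hbr]
      split_ifs with h6
      · subst h6
        exact absurd h3 (by simp)
      · omega
    · refine Or.inl ⟨h3, h2, ?_⟩
      unfold Rms.Ins
      simp only [lowRms, if_neg hbr]
      split_ifs <;> omega
  · intro a ha hL
    rcases a with a | k
    · exact absurd hL (by simp)
    · have h1 : S.On (.inl (S.dn k)) (.inr k) := rfl
      have h2 := part_nbr ha (Or.inr h1)
      refine ⟨_, h2, ?_⟩
      have h3 : (.inl (S.dn k) : S.Q) ≠ .inl r := fun h3 =>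
        no_above hd (Or.inr (mem_partF.1 ha)) (partF_ne ha) (h3 ▸ h1)
      obtain ⟨h4, h5⟩ := on_fine hS hs hw hn h1
      rcases on_kind hS hs hw hn h1 with ⟨-, -, h6, h7⟩ | ⟨h6, -⟩
      · unfold Rms.Stk Rms.Ins
        simp only [lowRms, if_neg h3, if_neg (partF_ne ha)]
        omega
      · exact absurd h6 (by simp)
  · intro a ha hL
    rcases a with a | k
    · exact absurd hL (by simp)
    · have h1 : S.On (.inr k) (.inl (S.up k)) := rfl
      have h2 := part_nbr ha (Or.inl h1)
      refine ⟨_, h2, ?_⟩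
      obtain ⟨h4, h5⟩ := on_fine hS hs hw hn h1
      rcases on_kind hS hs hw hn h1 with ⟨h6, -⟩ | ⟨-, -, h6, h7⟩
      · exact absurd h6 (by simp)
      · unfold Rms.Stk Rms.Ins
        simp only [lowRms, if_neg (partF_ne ha)]
        split_ifs <;> omega
  · intro b hb h
    exact (hon b _ (Or.inr hb) (Or.inl rfl) h).2 rfl

end

end Shape
end Full
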