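import Pool.Agent.Full.Norm.CapRed
import Pool.Agent.Full.Asm.S1Stat

/-!
# The two vectors of a row as sums over labels

`OE_low`, `OE_up`: the vector above, after `p` rows; `IE_low`, `IE_up`: the vector below, after `q` rows.
-/

set_option autoImplicit false

namespace Full
open Full.X3 Full.Norm Finset Function SixV Matrix

/-- the labels of the positions of the pairs of the trio -/
def trio (a k : ℤ) : Finset ℤ := (range (k + 1).toNat).image fun i : ℕ => a - 2 - k - 2 * (i : ℤ)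

/-- every second label, upwards -/
def evn (j : ℤ) (N : ℕ) : Finset ℤ := (range N).image fun i : ℕ => j + 2 * (i : ℤ)

/-- every second label, downwards -/
def evd (j : ℤ) (N : ℕ) : Finset ℤ := (range N).image fun i : ℕ => j - 2 * (i : ℤ)

lemma sum_trio {M : Type*} [AddCommMonoid M] (a k : ℤ) (f : ℤ → M) :
    ∑ t ∈ trio a k, f t = ∑ i ∈ range (k + 1).toNat, f (a - 2 - k - 2 * (i : ℤ)) :=
  sum_image fun i _ j _ h => by omega

lemma sum_evn {M : Type*} [AddCommMonoid M] (j : ℤ) (N : ℕ) (f : ℤ → M) :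
    ∑ t ∈ evn j N, f t = ∑ i ∈ range N, f (j + 2 * (i : ℤ)) :=
  sum_image fun i _ j _ h => by omega

lemma sum_evd {M : Type*} [AddCommMonoid M] (j : ℤ) (N : ℕ) (f : ℤ → M) :
    ∑ t ∈ evd j N, f t = ∑ i ∈ range N, f (j - 2 * (i : ℤ)) :=
  sum_image fun i _ j _ h => by omega

namespace Slab
variable {D : Slab} {W : Lab} {a nL nU k : ℤ} {E : Fin 3 → Half ZT}

/-- the seam charge -/
def sE (W : Lab) (a k : ℤ) (E : Fin 3 → Half ZT) : ℤ := (chgOf W E a k).dc (W.pos (E 1)) W.P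

/-- the charge of the marks above, if the pairs of the marks are below -/
def B1 (W : Lab) (a k : ℤ) (E : Fin 3 → Half ZT) (q : ℤ) : ℤ :=
  (chgOf W E a k).dc (W.pos (E 1)) q - stp W.P q - stp (W.P - (-a + 1 + k)) q

/-- the charge of the marks above, if the pairs of the marks are above -/
def B2 (W : Lab) (a k : ℤ) (E : Fin 3 → Half ZT) (q : ℤ) : ℤ :=
  -stp (W.pos (E 0)) q - stp (W.pos (E 1)) q - stp W.P q - stp (W.P - (-a + 1 + k)) q

/-- the charge of the marks below, if the pairs of the marks are below -/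
def B3 (W : Lab) (a k : ℤ) (E : Fin 3 → Half ZT) (q : ℤ) : ℤ :=
  -stp (W.pos (E 0)) q - stp (W.pos (E 1)) q + (chgOf W E a k).tc W.P (-a + 1 + k) q

/-- the charge of the marks below, if the pairs of the marks are above -/
def B4 (W : Lab) (a k : ℤ) (E : Fin 3 → Half ZT) (q : ℤ) : ℤ :=
  (chgOf W E a k).dc (W.pos (E 1)) q + (chgOf W E a k).tc W.P (-a + 1 + k) q

lemma vup_rows {C : ℤ → ℤ} {s : ℤ} {p : ℕ} (hp : (p : ℤ) ≤ D.t - D.b - 1) :
    D.vup (D.FC W C s) (D.t - 1) ᵥ* TupD (D.n + 1) (dS s) ((Real.pi / 6 : ℝ) : ℂ) ^ p =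
      D.vup (D.FC W C s) (D.t - 1 - p) := by
  have h := vup_pow (y := D.t - 1 - p) (fac_FC (D := D) (W := W) (C := C) (s := s)) (by omega) p (by omega)
  rw [sub_add_cancel] at h
  exact h.symm

lemma vlow_rows {C : ℤ → ℤ} {s : ℤ} {p : ℕ} (hp : (p : ℤ) ≤ D.t - D.b - 1) :
    TlowD (D.n + 1) (dS s) ((Real.pi / 6 : ℝ) : ℂ) ^ p *ᵥ D.vlow (D.FC W C s) (D.b + 1) =
      D.vlow (D.FC W C s) (D.b + 1 + p) := by
  have h := vlow_pow (y := D.b + 1) (fac_FC (D := D) (W := W) (C := C) (s := s)) (by omega) p (by omega)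
  exact h.symm

lemma le_nU (hW : W.Ok D a nL nU) (ha : 1 ≤ a) : a ≤ nU := by
  have h1 := hW.ceilR (a - 1) (by omega) (by omega)
  have h2 := hW.up _ _ h1.1
  omega

lemma le_nL (hW : W.Ok D a nL nU) (ha : 1 ≤ a) : a ≤ nL := by
  have h1 := hW.floorR (a - 1) (by omega) (by omega)
  have h2 := hW.low _ _ h1.1
  have h3 := hW.floorL (a - 1) (by omega) (by omega)
  have h4 := hW.low _ _ h3.1
  omega

/-- **the vector above**, `+2` of the marks below -/
theorem OE_low (hW : W.Ok D a nL nU) (h : W.pos (E 2) < W.P) (hk : 1 ≤ k) (hak : 4 * k + 4 ≤ a) {p : ℕ}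
    (hp : (p : ℤ) ≤ D.t - D.b - 2) :
    D.OE W a k E ᵥ* TupD (D.n + 1) (dE W a k E) ((Real.pi / 6 : ℝ) : ℂ) ^ p =
      ∑ v ∈ Fintype.piFinset (fun _ : Fin 1 => trio a k),
        D.vup (D.FC W (cC (B1 W a k E) fun i => W.P + v i) (sE W a k E)) (D.t - 1 - p) := by
  have hnU := le_nU hW (by omega)
  have e1 : D.OE W a k E = ∑ k' ∈ Icc (-a + 1 + k) (-a + 1 + k + 2 * ((k + 1).toNat : ℤ) - 1),
      D.vup (D.FC W (fun q => B1 W a k E q + 2 * stp (W.P - k') q) (sE W a k E)) (D.t - 1) := by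
    funext s
    unfold OE
    rw [if_pos h]
    unfold Olow
    rw [Finset.sum_apply]
    have e2 : (-a + 1 + k + 2 * ((k + 1).toNat : ℤ) - 1) = -a + 2 + 3 * k := by omega
    rw [e2]
    refine Finset.sum_congr rfl fun k' _ => ?_
    rw [FF_eq_FC]
    congr 3
    funext q
    unfold B1 Chg.tc chgOf
    ring
  rw [e1, Matrix.sum_vecMul]
  have e3 : ∀ k' : ℤ, D.vup (D.FC W (fun q => B1 W a k E q + 2 * stp (W.P - k') q) (sE W a k E)) (D.t - 1) ᵥ*
      TupD (D.n + 1) (dE W a k E) ((Real.pi / 6 : ℝ) : ℂ) ^ p =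
      D.vup (D.FC W (fun q => B1 W a k E q + 2 * stp (W.P - k') q) (sE W a k E)) (D.t - 1 - p) := fun k' =>
    vup_rows (by omega)
  rw [Finset.sum_congr rfl fun k' _ => e3 k', vup_trio hW (by omega) (by omega) _ (by omega) (by omega),
    sum_pi1, sum_trio]
  refine Finset.sum_congr rfl fun i _ => ?_
  congr 2
  funext q
  unfold cC
  rw [Fin.sum_univ_one]
  congr 2
  ring

/-- **the vector above**, `+2` of the marks above -/
theorem OE_up (hW : W.Ok D a nL nU) (h : W.P < W.pos (E 1)) (hlt : W.pos (E 1) < W.pos (E 2))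
    (h2 : W.pos (E 2) < W.P + nU) (hk : 1 ≤ k) (hak : 4 * k + 4 ≤ a) {N : ℕ}
    (hN : W.pos (E 2) + 1 = W.pos (E 1) + 2 * N) {p : ℕ} (hp : (p : ℤ) ≤ D.t - D.b - 2) :
    D.OE W a k E ᵥ* TupD (D.n + 1) (dE W a k E) ((Real.pi / 6 : ℝ) : ℂ) ^ p =
      ∑ v ∈ Fintype.piFinset (![trio a k, evn (W.pos (E 1) - W.P) N] : Fin 2 → Finset ℤ),
        D.vup (D.FC W (cC (B2 W a k E) fun i => W.P + v i) (sE W a k E)) (D.t - 1 - p) := by
  have hnU := le_nU hW (by omega)
  have hJ : Icc (W.pos (E 1)) (W.pos (E 2)) = Icc (W.pos (E 1)) (W.pos (E 1) + 2 * (N : ℤ) - 1) := by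
    rw [← hN, add_sub_cancel_right]
  have e1 : D.OE W a k E = ∑ j ∈ Icc (W.pos (E 1)) (W.pos (E 1) + 2 * (N : ℤ) - 1),
      ∑ k' ∈ Icc (-a + 1 + k) (-a + 1 + k + 2 * ((k + 1).toNat : ℤ) - 1),
      D.vup (D.FC W (fun q => (B2 W a k E q + 2 * stp j q) + 2 * stp (W.P - k') q) (sE W a k E)) (D.t - 1) := by
    funext s
    unfold OE
    rw [if_neg (by omega)]
    unfold Oup
    rw [Finset.sum_apply]
    have e2 : (-a + 1 + k + 2 * ((k + 1).toNat : ℤ) - 1) = -a + 2 + 3 * k := by omega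
    rw [e2, hJ]
    refine Finset.sum_congr rfl fun j hj => ?_
    rw [Finset.mem_Icc] at hj
    rw [Finset.sum_apply]
    refine Finset.sum_congr rfl fun k' _ => ?_
    rw [FF_eq_FC]
    have e4 : (chgOf W E a k).dc j W.P = sE W a k E := by
      unfold sE Chg.dc stp
      rw [if_neg (show ¬ j ≤ W.P by omega), if_neg (show ¬ W.pos (E 1) ≤ W.P by omega)]
    rw [e4]
    congr 3
    funext q
    unfold B2 Chg.tc Chg.dc chgOf
    ring
  rw [e1, Matrix.sum_vecMul]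
  have e3 : ∀ j : ℤ, (∑ k' ∈ Icc (-a + 1 + k) (-a + 1 + k + 2 * ((k + 1).toNat : ℤ) - 1),
      D.vup (D.FC W (fun q => (B2 W a k E q + 2 * stp j q) + 2 * stp (W.P - k') q) (sE W a k E)) (D.t - 1)) ᵥ*
      TupD (D.n + 1) (dE W a k E) ((Real.pi / 6 : ℝ) : ℂ) ^ p =
      ∑ i ∈ range (k + 1).toNat, D.vup (D.FC W (fun q => (B2 W a k E q + pr (W.P - (-a + 1 + k) - 1 - 2 * i) q) +
        2 * stp j q) (sE W a k E)) (D.t - 1 - p) := by
    intro j
    rw [Matrix.sum_vecMul]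
    have e4 : ∀ k' : ℤ, D.vup (D.FC W (fun q => (B2 W a k E q + 2 * stp j q) + 2 * stp (W.P - k') q)
        (sE W a k E)) (D.t - 1) ᵥ* TupD (D.n + 1) (dE W a k E) ((Real.pi / 6 : ℝ) : ℂ) ^ p =
        D.vup (D.FC W (fun q => (B2 W a k E q + 2 * stp j q) + 2 * stp (W.P - k') q) (sE W a k E))
          (D.t - 1 - p) := fun k' => vup_rows (by omega)
    rw [Finset.sum_congr rfl fun k' _ => e4 k', vup_trio hW (by omega) (by omega) _ (by omega) (by omega)]
    refine Finset.sum_congr rfl fun i _ => ?_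
    congr 2
    funext q
    ring
  rw [Finset.sum_congr rfl fun j _ => e3 j, Finset.sum_comm, sum_pi2]
  simp only [Matrix.cons_val_zero, Matrix.cons_val_one]
  rw [sum_trio]
  refine Finset.sum_congr rfl fun i _ => ?_
  rw [vup_sum hW (by omega) (by omega) (fun q => B2 W a k E q + pr (W.P - (-a + 1 + k) - 1 - 2 * i) q)
    (by omega) (by omega), sum_evn]
  refine Finset.sum_congr rfl fun i' _ => ?_
  congr 2
  funext q
  unfold cC
  rw [Fin.sum_univ_two]
  simp only [Matrix.cons_val_zero, Matrix.cons_val_one]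
  rw [← add_assoc, show W.P - (-a + 1 + k) - 1 - 2 * (i : ℤ) = W.P + (a - 2 - k - 2 * i) by ring,
    show W.pos (E 1) + 2 * (i' : ℤ) = W.P + (W.pos (E 1) - W.P + 2 * i') by ring]

/-- **the vector below**, `+2` of the marks below -/
theorem IE_low (hW : W.Ok D a nL nU) (h : W.pos (E 2) < W.P) (h1 : 0 ≤ W.pos (E 1)) (h2 : W.pos (E 2) < nL)
    (hlt : W.pos (E 1) < W.pos (E 2)) {N : ℕ}
    (hN : W.pos (E 2) + 1 = W.pos (E 1) + 2 * N) {p : ℕ} (hp : (p : ℤ) ≤ D.t - D.b - 2) :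
    TlowD (D.n + 1) (dE W a k E) ((Real.pi / 6 : ℝ) : ℂ) ^ p *ᵥ D.IE W a k E =
      ∑ v ∈ Fintype.piFinset (fun _ : Fin 1 => evd (nL - 1 - W.pos (E 1)) N),
        D.vlow (D.FC W (cC (B3 W a k E) fun i => nL - 1 - v i) (sE W a k E)) (D.b + 1 + p) := by
  have hJ : Icc (W.pos (E 1)) (W.pos (E 2)) = Icc (W.pos (E 1)) (W.pos (E 1) + 2 * (N : ℤ) - 1) := by
    rw [← hN, add_sub_cancel_right]
  have e1 : D.IE W a k E = ∑ j ∈ Icc (W.pos (E 1)) (W.pos (E 1) + 2 * (N : ℤ) - 1),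
      D.vlow (D.FC W (fun q => B3 W a k E q + 2 * stp j q) (sE W a k E)) (D.b + 1) := by
    funext s
    unfold IE
    rw [if_pos h]
    unfold Ilow
    rw [Finset.sum_apply, hJ]
    refine Finset.sum_congr rfl fun j hj => ?_
    rw [Finset.mem_Icc] at hj
    rw [FF_eq_FC]
    have e4 : (chgOf W E a k).dc j W.P = sE W a k E := by
      unfold sE Chg.dc stp
      rw [if_pos (show j ≤ W.P by omega), if_pos (show W.pos (E 1) ≤ W.P by omega)]
    rw [e4]
    congr 3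
    funext q
    unfold B3 Chg.dc chgOf
    ring
  rw [e1, Matrix.mulVec_sum]
  have e3 : ∀ j : ℤ, TlowD (D.n + 1) (dE W a k E) ((Real.pi / 6 : ℝ) : ℂ) ^ p *ᵥ
      D.vlow (D.FC W (fun q => B3 W a k E q + 2 * stp j q) (sE W a k E)) (D.b + 1) =
      D.vlow (D.FC W (fun q => B3 W a k E q + 2 * stp j q) (sE W a k E)) (D.b + 1 + p) := fun j =>
    vlow_rows (by omega)
  rw [Finset.sum_congr rfl fun j _ => e3 j, vlow_sum hW (by omega) (by omega) _ h1 (by omega), sum_pi1, sum_evd]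
  refine Finset.sum_congr rfl fun i _ => ?_
  congr 2
  funext q
  unfold cC
  rw [Fin.sum_univ_one]
  congr 2
  ring

/-- **the vector below**, `+2` of the marks above -/
theorem IE_up (h : ¬ W.pos (E 2) < W.P) {p : ℕ} (hp : (p : ℤ) ≤ D.t - D.b - 2) :
    TlowD (D.n + 1) (dE W a k E) ((Real.pi / 6 : ℝ) : ℂ) ^ p *ᵥ D.IE W a k E =
      ∑ v ∈ Fintype.piFinset (Fin.elim0 : Fin 0 → Finset ℤ),
        D.vlow (D.FC W (cC (B4 W a k E) fun i => nL - 1 - v i) (sE W a k E)) (D.b + 1 + p) := by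
  rw [sum_pi0]
  have e1 : D.IE W a k E = D.vlow (D.FC W (B4 W a k E) (sE W a k E)) (D.b + 1) := by
    funext s
    unfold IE
    rw [if_neg h]
    unfold Iup
    rw [FF_eq_FC]
    rfl
  have e2 : (cC (B4 W a k E) fun i : Fin 0 => nL - 1 - (Fin.elim0 i : ℤ)) = B4 W a k E := by
    funext q
    unfold cC
    simp
  rw [e1, e2]
  exact vlow_rows (by omega)

end Slab

end Full
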