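import Pool.Agent.Full.Norm.CapLab
import Pool.Agent.Full.Norm.Half
import Pool.Agent.Full.X3.ThWall

/-!
# The wall ends of the two halves of a slab

`Cap.wall_iff`: the wall ends of a cap; `Cap.Lb.wl`: their number, from labels; `up_wall`, `low_wall`: those of the two halves of a slab are the walls
`Slab.IsW`; `wl_up`, `wl_low`: their numbers are `nU`, `nL`.
-/

set_option autoImplicit false

namespace Full.Norm
open Finset Function Full.X3

namespace Cap
variable {D : Cap}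

/-- **the wall ends of a cap** -/
theorem wall_iff {t : ℤ × ℤ} {d : Dir} : (Bd D.R D.g (t, d) ∧ (t, d) ∉ D.C) ↔
    (t ∈ D.U ∧ t + d.vec ∉ D.U ∧ ¬ ((D.l ≤ (t + d.vec).1 ∧ (t + d.vec).1 < D.r) ∧ (t + d.vec).2 = D.t - 1)) ∨
      ((D.l ≤ t.1 ∧ t.1 < D.r) ∧ t.2 = D.t - 1 ∧ d = .N ∧ t + d.vec ∉ D.U) := by
  obtain ⟨i, j⟩ := t
  have hlr := D.hlr
  have hyt := D.hyt
  have hb : Bd D.R D.g ((i, j), d) ↔ (i, j) ∈ D.R ∧ ∀ t' ∈ (cyl D.l D.r D.y D.t).nb d (i, j), t' ∉ D.R :=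
    Slab.bd_iff_nb
  rw [hb, mem_R]
  by_cases hU : (i, j) ∈ D.U
  · have h1 : ¬ ((D.l - 1 ≤ i ∧ i ≤ D.r) ∧ D.y - 1 ≤ j ∧ j < D.t) := fun h =>
      D.hU i j h.1.1 h.1.2 h.2.1 h.2.2 hU
    have h2 : (cyl D.l D.r D.y D.t).nb d (i, j) = some ((i, j) + d.vec) := cyl_nb (by omega) d
    have h3 : ((i, j), d) ∉ D.C := fun h => by
      have := mem_C.1 h
      simp only at this
      omega
    rw [h2]
    constructor
    · rintro ⟨⟨-, h4⟩, -⟩
      have h5 := h4 _ rfl
      have h6 : ((i, j) + d.vec : ℤ × ℤ) = (i + d.vec.1, j + d.vec.2) := rfl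
      rw [h6, mem_R, not_or] at h5
      rw [h6]
      exact Or.inl ⟨hU, h5.1, fun h7 => h5.2 (by simp only at h7; omega)⟩
    · rintro (⟨-, h4, h5⟩ | ⟨h4, h5, -⟩)
      · refine ⟨⟨Or.inl hU, fun t' ht' h6 => ?_⟩, h3⟩
        obtain rfl := Option.some.inj ht'
        have h7 : ((i, j) + d.vec : ℤ × ℤ) = (i + d.vec.1, j + d.vec.2) := rfl
        rw [h7] at h4 h5 h6
        rw [mem_R] at h6
        rcases h6 with h6 | h6
        · exact h4 h6
        · simp only at h5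
          cases d <;> simp only [Dir.vec] at h5 h6 <;> omega
      · simp only at h4 h5
        omega
  · constructor
    · rintro ⟨⟨h1, h2⟩, h3⟩
      have h4 := h1.resolve_left hU
      right
      cases d with
      | E =>
        exfalso
        by_cases h5 : i = D.r - 1
        · subst h5
          exact h2 _ (cyl_E_end ⟨h4.2.1, h4.2.2⟩) (strip_mem le_rfl hlr h4.2.1 h4.2.2)
        · exact h2 _ (cyl_E (Or.inr ⟨h5, by omega⟩)) (strip_mem (by omega) (by omega) h4.2.1 h4.2.2)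
      | W =>
        exfalso
        by_cases h5 : i = D.l
        · subst h5
          exact h2 _ (cyl_W_end ⟨h4.2.1, h4.2.2⟩) (strip_mem (by omega) (by omega) h4.2.1 h4.2.2)
        · exact h2 _ (cyl_W (Or.inr ⟨h5, by omega⟩)) (strip_mem (by omega) (by omega) h4.2.1 h4.2.2)
      | S =>
        exfalso
        by_cases h5 : j = D.y
        · exact h3 (mem_C.2 ⟨h4.1, h5, rfl⟩)
        · exact h2 _ cyl_S (strip_mem (by omega) (by omega) (by omega) (by omega))
      | N =>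
        have h5 : j = D.t - 1 := by
          by_contra h5
          exact h2 _ cyl_N (strip_mem (by omega) (by omega) (by omega) (by omega))
        refine ⟨h4.1, h5, rfl, fun h6 => ?_⟩
        have h7 : ((i, j) + Dir.N.vec : ℤ × ℤ) = (i, j + 1) := by
          show (i + 0, j + 1) = _
          rw [add_zero]
        rw [h7] at h6
        exact h2 _ cyl_N (mem_R.2 (Or.inl h6))
    · rintro (h | ⟨h1, h2, rfl, h3⟩)
      · exact absurd h.1 hU
      · simp only at h1 h2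
        refine ⟨⟨Or.inr ⟨h1, by omega, by omega⟩, fun t' ht' h4 => ?_⟩, fun h => ?_⟩
        · rw [cyl_N] at ht'
          obtain rfl := Option.some.inj ht'
          have h7 : ((i, j) + Dir.N.vec : ℤ × ℤ) = (i, j + 1) := by
            show (i + 0, j + 1) = _
            rw [add_zero]
          rw [h7] at h3
          rcases mem_R.1 h4 with h5 | h5
          · exact h3 h5
          · omega
        · exact Dir.noConfusion (mem_C.1 h).2.2

end Cap

/-- **the number of the wall ends**, from the labels -/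
theorem Cap.Lb.wl {D : Cap} {a L : ℤ} {o : Half (ℤ × ℤ) → ℤ} (h : D.Lb a L o) : (D.wl : ℤ) = L := by
  classical
  have hL : 0 ≤ L := by
    have h1 := h.ha
    have h2 := h.right 0 le_rfl (by omega)
    have := h.range _ h2.1
    omega
  have e : D.wl = (Finset.Ico 0 L).card := by
    unfold Cap.wl
    have hm : ∀ x, x ∈ (ends D.R D.g).filter (fun x => x ∉ D.C) ↔ D.Wl x := by
      intro x
      rw [mem_filter, mem_ends]
      rfl
    refine Finset.card_bij (fun x _ => o x) (fun x hx => ?_) (fun x hx x' hx' h1 => ?_) fun p hp => ?_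
    · rw [Finset.mem_Ico]
      exact h.range _ ((hm x).1 hx)
    · exact h.inj _ _ ((hm x).1 hx) ((hm x').1 hx') h1
    · rw [Finset.mem_Ico] at hp
      obtain ⟨x, hx, hx'⟩ := h.surj p hp.1 hp.2
      exact ⟨x, (hm x).2 hx, hx'⟩
  rw [e, Int.card_Ico]
  omega

section slab
variable {D : Slab} {y : ℤ}

/-- **the wall ends of the upper half** -/
theorem up_wall (hb : D.b ≤ y) (ht : y < D.t) {t : ℤ × ℤ} {d : Dir} :
    (Bd (upCap D y hb ht).R (upCap D y hb ht).g (t, d) ∧ (t, d) ∉ (upCap D y hb ht).C) ↔ D.IsW (.inr t, d) := by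
  rw [Cap.wall_iff, Slab.isW_inr (lt_of_le_of_lt hb ht)]
  rfl

/-- **the wall ends of the lower half** -/
theorem low_wall (hb : D.b < y) (ht : y ≤ D.t) {t : ℤ × ℤ} {d : Dir} :
    (Bd (lowCap D y hb ht).R (lowCap D y hb ht).g (t, d) ∧ (t, d) ∉ (lowCap D y hb ht).C) ↔
      D.IsW (.inl (rfl2 t), d.flip) := by
  have e : ∀ s : ℤ × ℤ, s ∈ (lowCap D y hb ht).U ↔ rfl2 s ∈ D.L := by
    intro s
    show s ∈ D.L.image rfl2 ↔ _
    rw [mem_image]
    constructor
    · rintro ⟨a, ha, rfl⟩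
      rwa [rfl2_rfl2]
    · intro h
      exact ⟨rfl2 s, h, rfl2_rfl2 s⟩
  rw [Cap.wall_iff, Slab.isW_inl (lt_of_lt_of_le hb ht), e, e, ← Cap.rfl2_vec]
  obtain ⟨i, j⟩ := t
  have h1 : ∀ s : ℤ × ℤ, ((D.l ≤ s.1 ∧ s.1 < D.r + 1) ∧ s.2 = -D.b - 1) ↔
      ((D.l ≤ (rfl2 s).1 ∧ (rfl2 s).1 ≤ D.r) ∧ (rfl2 s).2 = D.b) := by
    intro s
    show _ ↔ ((D.l ≤ s.1 ∧ s.1 ≤ D.r) ∧ -1 - s.2 = D.b)
    omega
  have h2 : d = .N ↔ d.flip = .S := by cases d <;> decide
  constructor
  · rintro (⟨h3, h4, h5⟩ | ⟨h3, h4, h5, h6⟩)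
    · exact Or.inl ⟨h3, h4, fun h => h5 ((h1 _).2 h)⟩
    · have := (h1 (i, j)).1 ⟨h3, h4⟩
      exact Or.inr ⟨this.1, this.2, h2.1 h5, h6⟩
  · rintro (⟨h3, h4, h5⟩ | ⟨h3, h4, h5, h6⟩)
    · exact Or.inl ⟨h3, h4, fun h => h5 ((h1 _).1 h)⟩
    · have := (h1 (i, j)).2 ⟨h3, h4⟩
      exact Or.inr ⟨this.1, this.2, h2.2 h5, h6⟩

variable {W : Lab} {a nL nU : ℤ}

/-- **the number of the wall ends of the upper half** -/
theorem wl_up (hW : W.Ok D a nL nU) (hb : D.b ≤ y) (ht : y < D.t) : (upCap D y hb ht).wl = nU.toNat := by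
  classical
  have hP := hW.P_eq
  unfold Cap.wl
  have e : nU.toNat = (Finset.Ico W.P (W.P + nU)).card := by
    rw [Int.card_Ico]
    congr 1
    ring
  rw [e]
  have hm : ∀ x, x ∈ (ends (upCap D y hb ht).R (upCap D y hb ht).g).filter (fun x => x ∉ (upCap D y hb ht).C) ↔
      D.IsW (.inr x.1, x.2) := by
    rintro ⟨t, d⟩
    rw [mem_filter, mem_ends]
    exact up_wall hb ht
  refine Finset.card_bij (fun x _ => W.pos (.inr x.1, x.2)) (fun x hx => ?_) (fun x hx x' hx' h => ?_) fun p hp => ?_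
  · rw [Finset.mem_Ico]
    exact hW.up _ _ ((hm x).1 hx)
  · have h1 := hW.inj _ _ ((hm x).1 hx) ((hm x').1 hx') h
    exact Prod.ext (Sum.inr.inj (Prod.ext_iff.1 h1).1) (Prod.ext_iff.1 h1).2
  · rw [Finset.mem_Ico] at hp
    obtain ⟨⟨t | t, d⟩, hu, hu'⟩ := hW.surj p (Or.inr hp)
    · have := hW.low t d hu
      omega
    · exact ⟨(t, d), (hm _).2 hu, hu'⟩

/-- **the number of the wall ends of the lower half** -/
theorem wl_low (hW : W.Ok D a nL nU) (hb : D.b < y) (ht : y ≤ D.t) : (lowCap D y hb ht).wl = nL.toNat := by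
  classical
  have hP := hW.P_eq
  unfold Cap.wl
  have e : nL.toNat = (Finset.Ico 0 nL).card := by
    rw [Int.card_Ico]
    congr 1
    ring
  rw [e]
  have hm : ∀ x, x ∈ (ends (lowCap D y hb ht).R (lowCap D y hb ht).g).filter
      (fun x => x ∉ (lowCap D y hb ht).C) ↔ D.IsW (.inl (rfl2 x.1), x.2.flip) := by
    rintro ⟨t, d⟩
    rw [mem_filter, mem_ends]
    exact low_wall hb ht
  refine Finset.card_bij (fun x _ => W.pos (.inl (rfl2 x.1), x.2.flip)) (fun x hx => ?_)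
    (fun x hx x' hx' h => ?_) fun p hp => ?_
  · rw [Finset.mem_Ico]
    exact hW.low _ _ ((hm x).1 hx)
  · have h1 := hW.inj _ _ ((hm x).1 hx) ((hm x').1 hx') h
    have h2 := Sum.inl.inj (Prod.ext_iff.1 h1).1
    have h3 : x.2.flip = x'.2.flip := (Prod.ext_iff.1 h1).2
    refine Prod.ext ?_ ?_
    · rw [← rfl2_rfl2 x.1, h2, rfl2_rfl2]
    · rw [← Dir.flip_flip x.2, h3, Dir.flip_flip]
  · rw [Finset.mem_Ico] at hp
    obtain ⟨⟨t | t, d⟩, hu, hu'⟩ := hW.surj p (Or.inl hp)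
    · refine ⟨(rfl2 t, d.flip), (hm _).2 ?_, ?_⟩
      · simp only [rfl2_rfl2, Dir.flip_flip]
        exact hu
      · simp only [rfl2_rfl2, Dir.flip_flip]
        exact hu'
    · have := hW.up t d hu
      omega

end slab

end Full.Norm
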