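import Pool.Agent.Full.Norm.Join
import Pool.Agent.Full.Norm.EnvLb
import Pool.Agent.Full.Norm.SumRed
import Pool.Agent.Full.Norm.MarkEz
import Pool.Agent.Full.Norm.PosFlat
import Pool.Agent.Full.Norm.ShapeIsCap
import Pool.Agent.Full.Norm.Scales
import Pool.Agent.Full.Norm.WallNum
import Pool.Agent.Full.Asm.S1Geo
import Pool.Agent.Full.Bad.SlabOdd

/-!
# The norm of the vector below

`lowBd_of : CapNorm → LbLow → PhLow → LowBd`: the norm below from the norm bound of caps; `LbLow`, `PhLow` are the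
labels of the reflected lower half of a slab and the law of its phases.
-/

set_option autoImplicit false

namespace Full.Norm

open Filter Matrix SixV Finset Function Slab

/-- the labels of the reflected lower half (statement) -/
def LbLow : Prop := ∀ (D : Slab) (W : Lab) (a nL nU k : ℤ) (E : Fin 3 → Half ZT) (x y : ℤ),
  D.Rdy W a nL nU k E x y → ∀ (y' : ℤ) (hb : D.b < y') (ht : y' ≤ D.t),
    (lowCap D y' hb ht).Lb a nL fun x => nL - 1 - W.pos (eL x)

/-- the law of the phases of the reflected lower half (statement) -/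
def PhLow : Prop := ∀ (D : Slab) (W : Lab) (a nL nU k : ℤ) (E : Fin 3 → Half ZT) (x y : ℤ),
  D.Rdy W a nL nU k E x y → ∀ (y' : ℤ) (hb : D.b < y') (ht : y' ≤ D.t) (C : ℤ → ℤ) (s : ℤ),
    s - C (nL - 1) + C 0 = 0 → (lowCap D y' hb ht).PhLaw (D.phL W C s)
      (fun x => if x = (lowCap D y' hb ht).se then 0 else C (W.pos (eL x) - 1) - C (W.pos (eL x))) (-(8 * K0 * s))

/-- the marks with a charge `-1` below -/
abbrev MkL (W : Lab) (E : Fin 3 → Half ZT) : Type := {i : Fin 3 // i ≠ 2 ∧ W.pos (E i) < W.P}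

section
variable {D : Slab} {W : Lab} {a nL nU : ℤ} {E : Fin 3 → Half ZT}

lemma sum_MkL (f : Fin 3 → ℤ) : ∑ j : MkL W E, f j.1 =
    (if W.pos (E 0) < W.P then f 0 else 0) + (if W.pos (E 1) < W.P then f 1 else 0) := by
  rw [← Finset.sum_subtype (Finset.univ.filter fun i : Fin 3 => i ≠ 2 ∧ W.pos (E i) < W.P) (by simp) f,
    Finset.sum_filter, Fin.sum_univ_three]
  simp

lemma card_MkL (hE : MarksOk D W a nL nU E) (hP : nL ≤ W.P) (ha : 0 < a) :
    (Fintype.card (MkL W E) : ℝ) = (if W.P < W.pos (E 0) then 0 else 1) + (if W.P < W.pos (E 1) then 0 else 1) := by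
  have h := sum_MkL (W := W) (E := E) fun _ => 1
  rw [Finset.sum_const, Finset.card_univ, nsmul_eq_mul, mul_one] at h
  have h0 := hE.far 0
  have h1 := hE.far 1
  have e0 : W.pos (E 0) < W.P ↔ ¬ W.P < W.pos (E 0) := by omega
  have e1 : W.pos (E 1) < W.P ↔ ¬ W.P < W.pos (E 1) := by omega
  have h2 : (Fintype.card (MkL W E) : ℤ) =
      (if W.P < W.pos (E 0) then 0 else 1) + (if W.P < W.pos (E 1) then 0 else 1) := by
    rw [h]
    simp only [e0, e1]
    split_ifs <;> rfl
  have h3 : ((Fintype.card (MkL W E) : ℤ) : ℝ) =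
      (((if W.P < W.pos (E 0) then 0 else 1) + (if W.P < W.pos (E 1) then 0 else 1) : ℤ) : ℝ) := by rw [h2]
  push_cast at h3
  exact h3

lemma card_MkL_le : Fintype.card (MkL W E) ≤ 3 := by
  have := Fintype.card_subtype_le fun i : Fin 3 => i ≠ 2 ∧ W.pos (E i) < W.P
  simpa using this

end

open Shape

/-- a mark is below exactly if its position is below -/
lemma low_iff {S : Shape} {m : S.Marks} (hm : m.Ok) {n : ℕ} {σ : Fin 4 → ℕ} {r : S.R} {D : Slab} {W : Lab}
    {a nL nU : ℤ} (hW : W.Ok D a nL nU) (hP : nL ≤ W.P) {j : Fin 4} (hj : D.IsW (m.ez n σ (.inl r) j)) :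
    W.pos (m.ez n σ (.inl r) j) < W.P ↔ m.Low (.inl r) j := by
  constructor
  · intro h
    by_contra h1
    rw [Shape.Marks.ez_up hm h1] at h hj
    have := hW.up _ _ hj
    unfold eU at h
    omega
  · intro h
    rw [Shape.Marks.ez_low hm h] at hj ⊢
    have := hW.low _ _ hj
    unfold eL
    omega

/-- the norm of a sum over labels below -/
theorem low_core (hLb : LbLow) (hPh : PhLow) {S : Shape} (hS : S.Ok) {m : S.Marks} (hm : m.Ok) {r : S.R} {n : ℕ}
    (hn : 8 ≤ n) (a : Shape.Sh S n) {W : Lab} {a' nL nU k : ℤ} {sr : Fin 3} {x y : ℤ} {E : Fin 3 → Half ZT}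
    (hE : E = fun i => m.ez n a.σ (.inl r) (i + sr).castSucc)
    (hR : (S.zslab hS (a.small hn).two (tree hS) (.inl r)).Rdy W a' nL nU k E x y) (hk : (n : ℤ) ≤ 16 * k)
    {K w mm R : ℕ} (hw : 1 ≤ w) (hwn : 64 * w ≤ n) (hmm : 1 ≤ mm) (hmR : 100 * mm + 100 ≤ R) (hRw : 4 * R ≤ w)
    (hnK : n ≤ K * mm) (hA : n * (2 * S.bd + 2) ≤ K * mm) (hRn : R ≤ n) (hK : 4 * Fintype.card S.Q + 3 ≤ K)
    {y' : ℤ} (hb : (S.zslab hS (a.small hn).two (tree hS) (.inl r)).b < y')
    (ht : y' ≤ (S.zslab hS (a.small hn).two (tree hS) (.inl r)).t) (hy : S.fb n (.inl r) + 4 * w ≤ y')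
    {p : ℕ} (hp : p ≤ 1) {T : Fin p → Finset ℤ} (hT : ∀ i, ∀ u ∈ T i, a' ≤ u ∧ u + a' ≤ nL)
    {B : ℤ → ℤ} {s : ℤ} (hB : ∀ q, 0 < q → q < nL →
      B (q - 1) - B q = (if q = W.pos (E 0) then 1 else 0) + (if q = W.pos (E 1) then 1 else 0))
    (hBs : s - B (nL - 1) + B 0 - 2 * p = 0) {ε C : ℝ}
    (hC : ∀ (D : Cap) (E : D.Env p) (n w A m R : ℕ), E.Ok (8 * (K + 2) ^ 2) n w A m R →
      ∀ (φ : (Fin p → Half (ℤ × ℤ)) → Half (ℤ × ℤ) → ℝ) (ψ : ℝ),
      (∀ a ∈ Fintype.piFinset E.Y, D.PhLaw (φ a) (E.chg a) ψ) → ∀ N : ℕ, D.r = D.l + N →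
      ∑ s : Fin N → Bool, ‖∑ a ∈ Fintype.piFinset E.Y, D.vec N (uph (φ a)) s‖ ^ 2 ≤
        C * (n : ℝ) ^ ((2 * (p : ℝ) - (E.M.card : ℝ)) / 3 + ε) * Real.sqrt 3 ^ D.wl) :
    ∑ σ, ‖(∑ v ∈ Fintype.piFinset T, (S.zslab hS (a.small hn).two (tree hS) (.inl r)).vlow
        ((S.zslab hS (a.small hn).two (tree hS) (.inl r)).FC W (cC B fun i => nL - 1 - v i) s) y') σ‖ ^ 2 ≤
      C * (n : ℝ) ^ ((2 * (p : ℝ) - (Fintype.card (MkL W E) : ℝ)) / 3 + ε) * Real.sqrt 3 ^ nL.toNat := by
  have hs : S.Small n a.s := a.small hn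
  set D := S.zslab hS (a.small hn).two (tree hS) (.inl r) with hD
  have hbt := hR.good.bt
  have hak := hR.hak
  have hk1 := hR.hk
  have hPn := hR.ok.P_eq
  have hfar := hR.marks.far
  have hcap := isCap_low hS hs.two hw (by omega : 16 * w ≤ n) (tree hS) hb ht hy
  have tame := tame_low hS hs.two hw (by omega : 16 * w ≤ n) (tree hS) hb ht hy
  have hl := hLb D W a' nL nU k E x y hR y' hb ht
  have hlow : ∀ j : MkL W E, m.Low (.inl r) (j.1 + sr).castSucc := by
    rintro ⟨j, hj⟩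
    have h1 := hR.marks.wall j
    have h2 := hj.2
    rw [hE] at h1 h2
    exact (low_iff hm hR.ok (by omega) h1).1 h2
  have hez : ∀ j : MkL W E, E j.1 = eL (Rms.fme false (m.pL n a.σ (j.1 + sr).castSucc)) := by
    intro j
    have e : E j.1 = m.ez n a.σ (.inl r) (j.1 + sr).castSucc := congrFun hE j.1
    exact e.trans (Shape.Marks.ez_low hm (hlow j))
  have hroom : ∀ j : MkL W E, ((Sum.inl (m.room (j.1 + sr).castSucc) : S.Q) = .inl r ∧ false = false) ∨
      (Sum.inl (m.room (j.1 + sr).castSucc) : S.Q) ∈ S.partF (.inl r) false := fun j =>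
    (hlow j).imp (fun h => ⟨h, rfl⟩) mem_partF.2
  have flat : ∀ (j : MkL W E) (R' : ℕ), 2 * R' + 4 ≤ n → (S.lowRms n a.s (.inl r) y').Flat
      (S.partF (.inl r) false) (.inl r) R' (.inl (m.room (j.1 + sr).castSucc)) false
      (m.pL n a.σ (j.1 + sr).castSucc) := fun j R' hR' =>
    flat_low hS hm hs.two a.σ_le hR' (hlow j) hb ht (tree hS)
  obtain ⟨E', h1, h2, h3, h4⟩ := hcap.env_lb (K := K) (n := n) (B := 2 * S.bd + 2) (m := mm) (R := R)
    tame hmm hmR hRw hnK hA hRn (μ := MkL W E)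
    (by
      have e1 : (S.partF (.inl r) false).card ≤ Fintype.card S.Q := Finset.card_le_univ _
      have e2 := card_MkL_le (W := W) (E := E)
      omega)
    (card_partF hS (tree hS) r false) (T := T) (o := fun x => nL - 1 - W.pos (eL x))
    (fun i z hz hz' => by
      have := hT i _ hz'
      exact hcap.plain_lb hl hz (by omega) (by omega) (by omega) (by omega))
    (fun i j hij => absurd (by omega : (i : ℕ) = j) fun h => hij (Fin.ext h))
    (P := fun j => m.pL n a.σ (j.1 + sr).castSucc) (u := fun _ => false)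
    (fun j => .inl (m.room (j.1 + sr).castSucc)) hroom (fun j => flat j _ (by omega))
    (fun j j' hjj => far_low hS hm hs.two a.σ_le (by omega) (by omega) (tree hS) hcap hb ht (fun h => hjj (by
      have e1 : (j.1 + sr : Fin 3) = j'.1 + sr := Fin.castSucc_injective _ h
      exact Subtype.ext (add_right_cancel e1))) (hlow j) (hlow j'))
  have hT' : ∀ i, ∀ u ∈ T i, 0 < u ∧ u < nL - 1 := fun i u hu => by
    have := hT i u hu
    omega
  have key := low_red (s := s) hb ht hl (fun C hCs => hPh D W a' nL nU k E x y hR y' hb ht C s hCs) hT'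
    (me := fun j : MkL W E => Rms.fme false (m.pL n a.σ (j.1 + sr).castSucc))
    (fun j => ⟨hcap.bd_flat (hroom j) (flat j R (by omega)) (by omega) (by omega), by
      rw [← hez]
      have := hfar j.1
      omega⟩)
    (B := B) (fun q hq hq' => by
      rw [hB q hq hq']
      simp only [← hez]
      rw [sum_MkL (W := W) (E := E) fun i => if q = W.pos (E i) then 1 else 0]
      split_ifs <;> omega)
    hBs E' h3 h4 (X := C * (n : ℝ) ^ ((2 * (p : ℝ) - (E'.M.card : ℝ)) / 3 + ε) *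
      Real.sqrt 3 ^ (lowCap D y' hb ht).wl)
    (fun φ ψ h => hC _ E' n w _ mm R h1 φ ψ h (D.n + 2) (by
      have := D.r_eq
      show D.r + 1 = D.l + _
      push_cast
      omega))
  rw [h2, wl_low hR.ok hb ht] at key
  exact key

section charges
variable {W : Lab} {a nL k : ℤ} {E : Fin 3 → Half ZT}

lemma stp_zero {g p : ℤ} (h : p < g) : stp g p = 0 := if_neg (not_le.2 h)
lemma stp_one {g p : ℤ} (h : g ≤ p) : stp g p = 1 := if_pos h

lemma stp_pred (g p : ℤ) : stp g (p - 1) - stp g p = -(if p = g then 1 else 0) := by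
  unfold stp
  split_ifs <;> omega

lemma tc_low (p : ℤ) :
    (chgOf W E a k).tc W.P (-a + 1 + k) p = -stp W.P p + stp (W.P - (-a + 1 + k)) p := by
  unfold Chg.tc chgOf
  ring

lemma tc_zero {p : ℤ} (hp : p < W.P) (hk : k < a) : (chgOf W E a k).tc W.P (-a + 1 + k) p = 0 := by
  rw [tc_low p, stp_zero hp, stp_zero (by omega), neg_zero, zero_add]

lemma B3_step (hP : nL ≤ W.P) (hk : k < a) {q : ℤ} (hq : q < nL) :
    B3 W a k E (q - 1) - B3 W a k E q = (if q = W.pos (E 0) then 1 else 0) + (if q = W.pos (E 1) then 1 else 0) := by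
  have h0 := stp_pred (W.pos (E 0)) q
  have h1 := stp_pred (W.pos (E 1)) q
  unfold B3
  rw [tc_zero (by omega) hk, tc_zero (by omega) hk]
  linarith

lemma B4_step (hP : nL ≤ W.P) (hk : k < a) (h : W.P < W.pos (E 1)) {q : ℤ} (hq : q < nL) :
    B4 W a k E (q - 1) - B4 W a k E q = (if q = W.pos (E 0) then 1 else 0) + (if q = W.pos (E 1) then 1 else 0) := by
  have h0 := stp_pred (W.pos (E 0)) q
  unfold B4
  rw [tc_zero (by omega) hk, tc_zero (by omega) hk, if_neg (by omega : ¬ q = W.pos (E 1))]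
  unfold Chg.dc chgOf
  simp only
  rw [stp_zero (by omega : q - 1 < W.pos (E 1)), stp_zero (by omega : q < W.pos (E 1))]
  linarith

lemma B3_seam (hP : nL ≤ W.P) (hk : k < a) (hn : 0 < nL)
    (h0 : (0 < W.pos (E 0) ∧ W.pos (E 0) < nL) ∨ W.P < W.pos (E 0)) (h1 : 0 < W.pos (E 1) ∧ W.pos (E 1) < nL) :
    sE W a k E - B3 W a k E (nL - 1) + B3 W a k E 0 - 2 = 0 := by
  unfold B3 sE
  rw [tc_zero (by omega) hk, tc_zero (by omega) hk]
  unfold Chg.dc chgOf
  simp only
  rw [stp_one (by omega : W.pos (E 1) ≤ W.P), stp_one (by omega : W.pos (E 1) ≤ nL - 1),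
    stp_zero (by omega : (0 : ℤ) < W.pos (E 1)), stp_zero (by omega : (0 : ℤ) < W.pos (E 0))]
  rcases h0 with h0 | h0
  · rw [stp_one (by omega : W.pos (E 0) ≤ W.P), stp_one (by omega : W.pos (E 0) ≤ nL - 1)]
    ring
  · rw [stp_zero (by omega : W.P < W.pos (E 0)), stp_zero (by omega : nL - 1 < W.pos (E 0))]
    ring

lemma B4_seam (hP : nL ≤ W.P) (hk : k < a) (hn : 0 < nL)
    (h0 : (0 < W.pos (E 0) ∧ W.pos (E 0) < nL) ∨ W.P < W.pos (E 0)) (h1 : W.P < W.pos (E 1)) :
    sE W a k E - B4 W a k E (nL - 1) + B4 W a k E 0 = 0 := by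
  unfold B4 sE
  rw [tc_zero (by omega) hk, tc_zero (by omega) hk]
  unfold Chg.dc chgOf
  simp only
  rw [stp_zero (by omega : W.P < W.pos (E 1)), stp_zero (by omega : nL - 1 < W.pos (E 1)),
    stp_zero (by omega : (0 : ℤ) < W.pos (E 1)), stp_zero (by omega : (0 : ℤ) < W.pos (E 0))]
  rcases h0 with h0 | h0
  · rw [stp_one (by omega : W.pos (E 0) ≤ W.P), stp_one (by omega : W.pos (E 0) ≤ nL - 1)]
    ring
  · rw [stp_zero (by omega : W.P < W.pos (E 0)), stp_zero (by omega : nL - 1 < W.pos (E 0))]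
    ring

end charges

/-- **the norm below** -/
theorem lowBd_of (hC : CapNorm) (hLb : LbLow) (hPh : PhLow) : LowBd := by
  intro S hS m hm A hA hCh r κ hκ ε hε
  obtain ⟨K, hK1, hK⟩ := exists_scales (2 * S.bd + 2) (4 * Fintype.card S.Q + 3) hκ
  obtain ⟨C0, hC0, g0⟩ := hC 0 (8 * (K + 2) ^ 2) ε hε
  obtain ⟨C1, hC1, g1⟩ := hC 1 (8 * (K + 2) ^ 2) ε hε
  refine ⟨max C0 C1, le_trans zero_le_one (hC0.trans (le_max_left _ _)), ?_⟩
  filter_upwards [hK, eventually_ge_atTop 8] with n hKn hn a D hD W a' nL nU k sr x y hR hk q hq hqt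
  obtain ⟨w, mm, R, hw, hwn, hwκ, hmm, hmR, hRw, hnK, hnB, hRn⟩ := hKn
  obtain rfl := hD.eq hS (a.small hn).two
  set D := S.zslab hS (a.small hn).two (tree hS) (.inl r) with hDdef
  set E : Fin 3 → Half ZT := fun i => m.ez n a.σ (.inl r) (i + sr).castSucc with hE
  have hbt := hR.good.bt
  have hak := hR.hak
  have hk1 := hR.hk
  have hPn := hR.ok.P_eq
  have hlt := hR.marks.lt
  have hcyc := hR.marks.cyc
  have f0 := hR.marks.far 0
  have f1 := hR.marks.far 1
  have f2 := hR.marks.far 2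
  have hqw : 4 * (w : ℤ) ≤ q := by
    have : 4 * (w : ℝ) ≤ q := hwκ.trans hq
    exact_mod_cast this
  have hDb : D.b = S.fb n (.inl r) := rfl
  have hb : D.b < D.b + 1 + q := by omega
  have ht : D.b + 1 + q ≤ D.t := by omega
  have hy : S.fb n (.inl r) + 4 * w ≤ D.b + 1 + q := by omega
  have hX : 0 ≤ (n : ℝ) ^ (lowE W E + ε) * Real.sqrt 3 ^ nL.toNat := by positivity
  have hP : nL ≤ W.P := by omega
  have hcard := card_MkL hR.marks hP (by omega)
  have hka : k < a' := by omega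
  have hnL0 : 0 < nL := by
    have h1 := hR.ok.floorL 0 le_rfl (by omega)
    have := hR.ok.low _ _ h1.1
    omega
  have h0 : (0 < W.pos (E 0) ∧ W.pos (E 0) < nL) ∨ W.P < W.pos (E 0) := by omega
  rcases hR.marks.side with hside | hside
  · -- the charge `+2` of the marks is below
    obtain ⟨wl, hwl⟩ := hR.wall
    obtain ⟨N, hN1, hN⟩ := odd_marks (by have := hR.good.xl; omega) (by have := hR.good.xr; omega) hR.yb hR.yt hR.ok
      (by omega) hR.marks hwl
    rw [IE_low hR.ok hside (by omega) (by omega) hlt hN hqt]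
    refine (low_core hLb hPh hS hm hn a hE hR hk hw hwn hmm hmR hRw hnK hnB hRn hK1 hb ht hy (p := 1) le_rfl
      (T := fun _ => evd (nL - 1 - W.pos (E 1)) N) (fun _ u hu => ?_) (B := B3 W a' k E) (s := sE W a' k E)
      (fun v hv hv' => ?_) ?_ (ε := ε) (C := C1) g1).trans ?_
    · obtain ⟨i, hi, rfl⟩ := Finset.mem_image.1 hu
      rw [Finset.mem_range] at hi
      omega
    · exact B3_step hP hka hv'
    · push_cast
      exact B3_seam hP hka hnL0 h0 (by omega)
    · have e : (2 * ((1 : ℕ) : ℝ) - (Fintype.card (MkL W E) : ℝ)) / 3 = lowE W E := by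
        rw [hcard]
        unfold lowE
        rw [if_neg (show ¬ W.P < W.pos (E 1) by omega)]
        push_cast
        ring
      rw [e, mul_assoc, mul_assoc]
      exact mul_le_mul_of_nonneg_right (le_max_right _ _) hX
  · -- the charge `+2` of the marks is above
    rw [IE_up (by omega) hqt]
    refine (low_core hLb hPh hS hm hn a hE hR hk hw hwn hmm hmR hRw hnK hnB hRn hK1 hb ht hy (p := 0) (by omega)
      (T := Fin.elim0) (fun i => i.elim0) (B := B4 W a' k E) (s := sE W a' k E)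
      (fun v hv hv' => ?_) ?_ (ε := ε) (C := C0) g0).trans ?_
    · exact B4_step hP hka hside hv'
    · have := B4_seam hP hka hnL0 h0 hside
      push_cast
      linarith
    · have e : (2 * ((0 : ℕ) : ℝ) - (Fintype.card (MkL W E) : ℝ)) / 3 = lowE W E := by
        rw [hcard]
        unfold lowE
        rw [if_pos hside]
        push_cast
        ring
      rw [e, mul_assoc, mul_assoc]
      exact mul_le_mul_of_nonneg_right (le_max_left _ _) hX

end Full.Norm
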