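import Pool.Agent.Full.Norm.UpBd
import Pool.Agent.Full.Norm.LowBd
import Pool.Agent.Full.Norm.GStat
import Pool.Agent.Full.X3.ThCap

/-!
# The norm bound of the rows of a shape

`upLaw`, `lbLow`, `phLow`: the labels and the law of the phases of the two caps of a slab; `normOk : NormOk`.
-/

set_option autoImplicit false

namespace Full.Norm
open Finset Function Full.X3

/-- the labels and the law of the phases of the upper cap -/
theorem upLaw : UpLaw := by
  intro D W a nL nU k E x y hR y' hb ht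
  have hW := hR.ok
  have hak := hR.hak
  have hk := hR.hk
  have hg := hR.good
  have h1 := hg.xl
  have h2 := hg.xr
  have h3 := hR.yb
  have h4 := hR.yt
  have hU : (D.l, D.t) ∉ D.U := hg.dead.up D.l (Or.inl ⟨le_rfl, by omega⟩)
  have hwl : ∀ x, (upCap D y' hb ht).Wl x ↔ D.IsW (Slab.eU x) := fun x => bd_upCap hb ht
  have hinj : Injective Slab.eU := fun x y h => by
    have e1 : x.1 = y.1 := Sum.inr.inj (congrArg Prod.fst h)
    have e2 : x.2 = y.2 := congrArg (fun z : Half ZT => z.2) h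
    exact Prod.ext e1 e2
  have hl := hW.ceilL 0 le_rfl (by omega)
  rw [add_zero, sub_zero] at hl
  have hr := hW.ceilR 0 le_rfl (by omega)
  rw [add_zero, sub_zero] at hr
  refine ⟨⟨by omega, fun x hx => ?_, fun x y hx hy h => ?_, fun p hp hp' => ?_, fun x hx hne => ?_, ?_,
    fun i hi hi' => ?_, fun i hi hi' => ?_⟩, fun C s hs => ?_⟩
  · have := hW.up _ _ ((hwl x).1 hx)
    show 0 ≤ W.pos (Slab.eU x) - W.P ∧ W.pos (Slab.eU x) - W.P < nU
    unfold Slab.eU
    omega
  · exact hinj (hW.inj _ _ ((hwl x).1 hx) ((hwl y).1 hy) (by omega))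
  · obtain ⟨t, d, h5, h6⟩ := Slab.exists_up hW (by omega) (u := W.P + p) (by omega) (by omega)
    refine ⟨(t, d), (hwl _).2 h5, ?_⟩
    show W.pos (.inr t, d) - W.P = p
    omega
  · have h5 := (hwl x).1 hx
    have h6 := next_upCap hU (by omega) hb ht h5 hne
    have h7 := Slab.next_isW_up hW (by omega) (by omega) (by omega) h5 hne
    rw [← h6.1] at h7
    refine ⟨(hwl _).2 h7.1, ?_⟩
    have h8 := h7.2.1
    show W.pos (hm Sum.inr (next (upCap D y' hb ht).g x)) - W.P = W.pos (hm Sum.inr x) - W.P + 1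
    omega
  · exact (Cap.next_seam ((hwl ((D.l, D.t - 1), .N)).2 hl.1).1 ((hwl ((D.r - 1, D.t - 1), .N)).2 hr.1).1).1
  · have h5 := hW.ceilR i hi hi'
    refine ⟨(hwl ((D.r - 1 - i, D.t - 1), .N)).2 h5.1, ?_⟩
    show W.pos (.inr (D.r - 1 - i, D.t - 1), .N) - W.P = i
    omega
  · have h5 := hW.ceilL i hi hi'
    refine ⟨(hwl ((D.l + i, D.t - 1), .N)).2 h5.1, ?_⟩
    show W.pos (.inr (D.l + i, D.t - 1), .N) - W.P = nU - 1 - i
    omega
  · refine phLaw_up hW hg.dead (by omega) (by omega) (by omega) hb ht (fun x _ hne => if_neg hne) ?_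
    rw [if_pos (show (((D.l, D.t - 1), .N) : Half (ℤ × ℤ)) = (upCap D y' hb ht).se from rfl)]
    omega

lemma eL_fl (w : Half (ℤ × ℤ)) : Slab.eL (flc w) = hm Sum.inl w := by
  show hm Sum.inl (flc (flc w)) = _
  rw [flc_flc]

/-- the labels of the reflected lower cap -/
theorem lbLow : LbLow := by
  intro D W a nL nU k E x y hR y' hb ht
  have hW := hR.ok
  have hak := hR.hak
  have hk := hR.hk
  have hg := hR.good
  have h1 := hg.xl
  have h2 := hg.xr
  have h3 := hR.yb
  have h4 := hR.yt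
  have hL : (D.r, D.b - 1) ∉ D.L := hg.dead.low D.r (Or.inr ⟨by omega, le_rfl⟩)
  have hwl : ∀ w, (lowCap D y' hb ht).Wl (flc w) ↔ D.IsW (hm Sum.inl w) := fun w => bd_lowCap hb ht
  have hwl' : ∀ x, (lowCap D y' hb ht).Wl x ↔ D.IsW (Slab.eL x) := fun x => by
    have := hwl (flc x)
    rw [flc_flc] at this
    exact this
  have hinj : Injective Slab.eL := fun x y h => by
    have e : hm (Sum.inl : ℤ × ℤ → ZT) (flc x) = hm Sum.inl (flc y) := h
    have e1 := hm_inj Sum.inl_injective e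
    rw [← flc_flc x, e1, flc_flc]
  have hl := hW.floorL 0 le_rfl (by omega)
  rw [add_zero] at hl
  have hr := hW.floorR 0 le_rfl (by omega)
  rw [sub_zero, sub_zero] at hr
  have efl : ∀ i : ℤ, flc ((i, D.b), .S) = ((i, -D.b - 1), .N) := fun i =>
    Prod.ext (Prod.ext rfl (by show -1 - D.b = -D.b - 1; ring)) rfl
  refine ⟨by omega, fun x hx => ?_, fun x y hx hy h => ?_, fun p hp hp' => ?_, fun x hx hne => ?_, ?_,
    fun i hi hi' => ?_, fun i hi hi' => ?_⟩
  · have := hW.low _ _ ((hwl' x).1 hx)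
    show 0 ≤ nL - 1 - W.pos (Slab.eL x) ∧ nL - 1 - W.pos (Slab.eL x) < nL
    unfold Slab.eL
    omega
  · exact hinj (hW.inj _ _ ((hwl' x).1 hx) ((hwl' y).1 hy) (by omega))
  · obtain ⟨t, d, h5, h6⟩ := Slab.exists_low hW (by omega) (u := nL - 1 - p) (by omega) (by omega)
    refine ⟨flc (t, d), (hwl _).2 h5, ?_⟩
    show nL - 1 - W.pos (Slab.eL (flc (t, d))) = p
    rw [eL_fl]
    show nL - 1 - W.pos (.inl t, d) = p
    omega
  · have h5 : D.IsW (hm Sum.inl (flc x)) := (hwl' x).1 hx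
    have hp := hW.low _ _ h5
    have hp0 : 0 < W.pos (hm Sum.inl (flc x)) := by
      refine lt_of_le_of_ne hp.1 fun h6 => hne ?_
      have h7 := hW.inj _ _ h5 hl.1 (by rw [hl.2.1]; exact h6.symm)
      have h8 : flc x = ((D.l, D.b), .S) := hm_inj Sum.inl_injective h7
      rw [← flc_flc x, h8, efl]
      rfl
    obtain ⟨t, d, h6, h7⟩ := Slab.exists_low hW (by omega) (u := W.pos (hm Sum.inl (flc x)) - 1) (by omega)
      (by have := hp.2; show W.pos (hm Sum.inl (flc x)) - 1 < nL; exact by unfold hm; omega)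
    have hne' : ((t, d) : Half (ℤ × ℤ)) ≠ ((D.r, D.b), .S) := by
      intro h8
      obtain ⟨rfl, rfl⟩ := Prod.mk.inj h8
      have := hr.2.1
      rw [this] at h7
      have h9 := hp.2
      unfold hm at h7
      omega
    have h8 := Slab.next_isW_low hW (by omega) (by omega) (by omega) (v := (t, d)) h6 hne'
    have h9 := (next_lowCap hL (by omega) hb ht (v := (t, d)) h6 hne').1
    have h10 : next (plane.glue (D.TL (D.b + 1))) (t, d) = flc x := by
      refine hm_inj Sum.inl_injective (hW.inj _ _ h8.1 h5 ?_)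
      have h11 := h8.2.1
      have h12 : W.pos (hm Sum.inl (t, d)) = W.pos (.inl t, d) := rfl
      omega
    rw [h10, flc_flc] at h9
    rw [h9]
    refine ⟨(hwl _).2 h6, ?_⟩
    show nL - 1 - W.pos (Slab.eL (flc (t, d))) = nL - 1 - W.pos (hm Sum.inl (flc x)) + 1
    rw [eL_fl]
    have h12 : W.pos (hm Sum.inl (t, d)) = W.pos (.inl t, d) := rfl
    omega
  · have e1 := (hwl ((D.l, D.b), .S)).2 hl.1
    have e2 := (hwl ((D.r, D.b), .S)).2 hr.1
    rw [efl] at e1 e2
    have h5 := (Cap.next_seam (E := lowCap D y' hb ht) e1.1 (by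
      show Bd _ _ ((D.r + 1 - 1, -D.b - 1), .N)
      rw [add_sub_cancel_right]
      exact e2.1)).1
    exact h5
  · have h5 := hW.floorR i hi hi'
    have e1 := (hwl ((D.r - i, D.b), .S)).2 h5.1
    have e2 : ((((lowCap D y' hb ht).r - 1 - i, (lowCap D y' hb ht).t - 1), Dir.N) : Half (ℤ × ℤ)) =
        flc ((D.r - i, D.b), .S) := by
      rw [efl]
      refine Prod.ext (Prod.ext ?_ rfl) rfl
      show D.r + 1 - 1 - i = D.r - i
      ring
    rw [e2]
    refine ⟨e1, ?_⟩
    show nL - 1 - W.pos (Slab.eL (flc ((D.r - i, D.b), .S))) = i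
    rw [eL_fl]
    show nL - 1 - W.pos (.inl (D.r - i, D.b), .S) = i
    omega
  · have h5 := hW.floorL i hi hi'
    have e1 := (hwl ((D.l + i, D.b), .S)).2 h5.1
    have e2 : ((((lowCap D y' hb ht).l + i, (lowCap D y' hb ht).t - 1), Dir.N) : Half (ℤ × ℤ)) =
        flc ((D.l + i, D.b), .S) := by
      rw [efl]
      rfl
    rw [e2]
    refine ⟨e1, ?_⟩
    show nL - 1 - W.pos (Slab.eL (flc ((D.l + i, D.b), .S))) = nL - 1 - i
    rw [eL_fl]
    show nL - 1 - W.pos (.inl (D.l + i, D.b), .S) = nL - 1 - i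
    omega

/-- the law of the phases of the reflected lower cap -/
theorem phLow : PhLow := by
  intro D W a nL nU k E x y hR y' hb ht C s hs
  have hW := hR.ok
  have hak := hR.hak
  have hk := hR.hk
  have hg := hR.good
  have h1 := hg.xl
  have h2 := hg.xr
  have h3 := hR.yb
  have h4 := hR.yt
  have efl : ∀ i : ℤ, flc ((i, D.b), .S) = ((i, -D.b - 1), .N) := fun i =>
    Prod.ext (Prod.ext rfl (by show -1 - D.b = -D.b - 1; ring)) rfl
  refine phLaw_low hW hg.dead (by omega) (by omega) (by omega) hb ht (fun w _ hne => ?_) ?_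
  · rw [if_neg, eL_fl]
    intro h5
    have h6 : flc w = flc ((D.l, D.b), .S) := by
      rw [efl]
      exact h5
    apply hne
    rw [← flc_flc w, h6, flc_flc]
  · rw [efl, if_pos (show (((D.l, -D.b - 1), .N) : Half (ℤ × ℤ)) = (lowCap D y' hb ht).se from rfl)]
    omega

/-- **N8** -/
theorem normOk : NormOk := normOk_of_bd (upBd capNorm upLaw) (lowBd_of capNorm lbLow phLow)

end Full.Norm
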