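import Pool.Agent.Full.Ket.WinProb
import Pool.Agent.Full.Corner.Orient

/-!
# One arm bounds in all orientations

`hwin d v m`: the half of the square of radius `m` around the corner `v` whose wall is in the direction
`d`; `hL d v`, `hR d v`: the wall ends before and after `v` (counterclockwise).  `hwinS d t m`, `hLS d t`,
`hRS d t`: the same for the wall side `(t, d)`, strictly before and after it.
`exists_mark`, `exists_side`: the probability that no strand of the window joins the two parts of the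
wall is at most `C m ^ (-1/3)`.
-/

set_option autoImplicit false
set_option linter.unusedSectionVars false

namespace Full.Norm
open Function Relation Finset Full Full.Corner
open Full.Perc (Ex Ex_mono Ex_congr Ex_nonneg)
open Pool.Agent.Helper69.RSW (P)
open Full.Ket (hbox hboxS CovG CovGS floor_fix exists_P_bound)

/-- the half plane with the wall in the direction `d` -/
def HPl (d : Dir) (v t : ℤ × ℤ) : Prop :=
  match d with
  | .S => v.2 ≤ t.2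
  | .N => t.2 < v.2
  | .W => v.1 ≤ t.1
  | .E => t.1 < v.1

open scoped Classical in
/-- the half window of a corner of the wall -/
noncomputable def hwin (d : Dir) (v : ℤ × ℤ) (m : ℕ) : Finset (ℤ × ℤ) :=
  (bwin v m).filter fun t => HPl d v t

lemma mem_hwin {d : Dir} {v : ℤ × ℤ} {m : ℕ} {t : ℤ × ℤ} :
    t ∈ hwin d v m ↔ t ∈ bwin v m ∧ HPl d v t := by
  unfold hwin
  simp only [mem_filter]

/-- the wall ends before the corner `v` -/
def hL (d : Dir) (v : ℤ × ℤ) : Set (Half (ℤ × ℤ)) :=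
  {x | x.2 = d ∧ match d with
    | .S => x.1.1 < v.1
    | .N => v.1 ≤ x.1.1
    | .W => v.2 ≤ x.1.2
    | .E => x.1.2 < v.2}

/-- the wall ends after the corner `v` -/
def hR (d : Dir) (v : ℤ × ℤ) : Set (Half (ℤ × ℤ)) :=
  {x | x.2 = d ∧ match d with
    | .S => v.1 ≤ x.1.1
    | .N => x.1.1 < v.1
    | .W => x.1.2 < v.2
    | .E => v.2 ≤ x.1.2}

/-- the half window of a side of the wall -/
noncomputable def hwinS (d : Dir) (t₀ : ℤ × ℤ) (m : ℕ) : Finset (ℤ × ℤ) :=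
  match d with
  | .S => Finset.Ico (t₀.1 - m) (t₀.1 + 1 + m) ×ˢ Finset.Ico t₀.2 (t₀.2 + m)
  | .N => Finset.Ico (t₀.1 - m) (t₀.1 + 1 + m) ×ˢ Finset.Ico (t₀.2 + 1 - m) (t₀.2 + 1)
  | .W => Finset.Ico t₀.1 (t₀.1 + m) ×ˢ Finset.Ico (t₀.2 - m) (t₀.2 + 1 + m)
  | .E => Finset.Ico (t₀.1 + 1 - m) (t₀.1 + 1) ×ˢ Finset.Ico (t₀.2 - m) (t₀.2 + 1 + m)

lemma mem_hwinS {d : Dir} {t₀ : ℤ × ℤ} {m : ℕ} {t : ℤ × ℤ} : t ∈ hwinS d t₀ m ↔
    match d with
    | .S => (t₀.1 - m ≤ t.1 ∧ t.1 < t₀.1 + 1 + m) ∧ t₀.2 ≤ t.2 ∧ t.2 < t₀.2 + m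
    | .N => (t₀.1 - m ≤ t.1 ∧ t.1 < t₀.1 + 1 + m) ∧ t₀.2 + 1 - m ≤ t.2 ∧ t.2 < t₀.2 + 1
    | .W => (t₀.1 ≤ t.1 ∧ t.1 < t₀.1 + m) ∧ t₀.2 - m ≤ t.2 ∧ t.2 < t₀.2 + 1 + m
    | .E => (t₀.1 + 1 - m ≤ t.1 ∧ t.1 < t₀.1 + 1) ∧ t₀.2 - m ≤ t.2 ∧ t.2 < t₀.2 + 1 + m := by
  cases d <;> simp only [hwinS, mem_product, mem_Ico]

/-- the wall ends strictly before the side `(t₀, d)` -/
def hLS (d : Dir) (t₀ : ℤ × ℤ) : Set (Half (ℤ × ℤ)) :=
  {x | x.2 = d ∧ match d with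
    | .S => x.1.1 < t₀.1
    | .N => t₀.1 < x.1.1
    | .W => t₀.2 < x.1.2
    | .E => x.1.2 < t₀.2}

/-- the wall ends strictly after the side `(t₀, d)` -/
def hRS (d : Dir) (t₀ : ℤ × ℤ) : Set (Half (ℤ × ℤ)) :=
  {x | x.2 = d ∧ match d with
    | .S => t₀.1 < x.1.1
    | .N => x.1.1 < t₀.1
    | .W => x.1.2 < t₀.2
    | .E => t₀.2 < x.1.2}

/-! ### isometries -/

/-- the reflection at the other diagonal, and translation -/
def antitransp (a b : ℤ) : PIso where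
  φ := fun t => (a - t.2, b - t.1)
  σ := fun d => match d with | .E => .S | .S => .E | .W => .N | .N => .W
  fl := false
  inj := fun t t' h => by
    simp only [Prod.mk.injEq, sub_right_inj] at h
    exact Prod.ext h.2 h.1
  sinj := fun d d' h => by revert h; cases d <;> cases d' <;> simp
  opp := fun d => by cases d <;> rfl
  mt := fun b d => by cases b <;> cases d <;> rfl
  vec := fun t d => by
    cases d <;> simp only [Dir.vec, Prod.fst_add, Prod.snd_add] <;> ext <;> simp <;> ring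

/-- the isometry which maps the floor window at the origin to the window with the wall `d` -/
def isoH (d : Dir) (v : ℤ × ℤ) : PIso :=
  match d with
  | .S => Corner.trans v.1 v.2
  | .N => reflXY (v.1 - 1) (v.2 - 1)
  | .W => transp v.1 v.2
  | .E => antitransp (v.1 - 1) (v.2 - 1)

lemma hwin_eq (d : Dir) (v : ℤ × ℤ) (m : ℕ) : hwin d v m = (hwin .S (0, 0) m).image (isoH d v).φ := by
  ext ⟨i, j⟩
  rw [mem_hwin, mem_bwin, mem_image]
  cases d <;> simp only [isoH, Corner.trans, transp, antitransp, reflXY, mem_hwin, mem_bwin, HPl]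
  · constructor
    · intro h
      exact ⟨(v.2 - 1 - j, v.1 - 1 - i), by simp only at h ⊢; omega, by simp⟩
    · rintro ⟨⟨a, b⟩, h1, h2⟩
      simp only [Prod.mk.injEq] at h1 h2 ⊢
      omega
  · constructor
    · intro h
      exact ⟨(v.1 - 1 - i, v.2 - 1 - j), by simp only at h ⊢; omega, by simp⟩
    · rintro ⟨⟨a, b⟩, h1, h2⟩
      simp only [Prod.mk.injEq] at h1 h2 ⊢
      omega
  · constructor
    · intro h
      exact ⟨(j - v.2, i - v.1), by simp only at h ⊢; omega, by simp⟩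
    · rintro ⟨⟨a, b⟩, h1, h2⟩
      simp only [Prod.mk.injEq] at h1 h2 ⊢
      omega
  · constructor
    · intro h
      exact ⟨(i - v.1, j - v.2), by simp only at h ⊢; omega, by simp⟩
    · rintro ⟨⟨a, b⟩, h1, h2⟩
      simp only [Prod.mk.injEq] at h1 h2 ⊢
      omega

/-- the two parts of the wall, up to the order -/
lemma Ex_hwin (d : Dir) (v : ℤ × ℤ) (m : ℕ) (F : ℕ → ℝ) :
    Ex (hwin d v m) (fun ω => F (pc (hwin d v m) ω (hL d v) (hR d v))) =
      Ex (hwin .S (0, 0) m) (fun ω => F (pc (hwin .S (0, 0) m) ω (hL .S (0, 0)) (hR .S (0, 0)))) := by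
  have hs : ∀ (W ω : Finset (ℤ × ℤ)) (A B : Set (Half (ℤ × ℤ))), pc W ω A B = pc W ω B A :=
    fun W ω A B => cnt_symm (plane.glu W) ω A B
  cases d
  · simp only [hs (hwin .E v m) _ (hL .E v)]
    rw [hwin_eq .E]
    refine Ex_pc (isoH .E v) _ ?_ ?_ F <;> rintro ⟨⟨i, j⟩, d⟩ - <;>
      cases d <;> simp [isoH, antitransp, hL, hR] <;> omega
  · rw [hwin_eq .N]
    refine Ex_pc (isoH .N v) _ ?_ ?_ F <;> rintro ⟨⟨i, j⟩, d⟩ - <;>
      cases d <;> simp [isoH, reflXY, hL, hR, Dir.opp] <;> omega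
  · simp only [hs (hwin .W v m) _ (hL .W v)]
    rw [hwin_eq .W]
    refine Ex_pc (isoH .W v) _ ?_ ?_ F <;> rintro ⟨⟨i, j⟩, d⟩ - <;>
      cases d <;> simp [isoH, transp, hL, hR]
  · rw [hwin_eq .S v]
    refine Ex_pc (isoH .S v) _ ?_ ?_ F <;> rintro ⟨⟨i, j⟩, d⟩ - <;>
      cases d <;> simp [isoH, Corner.trans, hL, hR]

/-- the isometry which maps the floor window of the side `((0, 0), S)` to the window of `(t₀, d)` -/
def isoS (d : Dir) (t₀ : ℤ × ℤ) : PIso :=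
  match d with
  | .S => Corner.trans t₀.1 t₀.2
  | .N => reflXY t₀.1 t₀.2
  | .W => transp t₀.1 t₀.2
  | .E => antitransp t₀.1 t₀.2

lemma hwinS_eq (d : Dir) (t₀ : ℤ × ℤ) (m : ℕ) :
    hwinS d t₀ m = (hwinS .S (0, 0) m).image (isoS d t₀).φ := by
  ext ⟨i, j⟩
  rw [mem_hwinS, mem_image]
  cases d <;> simp only [isoS, Corner.trans, transp, antitransp, reflXY, mem_hwinS]
  · constructor
    · intro h
      exact ⟨(t₀.2 - j, t₀.1 - i), by simp only at h ⊢; omega, by simp⟩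
    · rintro ⟨⟨a, b⟩, h1, h2⟩
      simp only [Prod.mk.injEq] at h1 h2 ⊢
      omega
  · constructor
    · intro h
      exact ⟨(t₀.1 - i, t₀.2 - j), by simp only at h ⊢; omega, by simp⟩
    · rintro ⟨⟨a, b⟩, h1, h2⟩
      simp only [Prod.mk.injEq] at h1 h2 ⊢
      omega
  · constructor
    · intro h
      exact ⟨(j - t₀.2, i - t₀.1), by simp only at h ⊢; omega, by simp⟩
    · rintro ⟨⟨a, b⟩, h1, h2⟩
      simp only [Prod.mk.injEq] at h1 h2 ⊢
      omega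
  · constructor
    · intro h
      exact ⟨(i - t₀.1, j - t₀.2), by simp only at h ⊢; omega, by simp⟩
    · rintro ⟨⟨a, b⟩, h1, h2⟩
      simp only [Prod.mk.injEq] at h1 h2 ⊢
      omega

lemma Ex_hwinS (d : Dir) (t₀ : ℤ × ℤ) (m : ℕ) (F : ℕ → ℝ) :
    Ex (hwinS d t₀ m) (fun ω => F (pc (hwinS d t₀ m) ω (hLS d t₀) (hRS d t₀))) =
      Ex (hwinS .S (0, 0) m)
        (fun ω => F (pc (hwinS .S (0, 0) m) ω (hLS .S (0, 0)) (hRS .S (0, 0)))) := by
  have hs : ∀ (W ω : Finset (ℤ × ℤ)) (A B : Set (Half (ℤ × ℤ))), pc W ω A B = pc W ω B A :=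
    fun W ω A B => cnt_symm (plane.glu W) ω A B
  cases d
  · simp only [hs (hwinS .E t₀ m) _ (hLS .E t₀)]
    rw [hwinS_eq .E]
    refine Ex_pc (isoS .E t₀) _ ?_ ?_ F <;> rintro ⟨⟨i, j⟩, d⟩ - <;>
      cases d <;> simp [isoS, antitransp, hLS, hRS] <;> omega
  · rw [hwinS_eq .N]
    refine Ex_pc (isoS .N t₀) _ ?_ ?_ F <;> rintro ⟨⟨i, j⟩, d⟩ - <;>
      cases d <;> simp [isoS, reflXY, hLS, hRS, Dir.opp] <;> omega
  · simp only [hs (hwinS .W t₀ m) _ (hLS .W t₀)]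
    rw [hwinS_eq .W]
    refine Ex_pc (isoS .W t₀) _ ?_ ?_ F <;> rintro ⟨⟨i, j⟩, d⟩ - <;>
      cases d <;> simp [isoS, transp, hLS, hRS]
  · rw [hwinS_eq .S t₀]
    refine Ex_pc (isoS .S t₀) _ ?_ ?_ F <;> rintro ⟨⟨i, j⟩, d⟩ - <;>
      cases d <;> simp [isoS, Corner.trans, hLS, hRS]

/-! ### the one arm bounds -/

lemma hwin_S (m : ℕ) : hwin .S (0, 0) m = hbox 0 0 m := by
  ext ⟨i, j⟩
  rw [mem_hwin, mem_bwin]
  unfold hbox HPl
  rw [Full.Walk.mem_winF]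
  simp only
  omega

lemma hwinS_S (m : ℕ) : hwinS .S (0, 0) m = hboxS 0 0 m := by
  ext ⟨i, j⟩
  rw [mem_hwinS]
  unfold hboxS
  rw [Full.Walk.mem_winF]
  simp only
  omega

/-- the base case, corners -/
lemma base_mark (m : ℕ) (ω : Finset (ℤ × ℤ)) :
    pc (hwin .S (0, 0) m) ω (hL .S (0, 0)) (hR .S (0, 0)) = 0 → ¬ CovG 0 0 m ω := by
  classical
  rintro h ⟨x, x', h1, h2, h3, h4, h5⟩
  unfold pc cnt at h
  rw [card_eq_zero] at h
  have h6 : ((x, 0), Dir.S) ∈ (bdF (hwin .S (0, 0) m) (plane.glue (hwin .S (0, 0) m))).filter fun x =>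
      x ∈ hL .S (0, 0) ∧ other (mate ω) (plane.glue (hwin .S (0, 0) m)) x ∈ hR .S (0, 0) := by
    rw [mem_filter, mem_bdF]
    refine ⟨⟨?_, ?_⟩, ⟨rfl, h2⟩, ?_⟩
    · rw [hwin_S]
      unfold hbox
      rw [Full.Walk.mem_winF]
      simp only
      omega
    · rw [hwin_S]
      exact floor_fix
    · rw [hwin_S, h5]
      exact ⟨rfl, h3⟩
  have h7 := Finset.ext_iff.1 h ((x, 0), Dir.S)
  exact absurd (h7.1 h6) (notMem_empty _)

/-- the base case, sides -/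
lemma base_side (m : ℕ) (ω : Finset (ℤ × ℤ)) :
    pc (hwinS .S (0, 0) m) ω (hLS .S (0, 0)) (hRS .S (0, 0)) = 0 → ¬ CovGS 0 0 m ω := by
  classical
  rintro h ⟨x, x', h1, h2, h3, h4, h5⟩
  unfold pc cnt at h
  rw [card_eq_zero] at h
  have h6 : ((x, 0), Dir.S) ∈ (bdF (hwinS .S (0, 0) m) (plane.glue (hwinS .S (0, 0) m))).filter fun x =>
      x ∈ hLS .S (0, 0) ∧ other (mate ω) (plane.glue (hwinS .S (0, 0) m)) x ∈ hRS .S (0, 0) := by
    rw [mem_filter, mem_bdF]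
    refine ⟨⟨?_, ?_⟩, ⟨rfl, h2⟩, ?_⟩
    · rw [hwinS_S]
      unfold hboxS
      rw [Full.Walk.mem_winF]
      simp only
      omega
    · rw [hwinS_S]
      exact floor_fix
    · rw [hwinS_S, h5]
      exact ⟨rfl, h3⟩
  have h7 := Finset.ext_iff.1 h ((x, 0), Dir.S)
  exact absurd (h7.1 h6) (notMem_empty _)

/-- the event in the form of an average -/
lemma P_eq_Ex_zero {W : Finset (ℤ × ℤ)} {A B : Set (Half (ℤ × ℤ))} :
    P W (fun ω => pc W ω A B = 0) = Ex W (fun ω => (0 : ℝ) ^ pc W ω A B) := by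
  rw [← Full.Perc.Ex_ite]
  apply Ex_congr
  intro S _
  rw [zero_pow_eq]
  congr

/-- **a mark of the wall is uncovered**, all orientations -/
theorem exists_mark : ∃ C : ℝ, 1 ≤ C ∧ ∀ (d : Dir) (v : ℤ × ℤ) (m : ℕ), 1 ≤ m →
    Ex (hwin d v m) (fun ω => (0 : ℝ) ^ pc (hwin d v m) ω (hL d v) (hR d v)) ≤
      C * (m : ℝ) ^ (-(1 / 3) : ℝ) := by
  obtain ⟨C, h1, h2, -⟩ := exists_P_bound
  refine ⟨C, h1, fun d v m hm => ?_⟩
  rw [Ex_hwin d v m (fun n => (0 : ℝ) ^ n), ← P_eq_Ex_zero]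
  refine le_trans ?_ (h2 0 0 m hm)
  rw [hwin_S] at *
  refine Pool.Agent.Helper69.RSW.P_mono fun ω _ h => ?_
  apply base_mark
  rw [hwin_S]
  exact h

/-- **a side of the wall is uncovered**, all orientations -/
theorem exists_side : ∃ C : ℝ, 1 ≤ C ∧ ∀ (d : Dir) (t₀ : ℤ × ℤ) (m : ℕ), 1 ≤ m →
    Ex (hwinS d t₀ m) (fun ω => (0 : ℝ) ^ pc (hwinS d t₀ m) ω (hLS d t₀) (hRS d t₀)) ≤
      C * (m : ℝ) ^ (-(1 / 3) : ℝ) := by
  obtain ⟨C, h1, -, h2⟩ := exists_P_bound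
  refine ⟨C, h1, fun d v m hm => ?_⟩
  rw [Ex_hwinS d v m (fun n => (0 : ℝ) ^ n), ← P_eq_Ex_zero]
  refine le_trans ?_ (h2 0 0 m hm)
  rw [hwinS_S] at *
  refine Pool.Agent.Helper69.RSW.P_mono fun ω _ h => ?_
  apply base_side
  rw [hwinS_S]
  exact h

/-- the factor of a bigger window whose wall contains the wall of the window -/
theorem Ex_zero_sub {W A : Finset (ℤ × ℤ)} {L R : Set (Half (ℤ × ℤ))} (hWA : W ⊆ A)
    (hL : ∀ x, x.1 ∈ W → x ∈ L → x.1 + x.2.vec ∉ W → x.1 + x.2.vec ∉ A)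
    (hR : ∀ x, x.1 ∈ W → x ∈ R → x.1 + x.2.vec ∉ W → x.1 + x.2.vec ∉ A) :
    Ex A (fun ω => (0 : ℝ) ^ pc A ω L R) ≤ Ex W (fun ω => (0 : ℝ) ^ pc W ω L R) := by
  rw [← Ex_local hWA (f := fun ω => (0 : ℝ) ^ pc W ω L R) (fun S => by rw [pc_inter])]
  apply Ex_mono
  intro S _
  have h := pc_lower hWA hL hR S
  rcases Nat.eq_zero_or_pos (pc W S L R) with h0 | h0
  · rw [h0, pow_zero]
    rcases Nat.eq_zero_or_pos (pc A S L R) with h1 | h1
    · rw [h1, pow_zero]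
    · rw [zero_pow (by omega)]
      norm_num
  · rw [zero_pow (by omega : pc A S L R ≠ 0), zero_pow (by omega)]

end Full.Norm
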