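import Pool.Agent.Full.Norm.Arm
import Pool.Agent.Full.Norm.QShape

/-!
# One arm bounds in the windows of quadrant type

The wall of `QW v Q w` near a real half edge `x` which is not close to the vertex of a corner is flat
(`flat_near`): the windows `hwin`, `hwinS` at the tail of `x`, resp. at `x`, are contained in `QW v Q w`, and their
wall sides are real.  The bounds of `Arm.lean` with the labels `ps`.
-/

set_option autoImplicit false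

namespace Full.Norm
open Finset Function Full.Corner Full.Mom Full.Walk
open Full.Perc (Ex Ex_congr Ex_nonneg Ex_mono)

/-- the tail of a half edge (the region is on the left) -/
def tl (x : Half (ℤ × ℤ)) : ℤ × ℤ :=
  match x.2 with
  | .E => (x.1.1 + 1, x.1.2)
  | .N => (x.1.1 + 1, x.1.2 + 1)
  | .W => (x.1.1, x.1.2 + 1)
  | .S => x.1

/-- more wall sides, more strands -/
lemma pc_mono {T ω : Finset (ℤ × ℤ)} {A B A' B' : Set (Half (ℤ × ℤ))}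
    (hA : ∀ x, Bd T (plane.glue T) x → x ∈ A → x ∈ A')
    (hB : ∀ x, Bd T (plane.glue T) x → x ∈ B → x ∈ B') : pc T ω A B ≤ pc T ω A' B' := by
  classical
  unfold pc cnt
  refine card_le_card fun x hx => ?_
  rw [mem_filter] at hx ⊢
  have h1 : Bd T (plane.glue T) x := mem_bdF.1 hx.1
  exact ⟨hx.1, hA x h1 hx.2.1, hB _ ((plane.glu T).other_bd h1) hx.2.2⟩

/-! ### local factors -/

/-- local factors on the window `W`; `u` is an upper bound of the mean -/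
def LocE (B u : ℝ) (W : Finset (ℤ × ℤ)) (X : Finset (ℤ × ℤ) → ℝ) : Prop :=
  ((∀ S, 1 ≤ X S) ∧ Ex W (fun S => X S ^ (2 : ℝ)) ≤ B ∧ Ex W X ≤ u) ∨
    ((∀ S, 0 ≤ X S ∧ X S ≤ 1) ∧ Ex W X ≤ u ∧ 1 ≤ B * u)

/-- a local factor of a window of a surface -/
theorem LocE.pull {B u : ℝ} {W : Finset (ℤ × ℤ)} {X : Finset (ℤ × ℤ) → ℝ} (h : LocE B u W X)
    {τ : Type*} [DecidableEq τ] {T : Finset τ} {φ : ℤ × ℤ → τ} (hmem : ∀ t ∈ W, φ t ∈ T)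
    (hinj : Set.InjOn φ W) (σ : Bool) :
    LocUp B u (fun ω : T → Bool => X (pull W φ σ (ofBits T ω))) := by
  rcases h with ⟨h1, h2, h3⟩ | ⟨h1, h2, h3⟩
  · refine Or.inl ⟨fun ω => h1 _, ?_, ?_⟩
    · rw [avg_pull hmem hinj σ (fun S => X S ^ (2 : ℝ))]
      exact h2
    · rw [avg_pull hmem hinj σ X]
      exact h3
  · refine Or.inr ⟨fun ω => h1 _, ?_, h3⟩
    rw [avg_pull hmem hinj σ X]
    exact h2

lemma LocE.mono {B u B' u' : ℝ} {W : Finset (ℤ × ℤ)} {X : Finset (ℤ × ℤ) → ℝ} (h : LocE B u W X)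
    (hB : B ≤ B') (hB0 : 0 ≤ B) (hu : u ≤ u') : LocE B' u' W X := by
  rcases h with ⟨h1, h2, h3⟩ | ⟨h1, h2, h3⟩
  · exact Or.inl ⟨h1, h2.trans hB, h3.trans hu⟩
  · have hu0 : 0 ≤ u := le_trans (Ex_nonneg fun S _ => (h1 S).1) h2
    refine Or.inr ⟨h1, h2.trans hu, h3.trans ?_⟩
    exact mul_le_mul hB hu hu0 (hB0.trans hB)

/-- a factor `0 ^ K` with a one arm bound -/
lemma locE_zero {B C : ℝ} (hC : 1 ≤ C) {m : ℕ} (hm : 1 ≤ m) (hB : (m : ℝ) ≤ B)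
    {W : Finset (ℤ × ℤ)} {K : Finset (ℤ × ℤ) → ℕ}
    (h : Ex W (fun ω => (0 : ℝ) ^ K ω) ≤ C * (m : ℝ) ^ (-(1 / 3) : ℝ)) :
    LocE B (C * (m : ℝ) ^ (-(1 / 3) : ℝ)) W (fun ω => (0 : ℝ) ^ K ω) := by
  have hm1 : (1 : ℝ) ≤ m := by exact_mod_cast hm
  have hm0 : (0 : ℝ) < m := by linarith
  refine Or.inr ⟨fun ω => ?_, h, ?_⟩
  · show (0 : ℝ) ≤ 0 ^ K ω ∧ (0 : ℝ) ^ K ω ≤ 1
    rw [zero_pow_eq]
    split_ifs <;> norm_num
  · have e1 : (m : ℝ) * (m : ℝ) ^ (-(1 / 3) : ℝ) = (m : ℝ) ^ ((2 : ℝ) / 3) := by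
      nth_rewrite 1 [← Real.rpow_one (m : ℝ)]
      rw [← Real.rpow_add hm0]
      norm_num
    have e2 : (1 : ℝ) ≤ (m : ℝ) ^ ((2 : ℝ) / 3) := Real.one_le_rpow hm1 (by norm_num)
    have e3 : 0 < (m : ℝ) ^ (-(1 / 3) : ℝ) := by positivity
    calc (1 : ℝ) ≤ (m : ℝ) * (m : ℝ) ^ (-(1 / 3) : ℝ) := by rw [e1]; exact e2
      _ ≤ B * (C * (m : ℝ) ^ (-(1 / 3) : ℝ)) := by
          refine mul_le_mul hB ?_ e3.le (hm0.le.trans hB)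
          exact le_mul_of_one_le_left e3.le hC

/-- the factors of marks and of uncovered sides are local factors -/
theorem exists_arm_loc : ∃ C : ℝ, 1 ≤ C ∧ ∀ (B : ℝ) (m : ℕ), 1 ≤ m → (m : ℝ) ≤ B →
    (∀ (d : Dir) (v : ℤ × ℤ), LocE B (C * (m : ℝ) ^ (-(1 / 3) : ℝ)) (hwin d v m)
      (fun ω => (0 : ℝ) ^ pc (hwin d v m) ω (hL d v) (hR d v))) ∧
    (∀ (d : Dir) (t : ℤ × ℤ), LocE B (C * (m : ℝ) ^ (-(1 / 3) : ℝ)) (hwinS d t m)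
      (fun ω => (0 : ℝ) ^ pc (hwinS d t m) ω (hLS d t) (hRS d t))) := by
  obtain ⟨C, hC, h1⟩ := exists_mark
  obtain ⟨C', hC', h2⟩ := exists_side
  refine ⟨max C C', le_max_of_le_left hC, fun B m hm hB => ⟨fun d v => ?_, fun d t => ?_⟩⟩
  · refine locE_zero (le_max_of_le_left hC) hm hB ((h1 d v m hm).trans ?_)
    exact mul_le_mul_of_nonneg_right (le_max_left _ _) (by positivity)
  · refine locE_zero (le_max_of_le_left hC) hm hB ((h2 d t m hm).trans ?_)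
    exact mul_le_mul_of_nonneg_right (le_max_right _ _) (by positivity)

/-! ### the flat wall near a real half edge -/

lemma zero_pow_anti {k l : ℕ} (h : k ≤ l) : (0 : ℝ) ^ l ≤ 0 ^ k := by
  rw [zero_pow_eq, zero_pow_eq]
  by_cases hl : l = 0
  · rw [if_pos hl, if_pos (by omega)]
  · rw [if_neg hl]
    split_ifs <;> norm_num

/-- the wall is flat near a real half edge which is not close to a corner -/
theorem flat_near {v : ℤ × ℤ} {Q : Bool → Bool → Bool} {w : ℕ} (hQ : QAdm Q) {x : Half (ℤ × ℤ)}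
    (hx : Real v Q w x) {r s : ℤ} (hr : 0 ≤ r) (hs : 0 ≤ s) (h : nq Q = 2 ∨ r ≤ ps v x ∨ ps v x ≤ -1 - s) {t : ℤ × ℤ}
    (h1 : match x.2 with
      | .S => x.1.1 - r ≤ t.1 ∧ t.1 ≤ x.1.1 + s
      | .N => x.1.1 - s ≤ t.1 ∧ t.1 ≤ x.1.1 + r
      | .W => x.1.2 - s ≤ t.2 ∧ t.2 ≤ x.1.2 + r
      | .E => x.1.2 - r ≤ t.2 ∧ t.2 ≤ x.1.2 + s) :
    QSet v Q t ↔ HPl x.2 (tl x) t := by
  obtain ⟨⟨i, j⟩, d⟩ := x
  obtain ⟨v1, v2⟩ := v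
  obtain ⟨t1, t2⟩ := t
  have hA := hQ true true
  have hB := hQ true false
  unfold Real at hx
  unfold nq at h
  simp only [mem_QW, mem_sqr, QSet_iff, Bool.not_true, Bool.not_false] at hx hA hB ⊢
  clear hQ
  generalize Q true true = a1 at *
  generalize Q true false = a2 at *
  generalize Q false true = a3 at *
  generalize Q false false = a4 at *
  cases a1 <;> cases a2 <;> cases a3 <;> cases a4 <;>
    simp only [Bool.false_eq_true, and_false, and_true, or_false, false_or, not_false_eq_true,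
      false_and, if_true, if_false, forall_true_left, or_self] at hx hA hB h ⊢
  all_goals
    cases d <;> simp only [Dir.vec, Prod.mk_add_mk, ps, HPl, tl] at hx h h1 ⊢ <;> omega

/-- **the flat window at the tail of a real half edge** -/
theorem hwin_flat {v : ℤ × ℤ} {Q : Bool → Bool → Bool} {w : ℕ} (hQ : QAdm Q) {x : Half (ℤ × ℤ)}
    (hx : Real v Q w x) {m : ℕ} (hm : 1 ≤ m) (h : nq Q = 2 ∨ (m : ℤ) ≤ ps v x ∨ ps v x ≤ -(m : ℤ))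
    {t : ℤ × ℤ} (ht : t ∈ bwin (tl x) m) : QSet v Q t ↔ HPl x.2 (tl x) t := by
  refine flat_near hQ hx (r := m) (s := m - 1) (by omega) (by omega) (by omega) ?_
  rw [mem_bwin] at ht
  obtain ⟨⟨i, j⟩, d⟩ := x
  cases d <;> simp only [tl] at ht ⊢ <;> omega

/-- the tiles of `QW` near the tail of a real half edge -/
theorem hwin_filter {v : ℤ × ℤ} {Q : Bool → Bool → Bool} {w : ℕ} (hQ : QAdm Q)
    {x : Half (ℤ × ℤ)} (hx : Real v Q w x) {m : ℕ} (hm : 1 ≤ m)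
    (h : nq Q = 2 ∨ (m : ℤ) ≤ ps v x ∨ ps v x ≤ -(m : ℤ)) (hb : bwin (tl x) m ⊆ sqr w) :
    hwin x.2 (tl x) m = (QW v Q w).filter fun t => t ∈ bwin (tl x) m := by
  ext t
  rw [mem_hwin, mem_filter, mem_QW]
  constructor
  · rintro ⟨h1, h2⟩
    exact ⟨⟨hb h1, (hwin_flat hQ hx hm h h1).2 h2⟩, h1⟩
  · rintro ⟨⟨-, h2⟩, h1⟩
    exact ⟨h1, (hwin_flat hQ hx hm h h1).1 h2⟩

/-- the wall sides of the window are real -/
theorem hwin_real {v : ℤ × ℤ} {Q : Bool → Bool → Bool} {w : ℕ} (hQ : QAdm Q)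
    {x : Half (ℤ × ℤ)} (hx : Real v Q w x) {m : ℕ} (hm : 1 ≤ m)
    (h : nq Q = 2 ∨ (m : ℤ) ≤ ps v x ∨ ps v x ≤ -(m : ℤ)) (hb : bwin (tl x) m ⊆ sqr w)
    {y : Half (ℤ × ℤ)} (hy : Bd (hwin x.2 (tl x) m) (plane.glue (hwin x.2 (tl x) m)) y)
    (hd : y.2 = x.2) : Real v Q w y := by
  rw [Corner.bd_plane, mem_hwin, mem_hwin] at hy
  obtain ⟨⟨h1, h2⟩, h3⟩ := hy
  have h4 : y.1 + y.2.vec ∈ bwin (tl x) m := by
    rw [hd] at h3 ⊢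
    rw [mem_bwin] at h1 h3 ⊢
    obtain ⟨⟨i, j⟩, d⟩ := x
    obtain ⟨⟨i', j'⟩, d'⟩ := y
    cases d <;> simp only [HPl, Dir.vec, Prod.mk_add_mk] at h1 h2 h3 ⊢ <;> omega
  refine ⟨mem_QW.2 ⟨hb h1, (hwin_flat hQ hx hm h h1).2 h2⟩, hb h4, fun h5 => h3 ⟨h4, ?_⟩⟩
  exact (hwin_flat hQ hx hm h h4).1 h5

/-- the sides before and after the tail of `x` -/
theorem hwin_ps {v : ℤ × ℤ} {x y : Half (ℤ × ℤ)} (hd : y.2 = x.2) :
    (y ∈ hL x.2 (tl x) ↔ ps v y < ps v x) ∧ (y ∈ hR x.2 (tl x) ↔ ps v x ≤ ps v y) := by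
  obtain ⟨⟨i, j⟩, d⟩ := x
  obtain ⟨⟨i', j'⟩, d'⟩ := y
  simp only at hd
  subst hd
  cases d' <;> simp only [hL, hR, tl, ps, Set.mem_ofPred_eq, true_and] <;> omega

/-- **the flat window of a real half edge** -/
theorem hwinS_flat {v : ℤ × ℤ} {Q : Bool → Bool → Bool} {w : ℕ} (hQ : QAdm Q) {x : Half (ℤ × ℤ)}
    (hx : Real v Q w x) {m : ℕ} (h : nq Q = 2 ∨ (m : ℤ) ≤ ps v x ∨ ps v x ≤ -1 - (m : ℤ))
    {t : ℤ × ℤ} (h1 : |t.1 - x.1.1| ≤ m) (h2 : |t.2 - x.1.2| ≤ m) :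
    QSet v Q t ↔ HPl x.2 (tl x) t := by
  refine flat_near hQ hx (r := m) (s := m) (by omega) (by omega) (by omega) ?_
  rw [abs_le] at h1 h2
  obtain ⟨⟨i, j⟩, d⟩ := x
  cases d <;> simp only at h1 h2 ⊢ <;> omega

lemma mem_hwinS' {d : Dir} {t₀ : ℤ × ℤ} {m : ℕ} {t : ℤ × ℤ} : t ∈ hwinS d t₀ m ↔
    (|t.1 - t₀.1| ≤ m ∧ |t.2 - t₀.2| ≤ m) ∧ HPl d (tl (t₀, d)) t ∧
      (match d with
        | .S => t.2 < t₀.2 + m
        | .N => t₀.2 - m < t.2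
        | .W => t.1 < t₀.1 + m
        | .E => t₀.1 - m < t.1) := by
  rw [abs_le, abs_le]
  cases d <;> simp only [hwinS, mem_product, mem_Ico, HPl, tl] <;> omega

/-- the window is contained in `QW` -/
theorem hwinS_sub {v : ℤ × ℤ} {Q : Bool → Bool → Bool} {w : ℕ} (hQ : QAdm Q)
    {x : Half (ℤ × ℤ)} (hx : Real v Q w x) {m : ℕ}
    (h : nq Q = 2 ∨ (m : ℤ) ≤ ps v x ∨ ps v x ≤ -1 - (m : ℤ))
    (hb : ∀ t : ℤ × ℤ, |t.1 - x.1.1| ≤ m → |t.2 - x.1.2| ≤ m → t ∈ sqr w) :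
    hwinS x.2 x.1 m ⊆ QW v Q w := by
  intro t ht
  obtain ⟨⟨h1, h2⟩, h3, -⟩ := mem_hwinS'.1 ht
  exact mem_QW.2 ⟨hb t h1 h2, (hwinS_flat hQ hx h h1 h2).2 h3⟩

/-- the wall sides of the window are real -/
theorem hwinS_real {v : ℤ × ℤ} {Q : Bool → Bool → Bool} {w : ℕ} (hQ : QAdm Q)
    {x : Half (ℤ × ℤ)} (hx : Real v Q w x) {m : ℕ} (hm : 1 ≤ m)
    (h : nq Q = 2 ∨ (m : ℤ) ≤ ps v x ∨ ps v x ≤ -1 - (m : ℤ))
    (hb : ∀ t : ℤ × ℤ, |t.1 - x.1.1| ≤ m → |t.2 - x.1.2| ≤ m → t ∈ sqr w)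
    {y : Half (ℤ × ℤ)} (hy : Bd (hwinS x.2 x.1 m) (plane.glue (hwinS x.2 x.1 m)) y)
    (hd : y.2 = x.2) : Real v Q w y := by
  rw [Corner.bd_plane, mem_hwinS', mem_hwinS'] at hy
  obtain ⟨⟨⟨h1, h2⟩, h3, h4⟩, h5⟩ := hy
  have h6 : |(y.1 + y.2.vec).1 - x.1.1| ≤ m ∧ |(y.1 + y.2.vec).2 - x.1.2| ≤ m := by
    rw [hd] at h5 ⊢
    rw [abs_le] at h1 h2 h5 ⊢
    rw [abs_le] at h5 ⊢
    obtain ⟨⟨i, j⟩, d⟩ := x
    obtain ⟨⟨i', j'⟩, d'⟩ := y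
    cases d <;> simp only [HPl, tl, Dir.vec, Prod.mk_add_mk] at h1 h2 h3 h4 h5 ⊢ <;> omega
  refine ⟨mem_QW.2 ⟨hb _ h1 h2, (hwinS_flat hQ hx h h1 h2).2 h3⟩, hb _ h6.1 h6.2, fun h7 => h5 ?_⟩
  have h8 := (hwinS_flat hQ hx h h6.1 h6.2).1 h7
  refine ⟨h6, h8, ?_⟩
  rw [hd] at h8 ⊢
  obtain ⟨⟨i, j⟩, d⟩ := x
  obtain ⟨⟨i', j'⟩, d'⟩ := y
  cases d <;> simp only [HPl, tl, Dir.vec, Prod.mk_add_mk] at h3 h4 h8 ⊢ <;> omega

/-- the sides before and after `x` -/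
theorem hwinS_ps {v : ℤ × ℤ} {x y : Half (ℤ × ℤ)} (hd : y.2 = x.2) :
    (y ∈ hLS x.2 x.1 ↔ ps v y < ps v x) ∧ (y ∈ hRS x.2 x.1 ↔ ps v x < ps v y) := by
  obtain ⟨⟨i, j⟩, d⟩ := x
  obtain ⟨⟨i', j'⟩, d'⟩ := y
  simp only at hd
  subst hd
  cases d' <;> simp only [hLS, hRS, ps, Set.mem_ofPred_eq, true_and] <;> omega

/-- **the factors of a mark and of an uncovered position in a window of quadrant type**: the mark is
at the tail of the real half edge `x` -/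
theorem exists_arm_Q : ∃ C : ℝ, 1 ≤ C ∧ ∀ (B : ℝ) (m : ℕ), 1 ≤ m → (m : ℝ) ≤ B →
    ∀ (v : ℤ × ℤ) (Q : Bool → Bool → Bool) (w : ℕ), QAdm Q → ∀ x : Half (ℤ × ℤ), Real v Q w x →
    ((nq Q = 2 ∨ (m : ℤ) ≤ ps v x ∨ ps v x ≤ -(m : ℤ)) → bwin (tl x) m ⊆ sqr w →
      LocE B (C * (m : ℝ) ^ (-(1 / 3) : ℝ)) (hwin x.2 (tl x) m)
        (fun ω => (0 : ℝ) ^ pc (hwin x.2 (tl x) m) ω {y | Real v Q w y ∧ ps v y < ps v x}
          {y | Real v Q w y ∧ ps v x ≤ ps v y})) ∧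
    ((nq Q = 2 ∨ (m : ℤ) ≤ ps v x ∨ ps v x ≤ -1 - (m : ℤ)) →
      (∀ t : ℤ × ℤ, |t.1 - x.1.1| ≤ m → |t.2 - x.1.2| ≤ m → t ∈ sqr w) →
      LocE B (C * (m : ℝ) ^ (-(1 / 3) : ℝ)) (hwinS x.2 x.1 m)
        (fun ω => (0 : ℝ) ^ pc (hwinS x.2 x.1 m) ω {y | Real v Q w y ∧ ps v y < ps v x}
          {y | Real v Q w y ∧ ps v x < ps v y})) := by
  obtain ⟨C1, hC1, f1⟩ := exists_mark
  obtain ⟨C2, hC2, f2⟩ := exists_side
  obtain ⟨C, hC, e1, e2⟩ : ∃ C : ℝ, 1 ≤ C ∧ (∀ (d : Dir) (v : ℤ × ℤ) (m : ℕ), 1 ≤ m →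
      Ex (hwin d v m) (fun ω => (0 : ℝ) ^ pc (hwin d v m) ω (hL d v) (hR d v)) ≤
        C * (m : ℝ) ^ (-(1 / 3) : ℝ)) ∧ (∀ (d : Dir) (t : ℤ × ℤ) (m : ℕ), 1 ≤ m →
      Ex (hwinS d t m) (fun ω => (0 : ℝ) ^ pc (hwinS d t m) ω (hLS d t) (hRS d t)) ≤
        C * (m : ℝ) ^ (-(1 / 3) : ℝ)) := by
    refine ⟨max C1 C2, le_max_of_le_left hC1, fun d v m hm => (f1 d v m hm).trans ?_,
      fun d v m hm => (f2 d v m hm).trans ?_⟩
    · exact mul_le_mul_of_nonneg_right (le_max_left _ _) (by positivity)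
    · exact mul_le_mul_of_nonneg_right (le_max_right _ _) (by positivity)
  refine ⟨C, hC, fun B m hm hB v Q w hQ x hx => ⟨fun h1 h2 => ?_, fun h1 h2 => ?_⟩⟩
  · refine locE_zero hC hm hB (le_trans ?_ (e1 x.2 (tl x) m hm))
    refine Ex_mono fun ω _ => zero_pow_anti (pc_mono ?_ ?_)
    · intro y hy hL
      exact ⟨hwin_real hQ hx hm h1 h2 hy hL.1, ((hwin_ps hL.1).1).1 hL⟩
    · intro y hy hR
      exact ⟨hwin_real hQ hx hm h1 h2 hy hR.1, ((hwin_ps hR.1).2).1 hR⟩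
  · refine locE_zero hC hm hB (le_trans ?_ (e2 x.2 x.1 m hm))
    refine Ex_mono fun ω _ => zero_pow_anti (pc_mono ?_ ?_)
    · intro y hy hL
      exact ⟨hwinS_real hQ hx hm h1 h2 hy hL.1, ((hwinS_ps hL.1).1).1 hL⟩
    · intro y hy hR
      exact ⟨hwinS_real hQ hx hm h1 h2 hy hR.1, ((hwinS_ps hR.1).2).1 hR⟩

end Full.Norm
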