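import Pool.Agent.Full.Dict3.Cut
import Pool.Agent.Full.Def.Inst

/-!
# The double of a region

`net_double`: the scalar product of the two vectors of networks of a region with fixed arrows on the
half edges `e j` is the network of the double: a second copy of the region is reflected (north and
south are exchanged) and glued along the half edges `e j`.  The factors of the second copy are the
complex conjugates with reversed arrows: unit phases `φ` stay `φ`.
-/

set_option autoImplicit false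

namespace Full
open Finset Function

noncomputable section

/-- reflection in a horizontal line -/
def Dir.flip : Dir → Dir
  | .E => .E | .N => .S | .W => .W | .S => .N

@[simp] lemma Dir.flip_flip (d : Dir) : d.flip.flip = d := by cases d <;> rfl
lemma Dir.flip_opp (d : Dir) : d.opp.flip = d.flip.opp := by cases d <;> rfl
lemma Dir.flip_ccw (d : Dir) : d.ccw.flip = d.flip.cw := by cases d <;> rfl
lemma Dir.flip_cw (d : Dir) : d.cw.flip = d.flip.ccw := by cases d <;> rfl
lemma Dir.flip_eq_opp {d : Dir} (h : d.hor = false) : d.flip = d.opp := by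
  cases d <;> first | rfl | exact absurd h (by decide)

variable {τ : Type*}

/-- a half edge of the first copy -/
def dl (x : Half τ) : Half (τ ⊕ τ) := (Sum.inl x.1, x.2)

/-- a half edge of the second, reflected copy -/
def dr (x : Half τ) : Half (τ ⊕ τ) := (Sum.inr x.1, x.2.flip)

lemma dl_inj : Injective (dl : Half τ → Half (τ ⊕ τ)) := by
  rintro ⟨t, d⟩ ⟨t', d'⟩ h
  have h1 : (Sum.inl t : τ ⊕ τ) = Sum.inl t' := congrArg Prod.fst h
  have h2 : d = d' := congrArg Prod.snd h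
  rw [Sum.inl.inj h1, h2]

lemma dr_inj : Injective (dr : Half τ → Half (τ ⊕ τ)) := by
  rintro ⟨t, d⟩ ⟨t', d'⟩ h
  have h1 : (Sum.inr t : τ ⊕ τ) = Sum.inr t' := congrArg Prod.fst h
  have h2 : d.flip = d'.flip := congrArg Prod.snd h
  rw [Sum.inr.inj h1, ← Dir.flip_flip d, h2, Dir.flip_flip]

lemma dl_ne_dr (x y : Half τ) : dl x ≠ dr y := fun h => by
  have h1 : (Sum.inl x.1 : τ ⊕ τ) = Sum.inr y.1 := congrArg Prod.fst h
  cases h1

/-- every half edge is in one of the two copies -/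
lemma dcases (x : Half (τ ⊕ τ)) : (∃ y, x = dl y) ∨ ∃ y, x = dr y := by
  obtain ⟨t | t, d⟩ := x
  · exact Or.inl ⟨(t, d), rfl⟩
  · exact Or.inr ⟨(t, d.flip), by unfold dr; rw [Dir.flip_flip]⟩

/-- the tiles of the double -/
def dT (T : Finset τ) : Finset (τ ⊕ τ) := T.disjSum T

lemma dl_mem {T : Finset τ} {x : Half τ} : (dl x).1 ∈ dT T ↔ x.1 ∈ T := Finset.inl_mem_disjSum
lemma dr_mem {T : Finset τ} {x : Half τ} : (dr x).1 ∈ dT T ↔ x.1 ∈ T := Finset.inr_mem_disjSum

/-- the factors of the double -/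
def dF (F F' : Half τ → Bool → ℂ) : Half (τ ⊕ τ) → Bool → ℂ
  | (Sum.inl t, d), b => F (t, d) b
  | (Sum.inr t, d), b => (starRingEnd ℂ) (F' (t, d.flip) (!b))

@[simp] lemma dF_dl (F F' : Half τ → Bool → ℂ) (x : Half τ) (b : Bool) :
    dF F F' (dl x) b = F x b := rfl

@[simp] lemma dF_dr (F F' : Half τ → Bool → ℂ) (x : Half τ) (b : Bool) :
    dF F F' (dr x) b = (starRingEnd ℂ) (F' x (!b)) := by
  obtain ⟨t, d⟩ := x
  show (starRingEnd ℂ) (F' (t, d.flip.flip) (!b)) = _
  rw [Dir.flip_flip]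

variable [DecidableEq τ]

/-- the gluing of the double along the half edges of `C` -/
def dg (g : Half τ → Half τ) (C : Finset (Half τ)) : Half (τ ⊕ τ) → Half (τ ⊕ τ)
  | (Sum.inl t, d) => if (t, d) ∈ C then dr (t, d) else dl (g (t, d))
  | (Sum.inr t, d) => if (t, d.flip) ∈ C then dl (t, d.flip) else dr (g (t, d.flip))

section dg
variable {T : Finset τ} {g : Half τ → Half τ} {C : Finset (Half τ)}

lemma dg_dl (x : Half τ) : dg g C (dl x) = if x ∈ C then dr x else dl (g x) := rfl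

lemma dg_dr (x : Half τ) : dg g C (dr x) = if x ∈ C then dl x else dr (g x) := by
  obtain ⟨t, d⟩ := x
  show (if (t, d.flip.flip) ∈ C then dl (t, d.flip.flip) else dr (g (t, d.flip.flip))) = _
  rw [Dir.flip_flip]

lemma dg_dl_of {x : Half τ} (h : x ∉ C) : dg g C (dl x) = dl (g x) := by
  rw [dg_dl, if_neg h]

lemma dg_dr_of {x : Half τ} (h : x ∉ C) : dg g C (dr x) = dr (g x) := by
  rw [dg_dr, if_neg h]

theorem glu_dg (hG : Glu T g) (hC : ∀ x ∈ C, Bd T g x) : Glu (dT T) (dg g C) where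
  inv := fun x => by
    have hne : ∀ x, x ∉ C → g x ∉ C := fun x hx h => by
      have h1 := (hC _ h).2
      rw [hG.inv] at h1
      rw [← h1] at h
      exact hx h
    rcases dcases x with ⟨y, rfl⟩ | ⟨y, rfl⟩
    · by_cases h : y ∈ C
      · rw [dg_dl, if_pos h, dg_dr, if_pos h]
      · rw [dg_dl_of h, dg_dl_of (hne y h), hG.inv]
    · by_cases h : y ∈ C
      · rw [dg_dr, if_pos h, dg_dl, if_pos h]
      · rw [dg_dr_of h, dg_dr_of (hne y h), hG.inv]
  mem := fun x hx => by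
    rcases dcases x with ⟨y, rfl⟩ | ⟨y, rfl⟩
    · rw [dl_mem] at hx
      by_cases h : y ∈ C
      · rw [dg_dl, if_pos h, dr_mem]; exact hx
      · rw [dg_dl_of h, dl_mem]; exact hG.mem y hx
    · rw [dr_mem] at hx
      by_cases h : y ∈ C
      · rw [dg_dr, if_pos h, dl_mem]; exact hx
      · rw [dg_dr_of h, dr_mem]; exact hG.mem y hx
  out := fun x hx => by
    rcases dcases x with ⟨y, rfl⟩ | ⟨y, rfl⟩
    · rw [dl_mem] at hx
      rw [dg_dl_of fun h => hx (hC y h).1, hG.out y hx]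
    · rw [dr_mem] at hx
      rw [dg_dr_of fun h => hx (hC y h).1, hG.out y hx]

lemma straight_dg (hs : Straight g) (hC : ∀ x ∈ C, x.2.hor = false) : Straight (dg g C) := by
  intro x hx
  rcases dcases x with ⟨y, rfl⟩ | ⟨y, rfl⟩
  · by_cases h : y ∈ C
    · rw [dg_dl, if_pos h]
      exact Dir.flip_eq_opp (hC y h)
    · rw [dg_dl_of h] at hx ⊢
      exact hs y fun h1 => hx (by rw [h1])
  · by_cases h : y ∈ C
    · rw [dg_dr, if_pos h]
      show y.2 = y.2.flip.opp
      rw [Dir.flip_eq_opp (hC y h), Dir.opp_opp]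
    · rw [dg_dr_of h] at hx ⊢
      show (g y).2.flip = y.2.flip.opp
      rw [hs y fun h1 => hx (by rw [h1]), Dir.flip_opp]

lemma bd_dl {x : Half τ} :
    Bd (dT T) (dg g C) (dl x) ↔ Bd T g x ∧ x ∉ C := by
  constructor
  · rintro ⟨h1, h2⟩
    by_cases h : x ∈ C
    · rw [dg_dl, if_pos h] at h2
      exact absurd h2.symm (dl_ne_dr _ _)
    · rw [dg_dl_of h] at h2
      exact ⟨⟨dl_mem.1 h1, dl_inj h2⟩, h⟩
  · rintro ⟨⟨h1, h2⟩, h⟩
    exact ⟨dl_mem.2 h1, by rw [dg_dl_of h, h2]⟩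

lemma bd_dr {x : Half τ} :
    Bd (dT T) (dg g C) (dr x) ↔ Bd T g x ∧ x ∉ C := by
  constructor
  · rintro ⟨h1, h2⟩
    by_cases h : x ∈ C
    · rw [dg_dr, if_pos h] at h2
      exact absurd h2 (dl_ne_dr _ _)
    · rw [dg_dr_of h] at h2
      exact ⟨⟨dr_mem.1 h1, dr_inj h2⟩, h⟩
  · rintro ⟨⟨h1, h2⟩, h⟩
    exact ⟨dr_mem.2 h1, by rw [dg_dr_of h, h2]⟩

end dg

/-! ### the scalar product -/

lemma tw_flip (K : ℝ) (p : Dir → Bool) : tw K (fun d => !p d.flip) = tw K p := by
  unfold tw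
  simp only [Dir.flip]
  cases p .E <;> cases p .N <;> cases p .W <;> cases p .S <;> rfl

lemma conj_tw (K : ℝ) (p : Dir → Bool) : (starRingEnd ℂ) (tw K p) = tw K p := by
  have h : (starRingEnd ℂ) (Complex.cos (4 * (K : ℂ))) = Complex.cos (4 * (K : ℂ)) := by
    rw [← Complex.cos_conj]
    congr 1
    rw [map_mul, Complex.conj_ofReal]
    congr 1
    exact Complex.conj_ofReal 4
  unfold tw
  have h2 : (starRingEnd ℂ) (2 : ℂ) = 2 := Complex.conj_ofReal 2
  cases p .E <;> cases p .N <;> cases p .W <;> cases p .S <;> simp [h, h2]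

/-- the first part of an arrow configuration of the double -/
def d1 (T : Finset τ) (O : Finset (Half (τ ⊕ τ))) : Finset (Half τ) :=
  (hs T).filter fun x => dl x ∈ O

/-- the second part, with reversed arrows -/
def d2 (T : Finset τ) (O : Finset (Half (τ ⊕ τ))) : Finset (Half τ) :=
  (hs T).filter fun x => dr x ∉ O

lemma netw_dT (T : Finset τ) (K : ℝ) (F F' : Half τ → Bool → ℂ) (O : Finset (Half (τ ⊕ τ))) :
    netw (dT T) K (dF F F') O = netw T K F (d1 T O) * (starRingEnd ℂ) (netw T K F' (d2 T O)) := by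
  have h1 : ∀ x ∈ hs T, decide (x ∈ d1 T O) = decide (dl x ∈ O) := fun x hx => by
    rw [decide_eq_decide]
    unfold d1
    rw [mem_filter]
    exact ⟨fun h => h.2, fun h => ⟨hx, h⟩⟩
  have h2 : ∀ x ∈ hs T, decide (x ∈ d2 T O) = !decide (dr x ∈ O) := fun x hx => by
    rw [← decide_not, decide_eq_decide]
    unfold d2
    rw [mem_filter]
    exact ⟨fun h => h.2, fun h => ⟨hx, h⟩⟩
  have e1 : ∏ t ∈ dT T, tw K (fun d => decide ((t, d) ∈ O)) =
      (∏ t ∈ T, tw K (fun d => decide ((t, d) ∈ d1 T O))) *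
        ∏ t ∈ T, tw K (fun d => decide ((t, d) ∈ d2 T O)) := by
    unfold dT
    rw [prod_disjSum]
    congr 1
    · refine prod_congr rfl fun t ht => ?_
      congr 1
      funext d
      exact (h1 (t, d) (mem_hs.2 ht)).symm
    · refine prod_congr rfl fun t ht => ?_
      rw [← tw_flip]
      congr 1
      funext d
      exact (h2 (t, d) (mem_hs.2 ht)).symm
  have e2 : ∏ x ∈ hs (dT T), dF F F' x (decide (x ∈ O)) =
      (∏ x ∈ hs T, F x (decide (x ∈ d1 T O))) *
        ∏ x ∈ hs T, (starRingEnd ℂ) (F' x (decide (x ∈ d2 T O))) := by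
    have h3 : hs (dT T) = (hs T).image dl ∪ (hs T).image dr := by
      ext x
      rw [mem_union, mem_image, mem_image, mem_hs]
      constructor
      · intro hx
        rcases dcases x with ⟨y, rfl⟩ | ⟨y, rfl⟩
        · exact Or.inl ⟨y, mem_hs.2 (dl_mem.1 hx), rfl⟩
        · exact Or.inr ⟨y, mem_hs.2 (dr_mem.1 hx), rfl⟩
      · rintro (⟨y, hy, rfl⟩ | ⟨y, hy, rfl⟩)
        · exact dl_mem.2 (mem_hs.1 hy)
        · exact dr_mem.2 (mem_hs.1 hy)
    rw [h3, prod_union, prod_image fun x _ y _ h => dl_inj h, prod_image fun x _ y _ h => dr_inj h]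
    · congr 1
      · refine prod_congr rfl fun x hx => ?_
        rw [dF_dl, h1 x hx]
      · refine prod_congr rfl fun x hx => ?_
        rw [dF_dr, h2 x hx]
    · rw [Finset.disjoint_left]
      intro x hx hx'
      obtain ⟨y, _, rfl⟩ := mem_image.1 hx
      obtain ⟨z, _, h⟩ := mem_image.1 hx'
      exact dl_ne_dr _ _ h.symm
  unfold netw
  rw [e1, e2, map_mul, map_prod, map_prod]
  simp only [conj_tw]
  ring

/-- **the scalar product is the network of the double** -/
theorem net_double {ι : Type*} [Fintype ι] [DecidableEq ι] {T : Finset τ} {g : Half τ → Half τ}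
    (hG : Glu T g) {e : ι → Half τ} (he : ∀ j, Bd T g (e j)) (K : ℝ)
    (F F' : Half τ → Bool → ℂ) :
    ∑ s : ι → Bool, net T g K (pin e s F) * (starRingEnd ℂ) (net T g K (pin e s F')) =
      net (dT T) (dg g (univ.image e)) K (dF F F') := by
  set C : Finset (Half τ) := univ.image e with hC
  have hCm : ∀ x, x ∈ C ↔ ∃ j, e j = x := fun x => by
    rw [hC, mem_image]
    simp
  -- the left hand side is a sum over pairs
  have L : ∑ s : ι → Bool, net T g K (pin e s F) * (starRingEnd ℂ) (net T g K (pin e s F')) =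
      ∑ p ∈ (Net.Cons (hs T) g ×ˢ Net.Cons (hs T) g).filter fun p => ∀ j, (e j ∈ p.1 ↔ e j ∈ p.2),
        netw T K F p.1 * (starRingEnd ℂ) (netw T K F' p.2) := by
    rw [← sum_fiberwise ((Net.Cons (hs T) g ×ˢ Net.Cons (hs T) g).filter
      fun p => ∀ j, (e j ∈ p.1 ↔ e j ∈ p.2)) (fun p => fun j => decide (e j ∈ p.1))]
    refine sum_congr rfl fun s _ => ?_
    rw [net_pin (fun j => (he j).1), net_pin (fun j => (he j).1), map_sum, sum_mul_sum,
      ← sum_product']
    refine sum_congr ?_ fun _ _ => rfl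
    ext ⟨O, O'⟩
    unfold Net.ConsP
    simp only [mem_product, mem_filter, funext_iff]
    constructor
    · rintro ⟨⟨h1, h2⟩, h3, h4⟩
      refine ⟨⟨⟨h1, h3⟩, fun j => (h2 j).trans (h4 j).symm⟩, fun j => ?_⟩
      have := h2 j
      cases hs : s j
      · rw [hs] at this
        exact decide_eq_false fun h => absurd (this.1 h) (by simp)
      · rw [hs] at this
        exact decide_eq_true (this.2 rfl)
    · rintro ⟨⟨⟨h1, h3⟩, h2⟩, h4⟩
      have h5 : ∀ j, (e j ∈ O ↔ s j = true) := fun j => by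
        rw [← h4 j, decide_eq_true_eq]
      exact ⟨⟨h1, h5⟩, h3, fun j => (h2 j).symm.trans (h5 j)⟩
  rw [L, net_eq_cons]
  symm
  refine sum_bij' (fun O _ => (d1 T O, d2 T O)) (fun p _ => p.1.image dl ∪ (hs T \ p.2).image dr)
    ?_ ?_ ?_ ?_ ?_
  · intro O hO
    rw [Net.mem_Cons] at hO
    obtain ⟨hO1, hO2⟩ := hO
    have m1 : ∀ x, x ∈ d1 T O ↔ x ∈ hs T ∧ dl x ∈ O := fun x => by unfold d1; rw [mem_filter]
    have m2 : ∀ x, x ∈ d2 T O ↔ x ∈ hs T ∧ dr x ∉ O := fun x => by unfold d2; rw [mem_filter]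
    rw [mem_filter, mem_product, Net.mem_Cons, Net.mem_Cons]
    refine ⟨⟨⟨fun x hx => ((m1 x).1 hx).1, fun x hx hne => ?_⟩,
      fun x hx => ((m2 x).1 hx).1, fun x hx hne => ?_⟩, fun j => ?_⟩
    · have hx' : x ∉ C := fun h => by
        obtain ⟨j, rfl⟩ := (hCm x).1 h
        exact hne (he j).2
      have h1 := hO2 (dl x) (mem_hs.2 (dl_mem.2 (mem_hs.1 hx)))
      rw [dg_dl_of hx'] at h1
      have hgx : g x ∈ hs T := mem_hs.2 (hG.mem x (mem_hs.1 hx))
      rw [m1, m1]
      have h2 := h1 fun h => hne (dl_inj h)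
      tauto
    · have hx' : x ∉ C := fun h => by
        obtain ⟨j, rfl⟩ := (hCm x).1 h
        exact hne (he j).2
      have h1 := hO2 (dr x) (mem_hs.2 (dr_mem.2 (mem_hs.1 hx)))
      rw [dg_dr_of hx'] at h1
      have hgx : g x ∈ hs T := mem_hs.2 (hG.mem x (mem_hs.1 hx))
      rw [m2, m2]
      have h2 := h1 fun h => hne (dr_inj h)
      tauto
    · have h1 := hO2 (dl (e j)) (mem_hs.2 (dl_mem.2 (he j).1))
      have hj : e j ∈ C := (hCm _).2 ⟨j, rfl⟩
      rw [dg_dl, if_pos hj] at h1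
      have h2 := h1 fun h => dl_ne_dr _ _ h.symm
      have h3 : e j ∈ hs T := mem_hs.2 (he j).1
      rw [m1, m2]
      tauto
  · rintro ⟨O, O'⟩ hp
    rw [mem_filter, mem_product, Net.mem_Cons, Net.mem_Cons] at hp
    obtain ⟨⟨⟨h1, h2⟩, h3, h4⟩, h5⟩ := hp
    simp only at h1 h2 h3 h4 h5
    have k1 : ∀ x, dl x ∈ O.image dl ∪ (hs T \ O').image dr ↔ x ∈ O := fun x => by
      rw [mem_union, mem_image, mem_image]
      constructor
      · rintro (⟨y, hy, h⟩ | ⟨y, _, h⟩)
        · rwa [← dl_inj h]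
        · exact absurd h.symm (dl_ne_dr _ _)
      · intro h
        exact Or.inl ⟨x, h, rfl⟩
    have k2 : ∀ x, x ∈ hs T → (dr x ∈ O.image dl ∪ (hs T \ O').image dr ↔ x ∉ O') := fun x hx => by
      rw [mem_union, mem_image, mem_image]
      constructor
      · rintro (⟨y, _, h⟩ | ⟨y, hy, h⟩)
        · exact absurd h (dl_ne_dr _ _)
        · rw [← dr_inj h]
          exact (mem_sdiff.1 hy).2
      · intro h
        exact Or.inr ⟨x, mem_sdiff.2 ⟨hx, h⟩, rfl⟩
    rw [Net.mem_Cons]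
    refine ⟨?_, ?_⟩
    · intro x hx
      rcases mem_union.1 hx with hx | hx
      · obtain ⟨y, hy, rfl⟩ := mem_image.1 hx
        exact mem_hs.2 (dl_mem.2 (mem_hs.1 (h1 hy)))
      · obtain ⟨y, hy, rfl⟩ := mem_image.1 hx
        exact mem_hs.2 (dr_mem.2 (mem_hs.1 (mem_sdiff.1 hy).1))
    · intro x hx hne
      rcases dcases x with ⟨y, rfl⟩ | ⟨y, rfl⟩
      · have hy : y ∈ hs T := mem_hs.2 (dl_mem.1 (mem_hs.1 hx))
        by_cases hyC : y ∈ C
        · rw [dg_dl, if_pos hyC, k2 y hy, k1]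
          obtain ⟨j, rfl⟩ := (hCm y).1 hyC
          rw [h5 j]
        · rw [dg_dl_of hyC] at hne ⊢
          rw [k1, k1]
          exact h2 y hy fun h => hne (by rw [h])
      · have hy : y ∈ hs T := mem_hs.2 (dr_mem.1 (mem_hs.1 hx))
        by_cases hyC : y ∈ C
        · rw [dg_dr, if_pos hyC, k2 y hy, k1]
          obtain ⟨j, rfl⟩ := (hCm y).1 hyC
          rw [h5 j, not_not]
        · rw [dg_dr_of hyC] at hne ⊢
          have hgy : g y ∈ hs T := mem_hs.2 (hG.mem y (mem_hs.1 hy))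
          rw [k2 _ hgy, k2 _ hy]
          have := h4 y hy fun h => hne (by rw [h])
          tauto
  · intro O hO
    rw [Net.mem_Cons] at hO
    ext x
    rw [mem_union, mem_image, mem_image]
    constructor
    · rintro (⟨y, hy, rfl⟩ | ⟨y, hy, rfl⟩)
      · exact (mem_filter.1 hy).2
      · have h1 := mem_sdiff.1 hy
        by_contra h2
        exact h1.2 (mem_filter.2 ⟨h1.1, h2⟩)
    · intro hx
      have hx' := mem_hs.1 (hO.1 hx)
      rcases dcases x with ⟨y, rfl⟩ | ⟨y, rfl⟩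
      · exact Or.inl ⟨y, mem_filter.2 ⟨mem_hs.2 (dl_mem.1 hx'), hx⟩, rfl⟩
      · refine Or.inr ⟨y, mem_sdiff.2 ⟨mem_hs.2 (dr_mem.1 hx'), fun h => ?_⟩, rfl⟩
        exact (mem_filter.1 h).2 hx
  · rintro ⟨O, O'⟩ hp
    rw [mem_filter, mem_product, Net.mem_Cons, Net.mem_Cons] at hp
    obtain ⟨⟨⟨h1, h2⟩, h3, h4⟩, h5⟩ := hp
    simp only at h1 h2 h3 h4 h5
    refine Prod.ext ?_ ?_
    · ext x
      simp only [d1, mem_filter, mem_union, mem_image]
      constructor
      · rintro ⟨_, ⟨y, hy, h⟩ | ⟨y, _, h⟩⟩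
        · rwa [← dl_inj h]
        · exact absurd h.symm (dl_ne_dr _ _)
      · intro h
        exact ⟨h1 h, Or.inl ⟨x, h, rfl⟩⟩
    · ext x
      simp only [d2, mem_filter, mem_union, mem_image, mem_sdiff]
      constructor
      · rintro ⟨hx, h⟩
        by_contra h'
        exact h (Or.inr ⟨x, ⟨hx, h'⟩, rfl⟩)
      · intro h
        refine ⟨h3 h, ?_⟩
        rintro (⟨y, _, h'⟩ | ⟨y, hy, h'⟩)
        · exact dl_ne_dr _ _ h'
        · rw [dr_inj h'] at hy
          exact hy.2 h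
  · intro O _
    exact netw_dT T K F F' O

end

end Full
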