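import Pool.Agent.Full.Def.Geo
import Pool.Agent.Full.Norm.QChart
import Pool.Agent.Full.Norm.Double

/-!
# Caps: a region attached to the ceiling of a strip whose rows are closed

`Cap`: `U` is a region, the strip is `[l, r) x [y, t)`; the rows of the strip are closed to circles.  The
double is glued along the lower sides of the row `y`.
-/

set_option autoImplicit false

namespace Full.Norm
open Finset

/-! ### the cylinder -/

/-- the representative of an abscissa -/
def wr (l r i : ℤ) : ℤ := l + (i - l) % (r - l)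

section wr
variable {l r i : ℤ}

lemma wr_mem (h : l < r) (i : ℤ) : l ≤ wr l r i ∧ wr l r i < r := by
  unfold wr
  have h1 := Int.emod_nonneg (i - l) (by omega : r - l ≠ 0)
  have h2 := Int.emod_lt_of_pos (i - l) (by omega : 0 < r - l)
  omega

lemma wr_of_mem (h1 : l ≤ i) (h2 : i < r) : wr l r i = i := by
  unfold wr
  rw [Int.emod_eq_of_lt (by omega) (by omega)]
  omega

lemma wr_add_one (h : l < r) : wr l r (i + 1) = if wr l r i = r - 1 then l else wr l r i + 1 := by
  unfold wr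
  have h1 := Int.emod_nonneg (i - l) (by omega : r - l ≠ 0)
  have h2 := Int.emod_lt_of_pos (i - l) (by omega : 0 < r - l)
  have h3 : (i + 1 - l) % (r - l) = ((i - l) % (r - l) + 1) % (r - l) := by
    rw [Int.emod_add_emod]
    congr 1
    ring
  rw [h3]
  by_cases h4 : l + (i - l) % (r - l) = r - 1
  · rw [if_pos h4, show (i - l) % (r - l) + 1 = r - l by omega, Int.emod_self, add_zero]
  · rw [if_neg h4, Int.emod_eq_of_lt (by omega) (by omega)]
    ring

lemma wr_sub_one (h : l < r) : wr l r (i - 1) = if wr l r i = l then r - 1 else wr l r i - 1 := by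
  have h1 := wr_add_one h (i := i - 1)
  rw [sub_add_cancel] at h1
  have h2 := wr_mem h (i - 1)
  by_cases h3 : wr l r (i - 1) = r - 1
  · rw [if_pos h3] at h1
    rw [if_pos h1, h3]
  · rw [if_neg h3] at h1
    rw [if_neg (by omega)]
    omega

lemma wr_inj {i' : ℤ} (h : wr l r i = wr l r i') (h1 : i - i' < r - l) (h2 : i' - i < r - l) :
    i = i' := by
  unfold wr at h
  have h3 : (i - l) % (r - l) = (i' - l) % (r - l) := by omega
  have h4 : (i - i') % (r - l) = 0 := by
    have h5 := Int.emod_emod_of_dvd (i - l) (dvd_refl (r - l))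
    have h6 : (i - i') = (i - l) - (i' - l) := by ring
    rw [h6, Int.sub_emod, h3, sub_self, Int.zero_emod]
  have h5 := Int.dvd_of_emod_eq_zero h4
  obtain ⟨k, hk⟩ := h5
  have h6 : k = 0 := by
    by_contra hk0
    rcases lt_or_gt_of_ne hk0 with h7 | h7
    · have : (r - l) * k ≤ (r - l) * (-1) := by
        refine mul_le_mul_of_nonneg_left (by omega) ?_
        by_contra h8
        omega
      omega
    · have : (r - l) * 1 ≤ (r - l) * k := by
        refine mul_le_mul_of_nonneg_left (by omega) ?_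
        by_contra h8
        omega
      omega
  rw [h6, mul_zero] at hk
  omega

end wr

/-- the right neighbours: the rows `y ≤ j < t` are closed between the columns `l` and `r - 1` -/
def cylr (l r y t : ℤ) : (ℤ × ℤ) ≃. (ℤ × ℤ) where
  toFun p := if y ≤ p.2 ∧ p.2 < t then
    (if p.1 = r - 1 then some (l, p.2) else if p.1 = l - 1 then none else some (p.1 + 1, p.2))
    else some (p.1 + 1, p.2)
  invFun p := if y ≤ p.2 ∧ p.2 < t then
    (if p.1 = l then some (r - 1, p.2) else if p.1 = r then none else some (p.1 - 1, p.2))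
    else some (p.1 - 1, p.2)
  inv := by
    rintro ⟨i, j⟩ ⟨i', j'⟩
    dsimp only
    split_ifs <;> simp <;> omega

/-- the plane with closed rows -/
def cyl (l r y t : ℤ) : Surf (ℤ × ℤ) := ⟨cylr l r y t, plane.u⟩

section nb
variable {l r y t i j : ℤ}

lemma cyl_N : (cyl l r y t).nb .N (i, j) = some (i, j + 1) := by
  have h := nb_plane .N (i, j)
  have e : (i, j) + Dir.N.vec = (i, j + 1) := by
    refine Prod.ext ?_ rfl
    show i + 0 = i
    omega
  rw [e] at h
  exact h

lemma cyl_S : (cyl l r y t).nb .S (i, j) = some (i, j - 1) := by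
  have h := nb_plane .S (i, j)
  have e : (i, j) + Dir.S.vec = (i, j - 1) := by
    refine Prod.ext ?_ rfl
    show i + 0 = i
    omega
  rw [e] at h
  exact h

lemma cyl_E (h : ¬ (y ≤ j ∧ j < t) ∨ (i ≠ r - 1 ∧ i ≠ l - 1)) :
    (cyl l r y t).nb .E (i, j) = some (i + 1, j) := by
  show (if y ≤ j ∧ j < t then
    (if i = r - 1 then some (l, j) else if i = l - 1 then none else some (i + 1, j))
    else some (i + 1, j)) = _
  rcases h with h | ⟨h1, h2⟩
  · rw [if_neg h]
  · rw [if_neg h1, if_neg h2, ite_self]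

lemma cyl_E_end (h : y ≤ j ∧ j < t) : (cyl l r y t).nb .E (r - 1, j) = some (l, j) := by
  show (if y ≤ j ∧ j < t then
    (if r - 1 = r - 1 then some (l, j) else if r - 1 = l - 1 then none else some (r - 1 + 1, j))
    else some (r - 1 + 1, j)) = _
  rw [if_pos h, if_pos rfl]

lemma cyl_W (h : ¬ (y ≤ j ∧ j < t) ∨ (i ≠ l ∧ i ≠ r)) :
    (cyl l r y t).nb .W (i, j) = some (i - 1, j) := by
  show (if y ≤ j ∧ j < t then
    (if i = l then some (r - 1, j) else if i = r then none else some (i - 1, j))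
    else some (i - 1, j)) = _
  rcases h with h | ⟨h1, h2⟩
  · rw [if_neg h]
  · rw [if_neg h1, if_neg h2, ite_self]

lemma cyl_W_end (h : y ≤ j ∧ j < t) : (cyl l r y t).nb .W (l, j) = some (r - 1, j) := by
  show (if y ≤ j ∧ j < t then
    (if l = l then some (r - 1, j) else if l = r then none else some (l - 1, j))
    else some (l - 1, j)) = _
  rw [if_pos h, if_pos rfl]

/-- away from the ends of the rows the neighbours are those of the plane -/
lemma cyl_nb (h : ¬ (y ≤ j ∧ j < t) ∨ (i ≠ r - 1 ∧ i ≠ l - 1 ∧ i ≠ l ∧ i ≠ r)) (d : Dir) :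
    (cyl l r y t).nb d (i, j) = some ((i, j) + d.vec) := by
  cases d
  · rw [cyl_E (h.imp_right fun h => ⟨h.1, h.2.1⟩)]
    congr 1
    refine Prod.ext rfl ?_
    show j = j + 0
    omega
  · rw [cyl_N]
    congr 1
    refine Prod.ext ?_ rfl
    show i = i + 0
    omega
  · rw [cyl_W (h.imp_right fun h => ⟨h.2.2.1, h.2.2.2⟩)]
    congr 1
    refine Prod.ext rfl ?_
    show j = j + 0
    omega
  · rw [cyl_S]
    congr 1
    refine Prod.ext ?_ rfl
    show i = i + 0
    omega

end nb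

/-! ### caps -/

/-- a region attached to the ceiling of the strip `[l, r) x [y, t)` -/
structure Cap where
  U : Finset (ℤ × ℤ)
  l : ℤ
  r : ℤ
  y : ℤ
  t : ℤ
  hlr : l < r
  hyt : y < t
  hU : ∀ i j, l - 1 ≤ i → i ≤ r → y - 1 ≤ j → j < t → (i, j) ∉ U

namespace Cap
variable (D : Cap)

/-- the tiles -/
noncomputable def R : Finset (ℤ × ℤ) := D.U ∪ box D.l D.r D.y D.t

/-- the gluing, rows closed -/
noncomputable def g : Half (ℤ × ℤ) → Half (ℤ × ℤ) := (cyl D.l D.r D.y D.t).glue D.R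

/-- the lower sides of the row `y` -/
noncomputable def C : Finset (Half (ℤ × ℤ)) := (Ico D.l D.r).image fun i => ((i, D.y), Dir.S)

/-- the tiles of the double -/
noncomputable def T2 : Finset ((ℤ × ℤ) ⊕ (ℤ × ℤ)) := dT D.R

/-- the gluing of the double -/
noncomputable def g2 : Half ((ℤ × ℤ) ⊕ (ℤ × ℤ)) → Half ((ℤ × ℤ) ⊕ (ℤ × ℤ)) := dg D.g D.C

variable {D} {i j : ℤ}

lemma mem_R : (i, j) ∈ D.R ↔ (i, j) ∈ D.U ∨ ((D.l ≤ i ∧ i < D.r) ∧ D.y ≤ j ∧ j < D.t) := by
  unfold R
  rw [mem_union, mem_box]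

lemma strip_mem (h1 : D.l ≤ i) (h2 : i < D.r) (h3 : D.y ≤ j) (h4 : j < D.t) : (i, j) ∈ D.R :=
  mem_R.2 (Or.inr ⟨⟨h1, h2⟩, h3, h4⟩)

lemma mem_C {x : Half (ℤ × ℤ)} :
    x ∈ D.C ↔ (D.l ≤ x.1.1 ∧ x.1.1 < D.r) ∧ x.1.2 = D.y ∧ x.2 = .S := by
  unfold C
  rw [mem_image]
  constructor
  · rintro ⟨i, hi, rfl⟩
    exact ⟨mem_Ico.1 hi, rfl, rfl⟩
  · rintro ⟨h1, h2, h3⟩
    exact ⟨x.1.1, mem_Ico.2 h1, Prod.ext (Prod.ext rfl h2.symm) h3.symm⟩

theorem glu_g : Glu D.R D.g := Surf.glu _ _
theorem straight_g : Straight D.g := Surf.straight_glue _ _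

lemma bd_C {x : Half (ℤ × ℤ)} (hx : x ∈ D.C) : Bd D.R D.g x := by
  obtain ⟨⟨i, j⟩, d⟩ := x
  obtain ⟨⟨h1, h2⟩, h3, h4⟩ := mem_C.1 hx
  simp only at h1 h2 h3 h4
  subst h3 h4
  refine ⟨strip_mem h1 h2 le_rfl D.hyt, ?_⟩
  unfold g Surf.glue
  simp only
  rw [cyl_S]
  have h5 : (i, D.y - 1) ∉ D.R := by
    rw [mem_R]
    rintro (h | h)
    · exact D.hU i (D.y - 1) (by omega) (by omega) le_rfl (by have := D.hyt; omega) h
    · omega
  simp only [h5, and_false, if_false]

theorem glu_g2 : Glu D.T2 D.g2 := glu_dg glu_g fun _ hx => bd_C hx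

theorem straight_g2 : Straight D.g2 := straight_dg straight_g fun x hx => by
  rw [(mem_C.1 hx).2.2]
  rfl

lemma glue_nb {t t' : ℤ × ℤ} {d : Dir} (h : (cyl D.l D.r D.y D.t).nb d t = some t') (ht : t ∈ D.R)
    (ht' : t' ∈ D.R) : D.g (t, d) = (t', d.opp) := Surf.glue_of_mem h ht ht'

lemma glue_wall {t t' : ℤ × ℤ} {d : Dir} (h : (cyl D.l D.r D.y D.t).nb d t = some t')
    (ht' : t' ∉ D.R) : D.g (t, d) = (t, d) := by
  unfold g Surf.glue
  simp only
  rw [h]
  simp only [ht', and_false, if_false]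

/-- the neighbours of a tile of `R` which is not at an end of a row of the strip -/
lemma nb_plain {s : ℤ × ℤ} (hs : s ∈ D.R) (h : (D.l ≤ s.1 ∧ s.1 < D.r) ∧ D.y ≤ s.2 ∧ s.2 < D.t →
    D.l < s.1 ∧ s.1 < D.r - 1) (d : Dir) :
    (cyl D.l D.r D.y D.t).nb d s = some (s + d.vec) := by
  obtain ⟨i, j⟩ := s
  simp only at h
  apply cyl_nb
  by_cases h1 : D.y ≤ j ∧ j < D.t
  · right
    rcases mem_R.1 hs with h2 | h2
    · have h3 := D.hU i j
      by_contra h4
      refine h3 ?_ ?_ ?_ h1.2 h2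
      · by_contra h5; apply h4; have := D.hlr; omega
      · by_contra h5; apply h4; have := D.hlr; omega
      · omega
    · have := h h2
      omega
  · exact Or.inl h1

end Cap

end Full.Norm
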