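import Pool.Agent.Full.Corner.Count
import Pool.Agent.Full.Norm.Count

/-!
# The norm bound, analytic part

`LocBd B S q C v f`: the function `f` of the bits is bounded by a product of at most `S` local factors
on disjoint sets of bits (the product of the given upper bounds of their means is at most `v`) times a
factor whose `q`-th moment is at most `C`.  Then the mean of `f` is at most `B ^ (η S) * v * C`,
`q = (1 + η) / η`.

`sum_locBd_le`: the sum over the positions `y` of the screened charge.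
-/

set_option autoImplicit false

namespace Full.Norm

open Finset Full.Mom Full.Corner

section upper
variable {ι : Type*} [Fintype ι] [DecidableEq ι]

/-- **upper decoupling** with an arbitrary factor with a good moment -/
theorem decouple_upperG {κ : Type*} [DecidableEq κ] (s : Finset κ) {A : κ → Set ι}
    {X : κ → (ι → Bool) → ℝ} {u : κ → ℝ} {f G : (ι → Bool) → ℝ}
    {B C η : ℝ} (hη : 0 < η) (hη' : η < 1) (hB : 1 ≤ B) (hC : 1 ≤ C)
    (hA : ∀ k ∈ s, ∀ l ∈ s, k ≠ l → Disjoint (A k) (A l)) (hX : ∀ k ∈ s, Dep (A k) (X k))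
    (hT : ∀ k ∈ s, LocUp B (u k) (X k)) (hG : ∀ ω, 0 ≤ G ω)
    (hf : ∀ ω, f ω ≤ (∏ k ∈ s, X k ω) * G ω)
    (hM : (avg fun ω => G ω ^ ((1 + η) / η)) ≤ C) :
    avg f ≤ (B ^ η) ^ s.card * (∏ k ∈ s, u k) * C := by
  have hp1 : 1 < 1 + η := by linarith
  have hpq : (1 + η).HolderConjugate ((1 + η) / η) := by
    have := Real.HolderConjugate.conjExponent hp1
    have e : Real.conjExponent (1 + η) = (1 + η) / η := by
      rw [Real.conjExponent]; congr 1; ring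
    rwa [e] at this
  have h := upper s hA hX (fun k hk ω => (hT k hk).nonneg ω) hG hf hpq
  have h0 : 0 ≤ avg fun ω => G ω ^ ((1 + η) / η) := avg_nonneg fun ω => Real.rpow_nonneg (hG ω) _
  have h1 : (avg fun ω => G ω ^ ((1 + η) / η)) ^ (1 / ((1 + η) / η)) ≤ C := by
    calc (avg fun ω => G ω ^ ((1 + η) / η)) ^ (1 / ((1 + η) / η))
        ≤ C ^ (1 / ((1 + η) / η)) := Real.rpow_le_rpow h0 hM (by positivity)
      _ ≤ C ^ (1 : ℝ) := by
          apply Real.rpow_le_rpow_of_exponent_le hC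
          rw [one_div_div, div_le_one (by linarith)]; linarith
      _ = C := Real.rpow_one _
  have hu0 : ∀ k ∈ s, 0 ≤ u k := fun k hk => by
    have h2 := locUp_holder hB hη hη' (hT k hk)
    have h3 : 0 ≤ (avg fun ω => X k ω ^ (1 + η)) ^ (1 / (1 + η)) :=
      Real.rpow_nonneg (avg_nonneg fun ω => Real.rpow_nonneg ((hT k hk).nonneg ω) _) _
    have h4 : 0 < B ^ η := by positivity
    exact nonneg_of_mul_nonneg_right (h3.trans h2) h4
  have h2 : ∏ k ∈ s, (avg fun ω => X k ω ^ (1 + η)) ^ (1 / (1 + η)) ≤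
      (B ^ η) ^ s.card * ∏ k ∈ s, u k := by
    rw [← prod_const, ← prod_mul_distrib]
    apply prod_le_prod
    · intro k hk
      exact Real.rpow_nonneg (avg_nonneg fun ω => Real.rpow_nonneg ((hT k hk).nonneg ω) _) _
    · intro k hk
      exact locUp_holder hB hη hη' (hT k hk)
  refine h.trans (mul_le_mul h2 h1 (Real.rpow_nonneg h0 _) ?_)
  exact mul_nonneg (by positivity) (prod_nonneg hu0)

/-- `f` is at most a product of at most `S` local factors, with means at most `u k`, `∏ u ≤ v`, times a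
factor whose `q`-th moment is at most `C` -/
def LocBd (B : ℝ) (S : ℕ) (q C v : ℝ) (f : (ι → Bool) → ℝ) : Prop :=
  ∃ (K : Type) (_ : DecidableEq K) (s : Finset K) (A : K → Set ι) (X : K → (ι → Bool) → ℝ)
    (u : K → ℝ) (G : (ι → Bool) → ℝ),
    s.card ≤ S ∧ (∀ k ∈ s, ∀ l ∈ s, k ≠ l → Disjoint (A k) (A l)) ∧ (∀ k ∈ s, Dep (A k) (X k)) ∧
    (∀ k ∈ s, LocUp B (u k) (X k)) ∧ (∀ ω, 0 ≤ G ω) ∧ (∀ ω, f ω ≤ (∏ k ∈ s, X k ω) * G ω) ∧
    (avg fun ω => G ω ^ q) ≤ C ∧ ∏ k ∈ s, u k ≤ v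

theorem LocBd.avg_le {B η C v : ℝ} {S : ℕ} {f : (ι → Bool) → ℝ} (hη : 0 < η) (hη' : η < 1)
    (hB : 1 ≤ B) (hC : 1 ≤ C) (hv : 0 ≤ v) (h : LocBd B S ((1 + η) / η) C v f) :
    avg f ≤ B ^ (η * S) * v * C := by
  obtain ⟨K, _, s, A, X, u, G, hS, hA, hX, hT, hG, hf, hM, hu⟩ := h
  refine (decouple_upperG s hη hη' hB hC hA hX hT hG hf hM).trans ?_
  have h1 : (B ^ η) ^ s.card ≤ B ^ (η * S) := by
    rw [← Real.rpow_natCast, ← Real.rpow_mul (by linarith)]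
    apply Real.rpow_le_rpow_of_exponent_le hB
    exact mul_le_mul_of_nonneg_left (by exact_mod_cast hS) hη.le
  have h2 : (B ^ η) ^ s.card * ∏ k ∈ s, u k ≤ B ^ (η * S) * v := by
    refine (mul_le_mul_of_nonneg_left hu (by positivity)).trans ?_
    exact mul_le_mul_of_nonneg_right h1 hv
  exact mul_le_mul_of_nonneg_right h2 (by linarith)

lemma LocBd.mono_v {B q C v w : ℝ} {S : ℕ} {f : (ι → Bool) → ℝ} (h : LocBd B S q C v f)
    (hvw : v ≤ w) : LocBd B S q C w f := by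
  obtain ⟨K, i, s, A, X, u, G, hS, hA, hX, hT, hG, hf, hM, hu⟩ := h
  exact ⟨K, i, s, A, X, u, G, hS, hA, hX, hT, hG, hf, hM, hu.trans hvw⟩

end upper

/-- the geometric factor of the screened charge at `y`: `d ^ (-1/3)`, `d` the distance to the special
point `c`, times `|y - a| ^ (-1/3)` for every mark `a`, all distances cut at `n` -/
noncomputable def geo {κ P : Type*} (n : ℕ) (M : Finset κ) (δ : κ → P → ℕ) (c : κ) (y : P) : ℝ :=
  ((min n (δ c y) : ℕ) : ℝ) ^ (-(1 / 3 : ℝ)) * ∏ a ∈ M, ((min n (δ a y) : ℕ) : ℝ) ^ (-(1 / 3 : ℝ))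

lemma geo_nonneg {κ P : Type*} (n : ℕ) (M : Finset κ) (δ : κ → P → ℕ) (c : κ) (y : P) :
    0 ≤ geo n M δ c y :=
  mul_nonneg (Real.rpow_nonneg (Nat.cast_nonneg _) _)
    (prod_nonneg fun _ _ => Real.rpow_nonneg (Nat.cast_nonneg _) _)

/-- the exponent of the Hölder inequality: it depends only on `ε`, the exponent `A` of the crude moment
bounds and the number `S` of the local factors -/
noncomputable def eta (ε A : ℝ) (S : ℕ) : ℝ := min (1 / 2) (ε / (3 * (A * S + 1)))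

noncomputable def qexp (ε A : ℝ) (S : ℕ) : ℝ := (1 + eta ε A S) / eta ε A S

lemma eta_pos {ε A : ℝ} (hε : 0 < ε) (hA : 0 ≤ A) (S : ℕ) : 0 < eta ε A S := by
  unfold eta
  exact lt_min (by norm_num) (by positivity)

lemma eta_lt_one (ε A : ℝ) (S : ℕ) : eta ε A S < 1 :=
  (min_le_left _ _).trans_lt (by norm_num)

lemma eta_mul_le {ε A : ℝ} (hε : 0 < ε) (hA : 0 ≤ A) (S : ℕ) : A * (eta ε A S * S) ≤ ε / 3 := by
  have h1 : eta ε A S ≤ ε / (3 * (A * S + 1)) := min_le_right _ _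
  have h2 : 0 ≤ A * S := by positivity
  have h3 : A * (eta ε A S * S) = (A * S) * eta ε A S := by ring
  rw [h3]
  calc (A * S) * eta ε A S ≤ (A * S) * (ε / (3 * (A * S + 1))) := mul_le_mul_of_nonneg_left h1 h2
    _ ≤ ε / 3 := by
        rw [mul_div_assoc', div_le_div_iff₀ (by positivity) (by norm_num)]
        nlinarith

lemma one_le_qexp {ε A : ℝ} (hε : 0 < ε) (hA : 0 ≤ A) (S : ℕ) : 1 ≤ qexp ε A S := by
  have h := eta_pos hε hA S
  rw [qexp, le_div_iff₀ h]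
  linarith

/-- one term -/
theorem avg_le_of_locBd {ι : Type*} [Fintype ι] [DecidableEq ι] {ε A : ℝ} (hε : 0 < ε) (hA : 0 ≤ A)
    (S : ℕ) {n : ℕ} (hn : 1 ≤ n) {C1 v : ℝ} (hC1 : 1 ≤ C1) (hv : 0 ≤ v) {f : (ι → Bool) → ℝ}
    (h : LocBd ((n : ℝ) ^ A) S (qexp ε A S) (C1 * (n : ℝ) ^ (ε / 3)) v f) :
    avg f ≤ C1 * (n : ℝ) ^ (2 * (ε / 3)) * v := by
  have hn1 : (1 : ℝ) ≤ n := by exact_mod_cast hn
  have hn0 : (0 : ℝ) < n := by linarith
  have hpw : ∀ t : ℝ, 0 ≤ t → (1 : ℝ) ≤ (n : ℝ) ^ t := fun t ht => Real.one_le_rpow hn1 ht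
  have h1 := LocBd.avg_le (eta_pos hε hA S) (eta_lt_one ε A S) (hpw A hA)
    (one_le_mul_of_one_le_of_one_le hC1 (hpw _ (by positivity))) hv h
  refine h1.trans ?_
  have h2 : ((n : ℝ) ^ A) ^ (eta ε A S * S) ≤ (n : ℝ) ^ (ε / 3) := by
    rw [← Real.rpow_mul hn0.le]
    exact Real.rpow_le_rpow_of_exponent_le hn1 (eta_mul_le hε hA S)
  calc ((n : ℝ) ^ A) ^ (eta ε A S * S) * v * (C1 * (n : ℝ) ^ (ε / 3))
      ≤ (n : ℝ) ^ (ε / 3) * v * (C1 * (n : ℝ) ^ (ε / 3)) := by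
        apply mul_le_mul_of_nonneg_right _ (by positivity)
        exact mul_le_mul_of_nonneg_right h2 hv
    _ = C1 * ((n : ℝ) ^ (ε / 3) * (n : ℝ) ^ (ε / 3)) * v := by ring
    _ = C1 * (n : ℝ) ^ (2 * (ε / 3)) * v := by
        rw [← Real.rpow_add hn0]
        congr 3
        ring

/-- **the sum over the positions of the screened charge.**  All constants are independent of `n`. -/
theorem sum_locBd_le {ε A : ℝ} (hε : 0 < ε) (hA : 0 ≤ A) (S : ℕ) {ι : Type*} [Fintype ι]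
    [DecidableEq ι] {P κ : Type*} [DecidableEq κ] (Y : Finset P) (Sp M : Finset κ) (δ : κ → P → ℕ)
    {n : ℕ} (hn : 1 ≤ n) {C0 C1 C2 θ : ℝ} (hθ : 0 < θ) (hθ1 : θ ≤ 1) (hC1 : 1 ≤ C1) (hC2 : 0 ≤ C2)
    (hδ : ∀ c ∈ Sp ∪ M, ∀ y ∈ Y, 1 ≤ δ c y) (hcard : (Y.card : ℝ) ≤ C0 * n)
    (hcount : ∀ c ∈ Sp, ∀ r : ℕ, 1 ≤ r → r < n →
      ((Y.filter fun y => δ c y ≤ r).card : ℝ) ≤ C0 * r)
    (hsep : ∀ a ∈ M, ∀ c ∈ Sp, a ≠ c → ∀ y ∈ Y, θ * n ≤ δ a y + δ c y)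
    (f : P → (ι → Bool) → ℝ)
    (hf : ∀ y ∈ Y, ∃ c ∈ Sp, (∀ a ∈ M, δ c y ≤ δ a y) ∧
      LocBd ((n : ℝ) ^ A) S (qexp ε A S) (C1 * (n : ℝ) ^ (ε / 3))
        (C2 * (n : ℝ) ^ (ε / 3) * geo n M δ c y) (f y)) :
    ∑ y ∈ Y, avg (f y) ≤ C1 * C2 * (Sp.card * (3 * C0 * (2 / θ) ^ ((M.card : ℝ) / 3)))
      * (n : ℝ) ^ ((2 - (M.card : ℝ)) / 3 + ε) := by
  have hn1 : (1 : ℝ) ≤ n := by exact_mod_cast hn
  have hn0 : (0 : ℝ) < n := by linarith
  have hg := sum_special_le Y Sp M δ hn (C0 := C0) (η := θ) (B := C1 * C2 * (n : ℝ) ^ ε) hθ hθ1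
    (by positivity) hδ hcard hcount hsep (fun y => avg (f y)) ?_
  · refine hg.trans (le_of_eq ?_)
    rw [Real.rpow_add hn0]
    ring
  · intro y hy
    obtain ⟨c, hc, h1, h2⟩ := hf y hy
    refine ⟨c, hc, h1, ?_⟩
    have hg0 := geo_nonneg n M δ c y
    refine (avg_le_of_locBd hε hA S hn hC1 (by positivity) h2).trans (le_of_eq ?_)
    show C1 * (n : ℝ) ^ (2 * (ε / 3)) * (C2 * (n : ℝ) ^ (ε / 3) * geo n M δ c y) =
      C1 * C2 * (n : ℝ) ^ ε * geo n M δ c y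
    rw [show C1 * (n : ℝ) ^ (2 * (ε / 3)) * (C2 * (n : ℝ) ^ (ε / 3) * geo n M δ c y) =
      C1 * C2 * ((n : ℝ) ^ (2 * (ε / 3)) * (n : ℝ) ^ (ε / 3)) * geo n M δ c y by ring,
      ← Real.rpow_add hn0]
    congr 3
    ring

end Full.Norm
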