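import Pool.Agent.Full.Norm.QChart
import Pool.Agent.Full.Ket.Window
import Pool.Agent.Full.X3.Hol
import Pool.Agent.Full.X3.Tr

/-!
# The holonomy of a strand in a chart

A strand of the surface whose two ends are real wall ends of a chart, and which is seen in the chart, has
the holonomy `2 K turning + ψ (end) - ψ (start)`, where `ψ = φ + θ` are the phases in the gauge `θ` of the
chart.
-/

set_option autoImplicit false
set_option linter.unusedSectionVars false

namespace Full.Norm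
open Finset Function Full.X3

section strn
variable {τ : Type*} [DecidableEq τ]

/-- the turning of a piece of a walk -/
def strn (ω : Finset τ) (g : Half τ → Half τ) (n : ℕ) (x : Half τ) : ℤ :=
  ∑ k ∈ range n, tr ω (mate ω ((g ∘ mate ω)^[k] x))

/-- the holonomy of a walk along which the phases `φ + θ` match -/
lemma holn_pot {K : ℝ} {φ : Half τ → ℝ} {θ : τ → ℝ} {ω : Finset τ} {g : Half τ → Half τ}
    {x : Half τ} {n : ℕ}
    (h : ∀ k < n, φ (g (mate ω ((g ∘ mate ω)^[k] x))) + θ (g (mate ω ((g ∘ mate ω)^[k] x))).1 =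
      φ (mate ω ((g ∘ mate ω)^[k] x)) + θ (mate ω ((g ∘ mate ω)^[k] x)).1) :
    holn K φ g ω n x = 2 * K * (strn ω g n x : ℤ) +
      ((φ ((g ∘ mate ω)^[n] x) + θ ((g ∘ mate ω)^[n] x).1) - (φ x + θ x.1)) := by
  induction n with
  | zero => simp [holn, strn]
  | succ n ih =>
    have h1 := h n (by omega)
    have h2 := ih fun k hk => h k (by omega)
    unfold holn strn at h2 ⊢
    rw [sum_range_succ, h2, sum_range_succ, iterate_succ_apply', comp_apply, h1]
    have h3 : (mate ω ((g ∘ mate ω)^[n] x)).1 = ((g ∘ mate ω)^[n] x).1 := rfl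
    unfold hstep
    rw [h3]
    push_cast
    ring

end strn

namespace QChart
variable {τ : Type*} {T : Finset τ} {g : Half τ → Half τ} {w : ℕ} (c : QChart T g w)

/-- a real wall end of the chart -/
def Real (x : Half (ℤ × ℤ)) : Prop :=
  x.1 ∈ c.W ∧ x.1 + x.2.vec ∈ sqr w ∧ ¬ QSet c.v c.Q (x.1 + x.2.vec)

/-- the gluing of the region of the chart -/
noncomputable def pg : Half (ℤ × ℤ) → Half (ℤ × ℤ) := plane.glue c.W

lemma glu_pg : Glu c.W c.pg := plane.glu c.W

variable {c}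

lemma Real.bd {x : Half (ℤ × ℤ)} (h : c.Real x) : Bd c.W c.pg x := by
  refine ⟨h.1, ?_⟩
  obtain ⟨t, d⟩ := x
  unfold pg
  rw [plane_glue, if_neg]
  rintro ⟨-, h2⟩
  exact h.2.2 (c.mem_W.1 h2).2

lemma Real.bdT {x : Half (ℤ × ℤ)} (h : c.Real x) : Bd T g (c.im x) :=
  ⟨c.mem _ h.1, c.wall _ h.1 _ h.2.1 h.2.2⟩

variable (c)

/-- the chart as a window -/
lemma win : Full.Win T g c.W c.φ (Equiv.refl Dir) false where
  mem := fun t ht => c.mem t ht
  inj := fun t ht t' ht' he => c.inj t ht t' ht' he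
  link := fun t ht d hd => c.glue t ht d hd
  bit := fun b d => by
    simp only [Bool.false_xor, Equiv.refl_apply]

variable {c}
variable [DecidableEq τ] {ω : Finset τ}

variable (c) in
/-- the configuration seen in the chart -/
noncomputable def pl (ω : Finset τ) : Finset (ℤ × ℤ) := pull c.W c.φ false ω

lemma mate_im {x : Half (ℤ × ℤ)} (hx : x.1 ∈ c.W) :
    mate ω (c.im x) = c.im (mate (c.pl ω) x) := c.win.mate_im hx

lemma decide_pl {t : ℤ × ℤ} (ht : t ∈ c.W) : decide (t ∈ c.pl ω) = decide (c.φ t ∈ ω) := by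
  unfold pl
  rw [decide_pull ht, Bool.false_xor]

lemma tr_im {x : Half (ℤ × ℤ)} (hx : x.1 ∈ c.W) : tr ω (c.im x) = tr (c.pl ω) x := by
  unfold tr im
  simp only
  rw [decide_pl hx]

lemma glue_im {x : Half (ℤ × ℤ)} (hx : c.pg x ≠ x) : g (c.im x) = c.im (c.pg x) :=
  c.win.glue_im hx

/-- transport of the strand of a half edge all whose ends are fixed by `g` -/
lemma tr_conn {x : Half (ℤ × ℤ)} (hx : x.1 ∈ c.W)
    (h : ∀ z, Conn (mate (c.pl ω)) c.pg x z → c.pg z = z → g (c.im z) = c.im z) :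
    Tr (mate ω) g (mate (c.pl ω)) c.pg c.im {z | Conn (mate (c.pl ω)) c.pg x z} where
  inj := fun y hy z hz he =>
    c.win.im_inj (c.glu_pg.conn_mem hy hx) (c.glu_pg.conn_mem hz hx) he
  ms := fun y hy => Conn.trans hy (Conn.m_step _)
  gs := fun y hy => Conn.trans hy (Conn.g_step _)
  hm := fun y hy => mate_im (c.glu_pg.conn_mem hy hx)
  hg := fun y hy => by
    by_cases h1 : c.pg y = y
    · rw [h y hy h1, h1]
    · exact glue_im h1

/-- transport of a strand with real ends -/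
lemma tr_real {x : Half (ℤ × ℤ)} (hx : c.Real x) (hx' : c.Real (other (mate (c.pl ω)) c.pg x)) :
    Tr (mate ω) g (mate (c.pl ω)) c.pg c.im {z | Conn (mate (c.pl ω)) c.pg x z} := by
  refine tr_conn hx.1 fun z hz h1 => ?_
  rcases (c.glu_pg.conn_iff hx.bd ⟨c.glu_pg.conn_mem hz hx.1, h1⟩).1 hz with h2 | h2
  · rw [h2]; exact hx.bdT.2
  · rw [h2]; exact hx'.bdT.2

/-- the strand with real ends in the surface -/
lemma other_im {x : Half (ℤ × ℤ)} (hx : c.Real x) (hx' : c.Real (other (mate (c.pl ω)) c.pg x)) :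
    other (mate ω) g (c.im x) = c.im (other (mate (c.pl ω)) c.pg x) :=
  (tr_real hx hx').other_eq (Conn.refl x)

variable (c) in
/-- `θ` is a gauge of the chart in which the phases of glued half edges agree -/
def Gauge (φ : Half τ → ℝ) (θ : ℤ × ℤ → ℝ) : Prop :=
  ∀ t ∈ c.W, ∀ d : Dir, t + d.vec ∈ c.W →
    φ (c.im (t + d.vec, d.opp)) + θ (t + d.vec) = φ (c.im (t, d)) + θ t

variable (c) in
/-- the phases in the gauge `θ` -/
def gph (φ : Half τ → ℝ) (θ : ℤ × ℤ → ℝ) (x : Half (ℤ × ℤ)) : ℝ := φ (c.im x) + θ x.1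

lemma Gauge.pg {φ : Half τ → ℝ} {θ : ℤ × ℤ → ℝ} (h : c.Gauge φ θ) (x : Half (ℤ × ℤ)) :
    φ (c.im (c.pg x)) + θ (c.pg x).1 = φ (c.im x) + θ x.1 := by
  obtain ⟨t, d⟩ := x
  unfold QChart.pg
  rw [plane_glue]
  split_ifs with h1
  · exact h t h1.1 d h1.2
  · rfl

lemma holn_im {x : Half (ℤ × ℤ)} (hx : x.1 ∈ c.W)
    (h : Tr (mate ω) g (mate (c.pl ω)) c.pg c.im {z | Conn (mate (c.pl ω)) c.pg x z})
    (K : ℝ) (φ : Half τ → ℝ) (n : ℕ) :
    holn K φ g ω n (c.im x) = holn K (fun z => φ (c.im z)) c.pg (c.pl ω) n x := by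
  unfold holn
  refine sum_congr rfl fun k _ => ?_
  have h1 : (c.pg ∘ mate (c.pl ω))^[k] x ∈ {z | Conn (mate (c.pl ω)) c.pg x z} :=
    Conn.iter k x
  have h2 : ((c.pg ∘ mate (c.pl ω))^[k] x).1 ∈ c.W := c.glu_pg.conn_mem h1 hx
  rw [h.iter (Conn.refl x)]
  unfold hstep
  have h3 : (mate (c.pl ω) ((c.pg ∘ mate (c.pl ω))^[k] x)).1 ∈ c.W := h2
  rw [mate_im h2, tr_im h3]

/-- **the holonomy of a strand with real ends in a chart** -/
theorem hol_real {K : ℝ} {φ : Half τ → ℝ} {θ : ℤ × ℤ → ℝ} (hθ : c.Gauge φ θ)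
    {x : Half (ℤ × ℤ)} (hx : c.Real x) (hx' : c.Real (other (mate (c.pl ω)) c.pg x)) :
    X3.hol K φ g ω (c.im x) =
      2 * K * (strn (c.pl ω) c.pg (hl (mate (c.pl ω)) c.pg x) x : ℤ) +
        (c.gph φ θ (other (mate (c.pl ω)) c.pg x) - c.gph φ θ x) := by
  have h := tr_real hx hx'
  unfold X3.hol
  rw [holn_im hx.1 h, h.hl_eq (Conn.refl x), holn_pot (θ := θ) fun k _ => hθ.pg _]
  rfl

/-- the holonomy of a loop in a chart -/
theorem holn_loop {K : ℝ} {φ : Half τ → ℝ} {θ : ℤ × ℤ → ℝ} (hθ : c.Gauge φ θ)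
    {x : Half (ℤ × ℤ)} (hx : x.1 ∈ c.W)
    (h : ∀ z, Conn (mate (c.pl ω)) c.pg x z → c.pg z ≠ z) :
    holn K φ g ω (minimalPeriod (g ∘ mate ω) (c.im x)) (c.im x) =
      2 * K * (strn (c.pl ω) c.pg (minimalPeriod (c.pg ∘ mate (c.pl ω)) x) x : ℤ) := by
  have h1 := tr_conn hx (c := c) (ω := ω) fun z hz h1 => absurd h1 (h z hz)
  rw [holn_im hx h1, h1.period (Conn.refl x), holn_pot (θ := θ) fun k _ => hθ.pg _,
    iterate_minimalPeriod, sub_self, add_zero]

end QChart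

end Full.Norm
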