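import Pool.Agent.Full.Norm.Reflex
import Pool.Agent.Full.Norm.Main
import Pool.Agent.Full.Norm.QShape
import Pool.Agent.Full.Norm.Weight
import Pool.Agent.Full.Corner.Orient
import Pool.Agent.Full.Walk.RswIn
import Pool.Agent.Full.Ket.WinProb

/-!
# The local factors of the corners

`LocUpE B u W X`: the factor `X` of the configuration in `W` has mean at most `u` and is admissible for
the decoupling with the constant `B` (`LocUpE.locUp`, `LocUpE.pull'`: the form `LocUp` of the bits of a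
region which contains the window, resp. of a surface with a chart).

* `cornC`: the factor `2/√3` of a convex corner, on an arbitrary part `A` of the window and between
  arbitrary parts of the two walls: mean at most `cvx m`;
* `cornR`: the factor `1/√3` of a reflex corner on the window without a hole around a wall end `y`: mean
  at most `C m ^ ε rflx m`.
-/

set_option autoImplicit false
set_option linter.unusedSectionVars false

namespace Full.Norm
open Function Relation Finset Full Full.Corner Full.Macro Full.Mom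
open Full.Perc (Ex Ex_mono Ex_congr Ex_nonneg)
open Full.Walk (bx RswQ ofBits Ex_eq_avg)

/-! ### local factors -/

section locup
variable {E : Type*} [DecidableEq E]

/-- local factors with given upper bounds of the means, for uniform subsets -/
def LocUpE (B u : ℝ) (W : Finset E) (X : Finset E → ℝ) : Prop :=
  ((∀ S, 1 ≤ X S) ∧ Ex W (fun S => X S ^ (2 : ℝ)) ≤ B ∧ Ex W X ≤ u) ∨
    ((∀ S, 0 ≤ X S ∧ X S ≤ 1) ∧ Ex W X ≤ u ∧ 1 ≤ B * u)

variable {W T : Finset E} {X : Finset E → ℝ} {B u : ℝ}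

lemma LocUpE.nonneg (h : LocUpE B u W X) (S : Finset E) : 0 ≤ X S := by
  rcases h with h | h
  · exact zero_le_one.trans (h.1 S)
  · exact (h.1 S).1

lemma LocUpE.mean_le (h : LocUpE B u W X) : Ex W X ≤ u := by
  rcases h with h | h
  · exact h.2.2
  · exact h.2.1

lemma LocUpE.u_nonneg (h : LocUpE B u W X) : 0 ≤ u :=
  (Ex_nonneg fun S _ => h.nonneg S).trans h.mean_le

lemma LocUpE.mono {B' u' : ℝ} (h : LocUpE B u W X) (hB0 : 0 ≤ B) (hB : B ≤ B') (hu : u ≤ u') :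
    LocUpE B' u' W X := by
  have h0 := h.u_nonneg
  rcases h with h | h
  · exact Or.inl ⟨h.1, h.2.1.trans hB, h.2.2.trans hu⟩
  · refine Or.inr ⟨h.1, h.2.1.trans hu, h.2.2.trans ?_⟩
    exact mul_le_mul hB hu h0 (hB0.trans hB)

/-- a tame factor with an upper bound of its mean -/
lemma LocUpE.of_tameE (h : TameE B W X) (hB : 0 ≤ B) (hu : Ex W X ≤ u) : LocUpE B u W X := by
  rcases h with h | h
  · exact Or.inl ⟨h.1, h.2, hu⟩
  · exact Or.inr ⟨h.1, hu, h.2.trans (mul_le_mul_of_nonneg_left hu hB)⟩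

/-- a factor at most one with an upper bound of its mean -/
lemma LocUpE.of_le_one (h : ∀ S, 0 ≤ X S ∧ X S ≤ 1) (hu : Ex W X ≤ u) (hB : 1 ≤ B * u) :
    LocUpE B u W X := Or.inr ⟨h, hu, hB⟩

/-- the form of the bits of a larger set -/
theorem LocUpE.locUp (h : LocUpE B u W X) (hWT : W ⊆ T) (hX : ∀ S, X (S ∩ W) = X S) :
    LocUp B u (fun ω : T → Bool => X (ofBits T ω)) := by
  have e1 : avg (fun ω : T → Bool => X (ofBits T ω)) = Ex W X := by
    rw [← Ex_eq_avg T X, Ex_local hWT hX]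
  rcases h with ⟨h1, h2, h3⟩ | ⟨h1, h2, h3⟩
  · left
    refine ⟨fun ω => h1 _, ?_, ?_⟩
    · rw [← Ex_eq_avg T (fun S => X S ^ (2 : ℝ)), Ex_local hWT (fun S => by rw [hX])]
      exact h2
    · rw [e1]; exact h3
  · right
    refine ⟨fun ω => h1 _, ?_, h3⟩
    rw [e1]; exact h2

end locup

/-- the form of the bits of a surface with a chart -/
theorem LocUpE.pull' {τ : Type*} [DecidableEq τ] {T : Finset τ} {A : Finset (ℤ × ℤ)}
    {φ : ℤ × ℤ → τ} {B u : ℝ} {X : Finset (ℤ × ℤ) → ℝ} (h : LocUpE B u A X)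
    (hmem : ∀ t ∈ A, φ t ∈ T) (hinj : Set.InjOn φ A) (σ : Bool) :
    LocUp B u (fun ω : T → Bool => X (pull A φ σ (ofBits T ω))) := by
  rcases h with ⟨h1, h2, h3⟩ | ⟨h1, h2, h3⟩
  · left
    refine ⟨fun ω => h1 _, ?_, ?_⟩
    · rw [avg_pull hmem hinj σ (fun S => X S ^ (2 : ℝ))]
      exact h2
    · rw [avg_pull hmem hinj σ X]; exact h3
  · right
    refine ⟨fun ω => h1 _, ?_, h3⟩
    rw [avg_pull hmem hinj σ X]; exact h2

section pl
variable {τ : Type*} [DecidableEq τ] {T : Finset τ} {g : Half τ → Half τ} {w : ℕ}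
  (c : QChart T g w) {A : Finset (ℤ × ℤ)}

/-- the configuration in a part of a chart -/
lemma pl_inter (hA : A ⊆ c.W) (ω : Finset τ) : c.pl ω ∩ A = pull A c.φ false ω := by
  ext t
  unfold QChart.pl
  rw [mem_inter, mem_pull, mem_pull]
  exact ⟨fun h => ⟨h.2, h.1.2⟩, fun h => ⟨⟨hA h.1, h.2⟩, h.1⟩⟩

lemma local_pl {β : Type*} (hA : A ⊆ c.W) {X : Finset (ℤ × ℤ) → β} (hX : ∀ S, X (S ∩ A) = X S)
    (ω : Finset τ) : X (c.pl ω) = X (pull A c.φ false ω) := by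
  rw [← pl_inter c hA, hX]

/-- a local function of the configuration of a chart depends only on the bits of its region -/
theorem dep_pl {β : Type*} (hA : A ⊆ c.W) {X : Finset (ℤ × ℤ) → β} (hX : ∀ S, X (S ∩ A) = X S) :
    Dep {t : T | ∃ z ∈ A, c.φ z = t} (fun ω : T → Bool => X (c.pl (ofBits T ω))) := by
  have h := dep_pull (T := T) (A := A) (φ := c.φ) false X
  have e : (fun ω : T → Bool => X (c.pl (ofBits T ω))) =
      fun ω : T → Bool => X (pull A c.φ false (ofBits T ω)) :=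
    funext fun ω => local_pl c hA hX _
  rw [e]
  exact h

/-- **a local factor of a chart is a local factor of the surface** -/
theorem LocUpE.pl {B u : ℝ} {X : Finset (ℤ × ℤ) → ℝ} (h : LocUpE B u A X) (hA : A ⊆ c.W)
    (hX : ∀ S, X (S ∩ A) = X S) : LocUp B u (fun ω : T → Bool => X (c.pl (ofBits T ω))) := by
  have h1 := h.pull' (T := T) (φ := c.φ) (fun t ht => c.mem t (hA ht))
    (fun t ht t' ht' he => c.inj t (hA ht) t' (hA ht') he) false
  have e : (fun ω : T → Bool => X (c.pl (ofBits T ω))) =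
      fun ω : T → Bool => X (Full.pull A c.φ false (ofBits T ω)) :=
    funext fun ω => local_pl c hA hX _
  rw [e]
  exact h1

end pl

/-- the constant `C0 m ^ α` is at most a power of `n` for `m ≤ n`, `2 ≤ n` -/
lemma const_le_rpow {C0 α : ℝ} (hC : 1 ≤ C0) (hα : 0 ≤ α) {m n : ℕ} (hmn : m ≤ n)
    (hn : 2 ≤ n) : C0 * (m : ℝ) ^ α ≤ (n : ℝ) ^ (α + Real.logb 2 C0) := by
  have hn0 : (0 : ℝ) < n := by
    have : 0 < n := by omega
    exact_mod_cast this
  have hn2 : (2 : ℝ) ≤ n := by exact_mod_cast hn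
  have hm' : (m : ℝ) ≤ n := by exact_mod_cast hmn
  have hl : 0 ≤ Real.logb 2 C0 := Real.logb_nonneg (by norm_num) hC
  have h1 : C0 ≤ (n : ℝ) ^ Real.logb 2 C0 := by
    calc C0 = (2 : ℝ) ^ Real.logb 2 C0 :=
          (Real.rpow_logb (by norm_num) (by norm_num) (by linarith)).symm
      _ ≤ (n : ℝ) ^ Real.logb 2 C0 := Real.rpow_le_rpow (by norm_num) hn2 hl
  have h2 : (m : ℝ) ^ α ≤ (n : ℝ) ^ α := Real.rpow_le_rpow (Nat.cast_nonneg m) hm' hα
  rw [Real.rpow_add hn0, mul_comm]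
  exact mul_le_mul h2 h1 (by linarith) (by positivity)

/-! ### sets of wall ends -/

lemma pc_symm (T ω : Finset (ℤ × ℤ)) (A B : Set (Half (ℤ × ℤ))) :
    pc T ω A B = pc T ω B A := cnt_symm (plane.glu T) ω A B

/-- only the boundary half edges of the region matter -/
lemma pc_congr_sets {T ω : Finset (ℤ × ℤ)} {A B A' B' : Set (Half (ℤ × ℤ))}
    (hA : ∀ x, Bd T (plane.glue T) x → (x ∈ A ↔ x ∈ A'))
    (hB : ∀ x, Bd T (plane.glue T) x → (x ∈ B ↔ x ∈ B')) : pc T ω A B = pc T ω A' B' := by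
  classical
  unfold pc cnt
  congr 1
  apply filter_congr
  intro x hx
  rw [mem_bdF] at hx
  rw [hA x hx, hB _ ((plane.glu T).other_bd hx)]

/-- the real vertical wall of a convex corner -/
def cVw (a : Bool) (v : ℤ × ℤ) : Set (Half (ℤ × ℤ)) :=
  {x | x.2 = (if a then .W else .E) ∧ x.1.1 = (if a then v.1 else v.1 - 1)}
/-- the real horizontal wall of a convex corner -/
def cHw (b : Bool) (v : ℤ × ℤ) : Set (Half (ℤ × ℤ)) :=
  {x | x.2 = (if b then .S else .N) ∧ x.1.2 = (if b then v.2 else v.2 - 1)}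

/-! ### the convex corner -/

/-- the strands of a part of the window of a convex corner between the real walls -/
theorem pcC_le {a b : Bool} {v : ℤ × ℤ} {m : ℕ} {A : Finset (ℤ × ℤ)} {L R : Set (Half (ℤ × ℤ))}
    (hA : A ⊆ cwin a b v m) (hL : L ⊆ cVw a v) (hR : R ⊆ cHw b v) (ω : Finset (ℤ × ℤ)) :
    pc A ω L R ≤ pc (cwin a b v m) ω (cV a) (cH b) := by
  have h1 : pc A ω L R ≤ pc (cwin a b v m) ω L R := by
    refine pc_lower hA ?_ ?_ ω
    · rintro ⟨⟨i, j⟩, d⟩ h1 h2 -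
      obtain ⟨h3, h4⟩ := hL h2
      simp only at h3 h4
      subst h3
      rw [mem_cwin]
      rintro ⟨-, h5, -⟩
      cases a <;> simp [Dir.vec] at h4 h5 <;> omega
    · rintro ⟨⟨i, j⟩, d⟩ h1 h2 -
      obtain ⟨h3, h4⟩ := hR h2
      simp only at h3 h4
      subst h3
      rw [mem_cwin]
      rintro ⟨-, -, h5⟩
      cases b <;> simp [Dir.vec] at h4 h5 <;> omega
  exact h1.trans (cnt_mono (fun x hx => (hL hx).1) (fun x hx => (hR hx).1))

/-- **the factor of a convex corner** on a part of the window -/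
theorem ExC_le {a b : Bool} {v : ℤ × ℤ} {m : ℕ} {A : Finset (ℤ × ℤ)} {L R : Set (Half (ℤ × ℤ))}
    (hA : A ⊆ cwin a b v m) (hL : L ⊆ cVw a v) (hR : R ⊆ cHw b v) :
    Ex A (fun ω => kap ^ pc A ω L R) ≤ cvx m := by
  rw [← Ex_cwin_kap a b v m, ← Ex_local hA (f := fun ω => kap ^ pc A ω L R)
    (fun S => by rw [pc_inter])]
  exact Ex_mono fun ω _ => pow_le_pow_right₀ one_le_kap (pcC_le hA hL hR ω)

/-- moments of the number of the strands, convex corner -/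
theorem momC_le {a b : Bool} {v : ℤ × ℤ} {m : ℕ} {A : Finset (ℤ × ℤ)} {L R : Set (Half (ℤ × ℤ))}
    (hA : A ⊆ cwin a b v m) (hL : L ⊆ cVw a v) (hR : R ⊆ cHw b v) :
    Ex A (fun ω => (4 / 3 : ℝ) ^ pc A ω L R) ≤
      Ex (Q m) (fun ω => (4 / 3 : ℝ) ^ pc (Q m) ω (dset .W) (dset .S)) := by
  rw [← Ex_cwin a b v m (fun n => (4 / 3 : ℝ) ^ n),
    ← Ex_local hA (f := fun ω => (4 / 3 : ℝ) ^ pc A ω L R) (fun S => by rw [pc_inter])]
  exact Ex_mono fun ω _ => pow_le_pow_right₀ (by norm_num) (pcC_le hA hL hR ω)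

/-! ### the reflex corner -/

/-- the strands of a part of the window of a reflex corner between the real walls -/
theorem pcR_le {a b : Bool} {v : ℤ × ℤ} {m : ℕ} {A : Finset (ℤ × ℤ)} {L R : Set (Half (ℤ × ℤ))}
    (hA : A ⊆ rwin a b v m) (hL : L ⊆ rV a b v) (hR : R ⊆ rH a b v) (ω : Finset (ℤ × ℤ)) :
    pc A ω L R ≤ pc (rwin a b v m) ω (rV a b v) (rH a b v) := by
  have h1 : pc A ω L R ≤ pc (rwin a b v m) ω L R := by
    refine pc_lower hA ?_ ?_ ω
    · rintro ⟨⟨i, j⟩, d⟩ h1 h2 -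
      obtain ⟨h3, h4, h5⟩ := hL h2
      simp only at h3 h4 h5
      subst h3
      rw [mem_rwin, mem_bwin]
      unfold Quad
      cases a
      · simp only [Bool.false_eq_true, if_false, iff_false] at h4 h5 ⊢
        simp only [Dir.vec, Prod.mk_add_mk]
        rintro ⟨h6, h7⟩
        apply h7
        refine ⟨by omega, ?_⟩
        rw [← h5]
        simp only [add_zero]
      · simp only [if_true, iff_true] at h4 h5 ⊢
        simp only [Dir.vec, Prod.mk_add_mk]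
        rintro ⟨h6, h7⟩
        apply h7
        refine ⟨by omega, ?_⟩
        rw [← h5]
        simp only [add_zero]
    · rintro ⟨⟨i, j⟩, d⟩ h1 h2 -
      obtain ⟨h3, h4, h5⟩ := hR h2
      simp only at h3 h4 h5
      subst h3
      rw [mem_rwin, mem_bwin]
      unfold Quad
      cases b
      · simp only [Bool.false_eq_true, if_false, iff_false] at h4 h5 ⊢
        simp only [Dir.vec, Prod.mk_add_mk]
        rintro ⟨h6, h7⟩
        apply h7
        refine ⟨?_, by omega⟩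
        rw [← h5]
        simp only [add_zero]
      · simp only [if_true, iff_true] at h4 h5 ⊢
        simp only [Dir.vec, Prod.mk_add_mk]
        rintro ⟨h6, h7⟩
        apply h7
        refine ⟨?_, by omega⟩
        rw [← h5]
        simp only [add_zero]
  exact h1.trans (cnt_mono hL hR)

/-- moments of the number of the strands, reflex corner -/
theorem momR_le {a b : Bool} {v : ℤ × ℤ} {m : ℕ} {A : Finset (ℤ × ℤ)} {L R : Set (Half (ℤ × ℤ))}
    (hA : A ⊆ rwin a b v m) (hL : L ⊆ rV a b v) (hR : R ⊆ rH a b v) :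
    Ex A (fun ω => (4 / 3 : ℝ) ^ pc A ω L R) ≤
      Ex (Lw m) (fun ω => (4 / 3 : ℝ) ^ pc (Lw m) ω RA RB) := by
  rw [← Ex_rwin a b v m (fun n => (4 / 3 : ℝ) ^ n),
    ← Ex_local hA (f := fun ω => (4 / 3 : ℝ) ^ pc A ω L R) (fun S => by rw [pc_inter])]
  exact Ex_mono fun ω _ => pow_le_pow_right₀ (by norm_num) (pcR_le hA hL hR ω)

/-- the average over a part of the window of a reflex corner -/
theorem Ex_rwin_part (a b : Bool) (v : ℤ × ℤ) (A0 : Finset (ℤ × ℤ)) (F : ℕ → ℝ) :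
    Ex (A0.image (isoC a b v).φ)
        (fun ω => F (pc (A0.image (isoC a b v).φ) ω (rV a b v) (rH a b v))) =
      Ex A0 (fun ω => F (pc A0 ω RA RB)) := by
  refine Ex_pc (isoC a b v) A0 ?_ ?_ F
  · rintro ⟨⟨i, j⟩, d⟩ -
    cases a <;> cases b <;> cases d <;>
      simp [isoC, Corner.trans, reflX, reflY, reflXY, rV, RA, Dir.opp] <;> omega
  · rintro ⟨⟨i, j⟩, d⟩ -
    cases a <;> cases b <;> cases d <;>
      simp [isoC, Corner.trans, reflX, reflY, reflXY, rH, RB, Dir.opp] <;> omega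

/-- the place in the model window -/
def invC (a b : Bool) (v t : ℤ × ℤ) : ℤ × ℤ :=
  (if a then t.1 - v.1 else v.1 - 1 - t.1, if b then t.2 - v.2 else v.2 - 1 - t.2)

lemma isoC_invC (a b : Bool) (v t : ℤ × ℤ) : (isoC a b v).φ (invC a b v t) = t := by
  cases a <;> cases b <;> simp [isoC, invC, Corner.trans, reflX, reflY, reflXY]

lemma invC_isoC (a b : Bool) (v t : ℤ × ℤ) : invC a b v ((isoC a b v).φ t) = t :=
  (isoC a b v).inj _ _ (isoC_invC a b v _)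

/-- **the factor of a reflex corner with a hole around a wall end `y`** -/
theorem ExR_hole {ε : ℝ} (hε : 0 < ε) : ∃ C : ℝ, 1 ≤ C ∧ ∀ (a b : Bool) (v : ℤ × ℤ) (m r : ℕ)
    (y : Half (ℤ × ℤ)) (A : Finset (ℤ × ℤ)), 1 ≤ m → (y ∈ rV a b v ∨ y ∈ rH a b v) →
    (2 * (r : ℤ) + 1 < |y.1.1 - v.1| ∨ 2 * (r : ℤ) + 1 < |y.1.2 - v.2|) → A ⊆ rwin a b v m →
    (∀ t ∈ rwin a b v m, t ∉ A → |t.1 - y.1.1| < r ∧ |t.2 - y.1.2| < r) →
    Ex A (fun ω => rh ^ pc A ω (rV a b v) (rH a b v)) ≤ C * (m : ℝ) ^ ε * rflx m := by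
  obtain ⟨q, hq⟩ := Full.Walk.exists_q
  obtain ⟨C, hC1, hC⟩ := reflex_hole hq (cornerMoments' hq) hε
  refine ⟨C, hC1, ?_⟩
  intro a b v m r y A hm hy hd hA hin
  classical
  set A0 : Finset (ℤ × ℤ) := (Lw m).filter fun t => (isoC a b v).φ t ∈ A with hA0
  have hAe : A0.image (isoC a b v).φ = A := by
    ext t
    rw [mem_image]
    constructor
    · rintro ⟨u, hu, rfl⟩
      exact (mem_filter.1 hu).2
    · intro ht
      have h1 := hA ht
      rw [rwin_eq, mem_image] at h1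
      obtain ⟨u, hu, rfl⟩ := h1
      exact ⟨u, mem_filter.2 ⟨hu, ht⟩, rfl⟩
  have h1 := hC m r (invC a b v y.1) A0 hm ?_ (filter_subset _ _) ?_
  · have h2 := Ex_rwin_part a b v A0 (fun n => rh ^ n)
    rw [hAe] at h2
    rw [h2]
    exact h1
  · -- the place of `y`
    obtain ⟨⟨i, j⟩, d⟩ := y
    obtain ⟨v1, v2⟩ := v
    simp only [rV, rH, Set.mem_ofPred_eq] at hy
    simp only at hd
    have hi := abs_cases (i - v1)
    have hj := abs_cases (j - v2)
    unfold invC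
    cases a <;> cases b <;> simp at hy ⊢ <;> omega
  · intro t ht hA'
    have h3 : (isoC a b v).φ t ∈ rwin a b v m := by
      rw [rwin_eq]
      exact mem_image_of_mem _ ht
    have h4 : (isoC a b v).φ t ∉ A := fun h => hA' (mem_filter.2 ⟨ht, h⟩)
    obtain ⟨h5, h6⟩ := hin _ h3 h4
    obtain ⟨i, j⟩ := t
    rw [abs_lt] at h5 h6
    unfold bx invC
    cases a <;> cases b <;> simp [isoC, Corner.trans, reflX, reflY, reflXY] at h5 h6 ⊢ <;> omega

/-! ### uniform constants -/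

/-- **the factor of a convex corner is a local factor** -/
theorem cornC : ∃ α C0 : ℝ, 0 ≤ α ∧ 1 ≤ C0 ∧ ∀ (a b : Bool) (v : ℤ × ℤ) (m : ℕ)
    (A : Finset (ℤ × ℤ)) (L R : Set (Half (ℤ × ℤ))), 1 ≤ m → A ⊆ cwin a b v m → L ⊆ cVw a v →
    R ⊆ cHw b v → LocUpE (C0 * (m : ℝ) ^ α) (cvx m) A (fun ω => kap ^ pc A ω L R) := by
  obtain ⟨q, hq⟩ := Full.Walk.exists_q
  obtain ⟨α, C0, hα, hC0, h⟩ := cornerMoments' hq
  refine ⟨α * 2, C0 ^ 2, by positivity, one_le_pow₀ hC0, ?_⟩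
  intro a b v m A L R hm hA hL hR
  have hm' : (1 : ℝ) ≤ m := by exact_mod_cast hm
  have hB1 : 1 ≤ C0 * (m : ℝ) ^ α :=
    one_le_mul_of_one_le_of_one_le hC0 (Real.one_le_rpow hm' hα)
  have h1 := tameE_convex hB1 ((momC_le hA hL hR).trans (h m hm).1)
  have e : (C0 * (m : ℝ) ^ α) ^ 2 = C0 ^ 2 * (m : ℝ) ^ (α * 2) := by
    rw [mul_pow, ← Real.rpow_natCast ((m : ℝ) ^ α), ← Real.rpow_mul (by linarith)]
    norm_num
  rw [e] at h1
  exact LocUpE.of_tameE h1 (by positivity) (ExC_le hA hL hR)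

/-- **the factor of a reflex corner is a local factor**; the exponent `α` does not depend on `ε` -/
theorem cornR : ∃ α C0 : ℝ, 0 ≤ α ∧ 1 ≤ C0 ∧ ∀ ε : ℝ, 0 < ε → ∃ C : ℝ, 1 ≤ C ∧
    ∀ (a b : Bool) (v : ℤ × ℤ) (m : ℕ) (A : Finset (ℤ × ℤ)), 1 ≤ m → A ⊆ rwin a b v m →
    (A = rwin a b v m ∨ ∃ (r : ℕ) (y : Half (ℤ × ℤ)), (y ∈ rV a b v ∨ y ∈ rH a b v) ∧
      (2 * (r : ℤ) + 1 < |y.1.1 - v.1| ∨ 2 * (r : ℤ) + 1 < |y.1.2 - v.2|) ∧
      ∀ t ∈ rwin a b v m, t ∉ A → |t.1 - y.1.1| < r ∧ |t.2 - y.1.2| < r) →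
    LocUpE (C0 * (m : ℝ) ^ α) (C * (m : ℝ) ^ ε * rflx m) A
      (fun ω => rh ^ pc A ω (rV a b v) (rH a b v)) := by
  obtain ⟨q, hq⟩ := Full.Walk.exists_q
  obtain ⟨α, C0, hα, hC0, h⟩ := cornerMoments' hq
  refine ⟨α * 2, C0 ^ 2, by positivity, one_le_pow₀ hC0, ?_⟩
  intro ε hε
  obtain ⟨C, hC1, hC⟩ := ExR_hole hε
  refine ⟨C, hC1, ?_⟩
  intro a b v m A hm hA hhole
  have hm' : (1 : ℝ) ≤ m := by exact_mod_cast hm
  have hB1 : 1 ≤ C0 * (m : ℝ) ^ α :=
    one_le_mul_of_one_le_of_one_le hC0 (Real.one_le_rpow hm' hα)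
  have h1 : TameE ((C0 * (m : ℝ) ^ α) ^ 2) A (fun ω => rh ^ pc A ω (rV a b v) (rH a b v)) :=
    tameE_reflex hB1 ((momR_le hA (subset_refl _) (subset_refl _)).trans (h m hm).2)
  have e : (C0 * (m : ℝ) ^ α) ^ 2 = C0 ^ 2 * (m : ℝ) ^ (α * 2) := by
    rw [mul_pow, ← Real.rpow_natCast ((m : ℝ) ^ α), ← Real.rpow_mul (by linarith)]
    norm_num
  rw [e] at h1
  refine LocUpE.of_tameE h1 (by positivity) ?_
  rcases hhole with rfl | ⟨r, y, hy, hd, hin⟩
  · rw [Ex_rwin_rh]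
    have h3 : 1 ≤ C * (m : ℝ) ^ ε :=
      one_le_mul_of_one_le_of_one_le hC1 (Real.one_le_rpow hm' hε.le)
    exact le_mul_of_one_le_left (rflx_nonneg m) h3
  · exact hC a b v m r y A hm hy hd hA hin

/-! ### the corners of the charts -/

/-- the real wall ends before the vertex -/
def wL (v : ℤ × ℤ) (Q : Bool → Bool → Bool) (w : ℕ) : Set (Half (ℤ × ℤ)) :=
  {x | Real v Q w x ∧ ps v x < 0}

/-- the real wall ends after the vertex -/
def wR (v : ℤ × ℤ) (Q : Bool → Bool → Bool) (w : ℕ) : Set (Half (ℤ × ℤ)) :=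
  {x | Real v Q w x ∧ 0 ≤ ps v x}

lemma QSet_one {Q : Bool → Bool → Bool} {a b : Bool} (h : ∀ x y, Q x y = true ↔ x = a ∧ y = b)
    {v t : ℤ × ℤ} : QSet v Q t ↔ Quad a b v t := by
  unfold QSet Quad
  rw [h]
  cases a <;> cases b <;> simp

lemma QSet_three {Q : Bool → Bool → Bool} {a b : Bool}
    (h : ∀ x y, Q x y = true ↔ ¬ (x = a ∧ y = b)) {v t : ℤ × ℤ} :
    QSet v Q t ↔ ¬ Quad a b v t := by
  unfold QSet Quad
  rw [h]
  cases a <;> cases b <;> simp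

lemma real_one_V {v : ℤ × ℤ} {Q : Bool → Bool → Bool} {w : ℕ} {a b : Bool}
    (h : ∀ x y, Q x y = true ↔ x = a ∧ y = b) {x : Half (ℤ × ℤ)} (hx : Real v Q w x)
    (hV : x ∈ cV a) : x ∈ cVw a v := by
  obtain ⟨⟨i, j⟩, d⟩ := x
  obtain ⟨v1, v2⟩ := v
  obtain ⟨h1, -, h3⟩ := hx
  have h1' := (mem_QW.1 h1).2
  rw [QSet_one h] at h1' h3
  refine ⟨hV, ?_⟩
  have hd : d = (if a then Dir.W else Dir.E) := hV
  subst hd
  unfold Quad at h1' h3
  cases a <;> cases b <;> simp [Dir.vec] at h1' h3 ⊢ <;> omega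

lemma real_one_H {v : ℤ × ℤ} {Q : Bool → Bool → Bool} {w : ℕ} {a b : Bool}
    (h : ∀ x y, Q x y = true ↔ x = a ∧ y = b) {x : Half (ℤ × ℤ)} (hx : Real v Q w x)
    (hH : x ∈ cH b) : x ∈ cHw b v := by
  obtain ⟨⟨i, j⟩, d⟩ := x
  obtain ⟨v1, v2⟩ := v
  obtain ⟨h1, -, h3⟩ := hx
  have h1' := (mem_QW.1 h1).2
  rw [QSet_one h] at h1' h3
  refine ⟨hH, ?_⟩
  have hd : d = (if b then Dir.S else Dir.N) := hH
  subst hd
  unfold Quad at h1' h3
  cases a <;> cases b <;> simp [Dir.vec] at h1' h3 ⊢ <;> omega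

/-- **a convex corner in a chart**, any part of the window -/
theorem cornC_chart : ∃ α C0 : ℝ, 0 ≤ α ∧ 1 ≤ C0 ∧ ∀ (Q : Bool → Bool → Bool) (a b : Bool)
    (v : ℤ × ℤ) (w m : ℕ) (A : Finset (ℤ × ℤ)), (∀ x y, Q x y = true ↔ x = a ∧ y = b) → 1 ≤ m →
    A ⊆ QW v Q w → A ⊆ bwin v m →
    LocUpE (C0 * (m : ℝ) ^ α) (cvx m) A (fun ω => kap ^ pc A ω (wL v Q w) (wR v Q w)) := by
  obtain ⟨α, C0, hα, hC0, H⟩ := cornC
  refine ⟨α, C0, hα, hC0, ?_⟩
  intro Q a b v w m A h hm hA hA'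
  have hc : A ⊆ cwin a b v m := fun t ht => by
    rw [mem_cwin]
    exact ⟨hA' ht, (QSet_one h).1 (mem_QW.1 (hA ht)).2⟩
  by_cases hab : a = b
  · refine H a b v m A (wL v Q w) (wR v Q w) hm hc ?_ ?_
    · rintro x ⟨hx, hp⟩
      rcases one_walls h hx with h1 | h1
      · exact real_one_V h hx h1.1
      · exact absurd hab (h1.2.2.1 hp)
    · rintro x ⟨hx, hp⟩
      rcases one_walls h hx with h1 | h1
      · exact absurd (h1.2.2.2 hab) (by omega)
      · exact real_one_H h hx h1.1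
  · have h2 := H a b v m A (wR v Q w) (wL v Q w) hm hc ?_ ?_
    · have e : (fun ω => kap ^ pc A ω (wL v Q w) (wR v Q w)) =
          fun ω => kap ^ pc A ω (wR v Q w) (wL v Q w) := funext fun ω => by rw [pc_symm]
      rw [e]
      exact h2
    · rintro x ⟨hx, hp⟩
      rcases one_walls h hx with h1 | h1
      · exact real_one_V h hx h1.1
      · exact absurd (h1.2.2.2 hab) (by omega)
    · rintro x ⟨hx, hp⟩
      rcases one_walls h hx with h1 | h1
      · exact absurd (h1.2.2.1 hp) hab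
      · exact real_one_H h hx h1.1

/-- the box of radius `m` around `v` is inside the chart of radius `w`, with its neighbours -/
def Fit (v : ℤ × ℤ) (m w : ℕ) : Prop :=
  (-(w : ℤ) < v.1 - m ∧ v.1 + m < w) ∧ -(w : ℤ) < v.2 - m ∧ v.2 + m < w

lemma fit_zero {m w : ℕ} (h : m < w) : Fit 0 m w := by
  unfold Fit
  simp only [Prod.fst_zero, Prod.snd_zero]
  omega

lemma Fit.mem {v : ℤ × ℤ} {m w : ℕ} (h : Fit v m w) {t : ℤ × ℤ} (ht : t ∈ bwin v m) :
    t ∈ sqr w := by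
  unfold Fit at h
  rw [mem_bwin] at ht
  rw [mem_sqr]
  omega

lemma Fit.mem' {v : ℤ × ℤ} {m w : ℕ} (h : Fit v m w) {t : ℤ × ℤ} (ht : t ∈ bwin v m) (d : Dir) :
    t + d.vec ∈ sqr w := by
  unfold Fit at h
  rw [mem_bwin] at ht
  rw [mem_sqr]
  obtain ⟨i, j⟩ := t
  cases d <;> simp only [Dir.vec, Prod.mk_add_mk] <;> omega

/-- the part of the chart in the box around a convex corner -/
lemma filter_one {v : ℤ × ℤ} {Q : Bool → Bool → Bool} {m w : ℕ} {a b : Bool}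
    (h : ∀ x y, Q x y = true ↔ x = a ∧ y = b) (hf : Fit v m w) :
    (QW v Q w).filter (fun t => t ∈ bwin v m) = cwin a b v m := by
  ext t
  rw [mem_filter, mem_cwin, mem_QW, QSet_one h]
  exact ⟨fun h1 => ⟨h1.2, h1.1.2⟩, fun h1 => ⟨⟨hf.mem h1.1, h1.2⟩, h1.1⟩⟩

/-- the part of the chart in the box around a reflex corner -/
lemma filter_three {v : ℤ × ℤ} {Q : Bool → Bool → Bool} {m w : ℕ} {a b : Bool}
    (h : ∀ x y, Q x y = true ↔ ¬ (x = a ∧ y = b)) (hf : Fit v m w) :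
    (QW v Q w).filter (fun t => t ∈ bwin v m) = rwin a b v m := by
  ext t
  rw [mem_filter, mem_rwin, mem_QW, QSet_three h]
  exact ⟨fun h1 => ⟨h1.2, h1.1.2⟩, fun h1 => ⟨⟨hf.mem h1.1, h1.2⟩, h1.1⟩⟩

/-- the walls of a reflex corner inside the window are real -/
lemma real_three {v : ℤ × ℤ} {Q : Bool → Bool → Bool} {m w : ℕ} {a b : Bool}
    (h : ∀ x y, Q x y = true ↔ ¬ (x = a ∧ y = b)) (hf : Fit v m w) {x : Half (ℤ × ℤ)}
    (hx : x.1 ∈ rwin a b v m) (hw : x ∈ rV a b v ∨ x ∈ rH a b v) : Real v Q w x := by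
  obtain ⟨h1, h2⟩ := mem_rwin.1 hx
  refine ⟨mem_QW.2 ⟨hf.mem h1, (QSet_three h).2 h2⟩, hf.mem' h1 _, ?_⟩
  rw [QSet_three h, not_not]
  clear h hf hx
  obtain ⟨⟨i, j⟩, d⟩ := x
  obtain ⟨v1, v2⟩ := v
  simp only [rV, rH, Set.mem_ofPred_eq] at hw
  unfold Quad
  clear h1 h2
  cases a <;> cases b <;> simp at hw <;>
    (rcases hw with ⟨rfl, h3, h4⟩ | ⟨rfl, h3, h4⟩ <;> simp [Dir.vec] <;> omega)

lemma mem_wL_three {v : ℤ × ℤ} {Q : Bool → Bool → Bool} {m w : ℕ} {a b : Bool}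
    (h : ∀ x y, Q x y = true ↔ ¬ (x = a ∧ y = b)) (hf : Fit v m w) {x : Half (ℤ × ℤ)}
    (hx : x.1 ∈ rwin a b v m) :
    (x ∈ wL v Q w ↔ x ∈ if a = b then rH a b v else rV a b v) ∧
      (x ∈ wR v Q w ↔ x ∈ if a = b then rV a b v else rH a b v) := by
  have key : Real v Q w x ↔ x ∈ rV a b v ∨ x ∈ rH a b v := by
    constructor
    · intro h1
      rcases three_walls h h1 with h2 | h2
      · exact Or.inl h2.1
      · exact Or.inr h2.1
    · exact real_three h hf hx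
  by_cases hr : Real v Q w x
  · have h3 : x ∈ wL v Q w ↔ ps v x < 0 := ⟨fun h1 => h1.2, fun h1 => ⟨hr, h1⟩⟩
    have h4 : x ∈ wR v Q w ↔ ¬ ps v x < 0 := ⟨fun h1 => not_lt.2 h1.2, fun h1 => ⟨hr, not_lt.1 h1⟩⟩
    rw [h3, h4]
    rcases three_walls h hr with ⟨h5, h6, h7⟩ | ⟨h5, h6, h7⟩
    · rw [h7]
      split_ifs with hab
      · exact ⟨⟨fun h8 => absurd hab h8, fun h8 => absurd h8 h6⟩,
          fun _ => h5, fun _ h8 => h8 hab⟩
      · exact ⟨⟨fun _ => h5, fun _ => hab⟩, fun h8 => absurd hab h8, fun h8 => absurd h8 h6⟩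
    · rw [h7]
      split_ifs with hab
      · exact ⟨⟨fun _ => h5, fun _ => hab⟩, fun h8 => absurd hab h8, fun h8 => absurd h8 h6⟩
      · exact ⟨⟨fun h8 => absurd h8 hab, fun h8 => absurd h8 h6⟩, fun _ => h5, fun _ => hab⟩
  · have h5 : x ∉ rV a b v := fun h1 => hr (key.2 (Or.inl h1))
    have h6 : x ∉ rH a b v := fun h1 => hr (key.2 (Or.inr h1))
    have h3 : x ∉ wL v Q w := fun h1 => hr h1.1
    have h4 : x ∉ wR v Q w := fun h1 => hr h1.1
    split_ifs <;> simp [h3, h4, h5, h6]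

lemma pc_three {v : ℤ × ℤ} {Q : Bool → Bool → Bool} {m w : ℕ} {a b : Bool}
    (h : ∀ x y, Q x y = true ↔ ¬ (x = a ∧ y = b)) (hf : Fit v m w) {A : Finset (ℤ × ℤ)}
    (hA : A ⊆ rwin a b v m) (ω : Finset (ℤ × ℤ)) :
    pc A ω (wL v Q w) (wR v Q w) = pc A ω (rV a b v) (rH a b v) := by
  by_cases hab : a = b
  · rw [pc_symm A ω (rV a b v)]
    refine pc_congr_sets (fun x hx => ?_) (fun x hx => ?_)
    · have h1 := (mem_wL_three h hf (hA hx.1)).1
      rwa [if_pos hab] at h1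
    · have h1 := (mem_wL_three h hf (hA hx.1)).2
      rwa [if_pos hab] at h1
  · refine pc_congr_sets (fun x hx => ?_) (fun x hx => ?_)
    · have h1 := (mem_wL_three h hf (hA hx.1)).1
      rwa [if_neg hab] at h1
    · have h1 := (mem_wL_three h hf (hA hx.1)).2
      rwa [if_neg hab] at h1

/-- **a reflex corner in a chart**, the whole window or the window with a hole of radius `r` around the
tile of a real wall end `y` at distance more than `2 r + 1`; the exponent `α` does not depend on `ε` -/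
theorem cornR_chart : ∃ α C0 : ℝ, 0 ≤ α ∧ 1 ≤ C0 ∧ ∀ ε : ℝ, 0 < ε → ∃ C : ℝ, 1 ≤ C ∧
    ∀ (Q : Bool → Bool → Bool) (a b : Bool) (v : ℤ × ℤ) (w m : ℕ) (A : Finset (ℤ × ℤ)),
    (∀ x y, Q x y = true ↔ ¬ (x = a ∧ y = b)) → 1 ≤ m → Fit v m w → A ⊆ rwin a b v m →
    (A = rwin a b v m ∨ ∃ (r : ℕ) (y : Half (ℤ × ℤ)), Real v Q w y ∧
      (2 * (r : ℤ) + 1 < |y.1.1 - v.1| ∨ 2 * (r : ℤ) + 1 < |y.1.2 - v.2|) ∧
      ∀ t ∈ rwin a b v m, t ∉ A → |t.1 - y.1.1| < r ∧ |t.2 - y.1.2| < r) →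
    LocUpE (C0 * (m : ℝ) ^ α) (C * (m : ℝ) ^ ε * rflx m) A
      (fun ω => rh ^ pc A ω (wL v Q w) (wR v Q w)) := by
  obtain ⟨α, C0, hα, hC0, H⟩ := cornR
  refine ⟨α, C0, hα, hC0, fun ε hε => ?_⟩
  obtain ⟨C, hC1, hC⟩ := H ε hε
  refine ⟨C, hC1, ?_⟩
  intro Q a b v w m A h hm hf hA hhole
  have e : (fun ω => rh ^ pc A ω (wL v Q w) (wR v Q w)) =
      fun ω => rh ^ pc A ω (rV a b v) (rH a b v) := funext fun ω => by rw [pc_three h hf hA]
  rw [e]
  refine hC a b v m A hm hA ?_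
  rcases hhole with h1 | ⟨r, y, hy, hd, hin⟩
  · exact Or.inl h1
  · refine Or.inr ⟨r, y, ?_, hd, hin⟩
    rcases three_walls h hy with h2 | h2
    · exact Or.inl h2.1
    · exact Or.inr h2.1

end Full.Norm
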