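import Pool.Agent.Full.Norm.PhLaw

/-!
# The local laws of the phases in the charts of the double of a cap
-/

set_option autoImplicit false

namespace Full.Norm
open Finset Function

namespace Cap
variable {D : Cap}

/-! ### own charts -/

/-- the law in the cap gives the law in the double -/
theorem Own.law {w : ℕ} {c : QChart D.T2 D.g2 w} {f : ℤ × ℤ → ℤ × ℤ} (h : Own D c f) {ε : ℝ}
    {φ : Half (ℤ × ℤ) → ℝ} {q : Half (ℤ × ℤ) → ℤ} (hL : h.chart.SLaw ε φ q)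
    (φ' : Half (ℤ × ℤ) → ℝ) (q' : Half (ℤ × ℤ) → ℤ) :
    c.SLaw ε (dph φ φ') (D.q2 q q') := by
  obtain ⟨θ, h1, h2⟩ := hL
  have him : ∀ x : Half (ℤ × ℤ), x.1 ∈ c.W → c.im x = dl (h.chart.im x) := fun x hx => by
    refine Prod.ext ?_ rfl
    exact h.eq x.1 hx
  refine ⟨Sum.elim θ θ, fun x hx hx' => ?_, fun x hx hx' => ?_⟩
  · have h3 := h1 x hx hx'
    have h4 : D.g2 (dl (h.chart.im x)) = dl (D.g (h.chart.im x)) :=
      dg_dl_of (h.cut x.1 hx x.2 (c.mem_W.1 hx').1)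
    rw [him x hx, h4]
    exact h3
  · have h3 := h2 x hx hx'
    rw [him x hx.1, him _ hx'.1]
    exact h3

/-- **the law of an own chart** from the law of the cap and a gauge -/
theorem PhLaw.own {φ : Half (ℤ × ℤ) → ℝ} {q : Half (ℤ × ℤ) → ℤ} {ψ : ℝ} (hφ : PhLaw D φ q ψ)
    {w : ℕ} {c : QChart D.T2 D.g2 w} {f : ℤ × ℤ → ℤ × ℤ} (h : Own D c f) (θ : ℤ × ℤ → ℝ)
    (h1 : ∀ x : Half (ℤ × ℤ), x.1 ∈ c.W → x.1 + x.2.vec ∈ c.W →
      φ (D.g (f x.1, x.2)) + θ (D.g (f x.1, x.2)).1 = φ (f x.1, x.2) + θ (f x.1))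
    (h2 : ∀ x, c.Real x → c.Real (next c.pg x) → θ (f (next c.pg x).1) - θ (f x.1) =
      if (f x.1, x.2) = ((D.l, D.t - 1), Dir.N) then ψ else 0)
    (φ' : Half (ℤ × ℤ) → ℝ) (q' : Half (ℤ × ℤ) → ℤ) :
    c.SLaw 1 (dph φ φ') (D.q2 q q') := by
  refine h.law ⟨θ, h1, fun x hx hx' => ?_⟩ φ' q'
  obtain ⟨h3, h4⟩ := QChart.next_im (c := h.chart) hx hx'
  have hbd : Bd D.R D.g (h.chart.im x) := ⟨h.chart.mem x.1 hx.1, by
    rw [QChart.glue_im_sqr (c := h.chart) hx.1 hx.2.1, hx.fix]⟩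
  have h5 := hφ.wall (h.chart.im x) hbd (h.cut x.1 hx.1 x.2 hx.2.1)
  rw [h3, h4] at h5
  have h6 := h2 x hx hx'
  have h7 : θ (h.chart.im (next h.chart.pg x)).1 - θ (h.chart.im x).1 =
      if h.chart.im x = ((D.l, D.t - 1), Dir.N) then ψ else 0 := h6
  linarith

/-! ### the identity chart -/

theorem plain_own {p : ℤ × ℤ} {w : ℕ} {v : ℤ × ℤ} {Q : Bool → Bool → Bool} (hp : D.Plain p w)
    (hQ : QBox D.R p w v Q) : Own D (plain p w v Q hp hQ) fun s => p + s where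
  eq := fun _ _ => rfl
  cut := fun s hs d _ h => by
    obtain ⟨h4, h5, h6⟩ := mem_C.1 h
    simp only at h4 h5
    have h7 := hp s (mem_QW.1 hs).1 ⟨h4, by omega, by have := D.hyt; omega⟩
    omega

/-- **the law of the identity charts** -/
theorem PhLaw.plain {φ : Half (ℤ × ℤ) → ℝ} {q : Half (ℤ × ℤ) → ℤ} {ψ : ℝ} (hφ : PhLaw D φ q ψ)
    {p : ℤ × ℤ} {w : ℕ} {v : ℤ × ℤ} {Q : Bool → Bool → Bool} (hp : D.Plain p w)
    (hQ : QBox D.R p w v Q) (φ' : Half (ℤ × ℤ) → ℝ) (q' : Half (ℤ × ℤ) → ℤ) :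
    (Cap.plain p w v Q hp hQ).SLaw 1 (dph φ φ') (D.q2 q q') := by
  refine hφ.own (plain_own hp hQ) (fun _ => 0) (fun x hx hx' => ?_) (fun x hx hx' => ?_) φ' q'
  · have h1 : D.g (p + x.1, x.2) = (p + (x.1 + x.2.vec), x.2.opp) :=
      (plain_own hp hQ).chart.glue x.1 hx x.2 hx'
    have h2 : D.g (p + x.1, x.2) ≠ (p + x.1, x.2) := by
      rw [h1]
      intro h3
      exact Dir.opp_ne _ (congrArg Prod.snd h3)
    have h3 := hφ.gl (p + x.1, x.2) h2 (by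
      rintro ⟨j, h4, h5, h6⟩
      have h7 := hp x.1 (mem_QW.1 hx).1
      have hlr := D.hlr
      rcases h6 with h6 | h6
      · have h8 : p + x.1 = (D.l, j) := congrArg Prod.fst h6
        rw [h8] at h7
        have := h7 ⟨⟨le_rfl, hlr⟩, h4, h5⟩
        simp only at this
        omega
      · have h8 : p + x.1 = (D.r - 1, j) := congrArg Prod.fst h6
        rw [h8] at h7
        have := h7 ⟨⟨by simp only; omega, by simp only; omega⟩, h4, h5⟩
        simp only at this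
        omega)
    rw [h3]
  · rw [if_neg, sub_self]
    intro h1
    have h8 : p + x.1 = (D.l, D.t - 1) := congrArg Prod.fst h1
    have h7 := hp x.1 (mem_QW.1 hx.1).1
    rw [h8] at h7
    have hlr := D.hlr
    have hyt := D.hyt
    have := h7 ⟨⟨le_rfl, hlr⟩, by simp only; omega, by simp only; omega⟩
    simp only at this
    omega

/-! ### the strip -/

/-- the number of the winding of an abscissa -/
def kk (l r c : ℤ) : ℤ := (c - l) / (r - l)

lemma kk_sub {l r : ℤ} (h : l < r) (c : ℤ) :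
    kk l r c - kk l r (c - 1) = if wr l r c = l then 1 else 0 := by
  have h1 : (r - l) * kk l r c + wr l r c = c := by
    have := Int.mul_ediv_add_emod (c - l) (r - l)
    unfold kk wr
    omega
  have h2 : (r - l) * kk l r (c - 1) + wr l r (c - 1) = c - 1 := by
    have := Int.mul_ediv_add_emod (c - 1 - l) (r - l)
    unfold kk wr
    omega
  have h3 := wr_sub_one h (i := c)
  have h4 : (r - l) * (kk l r c - kk l r (c - 1)) = 1 - wr l r c + wr l r (c - 1) := by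
    have e : (r - l) * (kk l r c - kk l r (c - 1)) =
      (r - l) * kk l r c - (r - l) * kk l r (c - 1) := by ring
    rw [e]
    omega
  have h0 : r - l ≠ 0 := by omega
  refine mul_left_cancel₀ h0 ?_
  rw [h4, h3]
  by_cases h5 : wr l r c = l
  · rw [if_pos h5, if_pos h5, h5]
    ring
  · rw [if_neg h5, if_neg h5]
    ring

/-- the abscissa in the window `[a, a + r - l)` -/
def lft (l r a i : ℤ) : ℤ := wr a (a + (r - l)) i

lemma lft_wr {l r a c : ℤ} (h1 : a ≤ c) (h2 : c < a + (r - l)) : lft l r a (wr l r c) = c := by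
  have h3 : wr a (a + (r - l)) (wr l r c) = wr a (a + (r - l)) c := by
    unfold wr
    have e : a + (r - l) - a = r - l := by ring
    rw [e]
    congr 1
    have h4 := Int.emod_add_emod (c - l) (r - l) (l - a)
    have e2 : l + (c - l) % (r - l) - a = (c - l) % (r - l) + (l - a) := by ring
    have e3 : c - l + (l - a) = c - a := by ring
    rw [e2, h4, e3]
  unfold lft
  rw [h3]
  exact wr_of_mem h1 h2

/-- the gauge in the strip -/
noncomputable def thg (D : Cap) (ψ : ℝ) (a : ℤ) (s : ℤ × ℤ) : ℝ :=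
  -(ψ * kk D.l D.r (lft D.l D.r a s.1))

lemma thg_wr {ψ : ℝ} {a c j : ℤ} (h1 : a ≤ c) (h2 : c < a + (D.r - D.l)) :
    D.thg ψ a (wr D.l D.r c, j) = -(ψ * kk D.l D.r c) := by
  unfold thg
  simp only
  rw [lft_wr h1 h2]

/-- the gluing in the strip -/
lemma strip_g {c j : ℤ} {d : Dir} (h1 : D.y ≤ j) (h2 : j < D.t) (h3 : D.y ≤ j + d.vec.2)
    (h4 : j + d.vec.2 < D.t) : D.g ((wr D.l D.r c, j), d) =
      ((wr D.l D.r (c + d.vec.1), j + d.vec.2), d.opp) := by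
  cases d
  · rw [g_E h1 h2]
    show ((wr D.l D.r (c + 1), j), Dir.W) = ((wr D.l D.r (c + 1), j + 0), Dir.W)
    rw [add_zero]
  · rw [g_N h1 h4]
    show ((wr D.l D.r c, j + 1), Dir.S) = ((wr D.l D.r (c + 0), j + 1), Dir.S)
    rw [add_zero]
  · rw [g_W h1 h2]
    show ((wr D.l D.r (c - 1), j), Dir.E) = ((wr D.l D.r (c + -1), j + 0), Dir.E)
    rw [add_zero, ← sub_eq_add_neg]
  · have h3' : D.y ≤ j + -1 := h3
    rw [g_S (by omega) h2]
    show ((wr D.l D.r c, j - 1), Dir.N) = ((wr D.l D.r (c + 0), j + -1), Dir.N)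
    rw [add_zero, ← sub_eq_add_neg]

/-- the phases in the strip -/
lemma PhLaw.strip {φ : Half (ℤ × ℤ) → ℝ} {q : Half (ℤ × ℤ) → ℤ} {ψ : ℝ} (hφ : PhLaw D φ q ψ)
    {c j : ℤ} {d : Dir} (h1 : D.y ≤ j) (h2 : j < D.t) (h3 : D.y ≤ j + d.vec.2)
    (h4 : j + d.vec.2 < D.t) :
    φ ((wr D.l D.r (c + d.vec.1), j + d.vec.2), d.opp) + -(ψ * kk D.l D.r (c + d.vec.1)) =
      φ ((wr D.l D.r c, j), d) + -(ψ * kk D.l D.r c) := by
  have hg := strip_g (c := c) h1 h2 h3 h4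
  have hne : D.g ((wr D.l D.r c, j), d) ≠ ((wr D.l D.r c, j), d) := by
    rw [hg]
    intro h
    exact Dir.opp_ne _ (congrArg Prod.snd h)
  have gl : ¬ D.Seam ((wr D.l D.r c, j), d) →
      φ ((wr D.l D.r (c + d.vec.1), j + d.vec.2), d.opp) = φ ((wr D.l D.r c, j), d) := fun h => by
    rw [← hg]
    exact hφ.gl _ hne h
  cases d
  · have e1 : c + Dir.E.vec.1 = c + 1 := rfl
    have e2 : j + Dir.E.vec.2 = j := by show j + 0 = j; omega
    rw [e1, e2] at gl ⊢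
    have h5 := kk_sub D.hlr (c + 1)
    rw [add_sub_cancel_right] at h5
    have h6 := wr_add_one D.hlr (i := c)
    have hm := wr_mem D.hlr c
    by_cases h7 : wr D.l D.r c = D.r - 1
    · rw [if_pos h7] at h6
      rw [if_pos h6] at h5
      have h8 := hφ.seam j h1 h2
      rw [h6, h7]
      show φ ((D.l, j), Dir.W) + _ = _
      rw [h8]
      have h9 : (kk D.l D.r (c + 1) : ℝ) = kk D.l D.r c + 1 := by
        have : kk D.l D.r (c + 1) = kk D.l D.r c + 1 := by omega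
        exact_mod_cast this
      rw [h9]
      ring
    · rw [if_neg h7] at h6
      rw [if_neg (by omega)] at h5
      rw [gl (by
        rintro ⟨j', -, -, h8 | h8⟩
        · exact absurd (congrArg Prod.snd h8) (by simp)
        · exact h7 (congrArg (fun z => z.1.1) h8)), show kk D.l D.r (c + 1) = kk D.l D.r c by omega]
  · have e1 : c + Dir.N.vec.1 = c := by show c + 0 = c; omega
    rw [e1] at gl ⊢
    rw [gl (by
      rintro ⟨j', -, -, h8 | h8⟩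
      · exact absurd (congrArg Prod.snd h8) (by simp)
      · exact absurd (congrArg Prod.snd h8) (by simp))]
  · have e1 : c + Dir.W.vec.1 = c - 1 := rfl
    have e2 : j + Dir.W.vec.2 = j := by show j + 0 = j; omega
    rw [e1, e2] at gl ⊢
    have h5 := kk_sub D.hlr c
    have h6 := wr_sub_one D.hlr (i := c)
    have hm := wr_mem D.hlr c
    by_cases h7 : wr D.l D.r c = D.l
    · rw [if_pos h7] at h6 h5
      have h8 := hφ.seam j h1 h2
      rw [h6, h7, h8]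
      show φ ((D.r - 1, j), Dir.E) + _ = _
      have h9 : (kk D.l D.r c : ℝ) = kk D.l D.r (c - 1) + 1 := by
        have : kk D.l D.r c = kk D.l D.r (c - 1) + 1 := by omega
        exact_mod_cast this
      rw [h9]
      ring
    · rw [if_neg h7] at h6 h5
      rw [gl (by
        rintro ⟨j', -, -, h8 | h8⟩
        · exact h7 (congrArg (fun z => z.1.1) h8)
        · exact absurd (congrArg Prod.snd h8) (by simp)), show kk D.l D.r c = kk D.l D.r (c - 1) by omega]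
  · have e1 : c + Dir.S.vec.1 = c := by show c + 0 = c; omega
    rw [e1] at gl ⊢
    rw [gl (by
      rintro ⟨j', -, -, h8 | h8⟩
      · exact absurd (congrArg Prod.snd h8) (by simp)
      · exact absurd (congrArg Prod.snd h8) (by simp))]

/-! ### the chart at the ceiling -/

section ceil
variable {p : ℤ × ℤ} {w : ℕ} {hw : 2 * (w : ℤ) ≤ D.r - D.l} {h1 : D.y < p.2 - w} {h2 : p.2 ≤ D.t}
  {hc : ∀ s ∈ sqr w, p.2 + s.2 = D.t → (wr D.l D.r (p.1 + s.1), D.t) ∉ D.U}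

lemma ceil_W {s : ℤ × ℤ} : s ∈ (ceil p w hw h1 h2 hc).W ↔ s ∈ sqr w ∧ p.2 + s.2 < D.t := by
  rw [QChart.mem_W]
  show s ∈ sqr w ∧ (!decide (D.t - p.2 ≤ s.2)) = true ↔ _
  rw [Bool.not_eq_true', decide_eq_false_iff_not]
  constructor
  · rintro ⟨h3, h4⟩
    exact ⟨h3, by omega⟩
  · rintro ⟨h3, h4⟩
    exact ⟨h3, by omega⟩

theorem ceil_own : Own D (ceil p w hw h1 h2 hc) fun s => (wr D.l D.r (p.1 + s.1), p.2 + s.2) where
  eq := fun _ _ => rfl
  cut := fun s hs d _ h => by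
    obtain ⟨h4, h5, h6⟩ := mem_C.1 h
    simp only at h4 h5
    have h7 := mem_sqr.1 (mem_QW.1 hs).1
    omega

/-- a wall end in the chart at the ceiling -/
lemma ceil_real {x : Half (ℤ × ℤ)} (h : (ceil p w hw h1 h2 hc).Real x) :
    x.2 = .N ∧ p.2 + x.1.2 = D.t - 1 := by
  obtain ⟨⟨a, b⟩, d⟩ := x
  obtain ⟨h3, h4, h5⟩ := h
  simp only at h3 h4 h5
  have h6 := ceil_W.1 h3
  have h7 : ¬ ((a, b) + d.vec ∈ (ceil p w hw h1 h2 hc).W) := fun h => h5 (QChart.mem_W _ |>.1 h).2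
  rw [ceil_W] at h7
  have h8 : ¬ (p.2 + (b + d.vec.2) < D.t) := fun h => h7 ⟨h4, h⟩
  simp only at h6 ⊢
  cases d
  · have : ¬ (p.2 + (b + 0) < D.t) := h8
    omega
  · have : ¬ (p.2 + (b + 1) < D.t) := h8
    exact ⟨rfl, by omega⟩
  · have : ¬ (p.2 + (b + 0) < D.t) := h8
    omega
  · have : ¬ (p.2 + (b + -1) < D.t) := h8
    omega

lemma ceil_next {x : Half (ℤ × ℤ)} (h : (ceil p w hw h1 h2 hc).Real x)
    (h' : (ceil p w hw h1 h2 hc).Real (next (ceil p w hw h1 h2 hc).pg x)) :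
    next (ceil p w hw h1 h2 hc).pg x = ((x.1.1 - 1, x.1.2), .N) := by
  set c := ceil p w hw h1 h2 hc with hcd
  obtain ⟨⟨a, b⟩, d⟩ := x
  obtain ⟨h3, h4⟩ := ceil_real h
  simp only at h3 h4
  subst h3
  have hr : rot c.pg ((a, b), Dir.N) = ((a, b), Dir.W) := by
    show rho (c.pg ((a, b), Dir.N)) = _
    rw [h.fix]
    rfl
  have e1 : (a, b) + Dir.W.vec = (a - 1, b) := by
    refine Prod.ext ?_ ?_
    · show a + -1 = a - 1
      ring
    · show b + 0 = b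
      ring
  have e2 : (a - 1, b) + Dir.N.vec = (a - 1, b + 1) := by
    refine Prod.ext ?_ ?_
    · show a - 1 + 0 = a - 1
      ring
    · rfl
  by_cases h5 : (a - 1, b) ∈ c.W
  · have h6 : c.pg ((a, b), Dir.W) = ((a - 1, b), Dir.E) := by
      rw [QChart.pg_of (x := ((a, b), Dir.W)) h.1 (by simp only; rw [e1]; exact h5)]
      simp only
      rw [e1]
      rfl
    have h7 : rot c.pg ((a, b), Dir.W) = ((a - 1, b), Dir.N) := by
      show rho (c.pg ((a, b), Dir.W)) = _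
      rw [h6]
      rfl
    have h8 : c.pg ((a - 1, b), Dir.N) = ((a - 1, b), Dir.N) := QChart.pg_of_not (by
      simp only
      rw [e2, ceil_W]
      intro h
      simp only at h
      omega)
    obtain ⟨-, h9⟩ := Turn.ks_of (g := c.pg) (x := ((a, b), Dir.N)) (k := 2) (by omega) (by
      rw [iterate_succ_apply', iterate_one, hr, h7, h8]) (fun j hj1 hj2 => by
      have : j = 1 := by omega
      subst this
      rw [iterate_one, hr, h6]
      simp)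
    rw [h9, iterate_succ_apply', iterate_one, hr, h7]
  · exfalso
    have h6 : c.pg ((a, b), Dir.W) = ((a, b), Dir.W) := QChart.pg_of_not (by
      simp only
      rw [e1]
      exact h5)
    obtain ⟨-, h9⟩ := Turn.ks_of (g := c.pg) (x := ((a, b), Dir.N)) (k := 1) le_rfl (by
      rw [iterate_one, hr, h6]) (fun j hj1 hj2 => by omega)
    rw [iterate_one, hr] at h9
    rw [h9] at h'
    exact absurd (ceil_real h').1 (by simp)

/-- **the law of the charts at the ceiling** -/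
theorem PhLaw.ceil {φ : Half (ℤ × ℤ) → ℝ} {q : Half (ℤ × ℤ) → ℤ} {ψ : ℝ} (hφ : PhLaw D φ q ψ)
    (φ' : Half (ℤ × ℤ) → ℝ) (q' : Half (ℤ × ℤ) → ℤ) :
    (Cap.ceil p w hw h1 h2 hc).SLaw 1 (dph φ φ') (D.q2 q q') := by
  have win : ∀ s ∈ (Cap.ceil p w hw h1 h2 hc).W, ∀ j, D.thg ψ (p.1 - w) (wr D.l D.r (p.1 + s.1), j) =
      -(ψ * kk D.l D.r (p.1 + s.1)) := fun s hs j => by
    have h5 := mem_sqr.1 (ceil_W.1 hs).1
    exact thg_wr (by omega) (by omega)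
  refine hφ.own ceil_own (D.thg ψ (p.1 - w)) (fun x hx hx' => ?_) (fun x hx hx' => ?_) φ' q'
  · have h5 := ceil_W.1 hx
    have h6 := ceil_W.1 hx'
    have h7 := mem_sqr.1 h5.1
    have h8 := mem_sqr.1 h6.1
    have h8' : -(w : ℤ) ≤ x.1.2 + x.2.vec.2 := h8.2.1
    have h9 : p.2 + (x.1.2 + x.2.vec.2) < D.t := h6.2
    show φ (D.g ((wr D.l D.r (p.1 + x.1.1), p.2 + x.1.2), x.2)) + D.thg ψ (p.1 - w) (D.g ((wr D.l D.r (p.1 + x.1.1), p.2 + x.1.2), x.2)).1 = _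
    rw [strip_g (by omega) h5.2 (by omega) (by omega)]
    have e1 : p.1 + x.1.1 + x.2.vec.1 = p.1 + (x.1 + x.2.vec).1 := by
      rw [add_assoc]
      rfl
    have h10 := hφ.strip (c := p.1 + x.1.1) (j := p.2 + x.1.2) (d := x.2) (by omega) h5.2
      (by omega) (by omega)
    rw [← win x.1 hx (p.2 + x.1.2), e1, ← win _ hx' (p.2 + x.1.2 + x.2.vec.2)] at h10
    rw [e1]
    exact h10
  · have h3 := ceil_next hx hx'
    obtain ⟨h4, h5⟩ := ceil_real hx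
    rw [h3]
    have h6 : (x.1.1 - 1, x.1.2) ∈ (Cap.ceil p w hw h1 h2 hc).W := by
      have := hx'.1
      rw [h3] at this
      exact this
    have e2 := win _ h6 (p.2 + x.1.2)
    simp only at e2 ⊢
    rw [e2, win x.1 hx.1 (p.2 + x.1.2), h4, h5]
    have h7 := kk_sub D.hlr (p.1 + x.1.1)
    rw [show p.1 + x.1.1 - 1 = p.1 + (x.1.1 - 1) by ring] at h7
    by_cases h8 : wr D.l D.r (p.1 + x.1.1) = D.l
    · rw [if_pos h8] at h7
      rw [if_pos (by rw [h8])]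
      have h9 : (kk D.l D.r (p.1 + x.1.1) : ℝ) = kk D.l D.r (p.1 + (x.1.1 - 1)) + 1 := by
        have : kk D.l D.r (p.1 + x.1.1) = kk D.l D.r (p.1 + (x.1.1 - 1)) + 1 := by omega
        exact_mod_cast this
      rw [h9]
      ring
    · rw [if_neg h8] at h7
      rw [if_neg (fun h => h8 (congrArg (fun z => z.1.1) h)),
        show kk D.l D.r (p.1 + x.1.1) = kk D.l D.r (p.1 + (x.1.1 - 1)) by omega]
      ring

end ceil

/-! ### the chart in the strip, across the cut -/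

lemma flip_vec (d : Dir) : d.flip.vec.1 = d.vec.1 ∧ d.flip.vec.2 = -d.vec.2 := by
  cases d <;> exact ⟨rfl, rfl⟩

lemma vec_one (d : Dir) : -1 ≤ d.vec.2 ∧ d.vec.2 ≤ 1 := by
  cases d <;> simp [Dir.vec]

/-- **the law of the charts in the strip** -/
theorem PhLaw.bulk {φ φ' : Half (ℤ × ℤ) → ℝ} {q q' : Half (ℤ × ℤ) → ℤ} {ψ : ℝ}
    (hφ : PhLaw D φ q ψ) (hφ' : PhLaw D φ' q' ψ) {p : ℤ × ℤ} {w : ℕ}
    {hw : 2 * (w : ℤ) ≤ D.r - D.l} {h1 : p.2 + w ≤ D.t} {h2 : 2 * D.y - D.t ≤ p.2 - w} (ε : ℝ) :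
    (Cap.bulk p w hw h1 h2).SLaw ε (dph φ φ') (D.q2 q q') := by
  refine ⟨Sum.elim (D.thg ψ (p.1 - w)) (D.thg ψ (p.1 - w)), fun x hx hx' => ?_,
    fun x hx _ => absurd (rfl : (true : Bool) = true) hx.2.2⟩
  have hg := (Cap.bulk p w hw h1 h2).glue x.1 hx x.2 hx'
  have hg' : D.g2 ((Cap.bulk p w hw h1 h2).im x) = (D.bulkφ p (x.1 + x.2.vec), x.2.opp) := hg
  rw [hg']
  show dph φ φ' (D.bulkφ p (x.1 + x.2.vec), x.2.opp) + _ = dph φ φ' (D.bulkφ p x.1, x.2) +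
    Sum.elim (D.thg ψ (p.1 - w)) (D.thg ψ (p.1 - w)) (D.bulkφ p x.1)
  obtain ⟨⟨a, b⟩, d⟩ := x
  simp only at hx hx' ⊢
  have h3 := mem_sqr.1 (mem_QW.1 hx).1
  have h4 := mem_sqr.1 (mem_QW.1 hx').1
  have e1 : (a, b) + d.vec = (a + d.vec.1, b + d.vec.2) := rfl
  rw [e1] at h4 ⊢
  simp only at h3 h4
  have up : ∀ i j : ℤ, D.y ≤ p.2 + j → D.bulkφ p (i, j) =
      Sum.inl (wr D.l D.r (p.1 + i), p.2 + j) := fun i j h => if_pos h
  have lo : ∀ i j : ℤ, ¬ D.y ≤ p.2 + j → D.bulkφ p (i, j) =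
      Sum.inr (wr D.l D.r (p.1 + i), 2 * D.y - 1 - (p.2 + j)) := fun i j h => if_neg h
  have hv := vec_one d
  by_cases h5 : D.y ≤ p.2 + b <;> by_cases h6 : D.y ≤ p.2 + (b + d.vec.2)
  · rw [up _ _ h5, up _ _ h6]
    have h7 := hφ.strip (c := p.1 + a) (j := p.2 + b) (d := d) h5 (by omega) (by omega) (by omega)
    rw [← thg_wr (ψ := ψ) (a := p.1 - w) (c := p.1 + a) (j := p.2 + b) (by omega) (by omega),
      ← thg_wr (ψ := ψ) (a := p.1 - w) (c := p.1 + a + d.vec.1) (j := p.2 + b + d.vec.2) (by omega)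
        (by omega), add_assoc, add_assoc] at h7
    exact h7
  · have h7 : d = .S ∧ p.2 + b = D.y := by
      cases d
      · exact absurd (show D.y ≤ p.2 + (b + 0) by omega) h6
      · exact absurd (show D.y ≤ p.2 + (b + 1) by omega) h6
      · exact absurd (show D.y ≤ p.2 + (b + 0) by omega) h6
      · have h8 : ¬ D.y ≤ p.2 + (b + -1) := h6
        exact ⟨rfl, by omega⟩
    obtain ⟨rfl, h8⟩ := h7
    rw [up _ _ h5, lo _ _ h6]
    have hm := wr_mem D.hlr (p.1 + a)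
    have e2 : a + Dir.S.vec.1 = a := by show a + 0 = a; omega
    have e3 : 2 * D.y - 1 - (p.2 + (b + Dir.S.vec.2)) = D.y := by
      show 2 * D.y - 1 - (p.2 + (b + -1)) = D.y
      omega
    rw [e2, e3, h8]
    have h9 : φ ((wr D.l D.r (p.1 + a), D.y), .S) = 0 := hφ.cut _ (mem_C.2 ⟨hm, rfl, rfl⟩)
    have h10 : φ' ((wr D.l D.r (p.1 + a), D.y), .S) = 0 := hφ'.cut _ (mem_C.2 ⟨hm, rfl, rfl⟩)
    show φ' ((wr D.l D.r (p.1 + a), D.y), .S) + D.thg ψ (p.1 - w) (wr D.l D.r (p.1 + a), D.y) =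
      φ ((wr D.l D.r (p.1 + a), D.y), .S) + D.thg ψ (p.1 - w) (wr D.l D.r (p.1 + a), D.y)
    rw [h9, h10]
  · have h7 : d = .N ∧ p.2 + b = D.y - 1 := by
      cases d
      · exact absurd (show D.y ≤ p.2 + b by have : D.y ≤ p.2 + (b + 0) := h6; omega) h5
      · have h8 : D.y ≤ p.2 + (b + 1) := h6
        exact ⟨rfl, by omega⟩
      · exact absurd (show D.y ≤ p.2 + b by have : D.y ≤ p.2 + (b + 0) := h6; omega) h5
      · exact absurd (show D.y ≤ p.2 + b by have : D.y ≤ p.2 + (b + -1) := h6; omega) h5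
    obtain ⟨rfl, h8⟩ := h7
    rw [lo _ _ h5, up _ _ h6]
    have hm := wr_mem D.hlr (p.1 + a)
    have e2 : a + Dir.N.vec.1 = a := by show a + 0 = a; omega
    have e3 : p.2 + (b + Dir.N.vec.2) = D.y := by
      show p.2 + (b + 1) = D.y
      omega
    have e4 : 2 * D.y - 1 - (p.2 + b) = D.y := by omega
    rw [e2, e3, e4]
    have h9 : φ ((wr D.l D.r (p.1 + a), D.y), .S) = 0 := hφ.cut _ (mem_C.2 ⟨hm, rfl, rfl⟩)
    have h10 : φ' ((wr D.l D.r (p.1 + a), D.y), .S) = 0 := hφ'.cut _ (mem_C.2 ⟨hm, rfl, rfl⟩)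
    show φ ((wr D.l D.r (p.1 + a), D.y), .S) + D.thg ψ (p.1 - w) (wr D.l D.r (p.1 + a), D.y) =
      φ' ((wr D.l D.r (p.1 + a), D.y), .S) + D.thg ψ (p.1 - w) (wr D.l D.r (p.1 + a), D.y)
    rw [h9, h10]
  · rw [lo _ _ h5, lo _ _ h6]
    have hf := flip_vec d
    have h7 := hφ'.strip (c := p.1 + a) (j := 2 * D.y - 1 - (p.2 + b)) (d := d.flip) (by omega)
      (by omega) (by omega) (by omega)
    rw [hf.1, hf.2] at h7
    rw [← thg_wr (ψ := ψ) (a := p.1 - w) (c := p.1 + a) (j := 2 * D.y - 1 - (p.2 + b)) (by omega)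
      (by omega), ← thg_wr (ψ := ψ) (a := p.1 - w) (c := p.1 + a + d.vec.1)
        (j := 2 * D.y - 1 - (p.2 + b) + -d.vec.2) (by omega) (by omega), add_assoc,
      show 2 * D.y - 1 - (p.2 + b) + -d.vec.2 = 2 * D.y - 1 - (p.2 + (b + d.vec.2)) by ring,
      ← Dir.flip_opp] at h7
    exact h7

/-! ### the reflected charts -/

/-- the reflected place -/
def rfh (x : Half (ℤ × ℤ)) : Half (ℤ × ℤ) := (rfl2 x.1, x.2.flip)

@[simp] lemma rfh_rfh (x : Half (ℤ × ℤ)) : rfh (rfh x) = x := by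
  unfold rfh
  rw [rfl2_rfl2, Dir.flip_flip]

section swap
variable {w : ℕ} {c : QChart D.T2 D.g2 w}

lemma swap_W {s : ℤ × ℤ} : s ∈ (swap c).W ↔ rfl2 s ∈ c.W := by
  rw [QChart.mem_W, QChart.mem_W]
  show s ∈ sqr w ∧ QSet (c.v.1, -c.v.2) (fun a b => c.Q a (!b)) s ↔ _
  rw [QSet_rfl, rfl2_sqr]

lemma swap_im (x : Half (ℤ × ℤ)) : (swap c).im x = swh (c.im (rfh x)) := by
  unfold QChart.im swh rfh
  rw [Dir.flip_flip]
  rfl

lemma swap_pg (x : Half (ℤ × ℤ)) : c.pg (rfh x) = rfh ((swap c).pg x) := by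
  obtain ⟨s, d⟩ := x
  by_cases h : s ∈ (swap c).W ∧ s + d.vec ∈ (swap c).W
  · rw [QChart.pg_of (c := swap c) (x := (s, d)) h.1 h.2]
    have h1 := swap_W.1 h.1
    have h2 := swap_W.1 h.2
    rw [rfl2_vec] at h2
    rw [QChart.pg_of (c := c) (x := rfh (s, d)) h1 h2]
    unfold rfh
    simp only
    rw [rfl2_vec, Dir.flip_opp]
  · have h1 : (swap c).pg (s, d) = (s, d) := by
      by_contra h1
      exact h (QChart.ne_pg h1)
    rw [h1]
    by_contra h2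
    obtain ⟨h3, h4⟩ := QChart.ne_pg h2
    refine h ⟨swap_W.2 h3, swap_W.2 ?_⟩
    rw [rfl2_vec]
    exact h4

lemma swap_real {x : Half (ℤ × ℤ)} : (swap c).Real x ↔ c.Real (rfh x) := by
  unfold QChart.Real
  rw [swap_W]
  show rfl2 x.1 ∈ c.W ∧ _ ∧ ¬ QSet (c.v.1, -c.v.2) (fun a b => c.Q a (!b)) (x.1 + x.2.vec) ↔
    rfl2 x.1 ∈ c.W ∧ rfl2 x.1 + x.2.flip.vec ∈ sqr w ∧ ¬ QSet c.v c.Q (rfl2 x.1 + x.2.flip.vec)
  rw [← rfl2_vec, QSet_rfl, rfl2_sqr]

lemma swap_next {x : Half (ℤ × ℤ)} (h : (swap c).pg x = x) :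
    next c.pg (rfh (next (swap c).pg x)) = rfh x ∧
      Turn.bt c.pg (rfh (next (swap c).pg x)) = Turn.bt (swap c).pg x := by
  have h1 := next_rev (g := (swap c).pg) (h := c.pg) (QChart.glu_pg (c := swap c)) rfh h
    (fun j _ => swap_pg _) (fun j _ => ?_) (fun j _ hj h1 => ?_) (fun j _ => ?_)
  · refine ⟨h1.1, ?_⟩
    unfold Turn.bt
    rw [h1.2]
  · generalize (swap c).pg ((rot (swap c).pg)^[j] x) = z
    obtain ⟨s, d⟩ := z
    unfold rho rfh
    cases d <;> rfl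
  · obtain ⟨-, -, h3⟩ := Turn.ks_spec (QChart.glu_pg (c := swap c)) h
    have h2 := congrArg rfh h1
    rw [rfh_rfh, rfh_rfh] at h2
    exact h3 j (by assumption) hj h2
  · exact (QChart.glu_pg (c := c)).inv _

/-- **the law of a reflected chart** -/
theorem swap_law {ε : ℝ} {φ φ' : Half (ℤ × ℤ) → ℝ} {Q Q' : Half ((ℤ × ℤ) ⊕ (ℤ × ℤ)) → ℤ}
    (hL : c.SLaw ε (dph φ φ') Q)
    (hQ : ∀ x, (swap c).Real x → (swap c).Real (next (swap c).pg x) →
      Q' ((swap c).im x) = Q (swh (next D.g2 ((swap c).im x)))) :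
    (swap c).SLaw (-ε) (dph φ' φ) Q' := by
  have hd : ∀ z, dph φ' φ (swh z) = dph φ φ' z := fun z => by
    rcases dcases z with ⟨u, rfl⟩ | ⟨u, rfl⟩
    · rw [swh_dl, dph_dl, dph_dr]
    · rw [swh_dr, dph_dl, dph_dr]
  obtain ⟨θ, h1, h2⟩ := hL
  refine ⟨fun s => θ (sw2 s), fun x hx hx' => ?_, fun x hx hx' => ?_⟩
  · have h3 := swap_W.1 hx
    have h4 := swap_W.1 hx'
    rw [rfl2_vec] at h4
    have h5 := h1 (rfh x) h3 h4
    rw [swap_im, g2_swh, hd, hd]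
    have e : ∀ z : Half ((ℤ × ℤ) ⊕ (ℤ × ℤ)), sw2 (swh z).1 = z.1 := fun z => by
      obtain ⟨s | s, d⟩ := z <;> rfl
    simp only [e]
    exact h5
  · have e : ∀ z : Half ((ℤ × ℤ) ⊕ (ℤ × ℤ)), sw2 (swh z).1 = z.1 := fun z => by
      obtain ⟨s | s, d⟩ := z <;> rfl
    have e' : ∀ z : Half ((ℤ × ℤ) ⊕ (ℤ × ℤ)), swh (swh z) = z := fun z => by
      rcases dcases z with ⟨u, rfl⟩ | ⟨u, rfl⟩
      · rw [swh_dl, swh_dr]
      · rw [swh_dr, swh_dl]
    obtain ⟨h3, h4⟩ := swap_next (c := c) hx.fix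
    have h5 := swap_real.1 hx
    have h6 := swap_real.1 hx'
    have h7 := h2 _ h6 (by rw [h3]; exact h5)
    have h8 := (QChart.next_im hx hx').1
    rw [hQ x hx hx', h8, swap_im, swap_im, hd, hd, e']
    simp only [e]
    rw [h3, h4] at h7
    linarith

/-- the law of the reflection of an own chart -/
theorem Own.swap_law {f : ℤ × ℤ → ℤ × ℤ} (h : Own D c f) {ε : ℝ} {φ φ' : Half (ℤ × ℤ) → ℝ}
    {q q' : Half (ℤ × ℤ) → ℤ} (hL : c.SLaw ε (dph φ' φ) (D.q2 q' q)) :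
    (swap c).SLaw (-ε) (dph φ φ') (D.q2 q q') := by
  refine Cap.swap_law hL fun x hx hx' => ?_
  have him : ∀ x : Half (ℤ × ℤ), x.1 ∈ (swap c).W → ∃ u, (swap c).im x = dr u := fun x hx => by
    rw [swap_im]
    have h1 : (rfh x).1 ∈ c.W := swap_W.1 hx
    have h2 : c.im (rfh x) = dl (f (rfh x).1, (rfh x).2) := Prod.ext (h.eq _ h1) rfl
    rw [h2, swh_dl]
    exact ⟨_, rfl⟩
  obtain ⟨u, hu⟩ := him x hx.1
  obtain ⟨u', hu'⟩ := him _ hx'.1
  have h1 := (QChart.next_im hx hx').1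
  rw [hu', hu] at h1
  rw [hu, q2_dr, h1, swh_dr, q2_dl]
  rfl

/-- **the law of the reflected identity charts** -/
theorem PhLaw.plain_swap {φ' : Half (ℤ × ℤ) → ℝ} {q' : Half (ℤ × ℤ) → ℤ} {ψ : ℝ}
    (hφ' : PhLaw D φ' q' ψ) {p : ℤ × ℤ} {w : ℕ} {v : ℤ × ℤ} {Q : Bool → Bool → Bool}
    (hp : D.Plain p w) (hQ : QBox D.R p w v Q) (φ : Half (ℤ × ℤ) → ℝ) (q : Half (ℤ × ℤ) → ℤ) :
    (swap (Cap.plain p w v Q hp hQ)).SLaw (-1) (dph φ φ') (D.q2 q q') :=
  (plain_own hp hQ).swap_law (hφ'.plain hp hQ φ q)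

/-- **the law of the reflected charts at the ceiling** -/
theorem PhLaw.ceil_swap {φ' : Half (ℤ × ℤ) → ℝ} {q' : Half (ℤ × ℤ) → ℤ} {ψ : ℝ}
    (hφ' : PhLaw D φ' q' ψ) {p : ℤ × ℤ} {w : ℕ} {hw : 2 * (w : ℤ) ≤ D.r - D.l}
    {h1 : D.y < p.2 - w} {h2 : p.2 ≤ D.t}
    {hc : ∀ s ∈ sqr w, p.2 + s.2 = D.t → (wr D.l D.r (p.1 + s.1), D.t) ∉ D.U}
    (φ : Half (ℤ × ℤ) → ℝ) (q : Half (ℤ × ℤ) → ℤ) :
    (swap (Cap.ceil p w hw h1 h2 hc)).SLaw (-1) (dph φ φ') (D.q2 q q') :=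
  ceil_own.swap_law (hφ'.ceil φ q)

/-- **the law of the reflected charts in the strip** -/
theorem PhLaw.bulk_swap {φ φ' : Half (ℤ × ℤ) → ℝ} {q q' : Half (ℤ × ℤ) → ℤ} {ψ : ℝ}
    (hφ : PhLaw D φ q ψ) (hφ' : PhLaw D φ' q' ψ) {p : ℤ × ℤ} {w : ℕ}
    {hw : 2 * (w : ℤ) ≤ D.r - D.l} {h1 : p.2 + w ≤ D.t} {h2 : 2 * D.y - D.t ≤ p.2 - w} (ε : ℝ) :
    (swap (Cap.bulk p w hw h1 h2)).SLaw ε (dph φ φ') (D.q2 q q') := by
  have h3 := Cap.swap_law (Q' := D.q2 q q') (hφ'.bulk hφ (p := p) (w := w) (hw := hw) (h1 := h1)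
    (h2 := h2) (-ε)) (fun x hx _ => absurd (rfl : (true : Bool) = true) hx.2.2)
  rwa [neg_neg] at h3

end swap

end Cap

end Full.Norm
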