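import Pool.Agent.Full.Norm.CapAtlas
import Pool.Agent.Full.Norm.Laws

/-!
# The laws of the phases in the charts of the atlas

`chartAt_law`, `swap_law_at`: the law holds in the chart around every tile with `ε = 1` in the first copy
and `ε = -1` in the second copy.  `big`: the charts of radius `w` of which `fam` are the restrictions.
-/

set_option autoImplicit false

namespace Full.Norm
open Finset

namespace Cap
variable {D : Cap} {w A : ℕ}

/-- **the law in the chart around a tile** -/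
theorem chartAt_law (hD : D.Tame w A) (hw : 1 ≤ w) {p : ℤ × ℤ} (hp : p ∈ D.R)
    {φ φ' : Half (ℤ × ℤ) → ℝ} {q q' : Half (ℤ × ℤ) → ℤ} {ψ : ℝ} (hφ : PhLaw D φ q ψ)
    (hφ' : PhLaw D φ' q' ψ) : (chartAt hD hw hp).SLaw 1 (dph φ φ') (D.q2 q q') := by
  rcases chartAt_cases hD hw hp with ⟨v, Q, h1, h2, -, h4⟩ | ⟨h1, h2, h3, h4, h5, h6, h7⟩ |
    ⟨h1, h2, h3, h4, h5, h6⟩
  · rw [h4]
    exact hφ.plain h1 h2 φ' q'
  · rw [h7]
    exact hφ.ceil φ' q'
  · rw [h6]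
    exact hφ.bulk hφ' 1

/-- **the law in the reflected chart around a tile of the other copy** -/
theorem swap_law_at (hD : D.Tame w A) (hw : 1 ≤ w) {p : ℤ × ℤ} (hp : p ∈ D.R)
    {φ φ' : Half (ℤ × ℤ) → ℝ} {q q' : Half (ℤ × ℤ) → ℤ} {ψ : ℝ} (hφ : PhLaw D φ q ψ)
    (hφ' : PhLaw D φ' q' ψ) : (swap (chartAt hD hw hp)).SLaw (-1) (dph φ φ') (D.q2 q q') := by
  rcases chartAt_cases hD hw hp with ⟨v, Q, h1, h2, -, h4⟩ | ⟨h1, h2, h3, h4, h5, h6, h7⟩ |
    ⟨h1, h2, h3, h4, h5, h6⟩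
  · rw [h4]
    exact hφ'.plain_swap h1 h2 φ q
  · rw [h7]
    exact hφ'.ceil_swap φ q
  · rw [h6]
    exact hφ.bulk_swap hφ' (-1)

/-- the charts of radius `w` of the family -/
noncomputable def big {m : ℕ} (hD : D.Tame w A) (hw : 1 ≤ w) (a : D.Idx m) : QChart D.T2 D.g2 w :=
  if a.2 then swap (chartAt hD hw (pick_mem a.1)) else chartAt hD hw (pick_mem a.1)

/-- the sign of the copy -/
def sg {m : ℕ} (a : D.Idx m) : ℤ := if a.2 then -1 else 1

theorem fam_eq {m : ℕ} (hD : D.Tame w A) (hw : 2 * m + 1 ≤ w) (a : D.Idx m) :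
    fam hD hw a = (big hD (by omega) a).restr hw := by
  unfold fam big
  obtain ⟨a, b⟩ := a
  cases b <;> rfl

theorem big_slaw {m : ℕ} (hD : D.Tame w A) (hw : 1 ≤ w) (a : D.Idx m)
    {φ φ' : Half (ℤ × ℤ) → ℝ} {q q' : Half (ℤ × ℤ) → ℤ} {ψ : ℝ} (hφ : PhLaw D φ q ψ)
    (hφ' : PhLaw D φ' q' ψ) : (big hD hw a).SLaw (sg a : ℤ) (dph φ φ') (D.q2 q q') := by
  obtain ⟨a, b⟩ := a
  cases b
  · have h := chartAt_law hD hw (pick_mem a) hφ hφ'
    unfold sg big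
    simpa using h
  · have h := swap_law_at hD hw (pick_mem a) hφ hφ'
    unfold sg big
    simpa using h

/-- **the law in the charts of the family** -/
theorem big_law {m : ℕ} (hD : D.Tame w A) (hw : 1 ≤ w) (a : D.Idx m)
    {φ φ' : Half (ℤ × ℤ) → ℝ} {q q' : Half (ℤ × ℤ) → ℤ} {ψ : ℝ} (hφ : PhLaw D φ q ψ)
    (hφ' : PhLaw D φ' q' ψ) : ∃ θ : ℤ × ℤ → ℝ,
      (big hD hw a).Law (dph φ φ') (sg a) (fun x => D.q2 q q' ((big hD hw a).im x)) θ :=
  (big_slaw hD hw a hφ hφ').law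

end Cap

end Full.Norm
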