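import Pool.Agent.Full.Norm.QMacro

/-!
# Counting strands which are not held, charts of different scales
-/

set_option autoImplicit false
set_option linter.unusedSectionVars false

namespace Full.Norm
open Finset Full.Mom
open Full.Perc (Ex Ex_mono Ex_nonneg)

section count
variable {τ : Type*} [DecidableEq τ] {T : Finset τ} {g : Half τ → Half τ}

/-- **the number of the strands, open or closed, which visit the inner box of a chart and are not held by
this chart** -/
theorem count_le' (hG : Glu T g) {κ : Type*} [Fintype κ] (m : κ → ℕ) (hm : ∀ b, 1 ≤ m b)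
    (c : ∀ b, QChart T g (2 * m b + 1)) (ω : Finset τ) (S : Finset (Half τ))
    (hS : ∀ x ∈ S, ∀ y ∈ S, Conn (mate ω) g x y → x = y)
    (h : ∀ y ∈ S, ∃ b z, Conn (mate ω) g y z ∧ (c b).Inn (m b) z ∧ ¬ (c b).Held ω z) :
    S.card ≤ ∑ b, (c b).X ω := by
  classical
  rcases S.eq_empty_or_nonempty with rfl | ⟨y0, hy0⟩
  · simp
  have : Nonempty κ := ⟨(h y0 hy0).choose⟩
  have : Nonempty (Half τ) := ⟨y0⟩
  choose! b z hc hi hn using h
  have h1 : S.card = ∑ a, (S.filter fun y => b y = a).card :=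
    card_eq_sum_card_fiberwise fun y _ => mem_coe.2 (mem_univ (b y))
  rw [h1]
  refine sum_le_sum fun a _ => ?_
  set S' := (S.filter fun y => b y = a).image z with hS'
  have h2 : (S.filter fun y => b y = a).card = S'.card := by
    rw [hS', card_image_of_injOn]
    intro x hx y hy hxy
    have hx := (mem_filter.1 hx).1
    have hy := (mem_filter.1 hy).1
    refine hS x hx y hy ((hc x hx).trans ?_)
    rw [hxy]
    exact (hG.two ω).symm (hc y hy)
  rw [h2]
  have h3 := count_le hG (hm a) (κ := Unit) (fun _ => c a) ω S' ?_ ?_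
  · simpa using h3
  · intro x hx y hy hxy
    obtain ⟨u, hu, rfl⟩ := mem_image.1 hx
    obtain ⟨v, hv, rfl⟩ := mem_image.1 hy
    have hu := (mem_filter.1 hu).1
    have hv := (mem_filter.1 hv).1
    rw [hS u hu v hv ((hc u hu).trans (hxy.trans ((hG.two ω).symm (hc v hv))))]
  · intro y hy
    obtain ⟨u, hu, rfl⟩ := mem_image.1 hy
    obtain ⟨hu', hua⟩ := mem_filter.1 hu
    subst hua
    exact ⟨(), hi u hu', hn u hu'⟩

/-- the ends of strands -/
theorem ends_le' (hG : Glu T g) {κ : Type*} [Fintype κ] (m : κ → ℕ) (hm : ∀ b, 1 ≤ m b)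
    (c : ∀ b, QChart T g (2 * m b + 1)) (ω : Finset τ) (E : Finset (Half τ))
    (hE : ∀ x ∈ E, Bd T g x)
    (h : ∀ y ∈ E, ∃ b z, Conn (mate ω) g y z ∧ (c b).Inn (m b) z ∧ ¬ (c b).Held ω z) :
    E.card ≤ 2 * ∑ b, (c b).X ω := by
  obtain ⟨S, h1, h2, h3⟩ := exists_repr hG ω E
  have h4 := count_le' hG m hm c ω S h2 fun y hy => h y (h1 hy)
  have h5 : E ⊆ S ∪ S.image (other (mate ω) g) := by
    intro x hx
    obtain ⟨y, hy, hc⟩ := h3 x hx
    rcases (hG.conn_iff (hE y (h1 hy)) (hE x hx)).1 hc with h6 | h6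
    · rw [h6]
      exact mem_union_left _ hy
    · rw [h6]
      exact mem_union_right _ (mem_image_of_mem _ hy)
  have h6 := (card_le_card h5).trans (card_union_le _ _)
  have h7 : (S.image (other (mate ω) g)).card ≤ S.card := card_image_le
  omega

end count

/-- **all exponential moments**, uniformly in the surface and in the scales -/
theorem exists_moment' {Q : ℝ} (hQ : 1 ≤ Q) (B : ℕ) :
    ∃ C : ℝ, 1 ≤ C ∧ ∀ (τ : Type) [DecidableEq τ] (T : Finset τ) (g : Half τ → Half τ)
      (κ : Type) [Fintype κ] (m : κ → ℕ) (c : ∀ b, QChart T g (2 * m b + 1)),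
      Fintype.card κ ≤ B → (∀ b, 1 ≤ m b) →
      avg (fun ω : T → Bool => Q ^ (∑ a, (c a).X (Full.Walk.ofBits T ω))) ≤ C := by
  classical
  obtain ⟨C, hC1, hC⟩ := exists_moment_avg (Q := Q ^ B) (one_le_pow₀ hQ) 1
  refine ⟨1 + B * C, by nlinarith [Nat.cast_nonneg (α := ℝ) B], ?_⟩
  intro τ _ T g κ _ m c hB hm
  have h1 : ∀ ω : T → Bool, Q ^ (∑ a, (c a).X (Full.Walk.ofBits T ω)) ≤
      1 + ∑ a, (Q ^ B) ^ (c a).X (Full.Walk.ofBits T ω) := by
    intro ω
    rcases isEmpty_or_nonempty κ with h | h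
    · simp
    · obtain ⟨b, hb⟩ := Finite.exists_max fun a => (c a).X (Full.Walk.ofBits T ω)
      have h2 : ∑ a, (c a).X (Full.Walk.ofBits T ω) ≤ B * (c b).X (Full.Walk.ofBits T ω) := by
        refine (sum_le_card_nsmul _ _ _ fun a _ => hb a).trans ?_
        rw [card_univ, smul_eq_mul]
        exact Nat.mul_le_mul_right _ hB
      have h3 : Q ^ (∑ a, (c a).X (Full.Walk.ofBits T ω)) ≤
          (Q ^ B) ^ (c b).X (Full.Walk.ofBits T ω) := by
        rw [← pow_mul]
        exact pow_le_pow_right₀ hQ h2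
      have h4 : (Q ^ B) ^ (c b).X (Full.Walk.ofBits T ω) ≤
          ∑ a, (Q ^ B) ^ (c a).X (Full.Walk.ofBits T ω) :=
        single_le_sum (f := fun a => (Q ^ B) ^ (c a).X (Full.Walk.ofBits T ω))
          (fun a _ => by positivity) (mem_univ b)
      linarith
  refine (avg_mono h1).trans ?_
  have h5 : avg (fun ω : T → Bool => 1 + ∑ a, (Q ^ B) ^ (c a).X (Full.Walk.ofBits T ω)) =
      1 + ∑ a, avg (fun ω : T → Bool => (Q ^ B) ^ (c a).X (Full.Walk.ofBits T ω)) := by
    rw [show (fun ω : T → Bool => 1 + ∑ a, (Q ^ B) ^ (c a).X (Full.Walk.ofBits T ω)) =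
      fun ω => (fun _ => (1 : ℝ)) ω + (fun ω => ∑ a, (Q ^ B) ^ (c a).X (Full.Walk.ofBits T ω)) ω
      from rfl, avg_add, avg_const, avg_sum]
  rw [h5]
  have h6 : ∀ a : κ, avg (fun ω : T → Bool => (Q ^ B) ^ (c a).X (Full.Walk.ofBits T ω)) ≤ C := by
    intro a
    have h7 := hC τ T g (m a) Unit (fun _ => c a) (by simp) (hm a)
    simpa using h7
  have h7 : ∑ a, avg (fun ω : T → Bool => (Q ^ B) ^ (c a).X (Full.Walk.ofBits T ω)) ≤ B * C := by
    refine (sum_le_card_nsmul _ _ _ fun a _ => h6 a).trans ?_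
    rw [card_univ, nsmul_eq_mul]
    exact mul_le_mul_of_nonneg_right (by exact_mod_cast hB) (by linarith)
  linarith

end Full.Norm
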