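import Mathlib

/-!
# The weights of the strands

`amp h = |2 cos (π h / 6)|`.
-/

set_option autoImplicit false

namespace Full.Norm

/-- the modulus of the weight of a strand with the holonomy `π h / 6` -/
noncomputable def amp (h : ℤ) : ℝ := |2 * Real.cos (Real.pi / 6 * (h : ℝ))|

lemma amp_nonneg (h : ℤ) : 0 ≤ amp h := abs_nonneg _

lemma amp_neg (h : ℤ) : amp (-h) = amp h := by
  unfold amp
  push_cast
  rw [mul_neg, Real.cos_neg]

lemma amp_add_six (h : ℤ) : amp (h + 6) = amp h := by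
  unfold amp
  have : Real.pi / 6 * ((h + 6 : ℤ) : ℝ) = Real.pi / 6 * (h : ℝ) + Real.pi := by push_cast; ring
  rw [this, Real.cos_add_pi, mul_neg, abs_neg]

lemma amp_add_mul (h : ℤ) (k : ℕ) : amp (h + 6 * k) = amp h := by
  induction k with
  | zero => simp
  | succ k ih =>
    rw [← ih]
    have : h + 6 * ((k + 1 : ℕ) : ℤ) = h + 6 * (k : ℤ) + 6 := by push_cast; ring
    rw [this, amp_add_six]

lemma amp_mod (h : ℤ) : amp h = amp (h % 6) := by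
  have h1 := Int.emod_add_mul_ediv h 6
  rcases le_or_gt 0 (h / 6) with h2 | h2
  · obtain ⟨k, hk⟩ := Int.eq_ofNat_of_zero_le h2
    have h3 := amp_add_mul (h % 6) k
    rw [show h % 6 + 6 * (k : ℤ) = h by rw [← hk]; exact h1] at h3
    exact h3
  · obtain ⟨k, hk⟩ := Int.eq_ofNat_of_zero_le (show 0 ≤ -(h / 6) by omega)
    have h3 := amp_add_mul h k
    rw [show h + 6 * (k : ℤ) = h % 6 by omega] at h3
    exact h3.symm

lemma amp_0 : amp 0 = 2 := by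
  unfold amp
  simp

lemma amp_1 : amp 1 = Real.sqrt 3 := by
  unfold amp
  rw [Int.cast_one, mul_one, Real.cos_pi_div_six]
  rw [mul_div_cancel₀ _ two_ne_zero, abs_of_nonneg (Real.sqrt_nonneg _)]

lemma amp_2 : amp 2 = 1 := by
  unfold amp
  have : Real.pi / 6 * ((2 : ℤ) : ℝ) = Real.pi / 3 := by push_cast; ring
  rw [this, Real.cos_pi_div_three]
  norm_num

lemma amp_3 : amp 3 = 0 := by
  unfold amp
  have : Real.pi / 6 * ((3 : ℤ) : ℝ) = Real.pi / 2 := by push_cast; ring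
  rw [this, Real.cos_pi_div_two]
  simp

lemma amp_4 : amp 4 = 1 := by
  rw [← amp_neg, amp_mod, show (-4 : ℤ) % 6 = 2 from rfl, amp_2]

lemma amp_5 : amp 5 = Real.sqrt 3 := by
  rw [← amp_neg, amp_mod, show (-5 : ℤ) % 6 = 1 from rfl, amp_1]

lemma one_le_sqrt3 : 1 ≤ Real.sqrt 3 := by
  rw [Real.one_le_sqrt]
  norm_num

lemma sqrt3_le_two : Real.sqrt 3 ≤ 2 := by
  rw [Real.sqrt_le_left (by norm_num)]
  norm_num

/-- the values of the weights -/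
lemma amp_cases (h : ℤ) : (h % 6 = 0 ∧ amp h = 2) ∨ ((h % 6 = 1 ∨ h % 6 = 5) ∧ amp h = Real.sqrt 3) ∨
    ((h % 6 = 2 ∨ h % 6 = 4) ∧ amp h = 1) ∨ (h % 6 = 3 ∧ amp h = 0) := by
  have h1 := Int.emod_nonneg h (show (6 : ℤ) ≠ 0 by norm_num)
  have h2 := Int.emod_lt_of_pos h (show (0 : ℤ) < 6 by norm_num)
  have h3 := amp_mod h
  have : h % 6 = 0 ∨ h % 6 = 1 ∨ h % 6 = 2 ∨ h % 6 = 3 ∨ h % 6 = 4 ∨ h % 6 = 5 := by omega
  rcases this with e | e | e | e | e | e <;> rw [e] at h3 ⊢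
  · exact Or.inl ⟨rfl, h3.trans amp_0⟩
  · exact Or.inr (Or.inl ⟨Or.inl rfl, h3.trans amp_1⟩)
  · exact Or.inr (Or.inr (Or.inl ⟨Or.inl rfl, h3.trans amp_2⟩))
  · exact Or.inr (Or.inr (Or.inr ⟨rfl, h3.trans amp_3⟩))
  · exact Or.inr (Or.inr (Or.inl ⟨Or.inr rfl, h3.trans amp_4⟩))
  · exact Or.inr (Or.inl ⟨Or.inr rfl, h3.trans amp_5⟩)

lemma amp_le_two (h : ℤ) : amp h ≤ 2 := by
  rcases amp_cases h with ⟨_, e⟩ | ⟨_, e⟩ | ⟨_, e⟩ | ⟨_, e⟩ <;> rw [e]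
  · exact sqrt3_le_two
  · norm_num
  · norm_num

/-- unless `6` divides `h` the weight is at most `√3` -/
lemma amp_le_sqrt3 {h : ℤ} (h0 : h % 6 ≠ 0) : amp h ≤ Real.sqrt 3 := by
  rcases amp_cases h with ⟨h1, e⟩ | ⟨_, e⟩ | ⟨_, e⟩ | ⟨_, e⟩ <;> rw [e]
  · exact absurd h1 h0
  · exact one_le_sqrt3
  · exact Real.sqrt_nonneg _

lemma amp_eq_zero {h : ℤ} (h0 : h % 6 = 3) : amp h = 0 := by
  rw [amp_mod, h0, amp_3]

lemma amp_eq_one {h : ℤ} (h0 : h % 6 = 2 ∨ h % 6 = 4) : amp h = 1 := by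
  rcases h0 with h0 | h0
  · rw [amp_mod, h0, amp_2]
  · rw [amp_mod, h0, amp_4]

lemma amp_eq_sqrt3 {h : ℤ} (h0 : h % 6 = 1 ∨ h % 6 = 5) : amp h = Real.sqrt 3 := by
  rcases h0 with h0 | h0
  · rw [amp_mod, h0, amp_1]
  · rw [amp_mod, h0, amp_5]

end Full.Norm
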