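import Pool.Agent.Full.Norm.Held
import Pool.Agent.Full.Norm.Table

/-!
# The number of the positions of the screening charge on the own side

In a chart with at most one mark (charge `1` at the gap `j0` of the real arc) and one screening pair
(charges `-1` before and after the wall end `y`): if no strand has the weight zero, then `y` is an end of
the outermost of the arcs over the mark.
-/

set_option autoImplicit false
set_option linter.unusedSectionVars false

namespace Full.Norm
open Finset Function Full.X3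

namespace QChart
variable {τ : Type*} [DecidableEq τ] {T : Finset τ} {g : Half τ → Half τ} {w : ℕ}
  {c : QChart T g w}

/-- the arcs in a chart do not cross -/
lemma Arc.noncross (hg : Turn.Good c.W c.pg) (A : c.Arc) {ω : Finset (ℤ × ℤ)} {k i k' i' : ℕ}
    (hk' : k' < A.N) (hi' : i' < A.N) (h1 : k < i) (h2 : i < k')
    (o1 : other (mate ω) c.pg (A.a k) = A.a k') (o2 : other (mate ω) c.pg (A.a i) = A.a i') :
    k < i' ∧ i' < k' := by
  have hb : Bd c.W c.pg (A.a 0) := (A.real 0 (by omega)).bd
  have hpos : ∀ j < A.N, bpos c.pg (A.a 0) (A.a j) = j := by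
    intro j hj
    have e1 := A.iter (i := 0) (k := j) (by omega)
    have e2 := A.lt_period (i := 0) (k := j) (by omega)
    have e3 := hg.glu.pos_iter (b := A.a 0) e2
    rw [e1, Nat.zero_add] at e3
    exact e3
  have hon : ∀ j < A.N, On c.W c.pg (A.a 0) (A.a j) := by
    intro j hj
    have e1 := A.iter (i := 0) (k := j) (by omega)
    have e2 := hg.glu.on_iter hb j
    rw [e1, Nat.zero_add] at e2
    exact e2
  have h := hg.glu.noncross_four hg.sc ω hb (hon k (by omega)) (hon i (by omega))
    (by rw [hpos k (by omega), hpos i (by omega)]; exact h1)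
    (by rw [hpos i (by omega), o1, hpos k' hk']; exact h2)
  rw [hpos k (by omega), o2, hpos i' hi', o1, hpos k' hk'] at h
  exact h

variable (c) in
/-- the charges: `μ` of the marks and `-1` before and after every point of `Y` -/
noncomputable def chg (μ : Half τ → ℤ) (Y : Finset (Half τ)) (x : Half (ℤ × ℤ)) : ℤ :=
  μ (c.im x) - ∑ e ∈ Y, ((if c.im x = e then 1 else 0) +
    (if c.im (Full.next c.pg x) = e then 1 else 0))

/-- sums of the indicator of one index -/
lemma sum_ind {i k : ℕ} {j0 : ℕ} : (∑ j ∈ range k, if i + j = j0 then (1 : ℤ) else 0) =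
    if i ≤ j0 ∧ j0 < i + k then 1 else 0 := by
  by_cases h : i ≤ j0 ∧ j0 < i + k
  · rw [if_pos h, sum_eq_single_of_mem (j0 - i) (mem_range.2 (by omega))]
    · rw [if_pos (by omega)]
    · intro b _ hb
      rw [if_neg (by omega)]
  · rw [if_neg h]
    apply sum_eq_zero
    intro j hj
    have := mem_range.1 hj
    rw [if_neg (by omega)]

/-- the charge enclosed by an arc, if the chart shows at most one point of `Y` -/
theorem sum_chg (A : c.Arc) {μ : Half τ → ℤ} {Y : Finset (Half τ)} {i k : ℕ} (hk : i + k < A.N)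
    {iy : ℕ} (hiy : iy < A.N) (hY : c.im (A.a iy) ∈ Y)
    (hY' : ∀ j < A.N, c.im (A.a j) ∈ Y → j = iy) :
    ∑ j ∈ range k, c.chg μ Y (A.a (i + j)) = ∑ j ∈ range k, μ (c.im (A.a (i + j))) -
      ((if i ≤ iy ∧ iy < i + k then 1 else 0) + (if i < iy ∧ iy ≤ i + k then 1 else 0)) := by
  have himinj : ∀ j < A.N, ∀ l < A.N, c.im (A.a j) = c.im (A.a l) → j = l := by
    intro j hj l hl h
    exact A.inj j hj l hl (c.win.im_inj (A.real j hj).1 (A.real l hl).1 h)
  have h1 : ∀ j ∈ range k, c.chg μ Y (A.a (i + j)) = μ (c.im (A.a (i + j))) -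
      ((if i + j = iy then 1 else 0) + (if i + 1 + j = iy then 1 else 0)) := by
    intro j hj
    have hj := mem_range.1 hj
    unfold chg
    rw [A.next _ (by omega)]
    congr 1
    rw [sum_add_distrib]
    have key : ∀ l < A.N, (∑ e ∈ Y, if c.im (A.a l) = e then (1 : ℤ) else 0) =
        if l = iy then 1 else 0 := by
      intro l hl
      by_cases h : l = iy
      · subst h
        rw [if_pos rfl, sum_eq_single_of_mem _ hY]
        · rw [if_pos rfl]
        · intro b _ hb
          rw [if_neg (Ne.symm hb)]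
      · rw [if_neg h]
        apply sum_eq_zero
        intro e he
        rw [if_neg]
        intro h2
        exact h (hY' l hl (by rw [h2]; exact he))
    rw [key _ (by omega), key _ (by omega)]
    congr 2
    rw [show i + j + 1 = i + 1 + j by omega]
  rw [sum_congr rfl h1, sum_sub_distrib, sum_add_distrib, sum_ind, sum_ind]
  congr 2
  congr 1
  exact propext ⟨fun h => by omega, fun h => by omega⟩

/-- the charge enclosed by an arc, if the chart shows no point of `Y` -/
theorem sum_chg' (A : c.Arc) {μ : Half τ → ℤ} {Y : Finset (Half τ)} {i k : ℕ} (hk : i + k < A.N)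
    (hY' : ∀ j < A.N, c.im (A.a j) ∉ Y) :
    ∑ j ∈ range k, c.chg μ Y (A.a (i + j)) = ∑ j ∈ range k, μ (c.im (A.a (i + j))) := by
  refine sum_congr rfl fun j hj => ?_
  have hj := mem_range.1 hj
  unfold chg
  rw [A.next _ (by omega), sub_eq_self]
  apply sum_eq_zero
  intro e he
  rw [if_neg, if_neg, add_zero]
  · intro h
    exact hY' (i + j + 1) (by omega) (by rw [h]; exact he)
  · intro h
    exact hY' (i + j) (by omega) (by rw [h]; exact he)

/-- an arc of the chart over the gap `j0` -/
def Enc (A : c.Arc) (ω : Finset τ) (j0 i i' : ℕ) : Prop :=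
  i ≤ j0 ∧ j0 < i' ∧ i' < A.N ∧ other (mate (c.pl ω)) c.pg (A.a i) = A.a i'

/-- the two ends of the outermost arc over the gap `j0` -/
def Out (A : c.Arc) (ω : Finset τ) (j0 : ℕ) (e : Half τ) : Prop :=
  ∃ i i', Enc A ω j0 i i' ∧ (e = c.im (A.a i) ∨ e = c.im (A.a i')) ∧
    ∀ k k', Enc A ω j0 k k' → i ≤ k

/-- there are at most two -/
theorem card_out (A : c.Arc) (ω : Finset τ) (j0 : ℕ) (S : Finset (Half τ))
    (hS : ∀ e ∈ S, Out A ω j0 e) : S.card ≤ 2 := by
  classical
  rcases S.eq_empty_or_nonempty with rfl | ⟨e, he⟩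
  · simp
  obtain ⟨i, i', h1, -, h3⟩ := hS e he
  have : S ⊆ {c.im (A.a i), c.im (A.a i')} := by
    intro e' he'
    obtain ⟨k, k', g1, g2, g3⟩ := hS e' he'
    have e1 := h3 _ _ g1
    have e2 := g3 _ _ h1
    have e3 : i = k := le_antisymm e1 e2
    subst e3
    have e4 : i' = k' := A.inj _ h1.2.2.1 _ g1.2.2.1 (by rw [← h1.2.2.2, ← g1.2.2.2])
    subst e4
    rw [mem_insert, mem_singleton]
    exact g2
  exact (card_le_card this).trans card_le_two

/-- **own side**: if no strand of the chart has the weight zero and the chart shows exactly one point of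
`Y` and at most the mark `j0`, then this point is an end of the outermost arc over the mark -/
theorem Law.out (hg : Turn.Good c.W c.pg) (A : c.Arc) {φ : Half τ → ℝ} {μ : Half τ → ℤ}
    {Y : Finset (Half τ)} {θ : ℤ × ℤ → ℝ} (h : c.Law φ 1 (c.chg μ Y) θ) {ω : Finset τ} {j0 : ℕ}
    (hμ : ∀ j, j + 1 < A.N → μ (c.im (A.a j)) = if j = j0 then 1 else 0)
    {iy i' : ℕ} (hiy : iy < A.N) (hY : c.im (A.a iy) ∈ Y)
    (hY' : ∀ j < A.N, c.im (A.a j) ∈ Y → j = iy)
    (hi' : i' < A.N) (ho : other (mate (c.pl ω)) c.pg (A.a iy) = A.a i')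
    (hnz : ∀ i < A.N, Real.cos (X3.hol (Real.pi / 24) φ g ω (c.im (A.a i))) ≠ 0) :
    Out A ω j0 (c.im (A.a iy)) := by
  have hbd := (A.real iy hiy).bd
  have hne : iy ≠ i' := by
    intro e
    have h1 := c.glu_pg.other_ne (ω := c.pl ω) hbd
    rw [ho, e] at h1
    exact h1 rfl
  -- the weight of an arc
  have hw : ∀ k l : ℕ, 0 < l → k + l < A.N → other (mate (c.pl ω)) c.pg (A.a k) = A.a (k + l) →
      (if k ≤ j0 ∧ j0 < k + l then (1 : ℤ) else 0) -
        ((if k ≤ iy ∧ iy < k + l then 1 else 0) + (if k < iy ∧ iy ≤ k + l then 1 else 0)) ≠ -1 := by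
    intro k l h0 hkl hol
    have h1 := h.hol_own hg A h0 hkl hol
    have h2 := sum_chg A (μ := μ) hkl hiy hY hY'
    have h3 : ∑ j ∈ range l, μ (c.im (A.a (k + j))) =
        if k ≤ j0 ∧ j0 < k + l then (1 : ℤ) else 0 := by
      rw [← sum_ind]
      exact sum_congr rfl fun j hj => hμ _ (by have := mem_range.1 hj; omega)
    rw [h3] at h2
    rw [h2] at h1
    intro h4
    rw [h4] at h1
    apply hnz k (by omega)
    rw [h1]
    have h5 := amp_eq_zero (h := 2 * (-1) - 1) rfl
    unfold amp at h5
    have h6 := abs_eq_zero.1 h5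
    have h7 : (2 : ℝ) ≠ 0 := two_ne_zero
    exact (mul_eq_zero.1 h6).resolve_left h7
  -- an arc over the gap `j0` which begins before the arc of `iy` is strictly outside
  have hout : ∀ i l : ℕ, 0 < l → i + l < A.N → other (mate (c.pl ω)) c.pg (A.a i) = A.a (i + l) →
      (iy = i ∨ iy = i + l) → i ≤ j0 → j0 < i + l → ∀ k k', Enc A ω j0 k k' → i ≤ k := by
    intro i l h0 hl hil hi h1 h2 k k' hk
    by_contra h3
    push Not at h3
    obtain ⟨g1, g2, g3, g4⟩ := hk
    have h4 := A.noncross hg g3 hl h3 (by omega) g4 hil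
    have h5 := hw k (k' - k) (by omega) (by omega) (by rw [g4]; congr 1; omega)
    rw [show k + (k' - k) = k' by omega] at h5
    rw [if_pos ⟨g1, g2⟩, if_pos (by omega), if_pos (by omega)] at h5
    exact h5 (by norm_num)
  have hi'bd := (A.real i' hi').bd
  rcases lt_or_gt_of_ne hne with hlt | hlt
  · have h1 := hw iy (i' - iy) (by omega) (by omega) (by rw [ho]; congr 1; omega)
    rw [show iy + (i' - iy) = i' by omega, if_pos (c := iy ≤ iy ∧ iy < i') ⟨le_rfl, hlt⟩,
      if_neg (c := iy < iy ∧ iy ≤ i') (by omega)] at h1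
    have h2 : iy ≤ j0 ∧ j0 < i' := by
      by_contra h2
      rw [if_neg h2] at h1
      exact h1 (by norm_num)
    refine ⟨iy, i', ⟨h2.1, h2.2, hi', ho⟩, Or.inl rfl, ?_⟩
    exact hout iy (i' - iy) (by omega) (by omega) (by rw [ho]; congr 1; omega) (Or.inl rfl) h2.1
      (by omega)
  · have ho' : other (mate (c.pl ω)) c.pg (A.a i') = A.a iy := by
      rw [← ho, c.glu_pg.other_other hbd]
    have h1 := hw i' (iy - i') (by omega) (by omega) (by rw [ho']; congr 1; omega)
    rw [show i' + (iy - i') = iy by omega, if_neg (c := i' ≤ iy ∧ iy < iy) (by omega),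
      if_pos (c := i' < iy ∧ iy ≤ iy) ⟨hlt, le_rfl⟩] at h1
    have h2 : i' ≤ j0 ∧ j0 < iy := by
      by_contra h2
      rw [if_neg h2] at h1
      exact h1 (by norm_num)
    refine ⟨i', iy, ⟨h2.1, h2.2, hiy, ho'⟩, Or.inr rfl, ?_⟩
    exact hout i' (iy - i') (by omega) (by omega) (by rw [ho']; congr 1; omega)
      (Or.inr (by omega)) h2.1 (by omega)

end QChart

end Full.Norm
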