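import Pool.Agent.Full.Norm.Held
import Pool.Agent.Full.Norm.Table
import Pool.Agent.Full.Corner.Shape

/-!
# The pointwise bound of the weight of a configuration

`Fct`: a local factor, a region `A` of a chart with two disjoint sets `L`, `R` of real wall ends and a
number `z`.  `norm_cw_le`: if the strands of the factors from `L` to `R` have weights at most `z √3`, the
other open strands at most `√3` and the loops at most `1` except for at most `M` bad strands, then the
weight of the configuration is at most `√3 ^ #arcs * ∏ z ^ cnt * 2 ^ M`.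
-/

set_option autoImplicit false
set_option linter.unusedSectionVars false

namespace Full.Norm
open Finset Function Full.X3 Full.Corner

variable {τ : Type*} [DecidableEq τ] {T : Finset τ} {g : Half τ → Half τ}

/-- the modulus of the weight of the open strand of `e` -/
noncomputable def fw (φ : Half τ → ℝ) (g : Half τ → Half τ) (ω : Finset τ) (e : Half τ) : ℝ :=
  |2 * Real.cos (X3.hol (Real.pi / 24) φ g ω e)|

/-- the modulus of the weight of the loop of `x` -/
noncomputable def fl (φ : Half τ → ℝ) (g : Half τ → Half τ) (ω : Finset τ) (x : Half τ) : ℝ :=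
  |2 * Real.cos (holn (Real.pi / 24) φ g ω (minimalPeriod (g ∘ mate ω) x) x)|

lemma abs_two_cos_le (r : ℝ) : |2 * Real.cos r| ≤ 2 := by
  rw [abs_mul, abs_two]
  have := Real.abs_cos_le_one r
  linarith

lemma fw_nonneg (φ : Half τ → ℝ) (g : Half τ → Half τ) (ω : Finset τ) (e : Half τ) :
    0 ≤ fw φ g ω e := abs_nonneg _

lemma fw_le_two (φ : Half τ → ℝ) (g : Half τ → Half τ) (ω : Finset τ) (e : Half τ) :
    fw φ g ω e ≤ 2 := abs_two_cos_le _

lemma fl_nonneg (φ : Half τ → ℝ) (g : Half τ → Half τ) (ω : Finset τ) (e : Half τ) :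
    0 ≤ fl φ g ω e := abs_nonneg _

lemma fl_le_two (φ : Half τ → ℝ) (g : Half τ → Half τ) (ω : Finset τ) (e : Half τ) :
    fl φ g ω e ≤ 2 := abs_two_cos_le _

lemma fw_other (hG : Glu T g) (φ : Half τ → ℝ) (ω : Finset τ) {e : Half τ} (he : Bd T g e) :
    fw φ g ω (other (mate ω) g e) = fw φ g ω e := by
  unfold fw
  rw [X3.hol_other hG _ φ ω he, mul_comm, mul_comm (2 : ℝ), Real.cos_neg]

lemma norm_two_cos (r : ℝ) : ‖(2 : ℂ) * Complex.cos (r : ℂ)‖ = |2 * Real.cos r| := by
  rw [← Complex.ofReal_cos, show (2 : ℂ) = ((2 : ℝ) : ℂ) by norm_num, ← Complex.ofReal_mul,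
    Complex.norm_real, Real.norm_eq_abs]

/-- the modulus of the weight of a configuration -/
lemma norm_cw {ι : Type*} [LinearOrder ι] (φ : Half τ → ℝ) (o : Half τ → ι) (ω : Finset τ) :
    ‖cw (Real.pi / 24) φ T g none o ω‖ = (∏ e ∈ arcs T g ω none o, fw φ g ω e) *
      ∏ c ∈ loops T g ω, fl φ g ω (Quot.out c) := by
  unfold cw zw
  rw [mul_one, norm_mul, norm_prod, norm_prod]
  congr 1
  · exact prod_congr rfl fun e _ => norm_two_cos _
  · exact prod_congr rfl fun c _ => by
      unfold lpw fl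
      exact norm_two_cos _

/-- twice the number of the open strands is the number of their ends -/
theorem two_card_arcs {ι : Type*} [LinearOrder ι] (hG : Glu T g) (ω : Finset τ) {o : Half τ → ι}
    (ho : ∀ x, Bd T g x → ∀ y, Bd T g y → o x = o y → x = y) :
    2 * (arcs T g ω none o).card = (ends T g).card := by
  classical
  have h1 : ends T g = arcs T g ω none o ∪ (arcs T g ω none o).image (other (mate ω) g) := by
    ext e
    rw [mem_union, mem_image, mem_ends, mem_arcs]
    constructor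
    · intro he
      have hne : o e ≠ o (other (mate ω) g e) := fun h4 =>
        hG.other_ne he (ho _ he _ (hG.other_bd he) h4).symm
      rcases lt_or_gt_of_ne hne with h | h
      · exact Or.inl ⟨he, by simp, by simp, h⟩
      · refine Or.inr ⟨other (mate ω) g e, ?_, hG.other_other he⟩
        rw [mem_arcs]
        exact ⟨hG.other_bd he, by simp, by simp, by rw [hG.other_other he]; exact h⟩
    · rintro (h | ⟨x, hx, rfl⟩)
      · exact h.1
      · rw [mem_arcs] at hx
        exact hG.other_bd hx.1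
  rw [h1, card_union_of_disjoint, card_image_of_injOn, two_mul]
  · intro x hx y hy h
    rw [mem_coe, mem_arcs] at hx hy
    have := congrArg (other (mate ω) g) h
    rwa [hG.other_other hx.1, hG.other_other hy.1] at this
  · rw [Finset.disjoint_left]
    intro x hx hx'
    obtain ⟨y, hy, h⟩ := mem_image.1 hx'
    rw [mem_arcs] at hx hy
    have h2 : other (mate ω) g x = y := by rw [← h, hG.other_other hy.1]
    have h3 := hx.2.2.2
    rw [h2] at h3
    have h4 := hy.2.2.2
    rw [h] at h4
    exact lt_asymm h3 h4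

/-- a local factor -/
structure Fct (T : Finset τ) (g : Half τ → Half τ) where
  /-- the radius of the chart -/
  w : ℕ
  /-- the chart -/
  c : QChart T g w
  /-- the region -/
  A : Finset (ℤ × ℤ)
  /-- the wall ends on one side of the special point -/
  L : Set (Half (ℤ × ℤ))
  /-- the wall ends on the other side of the special point -/
  R : Set (Half (ℤ × ℤ))
  /-- the weight of a strand from `L` to `R` -/
  z : ℝ
  sub : A ⊆ c.W
  realL : ∀ x, Bd A (plane.glue A) x → x ∈ L → c.Real x
  realR : ∀ x, Bd A (plane.glue A) x → x ∈ R → c.Real x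
  disj : ∀ x ∈ L, x ∉ R
  hz : 0 ≤ z

namespace Fct
variable (F : Fct T g)

/-- the number of the strands from `L` to `R` -/
noncomputable def cnt (ω : Finset τ) : ℕ := pc F.A (F.c.pl ω) F.L F.R

/-- `x` is the end in `L` of a strand from `L` to `R` -/
def St0 (ω : Finset τ) (x : Half (ℤ × ℤ)) : Prop :=
  Bd F.A (plane.glue F.A) x ∧ x ∈ F.L ∧ other (mate (F.c.pl ω)) (plane.glue F.A) x ∈ F.R

/-- the other end of the strand of the region of the factor -/
noncomputable def oth (ω : Finset τ) (x : Half (ℤ × ℤ)) : Half (ℤ × ℤ) :=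
  other (mate (F.c.pl ω)) (plane.glue F.A) x

/-- `e` is an end of the image of a strand from `L` to `R` -/
def Str (ω : Finset τ) (e : Half τ) : Prop :=
  ∃ x, F.St0 ω x ∧ (e = F.c.im x ∨ e = F.c.im (F.oth ω x))

variable {F} {ω : Finset τ}

lemma St0.bd' {x : Half (ℤ × ℤ)} (h : F.St0 ω x) : Bd F.A (plane.glue F.A) (F.oth ω x) :=
  (plane.glu F.A).other_bd h.1

lemma St0.real {x : Half (ℤ × ℤ)} (h : F.St0 ω x) : F.c.Real x := F.realL x h.1 h.2.1

lemma St0.real' {x : Half (ℤ × ℤ)} (h : F.St0 ω x) : F.c.Real (F.oth ω x) :=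
  F.realR _ h.bd' h.2.2

/-- the strand of the region of the factor is a strand of the region of the chart -/
lemma St0.oth_eq {x : Half (ℤ × ℤ)} (h : F.St0 ω x) :
    other (mate (F.c.pl ω)) F.c.pg x = F.oth ω x := by
  have hw := win_glue plane F.sub
  exact hw.other_up h.real.bd h.1.1 h.real'.bd.2

/-- the strand of the region of the factor is a strand of the surface -/
lemma St0.other_im {x : Half (ℤ × ℤ)} (h : F.St0 ω x) :
    other (mate ω) g (F.c.im x) = F.c.im (F.oth ω x) := by
  rw [QChart.other_im h.real (by rw [h.oth_eq]; exact h.real'), h.oth_eq]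

/-- the number of the open strands which are images of strands from `L` to `R` -/
theorem card_str {ι : Type*} [LinearOrder ι] (hG : Glu T g) {o : Half τ → ι}
    (ho : ∀ x, Bd T g x → ∀ y, Bd T g y → o x = o y → x = y) [DecidablePred (F.Str ω)] :
    ((arcs T g ω none o).filter (F.Str ω)).card = F.cnt ω := by
  classical
  unfold cnt pc Corner.cnt
  symm
  have hrep : ∀ x, F.St0 ω x → Bd T g (F.c.im x) ∧ Bd T g (F.c.im (F.oth ω x)) ∧
      other (mate ω) g (F.c.im x) = F.c.im (F.oth ω x) ∧
      other (mate ω) g (F.c.im (F.oth ω x)) = F.c.im x ∧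
      o (F.c.im x) ≠ o (F.c.im (F.oth ω x)) := by
    intro x hx
    have h1 := hx.real.bdT
    have h2 := hx.real'.bdT
    have h3 := hx.other_im
    refine ⟨h1, h2, h3, ?_, ?_⟩
    · rw [← h3, hG.other_other h1]
    · intro h4
      have h5 := ho _ h1 _ h2 h4
      rw [← h3] at h5
      exact hG.other_ne h1 h5.symm
  refine card_bij (fun x _ => if o (F.c.im x) < o (F.c.im (F.oth ω x)) then F.c.im x
    else F.c.im (F.oth ω x)) ?_ ?_ ?_
  · intro x hx
    rw [mem_filter, mem_bdF] at hx
    have hx' : F.St0 ω x := hx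
    obtain ⟨h1, h2, h3, h4, h5⟩ := hrep x hx'
    rw [mem_filter, mem_arcs]
    split_ifs with h6
    · exact ⟨⟨h1, by simp, by simp, by rw [h3]; exact h6⟩, x, hx', Or.inl rfl⟩
    · refine ⟨⟨h2, by simp, by simp, ?_⟩, x, hx', Or.inr rfl⟩
      rw [h4]
      exact lt_of_le_of_ne (not_lt.1 h6) (Ne.symm h5)
  · intro x hx y hy h
    rw [mem_filter, mem_bdF] at hx hy
    have hx' : F.St0 ω x := hx
    have hy' : F.St0 ω y := hy
    obtain ⟨h1, h2, h3, h4, -⟩ := hrep x hx'
    obtain ⟨k1, k2, k3, k4, -⟩ := hrep y hy'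
    -- both ends are equal up to the order
    have key : F.c.im x = F.c.im y ∨ F.c.im x = F.c.im (F.oth ω y) := by
      split_ifs at h with h6 h7 h7
      · exact Or.inl h
      · exact Or.inr h
      · right
        have := congrArg (other (mate ω) g) h
        rwa [h4, k3] at this
      · left
        have := congrArg (other (mate ω) g) h
        rwa [h4, k4] at this
    have hW : ∀ z, Bd F.A (plane.glue F.A) z → z.1 ∈ F.c.W := fun z hz => F.sub hz.1
    rcases key with h6 | h6
    · exact F.c.win.im_inj (hW _ hx'.1) (hW _ hy'.1) h6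
    · exfalso
      have h7 := F.c.win.im_inj (hW _ hx'.1) (hW _ hy'.bd') h6
      exact F.disj x hx'.2.1 (by rw [h7]; exact hy'.2.2)
  · intro e he
    rw [mem_filter, mem_arcs] at he
    obtain ⟨⟨h1, -, -, h2⟩, x, hx, h3⟩ := he
    obtain ⟨k1, k2, k3, k4, k5⟩ := hrep x hx
    refine ⟨x, ?_, ?_⟩
    · rw [mem_filter, mem_bdF]
      exact hx
    · rcases h3 with h3 | h3
      · rw [h3, k3] at h2
        rw [if_pos h2, h3]
      · rw [h3, k4] at h2
        rw [if_neg (not_lt.2 h2.le), h3]

end Fct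

/-- **the pointwise bound** -/
theorem norm_cw_le {ι : Type*} [LinearOrder ι] (hG : Glu T g) {o : Half τ → ι}
    (ho : ∀ x, Bd T g x → ∀ y, Bd T g y → o x = o y → x = y) {κ : Type*} [DecidableEq κ]
    (s : Finset κ) (F : κ → Fct T g)
    (hdis : ∀ k ∈ s, ∀ l ∈ s, k ≠ l → ∀ t ∈ (F k).A, ∀ t' ∈ (F l).A, (F k).c.φ t ≠ (F l).c.φ t')
    (φ : Half τ → ℝ) (ω : Finset τ)
    (Bad : Half τ → Prop) (hF : ∀ k ∈ s, ∀ e, (F k).Str ω e → fw φ g ω e ≤ (F k).z * Real.sqrt 3 ∨
      (Bad e ∧ fw φ g ω e ≤ 2 * ((F k).z * Real.sqrt 3)))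
    (hB : ∀ e, Bd T g e → Real.sqrt 3 < fw φ g ω e → (∃ k ∈ s, (F k).Str ω e) ∨ Bad e)
    (hL : ∀ e, e.1 ∈ T → (∀ y, Conn (mate ω) g e y → g y ≠ y) → 1 < fl φ g ω e → Bad e)
    {M : ℕ} (hM : ∀ S : Finset (Half τ), (∀ x ∈ S, ∀ y ∈ S, Conn (mate ω) g x y → x = y) →
      (∀ x ∈ S, x.1 ∈ T ∧ Bad x) → S.card ≤ M) :
    ‖cw (Real.pi / 24) φ T g none o ω‖ ≤ Real.sqrt 3 ^ (arcs T g ω none o).card *
      (∏ k ∈ s, (F k).z ^ (F k).cnt ω) * 2 ^ M := by
  classical
  have h2 := hG.two ω
  have hs3 := one_le_sqrt3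
  have hs0 : 0 < Real.sqrt 3 := by linarith
  set A := arcs T g ω none o with hA
  set B1 := A.filter fun e => (Real.sqrt 3 < fw φ g ω e ∧ ¬ ∃ k ∈ s, (F k).Str ω e) ∨
    ∃ k ∈ s, (F k).Str ω e ∧ (F k).z * Real.sqrt 3 < fw φ g ω e with hB1
  set L := loops T g ω with hLs
  set B2 := L.filter fun c => 1 < fl φ g ω (Quot.out c) with hB2
  -- the open strands
  have e1 : ∀ e ∈ A, fw φ g ω e ≤ Real.sqrt 3 * (∏ k ∈ s, if (F k).Str ω e then (F k).z else 1) *
      (if e ∈ B1 then 2 else 1) := by
    intro e he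
    by_cases h : ∃ k ∈ s, (F k).Str ω e
    · obtain ⟨k, hk, hke⟩ := h
      have h3 : ∏ l ∈ s, (if (F l).Str ω e then (F l).z else 1) = (F k).z := by
        rw [prod_eq_single_of_mem k hk]
        · rw [if_pos hke]
        · intro l hl hlk
          rw [if_neg]
          rintro ⟨y, hy, hy'⟩
          obtain ⟨x, hx, hx'⟩ := hke
          have a1 : ∃ t ∈ (F k).A, (F k).c.φ t = e.1 := by
            rcases hx' with h | h
            · exact ⟨x.1, hx.1.1, by rw [h]; rfl⟩
            · exact ⟨_, hx.bd'.1, by rw [h]; rfl⟩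
          have a2 : ∃ t ∈ (F l).A, (F l).c.φ t = e.1 := by
            rcases hy' with h | h
            · exact ⟨y.1, hy.1.1, by rw [h]; rfl⟩
            · exact ⟨_, hy.bd'.1, by rw [h]; rfl⟩
          obtain ⟨t, ht, h5⟩ := a1
          obtain ⟨t', ht', h6⟩ := a2
          exact hdis k hk l hl (Ne.symm hlk) t ht t' ht' (by rw [h5, h6])
      rw [h3]
      have h6 : 0 ≤ Real.sqrt 3 * (F k).z := mul_nonneg hs0.le (F k).hz
      by_cases h7 : (F k).z * Real.sqrt 3 < fw φ g ω e
      · rw [if_pos (mem_filter.2 ⟨he, Or.inr ⟨k, hk, hke, h7⟩⟩)]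
        rcases hF k hk e hke with h4 | h4
        · linarith
        · linarith [h4.2]
      · push Not at h7
        have h5 : fw φ g ω e ≤ Real.sqrt 3 * (F k).z := by linarith
        split_ifs
        · linarith
        · rw [mul_one]; exact h5
    · have h3 : ∏ l ∈ s, (if (F l).Str ω e then (F l).z else 1) = 1 := by
        apply prod_eq_one
        intro l hl
        rw [if_neg fun h' => h ⟨l, hl, h'⟩]
      rw [h3, mul_one]
      by_cases h4 : e ∈ B1
      · rw [if_pos h4]
        have := fw_le_two φ g ω e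
        linarith
      · rw [if_neg h4, mul_one]
        by_contra h5
        push Not at h5
        exact h4 (mem_filter.2 ⟨he, Or.inl ⟨h5, h⟩⟩)
  have e2 : ∏ e ∈ A, fw φ g ω e ≤ Real.sqrt 3 ^ A.card * (∏ k ∈ s, (F k).z ^ (F k).cnt ω) *
      2 ^ B1.card := by
    refine (prod_le_prod (fun e _ => fw_nonneg φ g ω e) e1).trans (le_of_eq ?_)
    rw [prod_mul_distrib, prod_mul_distrib, prod_const, prod_comm]
    congr 1
    · congr 1
      refine prod_congr rfl fun k _ => ?_
      rw [← Fct.card_str hG ho, prod_ite, prod_const, prod_const_one, mul_one]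
    · rw [prod_ite, prod_const, prod_const_one, mul_one]
      congr 2
      ext e
      rw [mem_filter]
      exact ⟨fun h => h.2, fun h => ⟨(mem_filter.1 h).1, h⟩⟩
  -- the loops
  have e3 : ∏ c ∈ L, fl φ g ω (Quot.out c) ≤ 2 ^ B2.card := by
    have h3 : ∀ c ∈ L, fl φ g ω (Quot.out c) ≤ if c ∈ B2 then 2 else 1 := by
      intro c hc
      split_ifs with h
      · exact fl_le_two _ _ _ _
      · by_contra h5
        push Not at h5
        exact h (mem_filter.2 ⟨hc, h5⟩)
    refine (prod_le_prod (fun c _ => fl_nonneg _ _ _ _) h3).trans (le_of_eq ?_)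
    rw [prod_ite, prod_const, prod_const_one, mul_one]
    congr 2
    ext e
    rw [mem_filter]
    exact ⟨fun h => h.2, fun h => ⟨(mem_filter.1 h).1, h⟩⟩
  -- the representatives of the loops
  have hloop : ∀ c ∈ L, (Quot.out c).1 ∈ T ∧
      ∀ y, Conn (mate ω) g (Quot.out c) y → g y ≠ y := by
    intro c hc
    rw [hLs] at hc
    unfold loops at hc
    rw [mem_filter] at hc
    obtain ⟨hc1, hc2⟩ := hc
    have hout : st (mate ω) g (Quot.out c) = c := Quot.out_eq c
    have hT : (Quot.out c : Half τ).1 ∈ T := by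
      unfold strands at hc1
      rw [mem_image] at hc1
      obtain ⟨x, hx, hxc⟩ := hc1
      have : Conn (mate ω) g x (Quot.out c) := h2.st_eq.1 (hxc.trans hout.symm)
      exact hG.conn_mem this (mem_hs.1 hx)
    refine ⟨hT, fun y hy h3 => ?_⟩
    exact hc2 y (mem_ends.2 ⟨hG.conn_mem hy hT, h3⟩) ((Quot.sound hy).symm.trans hout)
  -- the number of the bad strands
  have e4 : B1.card + B2.card ≤ M := by
    have hinj : ∀ c ∈ B2, ∀ c' ∈ B2, Quot.out c = Quot.out c' → c = c' := by
      intro c _ c' _ h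
      rw [← Quot.out_eq c, ← Quot.out_eq c', h]
    have hB1' : ∀ e ∈ B1, Bd T g e ∧ o e < o (other (mate ω) g e) ∧ Bad e := by
      intro e he
      rw [hB1, mem_filter, hA, mem_arcs] at he
      refine ⟨he.1.1, he.1.2.2.2, ?_⟩
      rcases he.2 with h | ⟨k, hk, h, h'⟩
      · exact (hB e he.1.1 h.1).resolve_left h.2
      · exact ((hF k hk e h).resolve_left (not_le.2 h')).1
    have hdisj : Disjoint B1 (B2.image Quot.out) := by
      rw [Finset.disjoint_left]
      intro x hx hx'
      obtain ⟨c, hc, rfl⟩ := mem_image.1 hx'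
      exact (hloop c (mem_filter.1 hc).1).2 _ (Conn.refl _) (hB1' _ hx).1.2
    have h3 : (B1 ∪ B2.image Quot.out).card = B1.card + B2.card := by
      rw [card_union_of_disjoint hdisj, card_image_of_injOn (fun c hc c' hc' h =>
        hinj c hc c' hc' h)]
    rw [← h3]
    refine hM _ ?_ ?_
    · intro x hx y hy hc
      rcases mem_union.1 hx with hx | hx <;> rcases mem_union.1 hy with hy | hy
      · obtain ⟨a1, a2, -⟩ := hB1' x hx
        obtain ⟨b1, b2, -⟩ := hB1' y hy
        rcases (hG.conn_iff a1 b1).1 hc with h | h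
        · exact h.symm
        · exfalso
          rw [h, hG.other_other a1] at b2
          exact lt_asymm a2 b2
      · exfalso
        obtain ⟨c, hc', rfl⟩ := mem_image.1 hy
        exact (hloop c (mem_filter.1 hc').1).2 x (h2.symm hc) (hB1' x hx).1.2
      · exfalso
        obtain ⟨c, hc', rfl⟩ := mem_image.1 hx
        exact (hloop c (mem_filter.1 hc').1).2 y hc (hB1' y hy).1.2
      · obtain ⟨c, hc', rfl⟩ := mem_image.1 hx
        obtain ⟨c', hc'', rfl⟩ := mem_image.1 hy
        congr 1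
        rw [← Quot.out_eq c, ← Quot.out_eq c']
        exact Quot.sound hc
    · intro x hx
      rcases mem_union.1 hx with hx | hx
      · exact ⟨(hB1' x hx).1.1, (hB1' x hx).2.2⟩
      · obtain ⟨c, hc, rfl⟩ := mem_image.1 hx
        rw [hB2, mem_filter] at hc
        obtain ⟨h3, h4⟩ := hloop c hc.1
        exact ⟨h3, hL _ h3 h4 hc.2⟩
  have hP : 0 ≤ Real.sqrt 3 ^ A.card * ∏ k ∈ s, (F k).z ^ (F k).cnt ω :=
    mul_nonneg (by positivity) (prod_nonneg fun k _ => pow_nonneg (F k).hz _)
  rw [norm_cw]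
  calc (∏ e ∈ A, fw φ g ω e) * ∏ c ∈ L, fl φ g ω (Quot.out c)
      ≤ (Real.sqrt 3 ^ A.card * (∏ k ∈ s, (F k).z ^ (F k).cnt ω) * 2 ^ B1.card) * 2 ^ B2.card :=
        mul_le_mul e2 e3 (prod_nonneg fun c _ => fl_nonneg _ _ _ _) (by positivity)
    _ = Real.sqrt 3 ^ A.card * (∏ k ∈ s, (F k).z ^ (F k).cnt ω) * 2 ^ (B1.card + B2.card) := by
        rw [mul_assoc _ (2 ^ B1.card), ← pow_add]
    _ ≤ _ := mul_le_mul_of_nonneg_left (pow_le_pow_right₀ (by norm_num) e4) hP

end Full.Norm
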