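import Pool.Agent.Full.Norm.QShape
import Pool.Agent.Full.Norm.Natural
import Pool.Agent.Full.Norm.Point

/-!
# The weights of the strands in terms of positions

`QChart.Dat c φ ε μ Y p0 py`: the chart `c` with the law of the phases (`ε = 1` own, `ε = -1` mirror), at
most one mark, at the position `p0` (between the real ends with the positions `p0 - 1` and `p0`), and at
most one point of `Y`, at the position `py` (positions out of range: nothing is visible).
`Dat.fw_eq`: the weight of the strand between the real ends with the positions `p < p'`.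
-/

set_option autoImplicit false
set_option linter.unusedSectionVars false

namespace Full.Norm
open Finset Function Full.X3

/-- the corner is between `p` and `p'` -/
def Sx (k p p' : ℤ) : ℤ := if p < 0 ∧ 0 ≤ p' then 2 - k else 0
/-- the mark `p0` is between `p` and `p'` -/
def Mx (p0 p p' : ℤ) : ℤ := if p < p0 ∧ p0 ≤ p' then 1 else 0
/-- the number of the gaps before and after `py` between `p` and `p'` -/
def Px (py p p' : ℤ) : ℤ :=
  (if p ≤ py ∧ py < p' then 1 else 0) + (if p < py ∧ py ≤ p' then 1 else 0)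

/-- the exponent of the weight, own copy -/
def hOwn (p0 py p p' : ℤ) : ℤ := 2 * (Mx p0 p p' - Px py p p') - 1
/-- the exponent of the weight, mirror copy -/
def hMir (k p0 py p p' : ℤ) : ℤ := Sx k p p' - 2 * (Mx p0 p p' - Px py p p') - 1

namespace QChart
variable {τ : Type*} {T : Finset τ} {g : Half τ → Half τ} {w : ℕ} (c : QChart T g w)

lemma good : Turn.Good c.W c.pg := good_QW c.v c.Q w

/-- the position of a real end -/
def ps (x : Half (ℤ × ℤ)) : ℤ := Norm.ps c.v x

/-- the real ends with their positions -/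
theorem exists_arc : ∃ (A : c.Arc) (s : ℤ), (∀ i < A.N, c.ps (A.a i) = s + i) ∧
    ∀ i, i + 1 < A.N → Turn.bt c.pg (A.a i) = if c.ps (A.a i) = -1 then 2 - nq c.Q else 0 := by
  obtain ⟨N, a, s, h1, h2, h3, h4, h5, h6⟩ := real_arc c.v w c.adm
  exact ⟨⟨N, a, h1, h2, h3, h4⟩, s, h5, h6⟩

lemma ps_inj {x y : Half (ℤ × ℤ)} (hx : c.Real x) (hy : c.Real y) (h : c.ps x = c.ps y) : x = y :=
  real_inj c.adm hx hy h

variable [DecidableEq τ]

/-- the data of a chart -/
structure Dat (φ : Half τ → ℝ) (ε : ℤ) (μ : Half τ → ℤ) (Y : Finset (Half τ)) (p0 py : ℤ) : Prop where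
  law : ∃ θ, c.Law φ ε (c.chg μ Y) θ
  mu : ∀ x, c.Real x → c.Real (Full.next c.pg x) → μ (c.im x) = if c.ps x + 1 = p0 then 1 else 0
  hY : ∀ x, c.Real x → (c.im x ∈ Y ↔ c.ps x = py)

variable {c} {φ : Half τ → ℝ} {ε : ℤ} {μ : Half τ → ℤ} {Y : Finset (Half τ)} {p0 py : ℤ}
  {ω : Finset τ}

lemma sum_pos {A : c.Arc} {s : ℤ} (hs : ∀ i < A.N, c.ps (A.a i) = s + i) {i k : ℕ}
    (hk : i + k < A.N) (r d : ℤ) :
    (∑ j ∈ range k, if c.ps (A.a (i + j)) + d = r then (1 : ℤ) else 0) =
      if c.ps (A.a i) + d ≤ r ∧ r < c.ps (A.a (i + k)) + d then 1 else 0 := by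
  rw [hs i (by omega), hs (i + k) hk]
  have h1 : ∀ j ∈ range k, (if c.ps (A.a (i + j)) + d = r then (1 : ℤ) else 0) =
      if s + i + j + d = r then 1 else 0 := by
    intro j hj
    have := mem_range.1 hj
    rw [hs (i + j) (by omega)]
    push_cast
    congr 1
    exact propext ⟨fun h => by omega, fun h => by omega⟩
  rw [sum_congr rfl h1]
  push_cast
  by_cases h : s + i + d ≤ r ∧ r < s + (i + k) + d
  · rw [if_pos h, sum_eq_single_of_mem (r - s - i - d).toNat (mem_range.2 (by omega))]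
    · rw [if_pos (by omega)]
    · intro b _ hb
      rw [if_neg (by omega)]
  · rw [if_neg h]
    apply sum_eq_zero
    intro j hj
    have := mem_range.1 hj
    rw [if_neg (by omega)]

/-- the charge enclosed by an arc -/
theorem Dat.sum_chg (h : c.Dat φ ε μ Y p0 py) {A : c.Arc} {s : ℤ}
    (hs : ∀ i < A.N, c.ps (A.a i) = s + i) {i k : ℕ} (hk : i + k < A.N) :
    ∑ j ∈ range k, c.chg μ Y (A.a (i + j)) =
      Mx p0 (c.ps (A.a i)) (c.ps (A.a (i + k))) - Px py (c.ps (A.a i)) (c.ps (A.a (i + k))) := by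
  have himinj : ∀ x y, c.Real x → c.Real y → c.im x = c.im y → x = y := fun x y hx hy he =>
    c.win.im_inj hx.1 hy.1 he
  have key : ∀ x, c.Real x → (∑ e ∈ Y, if c.im x = e then (1 : ℤ) else 0) =
      if c.ps x = py then 1 else 0 := by
    intro x hx
    by_cases h1 : c.im x ∈ Y
    · rw [if_pos ((h.hY x hx).1 h1), sum_eq_single_of_mem _ h1]
      · rw [if_pos rfl]
      · intro b _ hb
        rw [if_neg (Ne.symm hb)]
    · rw [if_neg fun h2 => h1 ((h.hY x hx).2 h2)]
      apply sum_eq_zero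
      intro e he
      rw [if_neg]
      intro h2
      exact h1 (by rw [h2]; exact he)
  have h1 : ∀ j ∈ range k, c.chg μ Y (A.a (i + j)) =
      (if c.ps (A.a (i + j)) + 1 = p0 then 1 else 0) -
        ((if c.ps (A.a (i + j)) + 0 = py then 1 else 0) +
          (if c.ps (A.a (i + j)) + 1 = py then 1 else 0)) := by
    intro j hj
    have hj := mem_range.1 hj
    have e1 := A.real (i + j) (by omega)
    have e2 := A.real (i + j + 1) (by omega)
    have e3 := A.next (i + j) (by omega)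
    unfold chg
    rw [h.mu _ e1 (by rw [e3]; exact e2), e3, sum_add_distrib, key _ e1, key _ e2,
      hs (i + j) (by omega), hs (i + j + 1) (by omega)]
    push_cast
    congr 3
    · exact propext ⟨fun h => by omega, fun h => by omega⟩
    · exact propext ⟨fun h => by omega, fun h => by omega⟩
  rw [sum_congr rfl h1, sum_sub_distrib, sum_add_distrib, sum_pos hs hk, sum_pos hs hk,
    sum_pos hs hk]
  unfold Mx Px
  congr 2
  · exact propext ⟨fun h => by omega, fun h => by omega⟩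
  · congr 1
    exact propext ⟨fun h => by omega, fun h => by omega⟩
  · congr 1
    exact propext ⟨fun h => by omega, fun h => by omega⟩

/-- the corner enclosed by an arc -/
theorem sum_bt {A : c.Arc} {s : ℤ} (hs : ∀ i < A.N, c.ps (A.a i) = s + i)
    (hb : ∀ i, i + 1 < A.N → Turn.bt c.pg (A.a i) = if c.ps (A.a i) = -1 then 2 - nq c.Q else 0)
    {i k : ℕ} (hk : i + k < A.N) : ∑ j ∈ range k, Turn.bt c.pg (A.a (i + j)) =
      Sx (nq c.Q) (c.ps (A.a i)) (c.ps (A.a (i + k))) := by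
  have h1 : ∀ j ∈ range k, Turn.bt c.pg (A.a (i + j)) =
      (2 - nq c.Q) * (if c.ps (A.a (i + j)) + 0 = -1 then 1 else 0) := by
    intro j hj
    have hj := mem_range.1 hj
    rw [hb _ (by omega), add_zero]
    split_ifs <;> ring
  rw [sum_congr rfl h1, ← mul_sum, sum_pos hs hk]
  unfold Sx
  split_ifs with h2 h3 h3
  · ring
  · omega
  · omega
  · ring

/-- two real ends in the order of their positions -/
lemma exists_pair {A : c.Arc} {s : ℤ} (hs : ∀ i < A.N, c.ps (A.a i) = s + i)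
    {x x' : Half (ℤ × ℤ)} (hx : c.Real x) (hx' : c.Real x') (h : c.ps x < c.ps x') :
    ∃ i k, 0 < k ∧ i + k < A.N ∧ A.a i = x ∧ A.a (i + k) = x' := by
  obtain ⟨i, hi, rfl⟩ := A.surj x hx
  obtain ⟨i', hi', rfl⟩ := A.surj x' hx'
  rw [hs i hi, hs i' hi'] at h
  exact ⟨i, i' - i, by omega, by omega, rfl, by congr 1; omega⟩

/-- **the weight of a strand**, own copy -/
theorem Dat.fw_own (h : c.Dat φ 1 μ Y p0 py) {x x' : Half (ℤ × ℤ)} (hx : c.Real x)
    (hx' : c.Real x') (ho : other (mate (c.pl ω)) c.pg x = x') (hlt : c.ps x < c.ps x') :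
    fw φ g ω (c.im x) = amp (hOwn p0 py (c.ps x) (c.ps x')) := by
  obtain ⟨A, s, hs, -⟩ := c.exists_arc
  obtain ⟨i, k, h0, hk, rfl, rfl⟩ := exists_pair hs hx hx' hlt
  obtain ⟨θ, hl⟩ := h.law
  have e := hl.hol_own c.good A h0 hk ho
  rw [h.sum_chg hs hk] at e
  unfold fw amp hOwn
  rw [e]

/-- **the weight of a strand**, mirror copy -/
theorem Dat.fw_mir (h : c.Dat φ (-1) μ Y p0 py) {x x' : Half (ℤ × ℤ)} (hx : c.Real x)
    (hx' : c.Real x') (ho : other (mate (c.pl ω)) c.pg x = x') (hlt : c.ps x < c.ps x') :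
    fw φ g ω (c.im x) = amp (hMir (nq c.Q) p0 py (c.ps x) (c.ps x')) := by
  obtain ⟨A, s, hs, hb⟩ := c.exists_arc
  obtain ⟨i, k, h0, hk, rfl, rfl⟩ := exists_pair hs hx hx' hlt
  obtain ⟨θ, hl⟩ := h.law
  have e := hl.hol_mirror c.good A h0 hk ho
  rw [h.sum_chg hs hk, sum_bt hs hb hk] at e
  unfold fw amp hMir
  rw [e]

/-- a held strand, with its ends in the order of the positions -/
theorem Held.pair (hG : Glu T g) {w' : ℕ} (hw : w' < w) {e : Half τ} (he : Bd T g e)
    (h : (c.restr hw.le).Held ω e) (φ : Half τ → ℝ) :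
    ∃ x x', c.Real x ∧ c.Real x' ∧ other (mate (c.pl ω)) c.pg x = x' ∧ c.ps x < c.ps x' ∧
      (e = c.im x ∨ e = c.im x') ∧ other (mate ω) g (c.im x) = c.im x' ∧
      (∀ z, Conn (mate (c.pl ω)) c.pg x z → z.1 ∈ sqr w') ∧ fw φ g ω e = fw φ g ω (c.im x) := by
  obtain ⟨x, h1, h2, h3, h4, h5⟩ := h.real hw he
  set x' := other (mate (c.pl ω)) c.pg x with hx'
  have hne : c.ps x ≠ c.ps x' := fun h6 =>
    c.glu_pg.other_ne h1.bd (c.ps_inj h1 h2 h6).symm
  rcases lt_or_gt_of_ne hne with h6 | h6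
  · exact ⟨x, x', h1, h2, rfl, h6, Or.inl h3.symm, by rw [h3, h4], h5, by rw [h3]⟩
  · refine ⟨x', x, h2, h1, ?_, h6, Or.inr h3.symm, ?_, ?_, ?_⟩
    · rw [hx', c.glu_pg.other_other h1.bd]
    · rw [← h4, hG.other_other he, h3]
    · intro z hz
      exact h5 z ((Two.conn_other x).trans hz)
    · rw [← h4, fw_other hG φ ω he]

/-- own strands have weights at most `√3` -/
theorem Dat.own_le (hG : Glu T g) (hd : c.Dat φ 1 μ Y p0 py) {w' : ℕ} (hw : w' < w) {e : Half τ}
    (he : Bd T g e) (h : (c.restr hw.le).Held ω e) : fw φ g ω e ≤ Real.sqrt 3 := by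
  obtain ⟨x, x', h1, h2, h3, h4, -, -, -, h5⟩ := h.pair hG hw he φ
  rw [h5, hd.fw_own h1 h2 h3 h4]
  apply amp_le_sqrt3
  unfold hOwn
  omega

/-- mirror strands which do not enclose a corner have weights at most `√3` -/
theorem Dat.mir_le (hG : Glu T g) (hd : c.Dat φ (-1) μ Y p0 py) {w' : ℕ} (hw : w' < w) {e : Half τ}
    (he : Bd T g e) (h : (c.restr hw.le).Held ω e)
    (hc : ∀ x x', c.Real x → c.Real x' → c.ps x < c.ps x' → Sx (nq c.Q) (c.ps x) (c.ps x') = 0) :
    fw φ g ω e ≤ Real.sqrt 3 := by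
  obtain ⟨x, x', h1, h2, h3, h4, -, -, -, h5⟩ := h.pair hG hw he φ
  rw [h5, hd.fw_mir h1 h2 h3 h4]
  apply amp_le_sqrt3
  unfold hMir
  rw [hc x x' h1 h2 h4]
  omega

end QChart

end Full.Norm
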