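import Pool.Agent.Full.Norm.Stat
import Pool.Agent.Full.Norm.FamLaw
import Pool.Agent.Full.Norm.Corn
import Pool.Agent.Full.Norm.ArmQ
import Pool.Agent.Full.Norm.Main
import Pool.Agent.Full.Norm.MCount
import Pool.Agent.Full.Norm.Strand

/-!
# The windows around the special points and around the positions

`rad t`: the radius of the smallest centred box with the tile `t`.  `E.dl c y`: the distance of the wall
end `y` to the special point `c`.  `oc`, `mc`: the charts of radius `R` around the special point, in the
own and in the mirror copy.  `yc`: the mirror chart around a position.  `wc c Y`, `wy i Y`: the local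
factors of the special point `c` and of the position `Y i` of the mirror side.
-/

set_option autoImplicit false

namespace Full.Norm
open Finset Function Full.X3 Full.Corner

/-- the radius of the smallest centred box which contains the tile -/
def rad (t : ℤ × ℤ) : ℕ := (max (max (-t.1) (t.1 + 1)) (max (-t.2) (t.2 + 1))).toNat

lemma mem_sqr_rad {t : ℤ × ℤ} {r : ℕ} : t ∈ sqr r ↔ rad t ≤ r := by
  rw [mem_sqr]
  unfold rad
  omega

lemma rad_pos (t : ℤ × ℤ) : 1 ≤ rad t := by
  unfold rad
  omega

lemma rad_rfl2 (t : ℤ × ℤ) : rad (rfl2 t) = rad t := by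
  unfold rad rfl2
  simp only
  congr 1
  omega

lemma rad_sub_le (s t : ℤ × ℤ) : rad (s - t) ≤ rad s + rad t := by
  unfold rad
  simp only [Prod.fst_sub, Prod.snd_sub]
  omega

namespace Cap.Env
variable {D : Cap} {p : ℕ} (E : D.Env p) {K n w A m R : ℕ}

/-- the distance of a wall end to a special point -/
def dl (c : Fin E.S) (y : Half (ℤ × ℤ)) : ℕ := rad (y.1 - E.V c)

variable {E} (h : E.Ok K n w A m R)

/-- the chart around a special point, own copy -/
noncomputable def oc (c : Fin E.S) : QChart D.T2 D.g2 R :=
  Cap.plain (E.V c) R (E.V c) (E.Q c) (h.plain c) (h.qbox c)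

/-- the chart around a special point, mirror copy -/
noncomputable def mc (c : Fin E.S) : QChart D.T2 D.g2 R := Cap.swap (oc h c)

/-- the place of the wall end `y` of the mirror copy in the chart `mc c` -/
def plc (E : D.Env p) (c : Fin E.S) (y : Half (ℤ × ℤ)) : Half (ℤ × ℤ) := rfh (y.1 - E.V c, y.2)

/-- the mirror chart around a position -/
noncomputable def yc (i : Fin p) {y : Half (ℤ × ℤ)} (hy : y ∈ E.Y i) : QChart D.T2 D.g2 R :=
  Cap.swap (Cap.plain y.1 R (h.yq i y hy).choose (h.yq i y hy).choose_spec.choose
    (h.yplain i y hy) (h.yq i y hy).choose_spec.choose_spec)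

/-- the position `y` is near the special point `c` -/
def Nr (E : D.Env p) (R : ℕ) (c : Fin E.S) (y : Half (ℤ × ℤ)) : Prop := 4 * E.dl c y ≤ R

variable (E) in
/-- the special point `c` has a position nearby -/
def HasNr (R : ℕ) (c : Fin E.S) (a : Fin p → Half (ℤ × ℤ)) : Prop := ∃ i, Nr E R c (a i)

open Classical in
/-- the region of the factor of the special point `c` -/
noncomputable def Ac (c : Fin E.S) (a : Fin p → Half (ℤ × ℤ)) : Finset (ℤ × ℤ) :=
  (mc h c).W.filter fun t =>
    if hc : HasNr E R c a then
      (if nq (E.Q c) = 3 then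
        (if E.dl c (a hc.choose) ≤ 16 then rad t ≤ R / 16 ∧ 16 < rad t
        else rad t ≤ R / 16 ∧
          ¬ (|t.1 - (plc E c (a hc.choose)).1.1| < (E.dl c (a hc.choose) / 4 : ℕ) ∧
            |t.2 - (plc E c (a hc.choose)).1.2| < (E.dl c (a hc.choose) / 4 : ℕ)))
      else 16 < E.dl c (a hc.choose) ∧ rad t ≤ E.dl c (a hc.choose) / 8)
    else rad t ≤ R / 16

/-- the weight of the strands around the special point `c` -/
noncomputable def zc (c : Fin E.S) : ℝ :=
  if nq (E.Q c) = 1 then kap else if nq (E.Q c) = 3 then rh else 0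

/-- **the factor of the special point `c`** -/
noncomputable def wc (c : Fin E.S) (a : Fin p → Half (ℤ × ℤ)) : Fct D.T2 D.g2 where
  w := R
  c := mc h c
  A := Ac h c a
  L := wL (mc h c).v (mc h c).Q R
  R := wR (mc h c).v (mc h c).Q R
  z := zc c
  sub := filter_subset _ _
  realL := fun _ _ hx => hx.1
  realR := fun _ _ hx => hx.1
  disj := fun x hx hx' => by
    have h1 : Norm.ps _ x < 0 := hx.2
    have h2 : 0 ≤ Norm.ps _ x := hx'.2
    omega
  hz := by
    unfold zc
    split_ifs
    · exact (zero_le_one.trans one_le_kap)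
    · exact rh_pos.le
    · exact le_rfl

open Classical in
/-- **the factor of the position `a i`** -/
noncomputable def wy (i : Fin p) (a : Fin p → Half (ℤ × ℤ)) (hy : a i ∈ E.Y i) :
    Fct D.T2 D.g2 :=
  if hc : ∃ c, Nr E R c (a i) then
    { w := R
      c := mc h hc.choose
      A := (mc h hc.choose).W.filter fun t => 16 < E.dl hc.choose (a i) ∧
        t ∈ hwinS (plc E hc.choose (a i)).2 (plc E hc.choose (a i)).1 (E.dl hc.choose (a i) / 8)
      L := {x | (mc h hc.choose).Real x ∧ (mc h hc.choose).ps x < (mc h hc.choose).ps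
        (plc E hc.choose (a i))}
      R := {x | (mc h hc.choose).Real x ∧ (mc h hc.choose).ps (plc E hc.choose (a i)) <
        (mc h hc.choose).ps x}
      z := 0
      sub := filter_subset _ _
      realL := fun _ _ hx => hx.1
      realR := fun _ _ hx => hx.1
      disj := fun x hx hx' => by
        have h1 := hx.2
        have h2 := hx'.2
        omega
      hz := le_rfl }
  else
    { w := R
      c := yc h i hy
      A := (yc h i hy).W.filter fun t => t ∈ hwinS (a i).2.flip (rfl2 0) (R / 16)
      L := {x | (yc h i hy).Real x ∧ (yc h i hy).ps x < (yc h i hy).ps (rfl2 0, (a i).2.flip)}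
      R := {x | (yc h i hy).Real x ∧ (yc h i hy).ps (rfl2 0, (a i).2.flip) < (yc h i hy).ps x}
      z := 0
      sub := filter_subset _ _
      realL := fun _ _ hx => hx.1
      realR := fun _ _ hx => hx.1
      disj := fun x hx hx' => by
        have h1 := hx.2
        have h2 := hx'.2
        omega
      hz := le_rfl }

/-- the factors of the special points and of the positions -/
noncomputable def wf (a : Fin p → Half (ℤ × ℤ)) (ha : ∀ i, a i ∈ E.Y i) :
    Fin E.S ⊕ Fin p → Fct D.T2 D.g2
  | .inl c => wc h c a
  | .inr i => wy h i a (ha i)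

end Cap.Env

end Full.Norm
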