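import Pool.Agent.Full.Norm.WinStat
import Pool.Agent.Full.Norm.Wins

/-!
# The data of the charts of the double of a cap: marks and positions

`GoodC D c f r`: the chart `c` shows own tiles; near a plain tile it is a translation; it satisfies the law
of the phases.  For such a chart and for its reflection: at most one mark and at most one position of a
screening pair are visible, and the charges are those of `Env.chg`.
-/

set_option autoImplicit false
set_option linter.unusedSectionVars false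

namespace Full.Norm
open Finset Function Full.X3

namespace QChart
variable {τ : Type*} {T : Finset τ} {g : Half τ → Half τ} {w : ℕ} {c : QChart T g w}

/-- a set with at most one real end has a position -/
lemma exists_ps (P : Half (ℤ × ℤ) → Prop)
    (hP : ∀ x x', c.Real x → c.Real x' → P x → P x' → x = x') :
    ∃ py, (∀ x, c.Real x → (P x ↔ c.ps x = py)) ∧
      ((∀ x, c.Real x → ¬ P x) → ∀ x, c.Real x → c.ps x ≠ py ∧ c.ps x ≠ py + 1) := by
  by_cases h : ∃ x, c.Real x ∧ P x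
  · obtain ⟨x0, h1, h2⟩ := h
    refine ⟨c.ps x0, fun x hx => ⟨fun h3 => by rw [hP x x0 hx h1 h3 h2], fun h3 => ?_⟩,
      fun h3 => absurd h2 (h3 x0 h1)⟩
    rw [c.ps_inj hx h1 h3]
    exact h2
  · push Not at h
    have hfin : {x | c.Real x}.Finite := (finite_half c.W).subset fun x hx => hx.1
    obtain ⟨py, hpy⟩ := ((hfin.image c.ps).union (hfin.image fun x => c.ps x - 1)).exists_notMem
    have h1 : ∀ x, c.Real x → c.ps x ≠ py := fun x hx h2 =>
      hpy (Or.inl ⟨x, hx, h2⟩)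
    have h2 : ∀ x, c.Real x → c.ps x ≠ py + 1 := fun x hx h2 =>
      hpy (Or.inr ⟨x, hx, by simp only; omega⟩)
    exact ⟨py, fun x hx => ⟨fun h3 => absurd h3 (h x hx), fun h3 => absurd h3 (h1 x hx)⟩,
      fun _ x hx => ⟨h1 x hx, h2 x hx⟩⟩

/-- the law depends only on the charges between real ends -/
lemma Law.congr {φ : Half τ → ℝ} {ε : ℤ} {q q' : Half (ℤ × ℤ) → ℤ} {θ : ℤ × ℤ → ℝ}
    (h : c.Law φ ε q θ) (hq : ∀ x, c.Real x → c.Real (Full.next c.pg x) → q x = q' x) :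
    c.Law φ ε q' θ where
  gauge := h.gauge
  step := fun x hx hx' => by
    rw [h.step x hx hx', hq x hx hx']

/-- the charges in a chart -/
lemma chg_eq [DecidableEq τ] {μ : Half τ → ℤ} {Y : Finset (Half τ)} (x : Half (ℤ × ℤ)) :
    c.chg μ Y x = μ (c.im x) - ((if c.im x ∈ Y then 1 else 0) +
      (if c.im (Full.next c.pg x) ∈ Y then 1 else 0)) := by
  unfold chg
  rw [sum_add_distrib, sum_ite_eq, sum_ite_eq]

end QChart

/-- sums of indicators over an injective family -/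
lemma sum_ind_inj {α ι : Type*} [DecidableEq α] (s : Finset ι) (F : ι → α)
    (hF : ∀ i ∈ s, ∀ j ∈ s, F i = F j → i = j) (u : α) :
    (∑ i ∈ s, if u = F i then (1 : ℤ) else 0) = by
      classical exact if ∃ i ∈ s, u = F i then 1 else 0 := by
  classical
  by_cases h : ∃ i ∈ s, u = F i
  · rw [if_pos h]
    obtain ⟨i, hi, rfl⟩ := h
    rw [sum_eq_single_of_mem i hi, if_pos rfl]
    intro j hj hne
    rw [if_neg]
    intro h1
    exact hne (hF j hj i hi h1.symm)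
  · rw [if_neg h]
    apply sum_eq_zero
    intro i hi
    rw [if_neg]
    intro h1
    exact h ⟨i, hi, h1⟩

namespace Cap
variable {D : Cap}

lemma sqr_mono {k l : ℕ} (h : k ≤ l) {t : ℤ × ℤ} (ht : t ∈ sqr k) : t ∈ sqr l := by
  rw [mem_sqr] at ht ⊢
  omega

/-- a smaller box around a neighbouring tile -/
lemma Plain.sub {p q : ℤ × ℤ} {w k r : ℕ} (h : D.Plain p w) (hq : q - p ∈ sqr k)
    (hr : k + r ≤ w) : D.Plain q r := by
  intro s hs
  have e : q + s = p + (q - p + s) := by abel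
  have h1 : q - p + s ∈ sqr w := by
    rw [mem_sqr] at hq hs ⊢
    simp only [Prod.fst_add, Prod.snd_add, Prod.fst_sub, Prod.snd_sub] at hq ⊢
    omega
  rw [e]
  exact h _ h1

/-- a chart of own tiles which is a translation near plain tiles and satisfies the law -/
structure GoodC (D : Cap) {w : ℕ} (c : QChart D.T2 D.g2 w) (f : ℤ × ℤ → ℤ × ℤ) (r : ℕ) : Prop where
  own : Own D c f
  tr : ∀ s ∈ c.W, D.Plain (f s) r → ∀ s' ∈ c.W, f s' = f s + (s' - s)
  law : ∀ {φ q ψ}, PhLaw D φ q ψ → ∀ φ' q', c.SLaw 1 (dph φ φ') (D.q2 q q')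

namespace GoodC
variable {w r : ℕ} {c : QChart D.T2 D.g2 w} {f : ℤ × ℤ → ℤ × ℤ} (hc : GoodC D c f r)
include hc

lemma im_eq {x : Half (ℤ × ℤ)} (hx : x.1 ∈ c.W) : c.im x = dl (f x.1, x.2) :=
  Prod.ext (hc.own.eq x.1 hx) rfl

lemma u_inj {x x' : Half (ℤ × ℤ)} (hx : x.1 ∈ c.W) (hx' : x'.1 ∈ c.W)
    (h : ((f x.1, x.2) : Half (ℤ × ℤ)) = (f x'.1, x'.2)) : x = x' := by
  have h1 : c.im x = c.im x' := by rw [hc.im_eq hx, hc.im_eq hx', h]
  exact c.win.im_inj hx hx' h1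

lemma next_u {x : Half (ℤ × ℤ)} (hx : c.Real x) (hx' : c.Real (next c.pg x)) :
    next D.g (f x.1, x.2) = (f (next c.pg x).1, (next c.pg x).2) :=
  (QChart.next_im (c := hc.own.chart) hx hx').1

lemma bd_u {x : Half (ℤ × ℤ)} (hx : c.Real x) : Bd D.R D.g (f x.1, x.2) := by
  have h1 := hx.bdT
  rw [hc.im_eq hx.1] at h1
  exact (bd_dl.1 h1).1

end GoodC

end Cap

namespace Cap.Env
variable {D : Cap} {p : ℕ} {E : D.Env p} {K n w A m R : ℕ}

section me
variable (h : E.Ok K n w A m R)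
include h

/-- two special points with a common tile nearby are equal -/
lemma far_eq {c c' : Fin E.S} {t : ℤ × ℤ} {k : ℕ} (h1 : t - E.V c ∈ sqr k) (h2 : t - E.V c' ∈ sqr k)
    (hk : k ≤ R) : c = c' := by
  by_contra hne
  apply h.far c c' hne
  rw [mem_sqr] at h1 h2 ⊢
  simp only [Prod.fst_sub, Prod.snd_sub] at h1 h2 ⊢
  push_cast
  omega

lemma me_inj {c c' : Fin E.S} (hc : c ∈ E.M) (hc' : c' ∈ E.M) (he : E.me c = E.me c') : c = c' := by
  have h1 := (h.mark c hc).1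
  have h2 := (h.mark c' hc').1
  rw [← he] at h2
  have := h.hmR
  exact far_eq h h1 h2 (by omega)

end me

/-! ### the wall end after a mark -/

lemma ps_sub (v : ℤ × ℤ) (x : Half (ℤ × ℤ)) (q : ℤ × ℤ) :
    Norm.ps (v - q) (x.1 - q, x.2) = Norm.ps v x := by
  obtain ⟨t, d⟩ := x
  cases d <;> simp only [Norm.ps, Prod.fst_sub, Prod.snd_sub] <;> ring

/-- near a vertex on a straight wall there is a wall end at the position `0` -/
lemma exists_zero {Q : Bool → Bool → Bool} (hQ : QAdm Q) (hn : nq Q = 2) {w : ℕ} (hw : 2 ≤ w) :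
    ∃ y : Half (ℤ × ℤ), Norm.Real 0 Q w y ∧ Norm.ps 0 y = 0 ∧ y.1 ∈ sqr 1 := by
  have hA := hQ true true
  have hB := hQ true false
  unfold nq at hn
  simp only [Bool.not_true, Bool.not_false] at hA hB
  unfold Norm.Real
  simp only [mem_QW, mem_sqr, QSet_iff]
  generalize Q true true = a1 at *
  generalize Q true false = a2 at *
  generalize Q false true = a3 at *
  generalize Q false false = a4 at *
  clear hQ
  cases a1 <;> cases a2 <;> cases a3 <;> cases a4 <;>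
    simp only [Bool.false_eq_true, if_true, if_false, forall_true_left, or_self] at hn hA hB <;>
    (try (exfalso; omega))
  · exact ⟨((-1, 0), Dir.E), by simp [Dir.vec]; omega, by simp [Norm.ps], by simp⟩
  · exact ⟨((-1, -1), Dir.N), by simp [Dir.vec]; omega, by simp [Norm.ps], by simp⟩
  · exact ⟨((0, 0), Dir.S), by simp [Dir.vec]; omega, by simp [Norm.ps], by simp⟩
  · exact ⟨((0, -1), Dir.W), by simp [Dir.vec]; omega, by simp [Norm.ps], by simp⟩

section oc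
variable (h : E.Ok K n w A m R)
include h

lemma R_big : 200 ≤ R := by
  have := h.hmR
  have := h.hm
  omega

/-- the chart around a special point -/
lemma oc_good (c : Fin E.S) (r : ℕ) : GoodC D (oc h c) (fun s => E.V c + s) r where
  own := plain_own (h.plain c) (h.qbox c)
  tr := fun s _ _ s' _ => by abel
  law := fun hφ φ' q' => hφ.plain (h.plain c) (h.qbox c) φ' q'

/-- a wall end near a special point is real in its chart -/
lemma oc_real (c : Fin E.S) {u : Half (ℤ × ℤ)} (hu : Bd D.R D.g u) (hC : u ∉ D.C) {k : ℕ}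
    (hk : u.1 - E.V c ∈ sqr k) (hkR : k < R) :
    (oc h c).Real (u.1 - E.V c, u.2) ∧ (oc h c).im (u.1 - E.V c, u.2) = Full.dl u ∧
      (oc h c).ps (u.1 - E.V c, u.2) = Norm.ps (E.V c) u := by
  have e : E.V c + (u.1 - E.V c) = u.1 := add_sub_cancel _ _
  have h1 : u.1 - E.V c ∈ (oc h c).W := by
    show u.1 - E.V c ∈ QW (E.V c - E.V c) (E.Q c) R
    rw [mem_QW, QSet_sub, e]
    refine ⟨sqr_mono hkR.le hk, ?_⟩
    have h2 := (h.qbox c).2 _ (sqr_mono hkR.le hk)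
    rw [e] at h2
    exact h2.1 hu.1
  have h3 : (oc h c).im (u.1 - E.V c, u.2) = Full.dl u := by
    show ((Sum.inl (E.V c + (u.1 - E.V c)), u.2) : Half _) = _
    rw [e]
    rfl
  refine ⟨QChart.real_of_bd hkR h1 hk ?_, h3, ?_⟩
  · rw [h3]
    exact (bd_dl.2 ⟨hu, hC⟩).2
  · exact ps_sub (E.V c) u (E.V c)

/-- the two wall ends at a mark -/
theorem mark_ends {c : Fin E.S} (hc : c ∈ E.M) : ∃ x y, (oc h c).Real x ∧ (oc h c).Real y ∧
    next (oc h c).pg x = y ∧ (oc h c).ps x = -1 ∧ (oc h c).ps y = 0 ∧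
    E.me c = (E.V c + x.1, x.2) ∧ next D.g (E.me c) = (E.V c + y.1, y.2) ∧
    x.1 ∈ sqr 1 ∧ y.1 ∈ sqr 1 := by
  obtain ⟨h1, h2, h3, h4⟩ := h.mark c hc
  have hR := R_big h
  obtain ⟨g1, g2, g3⟩ := oc_real h c h2 h3 h1 (by omega)
  rw [h4] at g3
  have hk := h.kind c
  rw [if_pos hc] at hk
  obtain ⟨y, k1, k2, k3⟩ := exists_zero (h.qbox c).1 hk (show 2 ≤ R by omega)
  have hy : (oc h c).Real y := by
    have h5 : Norm.Real (E.V c - E.V c) (E.Q c) R y := by
      rw [sub_self]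
      exact k1
    exact h5
  have hy' : (oc h c).ps y = 0 := by
    show Norm.ps (E.V c - E.V c) y = 0
    rw [sub_self]
    exact k2
  obtain ⟨r1, r2, -⟩ := real_step (oc h c).adm g1 hy (by
    show (oc h c).ps _ < (oc h c).ps y
    rw [g3, hy']
    omega)
  have r3 : next (oc h c).pg ((E.me c).1 - E.V c, (E.me c).2) = y := by
    refine (oc h c).ps_inj r1 hy ?_
    rw [hy']
    have r4 : (oc h c).ps (next (oc h c).pg ((E.me c).1 - E.V c, (E.me c).2)) =
      (oc h c).ps ((E.me c).1 - E.V c, (E.me c).2) + 1 := r2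
    rw [r4, g3]
    rfl
  have e : E.V c + ((E.me c).1 - E.V c) = (E.me c).1 := add_sub_cancel _ _
  refine ⟨_, y, g1, hy, r3, g3, hy', ?_, ?_, h1, k3⟩
  · simp only
    rw [e]
  · have r5 := (oc_good h c 0).next_u g1 (by rw [r3]; exact hy)
    rw [r3] at r5
    simp only at r5
    rw [e] at r5
    exact r5

lemma next_me_near {c : Fin E.S} (hc : c ∈ E.M) : (next D.g (E.me c)).1 - E.V c ∈ sqr 1 := by
  obtain ⟨x, y, -, -, -, -, -, -, h7, -, h9⟩ := mark_ends h hc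
  rw [h7]
  simp only
  rw [add_sub_cancel_left]
  exact h9

lemma next_me_inj {c c' : Fin E.S} (hc : c ∈ E.M) (hc' : c' ∈ E.M)
    (he : next D.g (E.me c) = next D.g (E.me c')) : c = c' := by
  have h1 := next_me_near h hc
  have h2 := next_me_near h hc'
  rw [← he] at h2
  have := R_big h
  exact far_eq h h1 h2 (by omega)

open Classical in
lemma mu2_dl (u : Half (ℤ × ℤ)) : E.mu2 (Full.dl u) = if ∃ c ∈ E.M, u = E.me c then 1 else 0 := by
  have h1 : E.mu2 (Full.dl u) = E.μ u := rfl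
  rw [h1]
  unfold Cap.Env.μ
  rw [sum_ind_inj E.M E.me fun i hi j hj => me_inj h hi hj]
  congr

open Classical in
lemma mu2_dr (u : Half (ℤ × ℤ)) :
    E.mu2 (dr u) = if ∃ c ∈ E.M, u = next D.g (E.me c) then 1 else 0 := by
  have h1 : E.mu2 (dr u) = ∑ c ∈ E.M, if u = next D.g (E.me c) then 1 else 0 := by
    obtain ⟨t, d⟩ := u
    show (∑ c ∈ E.M, if (t, d.flip.flip) = next D.g (E.me c) then (1 : ℤ) else 0) = _
    rw [Dir.flip_flip]
  rw [h1, sum_ind_inj E.M (fun c => next D.g (E.me c)) fun i hi j hj => next_me_inj h hi hj]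
  congr

end oc

/-! ### positions -/

lemma mem_Y2_dl {a a' : Fin p → Half (ℤ × ℤ)} {u : Half (ℤ × ℤ)} :
    Full.dl u ∈ Cap.Y2 a a' ↔ ∃ i, u = a i := by
  unfold Cap.Y2
  rw [mem_union, mem_image, mem_image]
  constructor
  · rintro (⟨i, -, h1⟩ | ⟨i, -, h1⟩)
    · exact ⟨i, (dl_inj h1).symm⟩
    · exact absurd h1.symm (dl_ne_dr _ _)
  · rintro ⟨i, h1⟩
    exact Or.inl ⟨i, mem_univ i, by rw [h1]⟩

lemma mem_Y2_dr {a a' : Fin p → Half (ℤ × ℤ)} {u : Half (ℤ × ℤ)} :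
    Full.dr u ∈ Cap.Y2 a a' ↔ ∃ i, u = a' i := by
  unfold Cap.Y2
  rw [mem_union, mem_image, mem_image]
  constructor
  · rintro (⟨i, -, h1⟩ | ⟨i, -, h1⟩)
    · exact absurd h1 (dl_ne_dr _ _)
    · exact ⟨i, (dr_inj h1).symm⟩
  · rintro ⟨i, h1⟩
    exact Or.inr ⟨i, mem_univ i, by rw [h1]⟩

section Y
variable (h : E.Ok K n w A m R)
include h

/-- the positions are different -/
lemma Y_inj {a : Fin p → Half (ℤ × ℤ)} (ha : a ∈ Fintype.piFinset E.Y) {i j : Fin p}
    (he : a i = a j) : i = j := by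
  by_contra hne
  apply h.ysep i j hne _ (Fintype.mem_piFinset.1 ha i) _ (Fintype.mem_piFinset.1 ha j)
  rw [he, sub_self, mem_sqr]
  have := R_big h
  simp only [Prod.fst_zero, Prod.snd_zero]
  push_cast
  omega

open Classical in
/-- the charges -/
lemma chg_eq {a : Fin p → Half (ℤ × ℤ)} (ha : a ∈ Fintype.piFinset E.Y) (u : Half (ℤ × ℤ)) :
    E.chg a u = E.mu2 (Full.dl u) - ((if ∃ i, u = a i then 1 else 0) +
      (if ∃ i, next D.g u = a i then 1 else 0)) := by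
  unfold Cap.Env.chg
  rw [sum_add_distrib, sum_ind_inj univ a fun i _ j _ => Y_inj h ha,
    sum_ind_inj univ a fun i _ j _ => Y_inj h ha]
  simp only [mem_univ, true_and]
  congr

end Y

/-! ### the data -/

section dat
variable (h : E.Ok K n w A m R) {ρ r : ℕ} {c : QChart D.T2 D.g2 ρ} {f : ℤ × ℤ → ℤ × ℤ}
  (hg : GoodC D c f r) (hr : r + 2 ≤ R) (hρ : ρ ≤ R)
include h hg hr hρ

/-- at most one position is visible -/
lemma pos_uniq {a : Fin p → Half (ℤ × ℤ)} (ha : a ∈ Fintype.piFinset E.Y)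
    {x x' : Half (ℤ × ℤ)} (hx : c.Real x) (hx' : c.Real x') {i j : Fin p}
    (hi : (f x.1, x.2) = a i) (hj : (f x'.1, x'.2) = a j) : x = x' := by
  have h1 := Fintype.mem_piFinset.1 ha i
  have h2 := Fintype.mem_piFinset.1 ha j
  by_cases hij : i = j
  · subst hij
    exact hg.u_inj hx.1 hx'.1 (by rw [hi, hj])
  · exfalso
    apply h.ysep i j hij _ h1 _ h2
    have h3 : D.Plain (f x.1) r := by
      have h4 := h.yplain i _ h1
      rw [← hi] at h4
      refine h4.sub (k := 1) ?_ (by omega)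
      rw [sub_self, mem_sqr]
      simp
    have h5 := hg.tr x.1 hx.1 h3 x'.1 hx'.1
    have e1 : (a i).1 = f x.1 := by rw [← hi]
    have e2 : (a j).1 = f x'.1 := by rw [← hj]
    have h6 := mem_sqr.1 (c.mem_W.1 hx.1).1
    have h7 := mem_sqr.1 (c.mem_W.1 hx'.1).1
    rw [e1, e2, h5, mem_sqr]
    simp only [Prod.fst_sub, Prod.snd_sub, Prod.fst_add, Prod.snd_add]
    push_cast
    omega

/-- at most one special point is next to a visible wall end -/
lemma near_uniq {x x' : Half (ℤ × ℤ)} (hx : c.Real x) (hx' : c.Real x') {k k' : Fin E.S}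
    (h1 : f x.1 - E.V k ∈ sqr 1) (h2 : f x'.1 - E.V k' ∈ sqr 1) : k = k' := by
  by_contra hne
  apply h.far k k' hne
  have h3 : D.Plain (f x.1) r := (h.plain k).sub h1 (by omega)
  have h5 := hg.tr x.1 hx.1 h3 x'.1 hx'.1
  have h6 := mem_sqr.1 (c.mem_W.1 hx.1).1
  have h7 := mem_sqr.1 (c.mem_W.1 hx'.1).1
  rw [h5] at h2
  rw [mem_sqr] at h1 h2 ⊢
  simp only [Prod.fst_sub, Prod.snd_sub, Prod.fst_add, Prod.snd_add] at h1 h2 ⊢
  push_cast at h1 h2 ⊢
  omega

/-- the position of the mark, own chart -/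
theorem exists_p0 : ∃ p0 : ℤ,
    (∀ x, c.Real x → E.mu2 (c.im x) = if c.ps x + 1 = p0 then 1 else 0) ∧
    ((∀ x, c.Real x → ∀ k ∈ E.M, (f x.1, x.2) ≠ E.me k) → ∀ x, c.Real x → c.ps x ≠ p0) := by
  obtain ⟨py, h1, h2⟩ := QChart.exists_ps (c := c) (fun x => ∃ k ∈ E.M, (f x.1, x.2) = E.me k) (by
    rintro x x' hx hx' ⟨k, hk, e⟩ ⟨k', hk', e'⟩
    have h3 := (h.mark k hk).1
    have h4 := (h.mark k' hk').1
    rw [← e] at h3
    rw [← e'] at h4
    have h5 := near_uniq h hg hr hρ hx hx' h3 h4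
    subst h5
    exact hg.u_inj hx.1 hx'.1 (by rw [e, e']))
  refine ⟨py + 1, fun x hx => ?_, fun h3 x hx => (h2 (fun y hy => ?_) x hx).2⟩
  · rw [hg.im_eq hx.1, mu2_dl h]
    simp only [h1 x hx, add_left_inj]
  · rintro ⟨k, hk, e⟩
    exact h3 y hy k hk e

/-- **the data of an own chart** -/
theorem dat_own {p0 : ℤ} (hp0 : ∀ x, c.Real x → E.mu2 (c.im x) = if c.ps x + 1 = p0 then 1 else 0)
    {a a' : Fin p → Half (ℤ × ℤ)} (ha : a ∈ Fintype.piFinset E.Y) {φ φ' : Half (ℤ × ℤ) → ℝ} {ψ : ℝ}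
    (hφ : D.PhLaw φ (E.chg a) ψ) : ∃ py, c.Dat (dph φ φ') 1 E.mu2 (Cap.Y2 a a') p0 py := by
  obtain ⟨py, h1, -⟩ := QChart.exists_ps (c := c) (fun x => ∃ i, (f x.1, x.2) = a i) (by
    rintro x x' hx hx' ⟨i, e⟩ ⟨j, e'⟩
    exact pos_uniq h hg hr hρ ha hx hx' e e')
  have h2 : ∀ x, c.Real x → (c.im x ∈ Cap.Y2 a a' ↔ c.ps x = py) := fun x hx => by
    rw [hg.im_eq hx.1, mem_Y2_dl, h1 x hx]
  refine ⟨py, ?_, fun x hx _ => hp0 x hx, h2⟩
  have h3 := hg.law hφ φ' (E.chg a')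
  have h4 : c.SLaw ((1 : ℤ) : ℝ) (dph φ φ') (D.q2 (E.chg a) (E.chg a')) := by
    rw [Int.cast_one]
    exact h3
  obtain ⟨θ, h5⟩ := h4.law
  refine ⟨θ, h5.congr fun x hx hx' => ?_⟩
  rw [QChart.chg_eq, hg.im_eq hx.1, hg.im_eq hx'.1, q2_dl, chg_eq h ha, hg.next_u hx hx']
  simp only [mem_Y2_dl]

/-- the half edges shown by the reflected chart -/
lemma swap_im_eq {x : Half (ℤ × ℤ)} (hx : x.1 ∈ (swap c).W) :
    (swap c).im x = dr (f (rfh x).1, (rfh x).2) := by
  rw [swap_im, hg.im_eq (x := rfh x) (swap_W.1 hx), swh_dl]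

/-- the position of the mark, mirror chart -/
theorem exists_p0' : ∃ p0 : ℤ,
    (∀ x, (swap c).Real x → E.mu2 ((swap c).im x) = if (swap c).ps x + 1 = p0 then 1 else 0) ∧
    ((∀ x, c.Real x → ∀ k ∈ E.M, (f x.1, x.2) ≠ next D.g (E.me k)) →
      ∀ x, (swap c).Real x → (swap c).ps x ≠ p0) := by
  obtain ⟨py, h1, h2⟩ := QChart.exists_ps (c := swap c)
    (fun x => ∃ k ∈ E.M, (f (rfh x).1, (rfh x).2) = next D.g (E.me k)) (by
    rintro x x' hx hx' ⟨k, hk, e⟩ ⟨k', hk', e'⟩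
    have hx1 := swap_real.1 hx
    have hx2 := swap_real.1 hx'
    have h3 := next_me_near h hk
    have h4 := next_me_near h hk'
    rw [← e] at h3
    rw [← e'] at h4
    have h5 := near_uniq h hg hr hρ hx1 hx2 h3 h4
    subst h5
    have h6 := hg.u_inj hx1.1 hx2.1 (by rw [e, e'])
    rw [← rfh_rfh x, h6, rfh_rfh])
  refine ⟨py + 1, fun x hx => ?_, fun h3 x hx => (h2 (fun y hy => ?_) x hx).2⟩
  · rw [swap_im_eq h hg hr hρ hx.1, mu2_dr h]
    simp only [h1 x hx, add_left_inj]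
  · rintro ⟨k, hk, e⟩
    exact h3 _ (swap_real.1 hy) k hk e

/-- **the data of a mirror chart** -/
theorem dat_mir {p0 : ℤ}
    (hp0 : ∀ x, (swap c).Real x → E.mu2 ((swap c).im x) = if (swap c).ps x + 1 = p0 then 1 else 0)
    {a a' : Fin p → Half (ℤ × ℤ)} (ha' : a' ∈ Fintype.piFinset E.Y) {φ φ' : Half (ℤ × ℤ) → ℝ} {ψ : ℝ}
    (hφ' : D.PhLaw φ' (E.chg a') ψ) :
    ∃ py, (swap c).Dat (dph φ φ') (-1) E.mu2 (Cap.Y2 a a') p0 py := by
  obtain ⟨py, h1, -⟩ := QChart.exists_ps (c := swap c)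
    (fun x => ∃ i, (f (rfh x).1, (rfh x).2) = a' i) (by
    rintro x x' hx hx' ⟨i, e⟩ ⟨j, e'⟩
    have h6 := pos_uniq h hg hr hρ ha' (swap_real.1 hx) (swap_real.1 hx') e e'
    rw [← rfh_rfh x, h6, rfh_rfh])
  have h2 : ∀ x, (swap c).Real x → ((swap c).im x ∈ Cap.Y2 a a' ↔ (swap c).ps x = py) :=
    fun x hx => by
      rw [swap_im_eq h hg hr hρ hx.1, mem_Y2_dr, h1 x hx]
  refine ⟨py, ?_, fun x hx _ => hp0 x hx, h2⟩
  have h3 := hg.own.swap_law (hg.law hφ' φ (E.chg a))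
  have h4 : (swap c).SLaw ((-1 : ℤ) : ℝ) (dph φ φ') (D.q2 (E.chg a) (E.chg a')) := by
    rw [Int.cast_neg, Int.cast_one]
    exact h3
  obtain ⟨θ, h5⟩ := h4.law
  refine ⟨θ, h5.congr fun x hx hx' => ?_⟩
  obtain ⟨n1, -⟩ := swap_next (c := c) hx.fix
  have hz := swap_real.1 hx'
  have hx0 := swap_real.1 hx
  -- `v` is the wall end before `u` in the order of the own copy
  have n2 := hg.next_u hz (by rw [n1]; exact hx0)
  rw [n1] at n2
  have n3 := (QChart.next_im hx hx').1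
  rw [swap_im_eq h hg hr hρ hx.1, swap_im_eq h hg hr hρ hx'.1] at n3
  rw [QChart.chg_eq, swap_im_eq h hg hr hρ hx.1, swap_im_eq h hg hr hρ hx'.1, q2_dr, n3, swh_dr]
  have e0 : ∀ u : Half (ℤ × ℤ), ql (E.chg a') (Full.dl u) = E.chg a' u := fun u => rfl
  rw [e0, chg_eq h ha', mu2_dl h, mu2_dr h, n2]
  simp only [mem_Y2_dr]
  have hb := hg.bd_u hz
  have e1 : (∃ k ∈ E.M, ((f (rfh (next (swap c).pg x)).1, (rfh (next (swap c).pg x)).2) :
      Half (ℤ × ℤ)) = E.me k) ↔ ∃ k ∈ E.M, (f (rfh x).1, (rfh x).2) = next D.g (E.me k) := by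
    constructor
    · rintro ⟨k, hk, e⟩
      exact ⟨k, hk, by rw [← e, n2]⟩
    · rintro ⟨k, hk, e⟩
      refine ⟨k, hk, glu_g.next_inj hb.2 (h.mark k hk).2.1.2 ?_⟩
      rw [n2, e]
  simp only [e1]
  ring

end dat

end Cap.Env

end Full.Norm
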