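import Pool.Agent.Full.Norm.NormRed
import Pool.Agent.Full.X3.Hol

/-!
# Sums over labelled wall ends, and the charges in terms of the labels

`Cap.lab D o T`: the wall ends with labels in `T`.  `Lb.sum_lab`: sums over positions of wall ends are sums over
labels.  `Lb.chg_eq`: the charge of marks and pairs in terms of the labels.
-/

set_option autoImplicit false

namespace Full.Norm
open Full.X3 Finset Function SixV

namespace Cap

/-- the wall ends with labels in `T` -/
noncomputable def lab (D : Cap) (o : Half (ℤ × ℤ) → ℤ) (T : Finset ℤ) : Finset (Half (ℤ × ℤ)) := by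
  classical
  exact (ends D.R D.g).filter fun x => x ∉ D.C ∧ o x ∈ T

variable {D : Cap} {a L : ℤ} {o : Half (ℤ × ℤ) → ℤ}

lemma mem_lab {T : Finset ℤ} {x : Half (ℤ × ℤ)} : x ∈ D.lab o T ↔ D.Wl x ∧ o x ∈ T := by
  classical
  unfold lab Wl
  rw [mem_filter, mem_ends, and_assoc]

/-- **a sum over positions is a sum over labels** -/
theorem Lb.sum_lab (hl : D.Lb a L o) {p : ℕ} {T : Fin p → Finset ℤ} (hT : ∀ i, ∀ u ∈ T i, 0 ≤ u ∧ u < L)
    {M : Type*} [AddCommMonoid M] (f : (Fin p → ℤ) → M) :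
    ∑ b ∈ Fintype.piFinset fun i => D.lab o (T i), f (fun i => o (b i)) = ∑ u ∈ Fintype.piFinset T, f u := by
  refine sum_bij (fun b _ => fun i => o (b i)) ?_ ?_ ?_ fun _ _ => rfl
  · intro b hb
    rw [Fintype.mem_piFinset] at hb ⊢
    exact fun i => (mem_lab.1 (hb i)).2
  · intro b hb b' hb' h
    rw [Fintype.mem_piFinset] at hb hb'
    funext i
    exact hl.inj _ _ (mem_lab.1 (hb i)).1 (mem_lab.1 (hb' i)).1 (congrFun h i)
  · intro u hu
    rw [Fintype.mem_piFinset] at hu
    have h : ∀ i, ∃ x, D.Wl x ∧ o x = u i := fun i => hl.surj _ (hT i _ (hu i)).1 (hT i _ (hu i)).2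
    choose b hb1 hb2 using h
    refine ⟨b, ?_, ?_⟩
    · rw [Fintype.mem_piFinset]
      exact fun i => mem_lab.2 ⟨hb1 i, by rw [hb2 i]; exact hu i⟩
    · funext i
      exact hb2 i

lemma Lb.se_lab (hl : D.Lb a L o) : D.Wl D.se ∧ o D.se = L - 1 := by
  have h := hl.left 0 le_rfl (by have := hl.ha; omega)
  rw [add_zero, sub_zero] at h
  exact h

lemma Lb.first (hl : D.Lb a L o) : D.Wl (next D.g D.se) ∧ o (next D.g D.se) = 0 := by
  have h := hl.right 0 le_rfl (by have := hl.ha; omega)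
  rw [sub_zero] at h
  rw [hl.seam]
  exact h

/-- **the charge of marks and pairs in terms of the labels** -/
theorem Lb.chg_eq (hl : D.Lb a L o) {p : ℕ} {ι : Type*} [Fintype ι] {me : ι → Half (ℤ × ℤ)}
    (hme : ∀ j, D.Wl (me j) ∧ o (me j) < L - 1) {b : Fin p → Half (ℤ × ℤ)}
    (hb : ∀ i, D.Wl (b i) ∧ 0 < o (b i) ∧ o (b i) < L - 1) {x : Half (ℤ × ℤ)} (hx : D.Wl x) :
    ((∑ j, if x = me j then 1 else 0) - ∑ i, ((if x = b i then 1 else 0) + (if next D.g x = b i then 1 else 0)) : ℤ) =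
      if x = D.se then 0 else (∑ j, if o x = o (me j) then 1 else 0) -
        ∑ i, ((if o x = o (b i) then 1 else 0) + (if o x + 1 = o (b i) then 1 else 0)) := by
  have key : ∀ y z, D.Wl y → D.Wl z → (y = z ↔ o y = o z) := fun y z hy hz =>
    ⟨fun h => by rw [h], hl.inj y z hy hz⟩
  by_cases hse : x = D.se
  · subst hse
    rw [if_pos rfl]
    have h1 : (∑ j, if D.se = me j then 1 else 0 : ℤ) = 0 := by
      refine sum_eq_zero fun j _ => if_neg ?_
      rw [key _ _ hx (hme j).1, hl.se_lab.2]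
      have := (hme j).2
      omega
    have h2 : (∑ i, ((if D.se = b i then 1 else 0) + (if next D.g D.se = b i then 1 else 0)) : ℤ) = 0 := by
      refine sum_eq_zero fun i _ => ?_
      rw [if_neg, if_neg]
      · rfl
      · rw [key _ _ hl.first.1 (hb i).1, hl.first.2]
        have := (hb i).2
        omega
      · rw [key _ _ hx (hb i).1, hl.se_lab.2]
        have := (hb i).2
        omega
    rw [h1, h2, sub_zero]
  · rw [if_neg hse]
    obtain ⟨h1, h2⟩ := hl.nxt x hx hse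
    congr 1
    · exact sum_congr rfl fun j _ => if_congr (key _ _ hx (hme j).1) rfl rfl
    · refine sum_congr rfl fun i _ => ?_
      rw [if_congr (key _ _ hx (hb i).1) rfl rfl, if_congr (key _ _ h1 (hb i).1) rfl rfl, h2]

/-- the law of the phases depends only on the charges of the wall ends -/
theorem PhLaw.congr {φ : Half (ℤ × ℤ) → ℝ} {q q' : Half (ℤ × ℤ) → ℤ} {ψ : ℝ} (h : PhLaw D φ q ψ)
    (hq : ∀ x, D.Wl x → q x = q' x) : PhLaw D φ q' ψ where
  gl := h.gl
  seam := h.seam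
  cut := h.cut
  wall := fun x h1 h2 => by rw [← hq x ⟨h1, h2⟩]; exact h.wall x h1 h2

end Cap

/-! ### sums over few positions -/

lemma sum_pi0 {M : Type*} [AddCommMonoid M] (T : Fin 0 → Finset ℤ) (f : (Fin 0 → ℤ) → M) :
    ∑ u ∈ Fintype.piFinset T, f u = f Fin.elim0 := by
  rw [show Fintype.piFinset T = {Fin.elim0} from ?_, sum_singleton]
  ext u
  rw [Fintype.mem_piFinset, mem_singleton]
  constructor
  · intro _
    exact Subsingleton.elim _ _
  · intro _ i
    exact i.elim0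

lemma sum_pi1 {M : Type*} [AddCommMonoid M] (T : Fin 1 → Finset ℤ) (f : (Fin 1 → ℤ) → M) :
    ∑ u ∈ Fintype.piFinset T, f u = ∑ t ∈ T 0, f fun _ => t := by
  refine sum_bij' (fun u _ => u 0) (fun t _ => fun _ => t) ?_ ?_ ?_ ?_ ?_
  · intro u hu
    exact Fintype.mem_piFinset.1 hu 0
  · intro t ht
    rw [Fintype.mem_piFinset]
    intro i
    rw [Fin.fin_one_eq_zero i]
    exact ht
  · intro u _
    funext i
    rw [Fin.fin_one_eq_zero i]
  · intro t _
    rfl
  · intro u _
    congr 1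
    funext i
    rw [Fin.fin_one_eq_zero i]

lemma sum_pi2 {M : Type*} [AddCommMonoid M] (T : Fin 2 → Finset ℤ) (f : (Fin 2 → ℤ) → M) :
    ∑ u ∈ Fintype.piFinset T, f u = ∑ t ∈ T 0, ∑ t' ∈ T 1, f ![t, t'] := by
  rw [← sum_product']
  refine sum_bij' (fun u _ => (u 0, u 1)) (fun t _ => ![t.1, t.2]) ?_ ?_ ?_ ?_ ?_
  · intro u hu
    have h := Fintype.mem_piFinset.1 hu
    exact mem_product.2 ⟨h 0, h 1⟩
  · intro t ht
    rw [Fintype.mem_piFinset]
    intro i
    have h := mem_product.1 ht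
    fin_cases i
    · exact h.1
    · exact h.2
  · intro u _
    funext i
    fin_cases i <;> rfl
  · intro t _
    rfl
  · intro u _
    congr 1
    funext i
    fin_cases i <;> rfl

end Full.Norm

namespace Full
open Full.X3 Full.Norm Finset Function SixV

lemma pr_step (v q : ℤ) : pr v q - pr v (q + 1) = -((if v = q + 1 then 1 else 0) + if v = q then 1 else 0) := by
  unfold pr stp
  split_ifs <;> omega

/-- the cumulative charge with pairs at the positions `v i` -/
def cC (B : ℤ → ℤ) {p : ℕ} (v : Fin p → ℤ) (q : ℤ) : ℤ := B q + ∑ i, pr (v i) q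

namespace Slab
variable {D : Slab} {W : Lab} {a nL nU s y : ℤ}

/-- **the norm of a sum over labels, above** -/
theorem up_red (hb : D.b ≤ y) (ht : y < D.t)
    (hl : (upCap D y hb ht).Lb a nU fun x => W.pos (eU x) - W.P)
    (hph : ∀ C : ℤ → ℤ, C W.P - C (W.P + nU - 1) - s + 1 = 0 →
      (upCap D y hb ht).PhLaw (D.phU W C s) (fun x => if x = (upCap D y hb ht).se then 0 else
        C (W.pos (eU x)) - C (W.pos (eU x) + 1)) (8 * K0 * (s - 1)))
    {p : ℕ} {T : Fin p → Finset ℤ} (hT : ∀ i, ∀ u ∈ T i, 0 < u ∧ u < nU - 1)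
    {ι : Type*} [Fintype ι] {me : ι → Half (ℤ × ℤ)}
    (hme : ∀ j, (upCap D y hb ht).Wl (me j) ∧ W.pos (eU (me j)) - W.P < nU - 1) {B : ℤ → ℤ}
    (hB : ∀ q, W.P ≤ q → q + 1 < W.P + nU → B q - B (q + 1) = ∑ j, if q = W.pos (eU (me j)) then 1 else 0)
    (hBs : B W.P - B (W.P + nU - 1) - 2 * p - s + 1 = 0) (E : (upCap D y hb ht).Env p)
    (hEY : E.Y = fun i => (upCap D y hb ht).lab (fun x => W.pos (eU x) - W.P) (T i))
    (hEc : ∀ b x, E.chg b x = (∑ j, if x = me j then 1 else 0) -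
      ∑ i, ((if x = b i then 1 else 0) + (if next (upCap D y hb ht).g x = b i then 1 else 0)))
    {X : ℝ} (hX : ∀ (φ : (Fin p → Half (ℤ × ℤ)) → Half (ℤ × ℤ) → ℝ) (ψ : ℝ),
      (∀ b ∈ Fintype.piFinset E.Y, (upCap D y hb ht).PhLaw (φ b) (E.chg b) ψ) →
      ∑ σ : Fin (D.n + 1) → Bool,
        ‖∑ b ∈ Fintype.piFinset E.Y, (upCap D y hb ht).vec (D.n + 1) (uph (φ b)) σ‖ ^ 2 ≤ X) :
    ∑ σ, ‖(∑ v ∈ Fintype.piFinset T, D.vup (D.FC W (cC B fun i => W.P + v i) s) y) σ‖ ^ 2 ≤ X := by
  rw [norm_up hb ht]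
  have h1 : ∀ σ : Fin (D.n + 1) → Bool,
      ∑ v ∈ Fintype.piFinset T, (upCap D y hb ht).vec (D.n + 1) (uph (D.phU W (cC B fun i => W.P + v i) s)) σ =
      ∑ b ∈ Fintype.piFinset E.Y, (upCap D y hb ht).vec (D.n + 1)
        (uph (D.phU W (cC B fun i => W.pos (eU (b i))) s)) σ := by
    intro σ
    rw [hEY, ← hl.sum_lab (fun i u hu => ⟨(hT i u hu).1.le, by have := (hT i u hu).2; omega⟩)
      fun v => (upCap D y hb ht).vec (D.n + 1) (uph (D.phU W (cC B fun i => W.P + v i) s)) σ]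
    refine sum_congr rfl fun b _ => ?_
    have e : (fun i => W.P + (W.pos (eU (b i)) - W.P)) = fun i => W.pos (eU (b i)) := by
      funext i
      ring
    simp only [e]
  simp only [h1]
  refine hX (fun b => D.phU W (cC B fun i => W.pos (eU (b i))) s) (8 * K0 * (s - 1)) fun b hb' => ?_
  rw [hEY, Fintype.mem_piFinset] at hb'
  have hbi : ∀ i, (upCap D y hb ht).Wl (b i) ∧ 0 < W.pos (eU (b i)) - W.P ∧
      W.pos (eU (b i)) - W.P < nU - 1 := fun i => by
    have h2 := Cap.mem_lab.1 (hb' i)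
    exact ⟨h2.1, hT i _ h2.2⟩
  refine (hph _ ?_).congr fun x hx => ?_
  · have e1 : ∑ i, pr (W.pos (eU (b i))) W.P = 0 := sum_eq_zero fun i _ => by
      have := hbi i
      unfold pr stp
      rw [if_neg (by omega), if_neg (by omega)]
      rfl
    have e2 : ∑ i, pr (W.pos (eU (b i))) (W.P + nU - 1) = 2 * p := by
      rw [show (2 * p : ℤ) = ∑ _i : Fin p, 2 by rw [sum_const, card_univ, Fintype.card_fin]; simp [mul_comm]]
      refine sum_congr rfl fun i _ => ?_
      have := hbi i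
      unfold pr stp
      rw [if_pos (by omega), if_pos (by omega)]
      rfl
    unfold cC
    rw [e1, e2]
    linarith
  · rw [hEc, hl.chg_eq hme hbi hx]
    by_cases hse : x = (upCap D y hb ht).se
    · rw [if_pos hse, if_pos hse]
    · rw [if_neg hse, if_neg hse]
      have hr := hl.range x hx
      have hn := (hl.nxt x hx hse)
      have hr' := hl.range _ hn.1
      have h3 := hB (W.pos (eU x)) (by omega) (by omega)
      have h4 : (∑ i, (pr (W.pos (eU (b i))) (W.pos (eU x)) - pr (W.pos (eU (b i))) (W.pos (eU x) + 1)) : ℤ) =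
          -∑ i, ((if W.pos (eU x) - W.P = W.pos (eU (b i)) - W.P then 1 else 0) +
            (if W.pos (eU x) - W.P + 1 = W.pos (eU (b i)) - W.P then 1 else 0)) := by
        rw [← sum_neg_distrib]
        refine sum_congr rfl fun i _ => ?_
        rw [pr_step]
        congr 1
        split_ifs <;> omega
      rw [sum_sub_distrib] at h4
      have h5 : (∑ j, if W.pos (eU x) - W.P = W.pos (eU (me j)) - W.P then 1 else 0 : ℤ) =
          ∑ j, if W.pos (eU x) = W.pos (eU (me j)) then 1 else 0 :=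
        sum_congr rfl fun j _ => if_congr (by omega) rfl rfl
      rw [h5, ← h3]
      unfold cC
      linarith

/-- **the norm of a sum over labels, below** -/
theorem low_red (hb : D.b < y) (ht : y ≤ D.t)
    (hl : (lowCap D y hb ht).Lb a nL fun x => nL - 1 - W.pos (eL x))
    (hph : ∀ C : ℤ → ℤ, s - C (nL - 1) + C 0 = 0 →
      (lowCap D y hb ht).PhLaw (D.phL W C s) (fun x => if x = (lowCap D y hb ht).se then 0 else
        C (W.pos (eL x) - 1) - C (W.pos (eL x))) (-(8 * K0 * s)))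
    {p : ℕ} {T : Fin p → Finset ℤ} (hT : ∀ i, ∀ u ∈ T i, 0 < u ∧ u < nL - 1)
    {ι : Type*} [Fintype ι] {me : ι → Half (ℤ × ℤ)}
    (hme : ∀ j, (lowCap D y hb ht).Wl (me j) ∧ 0 < W.pos (eL (me j))) {B : ℤ → ℤ}
    (hB : ∀ q, 0 < q → q < nL → B (q - 1) - B q = ∑ j, if q = W.pos (eL (me j)) then 1 else 0)
    (hBs : s - B (nL - 1) + B 0 - 2 * p = 0) (E : (lowCap D y hb ht).Env p)
    (hEY : E.Y = fun i => (lowCap D y hb ht).lab (fun x => nL - 1 - W.pos (eL x)) (T i))
    (hEc : ∀ b x, E.chg b x = (∑ j, if x = me j then 1 else 0) -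
      ∑ i, ((if x = b i then 1 else 0) + (if next (lowCap D y hb ht).g x = b i then 1 else 0)))
    {X : ℝ} (hX : ∀ (φ : (Fin p → Half (ℤ × ℤ)) → Half (ℤ × ℤ) → ℝ) (ψ : ℝ),
      (∀ b ∈ Fintype.piFinset E.Y, (lowCap D y hb ht).PhLaw (φ b) (E.chg b) ψ) →
      ∑ σ : Fin (D.n + 2) → Bool,
        ‖∑ b ∈ Fintype.piFinset E.Y, (lowCap D y hb ht).vec (D.n + 2) (uph (φ b)) σ‖ ^ 2 ≤ X) :
    ∑ σ, ‖(∑ v ∈ Fintype.piFinset T, D.vlow (D.FC W (cC B fun i => nL - 1 - v i) s) y) σ‖ ^ 2 ≤ X := by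
  rw [norm_low hb ht]
  have h1 : ∀ σ : Fin (D.n + 2) → Bool,
      ∑ v ∈ Fintype.piFinset T, (lowCap D y hb ht).vec (D.n + 2) (uph (D.phL W (cC B fun i => nL - 1 - v i) s)) σ =
      ∑ b ∈ Fintype.piFinset E.Y, (lowCap D y hb ht).vec (D.n + 2)
        (uph (D.phL W (cC B fun i => W.pos (eL (b i))) s)) σ := by
    intro σ
    rw [hEY, ← hl.sum_lab (fun i u hu => ⟨(hT i u hu).1.le, by have := (hT i u hu).2; omega⟩)
      fun v => (lowCap D y hb ht).vec (D.n + 2) (uph (D.phL W (cC B fun i => nL - 1 - v i) s)) σ]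
    refine sum_congr rfl fun b _ => ?_
    have e : (fun i => nL - 1 - (nL - 1 - W.pos (eL (b i)))) = fun i => W.pos (eL (b i)) := by
      funext i
      ring
    simp only [e]
  simp only [h1]
  refine hX (fun b => D.phL W (cC B fun i => W.pos (eL (b i))) s) (-(8 * K0 * s)) fun b hb' => ?_
  rw [hEY, Fintype.mem_piFinset] at hb'
  have hbi : ∀ i, (lowCap D y hb ht).Wl (b i) ∧ 0 < nL - 1 - W.pos (eL (b i)) ∧
      nL - 1 - W.pos (eL (b i)) < nL - 1 := fun i => by
    have h2 := Cap.mem_lab.1 (hb' i)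
    exact ⟨h2.1, hT i _ h2.2⟩
  refine (hph _ ?_).congr fun x hx => ?_
  · have e1 : ∑ i, pr (W.pos (eL (b i))) 0 = 0 := sum_eq_zero fun i _ => by
      have := hbi i
      unfold pr stp
      rw [if_neg (by omega), if_neg (by omega)]
      rfl
    have e2 : ∑ i, pr (W.pos (eL (b i))) (nL - 1) = 2 * p := by
      rw [show (2 * p : ℤ) = ∑ _i : Fin p, 2 by rw [sum_const, card_univ, Fintype.card_fin]; simp [mul_comm]]
      refine sum_congr rfl fun i _ => ?_
      have := hbi i
      unfold pr stp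
      rw [if_pos (by omega), if_pos (by omega)]
      rfl
    unfold cC
    rw [e1, e2]
    linarith
  · rw [hEc, hl.chg_eq (fun j => ⟨(hme j).1, by have := (hme j).2; omega⟩) hbi hx]
    by_cases hse : x = (lowCap D y hb ht).se
    · rw [if_pos hse, if_pos hse]
    · rw [if_neg hse, if_neg hse]
      have hr := hl.range x hx
      have hn := (hl.nxt x hx hse)
      have hr' := hl.range _ hn.1
      have h3 := hB (W.pos (eL x)) (by omega) (by omega)
      have h4 : (∑ i, (pr (W.pos (eL (b i))) (W.pos (eL x) - 1) - pr (W.pos (eL (b i))) (W.pos (eL x))) : ℤ) =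
          -∑ i, ((if nL - 1 - W.pos (eL x) = nL - 1 - W.pos (eL (b i)) then 1 else 0) +
            (if nL - 1 - W.pos (eL x) + 1 = nL - 1 - W.pos (eL (b i)) then 1 else 0)) := by
        rw [← sum_neg_distrib]
        refine sum_congr rfl fun i _ => ?_
        have h6 := pr_step (W.pos (eL (b i))) (W.pos (eL x) - 1)
        rw [sub_add_cancel] at h6
        rw [h6]
        congr 1
        split_ifs <;> omega
      rw [sum_sub_distrib] at h4
      have h5 : (∑ j, if nL - 1 - W.pos (eL x) = nL - 1 - W.pos (eL (me j)) then 1 else 0 : ℤ) =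
          ∑ j, if W.pos (eL x) = W.pos (eL (me j)) then 1 else 0 :=
        sum_congr rfl fun j _ => if_congr (by omega) rfl rfl
      rw [h5, ← h3]
      unfold cC
      linarith

end Slab

end Full
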