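import Pool.Agent.Full.Norm.Strand
import Pool.Agent.Full.Norm.MCount

/-!
# Atlases with own charts, mirror charts and corner charts

`MAtlas T g κ`: charts `c b` of radius `w b > 2 m b + 1`, every tile is in the inner box (radius `m b`) of
one of them; `own b`: the law has the sign `1`; `cn b`: corner chart (mirror, no mark visible); the other
mirror charts show no corner; `p0 b`: the position of the mark.  `MAtlas.Laws φ μ Y`: all charts satisfy
the local law.  `QChart.fct`: the local factor of the strands of the region `A` from the positions `< pL`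
to the positions `≥ pR`.  `cfct`: the factor of a corner chart, with the holes `H`.
-/

set_option autoImplicit false
set_option linter.unusedSectionVars false

namespace Full.Norm
open Finset Function Full.X3 Full.Corner

variable {τ : Type*} [DecidableEq τ] {T : Finset τ} {g : Half τ → Half τ}

/-- the local factor of the strands of the region `A` of a chart -/
noncomputable def QChart.fct {w : ℕ} (c : QChart T g w) (A : Finset (ℤ × ℤ)) (hA : A ⊆ c.W)
    (pL pR : ℤ) (hp : pL ≤ pR) (z : ℝ) (hz : 0 ≤ z) : Fct T g where
  w := w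
  c := c
  A := A
  L := {x | c.Real x ∧ c.ps x < pL}
  R := {x | c.Real x ∧ pR ≤ c.ps x}
  z := z
  sub := hA
  realL := fun _ _ h => h.1
  realR := fun _ _ h => h.1
  disj := fun x h h' => by
    have h1 := h.2
    have h2 := h'.2
    omega
  hz := hz

/-- an atlas; `p0 b` is the position of the mark in the chart `b` -/
structure MAtlas (T : Finset τ) (g : Half τ → Half τ) (κ : Type) where
  w : κ → ℕ
  m : κ → ℕ
  c : ∀ b, QChart T g (w b)
  own : κ → Prop
  cn : κ → Prop
  p0 : κ → ℤ
  hm : ∀ b, 1 ≤ m b
  hw : ∀ b, 2 * m b + 1 < w b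
  cov : ∀ y : Half τ, y.1 ∈ T → ∃ b, (c b).Inn (m b) y
  /-- corner charts are mirror charts -/
  cnm : ∀ b, cn b → ¬ own b
  /-- a chart of a corner -/
  cnq : ∀ b, cn b → nq (c b).Q = 1 ∨ nq (c b).Q = 3
  /-- the other mirror charts show no corner -/
  flat : ∀ b, ¬ own b → ¬ cn b → ∀ x x', (c b).Real x → (c b).Real x' → (c b).ps x < (c b).ps x' →
    Sx (nq (c b).Q) ((c b).ps x) ((c b).ps x') = 0
  /-- corner charts show no mark -/
  cn0 : ∀ b, cn b → ∀ x, (c b).Real x → (c b).ps x ≠ p0 b

/-- the weight of a strand around a corner, divided by `√3` -/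
noncomputable def zc (k : ℤ) : ℝ := if k = 1 then 2 / Real.sqrt 3 else 1 / Real.sqrt 3

lemma zc_nonneg (k : ℤ) : 0 ≤ zc k := by
  unfold zc
  split_ifs <;> positivity

namespace MAtlas
variable {κ : Type} (At : MAtlas T g κ)

open Classical in
/-- the sign of the law -/
noncomputable def sg (b : κ) : ℤ := if At.own b then 1 else -1

/-- the local laws -/
def Laws (φ : Half τ → ℝ) (μ : Half τ → ℤ) (Y : Finset (Half τ)) : Prop :=
  ∀ b, ∃ py, (At.c b).Dat φ (At.sg b) μ Y (At.p0 b) py

/-- the chart which counts the strands which are not held -/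
noncomputable def ch (b : κ) : QChart T g (2 * At.m b + 1) := (At.c b).restr (At.hw b).le

/-- the total number of the crossings -/
noncomputable def tot [Fintype κ] (ω : Finset τ) : ℕ := ∑ b, (At.ch b).X ω

open Classical in
/-- the region of a corner chart, without the tiles of `H` -/
noncomputable def cA (H : Finset τ) (b : κ) : Finset (ℤ × ℤ) :=
  (At.c b).W.filter fun t => t ∈ sqr (2 * At.m b + 1) ∧ (At.c b).φ t ∉ H

/-- the factor of a corner chart -/
noncomputable def cfct (H : Finset τ) (b : κ) : Fct T g :=
  (At.c b).fct (At.cA H b) (Finset.filter_subset _ _) 0 0 le_rfl (zc (nq (At.c b).Q)) (zc_nonneg _)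

end MAtlas

end Full.Norm
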