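import Pool.Agent.Full.Norm.ArmQ
import Pool.Agent.Full.Norm.Corn
import Pool.Agent.Full.Norm.MAtlas

/-!
# The factors of the marks and of the positions

In a mirror chart with the data `Dat φ (-1) μ Y p0 py`: `mark_str`, no strand of the window of radius `m` at the
mark goes over the mark without being of weight zero; `pos_str`, the same for the position `py`.
`exists_arm_fct`: these factors (`z = 0`) are local factors with the mean `C m ^ (-1/3)`.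
-/

set_option autoImplicit false
set_option linter.unusedSectionVars false

namespace Full.Norm
open Finset Function Full.Corner Full.Mom Full.Walk Full.X3
open Full.Perc (Ex Ex_congr Ex_nonneg Ex_mono)

/-! ### positions of the wall sides of the windows -/

/-- the real wall sides of the window of a mark -/
theorem hwin_pos {v : ℤ × ℤ} {Q : Bool → Bool → Bool} {w : ℕ} (hQ : QAdm Q)
    {x : Half (ℤ × ℤ)} (hx : Real v Q w x) {m : ℕ}
    (h : nq Q = 2 ∨ (m : ℤ) < ps v x ∨ ps v x < -(m : ℤ)) {y : Half (ℤ × ℤ)}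
    (hy : y.1 ∈ hwin x.2 (tl x) m) (hr : Real v Q w y) :
    y.2 = x.2 ∧ ps v x - m ≤ ps v y ∧ ps v y < ps v x + m := by
  have h1 := flat_near hQ hx (r := m + 1) (s := m) (by omega) (by omega) (by omega)
    (t := y.1 + y.2.vec) (by
      rw [mem_hwin, mem_bwin] at hy
      obtain ⟨⟨i, j⟩, d⟩ := x
      obtain ⟨⟨i', j'⟩, d'⟩ := y
      cases d <;> cases d' <;> simp only [tl, Dir.vec, Prod.mk_add_mk] at hy ⊢ <;> omega)
  have h2 : ¬ HPl x.2 (tl x) (y.1 + y.2.vec) := fun h3 => hr.2.2 (h1.2 h3)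
  rw [mem_hwin, mem_bwin] at hy
  obtain ⟨⟨i, j⟩, d⟩ := x
  obtain ⟨⟨i', j'⟩, d'⟩ := y
  cases d <;> cases d' <;> simp only [tl, HPl, Dir.vec, Prod.mk_add_mk, ps, reduceCtorEq, true_and,
    false_and] at hy h2 ⊢ <;> omega

/-- the real wall sides of the window of a position -/
theorem hwinS_pos {v : ℤ × ℤ} {Q : Bool → Bool → Bool} {w : ℕ} (hQ : QAdm Q)
    {x : Half (ℤ × ℤ)} (hx : Real v Q w x) {m : ℕ}
    (h : nq Q = 2 ∨ (m : ℤ) < ps v x ∨ ps v x < -1 - (m : ℤ)) {y : Half (ℤ × ℤ)}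
    (hy : y.1 ∈ hwinS x.2 x.1 m) (hr : Real v Q w y) :
    y.2 = x.2 ∧ ps v x - m ≤ ps v y ∧ ps v y ≤ ps v x + m := by
  have h1 := flat_near hQ hx (r := m + 1) (s := m + 1) (by omega) (by omega) (by omega)
    (t := y.1 + y.2.vec) (by
      rw [mem_hwinS] at hy
      obtain ⟨⟨i, j⟩, d⟩ := x
      obtain ⟨⟨i', j'⟩, d'⟩ := y
      cases d <;> cases d' <;> simp only [Dir.vec, Prod.mk_add_mk] at hy ⊢ <;> omega)
  have h2 : ¬ HPl x.2 (tl x) (y.1 + y.2.vec) := fun h3 => hr.2.2 (h1.2 h3)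
  rw [mem_hwinS] at hy
  obtain ⟨⟨i, j⟩, d⟩ := x
  obtain ⟨⟨i', j'⟩, d'⟩ := y
  cases d <;> cases d' <;> simp only [tl, HPl, Dir.vec, Prod.mk_add_mk, ps, reduceCtorEq, true_and,
    false_and] at hy h2 ⊢ <;> omega

/-- the window of a mark is shown -/
theorem hwin_sub {v : ℤ × ℤ} {Q : Bool → Bool → Bool} {w : ℕ} (hQ : QAdm Q)
    {x : Half (ℤ × ℤ)} (hx : Real v Q w x) {m : ℕ} (hm : 1 ≤ m)
    (h : nq Q = 2 ∨ (m : ℤ) ≤ ps v x ∨ ps v x ≤ -(m : ℤ)) (hb : bwin (tl x) m ⊆ sqr w) :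
    hwin x.2 (tl x) m ⊆ QW v Q w := by
  rw [hwin_filter hQ hx hm h hb]
  exact filter_subset _ _

lemma bwin_sub_sqr {x : Half (ℤ × ℤ)} {k m w : ℕ} (hx : x.1 ∈ sqr k) (h : k + m ≤ w) :
    bwin (tl x) m ⊆ sqr w := by
  intro t ht
  rw [mem_bwin] at ht
  rw [mem_sqr] at hx ⊢
  obtain ⟨⟨i, j⟩, d⟩ := x
  cases d <;> simp only [tl] at ht hx <;> omega

lemma box_sub_sqr {x : Half (ℤ × ℤ)} {k m w : ℕ} (hx : x.1 ∈ sqr k) (h : k + m ≤ w)
    (t : ℤ × ℤ) (h1 : |t.1 - x.1.1| ≤ m) (h2 : |t.2 - x.1.2| ≤ m) : t ∈ sqr w := by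
  rw [abs_le] at h1 h2
  rw [mem_sqr] at hx ⊢
  omega

/-! ### the weights -/

section
variable {τ : Type*} [DecidableEq τ] {T : Finset τ} {g : Half τ → Half τ} {w : ℕ}
  {c : QChart T g w} {φ : Half τ → ℝ} {μ : Half τ → ℤ} {Y : Finset (Half τ)} {p0 py : ℤ}

/-- a factor depends only on the bits of its region -/
theorem Fct.dep (F : Fct T g) : Dep {t : T | ∃ z ∈ F.A, F.c.φ z = t}
    (fun ω : T → Bool => F.z ^ F.cnt (ofBits T ω)) :=
  dep_pl F.c F.sub (X := fun S => F.z ^ pc F.A S F.L F.R) fun S => by rw [pc_inter]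

/-- the holonomies of the strands of a factor of a mirror chart -/
theorem str_fw (hd : c.Dat φ (-1) μ Y p0 py) {A : Finset (ℤ × ℤ)} {hA : A ⊆ c.W} {pL pR : ℤ}
    {hp : pL ≤ pR} {z : ℝ} {hz : 0 ≤ z} (hG : Glu T g) {ω : Finset τ} {e : Half τ}
    (h : (c.fct A hA pL pR hp z hz).Str ω e) : ∃ x x', x.1 ∈ A ∧ x'.1 ∈ A ∧ c.Real x ∧ c.Real x' ∧
      c.ps x < pL ∧ pR ≤ c.ps x' ∧
      fw φ g ω e = amp (hMir (nq c.Q) p0 py (c.ps x) (c.ps x')) := by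
  obtain ⟨x, hx, he⟩ := h
  have h1 := hx.real
  have h2 := hx.real'
  have h3 : c.ps x < pL := hx.2.1.2
  have h4 : pR ≤ c.ps ((c.fct A hA pL pR hp z hz).oth ω x) := hx.2.2.2
  refine ⟨x, _, hx.1.1, hx.bd'.1, h1, h2, h3, h4, ?_⟩
  have h5 : fw φ g ω (c.im x) = amp (hMir (nq c.Q) p0 py (c.ps x)
      (c.ps ((c.fct A hA pL pR hp z hz).oth ω x))) :=
    hd.fw_mir h1 h2 hx.oth_eq (h3.trans_le (hp.trans h4))
  rcases he with he | he
  · rw [he]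
    exact h5
  · rw [he, ← h5]
    have h6 : other (mate ω) g (c.im x) = c.im ((c.fct A hA pL pR hp z hz).oth ω x) := hx.other_im
    show fw φ g ω (c.im ((c.fct A hA pL pR hp z hz).oth ω x)) = _
    rw [← h6]
    exact fw_other hG φ ω (e := c.im x) (QChart.Real.bdT (c := c) h1)

/-- **the strands over a mark have the weight zero** -/
theorem mark_str (hG : Glu T g) (hd : c.Dat φ (-1) μ Y p0 py) {x : Half (ℤ × ℤ)} (hx : c.Real x)
    (hp : c.ps x = p0) {m : ℕ} (h : nq c.Q = 2 ∨ (m : ℤ) < p0 ∨ p0 < -(m : ℤ))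
    (hA : hwin x.2 (tl x) m ⊆ c.W) (hy : py < p0 - m ∨ p0 + m ≤ py) (ω : Finset τ) (e : Half τ)
    (he : (c.fct (hwin x.2 (tl x) m) hA p0 p0 le_rfl 0 le_rfl).Str ω e) :
    fw φ g ω e ≤ (c.fct (hwin x.2 (tl x) m) hA p0 p0 le_rfl 0 le_rfl).z * Real.sqrt 3 := by
  obtain ⟨y, y', h1, h2, h3, h4, h5, h6, h7⟩ := str_fw hd hG he
  have hx' : Real c.v c.Q w x := hx
  have hp' : Norm.ps c.v x = p0 := hp
  have k1 := hwin_pos c.adm hx' (by rw [hp']; exact h) h1 h3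
  have k2 := hwin_pos c.adm hx' (by rw [hp']; exact h) h2 h4
  rw [hp'] at k1 k2
  have k1' : p0 - m ≤ c.ps y := k1.2.1
  have k2' : c.ps y' < p0 + m := k2.2.2
  rw [h7]
  show amp _ ≤ 0 * Real.sqrt 3
  rw [zero_mul]
  apply le_of_eq
  apply amp_eq_zero
  unfold hMir Sx Mx Px
  rw [if_pos (c := c.ps y < p0 ∧ p0 ≤ c.ps y') ⟨h5, h6⟩,
    if_neg (c := c.ps y ≤ py ∧ py < c.ps y') (by omega),
    if_neg (c := c.ps y < py ∧ py ≤ c.ps y') (by omega)]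
  split_ifs with h8
  · have : nq c.Q = 2 := by omega
    rw [this]; rfl
  · rfl

/-- **the strands over a position have the weight zero** -/
theorem pos_str (hG : Glu T g) (hd : c.Dat φ (-1) μ Y p0 py) {x : Half (ℤ × ℤ)} (hx : c.Real x)
    (hp : c.ps x = py) {m : ℕ} (h : nq c.Q = 2 ∨ (m : ℤ) < py ∨ py < -1 - (m : ℤ))
    (hA : hwinS x.2 x.1 m ⊆ c.W) (hy : p0 ≤ py - m ∨ py + m < p0) (ω : Finset τ) (e : Half τ)
    (he : (c.fct (hwinS x.2 x.1 m) hA py (py + 1) (by omega) 0 le_rfl).Str ω e) :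
    fw φ g ω e ≤ (c.fct (hwinS x.2 x.1 m) hA py (py + 1) (by omega) 0 le_rfl).z * Real.sqrt 3 := by
  obtain ⟨y, y', h1, h2, h3, h4, h5, h6, h7⟩ := str_fw hd hG he
  have hx' : Real c.v c.Q w x := hx
  have hp' : Norm.ps c.v x = py := hp
  have k1 := hwinS_pos c.adm hx' (by rw [hp']; exact h) h1 h3
  have k2 := hwinS_pos c.adm hx' (by rw [hp']; exact h) h2 h4
  rw [hp'] at k1 k2
  have k1' : py - m ≤ c.ps y := k1.2.1
  have k2' : c.ps y' ≤ py + m := k2.2.2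
  rw [h7]
  show amp _ ≤ 0 * Real.sqrt 3
  rw [zero_mul]
  apply le_of_eq
  apply amp_eq_zero
  unfold hMir Sx Mx Px
  rw [if_neg (c := c.ps y < p0 ∧ p0 ≤ c.ps y') (by omega),
    if_pos (c := c.ps y ≤ py ∧ py < c.ps y') (by omega),
    if_pos (c := c.ps y < py ∧ py ≤ c.ps y') (by omega)]
  split_ifs with h8
  · have : nq c.Q = 2 := by omega
    rw [this]; rfl
  · rfl

end

/-- **the factors of marks and positions are local factors** -/
theorem exists_arm_fct : ∃ C : ℝ, 1 ≤ C ∧ ∀ (B : ℝ) (m : ℕ), 1 ≤ m → (m : ℝ) ≤ B →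
    ∀ {τ : Type*} [DecidableEq τ] {T : Finset τ} {g : Half τ → Half τ} {w : ℕ} (c : QChart T g w)
      (x : Half (ℤ × ℤ)), c.Real x →
    ((nq c.Q = 2 ∨ (m : ℤ) ≤ c.ps x ∨ c.ps x ≤ -(m : ℤ)) → bwin (tl x) m ⊆ sqr w →
      ∀ (hA : hwin x.2 (tl x) m ⊆ c.W) (p0 : ℤ), p0 = c.ps x →
      LocUp B (C * (m : ℝ) ^ (-(1 / 3) : ℝ)) (fun ω : T → Bool =>
        (c.fct (hwin x.2 (tl x) m) hA p0 p0 le_rfl 0 le_rfl).z ^
          (c.fct (hwin x.2 (tl x) m) hA p0 p0 le_rfl 0 le_rfl).cnt (ofBits T ω))) ∧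
    ((nq c.Q = 2 ∨ (m : ℤ) ≤ c.ps x ∨ c.ps x ≤ -1 - (m : ℤ)) →
      (∀ t : ℤ × ℤ, |t.1 - x.1.1| ≤ m → |t.2 - x.1.2| ≤ m → t ∈ sqr w) →
      ∀ (hA : hwinS x.2 x.1 m ⊆ c.W) (py : ℤ), py = c.ps x →
      LocUp B (C * (m : ℝ) ^ (-(1 / 3) : ℝ)) (fun ω : T → Bool =>
        (c.fct (hwinS x.2 x.1 m) hA py (py + 1) (by omega) 0 le_rfl).z ^
          (c.fct (hwinS x.2 x.1 m) hA py (py + 1) (by omega) 0 le_rfl).cnt (ofBits T ω))) := by
  obtain ⟨C, hC, h⟩ := exists_arm_Q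
  refine ⟨C, hC, fun B m hm hB τ _ T g w c x hx => ⟨fun h1 h2 hA p0 hp => ?_,
    fun h1 h2 hA py hp => ?_⟩⟩
  · subst hp
    have h3 : LocUpE B (C * (m : ℝ) ^ (-(1 / 3) : ℝ)) _ _ := (h B m hm hB c.v c.Q w c.adm x hx).1 h1 h2
    exact h3.pl c hA (fun S => by rw [pc_inter])
  · subst hp
    have h3 : LocUpE B (C * (m : ℝ) ^ (-(1 / 3) : ℝ)) _ _ := (h B m hm hB c.v c.Q w c.adm x hx).2 h1 h2
    have h4 := h3.pl c hA (fun S => by rw [pc_inter])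
    have h5 : {y | Real c.v c.Q w y ∧ ps c.v x < ps c.v y} = {y | c.Real y ∧ c.ps x + 1 ≤ c.ps y} := by
      ext y
      exact and_congr Iff.rfl (Int.add_one_le_iff).symm
    rw [h5] at h4
    exact h4

end Full.Norm
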