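import Pool.Agent.Full.Norm.CornS
import Pool.Agent.Full.Norm.FctArm

/-!
# The local factors of the corner charts

`Fct.locUp`: if the factor of a region of a chart is a local factor of the plane region, it is a local
factor of the surface.
`corner_fct_loc`: the factor of a corner chart on a part of a box around the vertex, for a reflex corner
the box without a hole around a wall end; `MAtlas.cfct_loc`: the factor `cfct H b` of an atlas.
-/

set_option autoImplicit false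
set_option linter.unusedSectionVars false

namespace Full.Norm
open Function Relation Finset Full Full.Corner Full.Macro Full.Mom
open Full.Perc (Ex Ex_mono Ex_congr Ex_nonneg)
open Full.Walk (ofBits)

section
variable {τ : Type*} [DecidableEq τ] {T : Finset τ} {g : Half τ → Half τ}

/-- disjoint regions, disjoint sets of bits -/
theorem Fct.disjoint {F F' : Fct T g} (h : ∀ t ∈ F.A, ∀ t' ∈ F'.A, F.c.φ t ≠ F'.c.φ t') :
    Disjoint {t : T | ∃ z ∈ F.A, F.c.φ z = t} {t : T | ∃ z ∈ F'.A, F'.c.φ z = t} := by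
  rw [Set.disjoint_left]
  rintro t ⟨z, hz, h1⟩ ⟨z', hz', h2⟩
  exact h z hz z' hz' (h1.trans h2.symm)

/-- a local factor of the plane region is a local factor of the surface -/
theorem Fct.locUp (F : Fct T g) {B u : ℝ}
    (h : LocUpE B u F.A (fun S => F.z ^ pc F.A S F.L F.R)) :
    LocUp B u (fun ω : T → Bool => F.z ^ F.cnt (ofBits T ω)) :=
  h.pl F.c F.sub fun S => by rw [pc_inter]

end

/-- the mean of the factor of a corner: `k` is the number of the quadrants of the region -/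
noncomputable def ucor (C ε : ℝ) (n m : ℕ) (k : ℤ) : ℝ :=
  if k = 1 then cvx m else C * (n : ℝ) ^ ε * rflx m

lemma zc_one : zc 1 = kap := by
  unfold zc
  rw [if_pos rfl]
  rfl

lemma zc_three : zc 3 = rh := by
  unfold zc
  rw [if_neg (by decide)]
  rfl

/-- **the factor of a corner chart is a local factor**: any part of the box around a convex corner, the box
around a reflex corner without a part of the box of radius `r` around a real wall end at distance at least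
`4 r` (or `r ≤ 1`) -/
theorem corner_fct_loc : ∃ A0 : ℝ, 0 ≤ A0 ∧ ∀ ε : ℝ, 0 < ε → ∃ C : ℝ, 1 ≤ C ∧
    ∀ (τ : Type) [DecidableEq τ] (T : Finset τ) (g : Half τ → Half τ) (w : ℕ) (c : QChart T g w)
    (A : Finset (ℤ × ℤ)) (hA : A ⊆ c.W) (m n : ℕ), nq c.Q = 1 ∨ nq c.Q = 3 → 1 ≤ m →
    Fit c.v m w → 2 ≤ n → m ≤ n → A ⊆ bwin c.v m →
    (nq c.Q = 1 ∨ (∀ t ∈ c.W, t ∈ bwin c.v m → t ∈ A) ∨ ∃ (y : Half (ℤ × ℤ)) (r : ℕ), c.Real y ∧
      (r ≤ 1 ∨ 4 * (r : ℤ) ≤ |y.1.1 - c.v.1| ∨ 4 * (r : ℤ) ≤ |y.1.2 - c.v.2|) ∧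
      ∀ t ∈ c.W, t ∈ bwin c.v m → t ∉ A → t - y.1 ∈ sqr r) →
    LocUp ((n : ℝ) ^ A0) (ucor C ε n m (nq c.Q)) (fun ω : T → Bool => zc (nq c.Q) ^
      (c.fct A hA 0 0 le_rfl (zc (nq c.Q)) (zc_nonneg _)).cnt (ofBits T ω)) := by
  obtain ⟨α1, C1, hα1, hC1, H1⟩ := cornC_chart
  obtain ⟨α2, C2, hα2, hC2, H2⟩ := cornR_box
  obtain ⟨α3, C3, hα3, hC3, H3⟩ := cornR_chart
  have hl1 : 0 ≤ α1 + Real.logb 2 C1 := add_nonneg hα1 (Real.logb_nonneg (by norm_num) hC1)
  have hl2 : 0 ≤ α2 + Real.logb 2 C2 := add_nonneg hα2 (Real.logb_nonneg (by norm_num) hC2)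
  have hl3 : 0 ≤ α3 + Real.logb 2 C3 := add_nonneg hα3 (Real.logb_nonneg (by norm_num) hC3)
  set A0 : ℝ := (α1 + Real.logb 2 C1) + (α2 + Real.logb 2 C2) + (α3 + Real.logb 2 C3) with hA0
  refine ⟨A0, by positivity, fun ε hε => ?_⟩
  obtain ⟨D2, hD2, H2⟩ := H2 ε hε
  obtain ⟨D3, hD3, H3⟩ := H3 ε hε
  refine ⟨max D2 D3, le_max_of_le_left hD2, ?_⟩
  intro τ _ T g w c A hA m n hq hm hfit hn hmn hAb hhole
  have hn1 : (1 : ℝ) ≤ n := by
    have : 1 ≤ n := by omega
    exact_mod_cast this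
  have hm0 : (0 : ℝ) ≤ m := Nat.cast_nonneg m
  have hmn' : (m : ℝ) ≤ n := by exact_mod_cast hmn
  have hm1 : (1 : ℝ) ≤ m := by exact_mod_cast hm
  have key : ∀ {α C : ℝ}, 1 ≤ C → 0 ≤ α → α + Real.logb 2 C ≤ A0 →
      C * (m : ℝ) ^ α ≤ (n : ℝ) ^ A0 := fun hC hα h =>
    (const_le_rpow hC hα hmn hn).trans (Real.rpow_le_rpow_of_exponent_le hn1 h)
  have hrf := rflx_nonneg m
  have hpow : ∀ {D : ℝ}, 0 ≤ D → D ≤ max D2 D3 →
      D * (m : ℝ) ^ ε * rflx m ≤ max D2 D3 * (n : ℝ) ^ ε * rflx m := by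
    intro D hD0 hD
    apply mul_le_mul_of_nonneg_right _ hrf
    exact mul_le_mul hD (Real.rpow_le_rpow hm0 hmn' hε.le) (by positivity)
      (le_max_of_le_left (by linarith))
  refine Fct.locUp (c.fct A hA 0 0 le_rfl (zc (nq c.Q)) (zc_nonneg _)) ?_
  show LocUpE _ _ A (fun S => zc (nq c.Q) ^ pc A S (wL c.v c.Q w) (wR c.v c.Q w))
  rcases hq with hq | hq
  · -- convex
    rcases nq_cases c.Q with h | ⟨a, b, h⟩ | h | ⟨a, b, h⟩ | h
    · omega
    · rw [hq, zc_one]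
      have h1 := H1 c.Q a b c.v w m A h hm hA hAb
      refine h1.mono (by positivity) (key hC1 hα1 (by linarith)) ?_
      unfold ucor
      rw [if_pos rfl]
    · omega
    · rw [nq_three h] at hq
      omega
    · omega
  · -- reflex
    rcases nq_cases c.Q with h | ⟨a, b, h⟩ | h | ⟨a, b, h⟩ | h
    · omega
    · rw [nq_one h] at hq
      omega
    · omega
    · have hAr : A ⊆ rwin a b c.v m := by
        rw [← filter_three h hfit]
        exact fun t ht => mem_filter.2 ⟨hA ht, hAb ht⟩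
      have hrA : ∀ t ∈ rwin a b c.v m, t ∈ c.W ∧ t ∈ bwin c.v m := by
        intro t ht
        rw [← filter_three h hfit] at ht
        exact mem_filter.1 ht
      rw [hq, zc_three]
      have e : ucor (max D2 D3) ε n m 3 = max D2 D3 * (n : ℝ) ^ ε * rflx m := by
        unfold ucor
        rw [if_neg (by decide)]
      rw [e]
      rcases hhole with h' | h' | ⟨y, r, hy, hr, hin⟩
      · omega
      · have h1 := H3 c.Q a b c.v w m A h hm hfit hAr
          (Or.inl (subset_antisymm hAr fun t ht => h' t (hrA t ht).1 (hrA t ht).2))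
        exact h1.mono (by positivity) (key hC3 hα3 (by linarith))
          (hpow (by linarith) (le_max_right _ _))
      · have h1 := H2 c.Q a b c.v w m r y A h hm hfit hAr hy hr
          (fun t ht htA => hin t (hrA t ht).1 (hrA t ht).2 htA)
        exact h1.mono (by positivity) (key hC2 hα2 (by linarith))
          (hpow (by linarith) (le_max_left _ _))
    · omega

/-- **the factor of a corner chart of an atlas is a local factor** -/
theorem MAtlas.cfct_loc : ∃ A0 : ℝ, 0 ≤ A0 ∧ ∀ ε : ℝ, 0 < ε → ∃ C : ℝ, 1 ≤ C ∧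
    ∀ (τ : Type) [DecidableEq τ] (T : Finset τ) (g : Half τ → Half τ) (κ : Type)
    (At : MAtlas T g κ) (H : Finset τ) (b : κ) (n : ℕ), At.cn b → (At.c b).v = 0 → 2 ≤ n →
    2 * At.m b + 1 ≤ n →
    (nq (At.c b).Q = 1 ∨
      (∀ t ∈ (At.c b).W, t ∈ sqr (2 * At.m b + 1) → (At.c b).φ t ∉ H) ∨
      ∃ (y : Half (ℤ × ℤ)) (r : ℕ), (At.c b).Real y ∧
        (r ≤ 1 ∨ 4 * (r : ℤ) ≤ |y.1.1| ∨ 4 * (r : ℤ) ≤ |y.1.2|) ∧
        ∀ t ∈ (At.c b).W, t ∈ sqr (2 * At.m b + 1) → (At.c b).φ t ∈ H → t - y.1 ∈ sqr r) →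
    LocUp ((n : ℝ) ^ A0) (ucor C ε n (2 * At.m b + 1) (nq (At.c b).Q))
      (fun ω : T → Bool => zc (nq (At.c b).Q) ^ (At.cfct H b).cnt (ofBits T ω)) := by
  classical
  obtain ⟨A0, hA0, h⟩ := corner_fct_loc
  refine ⟨A0, hA0, fun ε hε => ?_⟩
  obtain ⟨C, hC, h⟩ := h ε hε
  refine ⟨C, hC, ?_⟩
  intro τ _ T g κ At H b n hcn hv hn hmn hhole
  have hbw : ∀ t, t ∈ bwin (At.c b).v (2 * At.m b + 1) ↔ t ∈ sqr (2 * At.m b + 1) := by
    intro t
    rw [hv, mem_bwin, mem_sqr]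
    simp only [Prod.fst_zero, Prod.snd_zero]
    omega
  have hcA : ∀ t, t ∈ At.cA H b ↔ t ∈ (At.c b).W ∧ t ∈ sqr (2 * At.m b + 1) ∧
      (At.c b).φ t ∉ H := by
    intro t
    unfold MAtlas.cA
    rw [mem_filter]
  refine h τ T g (At.w b) (At.c b) (At.cA H b) (Finset.filter_subset _ _) (2 * At.m b + 1) n
    (At.cnq b hcn) (by omega) ?_ hn hmn ?_ ?_
  · rw [hv]
    exact fit_zero (At.hw b)
  · intro t ht
    exact (hbw t).2 ((hcA t).1 ht).2.1
  · rcases hhole with h1 | h1 | ⟨y, r, hy, hr, hin⟩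
    · exact Or.inl h1
    · refine Or.inr (Or.inl fun t ht hb => ?_)
      exact (hcA t).2 ⟨ht, (hbw t).1 hb, h1 t ht ((hbw t).1 hb)⟩
    · refine Or.inr (Or.inr ⟨y, r, hy, ?_, fun t ht hb htA => ?_⟩)
      · rw [hv]
        simpa using hr
      · refine hin t ht ((hbw t).1 hb) ?_
        by_contra hH
        exact htA ((hcA t).2 ⟨ht, (hbw t).1 hb, hH⟩)

end Full.Norm
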