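import Pool.Agent.Full.Norm.Weight
import Pool.Agent.Full.Turn.Final

/-!
# The law of the phases in a chart and the weight of a strand

`QChart.Law c φ ε q θ`: in the gauge `θ` the phases of consecutive real wall ends `x`, `next x` differ by
`-ε (2 K bt x - 8 K q x)`, `K = π / 24`: `ε = 1` in the own copy, `ε = -1` in the mirror copy; `q x` is the
charge between `x` and `next x`.  `Arc c`: the real wall ends are an interval of the boundary cycle.
`Law.hol_own`, `Law.hol_mirror`: the holonomy of the strand from the real end `a i` to the real end `a i'`,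
`i < i'`, is `π / 6 * (2 Q - 1)` resp. `π / 6 * (S - 2 Q - 1)`, `Q = ∑ q`, `S = ∑ bt`.
-/

set_option autoImplicit false
set_option linter.unusedSectionVars false

namespace Full.Norm
open Finset Function Full.X3

section
variable {τ : Type*} [DecidableEq τ]

lemma tr_mate_eq (ω : Finset τ) (x : Half τ) : tr ω (mate ω x) = Net.qt ω x := by
  obtain ⟨t, d⟩ := x
  unfold tr Net.qt mate rho
  simp only
  cases decide (t ∈ ω) <;> cases d <;> simp [Dir.mt, Dir.ccw, Dir.tt]

lemma strn_eq (ω : Finset τ) (g : Half τ → Half τ) (n : ℕ) (x : Half τ) :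
    strn ω g n x = Net.turn ω g n x := by
  unfold strn Net.turn
  exact sum_congr rfl fun k _ => tr_mate_eq ω _

lemma strn_hl (ω : Finset τ) (g : Half τ → Half τ) (x : Half τ) :
    strn ω g (hl (mate ω) g x) x = Net.sturn ω g x := strn_eq _ _ _ _

lemma strn_lturn (ω : Finset τ) (g : Half τ → Half τ) (x : Half τ) :
    strn ω g (minimalPeriod (g ∘ mate ω) x) x = Net.lturn ω g x := strn_eq _ _ _ _

end

namespace QChart
variable {τ : Type*} {T : Finset τ} {g : Half τ → Half τ} {w : ℕ} (c : QChart T g w)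

/-- the real wall ends of the chart in the order of the boundary cycle -/
structure Arc where
  /-- the number of the real wall ends -/
  N : ℕ
  /-- the real wall ends -/
  a : ℕ → Half (ℤ × ℤ)
  real : ∀ i < N, c.Real (a i)
  surj : ∀ x, c.Real x → ∃ i < N, a i = x
  inj : ∀ i < N, ∀ j < N, a i = a j → i = j
  next : ∀ i, i + 1 < N → next c.pg (a i) = a (i + 1)

/-- the law of the phases in the chart -/
structure Law (φ : Half τ → ℝ) (ε : ℤ) (q : Half (ℤ × ℤ) → ℤ) (θ : ℤ × ℤ → ℝ) : Prop where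
  gauge : c.Gauge φ θ
  step : ∀ x, c.Real x → c.Real (Full.next c.pg x) →
    c.gph φ θ (Full.next c.pg x) - c.gph φ θ x =
      -(ε : ℝ) * (2 * (Real.pi / 24) * (Turn.bt c.pg x : ℤ) - 8 * (Real.pi / 24) * (q x : ℤ))

namespace Arc
variable {c} (A : c.Arc)

lemma iter {i k : ℕ} (h : i + k < A.N) : (Full.next c.pg)^[k] (A.a i) = A.a (i + k) := by
  induction k with
  | zero => rfl
  | succ k ih => rw [iterate_succ_apply', ih (by omega), A.next _ (by omega)]; rfl

lemma lt_period {i k : ℕ} (h : i + k < A.N) :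
    k < minimalPeriod (Full.next c.pg) (A.a i) := by
  by_contra hc
  push Not at hc
  have h1 : 0 < minimalPeriod (Full.next c.pg) (A.a i) :=
    minimalPeriod_pos_of_mem_periodicPts (c.glu_pg.next_periodic (A.real i (by omega)).bd)
  have h2 := A.iter (i := i) (k := minimalPeriod (Full.next c.pg) (A.a i)) (by omega)
  rw [iterate_minimalPeriod] at h2
  have := A.inj _ (by omega) _ (by omega) h2
  omega

end Arc

variable {c}

/-- the increase of the phases along the real wall -/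
lemma Law.sum {φ : Half τ → ℝ} {ε : ℤ} {q : Half (ℤ × ℤ) → ℤ} {θ : ℤ × ℤ → ℝ}
    (h : c.Law φ ε q θ) (A : c.Arc) {i k : ℕ} (hk : i + k < A.N) :
    c.gph φ θ (A.a (i + k)) - c.gph φ θ (A.a i) =
      -(ε : ℝ) * (2 * (Real.pi / 24) * ((∑ j ∈ range k, Turn.bt c.pg (A.a (i + j)) : ℤ) : ℝ) -
        8 * (Real.pi / 24) * ((∑ j ∈ range k, q (A.a (i + j)) : ℤ) : ℝ)) := by
  induction k with
  | zero => simp
  | succ k ih =>
    have h1 := ih (by omega)
    have h2 := h.step (A.a (i + k)) (A.real _ (by omega)) (by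
      rw [A.next _ (by omega)]; exact A.real _ (by omega))
    rw [A.next _ (by omega)] at h2
    rw [sum_range_succ, sum_range_succ]
    push_cast at h1 h2 ⊢
    have h3 : A.a (i + (k + 1)) = A.a (i + k + 1) := rfl
    rw [h3]
    linarith

variable [DecidableEq τ] {ω : Finset τ}

/-- the turning of a strand between two real ends -/
lemma sturn_arc (hg : Turn.Good c.W c.pg) (A : c.Arc) {ω : Finset (ℤ × ℤ)} {i k : ℕ} (h0 : 0 < k)
    (hk : i + k < A.N) (ho : other (mate ω) c.pg (A.a i) = A.a (i + k)) :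
    Net.sturn ω c.pg (A.a i) = ∑ j ∈ range k, Turn.bt c.pg (A.a (i + j)) - 2 := by
  rw [hg.sturn_next ω (A.real i (by omega)).bd h0 (A.lt_period hk) (by rw [ho, A.iter hk])]
  congr 1
  exact sum_congr rfl fun j hj => by rw [A.iter (by have := mem_range.1 hj; omega)]

/-- **the holonomy of a strand between two real ends** -/
theorem Law.hol {φ : Half τ → ℝ} {ε : ℤ} {q : Half (ℤ × ℤ) → ℤ} {θ : ℤ × ℤ → ℝ}
    (h : c.Law φ ε q θ) (hg : Turn.Good c.W c.pg) (A : c.Arc) {i k : ℕ} (h0 : 0 < k)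
    (hk : i + k < A.N) (ho : other (mate (c.pl ω)) c.pg (A.a i) = A.a (i + k)) :
    X3.hol (Real.pi / 24) φ g ω (c.im (A.a i)) = Real.pi / 12 *
      (((1 - ε) * ∑ j ∈ range k, Turn.bt c.pg (A.a (i + j)) +
        4 * ε * ∑ j ∈ range k, q (A.a (i + j)) - 2 : ℤ) : ℝ) := by
  have hx := A.real i (by omega)
  have hx' : c.Real (other (mate (c.pl ω)) c.pg (A.a i)) := by
    rw [ho]; exact A.real _ (by omega)
  rw [hol_real h.gauge hx hx', strn_hl, sturn_arc hg A h0 hk ho, ho, h.sum A hk]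
  push_cast
  ring

/-- own copy -/
theorem Law.hol_own {φ : Half τ → ℝ} {q : Half (ℤ × ℤ) → ℤ} {θ : ℤ × ℤ → ℝ}
    (h : c.Law φ 1 q θ) (hg : Turn.Good c.W c.pg) (A : c.Arc) {i k : ℕ} (h0 : 0 < k)
    (hk : i + k < A.N) (ho : other (mate (c.pl ω)) c.pg (A.a i) = A.a (i + k)) :
    X3.hol (Real.pi / 24) φ g ω (c.im (A.a i)) = Real.pi / 6 *
      ((2 * ∑ j ∈ range k, q (A.a (i + j)) - 1 : ℤ) : ℝ) := by
  rw [h.hol hg A h0 hk ho]
  push_cast
  ring

/-- mirror copy -/
theorem Law.hol_mirror {φ : Half τ → ℝ} {q : Half (ℤ × ℤ) → ℤ} {θ : ℤ × ℤ → ℝ}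
    (h : c.Law φ (-1) q θ) (hg : Turn.Good c.W c.pg) (A : c.Arc) {i k : ℕ} (h0 : 0 < k)
    (hk : i + k < A.N) (ho : other (mate (c.pl ω)) c.pg (A.a i) = A.a (i + k)) :
    X3.hol (Real.pi / 24) φ g ω (c.im (A.a i)) = Real.pi / 6 *
      ((∑ j ∈ range k, Turn.bt c.pg (A.a (i + j)) - 2 * ∑ j ∈ range k, q (A.a (i + j)) - 1 : ℤ) : ℝ) := by
  rw [h.hol hg A h0 hk ho]
  push_cast
  ring

/-- **a loop which is contained in a chart has the weight `1`** -/
theorem Gauge.loop {φ : Half τ → ℝ} {θ : ℤ × ℤ → ℝ} (hθ : c.Gauge φ θ)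
    (hg : Turn.Good c.W c.pg) {x : Half (ℤ × ℤ)} (hx : x.1 ∈ c.W)
    (h : ∀ z, Conn (mate (c.pl ω)) c.pg x z → c.pg z ≠ z) :
    2 * Real.cos (holn (Real.pi / 24) φ g ω (minimalPeriod (g ∘ mate ω) (c.im x)) (c.im x)) = 1 := by
  rw [holn_loop hθ hx h, strn_lturn]
  have hsub : c.pl ω ⊆ c.W := by
    unfold pl pull
    exact filter_subset _ _
  rcases hg.loopFour _ hsub x hx h with h1 | h1
  · rw [h1]
    have : 2 * (Real.pi / 24) * ((4 : ℤ) : ℝ) = Real.pi / 3 := by push_cast; ring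
    rw [this, Real.cos_pi_div_three]
    norm_num
  · rw [h1]
    have : 2 * (Real.pi / 24) * ((-4 : ℤ) : ℝ) = -(Real.pi / 3) := by push_cast; ring
    rw [this, Real.cos_neg, Real.cos_pi_div_three]
    norm_num

end QChart

end Full.Norm
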