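import Pool.Agent.Full.Norm.Corn

/-!
# The reflex corner with a small hole

`cnt_remove`: the removal of `k` tiles changes the number of the strands by at most `4 k`; so the factor
of a reflex corner on a window without at most `k` tiles has mean at most `√3 ^ (4 k) rflx m`.
-/

set_option autoImplicit false
set_option linter.unusedSectionVars false

namespace Full.Norm
open Function Relation Finset Full Full.Corner Full.Macro Full.Mom
open Full.Perc (Ex Ex_mono Ex_congr Ex_nonneg Ex_mul)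

/-- a removed tile is on at most four strands -/
theorem cnt_remove {τ : Type*} [DecidableEq τ] {W T : Finset τ} {h g : Half τ → Half τ}
    (H : Corner.Win W h T g) {A B : Set (Half τ)} (hAB : ∀ x, x ∈ A → x ∉ B) (ω : Finset τ) :
    cnt T g ω A B ≤ cnt W h ω A B + 4 * (T \ W).card := by
  classical
  have hG := H.big
  have hstay : ∀ x, (¬ ∀ z, Full.Conn (mate ω) g x z → z.1 ∈ W) →
      ∃ z, Full.Conn (mate ω) g x z ∧ z.1 ∉ W := by
    intro x hx
    push Not at hx
    exact hx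
  choose! f hf1 hf2 using hstay
  unfold cnt
  rw [← card_filter_add_card_filter_not (s := (bdF T g).filter fun x => x ∈ A ∧
    other (mate ω) g x ∈ B) (fun x => ∀ z, Full.Conn (mate ω) g x z → z.1 ∈ W)]
  apply add_le_add
  · apply card_le_card
    intro x hx
    rw [mem_filter, mem_filter, mem_bdF] at hx
    obtain ⟨⟨h1, h2, h3⟩, h4⟩ := hx
    rw [mem_filter, mem_bdF]
    refine ⟨H.bd h1 (h4 x (Full.Conn.refl x)), h2, ?_⟩
    rw [H.other_down h1 h4]
    exact h3
  · have hc4 : 4 * (T \ W).card = ((T \ W) ×ˢ (univ : Finset Dir)).card := by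
      rw [card_product, mul_comm]
      rfl
    rw [hc4]
    apply card_le_card_of_injOn f
    · intro x hx
      rw [mem_coe, mem_filter, mem_filter, mem_bdF] at hx
      obtain ⟨⟨h1, h2, h3⟩, h4⟩ := hx
      rw [mem_coe, mem_product, mem_sdiff]
      exact ⟨⟨hG.conn_mem (hf1 x h4) h1.1, hf2 x h4⟩, mem_univ _⟩
    · intro x hx x' hx' he
      rw [mem_coe, mem_filter, mem_filter, mem_bdF] at hx hx'
      have h1 : Full.Conn (mate ω) g x x' := by
        have h5 := hf1 x hx.2
        rw [he] at h5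
        exact h5.trans ((hG.two ω).symm (hf1 x' hx'.2))
      rcases (hG.two ω).eq_or_eq_other hx.1.1.2 (hG.periodic ω x) hx'.1.1.2 h1 with h2 | h2
      · exact h2.symm
      · exfalso
        apply hAB x' hx'.1.2.1
        rw [h2]
        exact hx.1.2.2

/-- the planar form -/
theorem pc_remove {W T : Finset (ℤ × ℤ)} (hW : W ⊆ T) {A B : Set (Half (ℤ × ℤ))}
    (hAB : ∀ x, x ∈ A → x ∉ B) (ω : Finset (ℤ × ℤ)) :
    pc T ω A B ≤ pc W ω A B + 4 * (T \ W).card := cnt_remove (win_glue plane hW) hAB ω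

lemma rV_rH {a b : Bool} {v : ℤ × ℤ} (x : Half (ℤ × ℤ)) (hx : x ∈ rV a b v) : x ∉ rH a b v := by
  intro hx'
  obtain ⟨⟨i, j⟩, d⟩ := x
  simp only [rV, rH, Set.mem_ofPred_eq] at hx hx'
  have h1 := hx.1
  rw [hx'.1] at h1
  cases a <;> cases b <;> simp at h1

/-- **the factor of a reflex corner without at most `k` tiles** -/
theorem ExR_small {a b : Bool} {v : ℤ × ℤ} {m k : ℕ} {A : Finset (ℤ × ℤ)} (hA : A ⊆ rwin a b v m)
    (hk : (rwin a b v m \ A).card ≤ k) :
    Ex A (fun ω => rh ^ pc A ω (rV a b v) (rH a b v)) ≤ rh⁻¹ ^ (4 * k) * rflx m := by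
  have hr0 := rh_pos
  have hr1 : 1 ≤ rh⁻¹ := by
    rw [one_le_inv₀ rh_pos]
    exact rh_le_one
  rw [← Ex_rwin_rh a b v m, ← Ex_local hA (f := fun ω => rh ^ pc A ω (rV a b v) (rH a b v))
    (fun S => by rw [pc_inter]), ← Ex_mul]
  apply Ex_mono
  intro ω _
  have h1 := pc_remove hA (A := rV a b v) (B := rH a b v) rV_rH ω
  have h2 : rh ^ (pc A ω (rV a b v) (rH a b v) + 4 * k) ≤
      rh ^ pc (rwin a b v m) ω (rV a b v) (rH a b v) := by
    apply pow_le_pow_of_le_one hr0.le rh_le_one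
    omega
  calc rh ^ pc A ω (rV a b v) (rH a b v)
      = rh⁻¹ ^ (4 * k) * rh ^ (pc A ω (rV a b v) (rH a b v) + 4 * k) := by
        rw [pow_add, inv_pow]
        field_simp
    _ ≤ _ := mul_le_mul_of_nonneg_left h2 (by positivity)

/-- the box of radius one has four tiles -/
lemma card_hole {T A : Finset (ℤ × ℤ)} {y : ℤ × ℤ} (h : ∀ t ∈ T, t ∉ A → t - y ∈ sqr 1) :
    (T \ A).card ≤ 4 := by
  classical
  have h1 : T \ A ⊆ (sqr 1).image fun s => s + y := by
    intro t ht
    rw [mem_sdiff] at ht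
    exact mem_image.2 ⟨t - y, h t ht.1 ht.2, by simp⟩
  have h2 : (sqr 1).card = 4 := by
    unfold sqr
    simp
  exact ((card_le_card h1).trans card_image_le).trans h2.le

/-- **the factor of a reflex corner is a local factor**, the window without a part of the box of radius
`r` around a real wall end, where `r ≤ 1` or the distance to the vertex is at least `4 r` -/
theorem cornR_box : ∃ α C0 : ℝ, 0 ≤ α ∧ 1 ≤ C0 ∧ ∀ ε : ℝ, 0 < ε → ∃ C : ℝ, 1 ≤ C ∧
    ∀ (Q : Bool → Bool → Bool) (a b : Bool) (v : ℤ × ℤ) (w m r : ℕ) (y : Half (ℤ × ℤ))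
    (A : Finset (ℤ × ℤ)), (∀ x y, Q x y = true ↔ ¬ (x = a ∧ y = b)) → 1 ≤ m → Fit v m w →
    A ⊆ rwin a b v m → Real v Q w y →
    (r ≤ 1 ∨ 4 * (r : ℤ) ≤ |y.1.1 - v.1| ∨ 4 * (r : ℤ) ≤ |y.1.2 - v.2|) →
    (∀ t ∈ rwin a b v m, t ∉ A → t - y.1 ∈ sqr r) →
    LocUpE (C0 * (m : ℝ) ^ α) (C * (m : ℝ) ^ ε * rflx m) A
      (fun ω => rh ^ pc A ω (wL v Q w) (wR v Q w)) := by
  obtain ⟨α, C0, hα, hC0, H⟩ := cornR_chart
  obtain ⟨q, hq⟩ := Full.Walk.exists_q
  obtain ⟨α', C0', hα', hC0', hmom⟩ := cornerMoments' hq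
  refine ⟨max α (α' * 2), max C0 (C0' ^ 2), le_max_of_le_left hα, le_max_of_le_left hC0, ?_⟩
  intro ε hε
  obtain ⟨C, hC1, hC⟩ := H ε hε
  have hr0 := rh_pos
  have hr1 : 1 ≤ rh⁻¹ := by
    rw [one_le_inv₀ rh_pos]
    exact rh_le_one
  refine ⟨max C (rh⁻¹ ^ (4 * 4)), le_max_of_le_left hC1, ?_⟩
  intro Q a b v w m r y A h hm hf hA hy hr hin
  have hm' : (1 : ℝ) ≤ m := by exact_mod_cast hm
  have hrf := rflx_nonneg m
  by_cases hr2 : r ≤ 1
  · -- a small hole
    have hin1 : ∀ t ∈ rwin a b v m, t ∉ A → t - y.1 ∈ sqr 1 := by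
      intro t ht htA
      have h1 := hin t ht htA
      rw [mem_sqr] at h1 ⊢
      omega
    have e : (fun ω => rh ^ pc A ω (wL v Q w) (wR v Q w)) =
        fun ω => rh ^ pc A ω (rV a b v) (rH a b v) := funext fun ω => by rw [pc_three h hf hA]
    rw [e]
    have hB1 : 1 ≤ C0' * (m : ℝ) ^ α' :=
      one_le_mul_of_one_le_of_one_le hC0' (Real.one_le_rpow hm' hα')
    have h1 : TameE ((C0' * (m : ℝ) ^ α') ^ 2) A (fun ω => rh ^ pc A ω (rV a b v) (rH a b v)) :=
      tameE_reflex hB1 ((momR_le hA (subset_refl _) (subset_refl _)).trans (hmom m hm).2)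
    have e : (C0' * (m : ℝ) ^ α') ^ 2 = C0' ^ 2 * (m : ℝ) ^ (α' * 2) := by
      rw [mul_pow, ← Real.rpow_natCast ((m : ℝ) ^ α'), ← Real.rpow_mul (by linarith)]
      norm_num
    rw [e] at h1
    have h2 := LocUpE.of_tameE h1 (by positivity) (ExR_small hA (card_hole hin1))
    refine h2.mono (by positivity) ?_ ?_
    · exact mul_le_mul (le_max_right _ _)
        (Real.rpow_le_rpow_of_exponent_le hm' (le_max_right _ _)) (by positivity)
        (le_max_of_le_left (by linarith))
    · apply mul_le_mul_of_nonneg_right _ hrf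
      calc rh⁻¹ ^ (4 * 4) ≤ max C (rh⁻¹ ^ (4 * 4)) := le_max_right _ _
        _ ≤ max C (rh⁻¹ ^ (4 * 4)) * (m : ℝ) ^ ε :=
            le_mul_of_one_le_right (by positivity) (Real.one_le_rpow hm' hε.le)
  · have h2 := hC Q a b v w m A h hm hf hA (Or.inr ⟨r + 1, y, hy, ?_, ?_⟩)
    · refine h2.mono (by positivity) ?_ ?_
      · exact mul_le_mul (le_max_left _ _)
          (Real.rpow_le_rpow_of_exponent_le hm' (le_max_left _ _)) (by positivity)
          (le_max_of_le_left (by linarith))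
      · apply mul_le_mul_of_nonneg_right _ hrf
        exact mul_le_mul_of_nonneg_right (le_max_left _ _) (by positivity)
    · push_cast
      rcases hr with h3 | h3 | h3
      · exact absurd h3 hr2
      · left; omega
      · right; omega
    · intro t ht htA
      have h3 := hin t ht htA
      rw [mem_sqr] at h3
      simp only [Prod.fst_sub, Prod.snd_sub] at h3
      rw [abs_lt, abs_lt]
      push_cast
      omega

end Full.Norm
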