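import Pool.Agent.Full.Norm.Mirror
import Pool.Agent.Full.Norm.Main
import Pool.Agent.Full.Norm.Corn
import Pool.Agent.Full.Norm.FctArm

/-!
# The weights of the configurations as products of local factors

`locBd_of`: the sum over the own positions of the moduli of the weights, divided by `√3 ^ #arcs`, is bounded
by a product of local factors and of `gfac` (the number of the own positions and the bad strands).
-/

set_option autoImplicit false
set_option linter.unusedSectionVars false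

namespace Full.Norm
open Finset Function Full.X3 Full.Corner Full.Mom Full.Walk

variable {τ : Type} [DecidableEq τ] {T : Finset τ} {g : Half τ → Half τ}

/-- the factor which is not local -/
noncomputable def gfac {κ I : Type} [Fintype κ] [Fintype I] (At : MAtlas T g κ) {r : I → ℕ}
    (P : ∀ i, QChart T g (2 * r i + 1)) (j e : ℕ) (ω : Finset τ) : ℝ :=
  ((2 * At.tot ω + 2 * Fintype.card κ : ℕ) : ℝ) ^ j * 2 ^ (At.tot ω + ∑ i, (P i).X ω + e)

open Classical in
/-- **the bound by local factors** -/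
theorem locBd_of (hG : Glu T g) {ι : Type*} [LinearOrder ι] {o : Half τ → ι}
    (ho : ∀ x, Bd T g x → ∀ y, Bd T g y → o x = o y → x = y)
    {κ : Type} [Fintype κ] (At : MAtlas T g κ) {σ I : Type} [Fintype σ] [Fintype I]
    (G : σ → Fct T g) (r : I → ℕ) (hr : ∀ i, 1 ≤ r i) (P : ∀ i, QChart T g (2 * r i + 1))
    (H : Finset τ) (E : Finset (Half τ))
    (hH : ∀ t ∈ H, ∃ i, ∀ d, (P i).Inn (r i) (t, d))
    (hdis : ∀ b b', At.cn b → At.cn b' → b ≠ b' → ∀ t ∈ At.cA H b, ∀ t' ∈ At.cA H b',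
      (At.c b).φ t ≠ (At.c b').φ t')
    (hdis' : ∀ b k, At.cn b → ∀ t ∈ At.cA H b, ∀ t' ∈ (G k).A, (At.c b).φ t ≠ (G k).c.φ t')
    (hdis'' : ∀ k k', k ≠ k' → ∀ t ∈ (G k).A, ∀ t' ∈ (G k').A, (G k).c.φ t ≠ (G k').c.φ t')
    {J : Type} [Fintype J] [DecidableEq J] (Yf : J → Finset (Half τ)) {φ : (J → Half τ) → Half τ → ℝ}
    {μ : Half τ → ℤ} {Y' : Finset (Half τ)}
    (hL : ∀ y ∈ Fintype.piFinset Yf, At.Laws (φ y) μ (univ.image y ∪ Y'))
    (hY : ∀ y ∈ Fintype.piFinset Yf, ∀ b, At.cn b → ∀ x, (At.c b).Real x →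
      (At.c b).im x ∈ univ.image y ∪ Y' → (At.c b).im x ∈ E)
    (hGw : ∀ y ∈ Fintype.piFinset Yf, ∀ ω k e, (G k).Str ω e →
      fw (φ y) g ω e ≤ (G k).z * Real.sqrt 3)
    (hP : ∀ y ∈ Fintype.piFinset Yf, ∀ ω i e, Bd T g e → (P i).Held ω e →
      fw (φ y) g ω e ≤ Real.sqrt 3)
    (hown : ∀ ω, ((Fintype.piFinset Yf).filter fun y => cw K0 (φ y) T g none o ω ≠ 0).card ≤
      (2 * At.tot ω + 2 * Fintype.card κ) ^ Fintype.card J)
    {N : ℕ} (hN : (ends T g).card = 2 * N) {B q C v : ℝ} {S : ℕ}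
    (hS : Fintype.card κ + Fintype.card σ ≤ S) (uc : κ → ℝ) (ug : σ → ℝ)
    (hUc : ∀ b, At.cn b → LocUp B (uc b)
      fun ω : T → Bool => zc (nq (At.c b).Q) ^ (At.cfct H b).cnt (ofBits T ω))
    (hUg : ∀ k, LocUp B (ug k) fun ω : T → Bool => (G k).z ^ (G k).cnt (ofBits T ω))
    (hv : (∏ b ∈ univ.filter At.cn, uc b) * ∏ k, ug k ≤ v)
    (hM : (avg fun ω : T → Bool => gfac At P (Fintype.card J) E.card (ofBits T ω) ^ q) ≤ C) :
    LocBd B S q C v fun ω : T → Bool => (∑ y ∈ Fintype.piFinset Yf,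
      ‖cw K0 (φ y) T g none o (ofBits T ω)‖) / Real.sqrt 3 ^ N := by
  have hs3 : 0 < Real.sqrt 3 := lt_of_lt_of_le one_pos one_le_sqrt3
  refine ⟨κ ⊕ σ, inferInstance, (univ.filter At.cn).disjSum univ,
    fun k => {t : T | ∃ z ∈ (Sum.elim (At.cfct H) G k).A, (Sum.elim (At.cfct H) G k).c.φ z = t},
    fun k ω => (Sum.elim (At.cfct H) G k).z ^ (Sum.elim (At.cfct H) G k).cnt (ofBits T ω),
    Sum.elim uc ug, fun ω => gfac At P (Fintype.card J) E.card (ofBits T ω), ?_, ?_, ?_, ?_, ?_, ?_,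
    hM, ?_⟩
  · rw [card_disjSum]
    refine le_trans (add_le_add (card_le_univ _) ?_) hS
    exact le_of_eq card_univ
  · have key : ∀ k ∈ (univ.filter At.cn).disjSum (univ : Finset σ),
        ∀ l ∈ (univ.filter At.cn).disjSum (univ : Finset σ), k ≠ l →
        ∀ t ∈ (Sum.elim (At.cfct H) G k).A, ∀ t' ∈ (Sum.elim (At.cfct H) G l).A,
          (Sum.elim (At.cfct H) G k).c.φ t ≠ (Sum.elim (At.cfct H) G l).c.φ t' := by
      rintro (b | k) hb (b' | k') hb' hne t ht t' ht'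
      · exact hdis b b' (mem_filter.1 (inl_mem_disjSum.1 hb)).2
          (mem_filter.1 (inl_mem_disjSum.1 hb')).2 (fun h => hne (by rw [h])) t ht t' ht'
      · exact hdis' b k' (mem_filter.1 (inl_mem_disjSum.1 hb)).2 t ht t' ht'
      · exact (hdis' b' k (mem_filter.1 (inl_mem_disjSum.1 hb')).2 t' ht' t ht).symm
      · exact hdis'' k k' (fun h => hne (by rw [h])) t ht t' ht'
    intro k hk l hl hne
    rw [Set.disjoint_left]
    rintro t ⟨z, hz, hzt⟩ ⟨z', hz', hzt'⟩
    exact key k hk l hl hne z hz z' hz' (by rw [hzt, hzt'])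
  · intro k _
    exact Fct.dep _
  · rintro (b | k) hk
    · exact hUc b (mem_filter.1 (inl_mem_disjSum.1 hk)).2
    · exact hUg k
  · intro ω
    unfold gfac
    positivity
  · intro ω
    set Ω := ofBits T ω with hΩ
    set p := ∏ k ∈ (univ.filter At.cn).disjSum (univ : Finset σ),
      (Sum.elim (At.cfct H) G k).z ^ (Sum.elim (At.cfct H) G k).cnt Ω with hp
    have hp0 : 0 ≤ p := prod_nonneg fun k _ => pow_nonneg (Fct.hz _) _
    have harcs : (arcs T g Ω none o).card = N := by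
      have := two_card_arcs hG Ω ho
      omega
    have h1 : ∀ y ∈ Fintype.piFinset Yf, ‖cw K0 (φ y) T g none o Ω‖ ≤
        Real.sqrt 3 ^ N * p * 2 ^ (At.tot Ω + ∑ i, (P i).X Ω + E.card) := by
      intro y hy
      have h2 := mirror_bound At hG ho G r hr P H E hH hdis hdis' hdis'' (hL y hy) (hY y hy) Ω
        (hGw y hy Ω) (hP y hy Ω)
      rw [harcs] at h2
      rw [hp, prod_disjSum]
      exact h2
    have h3 : ∑ y ∈ Fintype.piFinset Yf, ‖cw K0 (φ y) T g none o Ω‖ =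
        ∑ y ∈ (Fintype.piFinset Yf).filter (fun y => cw K0 (φ y) T g none o Ω ≠ 0),
          ‖cw K0 (φ y) T g none o Ω‖ := by
      rw [sum_filter]
      refine sum_congr rfl fun y _ => ?_
      split_ifs with h
      · rfl
      · rw [not_not.1 h, norm_zero]
    have h4 : ∑ y ∈ Fintype.piFinset Yf, ‖cw K0 (φ y) T g none o Ω‖ ≤
        ((2 * At.tot Ω + 2 * Fintype.card κ : ℕ) : ℝ) ^ Fintype.card J *
          (Real.sqrt 3 ^ N * p * 2 ^ (At.tot Ω + ∑ i, (P i).X Ω + E.card)) := by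
      rw [h3]
      refine (sum_le_card_nsmul _ _ _ fun y hy => h1 y (mem_filter.1 hy).1).trans ?_
      rw [nsmul_eq_mul]
      refine mul_le_mul_of_nonneg_right ?_ (by positivity)
      exact_mod_cast hown Ω
    rw [div_le_iff₀ (by positivity)]
    refine h4.trans (le_of_eq ?_)
    unfold gfac
    ring
  · rw [prod_disjSum]
    exact hv

end Full.Norm
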