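import Pool.Agent.Full.Norm.GPos
import Pool.Agent.Full.Norm.SumGeo

/-!
# The list of the factors of the marks and of the positions

`exists_G`: the factors of the marks and of the mirror positions in the windows of radius `R / 16` or `dl / 8`
around the marks, `dl / 8` around the positions near a special point, `m` around the other positions.
-/

set_option autoImplicit false
set_option linter.unusedSectionVars false

namespace Full.Norm
open Finset Function Full.Corner Full.Mom Full.Walk Full.X3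

/-- `C` is a constant for the arm estimate -/
def ArmC (C : ℝ) : Prop := 1 ≤ C ∧ ∀ (B : ℝ) (m : ℕ), 1 ≤ m → (m : ℝ) ≤ B →
    ∀ {τ : Type} [DecidableEq τ] {T : Finset τ} {g : Half τ → Half τ} {w : ℕ} (c : QChart T g w)
      (x : Half (ℤ × ℤ)), c.Real x →
    ((nq c.Q = 2 ∨ (m : ℤ) ≤ c.ps x ∨ c.ps x ≤ -(m : ℤ)) → bwin (tl x) m ⊆ sqr w →
      ∀ (hA : hwin x.2 (tl x) m ⊆ c.W) (p0 : ℤ), p0 = c.ps x →
      LocUp B (C * (m : ℝ) ^ (-(1 / 3) : ℝ)) (fun ω : T → Bool =>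
        (c.fct (hwin x.2 (tl x) m) hA p0 p0 le_rfl 0 le_rfl).z ^
          (c.fct (hwin x.2 (tl x) m) hA p0 p0 le_rfl 0 le_rfl).cnt (ofBits T ω))) ∧
    ((nq c.Q = 2 ∨ (m : ℤ) ≤ c.ps x ∨ c.ps x ≤ -1 - (m : ℤ)) →
      (∀ t : ℤ × ℤ, |t.1 - x.1.1| ≤ m → |t.2 - x.1.2| ≤ m → t ∈ sqr w) →
      ∀ (hA : hwinS x.2 x.1 m ⊆ c.W) (py : ℤ), py = c.ps x →
      LocUp B (C * (m : ℝ) ^ (-(1 / 3) : ℝ)) (fun ω : T → Bool =>
        (c.fct (hwinS x.2 x.1 m) hA py (py + 1) (by omega) 0 le_rfl).z ^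
          (c.fct (hwinS x.2 x.1 m) hA py (py + 1) (by omega) 0 le_rfl).cnt (ofBits T ω)))

theorem exists_armC : ∃ C, ArmC C := by
  obtain ⟨C, hC, h⟩ := exists_arm_fct
  exact ⟨C, hC, fun B m h1 h2 => h B m h1 h2⟩

namespace Cap.Env
variable {D : Cap} {p : ℕ} {E : D.Env p} {K n w A m R : ℕ}

/-- a factor of the list: `u` the bound of the mean, `L` the places of the tiles -/
structure GFac (h : E.Ok K n w A m R) (a' : Fin p → Half (ℤ × ℤ)) (F : Fct D.T2 D.g2) (u : ℝ)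
    (L : ℤ × ℤ → Prop) : Prop where
  loc : ∀ t ∈ F.A, ∃ q, F.c.φ t = Sum.inr q ∧ L q
  up : LocUp (n : ℝ) u fun ω : D.T2 → Bool => F.z ^ F.cnt (ofBits D.T2 ω)
  str : ∀ (a : Fin p → Half (ℤ × ℤ)) (φ φ' : Half (ℤ × ℤ) → ℝ) (ψ : ℝ), a ∈ Fintype.piFinset E.Y →
    D.PhLaw φ (E.chg a) ψ → D.PhLaw φ' (E.chg a') ψ → ∀ ω e, F.Str ω e →
    fw (dph φ φ') D.g2 ω e ≤ F.z * Real.sqrt 3

variable (h : E.Ok K n w A m R)

/-- the trivial factor -/
theorem triv_fac (a' : Fin p → Half (ℤ × ℤ)) (c : Fin E.S) {u : ℝ} (hu : 1 ≤ u) (L : ℤ × ℤ → Prop) :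
    ∃ F, GFac h a' F u L := by
  refine ⟨(mc h c).fct ∅ (empty_subset _) 0 0 le_rfl 1 zero_le_one, fun t ht => absurd ht (notMem_empty t),
    ?_, fun a φ φ' ψ _ _ _ ω e he => ?_⟩
  · refine LocUp.mono_u (Nat.cast_nonneg n) (u := 1) (Or.inl ⟨fun ω => ?_, ?_, ?_⟩) hu
    · show (1 : ℝ) ≤ 1 ^ _
      rw [one_pow]
    · show avg (fun ω => ((1 : ℝ) ^ _) ^ (2 : ℝ)) ≤ _
      simp only [one_pow, Real.one_rpow]
      rw [avg_const]
      exact_mod_cast h.one_le_n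
    · show avg (fun ω => ((1 : ℝ) ^ _)) ≤ _
      simp only [one_pow]
      rw [avg_const]
  · obtain ⟨x, hx, -⟩ := he
    exact absurd hx.1.1 (notMem_empty _)

/-- the places of a real end which shows a position -/
lemma real_pos {a a' : Fin p → Half (ℤ × ℤ)} {c : Fin E.S} {z : Half (ℤ × ℤ)}
    (hY : (mc h c).im z ∈ Cap.Y2 a a') : ∃ i, E.dl c (a' i) = rad z.1 := by
  have h1 : (mc h c).im z = dr (E.V c + rfl2 z.1, z.2.flip) := by
    unfold QChart.im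
    rw [mc_phi]
    unfold dr
    rw [Dir.flip_flip]
  rw [h1, mem_Y2_dr] at hY
  obtain ⟨i, hi⟩ := hY
  refine ⟨i, ?_⟩
  unfold dl
  rw [← hi, ← rad_rfl2 z.1]
  simp only
  rw [add_sub_cancel_left]

/-- the factor of a mark -/
theorem mark_fac {C : ℝ} (hC : ArmC C) {a' : Fin p → Half (ℤ × ℤ)}
    (ha' : a' ∈ Fintype.piFinset E.Y) {c : Fin E.S} (hc : c ∈ E.M) {r : ℕ} (hr : 1 ≤ r) (hrR : r ≤ R)
    (hno : ∀ i, r < E.dl c (a' i)) :
    ∃ F, GFac h a' F (C * (r : ℝ) ^ (-(1 / 3) : ℝ)) fun q => q - E.V c ∈ sqr r := by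
  have hk := h.kind c
  rw [if_pos hc] at hk
  have hnq : nq (mc h c).Q = 2 := by rw [mc_nq]; exact hk
  obtain ⟨x, k1, k2, -⟩ := exists_zero (mc h c).adm hnq (w := R) (by have := R_big h; omega)
  have hx : (mc h c).Real x := by
    show Norm.Real (mc h c).v (mc h c).Q R x
    rw [mc_v]
    exact k1
  have hp : (mc h c).ps x = 0 := by rw [mc_ps]; exact k2
  have ht : tl x = 0 := tl_real k1 k2
  have hsub : bwin (tl x) r ⊆ sqr R := by
    rw [ht, bwin_zero]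
    exact fun t ht => Cap.sqr_mono hrR ht
  have hA : hwin x.2 (tl x) r ⊆ (mc h c).W := hwin_sub (mc h c).adm hx hr (Or.inl hnq) hsub
  refine ⟨(mc h c).fct (hwin x.2 (tl x) r) hA 0 0 le_rfl 0 le_rfl, fun t ht' => ?_, ?_,
    fun a φ φ' ψ ha hφ hφ' ω e he => ?_⟩
  · have h1 : t ∈ hwin x.2 (tl x) r := ht'
    rw [mem_hwin, ht, bwin_zero] at h1
    refine ⟨E.V c + rfl2 t, mc_phi h c t, ?_⟩
    rw [add_sub_cancel_left]
    exact rfl2_sqr.2 h1.1
  · exact (hC.2 n r hr (by exact_mod_cast hrR.trans h.hRn) (mc h c) x hx).1 (Or.inl hnq) hsub hA 0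
      hp.symm
  · obtain ⟨py, hd⟩ := atl_laws h ha ha' hφ hφ' (.inr (c, true))
    have hs : (atl h).sg (.inr (c, true)) = -1 := if_neg fun h1 => absurd h1 (by simp [atl_own_inr])
    rw [hs, atl_p0_mark h hc] at hd
    have hd' : (mc h c).Dat (dph φ φ') (-1) E.mu2 (Cap.Y2 a a') 0 py := hd
    refine mark_str' glu_g2 hd' hx hp (Or.inl hnq) hA ?_ ω e he
    intro z hz h1 h2 h3
    obtain ⟨i, hi⟩ := real_pos h h3
    have h4 := rad_real (mc_real (h := h) hz)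
    rw [sub_zero, ← hi] at h4
    rw [mc_ps] at h1 h2
    have h5 := hno i
    split_ifs at h4 <;> omega

/-- the factor of a position near a special point -/
theorem near_fac {C : ℝ} (hC : ArmC C) {a' : Fin p → Half (ℤ × ℤ)}
    (ha' : a' ∈ Fintype.piFinset E.Y) {c : Fin E.S} {i : Fin p} (hn : Nr E R c (a' i))
    (h32 : 32 ≤ E.dl c (a' i)) {r : ℕ} (hr : r = E.dl c (a' i) / 8) :
    ∃ F, GFac h a' F (C * (r : ℝ) ^ (-(1 / 3) : ℝ)) fun q => q - (a' i).1 ∈ sqr (r + 1) := by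
  unfold Nr at hn
  have hR := R_big h
  obtain ⟨hb, hcut⟩ := h.bd i _ (Fintype.mem_piFinset.1 ha' i)
  obtain ⟨hx, him⟩ := plc_real h c hb hcut (by omega)
  have hrad := rad_real (mc_real (h := h) hx)
  rw [sub_zero, rad_plc] at hrad
  have hps : (mc h c).ps (plc E c (a' i)) = Norm.ps 0 (plc E c (a' i)) := mc_ps h c _
  have hbox : ∀ t : ℤ × ℤ, |t.1 - (plc E c (a' i)).1.1| ≤ r →
      |t.2 - (plc E c (a' i)).1.2| ≤ r → t ∈ sqr R :=
    box_sub_sqr (k := E.dl c (a' i)) (by rw [mem_sqr_rad, rad_plc]) (by omega)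
  have hpl : rfl2 (plc E c (a' i)).1 = (a' i).1 - E.V c := rfl2_rfl2 _
  rw [← hps] at hrad
  set x := plc E c (a' i) with hxdef
  have hfar : (r : ℤ) < (mc h c).ps x ∨ (mc h c).ps x < -1 - (r : ℤ) := by
    split_ifs at hrad <;> omega
  have hfl : nq (mc h c).Q = 2 ∨ (r : ℤ) ≤ (mc h c).ps x ∨ (mc h c).ps x ≤ -1 - (r : ℤ) := by omega
  have hA : hwinS x.2 x.1 r ⊆ (mc h c).W := hwinS_sub (mc h c).adm hx hfl hbox
  refine ⟨(mc h c).fct (hwinS x.2 x.1 r) hA ((mc h c).ps x) ((mc h c).ps x + 1) (by omega) 0 le_rfl,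
    fun t ht' => ?_, ?_, fun a φ φ' ψ ha hφ hφ' ω e he => ?_⟩
  · have h1 : t ∈ hwinS x.2 x.1 r := ht'
    refine ⟨E.V c + rfl2 t, mc_phi h c t, ?_⟩
    have h2 := rfl2_box (hwinS_box h1)
    have h3 : E.V c + rfl2 t - (a' i).1 = rfl2 t - rfl2 x.1 := by
      rw [hpl]
      abel
    rw [h3]
    exact h2
  · exact (hC.2 n r (by omega) (by exact_mod_cast (show r ≤ R by omega).trans h.hRn) (mc h c) x hx).2
      hfl hbox hA _ rfl
  · obtain ⟨py, hd⟩ := atl_laws h ha ha' hφ hφ' (.inr (c, true))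
    have hs : (atl h).sg (.inr (c, true)) = -1 := if_neg fun h1 => absurd h1 (by simp [atl_own_inr])
    rw [hs] at hd
    have hd' : (mc h c).Dat (dph φ φ') (-1) E.mu2 (Cap.Y2 a a') ((atl h).p0 (.inr (c, true))) py := hd
    refine pos_str' glu_g2 hd' hx ?_ (Or.inr hfar) hA ?_ ω e he
    · rw [him, mem_Y2_dr]
      exact ⟨i, rfl⟩
    · intro z hz h1 h2 h3
      by_cases hc : c ∈ E.M
      · rw [atl_p0_mark h hc] at h1 h2 h3
        omega
      · exact (atl h).cn0 (.inr (c, true)) ((atl_cn_true h c).2 hc) z hz h1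

include h in
/-- a vertex near a plain place is a special point -/
lemma vertex_special {y v : ℤ × ℤ} {Q : Bool → Bool → Bool} (hQ : Cap.QBox D.R y R v Q)
    (hp : D.Plain y R) (hv : rad (y - v) + 2 ≤ R) (hq : nq Q = 1 ∨ nq Q = 3) : ∃ c, E.V c = v := by
  have h1 : y - v ∈ sqr (rad (y - v)) := mem_sqr_rad.2 le_rfl
  rw [mem_sqr] at h1
  simp only [Prod.fst_sub, Prod.snd_sub] at h1
  have h2 := card_around (v := v) hQ (by omega)
  have h3 : #{t ∈ around v | t ∈ D.R} = 1 ∨ #{t ∈ around v | t ∈ D.R} = 3 := by omega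
  rcases h.corner v h3 with ⟨h4, h5, h6⟩ | ⟨c, -, hc⟩
  · exfalso
    have hyt := D.hyt
    have hlr := D.hlr
    have key : ∀ q : ℤ × ℤ, q - y ∈ sqr R → (D.l ≤ q.1 ∧ q.1 < D.r) ∧ D.y ≤ q.2 ∧ q.2 < D.t →
        D.l < q.1 ∧ q.1 < D.r - 1 := by
      intro q hq1 hq2
      have h7 := hp (q - y) hq1
      rw [add_sub_cancel] at h7
      exact (h7 hq2).1
    rcases h4 with h4 | h4
    · have h8 := key (D.l, min v.2 (D.t - 1)) (by
        rw [mem_sqr]
        simp only [Prod.fst_sub, Prod.snd_sub]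
        omega) (by simp only; omega)
      simp only at h8
      omega
    · have h8 := key (D.r - 1, min v.2 (D.t - 1)) (by
        rw [mem_sqr]
        simp only [Prod.fst_sub, Prod.snd_sub]
        omega) (by simp only; omega)
      simp only at h8
      omega
  · exact ⟨c, hc⟩

/-- a wall end in the chart around it -/
lemma plain_zero {y : Half (ℤ × ℤ)} (hb : Bd D.R D.g y) (hcut : y ∉ D.C) {ρ : ℕ} {v : ℤ × ℤ}
    {Q : Bool → Bool → Bool} (hp : D.Plain y.1 (ρ + 2)) (hQ : Cap.QBox D.R y.1 (ρ + 2) v Q) :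
    Norm.Real (v - y.1) Q (ρ + 2) (0, y.2) ∧
      (Cap.swap (Cap.plain y.1 (ρ + 2) v Q hp hQ)).Real (rfh (0, y.2)) ∧
      (Cap.swap (Cap.plain y.1 (ρ + 2) v Q hp hQ)).im (rfh (0, y.2)) = Full.dr y ∧
      (Cap.swap (Cap.plain y.1 (ρ + 2) v Q hp hQ)).ps (rfh (0, y.2)) =
        -1 - Norm.ps (v - y.1) (0, y.2) := by
  have him : (Cap.plain y.1 (ρ + 2) v Q hp hQ).im (0, y.2) = Full.dl y := by
    show ((Sum.inl (y.1 + 0), y.2) : Half _) = _
    rw [add_zero]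
    rfl
  have h01 : (0 : ℤ × ℤ) ∈ sqr (ρ + 1) := by
    rw [mem_sqr]
    simp only [Prod.fst_zero, Prod.snd_zero]
    push_cast
    omega
  have h0 : (0 : ℤ × ℤ) ∈ QW (v - y.1) Q (ρ + 2) := by
    rw [mem_QW, QSet_sub]
    have h1 : (0 : ℤ × ℤ) ∈ sqr (ρ + 2) := Cap.sqr_mono (by omega) h01
    have h2 := (hQ.2 0 h1).1
    rw [add_zero] at h2 ⊢
    exact ⟨h1, h2 hb.1⟩
  have hx0 : (Cap.plain y.1 (ρ + 2) v Q hp hQ).Real (0, y.2) := by
    refine QChart.real_of_bd (w' := ρ + 1) (by omega) h0 h01 ?_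
    rw [him]
    exact (bd_dl.2 ⟨hb, hcut⟩).2
  refine ⟨hx0, ?_, ?_, ?_⟩
  · rw [swap_real, rfh_rfh]
    exact hx0
  · rw [swap_im, rfh_rfh, him, swh_dl]
  · rw [swap_ps, rfh_rfh]
    rfl

/-- the factor of a position which is far from the special points -/
theorem far_fac {C : ℝ} (hC : ArmC C) {a' : Fin p → Half (ℤ × ℤ)}
    (ha' : a' ∈ Fintype.piFinset E.Y) {i : Fin p} (hf : ∀ c, ¬ Nr E R c (a' i)) :
    ∃ F, GFac h a' F (C * (m : ℝ) ^ (-(1 / 3) : ℝ)) fun q => q - (a' i).1 ∈ sqr (m + 1) := by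
  have hR := R_big h
  have hmR := h.hmR
  have hy := Fintype.mem_piFinset.1 ha' i
  obtain ⟨hb, hcut⟩ := h.bd i _ hy
  obtain ⟨v, Q, hQ⟩ := h.yq i _ hy
  have hp := h.yplain i _ hy
  have hpos : ∀ c, ¬ E.dl c (a' i) ≤ m + 4 := by
    intro c h1
    apply hf c
    unfold Nr
    omega
  have hp' : D.Plain (a' i).1 (m + 2) :=
    hp.sub (k := 1) (by rw [sub_self, mem_sqr]; simp) (by omega)
  have hQ' : Cap.QBox D.R (a' i).1 (m + 2) v Q :=
    ⟨hQ.1, fun s hs => hQ.2 s (Cap.sqr_mono (by omega) hs)⟩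
  obtain ⟨hx0, hx, himx, hps⟩ := plain_zero hb hcut hp' hQ'
  have hg : GoodC D (Cap.plain (a' i).1 (m + 2) v Q hp' hQ') (fun s => (a' i).1 + s) 0 :=
    { own := plain_own hp' hQ'
      tr := fun s _ _ s' _ => by abel
      law := fun hφ φ' q' => hφ.plain hp' hQ' φ' q' }
  have hnq : nq (Cap.swap (Cap.plain (a' i).1 (m + 2) v Q hp' hQ')).Q = nq Q := swap_nq
  -- no corner is visible
  have hfar : nq (Cap.swap (Cap.plain (a' i).1 (m + 2) v Q hp' hQ')).Q = 2 ∨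
      (m : ℤ) < (Cap.swap (Cap.plain (a' i).1 (m + 2) v Q hp' hQ')).ps (rfh (0, (a' i).2)) ∨
      (Cap.swap (Cap.plain (a' i).1 (m + 2) v Q hp' hQ')).ps (rfh (0, (a' i).2)) < -1 - (m : ℤ) := by
    rw [hps, hnq]
    by_contra hcon
    push Not at hcon
    obtain ⟨h2, h3, h4⟩ := hcon
    have h5 := rad_real hx0
    rw [zero_sub, neg_sub] at h5
    have h6 : rad ((a' i).1 - v) ≤ m + 1 := by
      split_ifs at h5 <;> omega
    have h7 := real_nq hx0
    obtain ⟨c, hc⟩ := vertex_special h hQ hp (by omega) (by omega)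
    apply hpos c
    unfold dl
    rw [hc]
    omega
  obtain ⟨p0, hmu, hno⟩ := exists_p0' h hg (by omega) (by omega)
  have hno' : ∀ x, (Cap.swap (Cap.plain (a' i).1 (m + 2) v Q hp' hQ')).Real x →
      (Cap.swap (Cap.plain (a' i).1 (m + 2) v Q hp' hQ')).ps x ≠ p0 := by
    refine hno fun z hz k hk he => ?_
    have h1 := next_me_near h hk
    rw [← he] at h1
    simp only at h1
    have h2 : z.1 ∈ sqr (m + 2) := (mem_QW.1 hz.1).1
    have h3 : (a' i).1 - E.V k ∈ sqr (m + 4) := by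
      rw [mem_sqr] at h1 h2 ⊢
      simp only [Prod.fst_sub, Prod.snd_sub, Prod.fst_add, Prod.snd_add] at h1 h2 ⊢
      push_cast at h1 h2 ⊢
      omega
    exact hpos k (mem_sqr_rad.1 h3)
  have hbox : ∀ t : ℤ × ℤ, |t.1 - (rfh ((0 : ℤ × ℤ), (a' i).2)).1.1| ≤ m →
      |t.2 - (rfh ((0 : ℤ × ℤ), (a' i).2)).1.2| ≤ m → t ∈ sqr (m + 2) := by
    refine box_sub_sqr (k := 1) ?_ (by omega)
    show rfl2 0 ∈ sqr 1
    rw [rfl2_sqr, mem_sqr]
    simp
  have hfl : nq (Cap.swap (Cap.plain (a' i).1 (m + 2) v Q hp' hQ')).Q = 2 ∨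
      (m : ℤ) ≤ (Cap.swap (Cap.plain (a' i).1 (m + 2) v Q hp' hQ')).ps (rfh (0, (a' i).2)) ∨
      (Cap.swap (Cap.plain (a' i).1 (m + 2) v Q hp' hQ')).ps (rfh (0, (a' i).2)) ≤ -1 - (m : ℤ) := by
    omega
  have hA : hwinS (rfh ((0 : ℤ × ℤ), (a' i).2)).2 (rfh ((0 : ℤ × ℤ), (a' i).2)).1 m ⊆
      (Cap.swap (Cap.plain (a' i).1 (m + 2) v Q hp' hQ')).W :=
    hwinS_sub (QChart.adm _) hx hfl hbox
  refine ⟨(Cap.swap (Cap.plain (a' i).1 (m + 2) v Q hp' hQ')).fct _ hA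
    ((Cap.swap (Cap.plain (a' i).1 (m + 2) v Q hp' hQ')).ps (rfh (0, (a' i).2)))
    ((Cap.swap (Cap.plain (a' i).1 (m + 2) v Q hp' hQ')).ps (rfh (0, (a' i).2)) + 1) (by omega) 0 le_rfl,
    fun t ht' => ?_, ?_, fun a φ φ' ψ ha hφ hφ' ω e he => ?_⟩
  · have h1 : t ∈ hwinS (rfh ((0 : ℤ × ℤ), (a' i).2)).2 (rfh ((0 : ℤ × ℤ), (a' i).2)).1 m := ht'
    refine ⟨(a' i).1 + rfl2 t, rfl, ?_⟩
    have h2 := rfl2_box (hwinS_box h1)
    have h3 : rfl2 (rfh ((0 : ℤ × ℤ), (a' i).2)).1 = 0 := rfl2_rfl2 _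
    rw [h3, sub_zero] at h2
    rw [add_sub_cancel_left]
    exact h2
  · exact (hC.2 n m h.hm (by exact_mod_cast (show m ≤ R by omega).trans h.hRn) _ _ hx).2 hfl hbox hA _
      rfl
  · obtain ⟨py, hd⟩ := dat_mir h hg (by omega) (by omega) hmu (a := a) (φ := φ) ha' hφ'
    refine pos_str' glu_g2 hd hx ?_ hfar hA ?_ ω e he
    · rw [himx, mem_Y2_dr]
      exact ⟨i, rfl⟩
    · intro z hz h1 _ _
      exact hno' z hz h1

/-! ### the places of the windows -/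

/-- the window of the mark `c` -/
def LM (E : D.Env p) (R : ℕ) (a' : Fin p → Half (ℤ × ℤ)) (c : Fin E.S) (q : ℤ × ℤ) : Prop :=
  q - E.V c ∈ sqr (R / 16) ∧ ∀ i, Nr E R c (a' i) → 32 ≤ E.dl c (a' i) ∧
    q - E.V c ∈ sqr (E.dl c (a' i) / 8)

/-- the window of the position `a' i` -/
def LP (E : D.Env p) (R m : ℕ) (a' : Fin p → Half (ℤ × ℤ)) (i : Fin p) (q : ℤ × ℤ) : Prop :=
  (∃ c, Nr E R c (a' i) ∧ 32 ≤ E.dl c (a' i) ∧ q - (a' i).1 ∈ sqr (E.dl c (a' i) / 8 + 1)) ∨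
    (∀ c, ¬ Nr E R c (a' i)) ∧ q - (a' i).1 ∈ sqr (m + 1)

/-- a tile near a position: the distance of the position -/
lemma dl_le {y : Half (ℤ × ℤ)} {c : Fin E.S} {q : ℤ × ℤ} {r k : ℕ} (h1 : q - y.1 ∈ sqr r)
    (h2 : q - E.V c ∈ sqr k) : E.dl c y ≤ r + k := by
  unfold dl
  rw [← mem_sqr_rad]
  rw [mem_sqr] at h1 h2 ⊢
  simp only [Prod.fst_sub, Prod.snd_sub] at h1 h2 ⊢
  push_cast
  omega

section sep
include h

lemma sep_MM {a' : Fin p → Half (ℤ × ℤ)} {c c' : Fin E.S} {q : ℤ × ℤ} (h1 : LM E R a' c q)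
    (h2 : LM E R a' c' q) : c = c' :=
  far_eq h h1.1 h2.1 (by omega)

lemma sep_MP {a' : Fin p → Half (ℤ × ℤ)} {c : Fin E.S} {i : Fin p} {q : ℤ × ℤ} (h1 : LM E R a' c q)
    (h2 : LP E R m a' i q) : False := by
  have hR := R_big h
  have hmR := h.hmR
  rcases h2 with ⟨c', h3, h4, h5⟩ | ⟨h3, h5⟩
  · have h6 : c' = c := far_eq h (hole_near h h3 h5) (Cap.sqr_mono (by omega) h1.1) le_rfl
    subst h6
    have h7 := h1.2 i h3
    have h8 := dl_le h5 h7.2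
    omega
  · apply h3 c
    have h8 := dl_le h5 h1.1
    unfold Nr
    omega

lemma sep_PP {a' : Fin p → Half (ℤ × ℤ)} (ha' : a' ∈ Fintype.piFinset E.Y) {i j : Fin p}
    {q : ℤ × ℤ} (h1 : LP E R m a' i q) (h2 : LP E R m a' j q) : i = j := by
  have hR := R_big h
  have hmR := h.hmR
  have key : ∀ i, LP E R m a' i q → q - (a' i).1 ∈ sqr R := by
    rintro i (⟨c, h3, h4, h5⟩ | ⟨-, h5⟩)
    · unfold Nr at h3
      exact Cap.sqr_mono (by omega) h5
    · exact Cap.sqr_mono (by omega) h5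
  have h3 := key i h1
  have h4 := key j h2
  by_contra hne
  apply h.ysep i j hne _ (Fintype.mem_piFinset.1 ha' i) _ (Fintype.mem_piFinset.1 ha' j)
  rw [mem_sqr] at h3 h4 ⊢
  simp only [Prod.fst_sub, Prod.snd_sub] at h3 h4 ⊢
  push_cast
  omega

end sep

/-! ### the bounds -/

/-- comparison of the bounds of the means -/
lemma rp_le {a b k : ℕ} (ha : 1 ≤ a) (hb : 1 ≤ b) (hk : 1 ≤ k) (h : b ≤ k ^ 3 * a) :
    (a : ℝ) ^ (-(1 / 3) : ℝ) ≤ k * (b : ℝ) ^ (-(1 / 3) : ℝ) := by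
  have ha' : (0 : ℝ) < a := by exact_mod_cast ha
  have hb' : (0 : ℝ) < b := by exact_mod_cast hb
  have hk' : (0 : ℝ) < k := by exact_mod_cast hk
  have h1 : ((k : ℝ) ^ 3 * a) ^ (-(1 / 3) : ℝ) ≤ (b : ℝ) ^ (-(1 / 3) : ℝ) :=
    Real.rpow_le_rpow_of_nonpos hb' (by exact_mod_cast h) (by norm_num)
  have h2 : ((k : ℝ) ^ 3 * a) ^ (-(1 / 3) : ℝ) = (k : ℝ)⁻¹ * (a : ℝ) ^ (-(1 / 3) : ℝ) := by
    rw [Real.mul_rpow (by positivity) ha'.le, ← Real.rpow_natCast, ← Real.rpow_mul hk'.le]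
    norm_num
    rw [Real.rpow_neg_one]
    exact Or.inl rfl
  rw [h2] at h1
  calc (a : ℝ) ^ (-(1 / 3) : ℝ) = k * ((k : ℝ)⁻¹ * (a : ℝ) ^ (-(1 / 3) : ℝ)) := by
        field_simp
    _ ≤ k * (b : ℝ) ^ (-(1 / 3) : ℝ) := mul_le_mul_of_nonneg_left h1 hk'.le

lemma GFac.mono {a' : Fin p → Half (ℤ × ℤ)} {F : Fct D.T2 D.g2} {u u' : ℝ} {L L' : ℤ × ℤ → Prop}
    (hF : GFac h a' F u L) (hu : u ≤ u') (hL : ∀ q, L q → L' q) : GFac h a' F u' L' where
  loc := fun t ht => by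
    obtain ⟨q, h1, h2⟩ := hF.loc t ht
    exact ⟨q, h1, hL q h2⟩
  up := hF.up.mono_u (Nat.cast_nonneg n) hu
  str := hF.str

lemma K_one (h : E.Ok K n w A m R) : 1 ≤ K := by
  by_contra hK
  have h1 := h.hn
  have h2 := h.one_le_n
  have h3 : K = 0 := by omega
  rw [h3, zero_mul] at h1
  omega

/-- the factor of a mark, with its bound -/
theorem mark_u {C : ℝ} (hC : ArmC C) {a' : Fin p → Half (ℤ × ℤ)}
    (ha' : a' ∈ Fintype.piFinset E.Y) {c : Fin E.S} (hc : c ∈ E.M) :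
    ∃ F, GFac h a' F (4 * K * C * E.um n R c a') (LM E R a' c) := by
  have hC1 := hC.1
  have hK := K_one h
  have hK1 : (1 : ℝ) ≤ K := by exact_mod_cast hK
  have hR := R_big h
  have hmR := h.hmR
  have hm := h.hm
  by_cases hN : HasNr E R c a'
  · have hu : E.um n R c a' = (E.dl c (a' hN.choose) : ℝ) ^ (-(1 / 3 : ℝ)) := by
      unfold um
      rw [dif_pos hN]
    have hi := hN.choose_spec
    rw [hu]
    generalize hN.choose = i at *
    have h1 := dl_pos E c (a' i)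
    have hpos : (0 : ℝ) ≤ (E.dl c (a' i) : ℝ) ^ (-(1 / 3 : ℝ)) := by positivity
    by_cases h32 : 32 ≤ E.dl c (a' i)
    · have hi' := hi
      unfold Nr at hi'
      obtain ⟨F, hF⟩ := mark_fac h hC ha' hc (r := E.dl c (a' i) / 8) (by omega) (by omega) (by
        intro j
        by_cases hj : Nr E R c (a' j)
        · rw [use_uniq' h ha' hj hi]
          omega
        · unfold Nr at hj
          omega)
      refine ⟨F, hF.mono h ?_ ?_⟩
      · have h2 := rp_le (a := E.dl c (a' i) / 8) (b := E.dl c (a' i)) (k := 4) (by omega) (by omega)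
          (by omega) (by omega)
        calc C * ((E.dl c (a' i) / 8 : ℕ) : ℝ) ^ (-(1 / 3) : ℝ)
            ≤ C * ((4 : ℕ) * (E.dl c (a' i) : ℝ) ^ (-(1 / 3) : ℝ)) :=
              mul_le_mul_of_nonneg_left h2 (by linarith)
          _ = 1 * (4 * C * (E.dl c (a' i) : ℝ) ^ (-(1 / 3) : ℝ)) := by push_cast; ring
          _ ≤ K * (4 * C * (E.dl c (a' i) : ℝ) ^ (-(1 / 3) : ℝ)) :=
              mul_le_mul_of_nonneg_right hK1 (by positivity)
          _ = _ := by ring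
      · intro q hq
        refine ⟨Cap.sqr_mono (by omega) hq, fun j hj => ?_⟩
        rw [use_uniq' h ha' hj hi]
        exact ⟨h32, hq⟩
    · refine triv_fac h a' c ?_ _
      have h2 := rp_le (a := 1) (b := E.dl c (a' i)) (k := 4) (by omega) (by omega) (by omega)
        (by omega)
      rw [Nat.cast_one, Real.one_rpow] at h2
      calc (1 : ℝ) ≤ (4 : ℕ) * (E.dl c (a' i) : ℝ) ^ (-(1 / 3) : ℝ) := h2
        _ = 4 * 1 * 1 * (E.dl c (a' i) : ℝ) ^ (-(1 / 3) : ℝ) := by push_cast; ring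
        _ ≤ 4 * K * C * (E.dl c (a' i) : ℝ) ^ (-(1 / 3) : ℝ) := by gcongr
  · have hu : E.um n R c a' = (n : ℝ) ^ (-(1 / 3 : ℝ)) := by
      unfold um
      rw [dif_neg hN]
    rw [hu]
    have hN' : ∀ i, ¬ Nr E R c (a' i) := fun i hi => hN ⟨i, hi⟩
    obtain ⟨F, hF⟩ := mark_fac h hC ha' hc (r := R / 16) (by omega) (by omega) (by
      intro j
      have hj := hN' j
      unfold Nr at hj
      omega)
    refine ⟨F, hF.mono h ?_ ?_⟩
    · have h2 := rp_le (a := R / 16) (b := n) (k := K) (by omega) h.one_le_n hK (by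
        refine h.hn.trans ?_
        have h3 : K ≤ K ^ 3 := Nat.le_self_pow (by omega) K
        exact Nat.mul_le_mul h3 (by omega))
      calc C * ((R / 16 : ℕ) : ℝ) ^ (-(1 / 3) : ℝ) ≤ C * (K * (n : ℝ) ^ (-(1 / 3) : ℝ)) :=
              mul_le_mul_of_nonneg_left h2 (by linarith)
        _ = 1 * (K * C * (n : ℝ) ^ (-(1 / 3) : ℝ)) := by ring
        _ ≤ 4 * (K * C * (n : ℝ) ^ (-(1 / 3) : ℝ)) :=
              mul_le_mul_of_nonneg_right (by norm_num) (by positivity)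
        _ = _ := by ring
    · intro q hq
      exact ⟨hq, fun j hj => absurd hj (hN' j)⟩

/-- the factor of a position, with its bound -/
theorem pos_u {C : ℝ} (hC : ArmC C) {a' : Fin p → Half (ℤ × ℤ)}
    (ha' : a' ∈ Fintype.piFinset E.Y) (i : Fin p) :
    ∃ F, GFac h a' F (4 * K * C * E.us n R (a' i)) (LP E R m a' i) := by
  have hC1 := hC.1
  have hK := K_one h
  have hK1 : (1 : ℝ) ≤ K := by exact_mod_cast hK
  have hR := R_big h
  have hmR := h.hmR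
  have hm := h.hm
  by_cases hN : ∃ c, Nr E R c (a' i)
  · have hu : E.us n R (a' i) = (E.dl hN.choose (a' i) : ℝ) ^ (-(1 / 3 : ℝ)) := by
      unfold us
      rw [dif_pos hN]
    have hi := hN.choose_spec
    rw [hu]
    generalize hN.choose = c at *
    have h1 := dl_pos E c (a' i)
    by_cases h32 : 32 ≤ E.dl c (a' i)
    · obtain ⟨F, hF⟩ := near_fac h hC ha' hi h32 (r := E.dl c (a' i) / 8) rfl
      refine ⟨F, hF.mono h ?_ ?_⟩
      · have h2 := rp_le (a := E.dl c (a' i) / 8) (b := E.dl c (a' i)) (k := 4) (by omega) (by omega)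
          (by omega) (by omega)
        calc C * ((E.dl c (a' i) / 8 : ℕ) : ℝ) ^ (-(1 / 3) : ℝ)
            ≤ C * ((4 : ℕ) * (E.dl c (a' i) : ℝ) ^ (-(1 / 3) : ℝ)) :=
              mul_le_mul_of_nonneg_left h2 (by linarith)
          _ = 1 * (4 * C * (E.dl c (a' i) : ℝ) ^ (-(1 / 3) : ℝ)) := by push_cast; ring
          _ ≤ K * (4 * C * (E.dl c (a' i) : ℝ) ^ (-(1 / 3) : ℝ)) :=
              mul_le_mul_of_nonneg_right hK1 (by positivity)
          _ = _ := by ring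
      · intro q hq
        exact Or.inl ⟨c, hi, h32, hq⟩
    · refine triv_fac h a' c ?_ _
      have h2 := rp_le (a := 1) (b := E.dl c (a' i)) (k := 4) (by omega) (by omega) (by omega)
        (by omega)
      rw [Nat.cast_one, Real.one_rpow] at h2
      calc (1 : ℝ) ≤ (4 : ℕ) * (E.dl c (a' i) : ℝ) ^ (-(1 / 3) : ℝ) := h2
        _ = 4 * 1 * 1 * (E.dl c (a' i) : ℝ) ^ (-(1 / 3) : ℝ) := by push_cast; ring
        _ ≤ 4 * K * C * (E.dl c (a' i) : ℝ) ^ (-(1 / 3) : ℝ) := by gcongr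
  · have hu : E.us n R (a' i) = (n : ℝ) ^ (-(1 / 3 : ℝ)) := by
      unfold us
      rw [dif_neg hN]
    rw [hu]
    have hN' : ∀ c, ¬ Nr E R c (a' i) := fun c hc => hN ⟨c, hc⟩
    obtain ⟨F, hF⟩ := far_fac h hC ha' hN'
    refine ⟨F, hF.mono h ?_ ?_⟩
    · have h2 := rp_le (a := m) (b := n) (k := K) (by omega) h.one_le_n hK (by
        refine h.hn.trans ?_
        have h3 : K ≤ K ^ 3 := Nat.le_self_pow (by omega) K
        exact Nat.mul_le_mul h3 le_rfl)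
      calc C * (m : ℝ) ^ (-(1 / 3) : ℝ) ≤ C * (K * (n : ℝ) ^ (-(1 / 3) : ℝ)) :=
              mul_le_mul_of_nonneg_left h2 (by linarith)
        _ = 1 * (K * C * (n : ℝ) ^ (-(1 / 3) : ℝ)) := by ring
        _ ≤ 4 * (K * C * (n : ℝ) ^ (-(1 / 3) : ℝ)) :=
              mul_le_mul_of_nonneg_right (by norm_num) (by positivity)
        _ = _ := by ring
    · intro q hq
      exact Or.inr ⟨hN', hq⟩

/-- **the list of the factors of the marks and of the mirror positions** -/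
theorem exists_G (p K : ℕ) : ∃ C : ℝ, 1 ≤ C ∧ ∀ (D : Cap) (E : D.Env p) (n w A m R : ℕ)
    (_ : E.Ok K n w A m R) (a' : Fin p → Half (ℤ × ℤ)), a' ∈ Fintype.piFinset E.Y →
    ∃ (σ : Type) (_ : Fintype σ) (G : σ → Fct D.T2 D.g2) (ug : σ → ℝ),
      Fintype.card σ ≤ K + p ∧ (∀ k, 0 ≤ ug k) ∧
      (∀ k, ∀ t ∈ (G k).A, ∃ q, (G k).c.φ t = Sum.inr q ∧ LocG E R m a' q) ∧
      (∀ k k', k ≠ k' → ∀ t ∈ (G k).A, ∀ t' ∈ (G k').A, (G k).c.φ t ≠ (G k').c.φ t') ∧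
      (∀ (a : Fin p → Half (ℤ × ℤ)) (φ φ' : Half (ℤ × ℤ) → ℝ) (ψ : ℝ), a ∈ Fintype.piFinset E.Y →
        D.PhLaw φ (E.chg a) ψ → D.PhLaw φ' (E.chg a') ψ → ∀ ω k e, (G k).Str ω e →
        fw (dph φ φ') D.g2 ω e ≤ (G k).z * Real.sqrt 3) ∧
      (∀ k, LocUp (n : ℝ) (ug k) fun ω : D.T2 → Bool => (G k).z ^ (G k).cnt (ofBits D.T2 ω)) ∧
      ∏ k, ug k ≤ C * ((∏ c ∈ E.M, E.um n R c a') * ∏ i, E.us n R (a' i)) := by
  obtain ⟨C, hC⟩ := exists_armC
  have hC1 := hC.1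
  refine ⟨(4 * (K + 1) * C) ^ (K + p), one_le_pow₀ (by nlinarith [(Nat.cast_nonneg K : (0:ℝ) ≤ K)]),
    fun D E n w A m R h a' ha' => ?_⟩
  have hK := K_one h
  have hK1 : (1 : ℝ) ≤ K := by exact_mod_cast hK
  choose FM hFM using fun c : {x // x ∈ E.M} => mark_u h hC ha' c.2
  choose FP hFP using fun i => pos_u h hC ha' i
  have h4 : (0 : ℝ) ≤ 4 * K * C := by positivity
  have hu : ∀ c, 0 ≤ E.um n R c a' := fun c => um_nonneg c a'
  have hs : ∀ i, 0 ≤ E.us n R (a' i) := fun i => us_nonneg (a' i)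
  refine ⟨{x // x ∈ E.M} ⊕ Fin p, inferInstance, Sum.elim FM FP,
    Sum.elim (fun c => 4 * K * C * E.um n R c.1 a') (fun i => 4 * K * C * E.us n R (a' i)),
    ?_, ?_, ?_, ?_, ?_, ?_, ?_⟩
  · rw [Fintype.card_sum, Fintype.card_coe, Fintype.card_fin]
    have h5 := card_le_univ E.M
    rw [Fintype.card_fin] at h5
    have := h.hS
    omega
  · rintro (c | i)
    · exact mul_nonneg h4 (hu c.1)
    · exact mul_nonneg h4 (hs i)
  · rintro (c | i) t ht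
    · obtain ⟨q, h1, h2⟩ := (hFM c).loc t ht
      exact ⟨q, h1, Or.inl ⟨c.1, c.2, h2.1⟩⟩
    · obtain ⟨q, h1, h2⟩ := (hFP i).loc t ht
      refine ⟨q, h1, Or.inr ?_⟩
      rcases h2 with ⟨c, h3⟩ | h3
      · exact Or.inl ⟨i, c, h3⟩
      · exact Or.inr ⟨i, h3⟩
  · rintro (c | i) (c' | j) hne t ht t' ht' he
    · obtain ⟨q, h1, h2⟩ := (hFM c).loc t ht
      obtain ⟨q', h1', h2'⟩ := (hFM c').loc t' ht'
      have h3 : q = q' := Sum.inr.inj (h1.symm.trans (he.trans h1'))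
      subst h3
      exact hne (by rw [Subtype.ext (sep_MM h h2 h2')])
    · obtain ⟨q, h1, h2⟩ := (hFM c).loc t ht
      obtain ⟨q', h1', h2'⟩ := (hFP j).loc t' ht'
      have h3 : q = q' := Sum.inr.inj (h1.symm.trans (he.trans h1'))
      subst h3
      exact sep_MP h h2 h2'
    · obtain ⟨q, h1, h2⟩ := (hFP i).loc t ht
      obtain ⟨q', h1', h2'⟩ := (hFM c').loc t' ht'
      have h3 : q = q' := Sum.inr.inj (h1.symm.trans (he.trans h1'))
      subst h3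
      exact sep_MP h h2' h2
    · obtain ⟨q, h1, h2⟩ := (hFP i).loc t ht
      obtain ⟨q', h1', h2'⟩ := (hFP j).loc t' ht'
      have h3 : q = q' := Sum.inr.inj (h1.symm.trans (he.trans h1'))
      subst h3
      exact hne (by rw [sep_PP h ha' h2 h2'])
  · rintro a φ φ' ψ ha hφ hφ' ω (c | i) e he
    · exact (hFM c).str a φ φ' ψ ha hφ hφ' ω e he
    · exact (hFP i).str a φ φ' ψ ha hφ hφ' ω e he
  · rintro (c | i)
    · exact (hFM c).up
    · exact (hFP i).up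
  · rw [Fintype.prod_sum_type]
    simp only [Sum.elim_inl, Sum.elim_inr]
    have k1 : ∏ c : {x // x ∈ E.M}, 4 * K * C * E.um n R c.1 a' =
        (4 * K * C) ^ E.M.card * ∏ c ∈ E.M, E.um n R c a' := by
      rw [prod_coe_sort E.M (fun c => 4 * K * C * E.um n R c a'), prod_mul_distrib (f := fun _ => 4 * K * C),
        prod_const]
    have k2 : ∏ i, 4 * K * C * E.us n R (a' i) = (4 * K * C) ^ p * ∏ i, E.us n R (a' i) := by
      rw [prod_mul_distrib (f := fun _ => 4 * K * C), prod_const, card_univ, Fintype.card_fin]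
    rw [k1, k2]
    have h5 : E.M.card ≤ K := by
      have h5 := card_le_univ E.M
      rw [Fintype.card_fin] at h5
      exact h5.trans h.hS
    have h6 : (4 * K * C) ^ E.M.card ≤ (4 * (K + 1) * C) ^ K := by
      calc (4 * K * C) ^ E.M.card ≤ (4 * (K + 1) * C) ^ E.M.card := by
            gcongr
            linarith
        _ ≤ (4 * (K + 1) * C) ^ K := pow_le_pow_right₀ (by nlinarith) h5
    have h7 : (4 * K * C) ^ p ≤ (4 * (K + 1) * C) ^ p := by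
      gcongr
      linarith
    have h8 : 0 ≤ ∏ c ∈ E.M, E.um n R c a' := prod_nonneg fun c _ => hu c
    have h9 : 0 ≤ ∏ i, E.us n R (a' i) := prod_nonneg fun i _ => hs i
    calc ((4 * K * C) ^ E.M.card * ∏ c ∈ E.M, E.um n R c a') * ((4 * K * C) ^ p * ∏ i, E.us n R (a' i))
        = ((4 * K * C) ^ E.M.card * (4 * K * C) ^ p) *
          ((∏ c ∈ E.M, E.um n R c a') * ∏ i, E.us n R (a' i)) := by ring
      _ ≤ ((4 * (K + 1) * C) ^ K * (4 * (K + 1) * C) ^ p) *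
          ((∏ c ∈ E.M, E.um n R c a') * ∏ i, E.us n R (a' i)) := by gcongr
      _ = _ := by rw [pow_add]

end Cap.Env

end Full.Norm
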