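import Pool.Agent.Full.Norm.Hole

/-!
# The windows of the corners, of the marks and of the positions are disjoint

`LocG E R m a' q`: the tile `q` is near a mark, near a used position (at most `dl / 8 + 1`), or near a
position which is far from the special points (at most `m + 1`).
-/

set_option autoImplicit false
set_option linter.unusedSectionVars false

namespace Full.Norm
open Finset Function Full.X3 Full.Corner

namespace Cap.Env
variable {D : Cap} {p : ℕ} {E : D.Env p} {K n w A m R : ℕ}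

/-- the tiles of the windows of the marks and of the positions -/
def LocG (E : D.Env p) (R m : ℕ) (a' : Fin p → Half (ℤ × ℤ)) (q : ℤ × ℤ) : Prop :=
  (∃ c ∈ E.M, q - E.V c ∈ sqr (R / 16)) ∨
  (∃ i c, Nr E R c (a' i) ∧ 32 ≤ E.dl c (a' i) ∧ q - (a' i).1 ∈ sqr (E.dl c (a' i) / 8 + 1)) ∨
  ∃ i, (∀ c, ¬ Nr E R c (a' i)) ∧ q - (a' i).1 ∈ sqr (m + 1)

variable (h : E.Ok K n w A m R)
include h

/-- the windows of two special points are disjoint -/
theorem sep_cc {c c' : Fin E.S} (hne : c ≠ c') {k : ℕ} (hk : k ≤ R) {t t' : ℤ × ℤ} (ht : t ∈ sqr k)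
    (ht' : t' ∈ sqr k) : (mc h c).φ t ≠ (mc h c').φ t' := by
  rw [mc_phi, mc_phi]
  intro he
  have h1 := Sum.inr.inj he
  apply hne
  refine far_eq h (t := E.V c + rfl2 t) (k := k) ?_ ?_ hk
  · rw [add_sub_cancel_left]
    exact rfl2_sqr.2 ht
  · rw [h1, add_sub_cancel_left]
    exact rfl2_sqr.2 ht'

/-- the window of a corner and the windows of the marks and of the positions are disjoint -/
theorem sep_cG {c : Fin E.S} (hc : c ∉ E.M) {a' : Fin p → Half (ℤ × ℤ)} {t q : ℤ × ℤ}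
    (ht : t ∈ (mc h c).W) (ht' : t ∈ sqr (6 * m + 9)) (hH : (mc h c).φ t ∉ Ho E R a')
    (hq : LocG E R m a' q) : (mc h c).φ t ≠ Sum.inr q := by
  intro he
  have hR := h.hmR
  have h1 : E.V c + rfl2 t = q := Sum.inr.inj he
  have hqR : q ∈ D.R := by
    rw [← h1]
    exact ((mc_mem h c).1 ht).2
  have h2 : q - E.V c ∈ sqr (6 * m + 9) := by
    rw [← h1, add_sub_cancel_left]
    exact rfl2_sqr.2 ht'
  have h3 : q - E.V c ∈ sqr R := sqr_mono (by omega) h2
  rw [he, mem_Ho] at hH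
  rcases hq with ⟨c', hc', h4⟩ | ⟨i, c', h4, h5, h6⟩ | ⟨i, h4, h5⟩
  · have h5 := far_eq h h3 (sqr_mono (by omega) h4) le_rfl
    exact hc (by rw [h5]; exact hc')
  · have h7 := hole_near h h4 h6
    have h8 := far_eq h h3 h7 le_rfl
    subst h8
    exact hH ⟨hqR, i, c, ⟨h4, h5, hc⟩, h6⟩
  · apply h4 c
    unfold Nr dl
    have h6 : (a' i).1 - E.V c ∈ sqr (7 * m + 11) := by
      rw [mem_sqr] at h2 h5 ⊢
      simp only [Prod.fst_sub, Prod.snd_sub] at h2 h5 ⊢
      push_cast at h2 h5 ⊢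
      omega
    rw [mem_sqr_rad] at h6
    omega

/-- the windows of a mark and of a position -/
theorem loc_cases {a' : Fin p → Half (ℤ × ℤ)} (ha' : a' ∈ Fintype.piFinset E.Y) {q : ℤ × ℤ} {i : Fin p}
    {c : Fin E.S} (h1 : Nr E R c (a' i)) (h2 : q - (a' i).1 ∈ sqr (E.dl c (a' i) / 8 + 1)) {j : Fin p}
    (hj : ∀ c, ¬ Nr E R c (a' j)) : q - (a' j).1 ∉ sqr (m + 1) := by
  intro h3
  have hR := h.hmR
  by_cases hij : i = j
  · subst hij
    exact hj c h1
  · apply h.ysep i j hij _ (Fintype.mem_piFinset.1 ha' i) _ (Fintype.mem_piFinset.1 ha' j)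
    unfold Nr at h1
    rw [mem_sqr] at h2 h3 ⊢
    simp only [Prod.fst_sub, Prod.snd_sub] at h2 h3 ⊢
    push_cast at h2 h3 ⊢
    omega

end Cap.Env

end Full.Norm
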