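import Pool.Agent.Full.Norm.CapMAt
import Pool.Agent.Full.Norm.WinSep

/-!
# Strands over marks and over positions

`rad_real`: the distance of a real end to the vertex.  `real_between`: every position between two real ends is
attained.  `mark_str'`, `pos_str'`: the strands of the window over a mark (a position) have the weight zero, if
no position (mark) is visible in the window.
-/

set_option autoImplicit false
set_option linter.unusedSectionVars false

namespace Full.Norm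
open Finset Function Full.Corner Full.Mom Full.Walk Full.X3

/-- the walls are on the lines of the vertex -/
lemma real_line {v1 v2 i j : ℤ} {Q : Bool → Bool → Bool} {d : Dir} (h1 : QSet (v1, v2) Q (i, j))
    (h2 : ¬ QSet (v1, v2) Q ((i, j) + d.vec)) :
    match d with
    | .E => i + 1 = v1
    | .W => i = v1
    | .N => j + 1 = v2
    | .S => j = v2 := by
  rw [QSet_iff] at h1 h2
  generalize Q true true = a1 at *
  generalize Q true false = a2 at *
  generalize Q false true = a3 at *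
  generalize Q false false = a4 at *
  cases d <;> simp only [Dir.vec, Prod.mk_add_mk] at h1 h2 ⊢ <;>
    cases a1 <;> cases a2 <;> cases a3 <;> cases a4 <;>
    simp only [Bool.false_eq_true, and_false, and_true, or_false, false_or, not_false_eq_true] at h1 h2 <;>
    omega

/-- the distance of a real end to the vertex -/
theorem rad_real {v : ℤ × ℤ} {Q : Bool → Bool → Bool} {w : ℕ} {x : Half (ℤ × ℤ)}
    (hx : Real v Q w x) : (rad (x.1 - v) : ℤ) = if 0 ≤ ps v x then ps v x + 1 else - ps v x := by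
  obtain ⟨⟨i, j⟩, d⟩ := x
  obtain ⟨v1, v2⟩ := v
  have h1 := (mem_QW.1 hx.1).2
  have h2 := hx.2.2
  have h3 := real_line h1 h2
  unfold rad
  cases d <;> simp only [ps, Prod.mk_sub_mk] at h3 ⊢ <;> split_ifs <;> omega

/-- the tail of a real end -/
theorem tl_real {v : ℤ × ℤ} {Q : Bool → Bool → Bool} {w : ℕ} {x : Half (ℤ × ℤ)}
    (hx : Real v Q w x) (h : ps v x = 0) : tl x = v := by
  obtain ⟨⟨i, j⟩, d⟩ := x
  obtain ⟨v1, v2⟩ := v
  have h1 := (mem_QW.1 hx.1).2
  have h2 := hx.2.2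
  have h3 := real_line h1 h2
  cases d <;> simp only [ps, tl, Prod.mk.injEq] at h3 h ⊢ <;> omega

lemma real_nq {v : ℤ × ℤ} {Q : Bool → Bool → Bool} {w : ℕ} {x : Half (ℤ × ℤ)} (hx : Real v Q w x) :
    nq Q = 1 ∨ nq Q = 2 ∨ nq Q = 3 := by
  have h1 := (mem_QW.1 hx.1).2
  have h2 := hx.2.2
  rw [QSet_iff] at h1 h2
  unfold nq
  generalize Q true true = a1 at *
  generalize Q true false = a2 at *
  generalize Q false true = a3 at *
  generalize Q false false = a4 at *
  cases a1 <;> cases a2 <;> cases a3 <;> cases a4 <;> (simp at h1 h2 ⊢; try omega)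

namespace QChart
variable {τ : Type*} {T : Finset τ} {g : Half τ → Half τ} {w : ℕ} (c : QChart T g w)

/-- every position between two real ends is attained -/
theorem real_between {x y : Half (ℤ × ℤ)} (hx : c.Real x) (hy : c.Real y) {k : ℤ} (h1 : c.ps x ≤ k)
    (h2 : k ≤ c.ps y) : ∃ z, c.Real z ∧ c.ps z = k := by
  obtain ⟨A, s, hs, -⟩ := c.exists_arc
  obtain ⟨i, hi, rfl⟩ := A.surj x hx
  obtain ⟨j, hj, rfl⟩ := A.surj y hy
  rw [hs i hi] at h1
  rw [hs j hj] at h2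
  refine ⟨A.a (k - s).toNat, A.real _ (by omega), ?_⟩
  rw [hs _ (by omega)]
  omega

end QChart

section str
variable {τ : Type*} [DecidableEq τ] {T : Finset τ} {g : Half τ → Half τ} {w : ℕ}
  {c : QChart T g w} {φ : Half τ → ℝ} {μ : Half τ → ℤ} {Y : Finset (Half τ)} {p0 py : ℤ}

/-- **the strands over a mark have the weight zero** -/
theorem mark_str' (hG : Glu T g) (hd : c.Dat φ (-1) μ Y p0 py) {x : Half (ℤ × ℤ)} (hx : c.Real x)
    (hp : c.ps x = p0) {m : ℕ} (h : nq c.Q = 2 ∨ (m : ℤ) < p0 ∨ p0 < -(m : ℤ))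
    (hA : hwin x.2 (tl x) m ⊆ c.W)
    (hy : ∀ z, c.Real z → p0 - m ≤ c.ps z → c.ps z < p0 + m → c.im z ∉ Y) (ω : Finset τ) (e : Half τ)
    (he : (c.fct (hwin x.2 (tl x) m) hA p0 p0 le_rfl 0 le_rfl).Str ω e) :
    fw φ g ω e ≤ (c.fct (hwin x.2 (tl x) m) hA p0 p0 le_rfl 0 le_rfl).z * Real.sqrt 3 := by
  obtain ⟨y, y', h1, h2, h3, h4, h5, h6, h7⟩ := str_fw hd hG he
  have hx' : Real c.v c.Q w x := hx
  have hp' : Norm.ps c.v x = p0 := hp
  have k1 := hwin_pos c.adm hx' (by rw [hp']; exact h) h1 h3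
  have k2 := hwin_pos c.adm hx' (by rw [hp']; exact h) h2 h4
  rw [hp'] at k1 k2
  have k1' : p0 - m ≤ c.ps y := k1.2.1
  have k2' : c.ps y' < p0 + m := k2.2.2
  have hpy : ¬ (c.ps y ≤ py ∧ py ≤ c.ps y') := by
    rintro ⟨l1, l2⟩
    obtain ⟨z, hz, hz'⟩ := c.real_between h3 h4 l1 l2
    exact hy z hz (by omega) (by omega) ((hd.hY z hz).2 hz')
  rw [h7]
  show amp _ ≤ 0 * Real.sqrt 3
  rw [zero_mul]
  apply le_of_eq
  apply amp_eq_zero
  unfold hMir Sx Mx Px
  rw [if_pos (c := c.ps y < p0 ∧ p0 ≤ c.ps y') ⟨h5, h6⟩,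
    if_neg (c := c.ps y ≤ py ∧ py < c.ps y') (by omega),
    if_neg (c := c.ps y < py ∧ py ≤ c.ps y') (by omega)]
  split_ifs with h8
  · have : nq c.Q = 2 := by omega
    rw [this]; rfl
  · rfl

/-- **the strands over a position have the weight zero** -/
theorem pos_str' (hG : Glu T g) (hd : c.Dat φ (-1) μ Y p0 py) {x : Half (ℤ × ℤ)} (hx : c.Real x)
    (hY : c.im x ∈ Y) {m : ℕ} (h : nq c.Q = 2 ∨ (m : ℤ) < c.ps x ∨ c.ps x < -1 - (m : ℤ))
    (hA : hwinS x.2 x.1 m ⊆ c.W)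
    (hy : ∀ z, c.Real z → c.ps z = p0 → c.ps x - m < p0 → p0 ≤ c.ps x + m → False)
    (ω : Finset τ) (e : Half τ)
    (he : (c.fct (hwinS x.2 x.1 m) hA (c.ps x) (c.ps x + 1) (by omega) 0 le_rfl).Str ω e) :
    fw φ g ω e ≤
      (c.fct (hwinS x.2 x.1 m) hA (c.ps x) (c.ps x + 1) (by omega) 0 le_rfl).z * Real.sqrt 3 := by
  obtain ⟨y, y', h1, h2, h3, h4, h5, h6, h7⟩ := str_fw hd hG he
  have hx' : Real c.v c.Q w x := hx
  have k1 := hwinS_pos c.adm hx' h h1 h3
  have k2 := hwinS_pos c.adm hx' h h2 h4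
  have k1' : c.ps x - m ≤ c.ps y := k1.2.1
  have k2' : c.ps y' ≤ c.ps x + m := k2.2.2
  have hpy : c.ps x = py := (hd.hY x hx).1 hY
  rw [hpy] at h h5 h6 k1' k2' hy
  have hp0 : ¬ (c.ps y < p0 ∧ p0 ≤ c.ps y') := by
    rintro ⟨l1, l2⟩
    obtain ⟨z, hz, hz'⟩ := c.real_between h3 h4 l1.le l2
    exact hy z hz hz' (by omega) (by omega)
  rw [h7]
  show amp _ ≤ 0 * Real.sqrt 3
  rw [zero_mul]
  apply le_of_eq
  apply amp_eq_zero
  unfold hMir Sx Mx Px
  rw [if_neg (c := c.ps y < p0 ∧ p0 ≤ c.ps y') hp0,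
    if_pos (c := c.ps y ≤ py ∧ py < c.ps y') (by omega),
    if_pos (c := c.ps y < py ∧ py ≤ c.ps y') (by omega)]
  split_ifs with h8
  · have : nq c.Q = 2 := by omega
    rw [this]; rfl
  · rfl

end str

/-- the tiles of the window of a position -/
lemma hwinS_box {d : Dir} {s t : ℤ × ℤ} {r : ℕ} (h : t ∈ hwinS d s r) :
    |t.1 - s.1| ≤ r ∧ |t.2 - s.2| ≤ r := by
  rw [mem_hwinS] at h
  rw [abs_le, abs_le]
  cases d <;> simp only at h <;> omega

/-- the places of the tiles of the window of a position -/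
lemma rfl2_box {s t : ℤ × ℤ} {r : ℕ} (h : |t.1 - s.1| ≤ r ∧ |t.2 - s.2| ≤ r) :
    rfl2 t - rfl2 s ∈ sqr (r + 1) := by
  unfold rfl2
  rw [abs_le, abs_le] at h
  rw [mem_sqr]
  simp only [Prod.mk_sub_mk]
  push_cast
  omega

end Full.Norm
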