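import Pool.Agent.Full.Norm.WinGeo
import Pool.Agent.Full.Norm.CapDat

/-!
# The holes around the positions near a corner

`Use E R c y`: the position `y` is near the corner `c`, at distance at least `32`.  `Ho E R a'`: the tiles
of the mirror copy near the positions `a' i` which are used.  `Pc`: the charts around these positions.
-/

set_option autoImplicit false
set_option linter.unusedSectionVars false

namespace Full.Norm
open Finset Function Full.X3 Full.Corner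

lemma nq_flip (Q : Bool → Bool → Bool) : nq (fun a b => Q a (!b)) = nq Q := by
  unfold nq
  simp only [Bool.not_true, Bool.not_false]
  ring

lemma rad_le_add {s t : ℤ × ℤ} {r k : ℕ} (hs : s ∈ sqr r) (ht : t ∈ sqr k) : s + t ∈ sqr (r + k) := by
  rw [mem_sqr] at hs ht ⊢
  simp only [Prod.fst_add, Prod.snd_add]
  push_cast
  omega

/-- the difference of two reflected places -/
lemma rfl2_sub_mem {s t : ℤ × ℤ} {r : ℕ} (h : s - t ∈ sqr r) : rfl2 s - rfl2 t ∈ sqr (r + 1) := by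
  unfold rfl2
  rw [mem_sqr] at h ⊢
  simp only [Prod.fst_sub, Prod.snd_sub] at h ⊢
  push_cast
  omega

namespace Cap.Env
variable {D : Cap} {p : ℕ} {E : D.Env p} {K n w A m R : ℕ}

/-- the position `y` is used at the corner `c` -/
def Use (E : D.Env p) (R : ℕ) (c : Fin E.S) (y : Half (ℤ × ℤ)) : Prop :=
  Nr E R c y ∧ 32 ≤ E.dl c y ∧ c ∉ E.M

/-- the radius of the hole -/
def hrad (E : D.Env p) (c : Fin E.S) (y : Half (ℤ × ℤ)) : ℕ := E.dl c y / 8 + 1

open Classical in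
/-- the tiles of the holes -/
noncomputable def Ho (E : D.Env p) (R : ℕ) (a' : Fin p → Half (ℤ × ℤ)) :
    Finset ((ℤ × ℤ) ⊕ (ℤ × ℤ)) :=
  D.T2.filter fun s => ∃ q i c, s = Sum.inr q ∧ Use E R c (a' i) ∧
    q - (a' i).1 ∈ sqr (hrad E c (a' i))

lemma mem_Ho {a' : Fin p → Half (ℤ × ℤ)} {q : ℤ × ℤ} : Sum.inr q ∈ Ho E R a' ↔
    q ∈ D.R ∧ ∃ i c, Use E R c (a' i) ∧ q - (a' i).1 ∈ sqr (hrad E c (a' i)) := by
  classical
  unfold Ho
  rw [mem_filter]
  constructor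
  · rintro ⟨h1, q', i, c, h2, h3, h4⟩
    rw [← Sum.inr.inj h2] at h4
    exact ⟨Finset.inr_mem_disjSum.1 h1, i, c, h3, h4⟩
  · rintro ⟨h1, i, c, h3, h4⟩
    exact ⟨Finset.inr_mem_disjSum.2 h1, q, i, c, rfl, h3, h4⟩

lemma Ho_inr {a' : Fin p → Half (ℤ × ℤ)} {s : (ℤ × ℤ) ⊕ (ℤ × ℤ)} (h : s ∈ Ho E R a') :
    ∃ q, s = Sum.inr q := by
  classical
  unfold Ho at h
  rw [mem_filter] at h
  obtain ⟨-, q, -, -, h1, -⟩ := h
  exact ⟨q, h1⟩

lemma dl_mem (c : Fin E.S) (y : Half (ℤ × ℤ)) : y.1 - E.V c ∈ sqr (E.dl c y) := by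
  rw [mem_sqr_rad]
  exact le_rfl

section mc
variable (h : E.Ok K n w A m R) (c : Fin E.S)

lemma mc_v : (mc h c).v = 0 := by
  show ((E.V c - E.V c).1, -(E.V c - E.V c).2) = (0, 0)
  rw [sub_self]
  rfl

lemma mc_Q : (mc h c).Q = fun a b => E.Q c a (!b) := rfl

lemma mc_nq : nq (mc h c).Q = nq (E.Q c) := nq_flip _

lemma mc_phi (t : ℤ × ℤ) : (mc h c).φ t = Sum.inr (E.V c + rfl2 t) := rfl

lemma mc_ps (x : Half (ℤ × ℤ)) : (mc h c).ps x = Norm.ps 0 x := by
  unfold QChart.ps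
  rw [mc_v]

variable {h c} in
lemma mc_real {x : Half (ℤ × ℤ)} (hx : (mc h c).Real x) : Norm.Real 0 (mc h c).Q R x := by
  have h1 : Norm.Real (mc h c).v (mc h c).Q R x := hx
  rwa [mc_v] at h1

/-- a tile of the window -/
lemma mc_mem {t : ℤ × ℤ} : t ∈ (mc h c).W ↔ t ∈ sqr R ∧ E.V c + rfl2 t ∈ D.R := by
  have e : t ∈ (mc h c).W ↔ t ∈ QW ((E.V c - E.V c).1, -(E.V c - E.V c).2)
    (fun a b => E.Q c a (!b)) R := Iff.rfl
  rw [e, mem_QW, QSet_rfl, QSet_sub]
  constructor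
  · rintro ⟨h1, h2⟩
    exact ⟨h1, ((h.qbox c).2 _ (rfl2_sqr.2 h1)).2 h2⟩
  · rintro ⟨h1, h2⟩
    exact ⟨h1, ((h.qbox c).2 _ (rfl2_sqr.2 h1)).1 h2⟩

/-- a position near a special point is a real end of the mirror chart -/
lemma plc_real {y : Half (ℤ × ℤ)} (hy : Bd D.R D.g y) (hC : y ∉ D.C) (hd : E.dl c y < R) :
    (mc h c).Real (plc E c y) ∧ (mc h c).im (plc E c y) = dr y := by
  obtain ⟨h1, h2, -⟩ := oc_real h c hy hC (dl_mem c y) hd
  constructor
  · show (Cap.swap (oc h c)).Real (rfh (y.1 - E.V c, y.2))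
    rw [swap_real, rfh_rfh]
    exact h1
  · show (Cap.swap (oc h c)).im (rfh (y.1 - E.V c, y.2)) = dr y
    rw [swap_im, rfh_rfh, h2, swh_dl]

lemma rad_plc (y : Half (ℤ × ℤ)) : rad (plc E c y).1 = E.dl c y := rad_rfl2 _

end mc

section geo
variable (h : E.Ok K n w A m R)
include h

/-- a position is used at most at one corner -/
lemma use_uniq {y : Half (ℤ × ℤ)} {c c' : Fin E.S} (h1 : Nr E R c y) (h2 : Nr E R c' y) : c = c' := by
  unfold Nr at h1 h2
  exact far_eq h (k := R) (sqr_mono (by omega) (dl_mem c y)) (sqr_mono (by omega) (dl_mem c' y)) le_rfl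

/-- at most one position is near a special point -/
lemma use_uniq' {a' : Fin p → Half (ℤ × ℤ)} (ha : a' ∈ Fintype.piFinset E.Y) {i j : Fin p}
    {c : Fin E.S} (h1 : Nr E R c (a' i)) (h2 : Nr E R c (a' j)) : i = j := by
  by_contra hne
  apply h.ysep i j hne _ (Fintype.mem_piFinset.1 ha i) _ (Fintype.mem_piFinset.1 ha j)
  have e1 := sqr_mono (show E.dl c (a' i) ≤ R by unfold Nr at h1; omega) (dl_mem c (a' i))
  have e2 := sqr_mono (show E.dl c (a' j) ≤ R by unfold Nr at h2; omega) (dl_mem c (a' j))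
  have := R_big h
  rw [mem_sqr] at e1 e2 ⊢
  simp only [Prod.fst_sub, Prod.snd_sub] at e1 e2 ⊢
  push_cast
  omega

/-- a tile of a hole is near the corner -/
lemma hole_near {y : Half (ℤ × ℤ)} {c : Fin E.S} (h1 : Nr E R c y) {q : ℤ × ℤ}
    (h2 : q - y.1 ∈ sqr (hrad E c y)) : q - E.V c ∈ sqr R := by
  have h3 := rad_le_add h2 (dl_mem c y)
  rw [sub_add_sub_cancel] at h3
  refine sqr_mono ?_ h3
  unfold Nr at h1
  unfold hrad
  have := R_big h
  omega

/-- the charts around the positions: the box -/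
lemma shift_box {y : Half (ℤ × ℤ)} {c : Fin E.S} (h1 : Nr E R c y) :
    ∀ t ∈ sqr (2 * (hrad E c y + 1) + 1), (plc E c y).1 + t ∈ sqr (R - 1) := by
  intro t ht
  have h2 : (plc E c y).1 ∈ sqr (E.dl c y) := by
    rw [mem_sqr_rad, rad_plc]
  refine sqr_mono ?_ (rad_le_add h2 ht)
  unfold Nr at h1
  unfold hrad
  have := R_big h
  omega

end geo

/-- the chart around a position -/
noncomputable def Pc (h : E.Ok K n w A m R) {y : Half (ℤ × ℤ)} {c : Fin E.S} (h1 : Nr E R c y) :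
    QChart D.T2 D.g2 (2 * (hrad E c y + 1) + 1) :=
  (mc h c).shift (plc E c y).1 _ fun t ht => sqr_mono (Nat.sub_le R 1) (shift_box h h1 t ht)

section P
variable (h : E.Ok K n w A m R)

/-- the tiles of a hole are in the inner box of its chart -/
lemma Pc_inn {y : Half (ℤ × ℤ)} {c : Fin E.S} (h1 : Nr E R c y) {q : ℤ × ℤ} (hq : q ∈ D.R)
    (h2 : q - y.1 ∈ sqr (hrad E c y)) (d : Dir) :
    (Pc h h1).Inn (hrad E c y + 1) (Sum.inr q, d) := by
  have e1 : (plc E c y).1 = rfl2 (y.1 - E.V c) := rfl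
  have h3 : rfl2 (q - E.V c) - (plc E c y).1 ∈ sqr (hrad E c y + 1) := by
    rw [e1]
    apply rfl2_sub_mem
    rw [sub_sub_sub_cancel_right]
    exact h2
  have h4 : (plc E c y).1 + (rfl2 (q - E.V c) - (plc E c y).1) = rfl2 (q - E.V c) :=
    add_sub_cancel _ _
  have h5 : E.V c + rfl2 (rfl2 (q - E.V c)) = q := by
    rw [rfl2_rfl2]
    exact add_sub_cancel _ _
  refine ⟨rfl2 (q - E.V c) - (plc E c y).1, ?_, h3, ?_⟩
  · show _ ∈ QW ((mc h c).v - (plc E c y).1) (mc h c).Q _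
    rw [mem_QW, QSet_sub, h4]
    refine ⟨sqr_mono (by omega) h3, ?_⟩
    have h6 : rfl2 (q - E.V c) ∈ (mc h c).W := by
      rw [mc_mem, h5]
      exact ⟨rfl2_sqr.2 (hole_near h h1 h2), hq⟩
    exact ((mc h c).mem_W.1 h6).2
  · show Sum.inr q = (mc h c).φ ((plc E c y).1 + (rfl2 (q - E.V c) - (plc E c y).1))
    rw [h4, mc_phi, h5]

/-- **a strand which is held by the chart around a position has a weight at most `√3`** -/
theorem Pc_le {a a' : Fin p → Half (ℤ × ℤ)} (ha' : a' ∈ Fintype.piFinset E.Y)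
    {φ φ' : Half (ℤ × ℤ) → ℝ} {ψ : ℝ} (hφ' : D.PhLaw φ' (E.chg a') ψ) {i : Fin p} {c : Fin E.S}
    (hu : Use E R c (a' i)) {ω : Finset ((ℤ × ℤ) ⊕ (ℤ × ℤ))} {e : Half ((ℤ × ℤ) ⊕ (ℤ × ℤ))}
    (he : Bd D.T2 D.g2 e) (hh : (Pc h hu.1).Held ω e) : fw (dph φ φ') D.g2 ω e ≤ Real.sqrt 3 := by
  have hR := R_big h
  obtain ⟨p0, h0, -⟩ := exists_p0' h (oc_good h c 0) (by omega) le_rfl
  obtain ⟨py, hd⟩ := dat_mir h (oc_good h c 0) (by omega) le_rfl h0 (a := a) (φ := φ) ha' hφ'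
  have hy := Fintype.mem_piFinset.1 ha' i
  obtain ⟨hb, hC⟩ := h.bd i _ hy
  have hn := hu.1
  unfold Nr at hn
  have hreal := (plc_real h c hb hC (by omega)).1
  have hq : nq (mc h c).Q = 1 ∨ nq (mc h c).Q = 3 := by
    have := h.kind c
    rw [if_neg hu.2.2] at this
    rw [mc_nq]
    exact this
  refine QChart.Dat.shift_le glu_g2 hd (w'' := R - 1) (by omega) (shift_box h hu.1) ?_ he hh
  intro x x' hx hx' k1 k2 k3 k4
  have k3' : (mc h c).ps x < 0 := k3
  have k4' : 0 ≤ (mc h c).ps x' := k4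
  rw [mc_ps h c] at k3' k4'
  refine no_corner hq (mc_real (h := h) hx) (mc_real (h := h) hx') (mc_real hreal) ?_ k1 k2 k3' k4'
  rw [rad_plc]
  have := hu.2.1
  unfold hrad
  omega

/-- **the hole in the window of a corner** -/
theorem hole_cond {a' : Fin p → Half (ℤ × ℤ)} (ha' : a' ∈ Fintype.piFinset E.Y) {c : Fin E.S}
    {k : ℕ} (hk : k ≤ R) :
    (∀ t ∈ (mc h c).W, t ∈ sqr k → (mc h c).φ t ∉ Ho E R a') ∨
    ∃ (y : Half (ℤ × ℤ)) (r : ℕ), (mc h c).Real y ∧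
      (r ≤ 1 ∨ 4 * (r : ℤ) ≤ |y.1.1| ∨ 4 * (r : ℤ) ≤ |y.1.2|) ∧
      ∀ t ∈ (mc h c).W, t ∈ sqr k → (mc h c).φ t ∈ Ho E R a' → t - y.1 ∈ sqr r := by
  have key : ∀ t ∈ sqr k, (mc h c).φ t ∈ Ho E R a' → ∃ i, Use E R c (a' i) ∧
      E.V c + rfl2 t - (a' i).1 ∈ sqr (hrad E c (a' i)) := by
    intro t ht h1
    rw [mc_phi, mem_Ho] at h1
    obtain ⟨-, i, c', h2, h3⟩ := h1
    have h4 := hole_near h h2.1 h3
    have h5 : E.V c + rfl2 t - E.V c ∈ sqr R := by
      rw [add_sub_cancel_left]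
      exact sqr_mono hk (rfl2_sqr.2 ht)
    have h6 := far_eq h h5 h4 le_rfl
    subst h6
    exact ⟨i, h2, h3⟩
  by_cases hex : ∃ i, Use E R c (a' i)
  · right
    obtain ⟨i, hi⟩ := hex
    have hy := Fintype.mem_piFinset.1 ha' i
    obtain ⟨hb, hC⟩ := h.bd i _ hy
    have hn := hi.1
    have hR := R_big h
    unfold Nr at hn
    refine ⟨plc E c (a' i), hrad E c (a' i) + 1, (plc_real h c hb hC (by omega)).1, ?_, ?_⟩
    · right
      have h1 := rad_plc c (a' i)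
      have h2 := hi.2.1
      generalize (plc E c (a' i)).1 = t at *
      unfold hrad
      unfold rad at h1
      push_cast
      by_contra h3
      push Not at h3
      obtain ⟨h3, h4⟩ := h3
      rw [abs_lt] at h3 h4
      omega
    · intro t _ ht h1
      obtain ⟨j, h2, h3⟩ := key t ht h1
      have h4 := use_uniq' h ha' h2.1 hi.1
      subst h4
      have h5 : rfl2 (E.V c + rfl2 t - E.V c) = t := by
        rw [add_sub_cancel_left, rfl2_rfl2]
      have h6 : rfl2 (E.V c + rfl2 t - E.V c) - rfl2 ((a' j).1 - E.V c) ∈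
          sqr (hrad E c (a' j) + 1) := by
        apply rfl2_sub_mem
        rw [sub_sub_sub_cancel_right]
        exact h3
      rw [h5] at h6
      exact h6
  · left
    intro t _ ht h1
    obtain ⟨i, h2, -⟩ := key t ht h1
    exact hex ⟨i, h2⟩

end P

end Cap.Env

end Full.Norm
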