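import Pool.Agent.Full.Asm.S1Stat

/-!
# N8 from the two norm bounds

`UpBd`: the norm of the vector above, after `p` rows; `LowBd`: the norm of the vector below, after `q` rows.
`normOk_of_bd : UpBd → LowBd → NormOk`: the exponents of the two parts add up to `1 / 3` for the squares.
-/

set_option autoImplicit false

namespace Full.Norm

open Filter Matrix SixV

/-- the exponent of the square of the norm above: one pair of the trio, one mark of the trio, and the charges of `E`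
which are in the upper part -/
noncomputable def upE (W : Lab) (E : Fin 3 → Half ZT) : ℝ :=
  (2 * (1 + if W.P < W.pos (E 1) then 1 else 0) -
    (1 + (if W.P < W.pos (E 0) then 1 else 0) + if W.P < W.pos (E 1) then 1 else 0)) / 3

/-- the exponent of the square of the norm below -/
noncomputable def lowE (W : Lab) (E : Fin 3 → Half ZT) : ℝ :=
  (2 * (if W.P < W.pos (E 1) then 0 else 1) -
    ((if W.P < W.pos (E 0) then 0 else 1) + if W.P < W.pos (E 1) then 0 else 1)) / 3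

lemma upE_add_lowE (W : Lab) (E : Fin 3 → Half ZT) : upE W E + lowE W E = 1 / 3 := by
  unfold upE lowE
  split_ifs <;> norm_num

/-- **the norm above** -/
def UpBd : Prop := ∀ (S : Shape), S.Ok → ∀ m : S.Marks, m.Ok → ∀ A : ℝ, 1 ≤ A → S.Chan m A → ∀ r : S.R,
  ∀ κ : ℝ, 0 < κ → ∀ ε : ℝ, 0 < ε → ∃ C : ℝ, 0 ≤ C ∧ ∀ᶠ n : ℕ in atTop, ∀ (a : Shape.Sh S n) (D : Slab),
    Shape.IsSlab n a.s (.inl r) D → ∀ (W : Lab) (a' nL nU k : ℤ) (s : Fin 3) (x y : ℤ),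
    D.Rdy W a' nL nU k (fun i => m.ez n a.σ (.inl r) (i + s).castSucc) x y → (n : ℤ) ≤ 16 * k →
    ∀ p : ℕ, κ * n ≤ p → (p : ℤ) ≤ D.t - D.b - 2 →
      ∑ c, ‖(D.OE W a' k (fun i => m.ez n a.σ (.inl r) (i + s).castSucc) ᵥ* TupD (D.n + 1)
          (Slab.dE W a' k fun i => m.ez n a.σ (.inl r) (i + s).castSucc) ((Real.pi / 6 : ℝ) : ℂ) ^ p) c‖ ^ 2 ≤
        C * (n : ℝ) ^ (upE W (fun i => m.ez n a.σ (.inl r) (i + s).castSucc) + ε) * Real.sqrt 3 ^ nU.toNat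

/-- **the norm below** -/
def LowBd : Prop := ∀ (S : Shape), S.Ok → ∀ m : S.Marks, m.Ok → ∀ A : ℝ, 1 ≤ A → S.Chan m A → ∀ r : S.R,
  ∀ κ : ℝ, 0 < κ → ∀ ε : ℝ, 0 < ε → ∃ C : ℝ, 0 ≤ C ∧ ∀ᶠ n : ℕ in atTop, ∀ (a : Shape.Sh S n) (D : Slab),
    Shape.IsSlab n a.s (.inl r) D → ∀ (W : Lab) (a' nL nU k : ℤ) (s : Fin 3) (x y : ℤ),
    D.Rdy W a' nL nU k (fun i => m.ez n a.σ (.inl r) (i + s).castSucc) x y → (n : ℤ) ≤ 16 * k →
    ∀ q : ℕ, κ * n ≤ q → (q : ℤ) ≤ D.t - D.b - 2 →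
      ∑ c, ‖(TlowD (D.n + 1) (Slab.dE W a' k fun i => m.ez n a.σ (.inl r) (i + s).castSucc)
          ((Real.pi / 6 : ℝ) : ℂ) ^ q *ᵥ D.IE W a' k (fun i => m.ez n a.σ (.inl r) (i + s).castSucc)) c‖ ^ 2 ≤
        C * (n : ℝ) ^ (lowE W (fun i => m.ez n a.σ (.inl r) (i + s).castSucc) + ε) * Real.sqrt 3 ^ nL.toNat

lemma norm_toLp {ι : Type*} [Fintype ι] (v : ι → ℂ) : ‖WithLp.toLp 2 v‖ = Real.sqrt (∑ c, ‖v c‖ ^ 2) :=
  EuclideanSpace.norm_eq _

/-- **N8** from the two norm bounds -/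
theorem normOk_of_bd (hU : UpBd) (hL : LowBd) : NormOk := by
  intro S hS m hm A hA hCh r κ hκ ε hε
  obtain ⟨C1, hC1, h1⟩ := hU S hS m hm A hA hCh r κ hκ ε hε
  obtain ⟨C2, hC2, h2⟩ := hL S hS m hm A hA hCh r κ hκ ε hε
  refine ⟨Real.sqrt (C1 * C2) * Real.sqrt 3, by positivity, ?_⟩
  filter_upwards [h1, h2, eventually_gt_atTop 0] with n h1 h2 hn a D hD W a' nL nU k s x y hR hk p q hp hq hp' hq'
  have k1 := h1 a D hD W a' nL nU k s x y hR hk p hp hp'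
  have k2 := h2 a D hD W a' nL nU k s x y hR hk q hq hq'
  have hW := hR.ok
  have hM := hR.marks
  have hak := hR.hak
  have hk1 := hR.hk
  set E : Fin 3 → Half ZT := fun i => m.ez n a.σ (.inl r) (i + s).castSucc with hE
  rw [norm_toLp, norm_toLp, ← Real.sqrt_mul (Finset.sum_nonneg fun _ _ => by positivity)]
  have hn' : (0 : ℝ) < n := by exact_mod_cast hn
  have h3 : (1 : ℝ) ≤ Real.sqrt 3 := Real.one_le_sqrt.2 (by norm_num)
  have hn0 : (0 : ℝ) < Real.sqrt 3 := by positivity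
  have hsum := upE_add_lowE W E
  -- the number of walls
  have hNa : nU.toNat + nL.toNat ≤ 2 * (Slab.na nL nU + 1) := by
    have hf := hM.far 0
    unfold Slab.na
    have ha := hW.floorL 0 le_rfl (by omega)
    have hc := hW.ceilR 0 le_rfl (by omega)
    have g1 := hW.low _ _ ha.1
    have g2 := hW.up _ _ hc.1
    omega
  refine Real.sqrt_le_iff.2 ⟨by positivity, ?_⟩
  calc _ ≤ (C1 * (n : ℝ) ^ (upE W E + ε) * Real.sqrt 3 ^ nU.toNat) *
        (C2 * (n : ℝ) ^ (lowE W E + ε) * Real.sqrt 3 ^ nL.toNat) :=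
        mul_le_mul k1 k2 (Finset.sum_nonneg fun _ _ => by positivity) (by positivity)
    _ = C1 * C2 * (((n : ℝ) ^ (upE W E + ε)) * (n : ℝ) ^ (lowE W E + ε)) * Real.sqrt 3 ^ (nU.toNat + nL.toNat) := by
        rw [pow_add]; ring
    _ = C1 * C2 * (n : ℝ) ^ (1 / 3 + 2 * ε) * Real.sqrt 3 ^ (nU.toNat + nL.toNat) := by
        rw [← Real.rpow_add hn']
        congr 3
        linarith
    _ ≤ C1 * C2 * (n : ℝ) ^ (1 / 3 + 2 * ε) * Real.sqrt 3 ^ (2 * (Slab.na nL nU + 1)) :=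
        mul_le_mul_of_nonneg_left (pow_le_pow_right₀ h3 hNa) (by positivity)
    _ = _ := by
        have e1 : (n : ℝ) ^ (1 / 3 + 2 * ε) = ((n : ℝ) ^ (1 / 6 + ε)) ^ 2 := by
          rw [← Real.rpow_natCast, ← Real.rpow_mul hn'.le]
          congr 1
          push_cast
          ring
        have e2 : Real.sqrt (C1 * C2) ^ 2 = C1 * C2 := Real.sq_sqrt (by positivity)
        rw [e1]
        linear_combination (-(((n : ℝ) ^ (1 / 6 + ε)) ^ 2 * Real.sqrt 3 ^ (2 * (Slab.na nL nU + 1)))) * e2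

end Full.Norm
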