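import Pool.Agent.Full.Norm.ChLaw

/-!
# The local law of the phases in an exact chart

`SLaw c ε φ q`: in a suitable gauge `θ` (a function of the tile) the phases of glued half edges of the chart agree, and for consecutive
real wall ends `x`, `x' = next x` the phase changes by `-ε (2 K bt x - 8 K q x)`, where `bt x` is the
direction change of the wall in quarter turns and `q x` is the charge between `x` and `x'`.
-/

set_option autoImplicit false

namespace Full.Norm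
open Finset Function

variable {τ : Type*}

/-- equal numbers of rotation steps -/
lemma ks_map {σ : Type*} {g : Half τ → Half τ} {h : Half σ → Half σ} {T : Finset σ} (hG : Glu T h)
    (f : Half σ → Half τ) {x : Half σ} (hx : h x = x)
    (h1 : ∀ j, j < Turn.ks h x → g (f ((rot h)^[j] x)) = f (h ((rot h)^[j] x)))
    (h2 : ∀ j, j < Turn.ks h x → f (rho (h ((rot h)^[j] x))) = rho (f (h ((rot h)^[j] x))))
    (h3 : ∀ j, 1 ≤ j → j < Turn.ks h x → f (h ((rot h)^[j] x)) ≠ f ((rot h)^[j] x))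
    (h4 : g (f (next h x)) = f (next h x)) :
    next g (f x) = f (next h x) ∧ Turn.ks g (f x) = Turn.ks h x := by
  obtain ⟨k1, k2, k3⟩ := Turn.ks_spec hG hx
  have key : ∀ j, j ≤ Turn.ks h x → (rot g)^[j] (f x) = f ((rot h)^[j] x) := by
    intro j
    induction j with
    | zero => intro _; rfl
    | succ j ih =>
      intro hj
      rw [iterate_succ_apply', iterate_succ_apply', ih (by omega)]
      show rho (g (f _)) = f (rho (h _))
      rw [h1 j (by omega), h2 j (by omega)]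
  have h5 := Turn.ks_of (g := g) (x := f x) (k := Turn.ks h x) k1 (by
    rw [key _ le_rfl, ← k2]
    exact h4) (fun j hj1 hj2 => by
    rw [key j hj2.le, h1 j hj2]
    exact h3 j hj1 hj2)
  rw [key _ le_rfl, ← k2] at h5
  exact ⟨h5.2, h5.1⟩

namespace QChart
variable {T : Finset τ} {g : Half τ → Half τ} {w : ℕ} (c : QChart T g w)

/-- **the local law of the phases**, with a gauge and charges on the surface -/
def SLaw (ε : ℝ) (φ : Half τ → ℝ) (q : Half τ → ℤ) : Prop :=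
  ∃ θ : τ → ℝ,
    (∀ x : Half (ℤ × ℤ), x.1 ∈ c.W → x.1 + x.2.vec ∈ c.W →
      φ (g (c.im x)) + θ (g (c.im x)).1 = φ (c.im x) + θ (c.im x).1) ∧
    ∀ x, c.Real x → c.Real (Full.next c.pg x) →
      (φ (c.im (Full.next c.pg x)) + θ (c.im (Full.next c.pg x)).1) - (φ (c.im x) + θ (c.im x).1) =
        -ε * (2 * K0 * Turn.bt c.pg x - 8 * K0 * q (c.im x))

variable {c}

/-- the law of `ChLaw` -/
theorem SLaw.law {ε : ℤ} {φ : Half τ → ℝ} {q : Half τ → ℤ} (h : c.SLaw ε φ q) :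
    ∃ θ : ℤ × ℤ → ℝ, c.Law φ ε (fun x => q (c.im x)) θ := by
  obtain ⟨θ, h1, h2⟩ := h
  refine ⟨fun s => θ (c.φ s), ⟨fun t ht d hd => ?_, fun x hx hx' => ?_⟩⟩
  · have h3 := h1 (t, d) ht hd
    have h4 : g (c.im (t, d)) = c.im (t + d.vec, d.opp) := c.glue t ht d hd
    rw [h4] at h3
    exact h3
  · exact h2 x hx hx'

lemma pg_of {x : Half (ℤ × ℤ)} (h : x.1 ∈ c.W) (h' : x.1 + x.2.vec ∈ c.W) :
    c.pg x = (x.1 + x.2.vec, x.2.opp) := by
  have h1 := plane_glue c.W x.1 x.2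
  rw [if_pos ⟨h, h'⟩] at h1
  exact h1

lemma pg_of_not {x : Half (ℤ × ℤ)} (h' : x.1 + x.2.vec ∉ c.W) : c.pg x = x := by
  have h1 := plane_glue c.W x.1 x.2
  rw [if_neg (fun h => h' h.2)] at h1
  exact h1

lemma ne_pg {x : Half (ℤ × ℤ)} (h : c.pg x ≠ x) : x.1 ∈ c.W ∧ x.1 + x.2.vec ∈ c.W := by
  by_contra h1
  apply h
  have h2 := plane_glue c.W x.1 x.2
  rw [if_neg h1] at h2
  exact h2

lemma Real.fix {x : Half (ℤ × ℤ)} (h : c.Real x) : c.pg x = x := h.bd.2

/-- the gluing in the chart -/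
lemma glue_im_sqr {x : Half (ℤ × ℤ)} (h : x.1 ∈ c.W) (h' : x.1 + x.2.vec ∈ sqr w) :
    g (c.im x) = c.im (c.pg x) := by
  by_cases h1 : QSet c.v c.Q (x.1 + x.2.vec)
  · have h2 : x.1 + x.2.vec ∈ c.W := c.mem_W.2 ⟨h', h1⟩
    rw [pg_of h h2]
    exact c.glue x.1 h x.2 h2
  · rw [pg_of_not fun h2 => h1 (c.mem_W.1 h2).2]
    exact c.wall x.1 h x.2 h' h1

lemma im_ne {x : Half (ℤ × ℤ)} (h : c.pg x ≠ x) : c.im (c.pg x) ≠ c.im x := by
  intro h1
  obtain ⟨h2, h3⟩ := ne_pg h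
  rw [pg_of h2 h3] at h1
  have h4 : x.2.opp = x.2 := congrArg Prod.snd h1
  exact Dir.opp_ne _ h4

/-- **the next wall end, in the chart and in the surface** -/
theorem next_im {x : Half (ℤ × ℤ)} (h : c.Real x) (h' : c.Real (Full.next c.pg x)) :
    Full.next g (c.im x) = c.im (Full.next c.pg x) ∧ Turn.bt g (c.im x) = Turn.bt c.pg x := by
  obtain ⟨k1, k2, k3⟩ := Turn.ks_spec (glu_pg (c := c)) h.fix
  have hin : ∀ j, j < Turn.ks c.pg x → ((rot c.pg)^[j] x).1 ∈ c.W ∧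
      ((rot c.pg)^[j] x).1 + ((rot c.pg)^[j] x).2.vec ∈ sqr w := by
    intro j hj
    rcases Nat.eq_zero_or_pos j with rfl | hj0
    · exact ⟨h.1, h.2.1⟩
    · have h5 := ne_pg (k3 j hj0 hj)
      exact ⟨h5.1, (c.mem_W.1 h5.2).1⟩
  have h5 := ks_map (g := g) (glu_pg (c := c)) c.im h.fix
    (fun j hj => glue_im_sqr (hin j hj).1 (hin j hj).2) (fun j _ => rfl)
    (fun j hj1 hj2 => im_ne (k3 j hj1 hj2)) (by
      rw [glue_im_sqr h'.1 h'.2.1, h'.fix])
  refine ⟨h5.1, ?_⟩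
  unfold Turn.bt
  rw [h5.2]

end QChart

end Full.Norm
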