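import Pool.Agent.Full.Norm.MAtlas

/-!
# The pointwise bound in an atlas

`mirror_bound`: the modulus of the weight of a configuration is at most `√3 ^ #arcs` times the product of the
local factors (corners, and the given factors `G k`) times `2 ^ (number of bad strands)`.
-/

set_option autoImplicit false
set_option linter.unusedSectionVars false

namespace Full.Norm
open Finset Function Full.X3 Full.Corner

variable {τ : Type*} [DecidableEq τ] {T : Finset τ} {g : Half τ → Half τ}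

namespace QChart
variable {w : ℕ} {c : QChart T g w} {ω : Finset τ}

/-- no mark between two real ends if it is not at a real end -/
lemma Mx_zero {p0 : ℤ} (h : ∀ x, c.Real x → c.ps x ≠ p0) {x x' : Half (ℤ × ℤ)} (hx : c.Real x)
    (hx' : c.Real x') : Mx p0 (c.ps x) (c.ps x') = 0 := by
  unfold Mx
  rw [if_neg]
  rintro ⟨h1, h2⟩
  obtain ⟨A, s, hs, -⟩ := c.exists_arc
  obtain ⟨i, hi, rfl⟩ := A.surj x hx
  obtain ⟨i', hi', rfl⟩ := A.surj x' hx'
  rw [hs i hi] at h1
  rw [hs i' hi'] at h2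
  have h3 : (p0 - s).toNat < A.N := by omega
  refine h (A.a (p0 - s).toNat) (A.real _ h3) ?_
  rw [hs _ h3]
  omega

/-- at most two gaps -/
lemma Px_cases {py p p' : ℤ} (h : p < p') :
    Px py p p' = 0 ∨ Px py p p' = 2 ∨ (Px py p p' = 1 ∧ (p = py ∨ p' = py)) := by
  unfold Px
  split_ifs <;> omega

/-- the weight of a strand around a corner, no mark in the chart -/
theorem fw_corner {φ : Half τ → ℝ} {μ : Half τ → ℤ} {Y : Finset (Half τ)} {p0 py : ℤ}
    (hd : c.Dat φ (-1) μ Y p0 py) (h0 : ∀ x, c.Real x → c.ps x ≠ p0) {x x' : Half (ℤ × ℤ)}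
    (hx : c.Real x) (hx' : c.Real x') (ho : other (mate (c.pl ω)) c.pg x = x')
    (h1 : c.ps x < 0) (h2 : 0 ≤ c.ps x') :
    (nq c.Q = 1 → fw φ g ω (c.im x) ≤ 2) ∧
    (nq c.Q = 3 → fw φ g ω (c.im x) = 1 ∨
      (fw φ g ω (c.im x) ≤ 2 ∧ (c.im x ∈ Y ∨ c.im x' ∈ Y))) := by
  refine ⟨fun _ => fw_le_two _ _ _ _, fun h3 => ?_⟩
  have h4 := hd.fw_mir hx hx' ho (by omega)
  have h5 : Sx (nq c.Q) (c.ps x) (c.ps x') = -1 := by
    unfold Sx
    rw [if_pos ⟨h1, h2⟩, h3]
    rfl
  rw [h4]
  unfold hMir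
  rw [h5, Mx_zero h0 hx hx']
  rcases Px_cases (py := py) (show c.ps x < c.ps x' by omega) with h | h | ⟨-, h⟩
  · left
    rw [h]
    exact amp_eq_one (by decide)
  · left
    rw [h]
    exact amp_eq_one (by decide)
  · right
    refine ⟨amp_le_two _, ?_⟩
    rcases h with h | h
    · exact Or.inl ((hd.hY x hx).2 h)
    · exact Or.inr ((hd.hY x' hx').2 h)

/-- the weight of a held strand of a mirror chart without a mark is at most `√3`, except for the strands
around a convex corner (no position inside) and for the strands around a reflex corner with an end at a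
position -/
theorem mir_cases (hG : Glu T g) {φ : Half τ → ℝ} {μ : Half τ → ℤ} {Y : Finset (Half τ)} {p0 py : ℤ}
    (hd : c.Dat φ (-1) μ Y p0 py) (h0 : ∀ x, c.Real x → c.ps x ≠ p0)
    (hq : nq c.Q = 1 ∨ nq c.Q = 3) {w' : ℕ} (hw : w' < w)
    {e : Half τ} (he : Bd T g e) (h : (c.restr hw.le).Held ω e) (h3 : Real.sqrt 3 < fw φ g ω e) :
    ∃ x x', c.Real x ∧ c.Real x' ∧ other (mate (c.pl ω)) c.pg x = x' ∧ c.ps x < 0 ∧ 0 ≤ c.ps x' ∧
      (e = c.im x ∨ e = c.im x') ∧ other (mate ω) g (c.im x) = c.im x' ∧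
      (∀ z, Conn (mate (c.pl ω)) c.pg x z → z.1 ∈ sqr w') ∧
      (c.im x ∈ Y ∨ c.im x' ∈ Y ∨ nq c.Q = 1) := by
  obtain ⟨x, x', h1, h2, ho, h4, h5, h6, h7, h8⟩ := h.pair hG hw he φ
  rw [h8] at h3
  have h9 := hd.fw_mir h1 h2 ho h4
  by_cases hc : c.ps x < 0 ∧ 0 ≤ c.ps x'
  · refine ⟨x, x', h1, h2, ho, hc.1, hc.2, h5, h6, h7, ?_⟩
    rcases hq with hq | hq
    · exact Or.inr (Or.inr hq)
    · rcases (fw_corner hd h0 h1 h2 ho hc.1 hc.2).2 hq with h | h
      · exfalso
        rw [h] at h3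
        exact absurd h3 (not_lt.2 one_le_sqrt3)
      · rcases h.2 with h | h
        · exact Or.inl h
        · exact Or.inr (Or.inl h)
  · exfalso
    rw [h9] at h3
    refine absurd h3 (not_lt.2 (amp_le_sqrt3 ?_))
    unfold hMir Sx
    rw [if_neg hc]
    omega

end QChart

section
variable {κ : Type} (At : MAtlas T g κ)

namespace MAtlas
variable {At} {ω : Finset τ}

lemma inn_ch {b : κ} {y : Half τ} (h : (At.c b).Inn (At.m b) y) : (At.ch b).Inn (At.m b) y := by
  obtain ⟨t, h1, h2, h3⟩ := h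
  refine ⟨t, QChart.mem_restr h1 ?_, h2, h3⟩
  rw [mem_sqr] at h2 ⊢
  push_cast
  omega

/-- the strand of a corner chart which stays in the region is a strand of the factor -/
lemma str_cfct {H : Finset τ} {b : κ} {x x' : Half (ℤ × ℤ)} (hx : (At.c b).Real x)
    (hx' : (At.c b).Real x') (ho : other (mate ((At.c b).pl ω)) (At.c b).pg x = x')
    (h1 : (At.c b).ps x < 0) (h2 : 0 ≤ (At.c b).ps x')
    (h3 : ∀ z, Conn (mate ((At.c b).pl ω)) (At.c b).pg x z → z.1 ∈ At.cA H b) {e : Half τ}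
    (he : e = (At.c b).im x ∨ e = (At.c b).im x') : (At.cfct H b).Str ω e := by
  classical
  have hw : Full.Corner.Win (At.cA H b) (plane.glue (At.cA H b)) (At.c b).W (At.c b).pg :=
    win_glue plane (Finset.filter_subset _ _)
  have h4 : other (mate ((At.c b).pl ω)) (plane.glue (At.cA H b)) x = x' := by
    rw [← ho]
    exact hw.other_down hx.bd h3
  refine ⟨x, ⟨hw.bd hx.bd (h3 x (Conn.refl x)), ⟨hx, h1⟩, ?_⟩, ?_⟩
  · show other (mate ((At.c b).pl ω)) (plane.glue (At.cA H b)) x ∈ _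
    rw [h4]
    exact ⟨hx', h2⟩
  · show e = (At.c b).im x ∨ e = (At.c b).im (other (mate ((At.c b).pl ω)) (plane.glue (At.cA H b)) x)
    rw [h4]
    exact he

end MAtlas

open Classical in
/-- **the pointwise bound** -/
theorem mirror_bound (hG : Glu T g) {ι : Type*} [LinearOrder ι] {o : Half τ → ι}
    (ho : ∀ x, Bd T g x → ∀ y, Bd T g y → o x = o y → x = y)
    [Fintype κ] {σ I : Type} [Fintype σ] [Fintype I]
    (G : σ → Fct T g) (r : I → ℕ) (hr : ∀ i, 1 ≤ r i) (P : ∀ i, QChart T g (2 * r i + 1))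
    (H : Finset τ) (E : Finset (Half τ))
    (hH : ∀ t ∈ H, ∃ i, ∀ d, (P i).Inn (r i) (t, d))
    (hdis : ∀ b b', At.cn b → At.cn b' → b ≠ b' → ∀ t ∈ At.cA H b, ∀ t' ∈ At.cA H b',
      (At.c b).φ t ≠ (At.c b').φ t')
    (hdis' : ∀ b k, At.cn b → ∀ t ∈ At.cA H b, ∀ t' ∈ (G k).A, (At.c b).φ t ≠ (G k).c.φ t')
    (hdis'' : ∀ k k', k ≠ k' → ∀ t ∈ (G k).A, ∀ t' ∈ (G k').A, (G k).c.φ t ≠ (G k').c.φ t')
    {φ : Half τ → ℝ} {μ : Half τ → ℤ} {Y : Finset (Half τ)} (hL : At.Laws φ μ Y)
    (hY : ∀ b, At.cn b → ∀ x, (At.c b).Real x → (At.c b).im x ∈ Y → (At.c b).im x ∈ E)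
    (ω : Finset τ)
    (hGw : ∀ k e, (G k).Str ω e → fw φ g ω e ≤ (G k).z * Real.sqrt 3)
    (hP : ∀ i e, Bd T g e → (P i).Held ω e → fw φ g ω e ≤ Real.sqrt 3) :
    ‖cw K0 φ T g none o ω‖ ≤ Real.sqrt 3 ^ (arcs T g ω none o).card *
      ((∏ b ∈ univ.filter At.cn, (zc (nq (At.c b).Q)) ^ (At.cfct H b).cnt ω) *
        ∏ k, (G k).z ^ (G k).cnt ω) * 2 ^ (At.tot ω + ∑ i, (P i).X ω + E.card) := by
  have h2 := hG.two ω
  set Bad : Half τ → Prop := fun e =>
    (∃ b z, Conn (mate ω) g e z ∧ (At.ch b).Inn (At.m b) z ∧ ¬ (At.ch b).Held ω z) ∨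
    (∃ i z, Conn (mate ω) g e z ∧ (P i).Inn (r i) z ∧ ¬ (P i).Held ω z) ∨
    ∃ e' ∈ E, Conn (mate ω) g e e' with hBad
  have hs3 : 0 < Real.sqrt 3 := lt_of_lt_of_le one_pos one_le_sqrt3
  -- the law in a mirror chart
  have hdat : ∀ b, ¬ At.own b → ∃ py, (At.c b).Dat φ (-1) μ Y (At.p0 b) py := by
    intro b hb
    obtain ⟨py, h⟩ := hL b
    unfold MAtlas.sg at h
    rw [if_neg hb] at h
    exact ⟨py, h⟩
  have key := norm_cw_le hG ho (κ := κ ⊕ σ) ((univ.filter At.cn).disjSum univ)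
    (Sum.elim (At.cfct H) G) ?_ φ ω Bad ?_ ?_ ?_ (M := At.tot ω + ∑ i, (P i).X ω + E.card) ?_
  · rw [prod_disjSum] at key
    exact key
  · -- the factors are disjoint
    rintro (b | k) hb (b' | k') hb' hne t ht t' ht'
    · exact hdis b b' (mem_filter.1 (inl_mem_disjSum.1 hb)).2 (mem_filter.1 (inl_mem_disjSum.1 hb')).2
        (fun h => hne (by rw [h])) t ht t' ht'
    · exact hdis' b k' (mem_filter.1 (inl_mem_disjSum.1 hb)).2 t ht t' ht'
    · exact (hdis' b' k (mem_filter.1 (inl_mem_disjSum.1 hb')).2 t' ht' t ht).symm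
    · exact hdis'' k k' (fun h => hne (by rw [h])) t ht t' ht'
  · -- the weights of the factors
    rintro (b | k) hb e hs
    · have hcn := (mem_filter.1 (inl_mem_disjSum.1 hb)).2
      obtain ⟨x, hx, hex⟩ := hs
      obtain ⟨py, hd⟩ := hdat b (At.cnm b hcn)
      have hx1 : (At.c b).Real x := hx.real
      have hx2 : (At.c b).Real ((At.cfct H b).oth ω x) := hx.real'
      have ho1 : other (mate ((At.c b).pl ω)) (At.c b).pg x = (At.cfct H b).oth ω x := hx.oth_eq
      have p1 : (At.c b).ps x < 0 := hx.2.1.2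
      have p2 : 0 ≤ (At.c b).ps ((At.cfct H b).oth ω x) := hx.2.2.2
      have ho2 : other (mate ω) g ((At.c b).im x) = (At.c b).im ((At.cfct H b).oth ω x) := hx.other_im
      have hfe : fw φ g ω e = fw φ g ω ((At.c b).im x) := by
        rcases hex with h | h
        · rw [h]; rfl
        · rw [h]
          show fw φ g ω ((At.c b).im ((At.cfct H b).oth ω x)) = _
          rw [← ho2, fw_other hG φ ω hx1.bdT]
      have hce : Conn (mate ω) g e ((At.c b).im x) ∧
          Conn (mate ω) g e ((At.c b).im ((At.cfct H b).oth ω x)) := by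
        have h3 : Conn (mate ω) g ((At.c b).im x) ((At.c b).im ((At.cfct H b).oth ω x)) := by
          rw [← ho2]
          exact Two.conn_other _
        rcases hex with h | h
        · rw [h]
          exact ⟨Conn.refl _, h3⟩
        · rw [h]
          exact ⟨h2.symm h3, Conn.refl _⟩
      have hz : (Sum.elim (At.cfct H) G (Sum.inl b)).z = zc (nq (At.c b).Q) := rfl
      rw [hz, hfe]
      obtain ⟨c1, c3⟩ := QChart.fw_corner hd (At.cn0 b hcn) hx1 hx2 ho1 p1 p2
      rcases At.cnq b hcn with hq | hq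
      · left
        have h5 : zc (nq (At.c b).Q) * Real.sqrt 3 = 2 := by
          unfold zc
          rw [if_pos hq, div_mul_cancel₀ _ hs3.ne']
        rw [h5]
        exact c1 hq
      · have h5 : zc (nq (At.c b).Q) * Real.sqrt 3 = 1 := by
          unfold zc
          rw [if_neg (by rw [hq]; decide), div_mul_cancel₀ _ hs3.ne']
        rw [h5]
        rcases c3 hq with h | ⟨h, h'⟩
        · exact Or.inl h.le
        · right
          refine ⟨Or.inr (Or.inr ?_), by linarith⟩
          rcases h' with h' | h'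
          · exact ⟨_, hY b hcn x hx1 h', hce.1⟩
          · exact ⟨_, hY b hcn _ hx2 h', hce.2⟩
    · exact Or.inl (hGw k e hs)
  · -- the other strands
    intro e he hlt
    by_contra hcon
    push Not at hcon
    obtain ⟨hns, hnb⟩ := hcon
    obtain ⟨b, hb⟩ := At.cov e he.1
    have hheld : (At.ch b).Held ω e := by
      by_contra h
      exact hnb (Or.inl ⟨b, e, Conn.refl _, MAtlas.inn_ch hb, h⟩)
    by_cases how : At.own b
    · obtain ⟨py, hd⟩ := hL b
      unfold MAtlas.sg at hd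
      rw [if_pos how] at hd
      exact absurd hlt (not_lt.2 (hd.own_le hG (At.hw b) he hheld))
    obtain ⟨py, hd⟩ := hdat b how
    by_cases hcn : At.cn b
    · obtain ⟨x, x', hx, hx', ho1, p1, p2, hex, ho2, hst, hcase⟩ :=
        QChart.mir_cases hG hd (At.cn0 b hcn) (At.cnq b hcn) (At.hw b) he hheld hlt
      have hce : Conn (mate ω) g e ((At.c b).im x) ∧ Conn (mate ω) g e ((At.c b).im x') := by
        have h3 : Conn (mate ω) g ((At.c b).im x) ((At.c b).im x') := by
          rw [← ho2]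
          exact Two.conn_other _
        rcases hex with h | h
        · rw [h]
          exact ⟨Conn.refl _, h3⟩
        · rw [h]
          exact ⟨h2.symm h3, Conn.refl _⟩
      rcases hcase with h | h | hq
      · exact hnb (Or.inr (Or.inr ⟨_, hY b hcn x hx h, hce.1⟩))
      · exact hnb (Or.inr (Or.inr ⟨_, hY b hcn _ hx' h, hce.2⟩))
      · -- convex corner
        refine hns (Sum.inl b) (inl_mem_disjSum.2 (mem_filter.2 ⟨mem_univ _, hcn⟩)) ?_
        refine MAtlas.str_cfct hx hx' ho1 p1 p2 (fun z hz => ?_) hex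
        have hzW : z.1 ∈ (At.c b).W := (At.c b).glu_pg.conn_mem hz hx.1
        have hcz : Conn (mate ω) g e ((At.c b).im z) := hce.1.trans ((At.c b).win.conn_im hx.1 hz)
        unfold MAtlas.cA
        rw [mem_filter]
        refine ⟨hzW, hst z hz, fun hzH => ?_⟩
        obtain ⟨i, hi⟩ := hH _ hzH
        by_cases h5 : (P i).Held ω ((At.c b).im z)
        · have h6 : (P i).Held ω e := h5.of_conn (h2.symm hcz)
          exact absurd hlt (not_lt.2 (hP i e he h6))
        · exact hnb (Or.inr (Or.inl ⟨i, _, hcz, hi _, h5⟩))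
    · refine absurd hlt (not_lt.2 (hd.mir_le hG (At.hw b) he hheld ?_))
      exact At.flat b how hcn
  · -- the loops
    intro e he hloop hlt
    by_contra hnb
    obtain ⟨b, hb⟩ := At.cov e he
    have hheld : (At.ch b).Held ω e := by
      by_contra h
      exact hnb (Or.inl ⟨b, e, Conn.refl _, MAtlas.inn_ch hb, h⟩)
    obtain ⟨py, hd⟩ := hL b
    obtain ⟨θ, hθ⟩ := hd.law
    have h3 := QChart.Held.loop_one (At.hw b) hθ.gauge (At.c b).good hloop hheld
    unfold fl at hlt
    rw [h3, abs_one] at hlt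
    exact lt_irrefl _ hlt
  · -- the number of the bad strands
    intro S hS hbad
    set S1 := S.filter fun e =>
      (∃ b z, Conn (mate ω) g e z ∧ (At.ch b).Inn (At.m b) z ∧ ¬ (At.ch b).Held ω z) ∨
      (∃ i z, Conn (mate ω) g e z ∧ (P i).Inn (r i) z ∧ ¬ (P i).Held ω z) with hS1
    have e1 : S1.card ≤ At.tot ω + ∑ i, (P i).X ω := by
      have h3 := count_le' hG (κ := κ ⊕ I) (Sum.elim At.m r)
        (fun b => by rcases b with b | i; exacts [At.hm b, hr i])
        (fun b => match b with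
          | Sum.inl b => At.ch b
          | Sum.inr i => P i) ω S1
        (fun x hx y hy => hS x (mem_filter.1 hx).1 y (mem_filter.1 hy).1) (fun y hy => by
          rcases (mem_filter.1 hy).2 with ⟨b, z, hz⟩ | ⟨i, z, hz⟩
          · exact ⟨Sum.inl b, z, hz⟩
          · exact ⟨Sum.inr i, z, hz⟩)
      rw [Fintype.sum_sum_type] at h3
      exact h3
    have e2 : (S \ S1).card ≤ E.card := by
      have hex : ∀ x ∈ S \ S1, ∃ e' ∈ E, Conn (mate ω) g x e' := by
        intro x hx
        rw [mem_sdiff, hS1, mem_filter, not_and] at hx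
        rcases (hbad x hx.1).2 with h | h | h
        · exact absurd (Or.inl h) (hx.2 hx.1)
        · exact absurd (Or.inr h) (hx.2 hx.1)
        · exact h
      choose! f hf1 hf2 using hex
      refine card_le_card_of_injOn f (fun x hx => hf1 x hx) ?_
      intro x hx y hy hxy
      have hx' := mem_coe.1 hx
      have hy' := mem_coe.1 hy
      refine hS x (mem_sdiff.1 hx').1 y (mem_sdiff.1 hy').1 ((hf2 x hx').trans ?_)
      rw [hxy]
      exact h2.symm (hf2 y hy')
    have e3 : S.card = S1.card + (S \ S1).card := by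
      have := card_sdiff_add_card_eq_card (s := S1) (t := S) (filter_subset _ _)
      omega
    omega

end

end Full.Norm
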