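import Pool.Agent.Full.Norm.CapLab
import Pool.Agent.Full.Norm.Half
import Pool.Agent.Full.Disc.SlabSC

/-!
# The screening sums of a slab in pair form

The sum of the vectors over the gaps of a charge `+2` is the sum over every second wall end of the vectors
with the charges `+1` before and after this end.
-/

set_option autoImplicit false

namespace Full
open Full.X3 Full.Norm Finset Function SixV

/-- the cumulative charge of a pair: `1` before and `1` after the position `u` -/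
def pr (u p : ℤ) : ℤ := stp u p + stp (u + 1) p

namespace Slab
variable {D : Slab} {W : Lab} {a nL nU s y : ℤ}

/-- the walls of the upper part are in the upper sheet -/
lemma isW_memU (hb : D.b < D.t) (hy : y < D.t) {t : ℤ × ℤ} {d : Dir} (h : D.IsW (.inr t, d)) :
    (Sum.inr t : ZT) ∈ D.upT y := by
  obtain ⟨i, j⟩ := t
  obtain ⟨h1, h2⟩ := h
  rw [mem_upT]
  rcases (mem_TU.1 h1.1) with h3 | h3
  · exact Or.inl h3
  · rcases h2 with h2 | h2
    · exact Or.inl h2
    · subst h2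
      right
      refine ⟨h3.1, ?_, h3.2.2⟩
      by_contra h4
      have h5 : ((i, j) + Dir.N.vec : ℤ × ℤ) = (i, j + 1) := by
        refine Prod.ext ?_ rfl
        show i + 0 = i
        omega
      have h6 : (i, j + 1) ∈ D.TU D.b := mem_TU.2 (Or.inr ⟨h3.1, by omega, by omega⟩)
      have h7 := h1.2
      have h8 : plane.glue (D.TU D.b) ((i, j), Dir.N) = ((i, j + 1), Dir.N.opp) :=
        Surf.glue_of_mem (by show plane.nb Dir.N (i, j) = _; rw [nb_plane, h5]) h1.1 h6
      rw [h8] at h7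
      exact Dir.opp_ne Dir.N (congrArg Prod.snd h7)

/-- the walls of the lower part are in the lower sheet -/
lemma isW_memL (hb : D.b < D.t) (hy : D.b < y) {t : ℤ × ℤ} {d : Dir} (h : D.IsW (.inl t, d)) :
    (Sum.inl t : ZT) ∈ D.lowT y := by
  obtain ⟨i, j⟩ := t
  obtain ⟨h1, h2⟩ := h
  rw [mem_lowT]
  rcases (mem_TL.1 h1.1) with h3 | h3
  · exact Or.inl h3
  · rcases h2 with h2 | h2
    · exact Or.inl h2
    · subst h2
      right
      refine ⟨h3.1, h3.2.1, ?_⟩
      by_contra h4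
      have h5 : ((i, j) + Dir.S.vec : ℤ × ℤ) = (i, j - 1) := by
        refine Prod.ext ?_ rfl
        show i + 0 = i
        omega
      have h6 : (i, j - 1) ∈ D.TL D.t := mem_TL.2 (Or.inr ⟨h3.1, by omega, by omega⟩)
      have h7 := h1.2
      have h8 : plane.glue (D.TL D.t) ((i, j), Dir.S) = ((i, j - 1), Dir.S.opp) :=
        Surf.glue_of_mem (by show plane.nb Dir.S (i, j) = _; rw [nb_plane, h5]) h1.1 h6
      rw [h8] at h7
      exact Dir.opp_ne Dir.S (congrArg Prod.snd h7)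

lemma exists_up (hW : W.Ok D a nL nU) (hbt : D.b < D.t) {u : ℤ} (h1 : W.P ≤ u) (h2 : u < W.P + nU) :
    ∃ t d, D.IsW (.inr t, d) ∧ W.pos (.inr t, d) = u := by
  obtain ⟨⟨t | t, d⟩, h3, h4⟩ := hW.surj u (Or.inr ⟨h1, h2⟩)
  · have := pos_low hW hbt h3
    omega
  · exact ⟨t, d, h3, h4⟩

lemma exists_low (hW : W.Ok D a nL nU) (hbt : D.b < D.t) {u : ℤ} (h1 : 0 ≤ u) (h2 : u < nL) :
    ∃ t d, D.IsW (.inl t, d) ∧ W.pos (.inl t, d) = u := by
  obtain ⟨⟨t | t, d⟩, h3, h4⟩ := hW.surj u (Or.inl ⟨h1, h2⟩)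
  · exact ⟨t, d, h3, h4⟩
  · have := hW.up t d h3
    have := hW.P_eq
    omega

/-- the charges `+2` before and after the position `u`, above -/
theorem vup_two (hW : W.Ok D a nL nU) (hbt : D.b < D.t) (hy : y < D.t) (B : ℤ → ℤ) {u : ℤ}
    (h1 : W.P ≤ u) (h2 : u < W.P + nU) :
    D.vup (D.FC W (fun p => B p + 2 * stp u p) s) y + D.vup (D.FC W (fun p => B p + 2 * stp (u + 1) p) s) y =
      D.vup (D.FC W (fun p => B p + pr u p) s) y := by
  obtain ⟨t, d, h3, rfl⟩ := exists_up hW hbt h1 h2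
  refine vup_pair (C := fun p => B p + pr (W.pos (.inr t, d)) p) hW.inj h3 hy.le ?_ ?_ (fun p hp => ?_)
    (isW_memU hbt hy h3)
  · simp only [pr, stp, le_refl, if_true]
    rw [if_neg (by omega)]
    ring
  · simp only [pr, stp, le_refl, if_true]
    rw [if_neg (by omega)]
    ring
  · simp only [pr, stp]
    constructor <;> split_ifs <;> omega

/-- the charges `+2` before and after the position `u`, below -/
theorem vlow_two (hW : W.Ok D a nL nU) (hbt : D.b < D.t) (hy : D.b < y) (B : ℤ → ℤ) {u : ℤ}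
    (h1 : 0 ≤ u) (h2 : u < nL) :
    D.vlow (D.FC W (fun p => B p + 2 * stp u p) s) y + D.vlow (D.FC W (fun p => B p + 2 * stp (u + 1) p) s) y =
      D.vlow (D.FC W (fun p => B p + pr u p) s) y := by
  obtain ⟨t, d, h3, rfl⟩ := exists_low hW hbt h1 h2
  refine vlow_pair (C := fun p => B p + pr (W.pos (.inl t, d)) p) hW.inj h3 ?_ ?_ (fun p hp => ?_)
    (isW_memL hbt hy h3)
  · simp only [pr, stp, le_refl, if_true]
    rw [if_neg (by omega)]
    ring
  · simp only [pr, stp, le_refl, if_true]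
    rw [if_neg (by omega)]
    ring
  · simp only [pr, stp]
    constructor <;> split_ifs <;> omega

/-- a sum over gaps of a charge `+2`, in pairs, above -/
theorem vup_sum (hW : W.Ok D a nL nU) (hbt : D.b < D.t) (hy : y < D.t) (B : ℤ → ℤ) {j : ℤ} {N : ℕ}
    (h1 : W.P ≤ j) (h2 : j + 2 * N ≤ W.P + nU + 1) :
    ∑ i ∈ Icc j (j + 2 * N - 1), D.vup (D.FC W (fun p => B p + 2 * stp i p) s) y =
      ∑ i ∈ range N, D.vup (D.FC W (fun p => B p + pr (j + 2 * i) p) s) y := by
  rw [sum_Icc_pair]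
  refine sum_congr rfl fun i hi => ?_
  rw [mem_range] at hi
  exact vup_two hW hbt hy B (by omega) (by omega)

/-- a sum over gaps of a charge `+2`, in pairs, below -/
theorem vlow_sum (hW : W.Ok D a nL nU) (hbt : D.b < D.t) (hy : D.b < y) (B : ℤ → ℤ) {j : ℤ} {N : ℕ}
    (h1 : 0 ≤ j) (h2 : j + 2 * N ≤ nL + 1) :
    ∑ i ∈ Icc j (j + 2 * N - 1), D.vlow (D.FC W (fun p => B p + 2 * stp i p) s) y =
      ∑ i ∈ range N, D.vlow (D.FC W (fun p => B p + pr (j + 2 * i) p) s) y := by
  rw [sum_Icc_pair]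
  refine sum_congr rfl fun i hi => ?_
  rw [mem_range] at hi
  exact vlow_two hW hbt hy B (by omega) (by omega)

/-- the sum over the gaps of the trio, in pairs -/
theorem vup_trio (hW : W.Ok D a nL nU) (hbt : D.b < D.t) (hy : y < D.t) (B : ℤ → ℤ) {m : ℤ} {N : ℕ}
    (h1 : m + 2 * N - 1 ≤ 0) (h2 : -m ≤ nU) :
    ∑ k ∈ Icc m (m + 2 * N - 1), D.vup (D.FC W (fun p => B p + 2 * stp (W.P - k) p) s) y =
      ∑ i ∈ range N, D.vup (D.FC W (fun p => B p + pr (W.P - m - 1 - 2 * i) p) s) y := by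
  rw [sum_Icc_pair]
  refine sum_congr rfl fun i hi => ?_
  rw [mem_range] at hi
  have h := vup_two (s := s) hW hbt hy B (u := W.P - m - 1 - 2 * i) (by omega) (by omega)
  rw [show W.P - m - 1 - 2 * (i : ℤ) + 1 = W.P - (m + 2 * i) by ring] at h
  rw [← h, show W.P - m - 1 - 2 * (i : ℤ) = W.P - (m + 2 * i + 1) by ring]
  exact add_comm _ _

end Slab

end Full

namespace Full.Norm
open Full.X3 Finset Function SixV

/-- the conjugate of a network with pinned sides -/
lemma conj_net {τ : Type*} [DecidableEq τ] (T : Finset τ) (g : Half τ → Half τ) (K : ℝ)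
    (F : Half τ → Bool → ℂ) :
    (starRingEnd ℂ) (net T g K F) = net T g K fun x b => (starRingEnd ℂ) (F x b) := by
  rw [net_eq_cons, net_eq_cons, map_sum]
  refine sum_congr rfl fun O _ => ?_
  unfold netw
  rw [map_mul, map_prod, map_prod]
  simp only [conj_tw]

/-- the conjugate of the vector of a cap -/
lemma Cap.conj_vec (D : Cap) (n : ℕ) (φ : Half (ℤ × ℤ) → ℝ) (s : Fin n → Bool) :
    (starRingEnd ℂ) (D.vec n (uph φ) s) = D.vec n (uph fun x => -φ x) s := by
  unfold Cap.vec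
  rw [conj_net]
  congr 1
  funext x b
  unfold pin
  rw [map_mul, map_prod]
  congr 1
  · unfold uph
    rw [conj_ue, mul_neg]
  · refine prod_congr rfl fun j _ => ?_
    split_ifs <;> simp

end Full.Norm

namespace Full
open Full.X3 Full.Norm Finset Function SixV

namespace Slab
variable {D : Slab} {W : Lab} {a nL nU s y : ℤ}

/-- **the norm of a sum of vectors of the upper part** -/
theorem norm_up (hb : D.b ≤ y) (ht : y < D.t) {ι : Type*} (I : Finset ι) (C : ι → ℤ → ℤ) :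
    ∑ σ, ‖(∑ i ∈ I, D.vup (D.FC W (C i) s) y) σ‖ ^ 2 =
      ∑ σ : Fin (D.n + 1) → Bool,
        ‖∑ i ∈ I, (upCap D y hb ht).vec (D.n + 1) (uph (D.phU W (C i) s)) σ‖ ^ 2 := by
  have e : ∀ σ : Cfg (D.n + 1), (∑ i ∈ I, D.vup (D.FC W (C i) s) y) σ = (starRingEnd ℂ)
      (∑ i ∈ I, (upCap D y hb ht).vec (D.n + 1) (uph (D.phU W (C i) s)) fun j => !σ j) := by
    intro σ
    rw [Finset.sum_apply, map_sum]
    refine sum_congr rfl fun i _ => ?_
    rw [vup_eq hb ht, Cap.conj_vec]
    congr 1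
    funext x b
    unfold FC uph phU qph
    simp only [neg_neg]
    rfl
  have e2 : ∀ f : Cfg (D.n + 1) → ℝ, ∑ σ : Cfg (D.n + 1), f (fun j => !σ j) = ∑ σ, f σ := by
    intro f
    refine Fintype.sum_bijective (fun σ : Cfg (D.n + 1) => fun j => !σ j) ?_ _ _ fun _ => rfl
    exact Function.Involutive.bijective fun σ => by funext j; simp
  rw [← e2 fun σ => ‖∑ i ∈ I, (upCap D y hb ht).vec (D.n + 1) (uph (D.phU W (C i) s)) σ‖ ^ 2]
  refine sum_congr rfl fun σ _ => ?_
  rw [e, RCLike.norm_conj]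

/-- **the norm of a sum of vectors of the lower part** -/
theorem norm_low (hb : D.b < y) (ht : y ≤ D.t) {ι : Type*} (I : Finset ι) (C : ι → ℤ → ℤ) :
    ∑ σ, ‖(∑ i ∈ I, D.vlow (D.FC W (C i) s) y) σ‖ ^ 2 =
      ∑ σ : Fin (D.n + 2) → Bool,
        ‖∑ i ∈ I, (lowCap D y hb ht).vec (D.n + 2) (uph (D.phL W (C i) s)) σ‖ ^ 2 := by
  refine sum_congr rfl fun σ _ => ?_
  rw [Finset.sum_apply]
  congr 2
  refine sum_congr rfl fun i _ => ?_
  rw [vlow_eq hb ht]
  rfl

end Slab

end Full
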