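import Pool.Agent.Full.Norm.Wins

/-!
# The parts of the norm bound of a cap

`WinDisj`, `MirPart` (pointwise bound of the weight of a configuration), `OwnPart` (number of the own
positions), `LocPart` (means of the local factors), `MomPart` (exponential moments), `WlPart` (number of
the open strands).
-/

set_option autoImplicit false

namespace Full.Norm
open Finset Function Full.X3 Full.Corner Full.Mom Full.Walk
open Full.Perc (Ex)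

/-- the number of the open strands of the double -/
def WlPart : Prop := ∀ (D : Cap) (ι : Type) [LinearOrder ι] (o : Half ((ℤ × ℤ) ⊕ (ℤ × ℤ)) → ι),
  (∀ x, Bd D.T2 D.g2 x → ∀ y, Bd D.T2 D.g2 y → o x = o y → x = y) →
  ∀ ω ∈ D.T2.powerset, (arcs D.T2 D.g2 ω none o).card = D.wl

/-- the windows of the factors are disjoint -/
def WinDisj : Prop := ∀ (p : ℕ) (D : Cap) (E : D.Env p) (K n w A m R : ℕ) (h : E.Ok K n w A m R)
  (a : Fin p → Half (ℤ × ℤ)) (ha : ∀ i, a i ∈ E.Y i) (k l : Fin E.S ⊕ Fin p), k ≠ l →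
  ∀ t ∈ (Cap.Env.wf h a ha k).A, ∀ t' ∈ (Cap.Env.wf h a ha l).A,
    (Cap.Env.wf h a ha k).c.φ t ≠ (Cap.Env.wf h a ha l).c.φ t'

/-- a finite family of charts, with at most `B` elements, all of radius at least `3` -/
structure Fml (D : Cap) (B : ℕ) where
  κ : Type
  fin : Fintype κ
  m : κ → ℕ
  c : ∀ b, QChart D.T2 D.g2 (2 * m b + 1)
  pos : ∀ b, 1 ≤ m b
  card : Fintype.card κ ≤ B

/-- the number of the crossings of the charts -/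
noncomputable def Fml.tot {D : Cap} {B : ℕ} (F : Fml D B) (ω : Finset ((ℤ × ℤ) ⊕ (ℤ × ℤ))) : ℕ :=
  letI := F.fin
  ∑ b, (F.c b).X ω

/-- **own side**: the number of the own positions with a nonzero weight -/
def OwnPart : Prop := ∀ p K : ℕ, ∃ B : ℕ, ∀ (D : Cap) (E : D.Env p) (n w A m R : ℕ)
  (_ : E.Ok K n w A m R), ∃ F : Fml D B,
  ∀ (φ : (Fin p → Half (ℤ × ℤ)) → Half (ℤ × ℤ) → ℝ) (ψ : ℝ),
  (∀ a ∈ Fintype.piFinset E.Y, D.PhLaw (φ a) (E.chg a) ψ) →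
  ∀ (ι : Type) [LinearOrder ι] (o : Half ((ℤ × ℤ) ⊕ (ℤ × ℤ)) → ι),
  (∀ x, Bd D.T2 D.g2 x → ∀ y, Bd D.T2 D.g2 y → o x = o y → x = y) →
  ∀ a' ∈ Fintype.piFinset E.Y, ∀ ω ∈ D.T2.powerset, ∀ Z : Finset (Fin p → Half (ℤ × ℤ)),
    (∀ a ∈ Z, a ∈ Fintype.piFinset E.Y ∧ cw K0 (dph (φ a) (φ a')) D.T2 D.g2 none o ω ≠ 0) →
    Z.card ≤ (B + 2 * F.tot ω) ^ p

/-- **mirror side**: the pointwise bound of the weight of a configuration -/
def MirPart : Prop := ∀ p K : ℕ, ∃ B : ℕ, ∀ (D : Cap) (E : D.Env p) (n w A m R : ℕ)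
  (h : E.Ok K n w A m R) (a' : Fin p → Half (ℤ × ℤ)) (ha' : ∀ i, a' i ∈ E.Y i), ∃ F : Fml D B,
  ∀ (φ : (Fin p → Half (ℤ × ℤ)) → Half (ℤ × ℤ) → ℝ) (ψ : ℝ),
  (∀ a ∈ Fintype.piFinset E.Y, D.PhLaw (φ a) (E.chg a) ψ) →
  ∀ (ι : Type) [LinearOrder ι] (o : Half ((ℤ × ℤ) ⊕ (ℤ × ℤ)) → ι),
  (∀ x, Bd D.T2 D.g2 x → ∀ y, Bd D.T2 D.g2 y → o x = o y → x = y) →
  ∀ a ∈ Fintype.piFinset E.Y, ∀ ω ∈ D.T2.powerset,
    ‖cw K0 (dph (φ a) (φ a')) D.T2 D.g2 none o ω‖ ≤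
      Real.sqrt 3 ^ (arcs D.T2 D.g2 ω none o).card *
        (∏ k, (Cap.Env.wf h a' ha' k).z ^ (Cap.Env.wf h a' ha' k).cnt ω) * 2 ^ (B + F.tot ω)

namespace Cap.Env
variable {D : Cap} {p : ℕ} (E : D.Env p)

open Classical in
/-- the factor of the mark `c` in the bound of the mean -/
noncomputable def um (n R : ℕ) (c : Fin E.S) (a : Fin p → Half (ℤ × ℤ)) : ℝ :=
  if h : HasNr E R c a then (E.dl c (a h.choose) : ℝ) ^ (-(1 / 3 : ℝ)) else (n : ℝ) ^ (-(1 / 3 : ℝ))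

open Classical in
/-- the factor of the position `y` in the bound of the mean -/
noncomputable def us (n R : ℕ) (y : Half (ℤ × ℤ)) : ℝ :=
  if h : ∃ c, Nr E R c y then (E.dl h.choose y : ℝ) ^ (-(1 / 3 : ℝ)) else (n : ℝ) ^ (-(1 / 3 : ℝ))

end Cap.Env

/-- **the means of the local factors**; the exponent `α` does not depend on `ε` -/
def LocPart : Prop := ∀ p K : ℕ, ∃ α : ℝ, 0 ≤ α ∧ ∀ ε : ℝ, 0 < ε → ∃ C : ℝ, 1 ≤ C ∧
  ∀ (D : Cap) (E : D.Env p) (n w A m R : ℕ) (h : E.Ok K n w A m R) (a : Fin p → Half (ℤ × ℤ))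
    (ha : ∀ i, a i ∈ E.Y i), ∃ u : Fin E.S ⊕ Fin p → ℝ,
    (∀ k, LocUp ((n : ℝ) ^ α) (u k) (fun ω : D.T2 → Bool =>
      (Cap.Env.wf h a ha k).z ^ (Cap.Env.wf h a ha k).cnt (ofBits D.T2 ω))) ∧
    ∏ k, u k ≤ C * (n : ℝ) ^ ε * ((∏ c ∈ E.M, E.um n R c a) * ∏ i, E.us n R (a i))

/-- exponential moments of the number of the crossings -/
def MomPart : Prop := ∀ (Q : ℝ) (B : ℕ), 1 ≤ Q → ∃ C : ℝ, 1 ≤ C ∧ ∀ (D : Cap) (F : Fml D B),
  avg (fun ω : D.T2 → Bool => Q ^ F.tot (ofBits D.T2 ω)) ≤ C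

/-- the sum over the positions -/
def SumPart : Prop := ∀ p K : ℕ, ∃ C : ℝ, 1 ≤ C ∧ ∀ (D : Cap) (E : D.Env p) (n w A m R : ℕ),
  E.Ok K n w A m R → ∑ a ∈ Fintype.piFinset E.Y, ((∏ c ∈ E.M, E.um n R c a) * ∏ i, E.us n R (a i)) ≤
    C * (n : ℝ) ^ ((2 * (p : ℝ) - (E.M.card : ℝ)) / 3)

/-- the composition -/
def Compose : Prop := WlPart → WinDisj → OwnPart → MirPart → LocPart → MomPart → SumPart → CapNorm

end Full.Norm
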