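import Pool.Agent.Full.Corner.Prod
import Pool.Agent.Full.Macro.Chart

/-!
# A corner window with a hole

If the screened charge sits near a reflex corner, every strand around the corner still has the factor
`1/√3`, whether it encloses the charge or not.  So the corner window is used with a hole around the
charge.  `reflex_hole`: the factor of the window with the hole is at most `C m ^ ε` times the factor of the
full window.  `cvx_hole` is the same for a convex corner with the factor `1/√3`.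
-/

set_option autoImplicit false
set_option linter.unusedSectionVars false

namespace Full.Norm
open Function Relation Finset Full Full.Corner Full.Macro
open Full.Perc (Ex Ex_mono Ex_congr Ex_nonneg)
open Full.Walk (bx RswQ)

section general
variable {τ : Type*} [DecidableEq τ]

/-- the strands of the region which are not strands of the window visit the hole and leave the chart -/
theorem cnt_hole {W T : Finset τ} {h g : Half τ → Half τ} (H : Win W h T g) {r : ℕ} (hr : 1 ≤ r)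
    (c : Box T g r) {A B : Set (Half τ)} (hAB : ∀ x, x ∈ A → x ∉ B)
    (hin : ∀ t ∈ T, t ∉ W → ∃ i j, c.Λ i j ∧ bx r i j ∧ t = c.φ i j)
    (hfar : (∀ x, Bd T g x → x ∈ A → ¬ ∃ i j, c.Λ i j ∧ x.1 = c.φ i j) ∨
      (∀ x, Bd T g x → x ∈ B → ¬ ∃ i j, c.Λ i j ∧ x.1 = c.φ i j))
    (ω : Finset τ) : cnt T g ω A B ≤ cnt W h ω A B + c.X ω := by
  classical
  have hG := H.big
  have hstay : ∀ x, (¬ ∀ z, Full.Conn (mate ω) g x z → z.1 ∈ W) →
      ∃ z, Full.Conn (mate ω) g x z ∧ z.1 ∉ W := by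
    intro x hx
    push Not at hx
    exact hx
  choose! f hf1 hf2 using hstay
  unfold cnt
  rw [← card_filter_add_card_filter_not (s := (bdF T g).filter fun x => x ∈ A ∧
    other (mate ω) g x ∈ B) (fun x => ∀ z, Full.Conn (mate ω) g x z → z.1 ∈ W)]
  apply add_le_add
  · apply card_le_card
    intro x hx
    rw [mem_filter, mem_filter, mem_bdF] at hx
    obtain ⟨⟨h1, h2, h3⟩, h4⟩ := hx
    rw [mem_filter, mem_bdF]
    refine ⟨H.bd h1 (h4 x (Full.Conn.refl x)), h2, ?_⟩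
    rw [H.other_down h1 h4]
    exact h3
  · set S2 := ((bdF T g).filter fun x => x ∈ A ∧ other (mate ω) g x ∈ B).filter
      (fun x => ¬ ∀ z, Full.Conn (mate ω) g x z → z.1 ∈ W) with hS2
    have key : ∀ x ∈ S2, ∀ x' ∈ S2, Full.Conn (mate ω) g (f x) (f x') → x = x' := by
      intro x hx x' hx' hc
      rw [hS2, mem_filter, mem_filter, mem_bdF] at hx hx'
      have h1 : Full.Conn (mate ω) g x x' :=
        ((hf1 x hx.2).trans hc).trans ((hG.two ω).symm (hf1 x' hx'.2))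
      rcases (hG.two ω).eq_or_eq_other hx.1.1.2 (hG.periodic ω x) hx'.1.1.2 h1 with h2 | h2
      · exact h2.symm
      · exfalso
        apply hAB x' hx'.1.2.1
        rw [h2]
        exact hx.1.2.2
    have hcard : S2.card = (S2.image f).card := by
      symm
      apply card_image_of_injOn
      intro x hx x' hx' he
      exact key x hx x' hx' (by rw [he]; exact Full.Conn.refl _)
    rw [hcard]
    have h := macro_count hG hr (κ := Unit) (fun _ => c) ω (S2.image f) ?_ ?_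
    · simpa using h
    · intro z hz z' hz' hc
      obtain ⟨x, hx, rfl⟩ := mem_image.1 hz
      obtain ⟨x', hx', rfl⟩ := mem_image.1 hz'
      rw [key x hx x' hx' hc]
    · intro z hz
      obtain ⟨x, hx, rfl⟩ := mem_image.1 hz
      rw [hS2, mem_filter, mem_filter, mem_bdF] at hx
      obtain ⟨⟨h1, h2, h3⟩, h4⟩ := hx
      refine ⟨(), ?_, ?_⟩
      · exact hin _ (hG.conn_mem (hf1 x h4) h1.1) (hf2 x h4)
      · intro hh
        have hs := (hG.two ω).symm (hf1 x h4)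
        rcases hfar with h5 | h5
        · exact h5 x h1 h2 (hh x hs)
        · exact h5 _ (hG.other_bd h1) h3 (hh _ (hs.trans (Two.conn_other x)))

end general

/-- the planar chart around `y` -/
def pbox (T : Finset (ℤ × ℤ)) (y : ℤ × ℤ) (r : ℕ) : Box T (plane.glue T) r where
  φ := fun i j => (y.1 + i, y.2 + j)
  Λ := fun i j => bx (2 * r + 1) i j ∧ (y.1 + i, y.2 + j) ∈ T
  sub := fun _ _ h => h.1
  mem := fun _ _ h => h.2
  inj := fun i j i' j' _ _ h => by
    simp only [Prod.mk.injEq, add_right_inj] at h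
    exact h
  glue := by
    intro i j d h1 h2
    have hv : ((y.1 + i, y.2 + j) : ℤ × ℤ) + (sd d).vec = (y.1 + (i + d.dx), y.2 + (j + d.dy)) := by
      cases d <;> simp only [sd, Dir.vec, Walk.Dir.dx, Walk.Dir.dy, Prod.mk_add_mk] <;> ext <;> simp <;> ring
    rw [plane_glue]
    by_cases h3 : ((y.1 + i, y.2 + j) : ℤ × ℤ) ∈ T ∧ ((y.1 + i, y.2 + j) : ℤ × ℤ) + (sd d).vec ∈ T
    · right
      rw [if_pos h3, hv, sd_neg]
      rw [hv] at h3
      exact ⟨⟨h2, h3.2⟩, rfl⟩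
    · left
      rw [if_neg h3]

lemma pbox_mem {T : Finset (ℤ × ℤ)} {y : ℤ × ℤ} {r : ℕ} {t : ℤ × ℤ} :
    (∃ i j, (pbox T y r).Λ i j ∧ t = (pbox T y r).φ i j) ↔
      bx (2 * r + 1) (t.1 - y.1) (t.2 - y.2) ∧ t ∈ T := by
  constructor
  · rintro ⟨i, j, ⟨h1, h2⟩, rfl⟩
    refine ⟨?_, h2⟩
    simp only [pbox, add_sub_cancel_left]
    exact h1
  · rintro ⟨h1, h2⟩
    refine ⟨t.1 - y.1, t.2 - y.2, ⟨h1, ?_⟩, ?_⟩
    · simpa using h2
    · simp [pbox]

/-- the strands of a planar region and of the region with a hole -/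
theorem pc_hole {T W : Finset (ℤ × ℤ)} (hW : W ⊆ T) {r : ℕ} (hr : 1 ≤ r) {y : ℤ × ℤ}
    {A B : Set (Half (ℤ × ℤ))} (hAB : ∀ x, x ∈ A → x ∉ B)
    (hin : ∀ t ∈ T, t ∉ W → bx r (t.1 - y.1) (t.2 - y.2))
    (hfar : (∀ x, x.1 ∈ T → x ∈ A → ¬ bx (2 * r + 1) (x.1.1 - y.1) (x.1.2 - y.2)) ∨
      (∀ x, x.1 ∈ T → x ∈ B → ¬ bx (2 * r + 1) (x.1.1 - y.1) (x.1.2 - y.2)))
    (ω : Finset (ℤ × ℤ)) : pc T ω A B ≤ pc W ω A B + (pbox T y r).X ω := by
  refine cnt_hole (win_glue plane hW) hr (pbox T y r) hAB ?_ ?_ ω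
  · intro t ht htW
    have h1 := hin t ht htW
    refine ⟨t.1 - y.1, t.2 - y.2, ⟨?_, ?_⟩, h1, ?_⟩
    · unfold bx at h1 ⊢
      omega
    · simpa using ht
    · simp [pbox]
  · rcases hfar with h | h
    · left
      intro x hx hA h2
      exact h x hx.1 hA (pbox_mem.1 h2).1
    · right
      intro x hx hB h2
      exact h x hx.1 hB (pbox_mem.1 h2).1

/-- **the factor `1/√3` of a region with a hole** -/
theorem Ex_hole {q : ℝ} (hq : RswQ q) {η : ℝ} (hη : 0 < η) (hη' : η < 1) :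
    ∃ C : ℝ, 1 ≤ C ∧ ∀ (T W : Finset (ℤ × ℤ)) (r : ℕ) (y : ℤ × ℤ) (A B : Set (Half (ℤ × ℤ))) (D : ℝ),
      W ⊆ T → 1 ≤ r → (∀ x, x ∈ A → x ∉ B) → (∀ t ∈ T, t ∉ W → bx r (t.1 - y.1) (t.2 - y.2)) →
      ((∀ x, x.1 ∈ T → x ∈ A → ¬ bx (2 * r + 1) (x.1.1 - y.1) (x.1.2 - y.2)) ∨
        (∀ x, x.1 ∈ T → x ∈ B → ¬ bx (2 * r + 1) (x.1.1 - y.1) (x.1.2 - y.2))) →
      (∀ ω, pc W ω A B ≤ pc T ω A B) → 1 ≤ D → Ex T (fun ω => (4 / 3 : ℝ) ^ pc T ω A B) ≤ D →
      Ex W (fun ω => rh ^ pc W ω A B) ≤ (D ^ 2) ^ η * (Ex T (fun ω => rh ^ pc T ω A B) * C) := by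
  have hr0 := rh_pos
  have hr1 : 1 ≤ rh⁻¹ := by
    rw [one_le_inv₀ rh_pos]
    exact rh_le_one
  have hb : (0 : ℝ) < rh⁻¹ := by positivity
  obtain ⟨C, hC1, hC⟩ := macro_moment hq (Q := rh⁻¹ ^ (1 / η)) (Real.one_le_rpow hr1 (by positivity)) 1
  refine ⟨C, hC1, ?_⟩
  intro T W r y A B D hW hr hAB hin hfar hle hD hE
  have hEW : Ex W (fun ω => (4 / 3 : ℝ) ^ pc W ω A B) ≤ D := by
    rw [← Ex_local (W := W) (T := T) hW (fun S => by rw [pc_inter])]
    refine le_trans (Ex_mono fun ω _ => ?_) hE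
    exact pow_le_pow_right₀ (by norm_num) (hle ω)
  have key := Ex_lower ({()} : Finset Unit) (T := T) (W := fun _ => W)
    (X := fun _ ω => rh ^ pc W ω A B) (f := fun ω => rh ^ pc T ω A B)
    (M := fun ω => (pbox T y r).X ω) (b := rh⁻¹) (B := D ^ 2) (C := C) (η := η) hη hη'
    (one_le_pow₀ hD) hb hC1 (fun _ _ => hW) (fun k _ l _ hkl => absurd rfl hkl)
    (fun _ _ S => by rw [pc_inter]) (fun _ _ => tameE_reflex hD hEW) ?_ ?_
  · simpa using key
  · intro ω _
    have h1 := pc_hole hW hr (y := y) hAB hin hfar ω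
    rw [prod_singleton, inv_inv, ← pow_add]
    exact pow_le_pow_of_le_one hr0.le rh_le_one h1
  · have h2 := hC (ℤ × ℤ) T (plane.glue T) r Unit (fun _ => pbox T y r) (by simp) hr
    simpa using h2

/-- **a reflex corner with a hole** -/
theorem reflex_hole {q : ℝ} (hq : RswQ q) (H2 : CornerMoments) {ε : ℝ} (hε : 0 < ε) :
    ∃ C : ℝ, 1 ≤ C ∧ ∀ (m r : ℕ) (y : ℤ × ℤ) (W : Finset (ℤ × ℤ)), 1 ≤ m →
      ((y.1 = -1 ∧ 2 * (r : ℤ) < y.2) ∨ (y.2 = -1 ∧ 2 * (r : ℤ) < y.1)) → W ⊆ Lw m →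
      (∀ t ∈ Lw m, t ∉ W → bx r (t.1 - y.1) (t.2 - y.2)) →
      Ex W (fun ω => rh ^ pc W ω RA RB) ≤ C * (m : ℝ) ^ ε * rflx m := by
  obtain ⟨A, C0, hA, hC0, h2⟩ := H2
  obtain ⟨η, hη, hη', hε'⟩ := exists_eta hA hε 1
  obtain ⟨C1, hC1, h1⟩ := Ex_hole hq hη hη'
  refine ⟨C0 ^ (2 * 1) * C1, one_le_mul_of_one_le_of_one_le (one_le_pow₀ hC0) hC1, ?_⟩
  intro m r y W hm hy hW hin
  have hm' : (1 : ℝ) ≤ m := by exact_mod_cast hm
  have hpos : 0 ≤ rflx m := rflx_nonneg m
  have hloss := loss_le hC0 hη hη' hm hε'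
  rcases Nat.eq_zero_or_pos r with h0 | hr
  · subst h0
    have hWe : W = Lw m := by
      apply subset_antisymm hW
      intro t ht
      by_contra h3
      have := hin t ht h3
      unfold bx at this
      simp only [Nat.cast_zero, neg_zero] at this
      omega
    rw [hWe]
    have e : Ex (Lw m) (fun ω => rh ^ pc (Lw m) ω RA RB) = rflx m := rfl
    rw [e]
    have h3 : 1 ≤ C0 ^ (2 * 1) * C1 * (m : ℝ) ^ ε :=
      one_le_mul_of_one_le_of_one_le (one_le_mul_of_one_le_of_one_le (one_le_pow₀ hC0) hC1)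
        (Real.one_le_rpow hm' hε.le)
    exact le_mul_of_one_le_left hpos h3
  · have hB1 : 1 ≤ C0 * (m : ℝ) ^ A := one_le_mul_of_one_le_of_one_le hC0 (Real.one_le_rpow hm' hA)
    have h3 := h1 (Lw m) W r y RA RB (C0 * (m : ℝ) ^ A) hW hr ?_ hin ?_ ?_ hB1 (h2 m hm).2
    · have e : Ex (Lw m) (fun ω => rh ^ pc (Lw m) ω RA RB) = rflx m := rfl
      rw [e] at h3
      rw [pow_one] at hloss
      calc Ex W (fun ω => rh ^ pc W ω RA RB)
          ≤ ((C0 * (m : ℝ) ^ A) ^ 2) ^ η * (rflx m * C1) := h3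
        _ ≤ (C0 ^ (2 * 1) * (m : ℝ) ^ ε) * (rflx m * C1) := by
            apply mul_le_mul_of_nonneg_right hloss
            positivity
        _ = _ := by ring
    · intro x hx hx'
      simp only [RA, RB, Set.mem_ofPred_eq] at hx hx'
      rw [hx.1] at hx'
      exact absurd hx'.1 (by decide)
    · rcases hy with ⟨hy1, hy2⟩ | ⟨hy1, hy2⟩
      · right
        intro x _ hx hbx
        simp only [RB, Set.mem_ofPred_eq] at hx
        unfold bx at hbx
        omega
      · left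
        intro x _ hx hbx
        simp only [RA, Set.mem_ofPred_eq] at hx
        unfold bx at hbx
        omega
    · intro ω
      refine pc_lower hW ?_ ?_ ω
      · rintro ⟨⟨i, j⟩, d⟩ h4 hd h5
        simp only [RA, Set.mem_ofPred_eq] at hd
        obtain ⟨hd, hd2, hd3⟩ := hd
        subst hd
        rw [mem_Lw]
        simp only [Dir.vec, Prod.mk_add_mk]
        omega
      · rintro ⟨⟨i, j⟩, d⟩ h4 hd h5
        simp only [RB, Set.mem_ofPred_eq] at hd
        obtain ⟨hd, hd2, hd3⟩ := hd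
        subst hd
        rw [mem_Lw]
        simp only [Dir.vec, Prod.mk_add_mk]
        omega

end Full.Norm
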