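import Pool.Agent.Full.Norm.Rooms
import Pool.Agent.Full.Norm.Env

/-!
# The corners of a union of rooms are corners of rooms

`Rms.Ok.corner`: if one or three of the tiles around the vertex `v` are in the union of the rooms then
`v` is a corner of one of the rooms; `Rms.Ok.corner_cap`: the same for a cap made of rooms.
-/

set_option autoImplicit false

namespace Full.Norm
open Finset

namespace Rms
variable {K : Type*} {ρ : Rms K}

lemma card_around (v : ℤ × ℤ) (p : ℤ × ℤ → Prop) [DecidablePred p] :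
    #{t ∈ Cap.Env.around v | p t} = (if p (v.1 - 1, v.2 - 1) then 1 else 0) +
      ((if p (v.1 - 1, v.2) then 1 else 0) + ((if p (v.1, v.2 - 1) then 1 else 0) +
        if p (v.1, v.2) then 1 else 0)) := by
  obtain ⟨i, j⟩ := v
  unfold Cap.Env.around
  rw [Finset.card_filter, Finset.sum_insert, Finset.sum_insert, Finset.sum_insert, Finset.sum_singleton]
  · simp
  · simp
  · simp

/-- a vertex at which the number of the tiles of a room is odd is a corner of the room -/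
lemma corner_rm {a : K} {v : ℤ × ℤ} (h : Odd #{t ∈ Cap.Env.around v | t ∈ ρ.rm a}) :
    (v.1 = ρ.x0 a ∨ v.1 = ρ.x1 a) ∧ (v.2 = ρ.y0 a ∨ v.2 = ρ.y1 a) := by
  rw [card_around] at h
  simp only [mem_rm] at h
  by_contra hc
  rw [Nat.odd_iff] at h
  split_ifs at h <;> omega

/-- rooms are disjoint -/
lemma Ok.disj {w : ℕ} {G : Set K} (h : ρ.Ok w G) {a b : K} (ha : a ∈ G) (hb : b ∈ G) (hab : a ≠ b)
    {t : ℤ × ℤ} (h1 : t ∈ ρ.rm a) (h2 : t ∈ ρ.rm b) : False := by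
  rw [mem_rm] at h1 h2
  rcases h.sep a ha b hb hab with h3 | h3 | h3
  · unfold Sep at h3
    omega
  · have := h3.1
    omega
  · have := h3.1
    omega

/-- **corners of a union of rooms** -/
theorem Ok.corner {w : ℕ} {G : Set K} (h : ρ.Ok w G) (F : Finset K) (hF : ∀ a ∈ F, a ∈ G) {v : ℤ × ℤ}
    (hv : #{t ∈ Cap.Env.around v | t ∈ ρ.reg F} = 1 ∨ #{t ∈ Cap.Env.around v | t ∈ ρ.reg F} = 3) :
    ∃ a ∈ F, (v.1 = ρ.x0 a ∨ v.1 = ρ.x1 a) ∧ (v.2 = ρ.y0 a ∨ v.2 = ρ.y1 a) := by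
  classical
  by_contra hc
  push Not at hc
  have h1 : ({t ∈ Cap.Env.around v | t ∈ ρ.reg F} : Finset (ℤ × ℤ)) =
      F.biUnion fun a => {t ∈ Cap.Env.around v | t ∈ ρ.rm a} := by
    ext t
    simp only [Finset.mem_filter, Finset.mem_biUnion, mem_reg]
    constructor
    · rintro ⟨h2, a, ha, h3⟩
      exact ⟨a, ha, h2, h3⟩
    · rintro ⟨a, ha, h2, h3⟩
      exact ⟨h2, a, ha, h3⟩
  have h2 : #{t ∈ Cap.Env.around v | t ∈ ρ.reg F} = ∑ a ∈ F, #{t ∈ Cap.Env.around v | t ∈ ρ.rm a} := by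
    rw [h1]
    refine Finset.card_biUnion fun a ha b hb hab => ?_
    rw [Function.onFun, Finset.disjoint_left]
    intro t ht ht'
    exact h.disj (hF a ha) (hF b hb) hab (Finset.mem_filter.1 ht).2 (Finset.mem_filter.1 ht').2
  have h3 : Even #{t ∈ Cap.Env.around v | t ∈ ρ.reg F} := by
    rw [h2]
    refine Finset.even_sum _ fun a ha => ?_
    by_contra h4
    rw [Nat.not_even_iff_odd] at h4
    have h5 := corner_rm h4
    exact (hc a ha h5.1).1 (h5.2.resolve_right fun h6 => (hc a ha h5.1).2 h6)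
  rcases hv with h4 | h4
  · rw [h4] at h3
    exact absurd h3 (by decide)
  · rw [h4] at h3
    exact absurd h3 (by decide)

open Classical in
/-- a cap made of rooms is a union of rooms -/
lemma cap_reg {F : Finset K} {q : K} {D : Cap} (hU : D.U = ρ.reg F) (hl : D.l = ρ.x0 q)
    (hr : D.r = ρ.x1 q) (hy : D.y = ρ.y0 q) (ht : D.t = ρ.y1 q) : D.R = ρ.reg (insert q F) := by
  ext ⟨i, j⟩
  rw [Cap.mem_R, hU, mem_reg, mem_reg]
  constructor
  · rintro (⟨a, ha, h2⟩ | h2)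
    · exact ⟨a, mem_insert_of_mem ha, h2⟩
    · refine ⟨q, mem_insert_self _ _, ?_⟩
      rw [mem_rm, ← hl, ← hr, ← hy, ← ht]
      exact h2
  · rintro ⟨a, ha, h2⟩
    rcases mem_insert.1 ha with h3 | h3
    · right
      rw [h3, mem_rm, ← hl, ← hr, ← hy, ← ht] at h2
      exact h2
    · exact Or.inl ⟨a, h3, h2⟩

/-- **corners of a cap made of rooms** -/
theorem Ok.corner_cap {w : ℕ} {G : Set K} (h : ρ.Ok w G) {F : Finset K} (hF : ∀ a ∈ F, a ∈ G)
    {q : K} (hGq : q ∈ G) {D : Cap} (hU : D.U = ρ.reg F) (hl : D.l = ρ.x0 q) (hr : D.r = ρ.x1 q)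
    (hy : D.y = ρ.y0 q) (ht : D.t = ρ.y1 q) {v : ℤ × ℤ}
    (hv : #{t ∈ Cap.Env.around v | t ∈ D.R} = 1 ∨ #{t ∈ Cap.Env.around v | t ∈ D.R} = 3) :
    (v.1 = D.l ∨ v.1 = D.r) ∧ D.y ≤ v.2 ∧ v.2 ≤ D.t ∨
      ∃ a ∈ F, (v.1 = ρ.x0 a ∨ v.1 = ρ.x1 a) ∧ (v.2 = ρ.y0 a ∨ v.2 = ρ.y1 a) := by
  classical
  rw [cap_reg hU hl hr hy ht] at hv
  obtain ⟨a, ha, h1, h2⟩ := h.corner (insert q F) (fun a ha => by
    rcases mem_insert.1 ha with h3 | h3
    · rw [h3]; exact hGq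
    · exact hF a h3) hv
  rcases mem_insert.1 ha with h3 | h3
  · left
    subst h3
    have := D.hyt
    rw [← hl, ← hr] at h1
    rw [← hy, ← ht] at h2
    refine ⟨h1, ?_, ?_⟩
    · omega
    · omega
  · exact Or.inr ⟨a, h3, h1, h2⟩

end Rms

end Full.Norm
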