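import Pool.Agent.Full.Norm.ShapeCap

/-!
# Moments of the number of the macroscopic strands of the doubles of the halves of the rows of a shape
-/

set_option autoImplicit false

open Finset Full.Norm
open Full.Perc (Ex)

namespace Full
namespace Shape

/-- **upper halves** -/
theorem moment_up (S : Shape) (hS : S.Ok) (hd : S.Tree) {Q : ℝ} (hQ : 1 ≤ Q) (K : ℕ) :
    ∃ C : ℝ, 1 ≤ C ∧ ∀ (n : ℕ) (s : S.Q × Bool → ℕ) (hs : S.Small2 n s) (r : S.R) (y : ℤ) (w m : ℕ)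
      (hm : 1 ≤ m) (hw : 2 * m + 1 ≤ w) (hn : 16 * w ≤ n), n ≤ K * m →
      ∀ (hb : (S.zslab hS hs hd (.inl r)).b ≤ y) (ht : y < (S.zslab hS hs hd (.inl r)).t)
        (hy' : y + 4 * w ≤ S.ft n (.inl r)),
      Ex (upCap (S.zslab hS hs hd (.inl r)) y hb ht).T2 (fun ω =>
        Q ^ Cap.tot (tame_up hS hs (by omega : 1 ≤ w) hn hd hb ht hy') hw ω) ≤ C := by
  obtain ⟨C, hC1, hC⟩ := Cap.exists_moment hQ (K * (2 * S.bd + 2))
  refine ⟨C, hC1, fun n s hs r y w m hm hw hn hK hb ht hy' => ?_⟩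
  refine hC _ w _ m _ hw hm ?_
  refine (Nat.div_le_iff_le_mul_add_pred (by omega)).2 ?_
  calc n * (2 * S.bd + 2) ≤ K * m * (2 * S.bd + 2) := Nat.mul_le_mul_right _ hK
    _ = m * (K * (2 * S.bd + 2)) := by ring
    _ ≤ _ := Nat.le_add_right _ _

/-- **reflected lower halves** -/
theorem moment_low (S : Shape) (hS : S.Ok) (hd : S.Tree) {Q : ℝ} (hQ : 1 ≤ Q) (K : ℕ) :
    ∃ C : ℝ, 1 ≤ C ∧ ∀ (n : ℕ) (s : S.Q × Bool → ℕ) (hs : S.Small2 n s) (r : S.R) (y : ℤ) (w m : ℕ)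
      (hm : 1 ≤ m) (hw : 2 * m + 1 ≤ w) (hn : 16 * w ≤ n), n ≤ K * m →
      ∀ (hb : (S.zslab hS hs hd (.inl r)).b < y) (ht : y ≤ (S.zslab hS hs hd (.inl r)).t)
        (hy : S.fb n (.inl r) + 4 * w ≤ y),
      Ex (lowCap (S.zslab hS hs hd (.inl r)) y hb ht).T2 (fun ω =>
        Q ^ Cap.tot (tame_low hS hs (by omega : 1 ≤ w) hn hd hb ht hy) hw ω) ≤ C := by
  obtain ⟨C, hC1, hC⟩ := Cap.exists_moment hQ (K * (2 * S.bd + 2))
  refine ⟨C, hC1, fun n s hs r y w m hm hw hn hK hb ht hy => ?_⟩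
  refine hC _ w _ m _ hw hm ?_
  refine (Nat.div_le_iff_le_mul_add_pred (by omega)).2 ?_
  calc n * (2 * S.bd + 2) ≤ K * m * (2 * S.bd + 2) := Nat.mul_le_mul_right _ hK
    _ = m * (K * (2 * S.bd + 2)) := by ring
    _ ≤ _ := Nat.le_add_right _ _

end Shape
end Full
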