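import Pool.Agent.Full.Norm.Env

/-!
# The statement of the norm bound of a cap

`CapNorm`: the square of the norm of the sum of the vectors of a cap over the positions of `p` screening
pairs, with `#M` marks, is at most `C n ^ ((2 p - #M) / 3 + ε) √3 ^ (number of wall ends)`.
-/

set_option autoImplicit false

namespace Full.Norm
open Finset Function Full.X3

/-- the number of the wall ends of a cap -/
noncomputable def Cap.wl (D : Cap) : ℕ := by
  classical
  exact ((ends D.R D.g).filter fun x => x ∉ D.C).card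

/-- **the norm bound of a cap** -/
def CapNorm : Prop := ∀ p K : ℕ, ∀ ε : ℝ, 0 < ε → ∃ C : ℝ, 1 ≤ C ∧
  ∀ (D : Cap) (E : D.Env p) (n w A m R : ℕ), E.Ok K n w A m R →
  ∀ (φ : (Fin p → Half (ℤ × ℤ)) → Half (ℤ × ℤ) → ℝ) (ψ : ℝ),
  (∀ a ∈ Fintype.piFinset E.Y, D.PhLaw (φ a) (E.chg a) ψ) → ∀ N : ℕ, D.r = D.l + N →
  ∑ s : Fin N → Bool, ‖∑ a ∈ Fintype.piFinset E.Y, D.vec N (uph (φ a)) s‖ ^ 2 ≤
    C * (n : ℝ) ^ ((2 * (p : ℝ) - (E.M.card : ℝ)) / 3 + ε) * Real.sqrt 3 ^ D.wl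

end Full.Norm
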