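import Pool.Agent.Full.Norm.EnvLb
import Pool.Agent.Full.Norm.SumRed
import Pool.Agent.Full.Norm.MarkEz
import Pool.Agent.Full.Norm.PosFlat
import Pool.Agent.Full.Norm.ShapeIsCap
import Pool.Agent.Full.Norm.Scales
import Pool.Agent.Full.Norm.Join
import Pool.Agent.Full.Norm.WallNum
import Pool.Agent.Full.Bad.SlabOdd
import Pool.Agent.Full.Asm.S1Geo

/-!
# The norm above

`upBd`: the norm bound for the vector above a row of a shape, from the norm bound of caps and the law of the
phases of the upper cap.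
-/

set_option autoImplicit false

namespace Full.Norm
open Finset Function Full.X3 SixV Matrix Filter

/-- the labels and the law of the phases of the upper cap -/
def UpLaw : Prop := ∀ (D : Slab) (W : Lab) (a nL nU k : ℤ) (E : Fin 3 → Half ZT) (x y : ℤ),
  D.Rdy W a nL nU k E x y → ∀ (y' : ℤ) (hb : D.b ≤ y') (ht : y' < D.t),
    ((upCap D y' hb ht).Lb a nU fun x => W.pos (Slab.eU x) - W.P) ∧
      ∀ (C : ℤ → ℤ) (s : ℤ), C W.P - C (W.P + nU - 1) - s + 1 = 0 →
        (upCap D y' hb ht).PhLaw (D.phU W C s) (fun x => if x = (upCap D y' hb ht).se then 0 else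
          C (W.pos (Slab.eU x)) - C (W.pos (Slab.eU x) + 1)) (8 * K0 * (s - 1))

section marks
variable {S : Shape} {m : S.Marks} {n : ℕ} {r : S.R} {W : Lab} {σ : Fin 4 → ℕ} {s : Fin 3}

/-- the marks above: the mark of the trio and the charged marks -/
abbrev MuU (W : Lab) (E : Fin 3 → Half ZT) : Type := {i : Fin 3 // i = 2 ∨ W.P < W.pos (E i)}

lemma sum_muU (E : Fin 3 → Half ZT) (f : Fin 3 → ℤ) : ∑ j : MuU W E, f j.1 =
    (if W.P < W.pos (E 0) then f 0 else 0) + (if W.P < W.pos (E 1) then f 1 else 0) + f 2 := by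
  have h : ∑ i ∈ univ.filter (fun i : Fin 3 => i = 2 ∨ W.P < W.pos (E i)), f i = ∑ j : MuU W E, f j.1 :=
    Finset.sum_subtype _ (by intro x; rw [mem_filter]; exact and_iff_right (mem_univ _)) f
  rw [← h, sum_filter, Fin.sum_univ_three]
  simp

lemma card_muU (E : Fin 3 → Half ZT) : (Fintype.card (MuU W E) : ℤ) =
    (if W.P < W.pos (E 0) then 1 else 0) + (if W.P < W.pos (E 1) then 1 else 0) + 1 := by
  have h := sum_muU (W := W) E fun _ => 1
  rw [sum_const, card_univ, nsmul_eq_mul, mul_one] at h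
  exact h


lemma stp_step (g q : ℤ) : stp g q - stp g (q + 1) = -(if g = q + 1 then 1 else 0) := by
  unfold stp
  split_ifs <;> omega

variable {D : Slab} {a nL nU k : ℤ} {E : Fin 3 → Half ZT}

/-- charges of the marks above, pairs of the marks below -/
lemma B1_diff (hW : W.Ok D a nL nU) (hM : MarksOk D W a nL nU E) (hs : W.pos (E 2) < W.P) {q : ℤ}
    (hq : W.P ≤ q) : Slab.B1 W a k E q - Slab.B1 W a k E (q + 1) =
      (if W.P < W.pos (E 0) then (if q = W.pos (E 0) - 1 then 1 else 0) else 0) +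
      (if W.P < W.pos (E 1) then (if q = W.pos (E 1) - 1 then 1 else 0) else 0) +
      (if q = W.P + (a - 1 - k) - 1 then 1 else 0) := by
  have h1 := hM.lt
  have h2 := hM.far 0
  have h4 := hW.P_eq
  have e0 := stp_step (W.pos (E 0)) q
  have e1 := stp_step (W.pos (E 1)) q
  have e2 := stp_step W.P q
  have e3 := stp_step (W.P - (-a + 1 + k)) q
  unfold Slab.B1 Chg.dc chgOf
  simp only
  rw [if_neg (show ¬ W.pos (E 1) = q + 1 by omega)] at e1
  rw [if_neg (show ¬ W.P = q + 1 by omega)] at e2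
  rw [if_neg (show ¬ W.P < W.pos (E 1) by omega)]
  split_ifs at e0 e3 ⊢ <;> omega

/-- charges of the marks above, pairs of the marks above -/
lemma B2_diff (hM : MarksOk D W a nL nU E) (hs : W.P < W.pos (E 1)) {q : ℤ}
    (hq : W.P ≤ q) : Slab.B2 W a k E q - Slab.B2 W a k E (q + 1) =
      (if W.P < W.pos (E 0) then (if q = W.pos (E 0) - 1 then 1 else 0) else 0) +
      (if W.P < W.pos (E 1) then (if q = W.pos (E 1) - 1 then 1 else 0) else 0) +
      (if q = W.P + (a - 1 - k) - 1 then 1 else 0) := by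
  have h1 := hM.lt
  have h2 := hM.far 0
  have e0 := stp_step (W.pos (E 0)) q
  have e1 := stp_step (W.pos (E 1)) q
  have e2 := stp_step W.P q
  have e3 := stp_step (W.P - (-a + 1 + k)) q
  unfold Slab.B2
  rw [if_neg (show ¬ W.P = q + 1 by omega)] at e2
  rw [if_pos hs]
  split_ifs at e0 e1 e3 ⊢ <;> omega

/-- the charge of the seam -/
lemma B1_seam (hbt : D.b < D.t) (hW : W.Ok D a nL nU) (hM : MarksOk D W a nL nU E) (hs : W.pos (E 2) < W.P) (hk : 1 ≤ k)
    (hak : 4 * k + 4 ≤ a) : Slab.B1 W a k E W.P - Slab.B1 W a k E (W.P + nU - 1) - 2 * ((1 : ℕ) : ℤ) -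
      Slab.sE W a k E + 1 = 0 := by
  have h1 := hM.lt
  have h2 := hM.far 0
  have h3 := Slab.le_nU hW (by omega)
  have h4 := hW.P_eq
  have f1 := hM.far 1
  unfold Slab.B1 Slab.sE Chg.dc chgOf
  simp only
  have e1 : stp (W.pos (E 1)) W.P = 1 := if_pos (by omega)
  have e2 : stp (W.pos (E 1)) (W.P + nU - 1) = 1 := if_pos (by omega)
  have e3 : stp W.P W.P = 1 := if_pos le_rfl
  have e4 : stp W.P (W.P + nU - 1) = 1 := if_pos (by omega)
  have e5 : stp (W.P - (-a + 1 + k)) W.P = 0 := if_neg (by omega)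
  have e6 : stp (W.P - (-a + 1 + k)) (W.P + nU - 1) = 1 := if_pos (by omega)
  have e7 : stp (W.pos (E 0)) (W.P + nU - 1) = 1 := if_pos (by omega)
  rw [e1, e2, e3, e4, e5, e6, e7]
  push_cast
  ring

lemma B2_seam (hbt : D.b < D.t) (hW : W.Ok D a nL nU) (hM : MarksOk D W a nL nU E) (hs : W.P < W.pos (E 1)) (hk : 1 ≤ k)
    (hak : 4 * k + 4 ≤ a) (h2' : W.pos (E 2) < W.P + nU - a) :
    Slab.B2 W a k E W.P - Slab.B2 W a k E (W.P + nU - 1) - 2 * ((2 : ℕ) : ℤ) - Slab.sE W a k E + 1 = 0 := by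
  have h1 := hM.lt
  have h2 := hM.far 0
  have h3 := Slab.le_nU hW (by omega)
  have h4 := hW.P_eq
  unfold Slab.B2 Slab.sE Chg.dc chgOf
  simp only
  have e1 : stp (W.pos (E 1)) W.P = 0 := if_neg (by omega)
  have e2 : stp (W.pos (E 1)) (W.P + nU - 1) = 1 := if_pos (by omega)
  have e3 : stp W.P W.P = 1 := if_pos le_rfl
  have e4 : stp W.P (W.P + nU - 1) = 1 := if_pos (by omega)
  have e5 : stp (W.P - (-a + 1 + k)) W.P = 0 := if_neg (by omega)
  have e6 : stp (W.P - (-a + 1 + k)) (W.P + nU - 1) = 1 := if_pos (by omega)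
  have e7 : stp (W.pos (E 0)) (W.P + nU - 1) = 1 := if_pos (by omega)
  rw [e1, e2, e3, e4, e5, e6, e7]
  push_cast
  ring

end marks


section geo
variable {S : Shape} {m : S.Marks} {n : ℕ} {r : S.R} {W : Lab} {a nL nU k : ℤ} {s : Fin 3}

/-- the labels of the pairs of the trio are in the right dead end -/
lemma mem_trio {u : ℤ} (hu : u ∈ trio a k) : a - 2 - 3 * k ≤ u ∧ u ≤ a - 2 - k := by
  unfold trio at hu
  obtain ⟨i, hi, rfl⟩ := mem_image.1 hu
  rw [mem_range] at hi
  omega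

lemma mem_evn {j u : ℤ} {N : ℕ} (hu : u ∈ evn j N) : j ≤ u ∧ u ≤ j + 2 * N - 2 := by
  unfold evn at hu
  obtain ⟨i, hi, rfl⟩ := mem_image.1 hu
  rw [mem_range] at hi
  omega

end geo

/-- the bound of the norm of a sum over labels in the upper cap of a row -/
theorem up_core {S : Shape} (hS : S.Ok) {m : S.Marks} (hm : m.Ok) {r : S.R} {K p n w mm R : ℕ} {ε X : ℝ}
    (hK : 4 * Fintype.card S.Q + 3 ≤ K)
    (hX : ∀ (D : Cap) (E : D.Env p), E.Ok (8 * (K + 2) ^ 2) n w (n * (2 * S.bd + 2)) mm R →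
      ∀ (φ : (Fin p → Half (ℤ × ℤ)) → Half (ℤ × ℤ) → ℝ) (ψ : ℝ),
      (∀ a ∈ Fintype.piFinset E.Y, D.PhLaw (φ a) (E.chg a) ψ) → ∀ N : ℕ, D.r = D.l + N →
      ∑ s : Fin N → Bool, ‖∑ a ∈ Fintype.piFinset E.Y, D.vec N (uph (φ a)) s‖ ^ 2 ≤
        X * (n : ℝ) ^ ((2 * (p : ℝ) - (E.M.card : ℝ)) / 3 + ε) * Real.sqrt 3 ^ D.wl)
    (hw : 1 ≤ w) (hwn : 64 * w ≤ n) (hmm : 1 ≤ mm) (hmR : 100 * mm + 100 ≤ R) (hRw : 4 * R ≤ w)
    (hnK : n ≤ K * mm) (hBK : n * (2 * S.bd + 2) ≤ K * mm) (hRn : R ≤ n) (hU : UpLaw) {a : Shape.Sh S n} {D : Slab}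
    (hD : Shape.IsSlab n a.s (.inl r) D) {W : Lab} {a' nL nU k : ℤ} {s : Fin 3} {x y : ℤ}
    (hR : D.Rdy W a' nL nU k (fun i => m.ez n a.σ (.inl r) (i + s).castSucc) x y) (hk : (n : ℤ) ≤ 16 * k)
    {y' : ℤ} (hb : D.b ≤ y') (ht : y' < D.t) (hy' : y' + 4 * w ≤ D.t) {T : Fin p → Finset ℤ}
    (hT : ∀ i, ∀ u ∈ T i, (R : ℤ) + 2 ≤ u ∧ u + R + 2 ≤ nU)
    (hsep : ∀ i j, i ≠ j → ∀ u ∈ T i, ∀ v ∈ T j, (u + 4 * R + 2 ≤ a' ∧ a' ≤ v) ∨ (v + 4 * R + 2 ≤ a' ∧ a' ≤ u))
    {B : ℤ → ℤ} (hB : ∀ q, W.P ≤ q → B q - B (q + 1) =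
      (if W.P < W.pos (m.ez n a.σ (.inl r) ((0 : Fin 3) + s).castSucc) then
        (if q = W.pos (m.ez n a.σ (.inl r) ((0 : Fin 3) + s).castSucc) - 1 then 1 else 0) else 0) +
      (if W.P < W.pos (m.ez n a.σ (.inl r) ((1 : Fin 3) + s).castSucc) then
        (if q = W.pos (m.ez n a.σ (.inl r) ((1 : Fin 3) + s).castSucc) - 1 then 1 else 0) else 0) +
      (if q = W.P + (a' - 1 - k) - 1 then 1 else 0)) {sm : ℤ}
    (hBs : B W.P - B (W.P + nU - 1) - 2 * (p : ℤ) - sm + 1 = 0) :
    ∑ c, ‖(∑ v ∈ Fintype.piFinset T, D.vup (D.FC W (cC B fun i => W.P + v i) sm) y') c‖ ^ 2 ≤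
      X * (n : ℝ) ^ ((2 * (p : ℝ) - ((1 + (if W.P < W.pos (m.ez n a.σ (.inl r) ((0 : Fin 3) + s).castSucc) then 1 else 0) +
        if W.P < W.pos (m.ez n a.σ (.inl r) ((1 : Fin 3) + s).castSucc) then 1 else 0) : ℝ)) / 3 + ε) *
        Real.sqrt 3 ^ nU.toNat := by
  classical
  set E : Fin 3 → Half ZT := fun i => m.ez n a.σ (.inl r) (i + s).castSucc with hE
  have hn8 : 8 ≤ n := by omega
  have hs : S.Small2 n a.s := ⟨hn8, fun v => by
    have := (a.1 v).2
    have h1 : a.s v = (a.1 v : ℕ) := rfl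
    omega⟩
  have hσ : ∀ j, 4 * a.σ j ≤ n := fun j => by
    have := (a.2 j).2
    have h1 : a.σ j = (a.2 j : ℕ) := rfl
    omega
  have hd : S.Tree := Shape.tree hS
  obtain rfl := hD.eq hS hs
  have hW := hR.ok
  have hM := hR.marks
  have hak := hR.hak
  have hk1 := hR.hk
  have hbt : (S.zslab hS hs hd (.inl r)).b < (S.zslab hS hs hd (.inl r)).t := by omega
  obtain ⟨hl, hph⟩ := hU _ W a' nL nU k E x y hR y' hb ht
  have hnU := Slab.le_nU hW (by omega)
  have hcap := Shape.isCap_up hS hs hw (by omega) hd hb ht hy'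
  have htame := Shape.tame_up hS hs hw (by omega) hd hb ht hy'
  -- the marks
  set g : ℤ := a' - 1 - k with hg
  have hlow : ∀ i : Fin 3, W.P < W.pos (E i) → ¬ m.Low (.inl r) (i + s).castSucc := by
    intro i hi hlo
    have h1 : E i = Slab.eL (Rms.fme false (m.pL n a.σ (i + s).castSucc)) := Shape.Marks.ez_low hm hlo
    have h2 := hM.wall i
    rw [h1] at h2 hi
    exact absurd hi (not_lt.2 (Slab.pos_low hW hbt h2).le)
  have hup : ∀ i : Fin 3, W.P < W.pos (E i) → E i = Slab.eU (Rms.fma true (m.pU n a.σ (i + s).castSucc)) :=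
    fun i hi => Shape.Marks.ez_up hm (hlow i hi)
  have hpart : ∀ i : Fin 3, W.P < W.pos (E i) → (Sum.inl (m.room (i + s).castSucc) : S.Q) ∈ S.part (.inl r) true :=
    fun i hi => Shape.Marks.up_of_not_low hS (hlow i hi)
  set P : MuU W E → ℤ × ℤ := fun j => if j.1 = 2 then
    ((upCap (S.zslab hS hs hd (.inl r)) y' hb ht).r - g, (upCap (S.zslab hS hs hd (.inl r)) y' hb ht).t) else
    m.pU n a.σ (j.1 + s).castSucc with hP
  set u : MuU W E → Bool := fun j => if j.1 = 2 then false else true with hu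
  set room : MuU W E → S.Q := fun j => if j.1 = 2 then .inl r else .inl (m.room (j.1 + s).castSucc) with hroomd
  have hj : ∀ j : MuU W E, j.1 ≠ 2 → W.P < W.pos (E j.1) := fun j h => j.2.resolve_left h
  have hroom : ∀ j, (room j = .inl r ∧ u j = false) ∨ room j ∈ S.partF (.inl r) true := by
    intro j
    rw [hroomd, hu]
    by_cases h : j.1 = 2
    · simp only [if_pos h]
      exact Or.inl ⟨trivial, trivial⟩
    · simp only [if_neg h]
      exact Or.inr (Shape.mem_partF.2 (hpart _ (hj j h)))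
  have hgR : ((2 * R + 2 : ℕ) : ℤ) < g ∧ g + ((2 * R + 2 : ℕ) : ℤ) < a' := by
    rw [hg]
    push_cast
    omega
  have flat : ∀ j, (S.upRms n a.s (.inl r) y').Flat (S.partF (.inl r) true) (.inl r) (2 * R + 2) (room j) (u j)
      (P j) := by
    intro j
    rw [hroomd, hu, hP]
    by_cases h : j.1 = 2
    · simp only [if_pos h]
      exact hcap.trio_flat hl hgR.1 hgR.2
    · simp only [if_neg h]
      exact Shape.flat_up hS hm hs hσ (by omega) (hpart _ (hj j h))
  have far : ∀ j j', j ≠ j' → P j - P j' ∉ sqr (2 * R + 2) := by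
    intro j j' hne
    have hne1 : j.1 ≠ j'.1 := fun h => hne (Subtype.ext h)
    by_cases h : j.1 = 2
    · have h' : j'.1 ≠ 2 := fun h' => hne1 (h.trans h'.symm)
      have f1 := flat j'
      rw [hroomd, hu, hP] at f1
      rw [hP]
      simp only [if_pos h, if_neg h'] at f1 ⊢
      exact (hcap.far_right hl hgR.1 hgR.2 (Shape.mem_partF.2 (hpart _ (hj j' h'))) f1 (by omega)).1
    · by_cases h' : j'.1 = 2
      · have f1 := flat j
        rw [hroomd, hu, hP] at f1
        rw [hP]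
        simp only [if_neg h, if_pos h'] at f1 ⊢
        exact (hcap.far_right hl hgR.1 hgR.2 (Shape.mem_partF.2 (hpart _ (hj j h))) f1 (by omega)).2
      · rw [hP]
        simp only [if_neg h, if_neg h']
        refine Shape.far_up hS hm hs hσ (by omega) (by omega) hcap (fun h2 => hne1 ?_)
          (hpart _ (hj j h)) (hpart _ (hj j' h'))
        have h3 := Fin.castSucc_injective 3 h2
        exact add_right_cancel h3
  have hcardM : Fintype.card (MuU W E) ≤ 3 := by
    have h := Fintype.card_subtype_le fun i : Fin 3 => i = 2 ∨ W.P < W.pos (E i)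
    simpa using h
  obtain ⟨En, hEok, hEM, hEY, hEc⟩ := hcap.env_lb (o := fun x => W.pos (Slab.eU x) - W.P) (T := T) (K := K) (n := n)
    (B := 2 * S.bd + 2) (m := mm) (R := R) htame hmm hmR hRw hnK hBK hRn (μ := MuU W E)
    (by
      have h1 : (S.partF (.inl r) true).card ≤ Fintype.card S.Q := card_le_univ _
      omega) (Shape.card_partF hS hd r true)
    (fun i z hz hzT => hcap.plain_lb hl hz (by omega) (by omega) (hT i _ hzT).1 (hT i _ hzT).2)
    (fun i j hij z z' hz hz' hzT hzT' => by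
      rcases hsep i j hij _ hzT _ hzT' with h1 | h1
      · exact (hcap.sep_lb hl hz hz' hRw h1.1 h1.2).1
      · exact (hcap.sep_lb hl hz' hz hRw h1.1 h1.2).2)
    room hroom flat far
  -- the wall ends before the marks
  have hme : ∀ j, (upCap (S.zslab hS hs hd (.inl r)) y' hb ht).Wl (Rms.fme (u j) (P j)) ∧
      W.pos (Slab.eU (Rms.fme (u j) (P j))) = if j.1 = 2 then W.P + g - 1 else W.pos (E j.1) - 1 := by
    intro j
    have hwl : (upCap (S.zslab hS hs hd (.inl r)) y' hb ht).Wl (Rms.fme (u j) (P j)) :=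
      hcap.bd_flat (hroom j) (flat j) (by omega) (by omega)
    refine ⟨hwl, ?_⟩
    by_cases h : j.1 = 2
    · rw [if_pos h]
      have h1 := (Rms.IsCap.trio_me hl (g := g) (by omega) (by omega)).2
      rw [hu, hP]
      simp only [if_pos h]
      omega
    · rw [if_neg h]
      have h1 := hcap.next_flat (hroom j) (flat j) (by omega) (by omega)
      have h2 := hl.nxt _ hwl (by
        rw [hu]
        simp only [if_neg h]
        intro h3
        have h4 : Dir.S = Dir.N := congrArg Prod.snd h3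
        exact absurd h4 (by decide))
      rw [h1.2] at h2
      have h3 := h2.2
      have h4 : Slab.eU (Rms.fma (u j) (P j)) = E j.1 := by
        rw [hu, hP, hup _ (hj j h)]
        simp only [if_neg h]
      rw [h4] at h3
      omega
  have hfar : ∀ i : Fin 3, W.pos (E i) < W.P + nU - a' := fun i => by
    have := hM.far i
    have := hW.P_eq
    omega
  have hN : (upCap (S.zslab hS hs hd (.inl r)) y' hb ht).r = (upCap (S.zslab hS hs hd (.inl r)) y' hb ht).l +
      (((S.zslab hS hs hd (.inl r)).n + 1 : ℕ) : ℤ) := by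
    have h1 := (S.zslab hS hs hd (.inl r)).r_eq
    show (S.zslab hS hs hd (.inl r)).r = (S.zslab hS hs hd (.inl r)).l + _
    omega
  refine (Slab.up_red (s := sm) hb ht hl (fun C hC => hph C sm hC) (T := T) (fun i v hv => ?_)
    (me := fun j => Rms.fme (u j) (P j)) (fun j => ⟨(hme j).1, ?_⟩) (B := B) (fun q hq hq' => ?_) hBs En hEY hEc
    (fun φ ψ hφ => hX _ En hEok φ ψ hφ _ hN)).trans (le_of_eq ?_)
  · have := hT i v hv
    omega
  · rw [(hme j).2]
    split_ifs with h
    · omega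
    · have := hfar j.1
      omega
  · rw [hB q hq]
    have h1 : (∑ j : MuU W E, if q = W.pos (Slab.eU (Rms.fme (u j) (P j))) then (1 : ℤ) else 0) =
        ∑ j : MuU W E, (fun i : Fin 3 => if q = (if i = 2 then W.P + g - 1 else W.pos (E i) - 1) then (1 : ℤ) else 0)
          j.1 := Finset.sum_congr rfl fun j _ => by
      simp only [(hme j).2]
    refine Eq.trans ?_ (h1.trans (sum_muU (W := W) E fun i : Fin 3 =>
      if q = (if i = 2 then W.P + g - 1 else W.pos (E i) - 1) then (1 : ℤ) else 0)).symm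
    simp only [Fin.reduceEq, if_false, if_true]
    rfl
  · rw [wl_up hW hb ht, hEM]
    have h2 : ((Fintype.card (MuU W E) : ℕ) : ℝ) = 1 + (if W.P < W.pos (E 0) then 1 else 0) +
        if W.P < W.pos (E 1) then 1 else 0 := by
      have h3 := card_muU (W := W) E
      have h4 : ((Fintype.card (MuU W E) : ℤ) : ℝ) = (((if W.P < W.pos (E 0) then 1 else 0) +
        (if W.P < W.pos (E 1) then 1 else 0) + 1 : ℤ) : ℝ) := by rw [h3]
      push_cast at h4
      rw [h4]
      ring
    rw [h2]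

/-- **the norm above** -/
theorem upBd (hC : CapNorm) (hU : UpLaw) : UpBd := by
  intro S hS m hm A hA hCh r κ hκ ε hε
  obtain ⟨K, hK1, hK⟩ := exists_scales (2 * S.bd + 2) (4 * Fintype.card S.Q + 3) hκ
  obtain ⟨C1, hC1, h1⟩ := hC 1 (8 * (K + 2) ^ 2) ε hε
  obtain ⟨C2, hC2, h2⟩ := hC 2 (8 * (K + 2) ^ 2) ε hε
  refine ⟨max C1 C2, le_trans (by linarith) (le_max_left _ _), ?_⟩
  filter_upwards [hK] with n hn a D hD W a' nL nU k s x y hR hk p hp hp'
  obtain ⟨w, mm, R, hw, hwn, hwκ, hmm, hmR, hRw, hnK, hBK, hRn⟩ := hn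
  have hb : D.b ≤ D.t - 1 - p := by omega
  have ht : D.t - 1 - (p : ℤ) < D.t := by omega
  have hbt : D.b < D.t := by omega
  have hwp : 4 * w ≤ p := by
    have h3 : 4 * (w : ℝ) ≤ p := hwκ.trans hp
    exact_mod_cast h3
  have hy' : D.t - 1 - (p : ℤ) + 4 * w ≤ D.t := by omega
  have hW := hR.ok
  have hM := hR.marks
  have hak := hR.hak
  have hk1 := hR.hk
  have hlt := hM.lt
  have hnU := Slab.le_nU hW (by omega)
  have hf1 := hM.far 1
  have hf2 := hM.far 2
  have hP := hW.P_eq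
  have htr : ∀ u ∈ trio a' k, (R : ℤ) + 2 ≤ u ∧ u + R + 2 ≤ nU := fun u hu => by
    have := mem_trio hu
    omega
  rcases hM.side with hs | hs
  · rw [Slab.OE_low hW hs hk1 hak hp']
    have h := up_core hS hm hK1 (fun D E hE φ ψ hφ N hN => h1 D E n w _ mm R hE φ ψ hφ N hN) hw hwn hmm hmR hRw
      hnK hBK hRn hU hD hR hk hb ht hy' (T := fun _ => trio a' k) (fun _ => htr)
      (fun i j hij => absurd (Subsingleton.elim i j) hij) (B := Slab.B1 W a' k _)
      (fun q hq => B1_diff hW hM hs hq) (B1_seam hbt hW hM hs hk1 hak)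
    refine h.trans ?_
    have e : upE W (fun i => m.ez n a.σ (.inl r) (i + s).castSucc) =
        (2 * ((1 : ℕ) : ℝ) - ((1 + (if W.P < W.pos (m.ez n a.σ (.inl r) ((0 : Fin 3) + s).castSucc) then 1 else 0) +
        if W.P < W.pos (m.ez n a.σ (.inl r) ((1 : Fin 3) + s).castSucc) then 1 else 0) : ℝ)) / 3 := by
      unfold upE
      rw [if_neg (show ¬ W.P < W.pos (m.ez n a.σ (.inl r) ((1 : Fin 3) + s).castSucc) by omega)]
      push_cast
      ring
    rw [e]
    gcongr
    exact le_max_left _ _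
  · have hrow := hR
    obtain ⟨wl, hwl⟩ := hR.wall
    obtain ⟨N, hN1, hN⟩ := Slab.odd_marks (D := D) (x := x) (y := y) (by have := hR.good.xl; omega)
      (by have := hR.good.xr; omega) hR.yb hR.yt hW (by omega) hM hwl
    have h2P : W.pos (m.ez n a.σ (.inl r) ((2 : Fin 3) + s).castSucc) < W.P + nU - a' := by omega
    rw [Slab.OE_up hW hs hlt (by omega) hk1 hak hN hp']
    have hev : ∀ u ∈ evn (W.pos (m.ez n a.σ (.inl r) ((1 : Fin 3) + s).castSucc) - W.P) N,
        a' ≤ u ∧ u + a' < nU := fun u hu => by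
      have := mem_evn hu
      omega
    have h := up_core hS hm hK1 (fun D E hE φ ψ hφ N hN => h2 D E n w _ mm R hE φ ψ hφ N hN) hw hwn hmm hmR hRw
      hnK hBK hRn hU hD hR hk hb ht hy'
      (T := ![trio a' k, evn (W.pos (m.ez n a.σ (.inl r) ((1 : Fin 3) + s).castSucc) - W.P) N])
      (fun i u hu => by
        fin_cases i
        · exact htr u hu
        · have := hev u hu
          omega)
      (fun i j hij u hu v hv => by
        fin_cases i <;> fin_cases j
        · exact absurd rfl hij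
        · have h3 := mem_trio hu
          have h4 := hev v hv
          left
          omega
        · have h3 := mem_trio hv
          have h4 := hev u hu
          right
          omega
        · exact absurd rfl hij) (B := Slab.B2 W a' k _)
      (fun q hq => B2_diff hM hs hq) (B2_seam hbt hW hM hs hk1 hak h2P)
    refine h.trans ?_
    have e : upE W (fun i => m.ez n a.σ (.inl r) (i + s).castSucc) =
        (2 * ((2 : ℕ) : ℝ) - ((1 + (if W.P < W.pos (m.ez n a.σ (.inl r) ((0 : Fin 3) + s).castSucc) then 1 else 0) +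
        if W.P < W.pos (m.ez n a.σ (.inl r) ((1 : Fin 3) + s).castSucc) then 1 else 0) : ℝ)) / 3 := by
      unfold upE
      rw [if_pos hs]
      push_cast
      ring
    rw [e]
    gcongr
    exact le_max_right _ _

end Full.Norm
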