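import Pool.Agent.Full.Norm.Env
import Pool.Agent.Full.Norm.CapDat

/-!
# Visible vertices

If both walls of a corner are visible in a chart, then its vertex is visible, and the number of the tiles
around it is the number of the quadrants.
-/

set_option autoImplicit false

namespace Full.Norm
open Finset Function

/-- **the vertex is visible** -/
lemma vertex_visible {v : ℤ × ℤ} {Q : Bool → Bool → Bool} {w : ℕ} (hQ : QAdm Q)
    {x y : Half (ℤ × ℤ)} (hx : Real v Q w x) (hy : Real v Q w y) (h1 : ps v x < 0) (h2 : 0 ≤ ps v y)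
    (hn : nq Q ≠ 2) : (-(w : ℤ) < v.1 ∧ v.1 < w) ∧ -(w : ℤ) < v.2 ∧ v.2 < w := by
  obtain ⟨⟨i, j⟩, d⟩ := x
  obtain ⟨⟨i', j'⟩, d'⟩ := y
  obtain ⟨v1, v2⟩ := v
  have hA := hQ true true
  have hB := hQ true false
  unfold Real at hx hy
  unfold nq at hn
  simp only [mem_QW, mem_sqr, QSet_iff, Bool.not_true, Bool.not_false] at hx hy hA hB ⊢
  clear hQ
  generalize Q true true = a1 at *
  generalize Q true false = a2 at *
  generalize Q false true = a3 at *
  generalize Q false false = a4 at *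
  cases a1 <;> cases a2 <;> cases a3 <;> cases a4 <;>
    simp only [Bool.false_eq_true, and_false, and_true, or_false, false_or, not_false_eq_true,
      false_and, if_true, if_false, forall_true_left, or_self]
      at hx hy hn hA hB ⊢
  all_goals
    cases d <;> simp only [Dir.vec, Prod.mk_add_mk, ps] at hx h1 <;>
    (try (exfalso; clear hy h2 hn; omega)) <;>
    cases d' <;> simp only [Dir.vec, Prod.mk_add_mk, ps] at hy h2 <;>
    omega

/-- the number of the tiles around a visible vertex -/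
lemma card_around {R : Finset (ℤ × ℤ)} {p v : ℤ × ℤ} {w : ℕ} {Q : Bool → Bool → Bool}
    (h : Cap.QBox R p w v Q) (hv : (-(w : ℤ) < v.1 - p.1 ∧ v.1 - p.1 < w) ∧
      -(w : ℤ) < v.2 - p.2 ∧ v.2 - p.2 < w) :
    ((#{t ∈ Cap.Env.around v | t ∈ R} : ℕ) : ℤ) = nq Q := by
  have key : ∀ a b : ℤ, -1 ≤ a → a ≤ 0 → -1 ≤ b → b ≤ 0 →
      ((v.1 + a, v.2 + b) ∈ R ↔ Q (decide (0 ≤ a)) (decide (0 ≤ b)) = true) := by
    intro a b h1 h2 h3 h4
    have h5 := h.2 (v.1 + a - p.1, v.2 + b - p.2) (by
      rw [mem_sqr]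
      simp only
      omega)
    have e : p + (v.1 + a - p.1, v.2 + b - p.2) = (v.1 + a, v.2 + b) := by
      refine Prod.ext ?_ ?_ <;> simp
    rw [e] at h5
    rw [h5]
    unfold QSet
    simp only
    have e1 : decide (v.1 ≤ v.1 + a) = decide (0 ≤ a) := by
      rw [decide_eq_decide]
      omega
    have e2 : decide (v.2 ≤ v.2 + b) = decide (0 ≤ b) := by
      rw [decide_eq_decide]
      omega
    rw [e1, e2]
  have k1 := key (-1) (-1) (by omega) (by omega) (by omega) (by omega)
  have k2 := key (-1) 0 (by omega) (by omega) (by omega) (by omega)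
  have k3 := key 0 (-1) (by omega) (by omega) (by omega) (by omega)
  have k4 := key 0 0 (by omega) (by omega) (by omega) (by omega)
  have e1 : decide ((0 : ℤ) ≤ -1) = false := by decide
  have e2 : decide ((0 : ℤ) ≤ 0) = true := by decide
  rw [e1] at k1 k2 k3
  rw [e2] at k2 k3 k4
  have ea : Cap.Env.around v = {(v.1 + -1, v.2 + -1), (v.1 + -1, v.2 + 0), (v.1 + 0, v.2 + -1),
      (v.1 + 0, v.2 + 0)} := by
    unfold Cap.Env.around
    simp only [add_zero, ← sub_eq_add_neg]
  rw [ea, filter_insert, filter_insert, filter_insert, filter_singleton]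
  simp only [k1, k2, k3, k4]
  unfold nq
  have d1 : ((v.1 + -1, v.2 + -1) : ℤ × ℤ) ≠ (v.1 + -1, v.2 + 0) := by
    intro h; have := congrArg Prod.snd h; simp only at this; omega
  have d2 : ((v.1 + -1, v.2 + -1) : ℤ × ℤ) ≠ (v.1 + 0, v.2 + -1) := by
    intro h; have := congrArg Prod.fst h; simp only at this; omega
  have d3 : ((v.1 + -1, v.2 + -1) : ℤ × ℤ) ≠ (v.1 + 0, v.2 + 0) := by
    intro h; have := congrArg Prod.fst h; simp only at this; omega
  have d4 : ((v.1 + -1, v.2 + 0) : ℤ × ℤ) ≠ (v.1 + 0, v.2 + -1) := by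
    intro h; have := congrArg Prod.fst h; simp only at this; omega
  have d5 : ((v.1 + -1, v.2 + 0) : ℤ × ℤ) ≠ (v.1 + 0, v.2 + 0) := by
    intro h; have := congrArg Prod.fst h; simp only at this; omega
  have d6 : ((v.1 + 0, v.2 + -1) : ℤ × ℤ) ≠ (v.1 + 0, v.2 + 0) := by
    intro h; have := congrArg Prod.snd h; simp only at this; omega
  generalize ((v.1 + -1, v.2 + -1) : ℤ × ℤ) = t1 at *
  generalize ((v.1 + -1, v.2 + 0) : ℤ × ℤ) = t2 at *
  generalize ((v.1 + 0, v.2 + -1) : ℤ × ℤ) = t3 at *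
  generalize ((v.1 + 0, v.2 + 0) : ℤ × ℤ) = t4 at *
  clear k1 k2 k3 k4 e1 e2 ea key h
  generalize Q true true = a1 at *
  generalize Q true false = a2 at *
  generalize Q false true = a3 at *
  generalize Q false false = a4 at *
  cases a1 <;> cases a2 <;> cases a3 <;> cases a4 <;> simp [d1, d2, d3, d4, d5, d6]

end Full.Norm
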