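import Pool.Agent.Full.Norm.WinStat
import Pool.Agent.Full.Norm.Wins

/-!
# Charts around the positions near a corner

`QChart.shift`: a chart around another place.  `Dat.shift_le`: a strand which is held by a chart around a
wall end and does not reach the other wall of the corner has a weight at most `√3`.  `no_corner`: two real
ends near a wall end at distance `> 2 r + 2` from the corner are on the same wall.
-/

set_option autoImplicit false
set_option linter.unusedSectionVars false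

namespace Full.Norm
open Finset Function Full.X3 Full.Corner

/-! ### shifted charts -/

namespace QChart
variable {τ : Type*} {T : Finset τ} {g : Half τ → Half τ} {w : ℕ}

lemma mem_QW_shift {v p t : ℤ × ℤ} {Q : Bool → Bool → Bool} {w w' : ℕ}
    (h : ∀ t ∈ sqr w', p + t ∈ sqr w) (ht : t ∈ QW (v - p) Q w') : p + t ∈ QW v Q w := by
  rw [mem_QW, QSet_sub] at ht
  exact mem_QW.2 ⟨h t ht.1, ht.2⟩

/-- the chart around the place `p` -/
def shift (c : QChart T g w) (p : ℤ × ℤ) (w' : ℕ) (h : ∀ t ∈ sqr w', p + t ∈ sqr w) :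
    QChart T g w' where
  φ := fun s => c.φ (p + s)
  v := c.v - p
  Q := c.Q
  adm := c.adm
  mem := fun s hs => c.mem _ (mem_QW_shift h hs)
  inj := fun s hs s' hs' he => add_left_cancel (c.inj _ (mem_QW_shift h hs) _ (mem_QW_shift h hs') he)
  glue := fun s hs d hd => by
    have h1 := mem_QW_shift h hd
    rw [← add_assoc] at h1
    have h2 := c.glue _ (mem_QW_shift h hs) d h1
    rw [h2, add_assoc]
  wall := fun s hs d hd hd' => by
    have h1 := h _ hd
    rw [QSet_sub] at hd'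
    rw [← add_assoc] at h1 hd'
    exact c.wall _ (mem_QW_shift h hs) d h1 hd'

variable [DecidableEq τ] {c : QChart T g w} {ω : Finset τ}

/-- a strand held by a shifted chart is held by the chart -/
lemma Held.of_shift {p : ℤ × ℤ} {w' w'' : ℕ} {h : ∀ t ∈ sqr w', p + t ∈ sqr w} (hw : w'' ≤ w)
    (hs : ∀ t ∈ sqr w', p + t ∈ sqr w'') {e : Half τ} (he : (c.shift p w' h).Held ω e) :
    (c.restr hw).Held ω e := by
  intro z hz
  obtain ⟨t, ht, h1⟩ := he z hz
  have ht' : t ∈ QW (c.v - p) c.Q w' := ht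
  exact ⟨p + t, mem_restr (mem_QW_shift h ht') (hs t (mem_QW.1 ht').1), h1⟩

/-- **a strand which is held by a shifted chart and does not enclose the corner** -/
theorem Dat.shift_le (hG : Glu T g) {φ : Half τ → ℝ} {μ : Half τ → ℤ} {Y : Finset (Half τ)}
    {p0 py : ℤ} (hd : c.Dat φ (-1) μ Y p0 py) {p : ℤ × ℤ} {w' w'' : ℕ}
    {h : ∀ t ∈ sqr w', p + t ∈ sqr w} (hw : w'' < w) (hs : ∀ t ∈ sqr w', p + t ∈ sqr w'')
    (hc : ∀ x x', c.Real x → c.Real x' → x.1 - p ∈ sqr w' → x'.1 - p ∈ sqr w' → c.ps x < 0 →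
      0 ≤ c.ps x' → False) {e : Half τ} (he : Bd T g e) (hh : (c.shift p w' h).Held ω e) :
    fw φ g ω e ≤ Real.sqrt 3 := by
  have h2 := hG.two ω
  obtain ⟨x, x', h1, h1', h3, h4, h5, h6, -, h7⟩ :=
    (Held.of_shift hw.le hs hh).pair hG hw he φ
  have hplace : ∀ y, c.Real y → Conn (mate ω) g e (c.im y) → y.1 - p ∈ sqr w' := by
    intro y hy hcy
    obtain ⟨t, ht, h8⟩ := hh _ hcy
    have ht' : t ∈ QW (c.v - p) c.Q w' := ht
    have h9 : c.φ y.1 = c.φ (p + t) := h8
    have h10 := c.inj _ hy.1 _ (mem_QW_shift h ht') h9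
    rw [h10, add_sub_cancel_left]
    exact (mem_QW.1 ht').1
  have hcx : Conn (mate ω) g e (c.im x) ∧ Conn (mate ω) g e (c.im x') := by
    have h8 : Conn (mate ω) g (c.im x) (c.im x') := by
      rw [← h6]
      exact Two.conn_other _
    rcases h5 with h | h
    · rw [h]
      exact ⟨Conn.refl _, h8⟩
    · rw [h]
      exact ⟨h2.symm h8, Conn.refl _⟩
  rw [h7, hd.fw_mir h1 h1' h3 h4]
  apply amp_le_sqrt3
  unfold hMir Sx
  rw [if_neg]
  · omega
  · rintro ⟨h8, h9⟩
    exact hc x x' h1 h1' (hplace x h1 hcx.1) (hplace x' h1' hcx.2) h8 h9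

end QChart

/-! ### walls of a corner -/

/-- the coordinates of a real end at the vertex `0` -/
lemma real_zero {Q : Bool → Bool → Bool} {w : ℕ} {x : Half (ℤ × ℤ)} (hx : Real 0 Q w x) :
    (x.2 = .W ∧ x.1.1 = 0 ∧ ps 0 x = -1 - x.1.2) ∨ (x.2 = .E ∧ x.1.1 = -1 ∧ ps 0 x = x.1.2) ∨
    (x.2 = .S ∧ x.1.2 = 0 ∧ ps 0 x = x.1.1) ∨ (x.2 = .N ∧ x.1.2 = -1 ∧ ps 0 x = -1 - x.1.1) := by
  obtain ⟨⟨i, j⟩, d⟩ := x
  unfold Real at hx
  simp only [mem_QW, mem_sqr, QSet_iff, Prod.fst_zero, Prod.snd_zero] at hx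
  unfold ps
  generalize Q true true = a1 at *
  generalize Q true false = a2 at *
  generalize Q false true = a3 at *
  generalize Q false false = a4 at *
  cases a1 <;> cases a2 <;> cases a3 <;> cases a4 <;>
    simp only [Bool.false_eq_true, and_false, and_true, or_false, false_or, not_false_eq_true,
      false_and, or_self] at hx
  all_goals
    cases d <;> simp only [Dir.vec, Prod.mk_add_mk, reduceCtorEq, false_and, true_and, false_or,
      or_false, Prod.fst_zero, Prod.snd_zero] at hx ⊢ <;> omega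

/-- the two walls of a corner are perpendicular -/
lemma real_perp {Q : Bool → Bool → Bool} {w : ℕ} {x x' : Half (ℤ × ℤ)} (hq : nq Q = 1 ∨ nq Q = 3)
    (hx : Real 0 Q w x) (hx' : Real 0 Q w x') (h1 : ps 0 x < 0) (h2 : 0 ≤ ps 0 x') :
    ((x.2 = .W ∨ x.2 = .E) ∧ (x'.2 = .S ∨ x'.2 = .N)) ∨
    ((x.2 = .S ∨ x.2 = .N) ∧ (x'.2 = .W ∨ x'.2 = .E)) := by
  obtain ⟨⟨i, j⟩, d⟩ := x
  obtain ⟨⟨i', j'⟩, d'⟩ := x'
  unfold Real at hx hx'
  unfold nq at hq
  unfold ps at h1 h2
  simp only [mem_QW, mem_sqr, QSet_iff, Prod.fst_zero, Prod.snd_zero] at hx hx' h1 h2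
  generalize Q true true = a1 at *
  generalize Q true false = a2 at *
  generalize Q false true = a3 at *
  generalize Q false false = a4 at *
  cases a1 <;> cases a2 <;> cases a3 <;> cases a4 <;>
    simp only [Bool.false_eq_true, and_false, and_true, or_false, false_or, not_false_eq_true,
      false_and, or_self, if_true, if_false] at hx hx' hq
  all_goals first
    | (exfalso; omega)
    | (cases d <;> cases d' <;> simp only [Dir.vec, Prod.mk_add_mk, reduceCtorEq, or_true, true_or,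
        and_true, true_and, or_false, false_or, and_false, false_and, or_self] at hx hx' h1 h2 ⊢ <;>
        omega)

/-- **two real ends near a wall end which is far from the corner are on the same wall** -/
lemma no_corner {Q : Bool → Bool → Bool} {w : ℕ} {x x' y : Half (ℤ × ℤ)} (hq : nq Q = 1 ∨ nq Q = 3)
    (hx : Real 0 Q w x) (hx' : Real 0 Q w x') (hy : Real 0 Q w y) {r : ℕ} (hr : r + 1 < rad y.1)
    (h1 : x.1 - y.1 ∈ sqr r) (h2 : x'.1 - y.1 ∈ sqr r) (h3 : ps 0 x < 0) (h4 : 0 ≤ ps 0 x') :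
    False := by
  have e1 := real_zero hx
  have e2 := real_zero hx'
  have e3 := real_zero hy
  have p1 := real_perp hq hx hx' h3 h4
  unfold rad at hr
  rw [mem_sqr] at h1 h2
  simp only [Prod.fst_sub, Prod.snd_sub] at h1 h2
  rcases lt_or_ge (ps 0 y) 0 with h5 | h5
  · have p2 := real_perp hq hy hx' h5 h4
    rcases p1 with ⟨a1 | a1, a2 | a2⟩ | ⟨a1 | a1, a2 | a2⟩ <;>
    rcases p2 with ⟨b1 | b1, b2 | b2⟩ | ⟨b1 | b1, b2 | b2⟩ <;>
    rw [a1] at e1 <;> rw [a2] at e2 b2 <;> rw [b1] at e3 <;>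
    simp only [reduceCtorEq, false_and, true_and, or_false, false_or] at e1 e2 e3 b2 <;> omega
  · have p2 := real_perp hq hx hy h3 h5
    rcases p1 with ⟨a1 | a1, a2 | a2⟩ | ⟨a1 | a1, a2 | a2⟩ <;>
    rcases p2 with ⟨b1 | b1, b2 | b2⟩ | ⟨b1 | b1, b2 | b2⟩ <;>
    rw [a1] at e1 b1 <;> rw [a2] at e2 <;> rw [b2] at e3 <;>
    simp only [reduceCtorEq, false_and, true_and, or_false, false_or] at e1 e2 e3 b1 <;> omega

end Full.Norm
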