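import Pool.Agent.Full.Norm.Stat
import Pool.Agent.Full.Norm.FinLoc

/-!
# What the geometry of the special points has to deliver

`WinStat Ge`: for every cap with special points there is an atlas of the double with the local laws, and for
every vector `a'` of mirror positions a list of local factors `G k` (marks, positions), charts `P i` around
the holes `H` in the windows of the corners, such that the hypotheses of `locBd_of` hold and the product of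
the bounds of the means is at most `C n ^ ε * Ge n a'`.
-/

set_option autoImplicit false
set_option linter.unusedSectionVars false

namespace Full.Norm
open Finset Function Full.X3 Full.Corner Full.Mom Full.Walk
open Full.Perc (Ex)

namespace Cap

/-- the positions of the screening pairs in the double -/
noncomputable def Y2 {p : ℕ} (a a' : Fin p → Half (ℤ × ℤ)) : Finset (Half ((ℤ × ℤ) ⊕ (ℤ × ℤ))) :=
  (univ.image fun i => dl (a i)) ∪ univ.image fun i => dr (a' i)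

/-- the marks of the double; in the mirror copy the mark is after the image of the wall which follows it -/
noncomputable def Env.mu2 {D : Cap} {p : ℕ} (E : D.Env p) : Half ((ℤ × ℤ) ⊕ (ℤ × ℤ)) → ℤ
  | (Sum.inl t, d) => E.μ (t, d)
  | (Sum.inr t, d) => ∑ c ∈ E.M, if (t, d.flip) = next D.g (E.me c) then 1 else 0

end Cap

open Classical in
/-- the list for the mirror positions `a'` -/
structure WinList {D : Cap} {p : ℕ} (E : D.Env p) (n : ℕ)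
    (φ : (Fin p → Half (ℤ × ℤ)) → Half (ℤ × ℤ) → ℝ) {κ : Type} [Fintype κ]
    (At : MAtlas D.T2 D.g2 κ) (a' : Fin p → Half (ℤ × ℤ)) (B1 : ℕ) (A0 v : ℝ) where
  σ : Type
  I : Type
  fσ : Fintype σ
  fI : Fintype I
  G : σ → Fct D.T2 D.g2
  r : I → ℕ
  P : ∀ i, QChart D.T2 D.g2 (2 * r i + 1)
  H : Finset ((ℤ × ℤ) ⊕ (ℤ × ℤ))
  E' : Finset (Half ((ℤ × ℤ) ⊕ (ℤ × ℤ)))
  uc : κ → ℝ
  ug : σ → ℝ
  cσ : Fintype.card σ ≤ B1
  cI : Fintype.card I ≤ B1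
  cE : E'.card ≤ B1
  hr : ∀ i, 1 ≤ r i
  /-- the holes are in the inner boxes of the charts `P i` -/
  hH : ∀ t ∈ H, ∃ i, ∀ d, (P i).Inn (r i) (t, d)
  hdis : ∀ b b', At.cn b → At.cn b' → b ≠ b' → ∀ t ∈ At.cA H b, ∀ t' ∈ At.cA H b',
    (At.c b).φ t ≠ (At.c b').φ t'
  hdis' : ∀ b k, At.cn b → ∀ t ∈ At.cA H b, ∀ t' ∈ (G k).A, (At.c b).φ t ≠ (G k).c.φ t'
  hdis'' : ∀ k k', k ≠ k' → ∀ t ∈ (G k).A, ∀ t' ∈ (G k').A, (G k).c.φ t ≠ (G k').c.φ t'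
  /-- the positions visible in corner charts -/
  hY : ∀ a ∈ Fintype.piFinset E.Y, ∀ b, At.cn b → ∀ x, (At.c b).Real x →
    (At.c b).im x ∈ Cap.Y2 a a' → (At.c b).im x ∈ E'
  hGw : ∀ a ∈ Fintype.piFinset E.Y, ∀ ω k e, (G k).Str ω e →
    fw (dph (φ a) (φ a')) D.g2 ω e ≤ (G k).z * Real.sqrt 3
  hP : ∀ a ∈ Fintype.piFinset E.Y, ∀ ω i e, Bd D.T2 D.g2 e → (P i).Held ω e →
    fw (dph (φ a) (φ a')) D.g2 ω e ≤ Real.sqrt 3
  hUc : ∀ b, At.cn b → LocUp ((n : ℝ) ^ A0) (uc b)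
    fun ω : D.T2 → Bool => zc (nq (At.c b).Q) ^ (At.cfct H b).cnt (ofBits D.T2 ω)
  hUg : ∀ k, LocUp ((n : ℝ) ^ A0) (ug k) fun ω : D.T2 → Bool => (G k).z ^ (G k).cnt (ofBits D.T2 ω)
  hv : (∏ b ∈ univ.filter At.cn, uc b) * ∏ k, ug k ≤ v

/-- **the statement of the geometric part** -/
def WinStat (Ge : ∀ (D : Cap) (p : ℕ), D.Env p → ℕ → ℕ → (Fin p → Half (ℤ × ℤ)) → ℝ) : Prop :=
  ∀ p K : ℕ, ∀ ε : ℝ, 0 < ε → ∃ (B1 : ℕ) (A0 C2 : ℝ), 0 ≤ A0 ∧ 0 ≤ C2 ∧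
  ∀ (D : Cap) (E : D.Env p) (n w A m R : ℕ), E.Ok K n w A m R →
  ∀ (φ : (Fin p → Half (ℤ × ℤ)) → Half (ℤ × ℤ) → ℝ) (ψ : ℝ),
  (∀ a ∈ Fintype.piFinset E.Y, D.PhLaw (φ a) (E.chg a) ψ) →
  ∃ (κ : Type) (_ : Fintype κ) (At : MAtlas D.T2 D.g2 κ), Fintype.card κ ≤ B1 ∧
    (∀ b, ¬ At.own b → ∀ x, (At.c b).Real x → ∀ u, (At.c b).im x ≠ dl u) ∧
    (∀ a ∈ Fintype.piFinset E.Y, ∀ a' ∈ Fintype.piFinset E.Y,
      At.Laws (dph (φ a) (φ a')) E.mu2 (Cap.Y2 a a')) ∧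
    ∀ a' ∈ Fintype.piFinset E.Y,
      Nonempty (WinList E n φ At a' B1 A0 (C2 * (n : ℝ) ^ ε * Ge D p E n R a'))

/-- **the sum over the mirror positions** -/
def SumStat (Ge : ∀ (D : Cap) (p : ℕ), D.Env p → ℕ → ℕ → (Fin p → Half (ℤ × ℤ)) → ℝ) : Prop :=
  ∀ p K : ℕ, ∃ C : ℝ, 1 ≤ C ∧ ∀ (D : Cap) (E : D.Env p) (n w A m R : ℕ), E.Ok K n w A m R →
    (∀ a ∈ Fintype.piFinset E.Y, 0 ≤ Ge D p E n R a) ∧
    ∑ a ∈ Fintype.piFinset E.Y, Ge D p E n R a ≤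
      C * (n : ℝ) ^ ((2 * (p : ℝ) - (E.M.card : ℝ)) / 3)

end Full.Norm
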